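import Pool.Agent.Lib.MP_6b0fe3_coR.ClassG

/-! MP_6b0fe3_co, recognition theorem: the base of a B-line -/

namespace Pool.Agent.Lib.MP_6b0fe3_coR

open Matrix

section main
variable {K : Type*} [Field K] [Fintype K] {Pt Ln : Type*} {I : Pt → Ln → Prop}
variable (H : Hex I (Fintype.card K)) (S : Sub K I)
include H

/-! H: base of a B-line -/

theorem base_exists (hLB : LB S) {M : Ln} (hM : BLine S M) :
    ∃ w ψ : Fin 3 → K, ψ ⬝ᵥ w = 1 ∧
      ∀ v, v ≠ 0 → ψ ⬝ᵥ v = 0 → ∃ x, I x M ∧ Over S x v (w ⨯₃ v) := by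
  -- two points on `M`
  have hcard := H.lineCard M
  have h1 : 1 < {x | I x M}.ncard := by
    rw [hcard]
    have := Fintype.one_lt_card (α := K)
    omega
  obtain ⟨x, hx, y, hy, hxy⟩ := (Set.one_lt_ncard_iff_nontrivial_and_finite.1 h1).1
  have hx' : I x M := hx
  have hy' : I y M := hy
  obtain ⟨v, k, hv⟩ := over_exists H S (out_of_bline H S hM hx')
  obtain ⟨v', k', hv'⟩ := over_exists H S (out_of_bline H S hM hy')
  obtain ⟨hne, hall⟩ := base_antiflag H S hLB hM hx' hy' hxy hv hv'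
  set w := k ⨯₃ k' with hw
  set ψ := v ⨯₃ v' with hψ
  have hne' : ψ ⬝ᵥ w ≠ 0 := by rwa [dotProduct_comm]
  refine ⟨w, (ψ ⬝ᵥ w)⁻¹ • ψ, ?_, ?_⟩
  · rw [smul_dotProduct, smul_eq_mul, inv_mul_cancel₀ hne']
  · intro u hu hu'
    have hu1 : u ⬝ᵥ ψ = 0 := by
      rw [smul_dotProduct, smul_eq_mul, mul_eq_zero] at hu'
      rw [dotProduct_comm]
      exact hu'.resolve_left (inv_ne_zero hne')
    obtain ⟨z, hz, hoz⟩ := hall u hu hu1
    refine ⟨z, hz, ?_⟩
    have e : w ⨯₃ u = (-1 : K) • (u ⨯₃ w) := by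
      rw [← cross_anticomm, neg_one_smul]
    have p := pt_smul' S hoz.1 (a := 1) (b := -1) one_ne_zero (neg_ne_zero.2 one_ne_zero)
    rw [one_smul, ← e] at p
    exact over_of_pt_eq S hoz p.1 p.2

theorem base_only {M : Ln} (hM : BLine S M) {w ψ : Fin 3 → K} (hψ : ψ ⬝ᵥ w = 1)
    (hb : ∀ v, v ≠ 0 → ψ ⬝ᵥ v = 0 → ∃ x, I x M ∧ Over S x v (w ⨯₃ v))
    {x : Pt} {v k : Fin 3 → K} (hx : I x M) (h : Over S x v k) :
    ψ ⬝ᵥ v = 0 ∧ k ⨯₃ (w ⨯₃ v) = 0 := by
  have key : ψ ⬝ᵥ v = 0 := by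
    by_contra hne
    obtain ⟨u, hu0, hu1, hu2⟩ := exists_orth ψ k
    obtain ⟨y, hy, hoy⟩ := hb u hu0 hu1
    have hxy : x ≠ y := by
      rintro rfl
      have := (over_unique H S (out_of_bline H S hM hx) h hoy).1
      obtain ⟨c, hc0, hc1⟩ := (cross_eq_zero_iff h.1.1 hu0).1 this
      rw [hc1, dotProduct_smul, smul_eq_mul, mul_eq_zero] at hu1
      exact hne (hu1.resolve_left hc0)
    have := (opp_of_bline H S hM hx hy hxy h hoy).2
    rw [dotProduct_comm] at this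
    exact this hu2
  refine ⟨key, ?_⟩
  obtain ⟨y, hy, hoy⟩ := hb v h.1.1 key
  by_cases hxy : x = y
  · subst hxy
    exact (over_unique H S (out_of_bline H S hM hx) h hoy).2
  · have := (opp_of_bline H S hM hx hy hxy h hoy).1
    rw [dot_cross_self] at this
    exact absurd rfl this

end main

end Pool.Agent.Lib.MP_6b0fe3_coR
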