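import Pool.Agent.Lib.MP_6b0fe3_coR.UniqL
import Pool.Agent.Lib.MP_6b0fe3_coR.BaseH

/-! MP_6b0fe3_co, recognition theorem: counting -/

namespace Pool.Agent.Lib.MP_6b0fe3_coR

open Matrix

/-! M: counting -/

namespace CountM

section vec
variable {K : Type*} [Field K]

theorem cross_smul' (a b : Fin 3 → K) (c : K) : a ⨯₃ (c • b) = c • (a ⨯₃ b) := by
  simp

theorem smul_cross' (a b : Fin 3 → K) (c : K) : (c • a) ⨯₃ b = c • (a ⨯₃ b) := by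
  simp

theorem dot3 (a b : Fin 3 → K) : a ⬝ᵥ b = a 0 * b 0 + a 1 * b 1 + a 2 * b 2 :=
  vec3_dotProduct a b

theorem cr0 (a b : Fin 3 → K) : (a ⨯₃ b) 0 = a 1 * b 2 - a 2 * b 1 := by
  simp [cross_apply]

theorem cr1 (a b : Fin 3 → K) : (a ⨯₃ b) 1 = a 2 * b 0 - a 0 * b 2 := by
  simp [cross_apply]

theorem cr2 (a b : Fin 3 → K) : (a ⨯₃ b) 2 = a 0 * b 1 - a 1 * b 0 := by
  simp [cross_apply]

omit [Field K] in
theorem ext3 {a b : Fin 3 → K} (h0 : a 0 = b 0) (h1 : a 1 = b 1) (h2 : a 2 = b 2) : a = b := by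
  funext i
  fin_cases i
  · exact h0
  · exact h1
  · exact h2

theorem cross_cross_l (e φ v : Fin 3 → K) :
    (e ⨯₃ φ) ⨯₃ v = (e ⬝ᵥ v) • φ - (v ⬝ᵥ φ) • e := by
  apply ext3 <;> simp only [cr0, cr1, cr2, dot3, Pi.sub_apply, Pi.smul_apply, smul_eq_mul] <;> ring

theorem cross_cross_r (ψ v r : Fin 3 → K) :
    ψ ⨯₃ (v ⨯₃ r) = (ψ ⬝ᵥ r) • v - (ψ ⬝ᵥ v) • r := by
  apply ext3 <;> simp only [cr0, cr1, cr2, dot3, Pi.sub_apply, Pi.smul_apply, smul_eq_mul] <;> ring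

theorem exists_smul_of_cross {a b : Fin 3 → K} (ha : a ≠ 0) (h : a ⨯₃ b = 0) :
    ∃ c : K, b = c • a := by
  have h0 : a 1 * b 2 = a 2 * b 1 := by
    have := congrFun h 0
    simp [cross_apply] at this
    linear_combination this
  have h1 : a 2 * b 0 = a 0 * b 2 := by
    have := congrFun h 1
    simp [cross_apply] at this
    linear_combination this
  have h2 : a 0 * b 1 = a 1 * b 0 := by
    have := congrFun h 2
    simp [cross_apply] at this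
    linear_combination this
  obtain ⟨i, hi⟩ : ∃ i, a i ≠ 0 := Function.ne_iff.1 ha
  refine ⟨b i / a i, ?_⟩
  funext j
  rw [Pi.smul_apply, smul_eq_mul, div_mul_eq_mul_div, eq_div_iff hi]
  fin_cases i <;> fin_cases j <;> simp only [Fin.zero_eta, Fin.mk_one, Fin.reduceFinMk] <;>
    first | ring1 | linear_combination h0 | linear_combination -h0 | linear_combination h1 |
      linear_combination -h1 | linear_combination h2 | linear_combination -h2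

theorem exists_dot_ne {a : Fin 3 → K} (ha : a ≠ 0) : ∃ e : Fin 3 → K, e ⬝ᵥ a ≠ 0 := by
  obtain ⟨i, hi⟩ : ∃ i, a i ≠ 0 := Function.ne_iff.1 ha
  exact ⟨Pi.single i 1, by simpa using hi⟩

/-- two independent vectors in the kernel of a form -/
theorem exists_ker {ψ : Fin 3 → K} (hψ : ψ ≠ 0) :
    ∃ v r : Fin 3 → K, ψ ⬝ᵥ v = 0 ∧ ψ ⬝ᵥ r = 0 ∧ v ⨯₃ r ≠ 0 := by
  obtain ⟨i, hi⟩ : ∃ i, ψ i ≠ 0 := Function.ne_iff.1 hψ
  have key : ∀ v r : Fin 3 → K, ψ ⬝ᵥ v = 0 → ψ ⬝ᵥ r = 0 → ∀ j, (v ⨯₃ r) j ≠ 0 →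
      ∃ v r : Fin 3 → K, ψ ⬝ᵥ v = 0 ∧ ψ ⬝ᵥ r = 0 ∧ v ⨯₃ r ≠ 0 := by
    intro v r h1 h2 j h3
    refine ⟨v, r, h1, h2, fun h => h3 ?_⟩
    rw [h]
    rfl
  fin_cases i
  · refine key ![-ψ 1, ψ 0, 0] ![-ψ 2, 0, ψ 0] ?_ ?_ 0 ?_
    · rw [vec3_dotProduct]; simp; ring
    · rw [vec3_dotProduct]; simp; ring
    · simpa [cross_apply] using hi
  · refine key ![ψ 1, -ψ 0, 0] ![0, -ψ 2, ψ 1] ?_ ?_ 1 ?_
    · rw [vec3_dotProduct]; simp; ring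
    · rw [vec3_dotProduct]; simp; ring
    · simpa [cross_apply] using hi
  · refine key ![ψ 2, 0, -ψ 0] ![0, ψ 2, -ψ 1] ?_ ?_ 2 ?_
    · rw [vec3_dotProduct]; simp; ring
    · rw [vec3_dotProduct]; simp; ring
    · simpa [cross_apply] using hi

theorem exists_indep {v v1 v2 : Fin 3 → K} (hv : v ≠ 0) (h : v1 ⨯₃ v2 ≠ 0) :
    v ⨯₃ v1 ≠ 0 ∨ v ⨯₃ v2 ≠ 0 := by
  by_contra hcon
  push Not at hcon
  obtain ⟨a, ha⟩ := exists_smul_of_cross hv hcon.1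
  obtain ⟨b, hb⟩ := exists_smul_of_cross hv hcon.2
  apply h
  rw [ha, hb, smul_cross', cross_smul', cross_self, smul_zero, smul_zero]

theorem exists_ker' {ψ v : Fin 3 → K} (hψ : ψ ≠ 0) (hv : v ≠ 0) :
    ∃ r : Fin 3 → K, ψ ⬝ᵥ r = 0 ∧ v ⨯₃ r ≠ 0 := by
  obtain ⟨v1, v2, h1, h2, h3⟩ := exists_ker hψ
  rcases exists_indep hv h3 with h | h
  · exact ⟨v1, h1, h⟩
  · exact ⟨v2, h2, h⟩

theorem exists_cross_ne {w : Fin 3 → K} (hw : w ≠ 0) : ∃ w' : Fin 3 → K, w ⨯₃ w' ≠ 0 := by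
  obtain ⟨r, -, h⟩ := exists_ker' hw hw
  exact ⟨r, h⟩

/-- a form with given values `1` and `0` -/
theorem exists_form {w v : Fin 3 → K} (h : w ⨯₃ v ≠ 0) :
    ∃ ψ : Fin 3 → K, ψ ⬝ᵥ w = 1 ∧ ψ ⬝ᵥ v = 0 := by
  obtain ⟨e, he⟩ := exists_dot_ne h
  refine ⟨(e ⬝ᵥ (w ⨯₃ v))⁻¹ • (v ⨯₃ e), ?_, ?_⟩
  · rw [smul_dotProduct, smul_eq_mul]
    have : (v ⨯₃ e) ⬝ᵥ w = e ⬝ᵥ (w ⨯₃ v) := by
      simp only [cr0, cr1, cr2, dot3]
      ring
    rw [this, inv_mul_cancel₀ he]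
  · rw [smul_dotProduct, smul_eq_mul]
    have : (v ⨯₃ e) ⬝ᵥ v = 0 := by
      simp only [cr0, cr1, cr2, dot3]
      ring
    rw [this, mul_zero]

theorem exists_form' {w v : Fin 3 → K} (h : w ⨯₃ v ≠ 0) :
    ∃ ψ : Fin 3 → K, ψ ⬝ᵥ w = 1 ∧ ψ ⬝ᵥ v = 1 := by
  have h1 : w ⨯₃ (v - w) ≠ 0 := by
    rw [map_sub, cross_self, sub_zero]
    exact h
  obtain ⟨ψ, h2, h3⟩ := exists_form h1
  refine ⟨ψ, h2, ?_⟩
  rw [dotProduct_sub, h2, sub_eq_zero] at h3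
  exact h3

/-- solving `w × v = φ` -/
theorem exists_w {v φ : Fin 3 → K} (hv : v ≠ 0) (h : v ⬝ᵥ φ = 0) :
    ∃ w : Fin 3 → K, w ⨯₃ v = φ := by
  obtain ⟨e, he⟩ := exists_dot_ne hv
  refine ⟨(e ⬝ᵥ v)⁻¹ • (e ⨯₃ φ), ?_⟩
  rw [smul_cross', cross_cross_l, h, zero_smul, sub_zero, smul_smul, inv_mul_cancel₀ he, one_smul]

theorem ne_of_dot {a b : Fin 3 → K} (h : a ⬝ᵥ b = 1) : a ≠ 0 ∧ b ≠ 0 := by
  constructor
  · rintro rfl
    simp at h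
  · rintro rfl
    simp at h

theorem cross_form {ψ v r : Fin 3 → K} (hψ : ψ ≠ 0) (hv : ψ ⬝ᵥ v = 0) (hr : ψ ⬝ᵥ r = 0) :
    ∃ c : K, v ⨯₃ r = c • ψ := by
  apply exists_smul_of_cross hψ
  rw [cross_cross_r, hv, hr, zero_smul, zero_smul, sub_zero]

theorem det_ne {ψ w v r : Fin 3 → K} (hψ : ψ ⬝ᵥ w = 1) (hv : ψ ⬝ᵥ v = 0) (hr : ψ ⬝ᵥ r = 0)
    (h : v ⨯₃ r ≠ 0) : w ⬝ᵥ (v ⨯₃ r) ≠ 0 := by
  obtain ⟨c, hc⟩ := cross_form (ne_of_dot hψ).1 hv hr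
  rw [hc, dotProduct_smul, dotProduct_comm, hψ, smul_eq_mul, mul_one]
  rintro rfl
  apply h
  rw [hc, zero_smul]

theorem cross_w_ne {ψ w v : Fin 3 → K} (hψ : ψ ⬝ᵥ w = 1) (hv : ψ ⬝ᵥ v = 0) (h0 : v ≠ 0) :
    w ⨯₃ v ≠ 0 := by
  intro h
  obtain ⟨c, hc⟩ := exists_smul_of_cross (ne_of_dot hψ).2 h
  rw [hc, dotProduct_smul, hψ, smul_eq_mul, mul_one] at hv
  apply h0
  rw [hc, hv, zero_smul]

/-- the only pair `(w', ψ')` proportional to `(w, ψ)` on two independent vectors -/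
theorem prop_pair {ψ w v r ψ' w' : Fin 3 → K} (hψ : ψ ⬝ᵥ w = 1) (hv : ψ ⬝ᵥ v = 0)
    (hr : ψ ⬝ᵥ r = 0) (h : v ⨯₃ r ≠ 0) (hψ' : ψ' ⬝ᵥ w' = 1) (hv' : ψ' ⬝ᵥ v = 0)
    (hr' : ψ' ⬝ᵥ r = 0) (h1 : (w ⨯₃ v) ⨯₃ (w' ⨯₃ v) = 0) (h2 : (w ⨯₃ r) ⨯₃ (w' ⨯₃ r) = 0) :
    ∃ a : K, a ≠ 0 ∧ w' = a • w ∧ ψ' = a⁻¹ • ψ := by
  have hv0 : v ≠ 0 := by
    rintro rfl
    simp at h
  have hr0 : r ≠ 0 := by
    rintro rfl
    simp at h
  obtain ⟨a, ha⟩ := exists_smul_of_cross (cross_w_ne hψ hv hv0) h1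
  obtain ⟨b, hb⟩ := exists_smul_of_cross (cross_w_ne hψ hr hr0) h2
  have h3 : v ⨯₃ (w' - a • w) = 0 := by
    have e1 : v ⨯₃ w' = -(w' ⨯₃ v) := (cross_anticomm w' v).symm
    have e2 : v ⨯₃ w = -(w ⨯₃ v) := (cross_anticomm w v).symm
    rw [map_sub, cross_smul', e1, e2, ha, smul_neg, sub_neg_eq_add, neg_add_cancel]
  have h4 : r ⨯₃ (w' - b • w) = 0 := by
    have e1 : r ⨯₃ w' = -(w' ⨯₃ r) := (cross_anticomm w' r).symm
    have e2 : r ⨯₃ w = -(w ⨯₃ r) := (cross_anticomm w r).symm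
    rw [map_sub, cross_smul', e1, e2, hb, smul_neg, sub_neg_eq_add, neg_add_cancel]
  obtain ⟨α, hα⟩ := exists_smul_of_cross hv0 h3
  obtain ⟨β, hβ⟩ := exists_smul_of_cross hr0 h4
  have h5 : ψ ⬝ᵥ w' = a := by
    have := congrArg (fun u => ψ ⬝ᵥ u) hα
    simp only [dotProduct_sub, dotProduct_smul, hψ, hv, smul_eq_mul, mul_one, mul_zero] at this
    exact sub_eq_zero.1 this
  have h6 : ψ ⬝ᵥ w' = b := by
    have := congrArg (fun u => ψ ⬝ᵥ u) hβ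
    simp only [dotProduct_sub, dotProduct_smul, hψ, hr, smul_eq_mul, mul_one, mul_zero] at this
    exact sub_eq_zero.1 this
  have h7 : a = b := h5.symm.trans h6
  subst h7
  have h8 : α • v = β • r := hα.symm.trans hβ
  have h9 : α = 0 := by
    have := congrArg (fun u => u ⨯₃ r) h8
    simp only [smul_cross', cross_self, smul_zero] at this
    exact (smul_eq_zero.1 this).resolve_right h
  have h10 : w' = a • w := by
    rw [h9, zero_smul] at hα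
    exact sub_eq_zero.1 hα
  have ha0 : a ≠ 0 := by
    rintro rfl
    rw [h10, zero_smul, dotProduct_zero] at hψ'
    exact zero_ne_one hψ'
  refine ⟨a, ha0, h10, ?_⟩
  obtain ⟨c, hc⟩ := cross_form (ne_of_dot hψ).1 hv hr
  obtain ⟨c', hc'⟩ := cross_form (ne_of_dot hψ').1 hv' hr'
  have hc0 : c' ≠ 0 := by
    rintro rfl
    rw [zero_smul] at hc'
    exact h hc'
  have h11 : ψ' = (c'⁻¹ * c) • ψ := by
    rw [mul_smul, ← hc, hc', smul_smul, inv_mul_cancel₀ hc0, one_smul]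
  have h12 : c'⁻¹ * c * a = 1 := by
    rw [h11, h10, smul_dotProduct, dotProduct_smul, hψ, smul_eq_mul, smul_eq_mul, mul_one] at hψ'
    exact hψ'
  rw [h11]
  congr 1
  exact eq_inv_of_mul_eq_one_left h12

end vec

/-- a relation which is a bijection between two sets -/
theorem ncard_eq_of_rel {α β : Type*} {A : Set α} {B : Set β} (R : α → β → Prop)
    (h1 : ∀ a ∈ A, ∃ b ∈ B, R a b) (h2 : ∀ b ∈ B, ∃ a ∈ A, R a b)
    (u1 : ∀ a ∈ A, ∀ b ∈ B, ∀ b' ∈ B, R a b → R a b' → b = b')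
    (u2 : ∀ b ∈ B, ∀ a ∈ A, ∀ a' ∈ A, R a b → R a' b → a = a') : A.ncard = B.ncard := by
  choose f hf using h1
  refine Set.ncard_congr f (fun a ha => (hf a ha).1) ?_ ?_
  · intro a a' ha ha' h
    have h3 : R a' (f a ha) := by
      rw [h]
      exact (hf a' ha').2
    exact u2 (f a ha) (hf a ha).1 a ha a' ha' (hf a ha).2 h3
  · intro b hb
    obtain ⟨a, ha, hab⟩ := h2 b hb
    exact ⟨a, ha, u1 a ha _ (hf a ha).1 b hb (hf a ha).2 hab⟩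

end CountM

open CountM

section M
variable {K : Type*} [Field K] [Fintype K] {Pt Ln : Type*} {I : Pt → Ln → Prop}
variable (H : Hex I (Fintype.card K)) (S : Sub K I)

/-- the B-lines with given standard coordinates -/
def CountM.SA (S : Sub K I) (w ψ : Fin 3 → K) : Set Ln := {M | BLine S M ∧ Std S M w ψ}

/-- the A-lines over `(v, φ)` with an outside point represented by `w`, `w × v = φ` -/
def CountM.ST (S : Sub K I) (v φ : Fin 3 → K) : Set Ln :=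
  {t | ALine S v φ t ∧ ∃ x w ψ, I x t ∧ Out S x ∧ Rep S x v w ψ ∧ w ⨯₃ v = φ}

omit [Fintype K] in
theorem CountM.pt_eq_of_cross {v k k' : Fin 3 → K} (h : IsFlag v k) (h' : IsFlag v k')
    (hk : k ⨯₃ k' = 0) : S.pt v k = S.pt v k' := (S.pt_eq h h').2 ⟨cross_self v, hk⟩

include H

theorem CountM.eq_of_over {M : Ln} (hM : BLine S M) {x y : Pt} (hx : I x M) (hy : I y M)
    {v k k' : Fin 3 → K} (h : Over S x v k) (h' : Over S y v k') : x = y := by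
  by_contra hxy
  exact (opp_of_bline H S hM hx hy hxy h h').1 h'.1.2.2

theorem CountM.base_of_std {M : Ln} (hM : BLine S M) {w ψ : Fin 3 → K} (h : Std S M w ψ) {x : Pt}
    {v k : Fin 3 → K} (hx : I x M) (ho : Over S x v k) : ψ ⬝ᵥ v = 0 ∧ k ⨯₃ (w ⨯₃ v) = 0 :=
  base_only H S hM h.1 (fun v hv hψ => by
    obtain ⟨x, h1, h2, -⟩ := h.2 v hv hψ
    exact ⟨x, h1, h2⟩) hx ho

theorem CountM.rep_of_std {M : Ln} (hM : BLine S M) {w ψ : Fin 3 → K} (h : Std S M w ψ) {x : Pt}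
    {v k : Fin 3 → K} (hx : I x M) (ho : Over S x v k) : Rep S x v w ψ := by
  have hb := base_of_std H S hM h hx ho
  obtain ⟨x', hx', ho', hn⟩ := h.2 v ho.1.1 hb.1
  have h1 : x = x' := eq_of_over H S hM hx hx' ho ho'
  subst h1
  exact ⟨h.1, hb.1, ho', hn⟩

theorem std_coord_unique (h3 : ∀ c : K, c ^ 3 = 1 → c = 1) {M : Ln} (hM : BLine S M)
    {w ψ w' ψ' : Fin 3 → K} (h : Std S M w ψ) (h' : Std S M w' ψ') : w = w' ∧ ψ = ψ' := by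
  have key : ∀ v, v ≠ 0 → ψ ⬝ᵥ v = 0 → ∃ s : K, w' = w + s • v ∧ ψ' = ψ + s • (w ⨯₃ v) := by
    intro v hv hψ
    obtain ⟨x, hx, ho, -⟩ := h.2 v hv hψ
    exact rep_unique H S h3 (out_of_bline H S hM hx) (rep_of_std H S hM h hx ho)
      (rep_of_std H S hM h' hx ho)
  obtain ⟨v, r, hv, hr, hvr⟩ := exists_ker (ne_of_dot h.1).1
  have hv0 : v ≠ 0 := by
    rintro rfl
    simp at hvr
  have hr0 : r ≠ 0 := by
    rintro rfl
    simp at hvr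
  obtain ⟨s, hs, hs'⟩ := key v hv0 hv
  obtain ⟨s', hs1, -⟩ := key r hr0 hr
  have h4 : s • v = s' • r := add_left_cancel (hs.symm.trans hs1)
  have h5 : s = 0 := by
    have := congrArg (fun u => u ⨯₃ r) h4
    simp only [smul_cross', cross_self, smul_zero] at this
    exact (smul_eq_zero.1 this).resolve_right hvr
  rw [h5, zero_smul, add_zero] at hs hs'
  exact ⟨hs.symm, hs'.symm⟩

/-- the B-lines with coordinates `(w, ψ)` correspond to the A-lines in `T(v, w × v)` -/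
theorem CountM.ncard_SA_eq (h3 : ∀ c : K, c ^ 3 = 1 → c = 1)
    (hstd : ∀ M, BLine S M → ∃ w ψ, Std S M w ψ) {w ψ v : Fin 3 → K} (h : ψ ⬝ᵥ w = 1)
    (hv : ψ ⬝ᵥ v = 0) (hv0 : v ≠ 0) : (SA S w ψ).ncard = (ST S v (w ⨯₃ v)).ncard := by
  obtain ⟨r, hr, hvr⟩ := exists_ker' (ne_of_dot h).1 hv0
  have hr0 : r ≠ 0 := by
    rintro rfl
    simp at hvr
  have hdet : w ⬝ᵥ (v ⨯₃ r) ≠ 0 := det_ne h hv hr hvr
  have hfr : IsFlag r (w ⨯₃ r) := ⟨hr0, cross_w_ne h hr hr0, dot_cross_self w r⟩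
  have hopp : Opp v (w ⨯₃ v) r (w ⨯₃ r) := by
    constructor
    · have : v ⬝ᵥ (w ⨯₃ r) = - (w ⬝ᵥ (v ⨯₃ r)) := by
        simp only [cr0, cr1, cr2, dot3]
        ring
      rw [this]
      exact neg_ne_zero.2 hdet
    · have : r ⬝ᵥ (w ⨯₃ v) = w ⬝ᵥ (v ⨯₃ r) := by
        simp only [cr0, cr1, cr2, dot3]
        ring
      rw [this]
      exact hdet
  refine ncard_eq_of_rel (fun M t => ∃ x, I x M ∧ I x t ∧ Over S x v (w ⨯₃ v)) ?_ ?_ ?_ ?_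
  · -- the A-line through `x_v`
    rintro M ⟨hM, hMs⟩
    obtain ⟨x, hx, ho, -⟩ := hMs.2 v hv0 hv
    have hxo := out_of_bline H S hM hx
    obtain ⟨t, ht, hxt⟩ := aline_exists H S hxo ho
    exact ⟨t, ⟨ht, x, w, ψ, hxt, hxo, rep_of_std H S hM hMs hx ho, rfl⟩, x, hx, hxt, ho⟩
  · rintro t ⟨ht, x0, w0, ψ0, hx0, hox0, hrep0, hw0⟩
    obtain ⟨x, hxt, hox, hoxv, hn⟩ := near_on_aline H S ht hfr hopp
    obtain ⟨M, hM, hxM, z, hzM, hzo⟩ := bline_through H S hox hoxv hfr hopp hn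
    obtain ⟨w1, ψ1, hs⟩ := hstd M hM
    have hb1 := base_of_std H S hM hs hxM hoxv
    have hb2 := base_of_std H S hM hs hzM hzo
    obtain ⟨a, ha0, ha, ha'⟩ := prop_pair h hv hr hvr hs.1 hb1.1 hb2.1 hb1.2 hb2.2
    have hrep := rep_of_std H S hM hs hxM hoxv
    have h4 := rep_aline H S h3 ht hx0 hxt hox0 hox hrep0 hrep
    rw [hw0, ha, smul_cross'] at h4
    have h5 : a = 1 := by
      have h6 : (a - 1) • (w ⨯₃ v) = 0 := by
        rw [sub_smul, one_smul, h4, sub_self]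
      exact sub_eq_zero.1 ((smul_eq_zero.1 h6).resolve_right (cross_w_ne h hv hv0))
    rw [h5, one_smul] at ha
    rw [h5, inv_one, one_smul] at ha'
    subst ha ha'
    exact ⟨M, ⟨hM, hs⟩, x, hxM, hxt, hoxv⟩
  · -- uniqueness of the A-line
    rintro M ⟨hM, hMs⟩ t ⟨ht, -⟩ t' ⟨ht', -⟩ ⟨x, hx, hxt, ho⟩ ⟨x', hx', hxt', ho'⟩
    have h1 : x = x' := eq_of_over H S hM hx hx' ho ho'
    subst h1
    refine H.uniq hxt ht.2.1 hxt' ht'.2.1 ?_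
    exact out_of_bline H S hM hx v _ ho.1
  · -- uniqueness of the B-line
    rintro t ⟨ht, -⟩ M ⟨hM, hMs⟩ M' ⟨hM', hMs'⟩ ⟨x, hx, hxt, ho⟩ ⟨x', hx', hxt', ho'⟩
    obtain ⟨z, hz, hzo, -⟩ := hMs.2 r hr0 hr
    obtain ⟨z', hz', hzo', -⟩ := hMs'.2 r hr0 hr
    have hn : Near I x (S.pt r (w ⨯₃ r)) := ⟨z, ⟨M, hx, hz⟩, hzo.2⟩
    have hn' : Near I x' (S.pt r (w ⨯₃ r)) := ⟨z', ⟨M', hx', hz'⟩, hzo'.2⟩
    have h1 : x = x' := near_aline_unique H S ht hfr hopp hxt hxt' hn hn'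
    subst h1
    have hxo := out_of_bline H S hM hx
    have hxr : ¬ Coll I x (S.pt r (w ⨯₃ r)) := by
      intro hc
      exact hvr (over_unique H S hxo ho ⟨hfr, hc⟩).1
    have hxz : x ≠ z := by
      rintro rfl
      exact hxr hzo.2
    have hxz' : x ≠ z' := by
      rintro rfl
      exact hxr hzo'.2
    have hgz' : Coll I (S.pt r (w ⨯₃ r)) z' := by
      obtain ⟨l, h1, h2⟩ := hzo'.2
      exact ⟨l, h2, h1⟩
    rcases H.quadr ⟨M, hx, hz⟩ hzo.2 hgz' ⟨M', hz', hx'⟩ with hc | hc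
    · exact absurd hc hxr
    · obtain ⟨l, h1, h2, h3'⟩ := H.tri ⟨M, hx, hz⟩ hc ⟨M', hx', hz'⟩
      rw [H.uniq hx hz h1 h2 hxz, H.uniq hx' hz' h1 h3' hxz']

theorem CountM.ncard_SA_form (h3 : ∀ c : K, c ^ 3 = 1 → c = 1)
    (hstd : ∀ M, BLine S M → ∃ w ψ, Std S M w ψ) {w ψ ψ' : Fin 3 → K} (h : ψ ⬝ᵥ w = 1)
    (h' : ψ' ⬝ᵥ w = 1) : (SA S w ψ).ncard = (SA S w ψ').ncard := by
  by_cases h0 : ψ ⨯₃ ψ' = 0
  · obtain ⟨c, hc⟩ := exists_smul_of_cross (ne_of_dot h).1 h0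
    rw [hc, smul_dotProduct, h, smul_eq_mul, mul_one] at h'
    rw [hc, h', one_smul]
  · rw [ncard_SA_eq H S h3 hstd h (dot_self_cross ψ ψ') h0,
      ncard_SA_eq H S h3 hstd h' (dot_cross_self ψ ψ') h0]

theorem CountM.ncard_SA_vec (h3 : ∀ c : K, c ^ 3 = 1 → c = 1)
    (hstd : ∀ M, BLine S M → ∃ w ψ, Std S M w ψ) {w w' ψ : Fin 3 → K} (h : ψ ⬝ᵥ w = 1)
    (h' : ψ ⬝ᵥ w' = 1) : (SA S w ψ).ncard = (SA S w' ψ).ncard := by
  by_cases h0 : w' - w = 0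
  · rw [sub_eq_zero.1 h0]
  · have h1 : ψ ⬝ᵥ (w' - w) = 0 := by
      rw [dotProduct_sub, h, h', sub_self]
    have h2 : w' ⨯₃ (w' - w) = w ⨯₃ (w' - w) := by
      rw [map_sub, map_sub, cross_self, cross_self, zero_sub, sub_zero, cross_anticomm]
    rw [ncard_SA_eq H S h3 hstd h h1 h0, ncard_SA_eq H S h3 hstd h' h1 h0, h2]

theorem CountM.ncard_SA_indep (h3 : ∀ c : K, c ^ 3 = 1 → c = 1)
    (hstd : ∀ M, BLine S M → ∃ w ψ, Std S M w ψ) {w ψ w' ψ' : Fin 3 → K} (h : ψ ⬝ᵥ w = 1)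
    (h' : ψ' ⬝ᵥ w' = 1) (hw : w ⨯₃ w' ≠ 0) : (SA S w ψ).ncard = (SA S w' ψ').ncard := by
  obtain ⟨ψ2, h1, h2⟩ := exists_form' hw
  rw [ncard_SA_form H S h3 hstd h h1, ncard_SA_vec H S h3 hstd h1 h2,
    ncard_SA_form H S h3 hstd h2 h']

theorem CountM.ncard_SA_smul (h3 : ∀ c : K, c ^ 3 = 1 → c = 1)
    (hstd : ∀ M, BLine S M → ∃ w ψ, Std S M w ψ) {w ψ : Fin 3 → K} (h : ψ ⬝ᵥ w = 1) {c : K}
    (hc : c ≠ 0) : (SA S (c • w) (c⁻¹ • ψ)).ncard = (SA S w ψ).ncard := by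
  obtain ⟨w', hw'⟩ := exists_cross_ne (ne_of_dot h).2
  have h1 : (c⁻¹ • ψ) ⬝ᵥ (c • w) = 1 := by
    rw [smul_dotProduct, dotProduct_smul, h, smul_eq_mul, smul_eq_mul, mul_one,
      inv_mul_cancel₀ hc]
  obtain ⟨ψ', h2, h2'⟩ := exists_form' hw'
  rw [ncard_SA_indep H S h3 hstd h h2' hw']
  refine ncard_SA_indep H S h3 hstd h1 h2' ?_
  rw [smul_cross']
  exact smul_ne_zero hc hw'

omit [Fintype K] H in
theorem CountM.aline_smul {v φ : Fin 3 → K} (h : IsFlag v φ) {c : K} (hc : c ≠ 0) {t : Ln} :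
    ALine S v (c • φ) t ↔ ALine S v φ t := by
  have h1 : IsFlag v (c • φ) := ⟨h.1, smul_ne_zero hc h.2.1, by rw [dotProduct_smul, h.2.2,
    smul_zero]⟩
  have h2 : S.pt v (c • φ) = S.pt v φ := pt_eq_of_cross S h1 h (by
    rw [smul_cross', cross_self, smul_zero])
  have h4 : S.ll (c • φ) = S.ll φ := (S.ll_eq h1.2.1 h.2.1).2 (by
    rw [smul_cross', cross_self, smul_zero])
  unfold ALine
  rw [h2, h4]
  constructor
  · rintro ⟨-, h5⟩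
    exact ⟨h, h5⟩
  · rintro ⟨-, h5⟩
    exact ⟨h1, h5⟩

/-- every A-line lies in exactly one of the classes `T(v, c φ)` -/
theorem CountM.exists_class (hstd : ∀ M, BLine S M → ∃ w ψ, Std S M w ψ) {v φ : Fin 3 → K} (h : IsFlag v φ) {t : Ln}
    (ht : ALine S v φ t) : ∃ c : Kˣ, t ∈ ST S v ((c : K) • φ) := by
  obtain ⟨w, hw⟩ := exists_w h.1 h.2.2
  have hwv : w ⨯₃ v ≠ 0 := by
    rw [hw]
    exact h.2.1
  obtain ⟨ψ, hψ, hψv⟩ := exists_form hwv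
  obtain ⟨r, hr, hvr⟩ := exists_ker' (ne_of_dot hψ).1 h.1
  have hr0 : r ≠ 0 := by
    rintro rfl
    simp at hvr
  have hdet : w ⬝ᵥ (v ⨯₃ r) ≠ 0 := det_ne hψ hψv hr hvr
  have hfr : IsFlag r (w ⨯₃ r) := ⟨hr0, cross_w_ne hψ hr hr0, dot_cross_self w r⟩
  have hopp : Opp v φ r (w ⨯₃ r) := by
    rw [← hw]
    constructor
    · have : v ⬝ᵥ (w ⨯₃ r) = - (w ⬝ᵥ (v ⨯₃ r)) := by
        simp only [cr0, cr1, cr2, dot3]
        ring
      rw [this]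
      exact neg_ne_zero.2 hdet
    · have : r ⬝ᵥ (w ⨯₃ v) = w ⬝ᵥ (v ⨯₃ r) := by
        simp only [cr0, cr1, cr2, dot3]
        ring
      rw [this]
      exact hdet
  obtain ⟨x, hxt, hox, hoxv, hn⟩ := near_on_aline H S ht hfr hopp
  obtain ⟨M, hM, hxM, -⟩ := bline_through H S hox hoxv hfr hopp hn
  obtain ⟨w1, ψ1, hs⟩ := hstd M hM
  have hb := base_of_std H S hM hs hxM hoxv
  obtain ⟨c, hc⟩ := exists_smul_of_cross h.2.1 hb.2
  have hrep := rep_of_std H S hM hs hxM hoxv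
  have hc0 : c ≠ 0 := by
    rintro rfl
    rw [zero_smul] at hc
    exact cross_w_ne hs.1 hb.1 h.1 hc
  exact ⟨Units.mk0 c hc0, (aline_smul S h hc0).2 ht, x, w1, ψ1, hxt, hox, hrep, hc⟩

theorem CountM.class_unique (h3 : ∀ c : K, c ^ 3 = 1 → c = 1) {v φ : Fin 3 → K} (h : IsFlag v φ) {t : Ln}
    {c c' : K} (hc : c ≠ 0) (ht : t ∈ ST S v (c • φ)) (ht' : t ∈ ST S v (c' • φ)) : c = c' := by
  obtain ⟨hA, x, w, ψ, hx, hox, hrep, hw⟩ := ht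
  obtain ⟨-, y, w', ψ', hy, hoy, hrep', hw'⟩ := ht'
  have h1 := rep_aline H S h3 ((aline_smul S h hc).1 hA) hx hy hox hoy hrep hrep'
  rw [hw, hw'] at h1
  have h2 : (c' - c) • φ = 0 := by
    rw [sub_smul, h1, sub_self]
  exact (sub_eq_zero.1 ((smul_eq_zero.1 h2).resolve_right h.2.1)).symm

theorem CountM.ncard_SA_one (h3 : ∀ c : K, c ^ 3 = 1 → c = 1)
    (hstd : ∀ M, BLine S M → ∃ w ψ, Std S M w ψ) {w ψ : Fin 3 → K} (h : ψ ⬝ᵥ w = 1) :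
    (SA S w ψ).ncard = 1 := by
  classical
  obtain ⟨v, r, hv, -, hvr⟩ := exists_ker (ne_of_dot h).1
  have hv0 : v ≠ 0 := by
    rintro rfl
    simp at hvr
  have hf : IsFlag v (w ⨯₃ v) := ⟨hv0, cross_w_ne h hv hv0, dot_cross_self w v⟩
  have hcard := aline_card H S hf
  have hq : 1 < Fintype.card K := Fintype.one_lt_card
  have hfin : {t | ALine S v (w ⨯₃ v) t}.Finite := Set.finite_of_ncard_ne_zero (by omega)
  -- all the classes have the same size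
  have hn : ∀ c : Kˣ, (ST S v ((c : K) • (w ⨯₃ v))).ncard = (SA S w ψ).ncard := by
    intro c
    rw [← ncard_SA_smul H S h3 hstd h c.ne_zero, ncard_SA_eq H S h3 hstd (v := v) _ _ hv0,
      smul_cross']
    · rw [smul_dotProduct, dotProduct_smul, h, smul_eq_mul, smul_eq_mul, mul_one,
        inv_mul_cancel₀ c.ne_zero]
    · rw [smul_dotProduct, hv, smul_zero]
  have hex : ∀ t ∈ hfin.toFinset, ∃ c : Kˣ, t ∈ ST S v ((c : K) • (w ⨯₃ v)) := by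
    intro t ht
    rw [Set.Finite.mem_toFinset] at ht
    exact exists_class H S hstd hf ht
  choose! g hg using hex
  have h1 := Finset.card_eq_sum_card_fiberwise (f := g) (s := hfin.toFinset)
    (t := (Finset.univ : Finset Kˣ)) (fun t _ => Finset.mem_coe.2 (Finset.mem_univ _))
  have h2 : ∀ c ∈ (Finset.univ : Finset Kˣ),
      (hfin.toFinset.filter (fun t => g t = c)).card = (SA S w ψ).ncard := by
    intro c _
    rw [← hn c, ← Set.ncard_coe_finset]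
    congr 1
    ext t
    rw [Finset.coe_filter, Set.mem_ofPred_eq, Set.Finite.mem_toFinset]
    constructor
    · rintro ⟨h4, h5⟩
      rw [← h5]
      exact hg t ((Set.Finite.mem_toFinset _).2 h4)
    · intro h4
      have h5 : ALine S v (w ⨯₃ v) t := (aline_smul S hf c.ne_zero).1 h4.1
      refine ⟨h5, ?_⟩
      have h6 := hg t ((Set.Finite.mem_toFinset _).2 h5)
      exact Units.ext (class_unique H S h3 hf (g t).ne_zero h6 h4)
  rw [Finset.sum_congr rfl h2, Finset.sum_const, Finset.card_univ, Fintype.card_units,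
    smul_eq_mul, ← Set.ncard_eq_toFinset_card _ hfin, hcard] at h1
  have h5 : 0 < Fintype.card K - 1 := by omega
  exact (Nat.eq_of_mul_eq_mul_left h5 (by rw [← h1, mul_one]))

theorem std_unique (h3 : ∀ c : K, c ^ 3 = 1 → c = 1) (hLB : LB S)
    (hstd : ∀ M, BLine S M → ∃ w ψ, Std S M w ψ) {w ψ : Fin 3 → K} (h : ψ ⬝ᵥ w = 1) :
    ∃! M, BLine S M ∧ Std S M w ψ := by
  obtain ⟨M, hM⟩ := Set.ncard_eq_one.1 (ncard_SA_one H S h3 hstd h)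
  refine ⟨M, ?_, fun M' hM' => ?_⟩
  · have : M ∈ SA S w ψ := by
      rw [hM]
      exact Set.mem_singleton M
    exact this
  · have : M' ∈ SA S w ψ := hM'
    rw [hM] at this
    exact this

theorem aline_unique (h3 : ∀ c : K, c ^ 3 = 1 → c = 1) (hLB : LB S)
    (hstd : ∀ M, BLine S M → ∃ w ψ, Std S M w ψ) {v φ : Fin 3 → K} (h : IsFlag v φ) :
    ∃! t, ALine S v φ t ∧ ∃ x w ψ, I x t ∧ Out S x ∧ Rep S x v w ψ ∧ w ⨯₃ v = φ := by
  obtain ⟨w, hw⟩ := exists_w h.1 h.2.2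
  have hwv : w ⨯₃ v ≠ 0 := by
    rw [hw]
    exact h.2.1
  obtain ⟨ψ, hψ, hψv⟩ := exists_form hwv
  have h1 := ncard_SA_one H S h3 hstd hψ
  rw [ncard_SA_eq H S h3 hstd hψ hψv h.1, hw] at h1
  obtain ⟨t, ht⟩ := Set.ncard_eq_one.1 h1
  refine ⟨t, ?_, fun t' ht' => ?_⟩
  · have : t ∈ ST S v φ := by
      rw [ht]
      exact Set.mem_singleton t
    exact this
  · have : t' ∈ ST S v φ := ht'
    rw [ht] at this
    exact this

end M

end Pool.Agent.Lib.MP_6b0fe3_coR
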