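import Pool.Agent.Lib.MP_6b0fe3_coR.GrpCan
import Pool.Agent.Lib.MP_6b0fe3_coR.CountM

/-! MP_6b0fe3_co, L3: canonical lifts and B-lines -/

namespace Pool.Agent.Lib.MP_6b0fe3_coR

open Matrix CountM

section basic
variable {K : Type*} [Field K] {Pt Ln : Type*} {I : Pt → Ln → Prop}

/-- the base of the B-line `M` is the antiflag `(w, ψ)` -/
def Bas (S : Sub K I) (M : Ln) (w ψ : Fin 3 → K) : Prop :=
  ψ ⬝ᵥ w = 1 ∧ ∀ v, v ≠ 0 → ψ ⬝ᵥ v = 0 → ∃ x, I x M ∧ Over S x v (w ⨯₃ v)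

theorem Std.bas {S : Sub K I} {M : Ln} {w ψ : Fin 3 → K} (h : Std S M w ψ) : Bas S M w ψ :=
  ⟨h.1, fun v hv hψ => by
    obtain ⟨x, h1, h2, -⟩ := h.2 v hv hψ
    exact ⟨x, h1, h2⟩⟩

theorem over_congr {S : Sub K I} {x : Pt} {v k v' k' : Fin 3 → K} (h : Over S x v k)
    (hf : IsFlag v' k') (h1 : v ⨯₃ v' = 0) (h2 : k ⨯₃ k' = 0) : Over S x v' k' := by
  refine ⟨hf, ?_⟩
  rw [← (S.pt_eq h.1 hf).2 ⟨h1, h2⟩]
  exact h.2

theorem Bas.smul {S : Sub K I} {M : Ln} {w ψ : Fin 3 → K} (h : Bas S M w ψ) {c : K}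
    (hc : c ≠ 0) : Bas S M (c • w) (c⁻¹ • ψ) := by
  refine ⟨?_, fun v hv hψ => ?_⟩
  · rw [smul_dotProduct, dotProduct_smul, h.1, smul_eq_mul, smul_eq_mul, mul_one,
      inv_mul_cancel₀ hc]
  · rw [smul_dotProduct, smul_eq_zero] at hψ
    obtain ⟨x, hx, ho⟩ := h.2 v hv (hψ.resolve_left (inv_ne_zero hc))
    refine ⟨x, hx, over_congr ho ?_ (cross_self v) ?_⟩
    · rw [smul_cross']
      exact ⟨hv, smul_ne_zero hc ho.1.2.1, by rw [dotProduct_smul, ho.1.2.2, smul_zero]⟩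
    · rw [smul_cross', map_smul, cross_self, smul_zero]

/-- the elation determines its flag -/
theorem elM_inj {u m u' m' : Fin 3 → K} {h : m ⬝ᵥ u = 0} {h' : m' ⬝ᵥ u' = 0} (hf : IsFlag u m)
    (e : elM u m h = elM u' m' h') : u ⨯₃ u' = 0 ∧ m ⨯₃ m' = 0 := by
  constructor
  · obtain ⟨v, hv⟩ := uniqL_nondeg hf.2.1
    have h1 := sv_elM u m h v
    rw [e, sv_elM] at h1
    have h2 : (m ⬝ᵥ v) • u = (m' ⬝ᵥ v) • u' := (add_left_cancel h1).symm
    have h3 := congrArg (fun z => z ⨯₃ u') h2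
    simp only [smul_cross', cross_self, smul_zero] at h3
    exact (smul_eq_zero.1 h3).resolve_left hv
  · obtain ⟨k, hk⟩ := uniqL_nondeg hf.1
    have h1 := sk_elM u m h k
    rw [e, sk_elM] at h1
    have h2 : (u ⬝ᵥ k) • m = (u' ⬝ᵥ k) • m' := (sub_right_inj.1 h1).symm
    have h3 := congrArg (fun z => z ⨯₃ m') h2
    simp only [smul_cross', cross_self, smul_zero] at h3
    exact (smul_eq_zero.1 h3).resolve_left hk

/-- conjugates of canonical lifts are canonical -/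
theorem Can.conj {S : Sub K I} {z r : (Equiv.Perm Pt × Equiv.Perm Ln) × SL3 K}
    {u m : Fin 3 → K} {h : m ⬝ᵥ u = 0} (hz : Can S z u m h) (hr : r ∈ autG S) :
    Can S (r * z * r⁻¹) (sv r.2 u) (sk r.2 m) (by rw [s_dot']; exact h) where
  mem := (autG S).mul_mem ((autG S).mul_mem hr hz.mem) ((autG S).inv_mem hr)
  eq := by
    change r.2 * z.2 * r.2⁻¹ = _
    rw [hz.eq, elM_conj]
  fix := by
    intro x hx ho
    have hri : Act S r.1⁻¹ r.2⁻¹ := Act.inv hr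
    have h1 := hri.over ho
    rw [sv_inv_sv, sk_inv_sk] at h1
    have h2 := hz.fix _ (hri.out hx) h1
    change r.1.1 (z.1.1 (r.1⁻¹.1 x)) = x
    rw [h2]
    exact r.1.1.apply_symm_apply x

theorem Can.mono {S : Sub K I} {z : (Equiv.Perm Pt × Equiv.Perm Ln) × SL3 K}
    {u m u' m' : Fin 3 → K} {h : m ⬝ᵥ u = 0} {h' : m' ⬝ᵥ u' = 0} (hz : Can S z u m h)
    (hf : IsFlag u m) (e : elM u m h = elM u' m' h') : Can S z u' m' h' where
  mem := hz.mem
  eq := by rw [hz.eq, e]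
  fix := by
    intro x hx ho
    obtain ⟨h1, h2⟩ := elM_inj hf e
    exact hz.fix x hx (over_congr ho hf (cross_zero_symm h1) (cross_zero_symm h2))

end basic

section main
variable {K : Type*} [Field K] [Fintype K] {Pt Ln : Type*} {I : Pt → Ln → Prop}
variable (H : Hex I (Fintype.card K)) (S : Sub K I)
include H

/-- canonical lifts are unique -/
theorem Can.unique {z z' : (Equiv.Perm Pt × Equiv.Perm Ln) × SL3 K} {u m : Fin 3 → K}
    {h : m ⬝ᵥ u = 0} (hz : Can S z u m h) (hz' : Can S z' u m h) (hf : IsFlag u m) : z = z' := by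
  obtain ⟨t, x, -, -, hx, ho⟩ := exists_over H S hf
  have h1 : z.1.1 x = x := hz.fix x hx ho
  have h2 : z'.1.1 x = x := hz'.fix x hx ho
  have h3 : z * z'⁻¹ ∈ autG S := (autG S).mul_mem hz.mem ((autG S).inv_mem hz'.mem)
  have h4 : (z * z'⁻¹).2 = 1 := by
    change z.2 * z'.2⁻¹ = 1
    rw [hz.eq, hz'.eq, mul_inv_cancel]
  have h5 : Act S (z * z'⁻¹).1 (1 : SL3 K) := by
    rw [← h4]
    exact h3
  have h6 : (z * z'⁻¹).1.1 x = x := by
    change z.1.1 (z'.1.1.symm x) = x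
    rw [(Equiv.symm_apply_eq _).2 h2.symm, h1]
  have h7 := act_free H S h5 hx h6
  have h8 : z * z'⁻¹ = 1 := Prod.ext h7 h4
  rwa [mul_inv_eq_one] at h8

/-- two B-lines through `x` having points over a common flag are equal -/
theorem bline_eq {M M' : Ln} {x y y' : Pt} (hx : I x M) (hx' : I x M') (hy : I y M)
    (hy' : I y' M') {r m : Fin 3 → K} (ho : Over S y r m) (ho' : Over S y' r m)
    (hne : ¬ Over S x r m) : M = M' := by
  have h1 : x ≠ y := by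
    rintro rfl
    exact hne ho
  have h2 : x ≠ y' := by
    rintro rfl
    exact hne ho'
  have c1 : Coll I x y := ⟨M, hx, hy⟩
  have c4 : Coll I y' x := ⟨M', hy', hx'⟩
  rcases H.quadr c1 ho.2 (coll_symm' ho'.2) c4 with c | c
  · exact absurd ⟨ho.1, c⟩ hne
  · obtain ⟨l, a1, a2, a3⟩ := H.tri c1 c (coll_symm' c4)
    have e1 := H.uniq a1 a2 hx hy h1
    have e2 := H.uniq a1 a3 hx' hy' h2
    rw [← e1, ← e2]

/-- a canonical lift of an elation whose flag is in the base of a B-line fixes the B-line -/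
theorem Can.fix_bline {M : Ln} {w ψ : Fin 3 → K} (hM : BLine S M) (hb : Bas S M w ψ)
    {z : (Equiv.Perm Pt × Equiv.Perm Ln) × SL3 K} {u m : Fin 3 → K} {h : m ⬝ᵥ u = 0}
    (hz : Can S z u m h) (hf : IsFlag u m) (h1 : ψ ⬝ᵥ u = 0) (h2 : m ⨯₃ (w ⨯₃ u) = 0) :
    z.1.2 M = M := by
  have hwu : w ⨯₃ u ≠ 0 := cross_w_ne hb.1 h1 hf.1
  obtain ⟨x, hx, ho⟩ := hb.2 u hf.1 h1
  have hox := out_of_bline H S hM hx
  have hxu : Over S x u m := over_congr ho hf (cross_self u) (cross_zero_symm h2)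
  have hfx := hz.fix x hox hxu
  obtain ⟨c, hc⟩ := exists_smul_of_cross hwu (cross_zero_symm h2)
  have hmw : m ⬝ᵥ w = 0 := by
    rw [hc, smul_dotProduct, uniqL_cross_self_left, smul_zero]
  have hzw : sv z.2 w = w := by
    rw [hz.eq, sv_elM, hmw, zero_smul, add_zero]
  obtain ⟨r, hr, hur⟩ := exists_ker' (ne_of_dot hb.1).1 hf.1
  have hr0 : r ≠ 0 := by
    rintro rfl
    simp at hur
  obtain ⟨y, hy, hoy⟩ := hb.2 r hr0 hr
  have hzr : sv z.2 r = r + (m ⬝ᵥ r) • u := by rw [hz.eq, sv_elM]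
  have hψr : ψ ⬝ᵥ sv z.2 r = 0 := by
    rw [hzr, dotProduct_add, dotProduct_smul, hr, h1, smul_zero, add_zero]
  have hr1 : sv z.2 r ≠ 0 := by
    rw [Ne, sv_eq_zero]
    exact hr0
  obtain ⟨y', hy', hoy'⟩ := hb.2 _ hr1 hψr
  have hoz := Act.over hz.mem hoy
  rw [sk_cross, hzw] at hoz
  refine (bline_eq H S hx ?_ hy' ((hz.mem.aut _ _).2 hy) hoy' hoz ?_).symm
  · have := (hz.mem.aut x M).2 hx
    rwa [hfx] at this
  · intro hn
    have := (over_unique H S hox ho hn).1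
    rw [hzr, map_add, map_smul, cross_self, smul_zero, add_zero] at this
    exact hur this

/-- over every base antiflag containing the flag of an A-line there is a B-line meeting it -/
theorem exists_bline (hstd : ∀ M, BLine S M → ∃ w ψ, Std S M w ψ) {v k w ψ : Fin 3 → K} {t : Ln}
    (ht : ALine S v k t) (h : ψ ⬝ᵥ w = 1) (hv : ψ ⬝ᵥ v = 0) (hk : k ⨯₃ (w ⨯₃ v) = 0) :
    ∃ M x, BLine S M ∧ Bas S M w ψ ∧ I x M ∧ I x t ∧ Out S x ∧ Over S x v k := by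
  have hv0 := ht.1.1
  have hwv : w ⨯₃ v ≠ 0 := cross_w_ne h hv hv0
  obtain ⟨r, hr, hvr⟩ := exists_ker' (ne_of_dot h).1 hv0
  have hr0 : r ≠ 0 := by
    rintro rfl
    simp at hvr
  have hdet : w ⬝ᵥ (v ⨯₃ r) ≠ 0 := det_ne h hv hr hvr
  have hfr : IsFlag r (w ⨯₃ r) := ⟨hr0, cross_w_ne h hr hr0, dot_cross_self w r⟩
  obtain ⟨c, hc⟩ := exists_smul_of_cross ht.1.2.1 hk
  have hopp' : r ⬝ᵥ (w ⨯₃ v) ≠ 0 := by
    have : r ⬝ᵥ (w ⨯₃ v) = w ⬝ᵥ (v ⨯₃ r) := by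
      simp only [cr0, cr1, cr2, CountM.dot3]
      ring
    rw [this]
    exact hdet
  have hopp : Opp v k r (w ⨯₃ r) := by
    constructor
    · have : v ⬝ᵥ (w ⨯₃ r) = - (w ⬝ᵥ (v ⨯₃ r)) := by
        simp only [cr0, cr1, cr2, CountM.dot3]
        ring
      rw [this]
      exact neg_ne_zero.2 hdet
    · intro h0
      apply hopp'
      rw [hc, dotProduct_smul, h0, smul_zero]
  obtain ⟨x, hxt, hox, hoxv, hn⟩ := near_on_aline H S ht hfr hopp
  obtain ⟨M, hM, hxM, z, hzM, hzo⟩ := bline_through H S hox hoxv hfr hopp hn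
  obtain ⟨w1, ψ1, hs⟩ := hstd M hM
  have hb1 := base_of_std H S hM hs hxM hoxv
  have hb2 := base_of_std H S hM hs hzM hzo
  have hb3 : (w ⨯₃ v) ⨯₃ (w1 ⨯₃ v) = 0 := by
    rw [hc, smul_cross', hb1.2, smul_zero]
  obtain ⟨a, ha0, ha, ha'⟩ := prop_pair h hv hr hvr hs.1 hb1.1 hb2.1 hb3 hb2.2
  refine ⟨M, x, hM, ?_, hxM, hxt, hox, hoxv⟩
  have h5 := hs.bas.smul (inv_ne_zero ha0)
  rw [ha, ha', smul_smul, smul_smul, inv_mul_cancel₀ ha0, one_smul, inv_inv,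
    mul_inv_cancel₀ ha0, one_smul] at h5
  exact h5

/-- the B-line over an antiflag meeting an A-line is unique -/
theorem bline_unique {v k w ψ : Fin 3 → K} {t : Ln} (ht : ALine S v k t) {M M' : Ln} {x x' : Pt}
    (hM : BLine S M) (hM' : BLine S M') (hb : Bas S M w ψ) (hb' : Bas S M' w ψ)
    (hx : I x M) (hxt : I x t) (hx' : I x' M') (hxt' : I x' t) : M = M' := by
  have hox := out_of_bline H S hM hx
  have hox' := out_of_bline H S hM' hx'
  have hov := (out_of_aline H S ht hxt (hox v k ht.1)).2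
  obtain ⟨hv, hk⟩ := base_only H S hM hb.1 hb.2 hx hov
  obtain ⟨r, hr, hvr⟩ := exists_ker' (ne_of_dot hb.1).1 ht.1.1
  have hr0 : r ≠ 0 := by
    rintro rfl
    simp at hvr
  obtain ⟨y, hy, ho⟩ := hb.2 r hr0 hr
  obtain ⟨y', hy', ho'⟩ := hb'.2 r hr0 hr
  have hxr : ∀ z, Out S z → Over S z v k → ¬ Over S z r (w ⨯₃ r) := by
    intro z hz h1 h2
    exact hvr (over_unique H S hz h1 h2).1
  have hxy : x ≠ y := by
    rintro rfl
    exact hxr x hox hov ho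
  have hopp := opp_of_bline H S hM hx hy hxy hov ho
  have hn : Near I x (S.pt r (w ⨯₃ r)) := ⟨y, ⟨M, hx, hy⟩, ho.2⟩
  have hn' : Near I x' (S.pt r (w ⨯₃ r)) := ⟨y', ⟨M', hx', hy'⟩, ho'.2⟩
  have e := near_aline_unique H S ht ho.1 hopp hxt hxt' hn hn'
  subst e
  exact bline_eq H S hx hx' hy hy' ho ho' (hxr x hox hov)

end main

end Pool.Agent.Lib.MP_6b0fe3_coR
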