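import Pool.Agent.Lib.MP_6b0fe3_coR.Vec

/-! MP_6b0fe3_co, recognition theorem: flags and outside points -/

namespace Pool.Agent.Lib.MP_6b0fe3_coR

open Matrix

section main
variable {K : Type*} [Field K] [Fintype K] {Pt Ln : Type*} {I : Pt → Ln → Prop}

theorem IsFlag.symm {v k : Fin 3 → K} (h : IsFlag v k) : IsFlag k v :=
  ⟨h.2.1, h.1, by rw [dotProduct_comm]; exact h.2.2⟩

/-- the dual subhexagon (points and lines of the plane interchanged) -/
def Sub.dual (S : Sub K I) : Sub K I where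
  pt v k := S.pt k v
  lp v := S.ll v
  ll k := S.lp k
  pt_eq := by
    intro v k v' k' h h'
    rw [S.pt_eq h.symm h'.symm]
    exact and_comm
  inc_lp := fun h hu => S.inc_ll h.symm hu
  inc_ll := fun h hu => S.inc_lp h.symm hu
  lp_eq := S.ll_eq
  ll_eq := S.lp_eq
  lp_ne_ll := fun h h' e => S.lp_ne_ll h' h e.symm

omit [Fintype K] in
/-- two independent vectors orthogonal to `u` -/
theorem exists_span {u : Fin 3 → K} (hu : u ≠ 0) :
    ∃ k1 k2 : Fin 3 → K, u ⬝ᵥ k1 = 0 ∧ u ⬝ᵥ k2 = 0 ∧ k1 ⨯₃ k2 ≠ 0 := by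
  obtain ⟨i, hi⟩ : ∃ i, u i ≠ 0 := by
    by_contra h
    push Not at h
    exact hu (funext h)
  fin_cases i
  · refine ⟨![-u 1, u 0, 0], ![-u 2, 0, u 0], by rw [dot3]; simp; ring, by rw [dot3]; simp; ring, ?_⟩
    intro h
    have := congrFun h 0
    rw [cross_apply'] at this
    simp at this
    exact hi this
  · refine ⟨![u 1, -u 0, 0], ![0, -u 2, u 1], by rw [dot3]; simp; ring, by rw [dot3]; simp; ring, ?_⟩
    intro h
    have := congrFun h 1
    rw [cross_apply'] at this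
    simp at this
    exact hi this
  · refine ⟨![u 2, 0, -u 0], ![0, u 2, -u 1], by rw [dot3]; simp; ring, by rw [dot3]; simp; ring, ?_⟩
    intro h
    have := congrFun h 2
    rw [cross_apply'] at this
    simp at this
    exact hi this

theorem Coll.symm {x y : Pt} (h : Coll I x y) : Coll I y x := by
  obtain ⟨l, h1, h2⟩ := h
  exact ⟨l, h2, h1⟩

variable (H : Hex I (Fintype.card K)) (S : Sub K I)
include H

/-! D: flags and outside points -/

theorem coll_refl (x : Pt) : Coll I x x := by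
  have h := H.ptCard x
  have h1 : {l | I x l}.Nonempty := by
    apply Set.nonempty_of_ncard_ne_zero
    omega
  obtain ⟨l, hl⟩ := h1
  exact ⟨l, hl, hl⟩

theorem flag_on_lp {x : Pt} {u : Fin 3 → K} (hu : u ≠ 0) (hx : I x (S.lp u)) :
    ∃ k, IsFlag u k ∧ x = S.pt u k := by
  obtain ⟨k1, k2, h1, h2, h12⟩ := exists_span hu
  have hk2 : k2 ≠ 0 := by
    rintro rfl
    exact h12 (by simp)
  have hk1 : ∀ a : K, k1 + a • k2 ≠ 0 := by
    intro a h
    apply h12
    have h3 : (k1 + a • k2) ⨯₃ k2 = k1 ⨯₃ k2 := by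
      ext i
      rw [cross_apply', cross_apply']
      fin_cases i <;> simp <;> ring
    rw [← h3, h]
    simp
  let fam : Option K → (Fin 3 → K) := fun o => match o with
    | none => k2
    | some a => k1 + a • k2
  have hfam : ∀ o, IsFlag u (fam o) := by
    rintro (_ | a)
    · exact ⟨hu, hk2, h2⟩
    · refine ⟨hu, hk1 a, ?_⟩
      change u ⬝ᵥ (k1 + a • k2) = 0
      rw [dotProduct_add, dotProduct_smul, h1, h2]; simp
  have hinj : Function.Injective (fun o => S.pt u (fam o)) := by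
    intro o o' h
    have h' := ((S.pt_eq (hfam o) (hfam o')).1 h).2
    have h0 : (k1 ⨯₃ k2) = ![k1 1 * k2 2 - k1 2 * k2 1, k1 2 * k2 0 - k1 0 * k2 2,
      k1 0 * k2 1 - k1 1 * k2 0] := cross_apply' _ _
    rcases o with _ | a <;> rcases o' with _ | b
    · rfl
    · exfalso
      apply h12
      have h3 : k2 ⨯₃ (k1 + b • k2) = - (k1 ⨯₃ k2) := by
        ext i
        rw [Pi.neg_apply, cross_apply', cross_apply']
        fin_cases i <;> simp <;> ring
      have h4 : k2 ⨯₃ (k1 + b • k2) = 0 := h'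
      rw [h3] at h4
      exact neg_eq_zero.mp h4
    · exfalso
      apply h12
      have h3 : (k1 + a • k2) ⨯₃ k2 = k1 ⨯₃ k2 := by
        ext i
        rw [cross_apply', cross_apply']
        fin_cases i <;> simp <;> ring
      have h4 : (k1 + a • k2) ⨯₃ k2 = 0 := h'
      rw [h3] at h4
      exact h4
    · have h3 : (k1 + a • k2) ⨯₃ (k1 + b • k2) = (b - a) • (k1 ⨯₃ k2) := by
        ext i
        rw [Pi.smul_apply, cross_apply', cross_apply']
        fin_cases i <;> simp <;> ring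
      have h4 : (k1 + a • k2) ⨯₃ (k1 + b • k2) = 0 := h'
      rw [h3] at h4
      rcases smul_eq_zero.mp h4 with h5 | h5
      · rw [sub_eq_zero.mp h5]
      · exact absurd h5 h12
  have hsub : Set.range (fun o => S.pt u (fam o)) ⊆ {x | I x (S.lp u)} := by
    rintro _ ⟨o, rfl⟩
    exact (S.inc_lp (hfam o) hu).2 (cross_self u)
  have hcard := H.lineCard (S.lp u)
  have hfin : {x | I x (S.lp u)}.Finite := by
    apply Set.finite_of_ncard_ne_zero
    omega
  have hrange : (Set.range (fun o => S.pt u (fam o))).ncard = Fintype.card K + 1 := by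
    rw [← Set.image_univ, Set.ncard_image_of_injective _ hinj, Set.ncard_univ,
      Nat.card_eq_fintype_card, Fintype.card_option]
  have heq := Set.eq_of_subset_of_ncard_le hsub (by rw [hrange]; exact hcard.le) hfin
  have hx' : x ∈ Set.range (fun o => S.pt u (fam o)) := by rw [heq]; exact hx
  obtain ⟨o, rfl⟩ := hx'
  exact ⟨fam o, hfam o, rfl⟩

theorem flag_on_ll {x : Pt} {m : Fin 3 → K} (hm : m ≠ 0) (hx : I x (S.ll m)) :
    ∃ v, IsFlag v m ∧ x = S.pt v m := by
  obtain ⟨v, hv, he⟩ := flag_on_lp H S.dual (u := m) hm hx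
  exact ⟨v, hv.symm, he⟩

theorem coll_nonopp {v k v' k' : Fin 3 → K} (h : IsFlag v k) (h' : IsFlag v' k')
    (ho : v ⬝ᵥ k' = 0)
    (hc : Coll I (S.pt v k) (S.pt v' k')) : v ⨯₃ v' = 0 ∨ k ⨯₃ k' = 0 := by
  have hf : IsFlag v k' := ⟨h.1, h'.2.1, ho⟩
  have c1 : Coll I (S.pt v k) (S.pt v k') :=
    ⟨S.lp v, (S.inc_lp h h.1).2 (cross_self v), (S.inc_lp hf h.1).2 (cross_self v)⟩
  have c2 : Coll I (S.pt v k') (S.pt v' k') :=
    ⟨S.ll k', (S.inc_ll hf h'.2.1).2 (cross_self k'), (S.inc_ll h' h'.2.1).2 (cross_self k')⟩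
  obtain ⟨l, l1, l2, l3⟩ := H.tri c1 c2 hc
  by_cases he : S.pt v k = S.pt v k'
  · exact Or.inr ((S.pt_eq h hf).1 he).2
  · have hl : l = S.lp v := H.uniq l1 l2 ((S.inc_lp h h.1).2 (cross_self v))
      ((S.inc_lp hf h.1).2 (cross_self v)) he
    rw [hl] at l3
    left
    exact cross_zero_symm ((S.inc_lp h' h.1).1 l3)

theorem coll_nonopp' {v k v' k' : Fin 3 → K} (h : IsFlag v k) (h' : IsFlag v' k')
    (ho : v' ⬝ᵥ k = 0)
    (hc : Coll I (S.pt v k) (S.pt v' k')) : v ⨯₃ v' = 0 ∨ k ⨯₃ k' = 0 := by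
  rcases coll_nonopp H S h' h ho hc.symm with h1 | h1
  · exact Or.inl (cross_zero_symm h1)
  · exact Or.inr (cross_zero_symm h1)

omit [Fintype K] H in
theorem cross_dot_zero {v v' k : Fin 3 → K} (hv : v ≠ 0) (hv' : v' ≠ 0) (h : v ⨯₃ v' = 0)
    (h0 : v ⬝ᵥ k = 0) : v' ⬝ᵥ k = 0 := by
  obtain ⟨c, -, rfl⟩ := (cross_eq_zero_iff hv hv').1 h
  rw [smul_dotProduct, h0, smul_zero]

theorem coll_flags {v k v' k' : Fin 3 → K} (h : IsFlag v k) (h' : IsFlag v' k')
    (hc : Coll I (S.pt v k) (S.pt v' k')) : v ⨯₃ v' = 0 ∨ k ⨯₃ k' = 0 := by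
  by_cases o1 : v ⬝ᵥ k' = 0
  · exact coll_nonopp H S h h' o1 hc
  by_cases o2 : v' ⬝ᵥ k = 0
  · exact coll_nonopp' H S h h' o2 hc
  exfalso
  have hN : v ⨯₃ v' ≠ 0 := fun h0 => o2 (cross_dot_zero h.1 h'.1 h0 h.2.2)
  have f1 : IsFlag v (v ⨯₃ v') := ⟨h.1, hN, dot_self_cross v v'⟩
  have f2 : IsFlag v' (v ⨯₃ v') := ⟨h'.1, hN, dot_cross_self v v'⟩
  have c1 : Coll I (S.pt v k) (S.pt v (v ⨯₃ v')) :=
    ⟨S.lp v, (S.inc_lp h h.1).2 (cross_self v), (S.inc_lp f1 h.1).2 (cross_self v)⟩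
  have c2 : Coll I (S.pt v (v ⨯₃ v')) (S.pt v' (v ⨯₃ v')) :=
    ⟨S.ll (v ⨯₃ v'), (S.inc_ll f1 hN).2 (cross_self _), (S.inc_ll f2 hN).2 (cross_self _)⟩
  have c3 : Coll I (S.pt v' (v ⨯₃ v')) (S.pt v' k') :=
    ⟨S.lp v', (S.inc_lp f2 h'.1).2 (cross_self v'), (S.inc_lp h' h'.1).2 (cross_self v')⟩
  rcases H.quadr c1 c2 c3 hc.symm with c | c
  · rcases coll_nonopp H S h f2 f1.2.2 c with h1 | h1
    · exact hN h1
    · exact o2 (by
        have := cross_dot_zero f2.2.1 h.2.1 (cross_zero_symm h1) (by rw [dotProduct_comm]; exact f2.2.2)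
        rw [dotProduct_comm]; exact this)
  · rcases coll_nonopp' H S f1 h' f2.2.2 c with h1 | h1
    · exact hN h1
    · exact o1 (by
        have := cross_dot_zero f1.2.1 h'.2.1 h1 (by rw [dotProduct_comm]; exact f1.2.2)
        rw [dotProduct_comm]; exact this)

/-- a common neighbour of two opposite flags is not collinear with the flag `(v, N)` -/
theorem near_aux {v k v' k' n : Fin 3 → K} (h : IsFlag v k) (h' : IsFlag v' k')
    (f1 : IsFlag v n) (f2 : IsFlag v' n) (o1 : v ⬝ᵥ k' ≠ 0) (o2 : v' ⬝ᵥ k ≠ 0) {z : Pt}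
    (hz : Coll I (S.pt v k) z) (hz' : Coll I z (S.pt v' k')) (hc : Coll I z (S.pt v n)) :
    False := by
  have hvv : v ⨯₃ v' ≠ 0 := fun h0 => o2 (cross_dot_zero h.1 h'.1 h0 h.2.2)
  have hkn : ¬ (k ⨯₃ n = 0) := fun h1 => o2 (by
    have := cross_dot_zero f2.2.1 h.2.1 (cross_zero_symm h1) (by rw [dotProduct_comm]; exact f2.2.2)
    rw [dotProduct_comm]; exact this)
  have hnk : ¬ (n ⨯₃ k' = 0) := fun h1 => o1 (by
    have := cross_dot_zero f1.2.1 h'.2.1 h1 (by rw [dotProduct_comm]; exact f1.2.2)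
    rw [dotProduct_comm]; exact this)
  have c1 : Coll I (S.pt v k) (S.pt v n) :=
    ⟨S.lp v, (S.inc_lp h h.1).2 (cross_self v), (S.inc_lp f1 h.1).2 (cross_self v)⟩
  have c2 : Coll I (S.pt v n) (S.pt v' n) :=
    ⟨S.ll n, (S.inc_ll f1 f1.2.1).2 (cross_self _), (S.inc_ll f2 f1.2.1).2 (cross_self _)⟩
  have c3 : Coll I (S.pt v' n) (S.pt v' k') :=
    ⟨S.lp v', (S.inc_lp f2 h'.1).2 (cross_self v'), (S.inc_lp h' h'.1).2 (cross_self v')⟩
  have n13 : ¬ Coll I (S.pt v n) (S.pt v' k') := by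
    intro c
    rcases coll_nonopp' H S f1 h' f2.2.2 c with h1 | h1
    · exact hvv h1
    · exact hnk h1
  -- z is on `lp v`
  obtain ⟨l, l1, l2, l3⟩ := H.tri hz hc c1
  have hl : l = S.lp v := by
    refine H.uniq l1 l3 ((S.inc_lp h h.1).2 (cross_self v)) ((S.inc_lp f1 h.1).2 (cross_self v)) ?_
    intro he
    exact hkn ((S.pt_eq h f1).1 he).2
  rw [hl] at l2
  -- z is collinear with `(v', n)`
  rcases H.quadr hc c2 c3 hz'.symm with c | c
  · obtain ⟨l', m1, m2, m3⟩ := H.tri hc c2 c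
    have hl' : l' = S.ll n := by
      refine H.uniq m2 m3 ((S.inc_ll f1 f1.2.1).2 (cross_self _))
        ((S.inc_ll f2 f1.2.1).2 (cross_self _)) ?_
      intro he
      exact hvv ((S.pt_eq f1 f2).1 he).1
    rw [hl'] at m1
    by_cases he : z = S.pt v n
    · rw [he] at hz'
      exact n13 hz'
    · exact S.lp_ne_ll h.1 f1.2.1 (H.uniq l2 ((S.inc_lp f1 h.1).2 (cross_self v)) m1
        ((S.inc_ll f1 f1.2.1).2 (cross_self _)) he)
  · exact n13 c

theorem near_flags {v k v' k' : Fin 3 → K} (h : IsFlag v k) (h' : IsFlag v' k')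
    (hc : Near I (S.pt v k) (S.pt v' k')) : v ⬝ᵥ k' = 0 ∨ v' ⬝ᵥ k = 0 := by
  by_contra hno
  push Not at hno
  obtain ⟨o1, o2⟩ := hno
  obtain ⟨z, hz, hz'⟩ := hc
  have hN : v ⨯₃ v' ≠ 0 := fun h0 => o2 (cross_dot_zero h.1 h'.1 h0 h.2.2)
  have f1 : IsFlag v (v ⨯₃ v') := ⟨h.1, hN, dot_self_cross v v'⟩
  have f2 : IsFlag v' (v ⨯₃ v') := ⟨h'.1, hN, dot_cross_self v v'⟩
  have c1 : Coll I (S.pt v k) (S.pt v (v ⨯₃ v')) :=
    ⟨S.lp v, (S.inc_lp h h.1).2 (cross_self v), (S.inc_lp f1 h.1).2 (cross_self v)⟩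
  have c2 : Coll I (S.pt v (v ⨯₃ v')) (S.pt v' (v ⨯₃ v')) :=
    ⟨S.ll (v ⨯₃ v'), (S.inc_ll f1 hN).2 (cross_self _), (S.inc_ll f2 hN).2 (cross_self _)⟩
  have c3 : Coll I (S.pt v' (v ⨯₃ v')) (S.pt v' k') :=
    ⟨S.lp v', (S.inc_lp f2 h'.1).2 (cross_self v'), (S.inc_lp h' h'.1).2 (cross_self v')⟩
  rcases H.pent hz.symm c1 c2 c3 hz'.symm with c | c | c | c | c
  · exact near_aux H S h h' f1 f2 o1 o2 hz hz' c
  · rcases coll_flags H S h f2 c with h1 | h1
    · exact hN h1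
    · exact o2 (by
        have := cross_dot_zero f2.2.1 h.2.1 (cross_zero_symm h1) (by rw [dotProduct_comm]; exact f2.2.2)
        rw [dotProduct_comm]; exact this)
  · rcases coll_flags H S f1 h' c with h1 | h1
    · exact hN h1
    · exact o1 (by
        have := cross_dot_zero f1.2.1 h'.2.1 h1 (by rw [dotProduct_comm]; exact f1.2.2)
        rw [dotProduct_comm]; exact this)
  · exact near_aux H S h' h f2 f1 o2 o1 hz'.symm hz.symm c.symm
  · rcases coll_flags H S h h' c.symm with h1 | h1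
    · exact hN h1
    · exact o1 (by
        have := cross_dot_zero h.2.1 h'.2.1 h1 (by rw [dotProduct_comm]; exact h.2.2)
        rw [dotProduct_comm]; exact this)

theorem over_unique {x : Pt} (hx : Out S x) {v k v' k' : Fin 3 → K} (h : Over S x v k)
    (h' : Over S x v' k') : v ⨯₃ v' = 0 ∧ k ⨯₃ k' = 0 := by
  obtain ⟨hf, hc⟩ := h
  obtain ⟨hf', hc'⟩ := h'
  by_contra hne
  have hne' : S.pt v k ≠ S.pt v' k' := fun he => hne ((S.pt_eq hf hf').1 he)
  have nolp : ∀ u, u ≠ 0 → ¬ I x (S.lp u) := by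
    intro u hu hI
    obtain ⟨a, ha, hxa⟩ := flag_on_lp H S hu hI
    exact hx _ _ ha hxa
  have noll : ∀ u, u ≠ 0 → ¬ I x (S.ll u) := by
    intro u hu hI
    obtain ⟨a, ha, hxa⟩ := flag_on_ll H S hu hI
    exact hx _ _ ha hxa
  have hncoll : ¬ Coll I (S.pt v k) (S.pt v' k') := by
    intro c
    obtain ⟨l, l1, l2, l3⟩ := H.tri hc c hc'
    rcases coll_flags H S hf hf' c with h1 | h1
    · have e : l = S.lp v := H.uniq l2 l3 ((S.inc_lp hf hf.1).2 (cross_self v))
        ((S.inc_lp hf' hf.1).2 (cross_zero_symm h1)) hne'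
      rw [e] at l1
      exact nolp v hf.1 l1
    · have e : l = S.ll k := H.uniq l2 l3 ((S.inc_ll hf hf.2.1).2 (cross_self k))
        ((S.inc_ll hf' hf.2.1).2 (cross_zero_symm h1)) hne'
      rw [e] at l1
      exact noll k hf.2.1 l1
  rcases near_flags H S hf hf' ⟨x, hc.symm, hc'⟩ with o | o
  · -- `(v, k')`
    have hh : IsFlag v k' := ⟨hf.1, hf'.2.1, o⟩
    have c1 : Coll I (S.pt v k) (S.pt v k') :=
      ⟨S.lp v, (S.inc_lp hf hf.1).2 (cross_self v), (S.inc_lp hh hf.1).2 (cross_self v)⟩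
    have c2 : Coll I (S.pt v k') (S.pt v' k') :=
      ⟨S.ll k', (S.inc_ll hh hf'.2.1).2 (cross_self k'), (S.inc_ll hf' hf'.2.1).2 (cross_self k')⟩
    rcases H.quadr hc c1 c2 hc'.symm with c | c
    · obtain ⟨l, l1, l2, l3⟩ := H.tri hc c1 c
      have hne1 : S.pt v k ≠ S.pt v k' := by
        intro he
        rw [← he] at c2
        exact hncoll c2
      have e : l = S.lp v := H.uniq l2 l3 ((S.inc_lp hf hf.1).2 (cross_self v))
        ((S.inc_lp hh hf.1).2 (cross_self v)) hne1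
      rw [e] at l1
      exact nolp v hf.1 l1
    · exact hncoll c
  · have hh : IsFlag v' k := ⟨hf'.1, hf.2.1, o⟩
    have c1 : Coll I (S.pt v k) (S.pt v' k) :=
      ⟨S.ll k, (S.inc_ll hf hf.2.1).2 (cross_self k), (S.inc_ll hh hf.2.1).2 (cross_self k)⟩
    have c2 : Coll I (S.pt v' k) (S.pt v' k') :=
      ⟨S.lp v', (S.inc_lp hh hf'.1).2 (cross_self v'), (S.inc_lp hf' hf'.1).2 (cross_self v')⟩
    rcases H.quadr hc c1 c2 hc'.symm with c | c
    · obtain ⟨l, l1, l2, l3⟩ := H.tri hc c1 c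
      have hne1 : S.pt v k ≠ S.pt v' k := by
        intro he
        rw [← he] at c2
        exact hncoll c2
      have e : l = S.ll k := H.uniq l2 l3 ((S.inc_ll hf hf.2.1).2 (cross_self k))
        ((S.inc_ll hh hf.2.1).2 (cross_self k)) hne1
      rw [e] at l1
      exact noll k hf.2.1 l1
    · exact hncoll c

/-- a point has at most `(q+1) q` other points collinear with it -/
theorem card_coll_le (x : Pt) : {z | z ≠ x ∧ Coll I x z}.Finite ∧
    {z | z ≠ x ∧ Coll I x z}.ncard ≤ (Fintype.card K + 1) * Fintype.card K := by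
  classical
  have hL : {l | I x l}.Finite := by
    apply Set.finite_of_ncard_ne_zero
    rw [H.ptCard]; omega
  have hP : ∀ l, {y | I y l}.Finite := by
    intro l
    apply Set.finite_of_ncard_ne_zero
    rw [H.lineCard]; omega
  let F : Finset Pt := hL.toFinset.biUnion (fun l => (hP l).toFinset.erase x)
  have hsub : {z | z ≠ x ∧ Coll I x z} ⊆ (F : Set Pt) := by
    rintro z ⟨hz, l, hl, hl'⟩
    simp only [F, Finset.coe_biUnion, Set.mem_iUnion]
    exact ⟨l, by simpa using hl, by simp [hz, hl']⟩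
  have hF : F.card ≤ (Fintype.card K + 1) * Fintype.card K := by
    have h1 : hL.toFinset.card = Fintype.card K + 1 := by
      rw [← Set.ncard_eq_toFinset_card _ hL]; exact H.ptCard x
    rw [← h1]
    refine Finset.card_biUnion_le_card_mul _ _ _ fun l hl => ?_
    have hl' : I x l := by simpa using hl
    rw [Finset.card_erase_of_mem (by simpa using hl')]
    have h2 : (hP l).toFinset.card = Fintype.card K + 1 := by
      rw [← Set.ncard_eq_toFinset_card _ (hP l)]; exact H.lineCard l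
    omega
  refine ⟨F.finite_toSet.subset hsub, ?_⟩
  calc _ ≤ (F : Set Pt).ncard := Set.ncard_le_ncard hsub F.finite_toSet
    _ = F.card := Set.ncard_coe_finset F
    _ ≤ _ := hF

theorem over_exists {x : Pt} (hx : Out S x) : ∃ v k, Over S x v k := by
  by_contra hno
  push Not at hno
  have key : ∀ P : Projectivization K (Fin 3 → K), ∃ z, (z ≠ x ∧ Coll I x z) ∧ Out S z ∧
      ∃ k, Over S z P.rep k := by
    intro P
    obtain ⟨y, hy, z, hz, hz'⟩ := H.near x (S.lp P.rep)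
    obtain ⟨k, hk, rfl⟩ := flag_on_lp H S P.rep_nonzero hy
    have hout : Out S z := by
      intro a b hab he
      rw [he] at hz
      exact hno a b ⟨hab, hz⟩
    refine ⟨z, ⟨?_, hz⟩, hout, k, hk, hz'⟩
    rintro rfl
    exact hno _ _ ⟨hk, hz'⟩
  choose g hg1 hg2 hg3 using key
  have hginj : Function.Injective g := by
    intro P P' he
    obtain ⟨k, hk⟩ := hg3 P
    obtain ⟨k', hk'⟩ := hg3 P'
    rw [← he] at hk'
    have h1 := (over_unique H S (hg2 P) hk hk').1
    obtain ⟨c, hc, h2⟩ := (cross_eq_zero_iff P.rep_nonzero P'.rep_nonzero).1 h1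
    rw [← P.mk_rep, ← P'.mk_rep]
    exact (Projectivization.mk_eq_mk_iff' K _ _ P.rep_nonzero P'.rep_nonzero).2
      ⟨c⁻¹, by rw [h2, smul_smul, inv_mul_cancel₀ hc, one_smul]⟩
  obtain ⟨hfin, hle⟩ := card_coll_le H x
  have hcard : Nat.card (Projectivization K (Fin 3 → K)) ≤ {z | z ≠ x ∧ Coll I x z}.ncard := by
    rw [← Set.ncard_univ, ← Set.ncard_image_of_injective _ hginj]
    refine Set.ncard_le_ncard ?_ hfin
    rintro _ ⟨P, -, rfl⟩
    exact hg1 P
  have h3 := Projectivization.card_of_finrank K (Fin 3 → K) (n := 3) (by simp)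
  rw [h3] at hcard
  simp only [Finset.sum_range_succ, Finset.sum_range_zero, Nat.card_eq_fintype_card] at hcard
  have h4 : (Fintype.card K + 1) * Fintype.card K = Fintype.card K ^ 2 + Fintype.card K := by ring
  rw [h4] at hle
  simp only [pow_zero, pow_one] at hcard
  omega

end main

end Pool.Agent.Lib.MP_6b0fe3_coR
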