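import Pool.Agent.Lib.MP_6b0fe3_coR.FinalL

/-! MP_6b0fe3_co: a coherent labelling of the B-lines gives coherent coordinates -/

namespace Pool.Agent.Lib.MP_6b0fe3_coR

open Matrix

section LabL
variable {K : Type*} [Field K] [Fintype K] {Pt Ln : Type*} {I : Pt → Ln → Prop}

omit [Fintype K] in
/-- coherent labelling of the B-lines by standard coordinates -/
structure Lab (S : Sub K I) where
  T : Ln → (Fin 3 → K) → (Fin 3 → K) → Prop
  std : ∀ {M w ψ}, T M w ψ → Std S M w ψ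
  ex : ∀ {M}, BLine S M → ∃ w ψ, T M w ψ
  coh : ∀ {v k : Fin 3 → K} {t : Ln} {x y : Pt} {M N : Ln} {w ψ w' ψ' : Fin 3 → K},
    ALine S v k t → Out S x → Out S y → I x t → I y t → BLine S M → BLine S N → I x M → I y N →
    T M w ψ → T N w' ψ' → w' ⨯₃ v = w ⨯₃ v

variable (H : Hex I (Fintype.card K)) {S : Sub K I} (L : Lab S)
include H

/-- the coherent coordinates of a coherent labelling -/
def Lab.lbl : Lbl S where
  R x v w ψ := Rep S x v w ψ ∧ ∃ M w0 ψ0, BLine S M ∧ L.T M w0 ψ0 ∧ I x M ∧ w0 ⨯₃ v = w ⨯₃ v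
  T M w ψ := L.T M w ψ
  R_rep h := h.1
  T_std h := L.std h
  T_ex h := L.ex h
  T_R {M w ψ} hM h {x v k} hx hv :=
    ⟨(rep_of_std H S hM (L.std h) hx hv).2, M, w, ψ, hM, h, hx, rfl⟩
  R_eq {x v w ψ w' ψ'} hx h h' := by
    obtain ⟨hr, M, w0, ψ0, hM, hT, hxM, he⟩ := h
    obtain ⟨-, N, w1, ψ1, hN, hT', hxN, he'⟩ := h'
    obtain ⟨t, ht, hxt⟩ := aline_exists H S hx hr.2.2.1
    rw [← he, ← he']
    exact L.coh ht hx hx hxt hxt hM hN hxM hxN hT hT'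
  R_aline {v k t x y w ψ w' ψ'} ht hxt hyt hx hy h h' := by
    obtain ⟨-, M, w0, ψ0, hM, hT, hxM, he⟩ := h
    obtain ⟨-, N, w1, ψ1, hN, hT', hyN, he'⟩ := h'
    rw [← he, ← he']
    exact L.coh ht hx hy hxt hyt hM hN hxM hyN hT hT'
  R_smul {x v w ψ} h {c} hc := by
    obtain ⟨hr, M, w0, ψ0, hM, hT, hxM, he⟩ := h
    exact ⟨rep_smul H S hr hc, M, w0, ψ0, hM, hT, hxM, by rw [map_smul, map_smul, he]⟩
  R_add {x v w ψ} h s := by
    obtain ⟨hr, M, w0, ψ0, hM, hT, hxM, he⟩ := h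
    refine ⟨rep_add H S hr s, M, w0, ψ0, hM, hT, hxM, ?_⟩
    rw [he, map_add, map_smul, LinearMap.add_apply, LinearMap.smul_apply, cross_self, smul_zero,
      add_zero]

include L in
/-- a hexagon with a coherent labelling is the dual split Cayley hexagon -/
theorem iso_of_lab : ∃ (e₁ : Pt ≃ HLine K) (e₂ : Ln ≃ HPoint K),
    ∀ x l, I x l ↔ (e₂ l).1 ≤ (e₁ x).1 :=
  iso_existsL H (L.lbl H)

end LabL

end Pool.Agent.Lib.MP_6b0fe3_coR
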