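import Mathlib

/-!
# Theorem R (helper9), stand-alone

Let `F` be a finite field with `q` elements, `w` the symplectic form on `F × F`, and
`ρ : F × F → F` with `ρ k' - ρ k ≠ w k k'` whenever `w k k' ≠ 0`. If `q` is prime then `ρ` is
constant on the non-zero vectors.
-/

open Finset

set_option linter.unusedSectionVars false

namespace HexR

variable {F : Type*} [Field F] [Fintype F] [DecidableEq F]

/-- The symplectic form on `F × F`. -/
def w (k k' : F × F) : F := k.1 * k'.2 - k.2 * k'.1

@[simp] lemma w_self (k : F × F) : w k k = 0 := by unfold w; ring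
@[simp] lemma w_zero_left (k : F × F) : w 0 k = 0 := by simp [w]
@[simp] lemma w_zero_right (k : F × F) : w k 0 = 0 := by simp [w]
lemma w_add_right (a b c : F × F) : w a (b + c) = w a b + w a c := by
  simp only [w, Prod.fst_add, Prod.snd_add]; ring
lemma w_add_left (a b c : F × F) : w (a + b) c = w a c + w b c := by
  simp only [w, Prod.fst_add, Prod.snd_add]; ring
lemma w_smul_right (t : F) (a b : F × F) : w a (t • b) = t * w a b := by
  simp only [w, Prod.smul_fst, Prod.smul_snd, smul_eq_mul]; ring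
lemma w_smul_left (t : F) (a b : F × F) : w (t • a) b = t * w a b := by
  simp only [w, Prod.smul_fst, Prod.smul_snd, smul_eq_mul]; ring
lemma w_comm (a b : F × F) : w a b = - w b a := by unfold w; ring
lemma w_sub_right (a b c : F × F) : w a (b - c) = w a b - w a c := by
  simp only [w, Prod.fst_sub, Prod.snd_sub]; ring

lemma exists_dual {u : F × F} (hu : u ≠ 0) : ∃ u' : F × F, w u u' = 1 := by
  by_cases h1 : u.1 = 0
  · have h2 : u.2 ≠ 0 := fun h2 => hu (Prod.ext h1 h2)
    refine ⟨(-(u.2)⁻¹, 0), ?_⟩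
    simp [w, h2]
  · refine ⟨(0, (u.1)⁻¹), ?_⟩
    simp [w, h1]

/-- Coordinates with respect to a symplectic basis. -/
def basisEquiv (u u' : F × F) (h : w u u' = 1) : F × F ≃ F × F where
  toFun p := p.1 • u + p.2 • u'
  invFun k := (w k u', w u k)
  left_inv p := by
    ext
    · simp only [w_add_left, w_smul_left, w_self, h]; ring
    · simp only [w_add_right, w_smul_right, w_self, h]; ring
  right_inv k := by
    have h' : u.1 * u'.2 - u.2 * u'.1 = 1 := h
    ext
    · simp only [w, Prod.fst_add, Prod.smul_fst, smul_eq_mul]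
      linear_combination k.1 * h'
    · simp only [w, Prod.snd_add, Prod.smul_snd, smul_eq_mul]
      linear_combination k.2 * h'

lemma sum_basis {u u' : F × F} (h : w u u' = 1) (f : F × F → ℤ) :
    ∑ k, f k = ∑ b : F, ∑ a : F, f (a • u + b • u') := by
  rw [← (basisEquiv u u' h).sum_comp f, Fintype.sum_prod_type, Finset.sum_comm]
  rfl

variable (ρ : F × F → F)

/-- Number of `k ≠ 0` with `ρ k - w k0 k = z`. -/
def N (k0 : F × F) (z : F) : ℤ := ∑ k : F × F, if k ≠ 0 ∧ ρ k - w k0 k = z then 1 else 0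

/-- Number of `t ≠ 0` with `ρ (t u) = z`. -/
def n (u : F × F) (z : F) : ℤ := ∑ t : F, if t ≠ 0 ∧ ρ (t • u) = z then 1 else 0

/-- Number of `k` with `w κ k = 1` and `ρ k = z`. -/
def G (κ : F × F) (z : F) : ℤ := ∑ k : F × F, if w κ k = 1 ∧ ρ k = z then 1 else 0

/-- The hypothesis. -/
def HypA : Prop := ∀ k k' : F × F, w k k' ≠ 0 → ρ k' - ρ k ≠ w k k'

variable {ρ}

/-- Sum of a function that is one at exactly one place. -/
lemma sum_bij_one {h : F → F} (hh : Function.Injective h) (z : F) :
    ∑ b : F, (if h b = z then (1 : ℤ) else 0) = 1 := by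
  have hb : Function.Bijective h := Finite.injective_iff_bijective.mp hh
  rw [hb.sum_comp (fun y => if y = z then (1 : ℤ) else 0)]
  simp

/-- Step (2). -/
lemma N_eq (hA : HypA ρ) {u : F × F} (hu : u ≠ 0) (z : F) :
    N ρ u z = (Fintype.card F : ℤ) + n ρ u z - (if ρ u = z then (Fintype.card F : ℤ) else 0) := by
  obtain ⟨u', hu'⟩ := exists_dual hu
  have key : ∀ b a : F, (if (a • u + b • u' ≠ 0 ∧ ρ (a • u + b • u') - w u (a • u + b • u') = z)
      then (1 : ℤ) else 0)
      = (if b = 0 then (if a ≠ 0 ∧ ρ (a • u) = z then 1 else 0) else 0)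
        + (if b ≠ 0 then (if ρ (a • u + b • u') - b = z then 1 else 0) else 0) := by
    intro b a
    have hw : w u (a • u + b • u') = b := by
      simp only [w_add_right, w_smul_right, w_self, hu']; ring
    have hne : (a • u + b • u' ≠ 0) ↔ (a ≠ 0 ∨ b ≠ 0) := by
      rw [← not_iff_not]; push Not
      constructor
      · intro h
        have h1 := (basisEquiv u u' hu').injective (a₁ := (a, b)) (a₂ := (0, 0))
          (by simpa [basisEquiv] using h)
        exact ⟨congrArg Prod.fst h1, congrArg Prod.snd h1⟩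
      · rintro ⟨rfl, rfl⟩; simp
    rw [hw]
    by_cases hb : b = 0
    · subst hb
      simp only [ne_eq, not_true_eq_false, if_true, if_false, add_zero, zero_smul]
      have : (¬ (a • u = 0)) ↔ a ≠ 0 := by
        have := hne; simpa using this
      simp only [this, sub_zero]
    · have : a • u + b • u' ≠ 0 := hne.mpr (Or.inr hb)
      simp [hb, this]
  unfold N
  rw [sum_basis hu']
  simp only [key, Finset.sum_add_distrib]
  have h1 : ∑ b : F, ∑ a : F, (if b = 0 then (if a ≠ 0 ∧ ρ (a • u) = z then (1:ℤ) else 0) else 0)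
      = n ρ u z := by
    rw [Finset.sum_comm]
    unfold n
    refine Finset.sum_congr rfl fun a _ => ?_
    simp
  have h2 : ∑ b : F, ∑ a : F, (if b ≠ 0 then (if ρ (a • u + b • u') - b = z then (1:ℤ) else 0) else 0)
      = (Fintype.card F : ℤ) - (if ρ u = z then (Fintype.card F : ℤ) else 0) := by
    have h3 : ∀ b : F, ∑ a : F, (if b ≠ 0 then (if ρ (a • u + b • u') - b = z then (1:ℤ) else 0) else 0)
        = ∑ c : F, (if b ≠ 0 then (if ρ (u + b • (c • u + u')) - b = z then (1:ℤ) else 0) else 0) := by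
      intro b
      by_cases hb : b = 0
      · simp [hb]
      · have hbij : Function.Bijective (fun c : F => 1 + b * c) := by
          refine Finite.injective_iff_bijective.mp fun c c' h => ?_
          have : b * c = b * c' := by simpa using h
          exact mul_left_cancel₀ hb this
        rw [← hbij.sum_comp]
        refine Finset.sum_congr rfl fun c _ => ?_
        have : (1 + b * c) • u + b • u' = u + b • (c • u + u') := by
          ext <;> simp <;> ring
        rw [this]
    simp only [h3]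
    rw [Finset.sum_comm]
    have h4 : ∀ c : F, ∑ b : F, (if b ≠ 0 then (if ρ (u + b • (c • u + u')) - b = z then (1:ℤ) else 0) else 0)
        = 1 - (if ρ u = z then 1 else 0) := by
      intro c
      have hinj : Function.Injective (fun b : F => ρ (u + b • (c • u + u')) - b) := by
        intro b b' hbb
        by_contra hne
        have hww : w (u + b • (c • u + u')) (u + b' • (c • u + u')) = b' - b := by
          simp only [w_add_left, w_add_right, w_smul_left, w_smul_right, w_self, hu',
            w_comm u' u]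
          ring
        have hne' : w (u + b • (c • u + u')) (u + b' • (c • u + u')) ≠ 0 := by
          rw [hww]; exact sub_ne_zero.mpr (Ne.symm hne)
        refine hA _ _ hne' ?_
        rw [hww]
        have : ρ (u + b • (c • u + u')) - b = ρ (u + b' • (c • u + u')) - b' := hbb
        linear_combination -this
      have h5 := sum_bij_one hinj z
      have h6 : ∀ b : F, (if b ≠ 0 then (if ρ (u + b • (c • u + u')) - b = z then (1:ℤ) else 0) else 0)
          = (if ρ (u + b • (c • u + u')) - b = z then (1:ℤ) else 0)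
            - (if b = 0 then (if ρ u = z then 1 else 0) else 0) := by
        intro b
        by_cases hb : b = 0
        · subst hb; simp
        · simp [hb]
      simp only [h6, Finset.sum_sub_distrib]
      rw [h5]; simp
    simp only [h4]
    rw [Finset.sum_const, Finset.card_univ, nsmul_eq_mul]
    split_ifs <;> simp
  rw [h1, h2]; ring


/-- Number of solutions of a linear equation. -/
lemma sum_w_right {v : F × F} (hv : v ≠ 0) (c : F) :
    ∑ k : F × F, (if w k v = c then (1 : ℤ) else 0) = Fintype.card F := by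
  obtain ⟨u', hu'⟩ := exists_dual hv
  rw [sum_basis hu', Finset.sum_comm]
  have h : ∀ a b : F, w (a • v + b • u') v = -b := by
    intro a b
    simp only [w_add_left, w_smul_left, w_self, w_comm u' v, hu']; ring
  simp only [h]
  have h2 : ∀ a : F, ∑ b : F, (if -b = c then (1 : ℤ) else 0) = 1 := fun a =>
    sum_bij_one neg_injective c
  rw [Finset.sum_congr rfl (fun a _ => h2 a)]
  simp

lemma sum_w_left {v : F × F} (hv : v ≠ 0) (c : F) :
    ∑ k : F × F, (if w v k = c then (1 : ℤ) else 0) = Fintype.card F := by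
  rw [← sum_w_right hv (-c)]
  refine Finset.sum_congr rfl fun k _ => ?_
  rw [w_comm v k]
  simp only [neg_eq_iff_eq_neg]

lemma card_ne_zero_sum : ∑ k : F × F, (if k ≠ 0 then (1 : ℤ) else 0)
    = (Fintype.card F : ℤ) ^ 2 - 1 := by
  have h : ∀ k : F × F, (if k ≠ 0 then (1 : ℤ) else 0) = 1 - (if k = 0 then 1 else 0) := by
    intro k; split_ifs <;> simp_all
  simp only [h, Finset.sum_sub_distrib]
  simp [Fintype.card_prod, sq]

lemma card_ne_zero_sum' : ∑ k : F, (if k ≠ 0 then (1 : ℤ) else 0)
    = (Fintype.card F : ℤ) - 1 := by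
  have h : ∀ k : F, (if k ≠ 0 then (1 : ℤ) else 0) = 1 - (if k = 0 then 1 else 0) := by
    intro k; split_ifs <;> simp_all
  simp only [h, Finset.sum_sub_distrib]
  simp

/-- Summing the product of two indicators over the value. -/
lemma sum_ind_mul (P Q : Prop) [Decidable P] [Decidable Q] (x y : F) :
    ∑ z : F, (if P ∧ x = z then (1 : ℤ) else 0) * (if Q ∧ y = z then 1 else 0)
      = if P ∧ Q ∧ x = y then 1 else 0 := by
  by_cases hP : P <;> by_cases hQ : Q <;> simp [hP, hQ]

/-- Step (3), left side. -/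
lemma sum_N_sq : ∑ k0 : F × F, ∑ z : F, N ρ k0 z ^ 2
    = ((Fintype.card F : ℤ) ^ 2 - 1) * ((Fintype.card F : ℤ) ^ 3 + (Fintype.card F : ℤ) ^ 2
        - 2 * Fintype.card F) := by
  have h1 : ∀ k0 : F × F, ∑ z : F, N ρ k0 z ^ 2 = ∑ k : F × F, ∑ k' : F × F,
      (if k ≠ 0 ∧ k' ≠ 0 ∧ ρ k - w k0 k = ρ k' - w k0 k' then (1 : ℤ) else 0) := by
    intro k0
    simp only [N, sq, Finset.sum_mul_sum]
    rw [Finset.sum_comm]
    refine Finset.sum_congr rfl fun k _ => ?_
    rw [Finset.sum_comm]
    refine Finset.sum_congr rfl fun k' _ => ?_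
    exact sum_ind_mul _ _ _ _
  simp only [h1]
  rw [Finset.sum_comm]
  have h2 : ∀ k : F × F, ∑ k0 : F × F, ∑ k' : F × F,
      (if k ≠ 0 ∧ k' ≠ 0 ∧ ρ k - w k0 k = ρ k' - w k0 k' then (1 : ℤ) else 0)
      = (if k ≠ 0 then (1 : ℤ) else 0) * ((Fintype.card F : ℤ) ^ 3 + (Fintype.card F : ℤ) ^ 2
        - 2 * Fintype.card F) := by
    intro k
    rw [Finset.sum_comm]
    by_cases hk : k = 0
    · simp [hk]
    have h3 : ∀ k' : F × F, ∑ k0 : F × F,
        (if k ≠ 0 ∧ k' ≠ 0 ∧ ρ k - w k0 k = ρ k' - w k0 k' then (1 : ℤ) else 0)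
        = (if k' ≠ 0 then (Fintype.card F : ℤ) else 0)
          + (if k' = k then (Fintype.card F : ℤ) ^ 2 - Fintype.card F else 0) := by
      intro k'
      by_cases hk' : k' = 0
      · subst hk'; simp [Ne.symm hk]
      by_cases hkk : k' = k
      · subst hkk
        simp [hk, sq]
      · have hv : k - k' ≠ 0 := sub_ne_zero.mpr (Ne.symm hkk)
        have h4 := sum_w_right hv (ρ k - ρ k')
        have h5 : ∀ k0 : F × F, (k ≠ 0 ∧ k' ≠ 0 ∧ ρ k - w k0 k = ρ k' - w k0 k')
            ↔ w k0 (k - k') = ρ k - ρ k' := by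
          intro k0
          rw [w_sub_right]
          constructor
          · rintro ⟨_, _, h⟩; linear_combination -h
          · intro h; exact ⟨hk, hk', by linear_combination -h⟩
        simp only [h5]
        rw [h4]; simp [hk', hkk]
    simp only [h3, Finset.sum_add_distrib]
    have h6 : ∑ k' : F × F, (if k' ≠ 0 then (Fintype.card F : ℤ) else 0)
        = ((Fintype.card F : ℤ) ^ 2 - 1) * Fintype.card F := by
      rw [← card_ne_zero_sum, Finset.sum_mul]
      refine Finset.sum_congr rfl fun k' _ => ?_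
      split_ifs <;> simp
    rw [h6]
    simp [hk]; ring
  have h7 : ∑ k : F × F, ∑ k0 : F × F, ∑ k' : F × F,
      (if k ≠ 0 ∧ k' ≠ 0 ∧ ρ k - w k0 k = ρ k' - w k0 k' then (1 : ℤ) else 0)
      = ∑ k : F × F, (if k ≠ 0 then (1 : ℤ) else 0) * ((Fintype.card F : ℤ) ^ 3
        + (Fintype.card F : ℤ) ^ 2 - 2 * Fintype.card F) :=
    Finset.sum_congr rfl fun k _ => h2 k
  rw [h7, ← Finset.sum_mul, card_ne_zero_sum]

/-- `n` sums to `q - 1`. -/
lemma sum_n (u : F × F) : ∑ z : F, n ρ u z = (Fintype.card F : ℤ) - 1 := by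
  unfold n
  rw [Finset.sum_comm, ← card_ne_zero_sum']
  refine Finset.sum_congr rfl fun t _ => ?_
  by_cases ht : t = 0 <;> simp [ht]

/-- `n` depends only on the line. -/
lemma n_smul {s : F} (hs : s ≠ 0) (u : F × F) (z : F) : n ρ (s • u) z = n ρ u z := by
  unfold n
  refine Eq.trans ?_ (Equiv.sum_comp (Equiv.mulRight₀ s hs)
    (fun t => if t ≠ 0 ∧ ρ (t • u) = z then (1 : ℤ) else 0))
  refine Finset.sum_congr rfl fun t _ => ?_
  simp [hs, smul_smul]

/-- `D = sum of n (u, ρ u)`. -/
def Dg (ρ : F × F → F) : ℤ := ∑ u : F × F, if u ≠ 0 then n ρ u (ρ u) else 0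

/-- Sum of the squares of `n` is `(q - 1) D`. -/
lemma sum_n_sq : ∑ u : F × F, (if u ≠ 0 then ∑ z : F, n ρ u z ^ 2 else 0)
    = ((Fintype.card F : ℤ) - 1) * Dg ρ := by
  have h1 : ∀ u : F × F, (if u ≠ 0 then ∑ z : F, n ρ u z ^ 2 else 0)
      = ∑ t : F, (if t ≠ 0 then (if t • u ≠ 0 then n ρ (t • u) (ρ (t • u)) else 0) else 0) := by
    intro u
    by_cases hu : u = 0
    · subst hu; simp
    have h2 : ∑ z : F, n ρ u z ^ 2 = ∑ t : F, (if t ≠ 0 then n ρ u (ρ (t • u)) else 0) := by
      have : ∀ z : F, n ρ u z ^ 2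
          = ∑ t : F, (if t ≠ 0 ∧ ρ (t • u) = z then (1:ℤ) else 0) * n ρ u z := by
        intro z; rw [sq, ← Finset.sum_mul]; rfl
      simp only [this]
      rw [Finset.sum_comm]
      refine Finset.sum_congr rfl fun t _ => ?_
      by_cases ht : t = 0
      · simp [ht]
      · simp [ht]
    rw [if_pos hu, h2]
    refine Finset.sum_congr rfl fun t _ => ?_
    by_cases ht : t = 0
    · simp [ht]
    · have : t • u ≠ 0 := smul_ne_zero ht hu
      rw [if_pos ht, if_pos ht, if_pos this, n_smul ht]
  simp only [h1]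
  rw [Finset.sum_comm, ← card_ne_zero_sum', Finset.sum_mul]
  refine Finset.sum_congr rfl fun t _ => ?_
  by_cases ht : t = 0
  · simp [ht]
  · simp only [ht, ne_eq, not_false_eq_true, if_true, one_mul]
    unfold Dg
    exact (MulAction.bijective (Units.mk0 t ht) : Function.Bijective
      (fun u : F × F => (Units.mk0 t ht) • u)).sum_comp
      (fun u => if u ≠ 0 then n ρ u (ρ u) else 0)

/-- `S z` is the number of non-zero vectors of value `z`. -/
lemma N_zero (z : F) : N ρ 0 z = ∑ k : F × F, if k ≠ 0 ∧ ρ k = z then (1 : ℤ) else 0 := by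
  simp [N]

lemma sum_n_left (z : F) : ∑ u : F × F, (if u ≠ 0 then n ρ u z else 0)
    = ((Fintype.card F : ℤ) - 1) * N ρ 0 z := by
  have h1 : ∀ u : F × F, (if u ≠ 0 then n ρ u z else 0)
      = ∑ t : F, (if t ≠ 0 then (if t • u ≠ 0 ∧ ρ (t • u) = z then (1:ℤ) else 0) else 0) := by
    intro u
    by_cases hu : u = 0
    · subst hu; simp
    rw [if_pos hu]; unfold n
    refine Finset.sum_congr rfl fun t _ => ?_
    by_cases ht : t = 0
    · simp [ht]
    · have : t • u ≠ 0 := smul_ne_zero ht hu
      simp [ht, hu]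
  simp only [h1]
  rw [Finset.sum_comm, ← card_ne_zero_sum', Finset.sum_mul]
  refine Finset.sum_congr rfl fun t _ => ?_
  by_cases ht : t = 0
  · simp [ht]
  · simp only [ht, ne_eq, not_false_eq_true, if_true, one_mul]
    rw [N_zero]
    exact (MulAction.bijective (Units.mk0 t ht) : Function.Bijective
      (fun u : F × F => (Units.mk0 t ht) • u)).sum_comp
      (fun u => if ¬ u = 0 ∧ ρ u = z then (1:ℤ) else 0)


/-- Step (3): the sum of the squares of the `S z` is `(q + 1) D`. -/
lemma sum_S_sq (hA : HypA ρ) : ∑ z : F, N ρ 0 z ^ 2 = ((Fintype.card F : ℤ) + 1) * Dg ρ := by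
  set q : ℤ := (Fintype.card F : ℤ) with hq
  have h0 := sum_N_sq (ρ := ρ)
  rw [← hq] at h0
  have h1 : ∀ k0 : F × F, ∑ z : F, N ρ k0 z ^ 2
      = (if k0 = 0 then ∑ z : F, N ρ 0 z ^ 2 else 0)
        + ((if k0 ≠ 0 then (1 : ℤ) else 0) * (q ^ 3 + q ^ 2 - 2 * q)
        + (if k0 ≠ 0 then ∑ z : F, n ρ k0 z ^ 2 else 0)
        - 2 * q * (if k0 ≠ 0 then n ρ k0 (ρ k0) else 0)) := by
    intro k0
    by_cases hk : k0 = 0
    · subst hk; simp
    · have h2 : ∀ z : F, N ρ k0 z ^ 2 = q ^ 2 + n ρ k0 z ^ 2 + 2 * q * n ρ k0 z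
          - (if ρ k0 = z then q ^ 2 + 2 * q * n ρ k0 z else 0) := by
        intro z
        rw [N_eq hA hk z]
        split_ifs <;> ring
      simp only [h2, Finset.sum_add_distrib, Finset.sum_sub_distrib, ← Finset.mul_sum, sum_n]
      simp [hk, ← hq]
      ring
  rw [Finset.sum_congr rfl (fun k0 _ => h1 k0)] at h0
  simp only [Finset.sum_add_distrib, Finset.sum_sub_distrib, ← Finset.mul_sum,
    ← Finset.sum_mul] at h0
  rw [card_ne_zero_sum, sum_n_sq, ← hq] at h0
  have h3 : ∑ k0 : F × F, (if k0 = 0 then ∑ z : F, N ρ 0 z ^ 2 else 0)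
      = ∑ z : F, N ρ 0 z ^ 2 := by simp
  rw [h3] at h0
  have h4 : ∑ u : F × F, (if u ≠ 0 then n ρ u (ρ u) else 0) = Dg ρ := rfl
  rw [h4] at h0
  linear_combination h0

/-- `(q + 1) n (u, z) = S z` for all `u ≠ 0`. -/
lemma n_const (hA : HypA ρ) {u : F × F} (hu : u ≠ 0) (z : F) :
    ((Fintype.card F : ℤ) + 1) * n ρ u z = N ρ 0 z := by
  set q : ℤ := (Fintype.card F : ℤ) with hq
  have key : ∑ z : F, ∑ u : F × F, (if u ≠ 0 then ((q + 1) * n ρ u z - N ρ 0 z) ^ 2 else 0) = 0 := by
    have h1 : ∀ z : F, ∑ u : F × F, (if u ≠ 0 then ((q + 1) * n ρ u z - N ρ 0 z) ^ 2 else 0)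
        = (q + 1) ^ 2 * ∑ u : F × F, (if u ≠ 0 then n ρ u z ^ 2 else 0)
          - (q ^ 2 - 1) * N ρ 0 z ^ 2 := by
      intro z
      have h2 : ∀ u : F × F, (if u ≠ 0 then ((q + 1) * n ρ u z - N ρ 0 z) ^ 2 else 0)
          = (q + 1) ^ 2 * (if u ≠ 0 then n ρ u z ^ 2 else 0)
            - 2 * (q + 1) * N ρ 0 z * (if u ≠ 0 then n ρ u z else 0)
            + (if u ≠ 0 then (1 : ℤ) else 0) * N ρ 0 z ^ 2 := by
        intro u; split_ifs <;> ring
      simp only [h2, Finset.sum_add_distrib, Finset.sum_sub_distrib, ← Finset.mul_sum,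
        ← Finset.sum_mul]
      rw [sum_n_left, card_ne_zero_sum, ← hq]; ring
    simp only [h1, Finset.sum_sub_distrib, ← Finset.mul_sum]
    rw [sum_S_sq hA, Finset.sum_comm]
    have h3 : ∑ u : F × F, ∑ z : F, (if u ≠ 0 then n ρ u z ^ 2 else 0)
        = (q - 1) * Dg ρ := by
      rw [hq, ← sum_n_sq]
      refine Finset.sum_congr rfl fun u _ => ?_
      split_ifs <;> simp
    rw [h3, ← hq]; ring
  have h5 : ∀ z ∈ (Finset.univ : Finset F), (0:ℤ) ≤
      ∑ u : F × F, (if u ≠ 0 then ((q + 1) * n ρ u z - N ρ 0 z) ^ 2 else 0) := by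
    intro z _
    exact Finset.sum_nonneg fun u _ => by split_ifs <;> positivity
  have h6 := (Finset.sum_eq_zero_iff_of_nonneg h5).mp key z (Finset.mem_univ z)
  have h7 := (Finset.sum_eq_zero_iff_of_nonneg (fun u _ => by split_ifs <;> positivity)).mp h6 u
    (Finset.mem_univ u)
  rw [if_pos hu] at h7
  have h8 := pow_eq_zero_iff (two_ne_zero) |>.mp h7
  linarith

/-- `S z ∩ g` is at most `n + 1`. -/
lemma G_le (hA : HypA ρ) {κ : F × F} (hκ : κ ≠ 0) (z : F) : G ρ κ z ≤ n ρ κ z + 1 := by
  set q : ℤ := (Fintype.card F : ℤ) with hq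
  have hqpos : 0 < q := by rw [hq]; exact_mod_cast Fintype.card_pos
  -- left side
  have hL : ∑ μ : F, N ρ (μ • κ) (z - μ) = q * G ρ κ z + (q ^ 2 - 1 - q) := by
    unfold N
    rw [Finset.sum_comm]
    have h1 : ∀ k : F × F, ∑ μ : F, (if k ≠ 0 ∧ ρ k - w (μ • κ) k = z - μ then (1:ℤ) else 0)
        = q * (if w κ k = 1 ∧ ρ k = z then 1 else 0) + ((if k ≠ 0 then 1 else 0)
          - (if w κ k = 1 then 1 else 0)) := by
      intro k
      by_cases hk : k = 0
      · subst hk; simp
      · by_cases hw : w κ k = 1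
        · have h2 : ∀ μ : F, (k ≠ 0 ∧ ρ k - w (μ • κ) k = z - μ) ↔ ρ k = z := by
            intro μ; rw [w_smul_left, hw]
            constructor
            · rintro ⟨_, h⟩; linear_combination h
            · intro h; exact ⟨hk, by linear_combination h⟩
          simp only [h2]
          by_cases hz : ρ k = z <;> simp [hz, hw, hk, hq]
        · have hinj : Function.Injective (fun μ : F => ρ k - w (μ • κ) k + μ) := by
            intro μ μ' h
            have h' : ρ k - w (μ • κ) k + μ = ρ k - w (μ' • κ) k + μ' := h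
            rw [w_smul_left, w_smul_left] at h'
            have h3 : (μ - μ') * (1 - w κ k) = 0 := by linear_combination h'
            rcases mul_eq_zero.mp h3 with h4 | h4
            · exact sub_eq_zero.mp h4
            · exact absurd (sub_eq_zero.mp h4).symm hw
          have h5 := sum_bij_one hinj z
          have h6 : ∀ μ : F, (k ≠ 0 ∧ ρ k - w (μ • κ) k = z - μ) ↔ ρ k - w (μ • κ) k + μ = z := by
            intro μ
            constructor
            · rintro ⟨_, h⟩; linear_combination h
            · intro h; exact ⟨hk, by linear_combination h⟩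
          simp only [h6]
          rw [h5]; simp [hw, hk]
    simp only [h1, Finset.sum_add_distrib, Finset.sum_sub_distrib, ← Finset.mul_sum]
    rw [card_ne_zero_sum, sum_w_left hκ]
    rfl
  -- right side
  set c : ℤ := ∑ μ : F, (if μ ≠ 0 ∧ ρ (μ • κ) = z - μ then (1:ℤ) else 0) with hc
  have hc0 : 0 ≤ c := Finset.sum_nonneg fun μ _ => by split_ifs <;> simp
  have hR : ∑ μ : F, N ρ (μ • κ) (z - μ) = q * n ρ κ z + q ^ 2 - 1 - q * c := by
    have h1 : ∀ μ : F, N ρ (μ • κ) (z - μ) = (if μ = 0 then N ρ 0 z - n ρ κ z - q else 0)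
        + n ρ κ (z - μ) + q - q * (if μ ≠ 0 ∧ ρ (μ • κ) = z - μ then (1:ℤ) else 0) := by
      intro μ
      by_cases hμ : μ = 0
      · subst hμ; simp; ring
      · rw [N_eq hA (smul_ne_zero hμ hκ), n_smul hμ]
        simp only [hμ, if_false, ne_eq, not_false_eq_true, true_and]
        split_ifs <;> simp [hq] <;> ring
    simp only [h1, Finset.sum_add_distrib, Finset.sum_sub_distrib, ← Finset.mul_sum]
    have h2 : ∑ μ : F, n ρ κ (z - μ) = q - 1 := by
      rw [← sum_n (ρ := ρ) κ]
      exact (Equiv.subLeft z).sum_comp (fun y => n ρ κ y)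
    rw [h2, ← hc]
    have h3 := n_const hA hκ z
    simp only [Finset.sum_ite_eq', Finset.mem_univ, if_true, Finset.sum_const, Finset.card_univ,
      nsmul_eq_mul, ← hq]
    rw [← hq] at h3
    linear_combination -h3
  have h := hL.symm.trans hR
  have h9 : q * (G ρ κ z - (n ρ κ z + 1 - c)) = 0 := by linear_combination h
  rcases mul_eq_zero.mp h9 with h10 | h10
  · omega
  · linarith


/-- The number of linear forms that are one at `k` and at `k'`. -/
lemma sum_two {k : F × F} (hk : k ≠ 0) (k' : F × F) :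
    ∑ κ : F × F, (if w κ k = 1 ∧ w κ k' = 1 then (1:ℤ) else 0)
      = (if k' = k then (Fintype.card F : ℤ) else 0) + (if w k k' ≠ 0 then 1 else 0) := by
  obtain ⟨u', hu'⟩ := exists_dual hk
  rw [sum_basis hu']
  have h1 : ∀ b a : F, (if w (a • k + b • u') k = 1 ∧ w (a • k + b • u') k' = 1 then (1:ℤ) else 0)
      = if b = -1 then (if a * w k k' - w u' k' = 1 then 1 else 0) else 0 := by
    intro b a
    have h2 : w (a • k + b • u') k = -b := by
      simp only [w_add_left, w_smul_left, w_self, w_comm u' k, hu']; ring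
    have h3 : w (a • k + b • u') k' = a * w k k' + b * w u' k' := by
      simp only [w_add_left, w_smul_left]
    rw [h2, h3]
    by_cases hb : b = -1
    · subst hb
      have : a * w k k' + -1 * w u' k' = a * w k k' - w u' k' := by ring
      simp [this, sub_eq_add_neg]
    · have : ¬ (-b = 1) := fun h => hb (by linear_combination -h)
      simp [hb, this]
  simp only [h1]
  rw [Finset.sum_comm]
  simp only [Finset.sum_ite_eq', Finset.mem_univ, if_true]
  by_cases hw : w k k' = 0
  · -- `k'` is a multiple of `k`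
    have hk' : k' = (w k' u') • k := by
      have h := (basisEquiv k u' hu').apply_symm_apply k'
      have h5 : (w k' u') • k + (w k k') • u' = k' := h
      rw [hw, zero_smul, add_zero] at h5
      exact h5.symm
    have h6 : w u' k' = - w k' u' := w_comm _ _
    have h7 : k' = k ↔ w k' u' = 1 := by
      constructor
      · intro h; rw [h, hu']
      · intro h; rw [h, one_smul] at hk'; exact hk'
    by_cases hkk : k' = k
    · have h8 : w u' k = -1 := by rw [w_comm u' k, hu']
      rw [hkk]
      simp [h8]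
    · have : ¬ (w k' u' = 1) := fun h => hkk (h7.mpr h)
      simp [hw, h6, this, hkk]
  · have hne : k' ≠ k := by rintro rfl; simp at hw
    have hinj : Function.Injective (fun a : F => a * w k k' - w u' k') := by
      intro a a' h
      have h' : a * w k k' - w u' k' = a' * w k k' - w u' k' := h
      have : (a - a') * w k k' = 0 := by linear_combination h'
      exact sub_eq_zero.mp ((mul_eq_zero.mp this).resolve_right hw)
    rw [sum_bij_one hinj 1]
    simp [hne, hw]

/-- The multiples of `κ` of value `z`. -/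
lemma sum_mult {κ : F × F} (hκ : κ ≠ 0) (z : F) :
    ∑ k : F × F, (if (k ≠ 0 ∧ ρ k = z) ∧ w κ k = 0 then (1:ℤ) else 0) = n ρ κ z := by
  obtain ⟨u', hu'⟩ := exists_dual hκ
  rw [sum_basis hu']
  have h1 : ∀ b a : F, (if (a • κ + b • u' ≠ 0 ∧ ρ (a • κ + b • u') = z)
      ∧ w κ (a • κ + b • u') = 0 then (1:ℤ) else 0)
      = if b = 0 then (if a ≠ 0 ∧ ρ (a • κ) = z then 1 else 0) else 0 := by
    intro b a
    have h2 : w κ (a • κ + b • u') = b := by
      simp only [w_add_right, w_smul_right, w_self, hu']; ring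
    rw [h2]
    by_cases hb : b = 0
    · subst hb; simp [hκ]
    · simp [hb]
  simp only [h1]
  rw [Finset.sum_comm]
  simp only [Finset.sum_ite_eq', Finset.mem_univ, if_true]
  rfl

/-- A line that meets `S z` has exactly `n + 1` points there. -/
lemma G_eq (hA : HypA ρ) {κ k : F × F} (hw : w κ k = 1) {z : F} (hz : ρ k = z) :
    G ρ κ z = n ρ κ z + 1 := by
  set q : ℤ := (Fintype.card F : ℤ) with hq
  have hk : k ≠ 0 := by rintro rfl; simp at hw
  have hqpos : (0:ℤ) < q := by rw [hq]; exact_mod_cast Fintype.card_pos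
  have hn : ∀ κ' : F × F, w κ' k = 1 → n ρ κ' z = n ρ k z := by
    intro κ' h'
    have h0 : κ' ≠ 0 := by rintro rfl; simp at h'
    have h1 := n_const hA h0 z
    have h2 := n_const hA hk z
    have h3 : (q + 1) * (n ρ κ' z - n ρ k z) = 0 := by rw [hq]; linear_combination h1 - h2
    rcases mul_eq_zero.mp h3 with h4 | h4
    · omega
    · linarith
  have hsum : ∑ κ' : F × F, (if w κ' k = 1 then (n ρ k z + 1 - G ρ κ' z) else 0) = 0 := by
    have h1 : ∑ κ' : F × F, (if w κ' k = 1 then G ρ κ' z else 0)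
        = q + N ρ 0 z - n ρ k z := by
      have h2 : ∀ κ' : F × F, (if w κ' k = 1 then G ρ κ' z else 0)
          = ∑ k' : F × F, (if ρ k' = z then
              (if w κ' k = 1 ∧ w κ' k' = 1 then (1:ℤ) else 0) else 0) := by
        intro κ'
        unfold G
        by_cases h : w κ' k = 1
        · rw [if_pos h]
          refine Finset.sum_congr rfl fun k' _ => ?_
          by_cases h3 : ρ k' = z <;> simp [h, h3]
        · simp [h]
      simp only [h2]
      rw [Finset.sum_comm]
      have h3 : ∀ k' : F × F, ∑ κ' : F × F, (if ρ k' = z then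
              (if w κ' k = 1 ∧ w κ' k' = 1 then (1:ℤ) else 0) else 0)
          = (if k' = k then q else 0) + ((if k' ≠ 0 ∧ ρ k' = z then 1 else 0)
            - (if (k' ≠ 0 ∧ ρ k' = z) ∧ w k k' = 0 then 1 else 0)) := by
        intro k'
        by_cases h4 : ρ k' = z
        · simp only [h4, if_true]
          rw [sum_two hk k', ← hq]
          by_cases h5 : k' = k
          · subst h5; simp [hk]
          · by_cases h6 : k' = 0
            · subst h6; simp [Ne.symm hk]
            · by_cases h7 : w k k' = 0 <;> simp [h5, h6, h7]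
        · have h5 : k' ≠ k := by rintro rfl; exact h4 hz
          simp [h4, h5]
      simp only [h3, Finset.sum_add_distrib, Finset.sum_sub_distrib]
      rw [sum_mult hk, ← N_zero]
      simp; ring
    have h4 : ∀ κ' : F × F, (if w κ' k = 1 then (n ρ k z + 1 - G ρ κ' z) else 0)
        = (n ρ k z + 1) * (if w κ' k = 1 then 1 else 0)
          - (if w κ' k = 1 then G ρ κ' z else 0) := by
      intro κ'; split_ifs <;> ring
    simp only [h4, Finset.sum_sub_distrib, ← Finset.mul_sum]
    rw [h1, sum_w_right hk, ← n_const hA hk z, ← hq]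
    ring
  have hnn : ∀ κ' ∈ (Finset.univ : Finset (F × F)),
      0 ≤ (if w κ' k = 1 then (n ρ k z + 1 - G ρ κ' z) else 0) := by
    intro κ' _
    split_ifs with h
    · have h0 : κ' ≠ 0 := by rintro rfl; simp at h
      have := G_le hA h0 z
      rw [hn κ' h] at this
      linarith
    · exact le_refl _
  have h5 := (Finset.sum_eq_zero_iff_of_nonneg hnn).mp hsum κ (Finset.mem_univ κ)
  rw [if_pos hw] at h5
  rw [hn κ hw]; linarith

/-- `n + 1` divides `q`. -/
lemma dvd_card (hA : HypA ρ) {κ : F × F} (hκ : κ ≠ 0) (z : F) :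
    n ρ κ z + 1 ∣ (Fintype.card F : ℤ) := by
  set q : ℤ := (Fintype.card F : ℤ) with hq
  have hG : ∀ c : F, c ≠ 0 → n ρ κ z + 1 ∣ G ρ (c⁻¹ • κ) z := by
    intro c hc
    by_cases h : ∃ k, w (c⁻¹ • κ) k = 1 ∧ ρ k = z
    · obtain ⟨k, h1, h2⟩ := h
      rw [G_eq hA h1 h2, n_smul (inv_ne_zero hc)]
    · have : G ρ (c⁻¹ • κ) z = 0 := by
        unfold G
        refine Finset.sum_eq_zero fun k _ => ?_
        rw [if_neg]
        intro h'; exact h ⟨k, h'⟩
      rw [this]; exact dvd_zero _
  have hS : N ρ 0 z = n ρ κ z + ∑ c : F, (if c ≠ 0 then G ρ (c⁻¹ • κ) z else 0) := by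
    rw [N_zero]
    have h1 : ∀ k : F × F, (if k ≠ 0 ∧ ρ k = z then (1:ℤ) else 0)
        = (if (k ≠ 0 ∧ ρ k = z) ∧ w κ k = 0 then 1 else 0)
          + ∑ c : F, (if c ≠ 0 then (if w (c⁻¹ • κ) k = 1 ∧ ρ k = z then 1 else 0) else 0) := by
      intro k
      have h2 : ∀ c : F, (if c ≠ 0 then (if w (c⁻¹ • κ) k = 1 ∧ ρ k = z then (1:ℤ) else 0) else 0)
          = if c = w κ k then (if w κ k ≠ 0 ∧ ρ k = z then 1 else 0) else 0 := by
        intro c
        rw [w_smul_left]
        by_cases hc : c = 0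
        · subst hc
          by_cases h3 : w κ k = 0
          · simp [h3]
          · simp [Ne.symm h3]
        · have h3 : (c⁻¹ * w κ k = 1) ↔ c = w κ k := by
            constructor
            · intro h; field_simp at h; exact h.symm
            · intro h; rw [← h]; field_simp
          simp only [h3]
          by_cases h4 : c = w κ k
          · subst h4; simp [hc]
          · simp [h4]
      simp only [h2, Finset.sum_ite_eq', Finset.mem_univ, if_true]
      by_cases hw : w κ k = 0
      · simp [hw]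
      · have : k ≠ 0 := by rintro rfl; simp at hw
        simp [hw, this]
    simp only [h1, Finset.sum_add_distrib]
    rw [sum_mult hκ, Finset.sum_comm]
    congr 1
    refine Finset.sum_congr rfl fun c _ => ?_
    by_cases hc : c = 0
    · simp [hc]
    · simp only [hc, ne_eq, not_false_eq_true, if_true]; rfl
  have h3 := n_const hA hκ z
  rw [← hq] at h3
  have h4 : n ρ κ z + 1 ∣ ∑ c : F, (if c ≠ 0 then G ρ (c⁻¹ • κ) z else 0) := by
    refine Finset.dvd_sum fun c _ => ?_
    split_ifs with hc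
    · exact hG c hc
    · exact dvd_zero _
  have h5 : ∑ c : F, (if c ≠ 0 then G ρ (c⁻¹ • κ) z else 0) = q * n ρ κ z := by
    linear_combination -hS - h3
  rw [h5] at h4
  have h6 : q = q * (n ρ κ z + 1) - q * n ρ κ z := by ring
  rw [h6]
  exact dvd_sub (Dvd.intro_left _ rfl) h4

lemma n_nonneg (u : F × F) (z : F) : 0 ≤ n ρ u z :=
  Finset.sum_nonneg fun t _ => by split_ifs <;> simp

/-- THEOREM R: over a field of prime order, `ρ` is constant off zero. -/
theorem const_of_prime (hp : (Fintype.card F).Prime) (hA : HypA ρ) :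
    ∃ z : F, ∀ k : F × F, k ≠ 0 → ρ k = z := by
  set q : ℤ := (Fintype.card F : ℤ) with hq
  have hq2 : 2 ≤ q := by rw [hq]; exact_mod_cast hp.two_le
  let κ : F × F := (1, 0)
  have hκ : κ ≠ 0 := by simp [κ]
  have h1 : ∀ z : F, n ρ κ z = 0 ∨ n ρ κ z = q - 1 := by
    intro z
    have hd := dvd_card hA hκ z
    have hnn := n_nonneg (ρ := ρ) κ z
    obtain ⟨m, hm⟩ := Int.eq_ofNat_of_zero_le (show (0:ℤ) ≤ n ρ κ z + 1 by linarith)
    rw [hm] at hd
    have hd' : m ∣ Fintype.card F := by exact_mod_cast hd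
    rcases (Nat.dvd_prime hp).mp hd' with h | h
    · left; rw [h] at hm; push_cast at hm; linarith
    · right; rw [h] at hm; rw [hq]; linarith
  obtain ⟨z, hz⟩ : ∃ z, n ρ κ z = q - 1 := by
    by_contra hcon
    have h2 : ∀ z : F, n ρ κ z = 0 := fun z =>
      (h1 z).resolve_right fun h => hcon ⟨z, h⟩
    have h3 := sum_n (ρ := ρ) κ
    simp only [h2, Finset.sum_const_zero] at h3
    rw [← hq] at h3
    linarith
  refine ⟨z, fun k hk => ?_⟩
  have h4 : n ρ k z = q - 1 := by
    have h5 := n_const hA hk z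
    have h6 := n_const hA hκ z
    have h7 : (q + 1) * (n ρ k z - n ρ κ z) = 0 := by rw [hq]; linear_combination h5 - h6
    rcases mul_eq_zero.mp h7 with h8 | h8
    · omega
    · linarith
  have h9 : ∑ t : F, ((if t ≠ 0 then (1:ℤ) else 0) - (if t ≠ 0 ∧ ρ (t • k) = z then 1 else 0)) = 0 := by
    rw [Finset.sum_sub_distrib, card_ne_zero_sum', ← hq]
    have : ∑ t : F, (if t ≠ 0 ∧ ρ (t • k) = z then (1:ℤ) else 0) = q - 1 := h4
    rw [this]; ring
  have h10 := (Finset.sum_eq_zero_iff_of_nonneg (fun t _ => by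
    by_cases ht : t = 0
    · simp [ht]
    · by_cases h : ρ (t • k) = z <;> simp [ht, h])).mp h9 1 (Finset.mem_univ 1)
  by_contra hne
  simp [hne] at h10

end HexR
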