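import Pool.Agent.Lib.MP_6b0fe3_coR.ArcC
import Pool.Agent.Lib.MP_6b0fe3_coR.TheoremR

/-!
# Maximal arcs of odd order do not exist (Ball, Blokhuis, Mazzocca), in the affine plane,
and Theorem R for all fields of odd order
-/

open Finset

namespace BBM

/-- the elements of the subfield -/
theorem mem_subfield {F E : Type*} [Field F] [Fintype F] [Field E] [Algebra F E] {z : E}
    (hz : z ^ (Fintype.card F - 1) = 1) : ∃ t : F, algebraMap F E t = z := by
  classical
  by_contra hno
  push Not at hno
  have hq : 1 < Fintype.card F := Fintype.one_lt_card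
  have hne : (Polynomial.X ^ Fintype.card F - Polynomial.X : Polynomial E) ≠ 0 :=
    FiniteField.X_pow_card_sub_X_ne_zero E hq
  have hdeg : (Polynomial.X ^ Fintype.card F - Polynomial.X : Polynomial E).natDegree =
      Fintype.card F := FiniteField.X_pow_card_sub_X_natDegree_eq E hq
  apply hne
  apply Polynomial.eq_zero_of_natDegree_lt_card_of_eval_eq_zero' _
    (insert z (Finset.univ.image (algebraMap F E)))
  · intro y hy
    rw [Polynomial.eval_sub, Polynomial.eval_pow, Polynomial.eval_X, sub_eq_zero]
    rcases Finset.mem_insert.1 hy with rfl | hy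
    · have : Fintype.card F = Fintype.card F - 1 + 1 := by omega
      rw [this, pow_succ, hz, one_mul]
    · obtain ⟨t, -, rfl⟩ := Finset.mem_image.1 hy
      rw [← map_pow, FiniteField.pow_card]
  · rw [hdeg, Finset.card_insert_of_notMem, Finset.card_image_of_injective _
      (algebraMap F E).injective, Finset.card_univ]
    · omega
    · intro h
      obtain ⟨t, -, ht⟩ := Finset.mem_image.1 h
      exact hno t ht

theorem arc_contra {F E : Type*} [Field F] [Fintype F] [DecidableEq F] [Field E] [Fintype E]
    [DecidableEq E] [Algebra F E] (φ : (F × F) ≃ₗ[F] E) {p e s n : ℕ} [Fact p.Prime] [CharP E p]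
    (hp3 : 3 ≤ p) (he : 1 ≤ e) (hs : 1 ≤ s) (hn : n = p ^ e)
    (hq : Fintype.card F = n * (p * s)) (hqp : ∃ h, Fintype.card F = p ^ h)
    (S : Finset (F × F)) (hcard : #S + Fintype.card F = n * Fintype.card F + n)
    (hline : ∀ a u : F × F, u ≠ 0 → (#{t : F | a + t • u ∈ S} = 0 ∨ #{t : F | a + t • u ∈ S} = n)) :
    False := by
  have hE : Fintype.card E = Fintype.card F ^ 2 := by
    rw [← Fintype.card_congr φ.toEquiv, Fintype.card_prod, sq]
  have hq1 : 1 < Fintype.card F := Fintype.one_lt_card
  refine false_of_arc (B := S.image φ) hE hqp hn he hq ?_ ?_ hp3 hs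
  · rw [Finset.card_image_of_injective _ φ.injective]
    exact hcard
  · intro x β hβ hne
    obtain ⟨b, hb, rfl⟩ := Finset.mem_image.1 hβ
    set a : F × F := φ.symm x with ha
    have hxa : φ a = x := φ.apply_symm_apply x
    set u : F × F := b - a with hu
    have hu0 : u ≠ 0 := by
      rw [hu, sub_ne_zero]
      intro h
      apply hne
      rw [h, hxa]
    have hmem : x ∈ S.image φ ↔ a ∈ S := by
      rw [← hxa]
      constructor
      · intro h
        obtain ⟨c, hc, hc'⟩ := Finset.mem_image.1 h
        rwa [← φ.injective hc']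
      · intro h
        exact Finset.mem_image_of_mem _ h
    have hcnt : #{t : F | a + t • u ∈ S} = n := by
      rcases hline a u hu0 with h | h
      · exfalso
        rw [Finset.card_eq_zero] at h
        have : (1 : F) ∈ ({t : F | a + t • u ∈ S} : Finset F) := by
          simp only [mem_filter, mem_univ, true_and, one_smul]
          rw [hu, add_sub_cancel]
          exact hb
        rw [h] at this
        exact absurd this (Finset.notMem_empty _)
      · exact h
    have hset : ({β' ∈ S.image φ | β' ≠ x ∧ (x - β') ^ (Fintype.card F - 1) =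
        (x - φ b) ^ (Fintype.card F - 1)} : Finset E) =
        ((({t : F | a + t • u ∈ S} : Finset F).erase 0).image fun t => φ (a + t • u)) := by
      ext β'
      simp only [mem_filter, mem_image, mem_erase, mem_univ, true_and]
      have hxb : x - φ b ≠ 0 := sub_ne_zero.2 (fun h => hne h.symm)
      have hphi : ∀ t : F, x - φ (a + t • u) = algebraMap F E t * (x - φ b) := by
        intro t
        rw [map_add, map_smul, hu, map_sub, hxa, Algebra.smul_def]
        ring
      constructor
      · rintro ⟨⟨c, hc, rfl⟩, h1, h2⟩
        have h3 : ((x - φ c) / (x - φ b)) ^ (Fintype.card F - 1) = 1 := by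
          rw [div_pow, h2, div_self (pow_ne_zero _ hxb)]
        obtain ⟨t, ht⟩ := mem_subfield (F := F) h3
        have h4 : x - φ c = algebraMap F E t * (x - φ b) := by
          rw [ht, div_mul_cancel₀ _ hxb]
        have h5 : φ (a + t • u) = φ c := by
          have := hphi t
          rw [← h4] at this
          exact sub_right_injective this
        have h6 : a + t • u = c := φ.injective h5
        refine ⟨t, ⟨?_, by rw [h6]; exact hc⟩, h5⟩
        rintro rfl
        rw [map_zero, zero_mul, sub_eq_zero] at h4
        exact h1 h4.symm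
      · rintro ⟨t, ⟨ht0, ht⟩, rfl⟩
        refine ⟨⟨_, ht, rfl⟩, ?_, ?_⟩
        · intro h
          have h2 := hphi t
          rw [h, sub_self] at h2
          rcases mul_eq_zero.1 h2.symm with h3 | h3
          · exact ht0 ((map_eq_zero _).1 h3)
          · exact hxb h3
        · rw [hphi, mul_pow, ← map_pow, FiniteField.pow_card_sub_one_eq_one t ht0, map_one, one_mul]
    have hinj : Function.Injective fun t : F => φ (a + t • u) := by
      intro t t' h
      have h1 := φ.injective h
      have h2 : (t - t') • u = 0 := by
        rw [sub_smul, sub_eq_zero]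
        exact add_left_cancel h1
      rcases smul_eq_zero.1 h2 with h3 | h3
      · exact sub_eq_zero.1 h3
      · exact absurd h3 hu0
    rw [hset, Finset.card_image_of_injective _ hinj]
    by_cases hx : a ∈ S
    · rw [if_pos (hmem.2 hx), Finset.card_erase_of_mem, hcnt]
      simp only [mem_filter, mem_univ, true_and, zero_smul, add_zero]
      exact hx
    · rw [if_neg (fun h => hx (hmem.1 h)), Finset.erase_eq_of_notMem, hcnt]
      simp only [mem_filter, mem_univ, true_and, zero_smul, add_zero]
      exact hx

/-- no maximal arcs in the affine plane over a field of odd order -/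
theorem no_arc {F : Type*} [Field F] [Fintype F] [DecidableEq F] {p e s n : ℕ} [Fact p.Prime]
    [CharP F p] (hp3 : 3 ≤ p) (he : 1 ≤ e) (hs : 1 ≤ s) (hn : n = p ^ e)
    (hq : Fintype.card F = n * (p * s)) (hqp : ∃ h, Fintype.card F = p ^ h)
    (S : Finset (F × F)) (hcard : #S + Fintype.card F = n * Fintype.card F + n)
    (hline : ∀ a u : F × F, u ≠ 0 → (#{t : F | a + t • u ∈ S} = 0 ∨ #{t : F | a + t • u ∈ S} = n)) :
    False := by
  classical
  let E := FiniteField.Extension F p 2
  have hfr : Module.finrank F E = 2 := FiniteField.finrank_extension F p 2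
  have : Module.Finite F E := inferInstance
  have : Finite E := Module.finite_of_finite F
  have : Fintype E := Fintype.ofFinite E
  have : CharP E p := charP_of_injective_algebraMap (algebraMap F E).injective p
  have φ : (F × F) ≃ₗ[F] E := LinearEquiv.ofFinrankEq _ _ (by
    rw [hfr, Module.finrank_prod, Module.finrank_self])
  exact arc_contra φ hp3 he hs hn hq hqp S hcard hline

end BBM

namespace HexR

variable {F : Type*} [Field F] [Fintype F] [DecidableEq F] {ρ : F × F → F}

/-- the arc of the value `z` -/
def arc (ρ : F × F → F) (z : F) : Finset (F × F) := {k | k = 0 ∨ ρ k = z}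

theorem n_card (u : F × F) (z : F) : n ρ u z = (#{t : F | t ≠ 0 ∧ ρ (t • u) = z} : ℤ) := by
  unfold n
  rw [Finset.sum_boole]

theorem arc_card (z : F) : (#(arc ρ z) : ℤ) = N ρ 0 z + 1 := by
  have h1 : arc ρ z = insert 0 ({k | k ≠ 0 ∧ ρ k = z} : Finset (F × F)) := by
    ext k
    simp only [arc, mem_filter, mem_univ, true_and, mem_insert]
    tauto
  rw [h1, Finset.card_insert_of_notMem (by simp), N_zero, Finset.sum_boole]
  push_cast
  ring

theorem arc_line (hA : HypA ρ) {κ : F × F} (hκ : κ ≠ 0) (z : F) (a u : F × F) (hu : u ≠ 0) :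
    #{t : F | a + t • u ∈ arc ρ z} = 0 ∨ (#{t : F | a + t • u ∈ arc ρ z} : ℤ) = n ρ κ z + 1 := by
  have hn : ∀ κ' : F × F, κ' ≠ 0 → n ρ κ' z = n ρ κ z := by
    intro κ' h0
    have h1 := n_const hA h0 z
    have h2 := n_const hA hκ z
    have hqpos : (0:ℤ) < Fintype.card F := by exact_mod_cast Fintype.card_pos
    have h3 : ((Fintype.card F : ℤ) + 1) * (n ρ κ' z - n ρ κ z) = 0 := by linear_combination h1 - h2
    rcases mul_eq_zero.mp h3 with h4 | h4
    · omega
    · linarith
  by_cases hw : w u a = 0
  · -- the line passes through 0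
    right
    obtain ⟨u', hu'⟩ := exists_dual hu
    have ha : a = (w a u') • u := by
      have h := (basisEquiv u u' hu').apply_symm_apply a
      have h5 : (w a u') • u + (w u a) • u' = a := h
      rw [hw, zero_smul, add_zero] at h5
      exact h5.symm
    set c := w a u' with hc
    have h1 : ({t : F | a + t • u ∈ arc ρ z} : Finset F) =
        (insert 0 ({t : F | t ≠ 0 ∧ ρ (t • u) = z} : Finset F)).image (fun t => t - c) := by
      ext t
      simp only [arc, mem_filter, mem_univ, true_and, mem_image, mem_insert]
      rw [ha, ← add_smul]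
      constructor
      · intro h
        refine ⟨c + t, ?_, by ring⟩
        by_cases h0 : c + t = 0
        · left; exact h0
        · right
          rcases h with h | h
          · rcases smul_eq_zero.1 h with h' | h'
            · exact absurd h' h0
            · exact absurd h' hu
          · exact ⟨h0, h⟩
      · rintro ⟨t', h, rfl⟩
        rw [add_sub_cancel]
        rcases h with h | h
        · left; rw [h, zero_smul]
        · right; exact h.2
    rw [h1, Finset.card_image_of_injective _ (sub_left_injective), Finset.card_insert_of_notMem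
      (by simp), ← hn u hu, n_card]
    push_cast
    ring
  · -- the line does not pass through 0
    set κ' : F × F := (w u a)⁻¹ • u with hκ'
    have hκ'0 : κ' ≠ 0 := smul_ne_zero (inv_ne_zero hw) hu
    have hline : ∀ t : F, w κ' (a + t • u) = 1 := by
      intro t
      rw [hκ', w_smul_left, w_add_right, w_smul_right, w_self, mul_zero, add_zero,
        inv_mul_cancel₀ hw]
    by_cases hex : ∃ t : F, ρ (a + t • u) = z
    · right
      obtain ⟨t, ht⟩ := hex
      have h1 := G_eq hA (hline t) ht
      rw [hn κ' hκ'0] at h1
      rw [← h1]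
      unfold G
      rw [Finset.sum_boole]
      congr 1
      have hinj : Function.Injective fun t : F => a + t • u := by
        intro t t' h
        have h2 : (t - t') • u = 0 := by
          rw [sub_smul, sub_eq_zero]
          exact add_left_cancel h
        rcases smul_eq_zero.1 h2 with h3 | h3
        · exact sub_eq_zero.1 h3
        · exact absurd h3 hu
      rw [← Finset.card_image_of_injective _ hinj]
      congr 1
      ext k
      simp only [arc, mem_filter, mem_univ, true_and, mem_image]
      constructor
      · rintro ⟨t, h, rfl⟩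
        refine ⟨hline t, ?_⟩
        rcases h with h | h
        · exfalso
          have := hline t
          rw [h, w_zero_right] at this
          exact zero_ne_one this
        · exact h
      · rintro ⟨h2, h3⟩
        -- `k - a` is a multiple of `u`
        have h4 : w u (k - a) = 0 := by
          have h5 : w κ' a = 1 := by
            have := hline 0
            rwa [zero_smul, add_zero] at this
          have h6 : w κ' (k - a) = 0 := by rw [w_sub_right, h2, h5, sub_self]
          rw [hκ', w_smul_left] at h6
          exact (mul_eq_zero.1 h6).resolve_left (inv_ne_zero hw)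
        obtain ⟨u', hu'⟩ := exists_dual hu
        have h7 : (w (k - a) u') • u + (w u (k - a)) • u' = k - a :=
          (basisEquiv u u' hu').apply_symm_apply (k - a)
        rw [h4, zero_smul, add_zero] at h7
        refine ⟨w (k - a) u', ?_, by rw [h7, add_sub_cancel]⟩
        rw [h7, add_sub_cancel]
        right; exact h3
    · left
      push Not at hex
      rw [Finset.card_eq_zero, Finset.filter_eq_empty_iff]
      intro t _ h
      simp only [arc, mem_filter, mem_univ, true_and] at h
      rcases h with h | h
      · have := hline t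
        rw [h, w_zero_right] at this
        exact zero_ne_one this
      · exact hex t h

/-- Theorem R from the possible values of `n` -/
theorem const_of_values (hA : HypA ρ) {κ : F × F} (hκ : κ ≠ 0)
    (h1 : ∀ z : F, n ρ κ z = 0 ∨ n ρ κ z = (Fintype.card F : ℤ) - 1) :
    ∃ z : F, ∀ k : F × F, k ≠ 0 → ρ k = z := by
  set q : ℤ := (Fintype.card F : ℤ) with hq
  have hq2 : 2 ≤ q := by rw [hq]; exact_mod_cast Fintype.one_lt_card
  obtain ⟨z, hz⟩ : ∃ z, n ρ κ z = q - 1 := by
    by_contra hcon
    have h2 : ∀ z : F, n ρ κ z = 0 := fun z =>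
      (h1 z).resolve_right fun h => hcon ⟨z, h⟩
    have h3 := sum_n (ρ := ρ) κ
    simp only [h2, Finset.sum_const_zero] at h3
    rw [← hq] at h3
    linarith
  refine ⟨z, fun k hk => ?_⟩
  have h4 : n ρ k z = q - 1 := by
    have h5 := n_const hA hk z
    have h6 := n_const hA hκ z
    have h7 : (q + 1) * (n ρ k z - n ρ κ z) = 0 := by rw [hq]; linear_combination h5 - h6
    rcases mul_eq_zero.mp h7 with h8 | h8
    · omega
    · linarith
  have h9 : ∑ t : F, ((if t ≠ 0 then (1:ℤ) else 0) - (if t ≠ 0 ∧ ρ (t • k) = z then 1 else 0)) = 0 := by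
    rw [Finset.sum_sub_distrib, card_ne_zero_sum', ← hq]
    have : ∑ t : F, (if t ≠ 0 ∧ ρ (t • k) = z then (1:ℤ) else 0) = q - 1 := h4
    rw [this]; ring
  have h10 := (Finset.sum_eq_zero_iff_of_nonneg (fun t _ => by
    by_cases ht : t = 0
    · simp [ht]
    · by_cases h : ρ (t • k) = z <;> simp [ht, h])).mp h9 1 (Finset.mem_univ 1)
  by_contra hne
  simp [hne] at h10

/-- THEOREM R for all fields of odd order. -/
theorem const_of_odd (hodd : Odd (Fintype.card F)) (hA : HypA ρ) :
    ∃ z : F, ∀ k : F × F, k ≠ 0 → ρ k = z := by
  obtain ⟨p, hp⟩ := CharP.exists F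
  have hpp : Fact p.Prime := ⟨CharP.char_is_prime F p⟩
  obtain ⟨⟨h, hh⟩, -, hcardF⟩ := FiniteField.card F p
  have hcardF' : Fintype.card F = p ^ h := hcardF
  have hp3 : 3 ≤ p := by
    have h2 := hpp.out.two_le
    by_contra hlt
    have : p = 2 := by omega
    rw [hcardF', this] at hodd
    exact absurd hodd (by
      rw [Nat.not_odd_iff_even]
      exact (Nat.even_pow.2 ⟨even_two, by omega⟩))
  let κ : F × F := (1, 0)
  have hκ : κ ≠ 0 := by simp [κ]
  refine const_of_values hA hκ fun z => ?_
  have hd := dvd_card hA hκ z
  have hnn := n_nonneg (ρ := ρ) κ z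
  obtain ⟨m, hm⟩ := Int.eq_ofNat_of_zero_le (show (0:ℤ) ≤ n ρ κ z + 1 by linarith)
  rw [hm] at hd
  have hd' : m ∣ Fintype.card F := by exact_mod_cast hd
  rw [hcardF'] at hd'
  obtain ⟨e, he, hme⟩ := (Nat.dvd_prime_pow hpp.out).1 hd'
  rcases Nat.eq_zero_or_pos e with he0 | he0
  · left
    rw [hme, he0, pow_zero] at hm
    push_cast at hm
    linarith
  rcases Nat.lt_or_ge e h with heh | heh
  · exfalso
    refine BBM.no_arc (n := m) (e := e) (s := p ^ (h - e - 1)) hp3 he0
      (Nat.one_le_pow _ _ hpp.out.pos) hme ?_ ⟨h, hcardF'⟩ (arc ρ z) ?_ ?_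
    · rw [hcardF', hme, ← pow_succ', ← pow_add]
      congr 1
      omega
    · have h1 := arc_card (ρ := ρ) z
      have h2 := n_const hA hκ z
      have h3 : (#(arc ρ z) : ℤ) + Fintype.card F = m * Fintype.card F + m := by
        rw [h1, ← h2]
        have : n ρ κ z = m - 1 := by linarith
        rw [this]
        ring
      exact_mod_cast h3
    · intro a u hu
      rcases arc_line hA hκ z a u hu with h4 | h4
      · left; exact h4
      · right
        rw [hm] at h4
        exact_mod_cast h4
  · right
    have : e = h := le_antisymm he heh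
    rw [hme, this, ← hcardF'] at hm
    linarith

end HexR
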