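import Pool.Agent.Lib.MP_6b0fe3_coR.LineF

/-! MP_6b0fe3_co, recognition theorem: from the embedding to Sub, translation of the regularity hypothesis -/

namespace Pool.Agent.Lib.MP_6b0fe3_coR

open Matrix

section B
variable {K : Type*} [Field K] [DecidableEq K] {Pt Ln : Type*} {I : Pt → Ln → Prop}

theorem embB_e0 : (![1, 0, 0] : Fin 3 → K) ≠ 0 := by
  intro h
  exact one_ne_zero (congrFun h 0 : (1 : K) = 0)

theorem embB_e1 : (![0, 1, 0] : Fin 3 → K) ≠ 0 := by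
  intro h
  exact one_ne_zero (congrFun h 1 : (1 : K) = 0)

/-- the flag with coordinates `(v,k)` -/
def embBFlag (v k : Fin 3 → K) (h : IsFlag v k) : Flag K :=
  ⟨(Projectivization.mk K v h.1, Projectivization.mk K k h.2.1),
    (Projectivization.orthogonal_mk h.1 h.2.1).2 h.2.2⟩

theorem embB_default : IsFlag (![1, 0, 0] : Fin 3 → K) ![0, 1, 0] :=
  ⟨embB_e0, embB_e1, by rw [dot3]; simp⟩

theorem embB_mk_iff {v w : Fin 3 → K} (hv : v ≠ 0) (hw : w ≠ 0) :
    Projectivization.mk K v hv = Projectivization.mk K w hw ↔ v ⨯₃ w = 0 :=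
  Projectivization.mk_eq_mk_iff_crossProduct_eq_zero hv hw

theorem embB_flag_eq {v k v' k' : Fin 3 → K} (h : IsFlag v k) (h' : IsFlag v' k') :
    embBFlag v k h = embBFlag v' k' h' ↔ (v ⨯₃ v' = 0 ∧ k ⨯₃ k' = 0) := by
  rw [← embB_mk_iff h.1 h'.1, ← embB_mk_iff h.2.1 h'.2.1]
  constructor
  · intro e
    have e1 := congrArg (fun f : Flag K => f.1) e
    exact ⟨congrArg Prod.fst e1, congrArg Prod.snd e1⟩
  · rintro ⟨e1, e2⟩
    apply Subtype.ext
    exact Prod.ext e1 e2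

open Classical in
/-- the subhexagon of an embedding -/
noncomputable def embBSub (a : Flag K → Pt)
    (b : Projectivization K (Fin 3 → K) ⊕ Projectivization K (Fin 3 → K) → Ln)
    (ha : Function.Injective a) (hb : Function.Injective b)
    (hab : ∀ f e, I (a f) (b e) ↔ flagInc f e) : Sub K I where
  pt v k := if h : IsFlag v k then a (embBFlag v k h) else a (embBFlag _ _ embB_default)
  lp u := if h : u ≠ 0 then b (Sum.inl (Projectivization.mk K u h))
    else b (Sum.inl (Projectivization.mk K _ embB_e0))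
  ll m := if h : m ≠ 0 then b (Sum.inr (Projectivization.mk K m h))
    else b (Sum.inl (Projectivization.mk K _ embB_e0))
  pt_eq := by
    intro v k v' k' h h'
    rw [dif_pos h, dif_pos h', ha.eq_iff]
    exact embB_flag_eq h h'
  inc_lp := by
    intro v k u h hu
    rw [dif_pos h, dif_pos hu, hab]
    exact embB_mk_iff h.1 hu
  inc_ll := by
    intro v k m h hm
    rw [dif_pos h, dif_pos hm, hab]
    exact embB_mk_iff h.2.1 hm
  lp_eq := by
    intro u u' hu hu'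
    rw [dif_pos hu, dif_pos hu', hb.eq_iff, Sum.inl_injective.eq_iff]
    exact embB_mk_iff hu hu'
  ll_eq := by
    intro u u' hu hu'
    rw [dif_pos hu, dif_pos hu', hb.eq_iff, Sum.inr_injective.eq_iff]
    exact embB_mk_iff hu hu'
  lp_ne_ll := by
    intro u m hu hm
    rw [dif_pos hu, dif_pos hm]
    intro e
    exact Sum.inl_ne_inr (hb e)

theorem exists_sub (a : Flag K → Pt)
    (b : Projectivization K (Fin 3 → K) ⊕ Projectivization K (Fin 3 → K) → Ln)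
    (ha : Function.Injective a) (hb : Function.Injective b)
    (hab : ∀ f e, I (a f) (b e) ↔ flagInc f e) :
    ∃ S : Sub K I,
      (∀ (u : Fin 3 → K) (hu : u ≠ 0), S.lp u = b (Sum.inl (Projectivization.mk K u hu))) ∧
      (∀ (m : Fin 3 → K) (hm : m ≠ 0), S.ll m = b (Sum.inr (Projectivization.mk K m hm))) ∧
      (∀ (v k : Fin 3 → K) (hf : IsFlag v k), ∃ f : Flag K, S.pt v k = a f ∧
        f.1.1 = Projectivization.mk K v hf.1 ∧ f.1.2 = Projectivization.mk K k hf.2.1) :=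
  ⟨embBSub a b ha hb hab, fun _ hu => dif_pos hu, fun _ hm => dif_pos hm,
    fun v k hf => ⟨embBFlag v k hf, dif_pos hf, rfl, rfl⟩⟩

theorem embB_dot_cross (r c : Fin 3 → K) : r ⬝ᵥ (r ⨯₃ c) = 0 := by
  rw [dot3, cross_apply']
  simp
  ring

theorem embB_dot_cross' (r c : Fin 3 → K) : c ⬝ᵥ (r ⨯₃ c) = 0 := by
  rw [dot3, cross_apply']
  simp
  ring

/-- `H` has the elementary facts, `hd` identifies distance 3. -/
theorem LB_of_regular [Fintype K] (H : Hex I (Fintype.card K))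
    (hd : ∀ x l, (incGraph I).dist (Sum.inl x) (Sum.inr l) = 3 ↔ Near3 I x l)
    (S : Sub K I) (hreg : ∀ c N : Fin 3 → K, c ⬝ᵥ N ≠ 0 → Distance3Regular I (S.lp c) (S.ll N)) :
    LB S := by
  intro c N hcN r s t hr hs ht hrN hsN htN hrs M hM h1 h2
  have hc : c ≠ 0 := by
    intro h
    rw [h, zero_dotProduct] at hcN
    exact hcN rfl
  have hN : N ≠ 0 := by
    intro h
    rw [h, dotProduct_zero] at hcN
    exact hcN rfl
  -- the flags `(r, r × c)`
  have hrc : ∀ r : Fin 3 → K, r ≠ 0 → r ⬝ᵥ N = 0 → r ⨯₃ c ≠ 0 := by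
    intro r hr hrN h0
    obtain ⟨l, -, hl⟩ := (cross_eq_zero_iff hr hc).1 h0
    rw [hl, smul_dotProduct, hrN, smul_zero] at hcN
    exact hcN rfl
  have hfl : ∀ r : Fin 3 → K, r ≠ 0 → r ⬝ᵥ N = 0 → IsFlag r (r ⨯₃ c) := by
    intro r hr hrN
    exact ⟨hr, hrc r hr hrN, embB_dot_cross r c⟩
  have hfc : ∀ r : Fin 3 → K, r ≠ 0 → r ⬝ᵥ N = 0 → IsFlag c (r ⨯₃ c) := by
    intro r hr hrN
    exact ⟨hc, hrc r hr hrN, embB_dot_cross' r c⟩
  have key : ∀ r : Fin 3 → K, r ≠ 0 → r ⬝ᵥ N = 0 →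
      Near3 I (S.pt r (r ⨯₃ c)) (S.lp c) ∧ Near3 I (S.pt r (r ⨯₃ c)) (S.ll N) := by
    intro r hr hrN
    have hN' : IsFlag r N := ⟨hr, hN, hrN⟩
    refine ⟨⟨?_, S.pt c (r ⨯₃ c), thetaE_inc_lp S (hfc r hr hrN), S.ll (r ⨯₃ c),
      thetaE_inc_ll S (hfl r hr hrN), thetaE_inc_ll S (hfc r hr hrN)⟩,
      ⟨?_, S.pt r N, thetaE_inc_ll S hN', S.lp r,
      thetaE_inc_lp S (hfl r hr hrN), thetaE_inc_lp S hN'⟩⟩
    · intro h
      exact hrc r hr hrN ((S.inc_lp (hfl r hr hrN) hc).1 h)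
    · intro h
      have h0 := (S.inc_ll (hfl r hr hrN) hN).1 h
      obtain ⟨l, -, hl⟩ := (cross_eq_zero_iff (hrc r hr hrN) hN).1 h0
      apply hcN
      rw [hl, dotProduct_smul, embB_dot_cross', smul_zero]
  have hne : S.pt r (r ⨯₃ c) ≠ S.pt s (s ⨯₃ c) := by
    intro e
    exact hrs ((S.pt_eq (hfl r hr hrN) (hfl s hs hsN)).1 e).1
  have hk : ∀ r : Fin 3 → K, r ≠ 0 → r ⬝ᵥ N = 0 →
      (incGraph I).dist (Sum.inl (S.pt r (r ⨯₃ c))) (Sum.inr (S.lp c)) = 3 ∧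
      (incGraph I).dist (Sum.inl (S.pt r (r ⨯₃ c))) (Sum.inr (S.ll N)) = 3 := by
    intro r hr hrN
    exact ⟨(hd _ _).2 (key r hr hrN).1, (hd _ _).2 (key r hr hrN).2⟩
  exact (hd _ _).1 (hreg c N hcN _ _ _ (hk r hr hrN) (hk s hs hsN) (hk t ht htN) hne M
    ((hd _ _).2 h1) ((hd _ _).2 h2))

end B

end Pool.Agent.Lib.MP_6b0fe3_coR
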