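import Pool.Agent.Lib.MP_6b0fe3_coR.Defs

/-! Vector lemmas (cross product in dimension 3). -/

namespace Pool.Agent.Lib.MP_6b0fe3_coR

open Matrix

section
variable {K : Type*} [Field K]

theorem cross_apply' (a b : Fin 3 → K) :
    a ⨯₃ b = ![a 1 * b 2 - a 2 * b 1, a 2 * b 0 - a 0 * b 2, a 0 * b 1 - a 1 * b 0] := by
  rw [cross_apply]

theorem dot3 (a b : Fin 3 → K) : a ⬝ᵥ b = a 0 * b 0 + a 1 * b 1 + a 2 * b 2 := by
  simp [dotProduct, Fin.sum_univ_three]

theorem cross_zero_iff' (a b : Fin 3 → K) : a ⨯₃ b = 0 ↔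
    (a 1 * b 2 - a 2 * b 1 = 0 ∧ a 2 * b 0 - a 0 * b 2 = 0 ∧ a 0 * b 1 - a 1 * b 0 = 0) := by
  rw [cross_apply']
  constructor
  · intro h
    exact ⟨by simpa using congrFun h 0, by simpa using congrFun h 1, by simpa using congrFun h 2⟩
  · rintro ⟨h0, h1, h2⟩
    ext i
    fin_cases i <;> simp [h0, h1, h2]

/-- parallel vectors -/
theorem cross_eq_zero_iff {v u : Fin 3 → K} (hv : v ≠ 0) (hu : u ≠ 0) :
    v ⨯₃ u = 0 ↔ ∃ c : K, c ≠ 0 ∧ u = c • v := by
  rw [cross_zero_iff']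
  constructor
  · rintro ⟨h0, h1, h2⟩
    obtain ⟨i, hi⟩ : ∃ i, v i ≠ 0 := by
      by_contra h
      push Not at h
      exact hv (funext h)
    have key : u = (u i / v i) • v := by
      ext j
      simp only [Pi.smul_apply, smul_eq_mul]
      rw [div_mul_eq_mul_div, eq_div_iff hi]
      fin_cases i <;> fin_cases j <;> simp <;> first | ring1 | linear_combination h0 | linear_combination -h0 | linear_combination h1 | linear_combination -h1 | linear_combination h2 | linear_combination -h2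
    refine ⟨u i / v i, ?_, key⟩
    intro h
    rw [h, zero_smul] at key
    exact hu key
  · rintro ⟨c, -, rfl⟩
    simp only [Pi.smul_apply, smul_eq_mul]
    exact ⟨by ring, by ring, by ring⟩

theorem cross_smul_right (c : K) (v : Fin 3 → K) : v ⨯₃ (c • v) = 0 := by
  rw [cross_zero_iff']
  simp only [Pi.smul_apply, smul_eq_mul]
  exact ⟨by ring, by ring, by ring⟩

theorem cross_smul_left (c : K) (v : Fin 3 → K) : (c • v) ⨯₃ v = 0 := by
  rw [cross_zero_iff']
  simp only [Pi.smul_apply, smul_eq_mul]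
  exact ⟨by ring, by ring, by ring⟩

theorem cross_zero_symm {v u : Fin 3 → K} (h : v ⨯₃ u = 0) : u ⨯₃ v = 0 := by
  rw [← cross_anticomm, h, neg_zero]

/-- `v × (k × k') = (v·k') k - (v·k) k'` -/
theorem cross_cross_right (v k k' : Fin 3 → K) :
    v ⨯₃ (k ⨯₃ k') = (v ⬝ᵥ k') • k - (v ⬝ᵥ k) • k' := by
  ext i
  rw [cross_apply', cross_apply', dot3, dot3]
  fin_cases i <;> simp <;> ring

/-- `(k × k') × v = (v·k) k' - (v·k') k` -/
theorem cross_cross_left (v k k' : Fin 3 → K) :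
    (k ⨯₃ k') ⨯₃ v = (v ⬝ᵥ k) • k' - (v ⬝ᵥ k') • k := by
  ext i
  rw [cross_apply', cross_apply', dot3, dot3]
  fin_cases i <;> simp <;> ring

/-- a vector orthogonal to `a × b ≠ 0` is a combination of `a` and `b` -/
theorem exists_comb {a b u : Fin 3 → K} (hab : a ⨯₃ b ≠ 0) (hu : u ⬝ᵥ (a ⨯₃ b) = 0) :
    ∃ α β : K, u = α • a + β • b := by
  obtain ⟨i, hi⟩ : ∃ i, (a ⨯₃ b) i ≠ 0 := by
    by_contra h
    push Not at h
    exact hab (funext h)
  have h0 : (a ⨯₃ b) 0 = a 1 * b 2 - a 2 * b 1 := by rw [cross_apply']; rfl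
  have h1 : (a ⨯₃ b) 1 = a 2 * b 0 - a 0 * b 2 := by rw [cross_apply']; rfl
  have h2 : (a ⨯₃ b) 2 = a 0 * b 1 - a 1 * b 0 := by rw [cross_apply']; rfl
  rw [dot3, h0, h1, h2] at hu
  have g0 : (u ⨯₃ b) 0 = u 1 * b 2 - u 2 * b 1 := by rw [cross_apply']; rfl
  have g1 : (u ⨯₃ b) 1 = u 2 * b 0 - u 0 * b 2 := by rw [cross_apply']; rfl
  have g2 : (u ⨯₃ b) 2 = u 0 * b 1 - u 1 * b 0 := by rw [cross_apply']; rfl
  have f0 : (a ⨯₃ u) 0 = a 1 * u 2 - a 2 * u 1 := by rw [cross_apply']; rfl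
  have f1 : (a ⨯₃ u) 1 = a 2 * u 0 - a 0 * u 2 := by rw [cross_apply']; rfl
  have f2 : (a ⨯₃ u) 2 = a 0 * u 1 - a 1 * u 0 := by rw [cross_apply']; rfl
  refine ⟨(u ⨯₃ b) i / (a ⨯₃ b) i, (a ⨯₃ u) i / (a ⨯₃ b) i, ?_⟩
  ext j
  simp only [Pi.add_apply, Pi.smul_apply, smul_eq_mul]
  rw [div_mul_eq_mul_div, div_mul_eq_mul_div, ← add_div, eq_div_iff hi]
  fin_cases i
  · simp only [Fin.zero_eta, Fin.isValue, h0, g0, f0]
    fin_cases j <;> simp <;> first | ring1 | linear_combination hu | linear_combination -hu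
  · simp only [Fin.mk_one, Fin.isValue, h1, g1, f1]
    fin_cases j <;> simp <;> first | ring1 | linear_combination hu | linear_combination -hu
  · simp only [Fin.reduceFinMk, Fin.isValue, h2, g2, f2]
    fin_cases j <;> simp <;> first | ring1 | linear_combination hu | linear_combination -hu

theorem exists_orth (a : Fin 3 → K) (b : Fin 3 → K) :
    ∃ u : Fin 3 → K, u ≠ 0 ∧ a ⬝ᵥ u = 0 ∧ b ⬝ᵥ u = 0 := by
  by_cases h : a ⨯₃ b = 0
  · -- parallel
    by_cases ha : a = 0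
    · by_cases hb : b = 0
      · exact ⟨![1, 0, 0], fun h => one_ne_zero (α := K) (by simpa using congrFun h 0), by simp [ha], by simp [hb]⟩
      · obtain ⟨i, hi⟩ : ∃ i, b i ≠ 0 := by
          by_contra h
          push Not at h
          exact hb (funext h)
        have : ∃ u : Fin 3 → K, u ≠ 0 ∧ b ⬝ᵥ u = 0 := by
          fin_cases i
          · exact ⟨![b 1, -b 0, 0], fun h => hi (by simpa using congrFun h 1), by rw [dot3]; simp; ring⟩
          · exact ⟨![b 1, -b 0, 0], fun h => hi (by simpa using congrFun h 0), by rw [dot3]; simp; ring⟩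
          · exact ⟨![b 2, 0, -b 0], fun h => hi (by simpa using congrFun h 0), by rw [dot3]; simp; ring⟩
        obtain ⟨u, hu, hu'⟩ := this
        exact ⟨u, hu, by simp [ha], hu'⟩
    · obtain ⟨i, hi⟩ : ∃ i, a i ≠ 0 := by
        by_contra h
        push Not at h
        exact ha (funext h)
      have : ∃ u : Fin 3 → K, u ≠ 0 ∧ a ⬝ᵥ u = 0 := by
        fin_cases i
        · exact ⟨![a 1, -a 0, 0], fun h => hi (by simpa using congrFun h 1), by rw [dot3]; simp; ring⟩
        · exact ⟨![a 1, -a 0, 0], fun h => hi (by simpa using congrFun h 0), by rw [dot3]; simp; ring⟩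
        · exact ⟨![a 2, 0, -a 0], fun h => hi (by simpa using congrFun h 0), by rw [dot3]; simp; ring⟩
      obtain ⟨u, hu, hu'⟩ := this
      refine ⟨u, hu, hu', ?_⟩
      by_cases hb : b = 0
      · simp [hb]
      · obtain ⟨c, -, rfl⟩ := (cross_eq_zero_iff ha hb).1 h
        rw [smul_dotProduct, hu', smul_zero]
  · exact ⟨a ⨯₃ b, h, dot_self_cross a b, dot_cross_self a b⟩

end

end Pool.Agent.Lib.MP_6b0fe3_coR
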