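import Pool.Agent.Lib.MP_6b0fe3_coR.LineF
import Pool.Agent.Lib.MP_6b0fe3_coR.Vec

/-! MP_6b0fe3_co, recognition theorem: class form of theta_x -/

namespace Pool.Agent.Lib.MP_6b0fe3_coR

open Matrix

section main
variable {K : Type*} [Field K] [Fintype K] {Pt Ln : Type*} {I : Pt → Ln → Prop}
variable (H : Hex I (Fintype.card K)) (S : Sub K I)
include H

/-! G: class form of theta_x -/

omit [Fintype K] H in
theorem coll_symm' {x y : Pt} (h : Coll I x y) : Coll I y x := by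
  obtain ⟨l, h1, h2⟩ := h
  exact ⟨l, h2, h1⟩

omit [Fintype K] H in
/-- the flags `(v,k)` and `(a•v, b•k)` give the same point -/
theorem pt_smul' {v k : Fin 3 → K} (h : IsFlag v k) {a b : K} (ha : a ≠ 0) (hb : b ≠ 0) :
    IsFlag (a • v) (b • k) ∧ S.pt (a • v) (b • k) = S.pt v k := by
  have hf : IsFlag (a • v) (b • k) := by
    refine ⟨smul_ne_zero ha h.1, smul_ne_zero hb h.2.1, ?_⟩
    rw [smul_dotProduct, dotProduct_smul, h.2.2]
    simp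
  exact ⟨hf, (S.pt_eq hf h).2 ⟨cross_smul_left a v, cross_smul_left b k⟩⟩

omit [Fintype K] H in
theorem over_of_pt_eq {x : Pt} {v k v' k' : Fin 3 → K} (h : Over S x v k) (h' : IsFlag v' k')
    (he : S.pt v' k' = S.pt v k) : Over S x v' k' := ⟨h', by rw [he]; exact h.2⟩

omit [Fintype K] H in
/-- a flag point collinear with a point of a B-line is at distance 3 from it -/
theorem near3_of_over {M : Ln} (hM : BLine S M) {x : Pt} (hx : I x M) {v k : Fin 3 → K}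
    (h : Over S x v k) : Near3 I (S.pt v k) M :=
  ⟨hM v k h.1, x, hx, coll_symm' h.2⟩

theorem base_antiflag (hLB : LB S) {M : Ln} (hM : BLine S M) {x y : Pt} (hx : I x M) (hy : I y M)
    (hxy : x ≠ y) {v k v' k' : Fin 3 → K} (h : Over S x v k) (h' : Over S y v' k') :
    (k ⨯₃ k') ⬝ᵥ (v ⨯₃ v') ≠ 0 ∧
    ∀ r, r ≠ 0 → r ⬝ᵥ (v ⨯₃ v') = 0 → ∃ z, I z M ∧ Over S z r (r ⨯₃ (k ⨯₃ k')) := by
  have hopp := opp_of_bline H S hM hx hy hxy h h'
  obtain ⟨hv, hk, hvk⟩ := h.1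
  obtain ⟨hv', hk', hvk'⟩ := h'.1
  have hcN : (k ⨯₃ k') ⬝ᵥ (v ⨯₃ v') ≠ 0 := by
    have : (k ⨯₃ k') ⬝ᵥ (v ⨯₃ v') = -((v ⬝ᵥ k') * (v' ⬝ᵥ k)) := by
      have e : (k ⨯₃ k') ⬝ᵥ (v ⨯₃ v') =
          (v ⬝ᵥ k) * (v' ⬝ᵥ k') - (v ⬝ᵥ k') * (v' ⬝ᵥ k) := by
        rw [cross_apply', cross_apply', dot3, dot3, dot3, dot3, dot3]
        simp
        ring
      rw [e, hvk, zero_mul, zero_sub]
    rw [this]
    exact neg_ne_zero.2 (mul_ne_zero hopp.1 hopp.2)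
  refine ⟨hcN, ?_⟩
  -- the two known flags
  have e1 : v ⨯₃ (k ⨯₃ k') = (v ⬝ᵥ k') • k := by
    rw [cross_cross_right, hvk, zero_smul, sub_zero]
  have e2 : v' ⨯₃ (k ⨯₃ k') = (-(v' ⬝ᵥ k)) • k' := by
    rw [cross_cross_right, hvk', zero_smul, zero_sub, neg_smul]
  have p1 := pt_smul' S h.1 (a := 1) (b := v ⬝ᵥ k') one_ne_zero hopp.1
  have p2 := pt_smul' S h'.1 (a := 1) (b := -(v' ⬝ᵥ k)) one_ne_zero (neg_ne_zero.2 hopp.2)
  rw [one_smul] at p1 p2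
  have n1 : Near3 I (S.pt v (v ⨯₃ (k ⨯₃ k'))) M := by
    rw [e1, p1.2]
    exact near3_of_over S hM hx h
  have n2 : Near3 I (S.pt v' (v' ⨯₃ (k ⨯₃ k'))) M := by
    rw [e2, p2.2]
    exact near3_of_over S hM hy h'
  have hvv : v ⨯₃ v' ≠ 0 := by
    intro h0
    rw [h0, dotProduct_zero] at hcN
    exact hcN rfl
  intro r hr hrN
  have hf : IsFlag r (r ⨯₃ (k ⨯₃ k')) := by
    refine ⟨hr, ?_, dot_self_cross r _⟩
    intro h0
    have hc : k ⨯₃ k' ≠ 0 := by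
      intro h1
      rw [h1, zero_dotProduct] at hcN
      exact hcN rfl
    obtain ⟨c, hc0, hc1⟩ := (cross_eq_zero_iff hr hc).1 h0
    rw [hc1, smul_dotProduct, hrN, smul_zero] at hcN
    exact hcN rfl
  have n3 := hLB (k ⨯₃ k') (v ⨯₃ v') hcN v v' r hv hv' hr (dot_self_cross v v')
    (dot_cross_self v v') hrN hvv M hM n1 n2
  obtain ⟨-, z, hz, hcz⟩ := n3
  exact ⟨z, hz, hf, coll_symm' hcz⟩

theorem near_class (hLB : LB S) {x : Pt} (hx : Out S x) {v k r m r' : Fin 3 → K}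
    (h : Over S x v k) (hf : IsFlag r m) (hn : Near I x (S.pt r m)) (hr : r ⬝ᵥ k ≠ 0)
    (hr' : r' ⬝ᵥ k ≠ 0) (hdet : v ⬝ᵥ (r ⨯₃ r') = 0) :
    Near I x (S.pt r' (r' ⨯₃ (m ⨯₃ k))) := by
  have hvm : v ⬝ᵥ m ≠ 0 := near_opp H S hx h hf hn hr
  have hopp : Opp v k r m := ⟨hvm, hr⟩
  obtain ⟨M, hM, hxM, z, hzM, hz⟩ := bline_through H S hx h hf hopp hn
  have hxz : x ≠ z := by
    rintro rfl
    have := (over_unique H S hx h hz).1
    obtain ⟨c, hc0, hc1⟩ := (cross_eq_zero_iff h.1.1 hf.1).1 this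
    rw [hc1, smul_dotProduct, h.1.2.2, smul_zero] at hr
    exact hr rfl
  have hr0 : r' ≠ 0 := by
    rintro rfl
    rw [zero_dotProduct] at hr'
    exact hr' rfl
  have hdet' : r' ⬝ᵥ (v ⨯₃ r) = 0 := by
    have : r' ⬝ᵥ (v ⨯₃ r) = v ⬝ᵥ (r ⨯₃ r') := by
      rw [cross_apply', cross_apply', dot3, dot3]
      simp
      ring
    rw [this, hdet]
  obtain ⟨-, hall⟩ := base_antiflag H S hLB hM hxM hzM hxz h hz
  obtain ⟨z', hz', hoz'⟩ := hall r' hr0 hdet'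
  -- compare `(r', r' × (k × m))` with `(r', r' × (m × k))`
  have e : r' ⨯₃ (m ⨯₃ k) = (-1 : K) • (r' ⨯₃ (k ⨯₃ m)) := by
    rw [cross_cross_right, cross_cross_right]
    module
  have p := pt_smul' S hoz'.1 (a := 1) (b := -1) one_ne_zero (neg_ne_zero.2 one_ne_zero)
  rw [one_smul, ← e] at p
  rw [p.2]
  exact ⟨z', ⟨M, hxM, hz'⟩, hoz'.2⟩

end main

end Pool.Agent.Lib.MP_6b0fe3_coR
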