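import Pool.Agent.Lib.MP_6b0fe3_coR.LiftPa

/-! MP_6b0fe3_co, R2: the Heisenberg group of a flag -/

namespace Pool.Agent.Lib.MP_6b0fe3_coR

open Matrix

/-- the Heisenberg group of order `p^3` -/
@[ext] structure Heis (p : ℕ) where
  a : ZMod p
  b : ZMod p
  c : ZMod p

namespace Heis
variable {p : ℕ}

instance : Mul (Heis p) := ⟨fun x y => ⟨x.a + y.a, x.b + y.b, x.c + y.c + x.a * y.b⟩⟩
instance : One (Heis p) := ⟨⟨0, 0, 0⟩⟩
instance : Inv (Heis p) := ⟨fun x => ⟨-x.a, -x.b, -x.c + x.a * x.b⟩⟩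

theorem mul_def (x y : Heis p) : x * y = ⟨x.a + y.a, x.b + y.b, x.c + y.c + x.a * y.b⟩ := rfl
theorem one_def : (1 : Heis p) = ⟨0, 0, 0⟩ := rfl
theorem inv_def (x : Heis p) : x⁻¹ = ⟨-x.a, -x.b, -x.c + x.a * x.b⟩ := rfl

instance : Group (Heis p) :=
  Group.ofLeftAxioms
    (fun x y z => by
      simp only [mul_def]
      ext <;> simp <;> ring)
    (fun x => by
      simp only [mul_def, one_def]
      ext <;> simp)
    (fun x => by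
      simp only [mul_def, one_def, inv_def]
      ext <;> simp)

/-- the equivalence with triples -/
def equivProd : Heis p ≃ ZMod p × ZMod p × ZMod p where
  toFun x := (x.a, x.b, x.c)
  invFun t := ⟨t.1, t.2.1, t.2.2⟩
  left_inv _ := rfl
  right_inv _ := rfl

instance [NeZero p] : Finite (Heis p) := Finite.of_equiv _ equivProd.symm

theorem card_heis [Fact p.Prime] : Nat.card (Heis p) = p ^ 3 := by
  rw [Nat.card_congr equivProd, Nat.card_prod, Nat.card_prod, Nat.card_zmod]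
  ring

theorem isPGroup [Fact p.Prime] : IsPGroup p (Heis p) := IsPGroup.of_card card_heis

end Heis

section act
variable {p : ℕ} (v0 k0 u m : Fin 3 → ZMod p)

/-- action on points -/
def actV (d : Heis p) (v : Fin 3 → ZMod p) : Fin 3 → ZMod p :=
  v + (d.a * (m ⬝ᵥ v)) • v0 + (d.b * (k0 ⬝ᵥ v)) • u + (d.c * (k0 ⬝ᵥ v)) • v0

/-- action on lines -/
def actK (d : Heis p) (k : Fin 3 → ZMod p) : Fin 3 → ZMod p :=
  k - (d.a * (v0 ⬝ᵥ k)) • m - (d.b * (u ⬝ᵥ k)) • k0 + ((d.a * d.b - d.c) * (v0 ⬝ᵥ k)) • k0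

variable {v0 k0 u m}

theorem actV_mul (h1 : k0 ⬝ᵥ v0 = 0) (h2 : m ⬝ᵥ v0 = 0) (h3 : k0 ⬝ᵥ u = 0) (h4 : m ⬝ᵥ u = 1)
    (x y : Heis p) (v : Fin 3 → ZMod p) :
    actV v0 k0 u m (x * y) v = actV v0 k0 u m x (actV v0 k0 u m y v) := by
  have e1 : m ⬝ᵥ actV v0 k0 u m y v = m ⬝ᵥ v + y.b * (k0 ⬝ᵥ v) := by
    simp only [actV, dotProduct_add, dotProduct_smul, h2, h4, smul_eq_mul]
    ring
  have e2 : k0 ⬝ᵥ actV v0 k0 u m y v = k0 ⬝ᵥ v := by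
    simp only [actV, dotProduct_add, dotProduct_smul, h1, h3, smul_eq_mul]
    ring
  rw [actV, actV, e1, e2, actV, Heis.mul_def]
  ext i
  simp only [Pi.add_apply, Pi.smul_apply, smul_eq_mul]
  ring

theorem actK_mul (h1 : k0 ⬝ᵥ v0 = 0) (h2 : m ⬝ᵥ v0 = 0) (h3 : k0 ⬝ᵥ u = 0) (h4 : m ⬝ᵥ u = 1)
    (x y : Heis p) (k : Fin 3 → ZMod p) :
    actK v0 k0 u m (x * y) k = actK v0 k0 u m x (actK v0 k0 u m y k) := by
  rw [dotProduct_comm] at h1 h2 h3 h4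
  have e1 : u ⬝ᵥ actK v0 k0 u m y k = u ⬝ᵥ k - y.a * (v0 ⬝ᵥ k) := by
    simp only [actK, dotProduct_add, dotProduct_sub, dotProduct_smul, h3, h4, smul_eq_mul]
    ring
  have e2 : v0 ⬝ᵥ actK v0 k0 u m y k = v0 ⬝ᵥ k := by
    simp only [actK, dotProduct_add, dotProduct_sub, dotProduct_smul, h1, h2, smul_eq_mul]
    ring
  rw [actK, actK, e1, e2, actK, Heis.mul_def]
  ext i
  simp only [Pi.add_apply, Pi.sub_apply, Pi.smul_apply, smul_eq_mul]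
  ring

theorem actV_one (v : Fin 3 → ZMod p) : actV v0 k0 u m 1 v = v := by
  rw [actV, Heis.one_def]
  simp

theorem actK_one (k : Fin 3 → ZMod p) : actK v0 k0 u m 1 k = k := by
  rw [actK, Heis.one_def]
  simp

theorem actV_ne_zero (h1 : k0 ⬝ᵥ v0 = 0) (h2 : m ⬝ᵥ v0 = 0) (h3 : k0 ⬝ᵥ u = 0) (h4 : m ⬝ᵥ u = 1)
    (x : Heis p) {v : Fin 3 → ZMod p} (hv : v ≠ 0) : actV v0 k0 u m x v ≠ 0 := by
  intro h
  apply hv
  rw [← actV_one (v0 := v0) (k0 := k0) (u := u) (m := m) v, ← inv_mul_cancel x,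
    actV_mul h1 h2 h3 h4, h, actV]
  simp

theorem actK_ne_zero (h1 : k0 ⬝ᵥ v0 = 0) (h2 : m ⬝ᵥ v0 = 0) (h3 : k0 ⬝ᵥ u = 0) (h4 : m ⬝ᵥ u = 1)
    (x : Heis p) {v : Fin 3 → ZMod p} (hv : v ≠ 0) : actK v0 k0 u m x v ≠ 0 := by
  intro h
  apply hv
  rw [← actK_one (v0 := v0) (k0 := k0) (u := u) (m := m) v, ← inv_mul_cancel x,
    actK_mul h1 h2 h3 h4, h, actK]
  simp

theorem act_dot (h1 : k0 ⬝ᵥ v0 = 0) (h2 : m ⬝ᵥ v0 = 0) (h3 : k0 ⬝ᵥ u = 0) (h4 : m ⬝ᵥ u = 1)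
    (x : Heis p) (v k : Fin 3 → ZMod p) :
    actV v0 k0 u m x v ⬝ᵥ actK v0 k0 u m x k = v ⬝ᵥ k := by
  have h1' := h1
  have h2' := h2
  have h3' := h3
  have h4' := h4
  rw [dotProduct_comm] at h1' h2' h3' h4'
  simp only [actV, actK, dotProduct_add, dotProduct_sub, dotProduct_smul, add_dotProduct,
    smul_dotProduct, smul_eq_mul, h1', h2', h3', h4', dotProduct_comm v m, dotProduct_comm v k0]
  ring

theorem act_flag [Fact p.Prime] (h1 : k0 ⬝ᵥ v0 = 0) (h2 : m ⬝ᵥ v0 = 0) (h3 : k0 ⬝ᵥ u = 0)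
    (h4 : m ⬝ᵥ u = 1)
    (x : Heis p) {v k : Fin 3 → ZMod p} (h : IsFlag v k) :
    IsFlag (actV v0 k0 u m x v) (actK v0 k0 u m x k) :=
  ⟨actV_ne_zero h1 h2 h3 h4 x h.1, actK_ne_zero h1 h2 h3 h4 x h.2.1, by
    rw [act_dot h1 h2 h3 h4]; exact h.2.2⟩

end act

end Pool.Agent.Lib.MP_6b0fe3_coR
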