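import Pool.Agent.Lib.MP_6b0fe3_coR.LineF
import Pool.Agent.Lib.MP_6b0fe3_coR.Vec
import Pool.Agent.Lib.MP_6b0fe3_coR.LiftPb

/-! MP_6b0fe3_co, R2: if all elations extend, the central elations of a flag extend to
automorphisms fixing every outside point over the flag -/

namespace Pool.Agent.Lib.MP_6b0fe3_coR

open Matrix

/-- a second line through the point and a second point on the line of a flag -/
theorem exists_heis_basis {K : Type*} [Field K] {v0 k0 : Fin 3 → K} (hf : IsFlag v0 k0) :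
    ∃ m u : Fin 3 → K, m ⬝ᵥ v0 = 0 ∧ k0 ⬝ᵥ u = 0 ∧ m ⬝ᵥ u = 1 ∧ m ≠ 0 ∧ u ≠ 0 ∧
      k0 ⨯₃ m ≠ 0 ∧ v0 ⨯₃ u ≠ 0 := by
  obtain ⟨hv, hk, hvk⟩ := hf
  -- a vector `m` with `m·v0 = 0`, not parallel to `k0`
  obtain ⟨i, hi⟩ : ∃ i, k0 i ≠ 0 := by
    by_contra h
    push Not at h
    exact hk (funext h)
  -- `e` with `k0 × (v0 × e) = (k0·e) v0 ≠ 0`
  set e : Fin 3 → K := Pi.single i 1 with he
  have hke : k0 ⬝ᵥ e = k0 i := by simp [he]
  set m1 : Fin 3 → K := v0 ⨯₃ e with hm1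
  have hcross : k0 ⨯₃ m1 = (k0 ⬝ᵥ e) • v0 := by
    rw [hm1, cross_cross_right, dotProduct_comm k0 v0, hvk, zero_smul, sub_zero]
  have hcne : k0 ⨯₃ m1 ≠ 0 := by
    rw [hcross, hke]
    exact smul_ne_zero hi hv
  have hm1v : m1 ⬝ᵥ v0 = 0 := by
    rw [hm1, dot3, cross_apply']
    simp
    ring
  have hm10 : m1 ≠ 0 := by
    intro h
    rw [h] at hcne
    simp at hcne
  -- `u` with `k0·u = 0`, `m1·u ≠ 0`
  obtain ⟨j, hj⟩ : ∃ j, (k0 ⨯₃ m1) j ≠ 0 := by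
    by_contra h
    push Not at h
    exact hcne (funext h)
  set e' : Fin 3 → K := Pi.single j 1 with he'
  have hje : (k0 ⨯₃ m1) ⬝ᵥ e' = (k0 ⨯₃ m1) j := by simp [he']
  set u1 : Fin 3 → K := e' ⨯₃ k0 with hu1
  have hku : k0 ⬝ᵥ u1 = 0 := by
    rw [hu1, dot3, cross_apply']
    simp
    ring
  have hmu : m1 ⬝ᵥ u1 = (k0 ⨯₃ m1) ⬝ᵥ e' := by
    rw [hu1, dot3, dot3, cross_apply', cross_apply']
    simp
    ring
  have hmu0 : m1 ⬝ᵥ u1 ≠ 0 := by rw [hmu, hje]; exact hj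
  have hu10 : u1 ≠ 0 := by
    intro h
    rw [h, dotProduct_zero] at hmu0
    exact hmu0 rfl
  have hvu : v0 ⨯₃ u1 ≠ 0 := by
    intro h
    obtain ⟨c, hc, hc'⟩ := (cross_eq_zero_iff hv hu10).1 h
    rw [hc', dotProduct_smul, hm1v, smul_zero] at hmu0
    exact hmu0 rfl
  refine ⟨m1, (m1 ⬝ᵥ u1)⁻¹ • u1, hm1v, ?_, ?_, hm10, smul_ne_zero (inv_ne_zero hmu0) hu10, hcne, ?_⟩
  · rw [dotProduct_smul, hku, smul_zero]
  · rw [dotProduct_smul, smul_eq_mul, inv_mul_cancel₀ hmu0]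
  · rw [map_smul]
    exact smul_ne_zero (inv_ne_zero hmu0) hvu

section grp
variable {p : ℕ} [Fact p.Prime] {Pt Ln : Type*} {I : Pt → Ln → Prop} (S : Sub (ZMod p) I)
variable {v0 k0 u m : Fin 3 → ZMod p}

/-- the automorphisms acting on the flags as elements of the Heisenberg group -/
def liftGroup (h1 : k0 ⬝ᵥ v0 = 0) (h2 : m ⬝ᵥ v0 = 0) (h3 : k0 ⬝ᵥ u = 0) (h4 : m ⬝ᵥ u = 1) :
    Subgroup ((Equiv.Perm Pt × Equiv.Perm Ln) × Heis p) where
  carrier := {z | IsAut I z.1 ∧ ∀ v k, IsFlag v k →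
    z.1.1 (S.pt v k) = S.pt (actV v0 k0 u m z.2 v) (actK v0 k0 u m z.2 k)}
  mul_mem' := by
    rintro ⟨⟨g1, g2⟩, d⟩ ⟨⟨g1', g2'⟩, d'⟩ ⟨hz, hz'⟩ ⟨hy, hy'⟩
    refine ⟨fun x l => ?_, fun v k hf => ?_⟩
    · exact (hz _ _).trans (hy x l)
    · have e1 := hy' v k hf
      have e2 := hz' _ _ (act_flag h1 h2 h3 h4 d' hf)
      simp only [Prod.fst_mul, Prod.snd_mul, Equiv.Perm.mul_apply] at e1 e2 ⊢
      rw [e1, e2, actV_mul h1 h2 h3 h4, actK_mul h1 h2 h3 h4]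
  one_mem' := by
    refine ⟨fun x l => Iff.rfl, fun v k hf => ?_⟩
    simp only [Prod.snd_one, Prod.fst_one, Equiv.Perm.coe_one, id_eq]
    rw [actV_one, actK_one]
  inv_mem' := by
    rintro ⟨⟨g1, g2⟩, d⟩ ⟨hz, hz'⟩
    refine ⟨fun x l => ?_, fun v k hf => ?_⟩
    · have e1 : g1 (g1⁻¹ x) = x := g1.apply_symm_apply x
      have e2 : g2 (g2⁻¹ l) = l := g2.apply_symm_apply l
      have := hz (g1⁻¹ x) (g2⁻¹ l)
      simp only [e1, e2] at this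
      exact this.symm
    · have e2 := hz' _ _ (act_flag h1 h2 h3 h4 d⁻¹ hf)
      simp only [Prod.fst_inv, Prod.snd_inv] at e2 ⊢
      rw [← actV_mul h1 h2 h3 h4, ← actK_mul h1 h2 h3 h4, mul_inv_cancel, actV_one, actK_one] at e2
      rw [Equiv.Perm.inv_eq_iff_eq, e2]

theorem lift_fix_flag (h1 : k0 ⬝ᵥ v0 = 0) (h2 : m ⬝ᵥ v0 = 0) (h3 : k0 ⬝ᵥ u = 0)
    (h4 : m ⬝ᵥ u = 1) (hf : IsFlag v0 k0) {z : (Equiv.Perm Pt × Equiv.Perm Ln) × Heis p}
    (hz : z ∈ liftGroup S h1 h2 h3 h4) : z.1.1 (S.pt v0 k0) = S.pt v0 k0 := by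
  have e1 : actV v0 k0 u m z.2 v0 = v0 := by
    rw [actV, h1, h2]; simp
  have e2 : actK v0 k0 u m z.2 k0 = k0 := by
    rw [actK, dotProduct_comm v0 k0, dotProduct_comm u k0, h1, h3]; simp
  rw [hz.2 v0 k0 hf, e1, e2]

theorem lift_fix_lp {q : ℕ} (H : Hex I q) (h1 : k0 ⬝ᵥ v0 = 0) (h2 : m ⬝ᵥ v0 = 0)
    (h3 : k0 ⬝ᵥ u = 0)
    (h4 : m ⬝ᵥ u = 1) (hf : IsFlag v0 k0) (hm : m ≠ 0) (hkm : k0 ⨯₃ m ≠ 0)
    {z : (Equiv.Perm Pt × Equiv.Perm Ln) × Heis p}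
    (hz : z ∈ liftGroup S h1 h2 h3 h4) : z.1.2 (S.lp v0) = S.lp v0 := by
  have hfm : IsFlag v0 m := ⟨hf.1, hm, by rw [dotProduct_comm]; exact h2⟩
  have e1 : actV v0 k0 u m z.2 v0 = v0 := by
    rw [actV, h1, h2]; simp
  have i1 : I (S.pt v0 k0) (S.lp v0) := (S.inc_lp hf hf.1).2 (cross_self v0)
  have i2 : I (S.pt v0 m) (S.lp v0) := (S.inc_lp hfm hf.1).2 (cross_self v0)
  have i3 := (hz.1 _ _).2 i1
  have i4 := (hz.1 _ _).2 i2
  have hne : z.1.1 (S.pt v0 k0) ≠ z.1.1 (S.pt v0 m) := by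
    intro h
    have := (S.pt_eq hf hfm).1 (z.1.1.injective h)
    exact hkm this.2
  have i5 : I (z.1.1 (S.pt v0 k0)) (S.lp v0) := by
    rw [lift_fix_flag S h1 h2 h3 h4 hf hz]; exact i1
  have i6 : I (z.1.1 (S.pt v0 m)) (S.lp v0) := by
    have hact := act_flag h1 h2 h3 h4 z.2 hfm
    rw [e1] at hact
    rw [hz.2 v0 m hfm, e1]
    exact (S.inc_lp hact hf.1).2 (cross_self v0)
  exact H.uniq i3 i4 i5 i6 hne

theorem lift_fix_ll {q : ℕ} (H : Hex I q) (h1 : k0 ⬝ᵥ v0 = 0) (h2 : m ⬝ᵥ v0 = 0)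
    (h3 : k0 ⬝ᵥ u = 0)
    (h4 : m ⬝ᵥ u = 1) (hf : IsFlag v0 k0) (hu : u ≠ 0) (hvu : v0 ⨯₃ u ≠ 0)
    {z : (Equiv.Perm Pt × Equiv.Perm Ln) × Heis p}
    (hz : z ∈ liftGroup S h1 h2 h3 h4) : z.1.2 (S.ll k0) = S.ll k0 := by
  have hfm : IsFlag u k0 := ⟨hu, hf.2.1, by rw [dotProduct_comm]; exact h3⟩
  have e1 : actK v0 k0 u m z.2 k0 = k0 := by
    rw [actK, dotProduct_comm v0 k0, dotProduct_comm u k0, h1, h3]; simp
  have i1 : I (S.pt v0 k0) (S.ll k0) := (S.inc_ll hf hf.2.1).2 (cross_self k0)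
  have i2 : I (S.pt u k0) (S.ll k0) := (S.inc_ll hfm hf.2.1).2 (cross_self k0)
  have i3 := (hz.1 _ _).2 i1
  have i4 := (hz.1 _ _).2 i2
  have hne : z.1.1 (S.pt v0 k0) ≠ z.1.1 (S.pt u k0) := by
    intro h
    have := (S.pt_eq hf hfm).1 (z.1.1.injective h)
    exact hvu this.1
  have i5 : I (z.1.1 (S.pt v0 k0)) (S.ll k0) := by
    rw [lift_fix_flag S h1 h2 h3 h4 hf hz]; exact i1
  have i6 : I (z.1.1 (S.pt u k0)) (S.ll k0) := by
    have hact := act_flag h1 h2 h3 h4 z.2 hfm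
    rw [e1] at hact
    rw [hz.2 u k0 hfm, e1]
    exact (S.inc_ll hact hf.2.1).2 (cross_self k0)
  exact H.uniq i3 i4 i5 i6 hne

theorem lift_aline {q : ℕ} (H : Hex I q) (h1 : k0 ⬝ᵥ v0 = 0) (h2 : m ⬝ᵥ v0 = 0)
    (h3 : k0 ⬝ᵥ u = 0)
    (h4 : m ⬝ᵥ u = 1) (hf : IsFlag v0 k0) (hm : m ≠ 0) (hkm : k0 ⨯₃ m ≠ 0)
    (hu : u ≠ 0) (hvu : v0 ⨯₃ u ≠ 0)
    {z : (Equiv.Perm Pt × Equiv.Perm Ln) × Heis p}
    (hz : z ∈ liftGroup S h1 h2 h3 h4) (t : Ln) :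
    ALine S v0 k0 (z.1.2 t) ↔ ALine S v0 k0 t := by
  have e1 := lift_fix_flag S h1 h2 h3 h4 hf hz
  have e2 := lift_fix_lp S H h1 h2 h3 h4 hf hm hkm hz
  have e3 := lift_fix_ll S H h1 h2 h3 h4 hf hu hvu hz
  have j1 : I (S.pt v0 k0) (z.1.2 t) ↔ I (S.pt v0 k0) t := by
    have := hz.1 (S.pt v0 k0) t
    rwa [e1] at this
  have j2 : z.1.2 t = S.lp v0 ↔ t = S.lp v0 := by
    constructor
    · intro h
      exact z.1.2.injective (h.trans e2.symm)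
    · rintro rfl
      exact e2
  have j3 : z.1.2 t = S.ll k0 ↔ t = S.ll k0 := by
    constructor
    · intro h
      exact z.1.2.injective (h.trans e3.symm)
    · rintro rfl
      exact e3
  unfold ALine
  rw [j1, Ne, Ne, Ne, Ne, j2, j3]

end grp

/-- a permutation of `p`-power order preserving a set of less than `p` points fixes it pointwise -/
theorem trivial_on {p n : ℕ} [Fact p.Prime] {α : Type*} {Q : α → Prop} [Finite {x // Q x}]
    (hcard : Nat.card {x // Q x} < p) (σ : Equiv.Perm α) (h : ∀ x, Q (σ x) ↔ Q x)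
    (hσ : σ ^ p ^ n = 1) {x : α} (hx : Q x) : σ x = x := by
  classical
  have := Fintype.ofFinite {x // Q x}
  rw [Nat.card_eq_fintype_card] at hcard
  have h1 : (σ.subtypePerm h) ^ p ^ n = 1 := by
    rw [Equiv.Perm.subtypePerm_pow]
    ext y
    simp [hσ]
  have h2 := perm_trivial hcard (σ.subtypePerm h) h1
  have h3 := Equiv.Perm.ext_iff.1 h2 ⟨x, hx⟩
  have h4 := congrArg Subtype.val h3
  exact h4

/-- two elements of a `p`-group acting on a set of `p` points commute there -/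
theorem comm_on {p : ℕ} [Fact p.Prime] {α Γ : Type*} [Group Γ] {Q : α → Prop} [Finite {x // Q x}]
    (hcard : Nat.card {x // Q x} = p) (P : Subgroup Γ) (hP : IsPGroup p P)
    (ρ : Γ →* Equiv.Perm α) (h : ∀ g ∈ P, ∀ x, Q (ρ g x) ↔ Q x) {a b : Γ} (ha : a ∈ P)
    (hb : b ∈ P) {x : α} (hx : Q x) : ρ (a * b * a⁻¹ * b⁻¹) x = x := by
  classical
  have := Fintype.ofFinite {x // Q x}
  rw [Nat.card_eq_fintype_card] at hcard
  let φ : P →* Equiv.Perm {x // Q x} :=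
    { toFun := fun g => (ρ g).subtypePerm (h g g.2)
      map_one' := by
        ext y
        simp
      map_mul' := by
        intro g g'
        ext y
        simp }
  have hφ : IsPGroup p φ.range := hP.of_surjective φ.rangeRestrict φ.rangeRestrict_surjective
  have hc := perm_comm hcard φ.range hφ (φ ⟨a, ha⟩) (φ ⟨b, hb⟩) ⟨_, rfl⟩ ⟨_, rfl⟩
  have h1 : φ (⟨a, ha⟩ * ⟨b, hb⟩ * ⟨a, ha⟩⁻¹ * ⟨b, hb⟩⁻¹) = 1 := by
    rw [map_mul, map_mul, map_mul, hc, map_inv, map_inv]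
    group
  have h2 := Equiv.Perm.ext_iff.1 h1 ⟨x, hx⟩
  exact congrArg Subtype.val h2

theorem central_lift {p : ℕ} [Fact p.Prime] {Pt Ln : Type*} {I : Pt → Ln → Prop}
    (H : Hex I p) (S : Sub (ZMod p) I)
    (hel : ∀ u m : Fin 3 → ZMod p, u ⬝ᵥ m = 0 → ∃ g : Equiv.Perm Pt × Equiv.Perm Ln, IsAut I g ∧
      ∀ v k, IsFlag v k → g.1 (S.pt v k) = S.pt (v + (m ⬝ᵥ v) • u) (k - (u ⬝ᵥ k) • m))
    {v0 k0 : Fin 3 → ZMod p} (hf : IsFlag v0 k0) (s : ZMod p) :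
    ∃ g : Equiv.Perm Pt × Equiv.Perm Ln, IsAut I g ∧
      (∀ v k, IsFlag v k →
        g.1 (S.pt v k) = S.pt (v + (s * (k0 ⬝ᵥ v)) • v0) (k - (s * (v0 ⬝ᵥ k)) • k0)) ∧
      ∀ x, Out S x → Over S x v0 k0 → g.1 x = x := by
  have hp : p.Prime := Fact.out
  obtain ⟨hPt, hLn⟩ := finite_of_hex H
  obtain ⟨m, u, h2, h3, h4, hm, hu, hkm, hvu⟩ := exists_heis_basis hf
  have h1 : k0 ⬝ᵥ v0 = 0 := by rw [dotProduct_comm]; exact hf.2.2
  let G := liftGroup S h1 h2 h3 h4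
  let f : G →* Heis p := (MonoidHom.snd _ _).comp G.subtype
  have hsurj : Function.Surjective f := by
    intro d
    have hd : d = ⟨0, d.b, 0⟩ * ⟨d.a, 0, d.c⟩ := by
      rw [Heis.mul_def]; ext <;> simp
    obtain ⟨g, hg, hg'⟩ := hel u (d.b • k0) (by
      rw [dotProduct_smul, dotProduct_comm, h3, smul_zero])
    obtain ⟨g', hgg, hgg'⟩ := hel v0 (d.a • m + d.c • k0) (by
      rw [dotProduct_add, dotProduct_smul, dotProduct_smul, dotProduct_comm v0 m, h2,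
        dotProduct_comm v0 k0, h1, smul_zero, smul_zero, add_zero])
    have m1 : (g, (⟨0, d.b, 0⟩ : Heis p)) ∈ G := by
      refine ⟨hg, fun v k hvk => ?_⟩
      have e := hg' v k hvk
      simp only [actV, actK]
      rw [e]
      congr 1
      · ext i; simp
      · ext i; simp; ring
    have m2 : (g', (⟨d.a, 0, d.c⟩ : Heis p)) ∈ G := by
      refine ⟨hgg, fun v k hvk => ?_⟩
      have e := hgg' v k hvk
      simp only [actV, actK]
      rw [e]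
      congr 1
      · ext i; simp; ring
      · ext i; simp; ring
    exact ⟨⟨_, m1⟩ * ⟨_, m2⟩, hd.symm⟩
  let P : Sylow p G := Classical.arbitrary _
  have htop : (P : Subgroup G).map f = ⊤ := by
    have h5 := (P.mapSurjective hsurj).is_maximal' (Q := ⊤)
      (Heis.isPGroup.to_subgroup ⊤) le_top
    exact h5.symm
  obtain ⟨a, haP, hfa⟩ : ∃ a ∈ (P : Subgroup G), f a = ⟨1, 0, 0⟩ := by
    have : (⟨1, 0, 0⟩ : Heis p) ∈ (P : Subgroup G).map f := by rw [htop]; trivial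
    exact this
  obtain ⟨b, hbP, hfb⟩ : ∃ b ∈ (P : Subgroup G), f b = ⟨0, s, 0⟩ := by
    have : (⟨0, s, 0⟩ : Heis p) ∈ (P : Subgroup G).map f := by rw [htop]; trivial
    exact this
  have hfc : f (a * b * a⁻¹ * b⁻¹) = ⟨0, 0, s⟩ := by
    rw [map_mul, map_mul, map_mul, map_inv, map_inv, hfa, hfb]
    simp only [Heis.mul_def, Heis.inv_def]
    ext <;> simp
  set c : G := a * b * a⁻¹ * b⁻¹ with hc
  have hc2 : c.1.2 = ⟨0, 0, s⟩ := hfc
  refine ⟨c.1.1, c.2.1, fun v k hvk => ?_, fun x hx hov => ?_⟩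
  · have e := c.2.2 v k hvk
    rw [e, hc2]
    congr 1
    · ext i; simp [actV]
    · ext i; simp [actK]; ring
  · have H' : Hex I (Fintype.card (ZMod p)) := by rw [ZMod.card]; exact H
    obtain ⟨t, ht, hxt⟩ := aline_exists H' S hx hov
    -- `P` fixes the line `t`
    have hfix : ∀ z ∈ (P : Subgroup G), z.1.1.2 t = t := by
      intro z hz
      obtain ⟨n, hn⟩ := P.isPGroup' ⟨z, hz⟩
      have hn1 : z ^ p ^ n = 1 := congrArg Subtype.val hn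
      have hn2 : z.1.1.2 ^ p ^ n = 1 := congrArg (fun w : G => w.1.1.2) hn1
      have hcard : Nat.card {t // ALine S v0 k0 t} < p := by
        have e := aline_card H' S hf
        rw [ZMod.card] at e
        have e2 : Nat.card {t // ALine S v0 k0 t} = {t | ALine S v0 k0 t}.ncard := rfl
        have := hp.pos
        omega
      exact trivial_on hcard z.1.1.2
        (fun t => lift_aline S H h1 h2 h3 h4 hf hm hkm hu hvu z.2 t) hn2 ht
    have hcard : Nat.card {y // I y t ∧ y ≠ S.pt v0 k0} = p := by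
      have e2 : Nat.card {y // I y t ∧ y ≠ S.pt v0 k0} = ({y | I y t} \ {S.pt v0 k0}).ncard := rfl
      rw [e2, Set.ncard_sdiff_singleton_of_mem (show S.pt v0 k0 ∈ {y | I y t} from ht.2.1),
        H.lineCard]
      omega
    have hxne : x ≠ S.pt v0 k0 := hx _ _ hf
    let ρ : G →* Equiv.Perm Pt :=
      (MonoidHom.fst _ _).comp ((MonoidHom.fst _ _).comp G.subtype)
    exact comm_on hcard (P : Subgroup G) P.isPGroup' ρ (fun z hz y => by
      have e1 : z.1.1.1 (S.pt v0 k0) = S.pt v0 k0 := lift_fix_flag S h1 h2 h3 h4 hf z.2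
      have e2 := z.2.1 y t
      rw [hfix z hz] at e2
      have e3 : z.1.1.1 y = S.pt v0 k0 ↔ y = S.pt v0 k0 := by
        constructor
        · intro h
          exact z.1.1.1.injective (h.trans e1.symm)
        · rintro rfl
          exact e1
      change (I (z.1.1.1 y) t ∧ z.1.1.1 y ≠ S.pt v0 k0) ↔ _
      rw [e2, Ne, Ne, e3]) haP hbP ⟨hxt, hxne⟩

end Pool.Agent.Lib.MP_6b0fe3_coR
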