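import Pool.Agent.Lib.MP_6b0fe3_coR.LineF
import Pool.Agent.Lib.MP_6b0fe3_coR.ClassG
import Pool.Agent.Lib.MP_6b0fe3_coR.LiftP

/-! MP_6b0fe3_co, R2: Lemma B from central lifts -/

namespace Pool.Agent.Lib.MP_6b0fe3_coR

open Matrix

section
variable {K : Type*} [Field K] [Fintype K] {Pt Ln : Type*} {I : Pt → Ln → Prop}
variable (H : Hex I (Fintype.card K)) (S : Sub K I)
include H

theorem near_class_of_lifts
    (hZ : ∀ v0 k0 : Fin 3 → K, IsFlag v0 k0 → ∀ x, Out S x → Over S x v0 k0 → ∀ s : K,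
      ∃ g : Equiv.Perm Pt × Equiv.Perm Ln, IsAut I g ∧
      (∀ v k, IsFlag v k →
        g.1 (S.pt v k) = S.pt (v + (s * (k0 ⬝ᵥ v)) • v0) (k - (s * (v0 ⬝ᵥ k)) • k0)) ∧
      g.1 x = x)
    {x : Pt} (hx : Out S x) {v k r m r' : Fin 3 → K}
    (h : Over S x v k) (hf : IsFlag r m) (hn : Near I x (S.pt r m)) (hr : r ⬝ᵥ k ≠ 0)
    (hr' : r' ⬝ᵥ k ≠ 0) (hdet : v ⬝ᵥ (r ⨯₃ r') = 0) :
    Near I x (S.pt r' (r' ⨯₃ (m ⨯₃ k))) := by
  -- `r' = c (r + τ v)`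
  have hr0 : r ≠ 0 := hf.1
  have hv0 : v ≠ 0 := h.1.1
  have hvr : v ⨯₃ r ≠ 0 := by
    intro h0
    obtain ⟨c, hc0, hc1⟩ := (cross_eq_zero_iff hv0 hr0).1 h0
    rw [hc1, smul_dotProduct, h.1.2.2, smul_zero] at hr
    exact hr rfl
  have hr'2 : r' ⬝ᵥ (v ⨯₃ r) = 0 := by
    have : r' ⬝ᵥ (v ⨯₃ r) = v ⬝ᵥ (r ⨯₃ r') := by
      rw [cross_apply', cross_apply', dot3, dot3]
      simp
      ring
    rw [this, hdet]
  obtain ⟨α, β, hαβ⟩ := exists_comb hvr hr'2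
  have hrk : r' ⬝ᵥ k = β * (r ⬝ᵥ k) := by
    rw [hαβ, add_dotProduct, smul_dotProduct, smul_dotProduct, h.1.2.2, smul_zero, zero_add,
      smul_eq_mul]
  have hβ : β ≠ 0 := by
    rintro rfl
    rw [zero_mul] at hrk
    exact hr' hrk
  -- the lift
  obtain ⟨g, hg, hgf, hgx⟩ := hZ v k h.1 x hx h (α / β / (r ⬝ᵥ k))
  have hgn : Near I x (g.1 (S.pt r m)) := by
    obtain ⟨z, ⟨l1, h1, h2⟩, ⟨l2, h3, h4⟩⟩ := hn
    refine ⟨g.1 z, ⟨g.2 l1, ?_, (hg _ _).2 h2⟩, ⟨g.2 l2, (hg _ _).2 h3, (hg _ _).2 h4⟩⟩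
    have := (hg x l1).2 h1
    rwa [hgx] at this
  rw [hgf r m hf] at hgn
  have e1 : r + (α / β / (r ⬝ᵥ k) * (k ⬝ᵥ r)) • v = β⁻¹ • r' := by
    rw [dotProduct_comm k r, div_mul_cancel₀ _ hr, hαβ, smul_add, smul_smul, smul_smul,
      inv_mul_cancel₀ hβ, one_smul, div_eq_inv_mul, add_comm]
  have hrm : r' ⬝ᵥ m = α * (v ⬝ᵥ m) := by
    rw [hαβ, add_dotProduct, smul_dotProduct, smul_dotProduct, hf.2.2, smul_zero, add_zero,
      smul_eq_mul]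
  have e2 : m - (α / β / (r ⬝ᵥ k) * (v ⬝ᵥ m)) • k = (r' ⬝ᵥ k)⁻¹ • (r' ⨯₃ (m ⨯₃ k)) := by
    rw [cross_cross_right, smul_sub, smul_smul, smul_smul, inv_mul_cancel₀ hr', one_smul, hrk, hrm]
    congr 2
    field_simp
  rw [e1, e2] at hgn
  have hf' : IsFlag (β⁻¹ • r') ((r' ⬝ᵥ k)⁻¹ • (r' ⨯₃ (m ⨯₃ k))) := by
    have hr'0 : r' ≠ 0 := by
      rintro rfl
      rw [zero_dotProduct] at hr'
      exact hr' rfl
    refine ⟨smul_ne_zero (inv_ne_zero hβ) hr'0, ?_, ?_⟩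
    · rw [← e2]
      intro h0
      have h1 : m = (α / β / (r ⬝ᵥ k) * (v ⬝ᵥ m)) • k := sub_eq_zero.1 h0
      have h2 := hf.2.2
      rw [h1, dotProduct_smul, smul_eq_mul, mul_eq_zero] at h2
      rcases h2 with h2 | h2
      · rw [h2, zero_smul] at h1
        exact hf.2.1 h1
      · exact hr h2
    · rw [smul_dotProduct, dotProduct_smul, dot_self_cross]
      simp
  have hf'' : IsFlag r' (r' ⨯₃ (m ⨯₃ k)) := by
    have := (pt_smul' S hf' (a := β) (b := r' ⬝ᵥ k) hβ hr').1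
    rwa [smul_smul, smul_smul, mul_inv_cancel₀ hβ, mul_inv_cancel₀ hr', one_smul, one_smul] at this
  rw [(pt_smul' S hf'' (inv_ne_zero hβ) (inv_ne_zero hr')).2] at hgn
  exact hgn


/-- the class form of `theta` gives antiflag bases (this is Lemma B) -/
theorem base_antiflag_of_near_class
    (hnc : ∀ {x : Pt}, Out S x → ∀ {v k r m r' : Fin 3 → K}, Over S x v k → IsFlag r m →
      Near I x (S.pt r m) → r ⬝ᵥ k ≠ 0 → r' ⬝ᵥ k ≠ 0 → v ⬝ᵥ (r ⨯₃ r') = 0 →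
      Near I x (S.pt r' (r' ⨯₃ (m ⨯₃ k))))
    {M : Ln} (hM : BLine S M) {x y : Pt} (hx : I x M) (hy : I y M)
    (hxy : x ≠ y) {v k v' k' : Fin 3 → K} (h : Over S x v k) (h' : Over S y v' k') :
    (k ⨯₃ k') ⬝ᵥ (v ⨯₃ v') ≠ 0 ∧
    ∀ r, r ≠ 0 → r ⬝ᵥ (v ⨯₃ v') = 0 → ∃ z, I z M ∧ Over S z r (r ⨯₃ (k ⨯₃ k')) := by
  have hopp := opp_of_bline H S hM hx hy hxy h h'
  obtain ⟨hv, hk, hvk⟩ := h.1
  obtain ⟨hv', hk', hvk'⟩ := h'.1
  have hox := out_of_bline H S hM hx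
  have hoy := out_of_bline H S hM hy
  have hcN : (k ⨯₃ k') ⬝ᵥ (v ⨯₃ v') ≠ 0 := by
    have e : (k ⨯₃ k') ⬝ᵥ (v ⨯₃ v') =
        (v ⬝ᵥ k) * (v' ⬝ᵥ k') - (v ⬝ᵥ k') * (v' ⬝ᵥ k) := by
      rw [cross_apply', cross_apply', dot3, dot3, dot3, dot3, dot3]
      simp
      ring
    rw [e, hvk, zero_mul, zero_sub]
    exact neg_ne_zero.2 (mul_ne_zero hopp.1 hopp.2)
  refine ⟨hcN, ?_⟩
  have hvv : v ⨯₃ v' ≠ 0 := by
    intro h0
    rw [h0, dotProduct_zero] at hcN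
    exact hcN rfl
  have hc0 : k ⨯₃ k' ≠ 0 := by
    intro h1
    rw [h1, zero_dotProduct] at hcN
    exact hcN rfl
  intro r hr hrN
  have hf : IsFlag r (r ⨯₃ (k ⨯₃ k')) := by
    refine ⟨hr, ?_, dot_self_cross r _⟩
    intro h0
    obtain ⟨c, hc0, hc1⟩ := (cross_eq_zero_iff hr hc0).1 h0
    rw [hc1, smul_dotProduct, hrN, smul_zero] at hcN
    exact hcN rfl
  obtain ⟨α, β, hαβ⟩ := exists_comb hvv hrN
  have hrk : r ⬝ᵥ k = β * (v' ⬝ᵥ k) := by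
    rw [hαβ, add_dotProduct, smul_dotProduct, smul_dotProduct, hvk, smul_zero, zero_add,
      smul_eq_mul]
  have hrk' : r ⬝ᵥ k' = α * (v ⬝ᵥ k') := by
    rw [hαβ, add_dotProduct, smul_dotProduct, smul_dotProduct, hvk', smul_zero, add_zero,
      smul_eq_mul]
  -- near flags of a point of `M` over another base flag
  have hcoll : Coll I x y := ⟨M, hx, hy⟩
  by_cases hβ : β = 0
  · -- `r` is parallel to `v`
    rw [hβ, zero_smul, add_zero] at hαβ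
    have hα : α ≠ 0 := by
      rintro rfl
      rw [zero_smul] at hαβ
      exact hr hαβ
    refine ⟨x, hx, over_of_pt_eq S h hf ((S.pt_eq hf h.1).2 ⟨?_, ?_⟩)⟩
    · rw [hαβ]
      exact cross_smul_left α v
    · rw [cross_cross_right, hrk, hβ, hrk', zero_mul, zero_smul, sub_zero]
      exact cross_smul_left _ k
  by_cases hα : α = 0
  · rw [hα, zero_smul, zero_add] at hαβ
    refine ⟨y, hy, over_of_pt_eq S h' hf ((S.pt_eq hf h'.1).2 ⟨?_, ?_⟩)⟩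
    · rw [hαβ]
      exact cross_smul_left β v'
    · rw [cross_cross_right, hrk, hrk', hα, zero_mul, zero_smul, zero_sub, ← neg_smul]
      exact cross_smul_left _ k'
  -- general case
  have n1 : Near I x (S.pt v' k') := ⟨y, hcoll, h'.2⟩
  have n2 : Near I y (S.pt v k) := ⟨x, coll_symm' hcoll, h.2⟩
  have d1 : v ⬝ᵥ (v' ⨯₃ r) = 0 := by
    have : v ⬝ᵥ (v' ⨯₃ r) = r ⬝ᵥ (v ⨯₃ v') := by
      rw [cross_apply', cross_apply', dot3, dot3]
      simp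
      ring
    rw [this, hrN]
  have d2 : v' ⬝ᵥ (v ⨯₃ r) = 0 := by
    have : v' ⬝ᵥ (v ⨯₃ r) = -(r ⬝ᵥ (v ⨯₃ v')) := by
      rw [cross_apply', cross_apply', dot3, dot3]
      simp
      ring
    rw [this, hrN, neg_zero]
  have m1 := hnc hox h h'.1 n1 hopp.2 (by rw [hrk]; exact mul_ne_zero hβ hopp.2) d1
  have m2 := hnc hoy h' h.1 n2 hopp.1 (by rw [hrk']; exact mul_ne_zero hα hopp.1) d2
  have e : r ⨯₃ (k' ⨯₃ k) = (-1 : K) • (r ⨯₃ (k ⨯₃ k')) := by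
    rw [cross_cross_right, cross_cross_right]
    module
  have p := pt_smul' S hf (a := 1) (b := -1) one_ne_zero (neg_ne_zero.2 one_ne_zero)
  rw [one_smul, ← e] at p
  rw [p.2] at m1
  exact pencil H S hM hx hy hxy hf m1 m2


/-- Lemma B from the class form -/
theorem LB_of_near_class
    (hnc : ∀ {x : Pt}, Out S x → ∀ {v k r m r' : Fin 3 → K}, Over S x v k → IsFlag r m →
      Near I x (S.pt r m) → r ⬝ᵥ k ≠ 0 → r' ⬝ᵥ k ≠ 0 → v ⬝ᵥ (r ⨯₃ r') = 0 →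
      Near I x (S.pt r' (r' ⨯₃ (m ⨯₃ k)))) : LB S := by
  intro c N hcN r s t hr hs ht hrN hsN htN hrs M hM n1 n2
  have hc0 : c ≠ 0 := by
    rintro rfl
    rw [zero_dotProduct] at hcN
    exact hcN rfl
  have hflag : ∀ u, u ≠ 0 → u ⬝ᵥ N = 0 → IsFlag u (u ⨯₃ c) := by
    intro u hu huN
    refine ⟨hu, ?_, dot_self_cross u c⟩
    intro h0
    obtain ⟨d, hd0, hd1⟩ := (cross_eq_zero_iff hu hc0).1 h0
    rw [hd1, smul_dotProduct, huN, smul_zero] at hcN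
    exact hcN rfl
  have hfr := hflag r hr hrN
  have hfs := hflag s hs hsN
  have hft := hflag t ht htN
  obtain ⟨-, x, hx, hcx⟩ := n1
  obtain ⟨-, y, hy, hcy⟩ := n2
  have hox : Over S x r (r ⨯₃ c) := ⟨hfr, coll_symm' hcx⟩
  have hoy : Over S y s (s ⨯₃ c) := ⟨hfs, coll_symm' hcy⟩
  have hxy : x ≠ y := by
    rintro rfl
    exact hrs (over_unique H S (out_of_bline H S hM hx) hox hoy).1
  obtain ⟨-, hall⟩ := base_antiflag_of_near_class H S hnc hM hx hy hxy hox hoy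
  -- `(r × c) × (s × c)` is parallel to `c`
  have e1 : (r ⨯₃ c) ⨯₃ (s ⨯₃ c) = (c ⬝ᵥ (r ⨯₃ s)) • c := by
    rw [cross_cross_right, dotProduct_comm (r ⨯₃ c) c, dot_cross_self, zero_smul, zero_sub]
    have : (r ⨯₃ c) ⬝ᵥ s = -(c ⬝ᵥ (r ⨯₃ s)) := by
      rw [cross_apply', cross_apply', dot3, dot3]
      simp
      ring
    rw [this, neg_smul, neg_neg]
  have hne : c ⬝ᵥ (r ⨯₃ s) ≠ 0 := by
    intro h0
    obtain ⟨a, b, hab⟩ := exists_comb hrs h0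
    rw [hab, add_dotProduct, smul_dotProduct, smul_dotProduct, hrN, hsN] at hcN
    simp at hcN
  have htrs : t ⬝ᵥ (r ⨯₃ s) = 0 := by
    have hN0 : N ≠ 0 := by
      rintro rfl
      rw [dotProduct_zero] at hcN
      exact hcN rfl
    by_contra h0
    -- `t, r, s` are orthogonal to `N`, so dependent
    have h1 : N ⬝ᵥ t = 0 := by rw [dotProduct_comm]; exact htN
    have h2 : N ⬝ᵥ r = 0 := by rw [dotProduct_comm]; exact hrN
    have h3 : N ⬝ᵥ s = 0 := by rw [dotProduct_comm]; exact hsN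
    obtain ⟨d, hd0, hd1⟩ : ∃ d : K, d ≠ 0 ∧ N = d • (r ⨯₃ s) := by
      refine (cross_eq_zero_iff hrs hN0).1 ?_
      have e := cross_cross_left N r s
      rw [e, h2, h3, zero_smul, zero_smul, sub_zero]
    rw [hd1, smul_dotProduct, smul_eq_mul, mul_eq_zero, dotProduct_comm] at h1
    exact h0 (h1.resolve_left hd0)
  obtain ⟨z, hz, hoz⟩ := hall t ht htrs
  rw [e1, map_smul] at hoz
  have p := pt_smul' S hft (a := 1) (b := c ⬝ᵥ (r ⨯₃ s)) one_ne_zero hne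
  rw [one_smul] at p
  have hoz' : Over S z t (t ⨯₃ c) := over_of_pt_eq S hoz hft p.2.symm
  exact near3_of_over S hM hz hoz'

end

end Pool.Agent.Lib.MP_6b0fe3_coR
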