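import Pool.Agent.Lib.MP_6b0fe3_coR.LiftGb

/-! MP_6b0fe3_co: if all elations lift, all outside points are strong (any finite field) -/

namespace Pool.Agent.Lib.MP_6b0fe3_coR

open Matrix

/-- all outside points of the A-line of `z` are strong -/
def AStrong {K : Type*} [Field K] {Pt Ln : Type*} {I : Pt → Ln → Prop} (S : Sub K I)
    (z : Pt) : Prop :=
  ∀ (y : Pt) (l : Ln), Out S y → I z l → I y l → ¬ BLine S l → Strong S y

section
variable {K : Type*} [Field K] [Fintype K] {Pt Ln : Type*} {I : Pt → Ln → Prop}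
variable (H : Hex I (Fintype.card K)) (S : Sub K I)
include H

theorem nonB_eq {y : Pt} (hy : Out S y) {l l' : Ln} (h1 : I y l) (h2 : I y l')
    (hl : ¬ BLine S l) (hl' : ¬ BLine S l') : l = l' := by
  unfold BLine at hl hl'
  push Not at hl hl'
  obtain ⟨v, k, hf, hI⟩ := hl
  obtain ⟨v', k', hf', hI'⟩ := hl'
  have ho : Over S y v k := ⟨hf, l, h1, hI⟩
  have ho' : Over S y v' k' := ⟨hf', l', h2, hI'⟩
  have he := (S.pt_eq hf hf').2 (over_unique H S hy ho ho')
  rw [← he] at hI'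
  exact H.uniq h1 hI h2 hI' (hy v k hf)

omit H [Fintype K] in
theorem aline_not_bline {v k : Fin 3 → K} {t : Ln} (ht : ALine S v k t) : ¬ BLine S t :=
  fun h => h v k ht.1 ht.2.1

theorem AStrong.strong {x : Pt} (hx : Out S x) (h : AStrong S x) : Strong S x := by
  obtain ⟨v, k, hv⟩ := over_exists H S hx
  obtain ⟨t, ht, hxt⟩ := aline_exists H S hx hv
  exact h x t hx hxt hxt (aline_not_bline S ht)

variable (hel : ∀ u m : Fin 3 → K, u ⬝ᵥ m = 0 → ∃ g : Equiv.Perm Pt × Equiv.Perm Ln, IsAut I g ∧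
      ∀ v k, IsFlag v k → g.1 (S.pt v k) = S.pt (v + (m ⬝ᵥ v) • u) (k - (u ⬝ᵥ k) • m))
include hel

theorem move_along {x y : Pt} (hS : Strong S x) {M : Ln} (hM : BLine S M) (hx : I x M)
    (hy : I y M) (hxy : x ≠ y) : ∃ g A B, Ind S g A B ∧ g.1 y = x := by
  obtain ⟨v, k, hv⟩ := over_exists H S (out_of_bline H S hM hy)
  obtain ⟨h, A, B, hi, h1, h2, h3⟩ := exists_mover H S hel hv hM hy hx hxy
  have h4 : I (h.1 x) M := by
    have := (hi.aut x M).2 hx
    rwa [h2] at this
  obtain ⟨k', A', B', hi', h5, h6⟩ := hS.2 M y (h.1 x) hM hx hy h4 (fun e => hxy e.symm) h3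
  refine ⟨h⁻¹ * k', _, _, hi.inv.mul hi', ?_⟩
  change h.1.symm (k'.1 y) = x
  rw [h6]
  exact h.1.symm_apply_apply x

theorem AStrong.prop {x y : Pt} (hx : Out S x) (hy : Out S y) (hc : Coll I x y)
    (hA : AStrong S x) : AStrong S y := by
  by_cases hxy : x = y
  · rw [← hxy]; exact hA
  obtain ⟨l, hxl, hyl⟩ := hc
  by_cases hl : BLine S l
  · obtain ⟨g, A, B, hi, hg⟩ := move_along H S hel (AStrong.strong H S hx hA) hl hxl hyl hxy
    intro y' l' hy' h1 h2 h3
    apply Strong.transport hi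
    refine hA (g.1 y') (g.2 l') (hi.out hy') ?_ ((hi.aut _ _).2 h2) ?_
    · rw [← hg]
      exact (hi.aut _ _).2 h1
    · intro hb
      apply h3
      have := hi.inv.bline hb
      have e : g⁻¹.2 (g.2 l') = l' := g.2.symm_apply_apply l'
      rwa [e] at this
  · intro y' l' hy' h1 h2 h3
    have e := nonB_eq H S hy hyl h1 hl h3
    rw [← e] at h2
    exact hA y' l hy' hxl h2 hl

/-- if all elations lift, all outside points are strong -/
theorem all_strong {y : Pt} (hy : Out S y) : Strong S y := by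
  obtain ⟨v, k, hv⟩ := over_exists H S hy
  -- an opposite flag not near `y`
  obtain ⟨i, hi⟩ : ∃ i, k i ≠ 0 := by
    by_contra h
    push Not at h
    exact hv.1.2.1 (funext h)
  set r : Fin 3 → K := Pi.single i 1 with hr
  have hrk : r ⬝ᵥ k ≠ 0 := by simp [hr, hi]
  have hr0 : r ≠ 0 := by
    intro h
    rw [h, zero_dotProduct] at hrk
    exact hrk rfl
  obtain ⟨m0, hm0, hn0⟩ := theta_exists H S hy hv hr0
  have hvm0 : v ⬝ᵥ m0 ≠ 0 := near_opp H S hy hv hm0 hn0 hrk
  set m : Fin 3 → K := m0 + r ⨯₃ v with hm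
  have hvm : v ⬝ᵥ m ≠ 0 := by
    rw [hm, dotProduct_add, dot_cross_self, add_zero]
    exact hvm0
  have hm' : m ≠ 0 := by
    intro h
    rw [h, dotProduct_zero] at hvm
    exact hvm rfl
  have hf : IsFlag r m := by
    refine ⟨hr0, hm', ?_⟩
    rw [hm, dotProduct_add, dot_self_cross, add_zero]
    exact hm0.2.2
  have hnot : ¬ Near I y (S.pt r m) := by
    intro hn
    have h1 := theta_unique H S hy hv hrk hm0 hf hn0 hn
    rw [hm, map_add, cross_self, zero_add, cross_cross_right, dotProduct_comm m0 r, hm0.2.2,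
      zero_smul, sub_zero] at h1
    rcases smul_eq_zero.1 h1 with h2 | h2
    · rw [dotProduct_comm] at h2
      exact hvm0 h2
    · exact hr0 h2
  obtain ⟨t, ht, hall⟩ := exists_strong_aline H S hel hf
  obtain ⟨x, hxt, hyx⟩ := H.near y t
  have hxne : x ≠ S.pt r m := by
    rintro rfl
    exact hnot hyx
  obtain ⟨hox, hovx⟩ := out_of_aline H S ht hxt hxne
  have hAx : AStrong S x := by
    intro y' l hy' h1 h2 h3
    have e := nonB_eq H S hox h1 hxt h3 (aline_not_bline S ht)
    rw [e] at h2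
    exact hall y' h2 (hy' r m hf)
  obtain ⟨z, hyz, hzx⟩ := hyx
  have hz : Out S z := by
    intro a b hab he
    rw [he] at hyz hzx
    have o1 : Over S x a b := ⟨hab, coll_symm' hzx⟩
    have o2 : Over S y a b := ⟨hab, hyz⟩
    have e1 := (over_unique H S hox hovx o1).1
    have e2 := (over_unique H S hy hv o2).1
    obtain ⟨c, hc0, hc1⟩ := (cross_eq_zero_iff hr0 hab.1).1 e1
    obtain ⟨c', hc0', hc1'⟩ := (cross_eq_zero_iff hv.1.1 hab.1).1 e2
    have : (c • r) ⬝ᵥ k = 0 := by
      rw [← hc1, hc1', smul_dotProduct, hv.1.2.2, smul_zero]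
    rw [smul_dotProduct] at this
    exact (mul_ne_zero hc0 hrk) this
  have hAz := AStrong.prop H S hel hox hz (coll_symm' hzx) hAx
  have hAy := AStrong.prop H S hel hz hy (coll_symm' hyz) hAz
  exact AStrong.strong H S hy hAy

end

end Pool.Agent.Lib.MP_6b0fe3_coR
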