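import Pool.Agent.Lib.MP_6b0fe3_coR.ConstG
import Pool.Agent.Lib.MP_6b0fe3_coR.ElatQ

/-! MP_6b0fe3_co, R3: sigma is constant if the central elations lift -/

namespace Pool.Agent.Lib.MP_6b0fe3_coR

open Matrix

section alg
variable {K : Type*} [Field K]

/-- the central elation with centre `v` and axis `w × v` acts on lines through two points -/
theorem sigmaE_cross (w v r u : Fin 3 → K) (s : K) :
    (r ⨯₃ u) - (s * (v ⬝ᵥ (r ⨯₃ u))) • (w ⨯₃ v) =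
      (r + (s * ((w ⨯₃ v) ⬝ᵥ r)) • v) ⨯₃ (u + (s * ((w ⨯₃ v) ⬝ᵥ u)) • v) := by
  ext i
  simp only [cross_apply', dot3]
  fin_cases i <;> simp <;> ring

theorem sigmaE_dot (w v r m : Fin 3 → K) (s : K) :
    (m - (s * (v ⬝ᵥ m)) • (w ⨯₃ v)) ⬝ᵥ (r + (s * ((w ⨯₃ v) ⬝ᵥ r)) • v) = m ⬝ᵥ r := by
  simp only [cross_apply', dot3]
  simp
  ring

theorem sigmaE_wv (w v v' : Fin 3 → K) (s : K) :
    w ⨯₃ (v' + (s * ((w ⨯₃ v) ⬝ᵥ v')) • v) = (w ⨯₃ v') - (s * (v ⬝ᵥ (w ⨯₃ v'))) • (w ⨯₃ v) := by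
  ext i
  simp only [cross_apply', dot3]
  fin_cases i <;> simp <;> ring

end alg

section main
variable {K : Type*} [Field K] [Fintype K] {Pt Ln : Type*} {I : Pt → Ln → Prop}
variable (H : Hex I (Fintype.card K)) (S : Sub K I)
include H

/-- one step: `σ(v' + a v) = σ(v')` -/
theorem sigmaE_step
    (hZ : ∀ v0 k0 : Fin 3 → K, IsFlag v0 k0 → ∀ x, Out S x → Over S x v0 k0 → ∀ s : K,
      ∃ g : Equiv.Perm Pt × Equiv.Perm Ln, IsAut I g ∧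
      (∀ v k, IsFlag v k →
        g.1 (S.pt v k) = S.pt (v + (s * (k0 ⬝ᵥ v)) • v0) (k - (s * (v0 ⬝ᵥ k)) • k0)) ∧
      g.1 x = x)
    {M : Ln} (hM : BLine S M) {w ψ : Fin 3 → K} (hψ : ψ ⬝ᵥ w = 1)
    (hb : ∀ v, v ≠ 0 → ψ ⬝ᵥ v = 0 → ∃ x, I x M ∧ Over S x v (w ⨯₃ v))
    {v v' v'' : Fin 3 → K} (hv : ψ ⬝ᵥ v = 0) (hv' : ψ ⬝ᵥ v' = 0) (hvv : v ⨯₃ v' ≠ 0) {a : K}
    (hv'' : v'' = v' + a • v) {σ' σ'' : K}
    (hs' : ∀ x, I x M → Over S x v' (w ⨯₃ v') →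
      ∀ r, (ψ + w ⨯₃ v') ⬝ᵥ r = 0 → (w ⨯₃ v') ⬝ᵥ r ≠ 0 → Near I x (S.pt r (r ⨯₃ (w + σ' • v'))))
    (hs'' : ∀ x, I x M → Over S x v'' (w ⨯₃ v'') →
      ∀ r, (ψ + w ⨯₃ v'') ⬝ᵥ r = 0 → (w ⨯₃ v'') ⬝ᵥ r ≠ 0 →
      Near I x (S.pt r (r ⨯₃ (w + σ'' • v'')))) : σ'' = σ' := by
  have hv0 : v ≠ 0 := by
    rintro rfl
    apply hvv
    simp
  have hv0' : v' ≠ 0 := by
    rintro rfl
    apply hvv
    simp
  have hvv'' : v ⨯₃ v'' ≠ 0 := by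
    rw [hv'', map_add, map_smul, cross_self, smul_zero, add_zero]
    exact hvv
  have hv0'' : v'' ≠ 0 := by
    intro h0
    rw [h0] at hvv''
    apply hvv''
    simp
  have hψv'' : ψ ⬝ᵥ v'' = 0 := by
    rw [hv'', dotProduct_add, dotProduct_smul, hv, hv', smul_zero, add_zero]
  obtain ⟨x, hx, hxo⟩ := hb v hv0 hv
  obtain ⟨x', hx', hxo'⟩ := hb v' hv0' hv'
  obtain ⟨y, hy, hyo⟩ := hb v'' hv0'' hψv''
  have hox := out_of_bline H S hM hx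
  have hoy := out_of_bline H S hM hy
  -- ω
  set ω : K := (w ⨯₃ v) ⬝ᵥ v' with hω
  have hω0 : ω ≠ 0 := by
    intro h0
    have h1 : w ⬝ᵥ (v ⨯₃ v') = 0 := by
      rw [← h0, hω, cross_apply', cross_apply', dot3, dot3]
      simp
      ring
    obtain ⟨c, d, hcd⟩ := exists_comb hvv (u := w) h1
    rw [hcd, dotProduct_add, dotProduct_smul, dotProduct_smul, hv, hv'] at hψ
    simp at hψ
  have hsω : a / ω * ω = a := div_mul_cancel₀ _ hω0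
  obtain ⟨g, hg, hgf, hgx⟩ := hZ v (w ⨯₃ v) hxo.1 x hox hxo (a / ω)
  have e1 : v' + (a / ω * ((w ⨯₃ v) ⬝ᵥ v')) • v = v'' := by
    rw [← hω, hsω, hv'']
  have e2 : (w ⨯₃ v') - (a / ω * (v ⬝ᵥ (w ⨯₃ v'))) • (w ⨯₃ v) = w ⨯₃ v'' := by
    rw [← sigmaE_wv, e1]
  have hgv' : g.1 (S.pt v' (w ⨯₃ v')) = S.pt v'' (w ⨯₃ v'') := by
    rw [hgf _ _ hxo'.1, e1, e2]
  -- `g x'` over the flag of `v''`
  have hgc : ∀ {b c : Pt}, Coll I b c → Coll I (g.1 b) (g.1 c) := by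
    rintro b c ⟨l, h1, h2⟩
    exact ⟨g.2 l, (hg _ _).2 h1, (hg _ _).2 h2⟩
  have hgn : ∀ {b c : Pt}, Near I b c → Near I (g.1 b) (g.1 c) := by
    rintro b c ⟨z, h1, h2⟩
    exact ⟨g.1 z, hgc h1, hgc h2⟩
  have hgx' : Coll I (g.1 x') (S.pt v'' (w ⨯₃ v'')) := by
    have := hgc hxo'.2
    rwa [hgv'] at this
  have hxgx' : Coll I x (g.1 x') := by
    have := hgc ⟨M, hx, hx'⟩
    rwa [hgx] at this
  have hxf : ¬ Coll I x (S.pt v'' (w ⨯₃ v'')) := fun e =>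
    hvv'' (over_unique H S hox hxo ⟨hyo.1, e⟩).1
  have hxy : x ≠ y := by
    rintro rfl
    exact hxf hyo.2
  have hxg : x ≠ g.1 x' := by
    intro e
    rw [← e] at hgx'
    exact hxf hgx'
  have hgxM : I (g.1 x') M := by
    rcases H.quadr (a := x) (b := y) (c := S.pt v'' (w ⨯₃ v'')) (d := g.1 x') ⟨M, hx, hy⟩
      hyo.2 (Coll.symm hgx') (Coll.symm hxgx') with e | e
    · exact absurd e hxf
    · exact lineF_on_line H hx hy hxy hxgx' (Coll.symm e)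
  have hgxy : g.1 x' = y := by
    by_contra hne
    have := (opp_of_bline H S hM hgxM hy hne ⟨hyo.1, hgx'⟩ hyo).1
    rw [dot_cross_self] at this
    exact this rfl
  -- the point `r1`
  have hφ0 : w ⨯₃ v'' ≠ 0 := hyo.1.2.1
  obtain ⟨e, he⟩ := exists_dot_one hφ0
  have hφw : (w ⨯₃ v'') ⬝ᵥ w = 0 := by rw [dotProduct_comm]; exact dot_self_cross w v''
  have hφv : (w ⨯₃ v'') ⬝ᵥ v'' = 0 := by rw [dotProduct_comm]; exact dot_cross_self w v''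
  obtain ⟨r1, hr1, hr1'⟩ : ∃ r1 : Fin 3 → K, (ψ + w ⨯₃ v'') ⬝ᵥ r1 = 0 ∧ (w ⨯₃ v'') ⬝ᵥ r1 = 1 := by
    refine ⟨e - ((ψ + w ⨯₃ v'') ⬝ᵥ e) • w, ?_, ?_⟩
    · rw [dotProduct_sub, dotProduct_smul, add_dotProduct _ _ w, hψ, hφw, add_zero, smul_eq_mul,
        mul_one, sub_self]
    · rw [dotProduct_sub, dotProduct_smul, hφw, smul_zero, sub_zero, he]
  -- its preimage `r`
  set k0 := w ⨯₃ v with hk0
  have hk0v : k0 ⬝ᵥ v = 0 := by rw [hk0, dotProduct_comm]; exact dot_cross_self w v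
  have hk0w : k0 ⬝ᵥ w = 0 := by rw [hk0, dotProduct_comm]; exact dot_self_cross w v
  set r := r1 - (a / ω * (k0 ⬝ᵥ r1)) • v with hr
  have hk0r : k0 ⬝ᵥ r = k0 ⬝ᵥ r1 := by
    rw [hr, dotProduct_sub, dotProduct_smul, hk0v, smul_zero, sub_zero]
  have hrr1 : r + (a / ω * (k0 ⬝ᵥ r)) • v = r1 := by
    rw [hk0r, hr, sub_add_cancel]
  have hψk : ψ - (a / ω * (v ⬝ᵥ ψ)) • k0 = ψ := by
    rw [dotProduct_comm v ψ, hv, mul_zero, zero_smul, sub_zero]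
  have d1 : ψ ⬝ᵥ r = ψ ⬝ᵥ r1 := by
    have := sigmaE_dot w v r ψ (a / ω)
    rw [← hk0, hψk, hrr1] at this
    exact this.symm
  have d2 : (w ⨯₃ v') ⬝ᵥ r = (w ⨯₃ v'') ⬝ᵥ r1 := by
    have := sigmaE_dot w v r (w ⨯₃ v') (a / ω)
    rw [← hk0, e2, hrr1] at this
    exact this.symm
  have n1 := hs' x' hx' hxo' r (by rw [add_dotProduct, d1, d2, ← add_dotProduct, hr1])
    (by rw [d2, hr1']; exact one_ne_zero)
  have hf1 : IsFlag r (r ⨯₃ (w + σ' • v')) := constK_flag hψ hv' σ' (by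
    rw [d2, hr1']; exact one_ne_zero)
  have n2 := hgn n1
  have e3 : (w + σ' • v') + (a / ω * (k0 ⬝ᵥ (w + σ' • v'))) • v = w + σ' • v'' := by
    have : k0 ⬝ᵥ (w + σ' • v') = σ' * ω := by
      rw [dotProduct_add, dotProduct_smul, hk0w, zero_add, smul_eq_mul]
    rw [this, hv'']
    have h1 : a / ω * (σ' * ω) = σ' * a := by rw [← hsω]; field_simp
    rw [h1, smul_add, smul_smul, add_assoc]
  rw [hgf _ _ hf1, hgxy, hk0, sigmaE_cross, ← hk0, hrr1, e3] at n2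
  have hr10 : (w ⨯₃ v'') ⬝ᵥ r1 ≠ 0 := by rw [hr1']; exact one_ne_zero
  have n3 := hs'' y hy hyo r1 hr1 hr10
  have hf2 : IsFlag r1 (r1 ⨯₃ (w + σ' • v'')) := constK_flag hψ hψv'' σ' hr10
  have hf3 : IsFlag r1 (r1 ⨯₃ (w + σ'' • v'')) := constK_flag hψ hψv'' σ'' hr10
  have hpar := theta_unique H S hoy hyo (by rw [dotProduct_comm]; exact hr10) hf2 hf3 n2 n3
  have e4 : (r1 ⨯₃ (w + σ' • v'')) ⨯₃ (r1 ⨯₃ (w + σ'' • v'')) = (σ'' - σ') • r1 := by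
    rw [cross_cross_right, dotProduct_comm (r1 ⨯₃ (w + σ' • v'')) r1, dot_self_cross, zero_smul,
      sub_zero]
    have : (r1 ⨯₃ (w + σ' • v'')) ⬝ᵥ (w + σ'' • v'') =
        (σ'' - σ') * ((w ⨯₃ v'') ⬝ᵥ r1) := by
      simp only [cross_apply', dot3]
      simp
      ring
    rw [this, hr1', mul_one]
  rw [e4] at hpar
  rcases smul_eq_zero.1 hpar with h0 | h0
  · exact sub_eq_zero.1 h0
  · exact absurd h0 hf2.1

theorem sigma_constE (hLB : LB S)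
    (hZ : ∀ v0 k0 : Fin 3 → K, IsFlag v0 k0 → ∀ x, Out S x → Over S x v0 k0 → ∀ s : K,
      ∃ g : Equiv.Perm Pt × Equiv.Perm Ln, IsAut I g ∧
      (∀ v k, IsFlag v k →
        g.1 (S.pt v k) = S.pt (v + (s * (k0 ⬝ᵥ v)) • v0) (k - (s * (v0 ⬝ᵥ k)) • k0)) ∧
      g.1 x = x)
    {M : Ln} (hM : BLine S M) {w ψ : Fin 3 → K} (hψ : ψ ⬝ᵥ w = 1)
    (hb : ∀ v, v ≠ 0 → ψ ⬝ᵥ v = 0 → ∃ x, I x M ∧ Over S x v (w ⨯₃ v)) :
    ∃ σ : K, σ ≠ 0 ∧ ∀ v x, v ≠ 0 → ψ ⬝ᵥ v = 0 → I x M → Over S x v (w ⨯₃ v) →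
      ∀ r, (ψ + w ⨯₃ v) ⬝ᵥ r = 0 → (w ⨯₃ v) ⬝ᵥ r ≠ 0 →
      Near I x (S.pt r (r ⨯₃ (w + σ • v))) := by
  have key : ∀ v : Fin 3 → K, v ≠ 0 → ψ ⬝ᵥ v = 0 → ∃ σ : K, σ ≠ 0 ∧ ∀ x, I x M →
      Over S x v (w ⨯₃ v) → ∀ r, (ψ + w ⨯₃ v) ⬝ᵥ r = 0 → (w ⨯₃ v) ⬝ᵥ r ≠ 0 →
      Near I x (S.pt r (r ⨯₃ (w + σ • v))) := by
    intro v hv0 hv
    obtain ⟨x, hx, hxo⟩ := hb v hv0 hv
    obtain ⟨σ, hσ, hall⟩ := sigma_exists H S hLB hM hψ hb hv hx hxo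
    refine ⟨σ, hσ, ?_⟩
    intro y hy hyo
    have hxy : x = y := by
      by_contra hne
      have := (opp_of_bline H S hM hx hy hne hxo hyo).1
      rw [dot_cross_self] at this
      exact this rfl
    rw [← hxy]
    exact hall
  choose! sg hs0 hs using key
  -- independent vectors
  have hind : ∀ v v' : Fin 3 → K, ψ ⬝ᵥ v = 0 → ψ ⬝ᵥ v' = 0 → v ⨯₃ v' ≠ 0 → sg v = sg v' := by
    intro v v' hv hv' hvv
    have hv0 : v ≠ 0 := by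
      rintro rfl
      apply hvv
      simp
    have hv0' : v' ≠ 0 := by
      rintro rfl
      apply hvv
      simp
    have hvv' : v' ⨯₃ v ≠ 0 := fun h0 => hvv (cross_zero_symm h0)
    have hsum : ψ ⬝ᵥ (v' + v) = 0 := by rw [dotProduct_add, hv, hv', add_zero]
    have hsum0 : v' + v ≠ 0 := by
      intro h0
      apply hvv
      have : v' = -v := by
        rw [← add_eq_zero_iff_eq_neg]
        exact h0
      rw [this, map_neg, cross_self, neg_zero]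
    have h1 := sigmaE_step H S hZ hM hψ hb hv hv' hvv (a := 1) (v'' := v' + v) (by rw [one_smul])
      (hs v' hv0' hv') (hs (v' + v) hsum0 hsum)
    have h2 := sigmaE_step H S hZ hM hψ hb hv' hv hvv' (a := 1) (v'' := v' + v)
      (by rw [one_smul, add_comm]) (hs v hv0 hv) (hs (v' + v) hsum0 hsum)
    rw [← h1, ← h2]
  obtain ⟨e1, e2, he1, he2, hw12⟩ := constK_basis hψ
  have he12 : e1 ⨯₃ e2 ≠ 0 := by
    intro h0
    rw [h0, dotProduct_zero] at hw12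
    exact (neg_ne_zero.2 one_ne_zero) hw12.symm
  have he10 : e1 ≠ 0 := by
    rintro rfl
    apply he12
    simp
  have hall : ∀ v : Fin 3 → K, v ≠ 0 → ψ ⬝ᵥ v = 0 → sg v = sg e1 := by
    intro v hv0 hv
    by_cases h : v ⨯₃ e1 = 0
    · have h2 : v ⨯₃ e2 ≠ 0 := by
        obtain ⟨c, hc0, hc1⟩ := (cross_eq_zero_iff he10 hv0).1 (cross_zero_symm h)
        rw [hc1, map_smul, LinearMap.smul_apply]
        exact smul_ne_zero hc0 he12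
      rw [hind v e2 hv he2 h2, hind e1 e2 he1 he2 he12]
    · exact hind v e1 hv he1 h
  refine ⟨sg e1, hs0 e1 he10 he1, ?_⟩
  intro v x hv0 hv hx hxo r hr1 hr2
  rw [← hall v hv0 hv]
  exact hs v hv0 hv x hx hxo r hr1 hr2

/-- standard coordinates from the central lifts, general finite field -/
theorem std_existsE (hLB : LB S)
    (hZ : ∀ v0 k0 : Fin 3 → K, IsFlag v0 k0 → ∀ x, Out S x → Over S x v0 k0 → ∀ s : K,
      ∃ g : Equiv.Perm Pt × Equiv.Perm Ln, IsAut I g ∧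
      (∀ v k, IsFlag v k →
        g.1 (S.pt v k) = S.pt (v + (s * (k0 ⬝ᵥ v)) • v0) (k - (s * (v0 ⬝ᵥ k)) • k0)) ∧
      g.1 x = x)
    (h3 : ∀ c : K, c ^ 3 = 1 → c = 1) {M : Ln} (hM : BLine S M) : ∃ w ψ, Std S M w ψ :=
  std_existsG H S hLB h3 hM fun _ _ h hb => sigma_constE H S hLB hZ hM h hb

end main

end Pool.Agent.Lib.MP_6b0fe3_coR
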