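import Pool.Agent.Lib.MP_6b0fe3_coR.FinalO
import Pool.Agent.Lib.MP_6b0fe3_coR.ElatQ
import Pool.Agent.Lib.MP_6b0fe3_coR.LiftG
import Pool.Agent.Lib.MP_6b0fe3_coR.SigmaE

/-! MP_6b0fe3_co, R3: assembly, all finite fields with `q` not congruent to `1` modulo `3` -/

namespace Pool.Agent.Lib.MP_6b0fe3_coR

open Matrix

/-- `f'` is the image of the flag `f` under the elation `v ↦ v + (m ⬝ v) u` of `PG(2,K)`
(the one with centre `u` and axis `m`; on dual coordinates it is `k ↦ k - (u ⬝ k) m`). -/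
def ElationRel {K : Type*} [Field K] [DecidableEq K] (u m : Fin 3 → K) (f f' : Flag K) : Prop :=
  ∃ (v k : Fin 3 → K) (hv : v ≠ 0) (hk : k ≠ 0) (hv' : v + (m ⬝ᵥ v) • u ≠ 0)
    (hk' : k - (u ⬝ᵥ k) • m ≠ 0),
    f.1.1 = Projectivization.mk K v hv ∧ f.1.2 = Projectivization.mk K k hk ∧
    f'.1.1 = Projectivization.mk K (v + (m ⬝ᵥ v) • u) hv' ∧
    f'.1.2 = Projectivization.mk K (k - (u ⬝ᵥ k) • m) hk'

theorem elation_flag {K : Type*} [Field K] {u m v k : Fin 3 → K} (hum : u ⬝ᵥ m = 0)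
    (hf : IsFlag v k) : IsFlag (v + (m ⬝ᵥ v) • u) (k - (u ⬝ᵥ k) • m) := by
  obtain ⟨hv, hk, hvk⟩ := hf
  refine ⟨?_, ?_, ?_⟩
  · intro h0
    have h1 : v = -((m ⬝ᵥ v) • u) := eq_neg_of_add_eq_zero_left h0
    have h2 : m ⬝ᵥ v = 0 := by
      conv_lhs => rw [h1]
      rw [dotProduct_neg, dotProduct_smul, dotProduct_comm m u, hum, smul_zero, neg_zero]
    rw [h2, zero_smul, neg_zero] at h1
    exact hv h1
  · intro h0
    have h1 : k = (u ⬝ᵥ k) • m := sub_eq_zero.1 h0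
    have h2 : u ⬝ᵥ k = 0 := by
      conv_lhs => rw [h1]
      rw [dotProduct_smul, hum, smul_zero]
    rw [h2, zero_smul] at h1
    exact hk h1
  · rw [add_dotProduct, dotProduct_sub, dotProduct_sub, smul_dotProduct, smul_dotProduct,
      dotProduct_smul, dotProduct_smul, hvk, hum, dotProduct_comm m v]
    simp only [smul_eq_mul]
    ring

theorem cube_one' {K : Type*} [Field K] [Fintype K] (h3 : Fintype.card K % 3 ≠ 1) (c : K)
    (hc : c ^ 3 = 1) : c = 1 := by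
  have hc0 : c ≠ 0 := by
    rintro rfl
    rw [zero_pow (by norm_num)] at hc
    exact zero_ne_one hc
  have h1 : orderOf c ∣ 3 := orderOf_dvd_of_pow_eq_one hc
  have h2 : orderOf c ∣ Fintype.card K - 1 :=
    orderOf_dvd_of_pow_eq_one (FiniteField.pow_card_sub_one_eq_one c hc0)
  rcases (Nat.dvd_prime Nat.prime_three).1 h1 with h | h
  · exact orderOf_eq_one_iff.1 h
  · rw [h] at h2
    have hp : 1 < Fintype.card K := Fintype.one_lt_card
    omega

/-- Second main theorem. -/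
theorem main3 {K : Type*} [Field K] [Fintype K] [DecidableEq K] (h3 : Fintype.card K % 3 ≠ 1)
    {Pt Ln : Type*} {I : Pt → Ln → Prop}
    (hI : IsGenHexagon (Fintype.card K) (Fintype.card K) I) (a : Flag K → Pt)
    (b : Projectivization K (Fin 3 → K) ⊕ Projectivization K (Fin 3 → K) → Ln)
    (ha : Function.Injective a) (hb : Function.Injective b)
    (hab : ∀ f e, I (a f) (b e) ↔ flagInc f e)
    (hel : ∀ u m : Fin 3 → K, u ⬝ᵥ m = 0 → ∃ g : Equiv.Perm Pt × Equiv.Perm Ln,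
      IsAut I g ∧ ∀ f f', ElationRel u m f f' → g.1 (a f) = a f') :
    ∃ (e₁ : Pt ≃ HLine K) (e₂ : Ln ≃ HPoint K), ∀ x l, I x l ↔ (e₂ l).1 ≤ (e₁ x).1 := by
  have H := hex_of_isGenHexagon hI
  obtain ⟨S, hlp, hll, hpt⟩ := exists_sub a b ha hb hab
  have hS : ∀ u m : Fin 3 → K, u ⬝ᵥ m = 0 → ∃ g : Equiv.Perm Pt × Equiv.Perm Ln,
      IsAut I g ∧
      ∀ v k, IsFlag v k → g.1 (S.pt v k) = S.pt (v + (m ⬝ᵥ v) • u) (k - (u ⬝ᵥ k) • m) := by
    intro u m hum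
    obtain ⟨g, hg, hgf⟩ := hel u m hum
    refine ⟨g, hg, fun v k hf => ?_⟩
    have hf' := elation_flag hum hf
    obtain ⟨f, h1, h2, h3⟩ := hpt v k hf
    obtain ⟨f', h1', h2', h3'⟩ := hpt _ _ hf'
    rw [h1, h1']
    exact hgf f f' ⟨v, k, hf.1, hf.2.1, hf'.1, hf'.2.1, h2, h3, h2', h3'⟩
  have hZ : ∀ v0 k0 : Fin 3 → K, IsFlag v0 k0 → ∀ x, Out S x → Over S x v0 k0 → ∀ s : K,
      ∃ g : Equiv.Perm Pt × Equiv.Perm Ln, IsAut I g ∧
      (∀ v k, IsFlag v k →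
        g.1 (S.pt v k) = S.pt (v + (s * (k0 ⬝ᵥ v)) • v0) (k - (s * (v0 ⬝ᵥ k)) • k0)) ∧
      g.1 x = x := fun v0 k0 _ x hx hov s => (all_strong H S hS (y := x) hx).1 v0 k0 hov s
  have hLB : LB S := by
    refine LB_of_near_class H S ?_
    intro x hx v r k m r' h hf hn hr hr' hdet
    exact near_class_of_lifts H S hZ hx h hf hn hr hr' hdet
  exact iso_exists H S (cube_one' h3) hLB
    (fun M hM => std_existsE H S hLB hZ (cube_one' h3) hM)

end Pool.Agent.Lib.MP_6b0fe3_coR
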