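import Pool.Agent.Lib.MP_6b0fe3_coR.ConstG
import Pool.Agent.Lib.MP_6b0fe3_coR.ArcD
import Pool.Agent.Lib.MP_6b0fe3_coR.EmbB
import Pool.Agent.Lib.MP_6b0fe3_coR.FinalR3

/-! MP_6b0fe3_co: sigma is constant over every field of odd order; regular pairs, odd order -/

namespace Pool.Agent.Lib.MP_6b0fe3_coR

open Matrix

section odd
variable {K : Type*} [Field K] [Fintype K] [DecidableEq K] {Pt Ln : Type*} {I : Pt → Ln → Prop}
variable (H : Hex I (Fintype.card K)) (S : Sub K I)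
include H

theorem sigma_constO (hodd : Odd (Fintype.card K)) (hLB : LB S) {M : Ln} (hM : BLine S M) {w ψ : Fin 3 → K}
    (hψ : ψ ⬝ᵥ w = 1)
    (hb : ∀ v, v ≠ 0 → ψ ⬝ᵥ v = 0 → ∃ x, I x M ∧ Over S x v (w ⨯₃ v)) :
    ∃ σ : K, σ ≠ 0 ∧ ∀ v x, v ≠ 0 → ψ ⬝ᵥ v = 0 → I x M → Over S x v (w ⨯₃ v) →
      ∀ r, (ψ + w ⨯₃ v) ⬝ᵥ r = 0 → (w ⨯₃ v) ⬝ᵥ r ≠ 0 →
      Near I x (S.pt r (r ⨯₃ (w + σ • v))) := by
  have key : ∀ v : Fin 3 → K, v ≠ 0 → ψ ⬝ᵥ v = 0 → ∃ σ : K, σ ≠ 0 ∧ ∀ x, I x M →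
      Over S x v (w ⨯₃ v) → ∀ r, (ψ + w ⨯₃ v) ⬝ᵥ r = 0 → (w ⨯₃ v) ⬝ᵥ r ≠ 0 →
      Near I x (S.pt r (r ⨯₃ (w + σ • v))) := by
    intro v hv0 hv
    obtain ⟨x, hx, hxo⟩ := hb v hv0 hv
    obtain ⟨σ, hσ, hall⟩ := sigma_exists H S hLB hM hψ hb hv hx hxo
    refine ⟨σ, hσ, ?_⟩
    intro y hy hyo
    have hxy : x = y := by
      by_contra hne
      have := (opp_of_bline H S hM hx hy hne hxo hyo).1
      rw [dot_cross_self] at this
      exact this rfl
    rw [← hxy]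
    exact hall
  choose! sg hs0 hs using key
  obtain ⟨e1, e2, he1, he2, hw12⟩ := constK_basis hψ
  have he12 : e1 ⨯₃ e2 ≠ 0 := by
    intro h0
    rw [h0, dotProduct_zero] at hw12
    exact (neg_ne_zero.2 one_ne_zero) hw12.symm
  have hψ0 : ψ ≠ 0 := by
    rintro rfl
    rw [zero_dotProduct] at hψ
    exact zero_ne_one hψ
  let ρ : K × K → K := fun k => (sg (k.1 • e1 + k.2 • e2))⁻¹
  have hker : ∀ a b : K, ψ ⬝ᵥ (a • e1 + b • e2) = 0 := by
    intro a b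
    rw [dotProduct_add, dotProduct_smul, dotProduct_smul, he1, he2]
    simp
  have hcr : ∀ k k' : K × K,
      (k.1 • e1 + k.2 • e2) ⨯₃ (k'.1 • e1 + k'.2 • e2) = (HexR.w k k') • (e1 ⨯₃ e2) := by
    intro k k'
    ext i
    simp only [cross_apply', HexR.w]
    fin_cases i <;> simp <;> ring
  have hA : HexR.HypA ρ := by
    intro k k' hkk
    have hne : (k.1 • e1 + k.2 • e2) ⨯₃ (k'.1 • e1 + k'.2 • e2) ≠ 0 := by
      rw [hcr]
      exact smul_ne_zero hkk he12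
    have hv0 : k.1 • e1 + k.2 • e2 ≠ 0 := by
      intro h0
      rw [h0] at hne
      apply hne
      simp
    have hv0' : k'.1 • e1 + k'.2 • e2 ≠ 0 := by
      intro h0
      rw [h0] at hne
      apply hne
      simp
    obtain ⟨x, hx, hxo⟩ := hb _ hv0 (hker k.1 k.2)
    obtain ⟨x', hx', hxo'⟩ := hb _ hv0' (hker k'.1 k'.2)
    have h1 := sigma_pencil H S hM hψ hb (hker k.1 k.2) hx hxo (hker k'.1 k'.2) hx' hxo' hne
      (hs0 _ hv0 (hker k.1 k.2)) (hs0 _ hv0' (hker k'.1 k'.2))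
      (hs _ hv0 (hker k.1 k.2) x hx hxo) (hs _ hv0' (hker k'.1 k'.2) x' hx' hxo')
    rw [hcr, dotProduct_smul, hw12, smul_eq_mul, mul_neg, mul_one, neg_neg] at h1
    exact h1
  obtain ⟨z, hz⟩ := HexR.const_of_odd hodd hA
  have hsg : ∀ v : Fin 3 → K, v ≠ 0 → ψ ⬝ᵥ v = 0 → sg v = z⁻¹ := by
    intro v hv0 hv
    obtain ⟨a, b, hab⟩ := exists_comb he12 (u := v) (det_zero_of_orth hψ0 hv he1 he2)
    have hk : ((a, b) : K × K) ≠ 0 := by
      intro h0
      rw [Prod.mk_eq_zero] at h0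
      apply hv0
      rw [hab, h0.1, h0.2]
      simp
    have := hz (a, b) hk
    change (sg (a • e1 + b • e2))⁻¹ = z at this
    rw [← hab] at this
    rw [← this, inv_inv]
  refine ⟨z⁻¹, ?_, ?_⟩
  · have he10 : e1 ≠ 0 := by
      rintro rfl
      apply he12
      simp
    rw [← hsg e1 he10 he1]
    exact hs0 e1 he10 he1
  · intro v x hv0 hv hx hxo r hr1 hr2
    rw [← hsg v hv0 hv]
    exact hs v hv0 hv x hx hxo r hr1 hr2

end odd

/-- regular pairs, odd order, not 1 mod 3 -/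
theorem mainO {K : Type*} [Field K] [Fintype K] [DecidableEq K] (hodd : Odd (Fintype.card K))
    (h3 : Fintype.card K % 3 ≠ 1)
    {Pt Ln : Type*} {I : Pt → Ln → Prop}
    (hI : IsGenHexagon (Fintype.card K) (Fintype.card K) I) (a : Flag K → Pt)
    (b : Projectivization K (Fin 3 → K) ⊕ Projectivization K (Fin 3 → K) → Ln)
    (ha : Function.Injective a) (hb : Function.Injective b)
    (hab : ∀ f e, I (a f) (b e) ↔ flagInc f e)
    (hreg : ∀ P L, ¬ Projectivization.orthogonal P L →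
      Distance3Regular I (b (Sum.inl P)) (b (Sum.inr L))) :
    ∃ (e₁ : Pt ≃ HLine K) (e₂ : Ln ≃ HPoint K), ∀ x l, I x l ↔ (e₂ l).1 ≤ (e₁ x).1 := by
  have H := hex_of_isGenHexagon hI
  obtain ⟨S, hlp, hll, -⟩ := exists_sub a b ha hb hab
  have hLB : LB S := by
    refine LB_of_regular H (dist_eq_three_iff hI) S ?_
    intro c N hcN
    have hc : c ≠ 0 := by
      rintro rfl
      exact hcN (zero_dotProduct _)
    have hN : N ≠ 0 := by
      rintro rfl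
      exact hcN (dotProduct_zero _)
    rw [hlp c hc, hll N hN]
    apply hreg
    rw [Projectivization.orthogonal_mk]
    exact hcN
  exact iso_exists H S (cube_one' h3) hLB (fun M hM => std_existsG H S hLB (cube_one' h3) hM
    (fun w ψ hψ hbb => sigma_constO H S hodd hLB hM hψ hbb))

end Pool.Agent.Lib.MP_6b0fe3_coR
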