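import Pool.Agent.Lib.MP_6b0fe3_coR.UniqL
import Pool.Agent.Lib.MP_6b0fe3_coR.BaseH

/-! MP_6b0fe3_co: coherent coordinates (labels) of the outside points and B-lines -/

namespace Pool.Agent.Lib.MP_6b0fe3_coR

open Matrix

section L
variable {K : Type*} [Field K] [Fintype K] {Pt Ln : Type*} {I : Pt → Ln → Prop}

/-- coherent choice of representations `R` of the outside points and of standard coordinates `T`
of the B-lines -/
structure Lbl (S : Sub K I) where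
  R : Pt → (Fin 3 → K) → (Fin 3 → K) → (Fin 3 → K) → Prop
  T : Ln → (Fin 3 → K) → (Fin 3 → K) → Prop
  R_rep : ∀ {x v w ψ}, R x v w ψ → Rep S x v w ψ
  T_std : ∀ {M w ψ}, T M w ψ → Std S M w ψ
  T_ex : ∀ {M}, BLine S M → ∃ w ψ, T M w ψ
  T_R : ∀ {M w ψ}, BLine S M → T M w ψ → ∀ {x v k}, I x M → Over S x v k → R x v w ψ
  R_eq : ∀ {x v w ψ w' ψ'}, Out S x → R x v w ψ → R x v w' ψ' → w' ⨯₃ v = w ⨯₃ v
  R_aline : ∀ {v k t x y w ψ w' ψ'}, ALine S v k t → I x t → I y t → Out S x → Out S y →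
    R x v w ψ → R y v w' ψ' → w' ⨯₃ v = w ⨯₃ v
  R_smul : ∀ {x v w ψ}, R x v w ψ → ∀ {c : K}, c ≠ 0 → R x (c • v) w ψ
  R_add : ∀ {x v w ψ}, R x v w ψ → ∀ s : K, R x v (w + s • v) (ψ + s • (w ⨯₃ v))

variable (H : Hex I (Fintype.card K)) (S : Sub K I)
include H

/-- two representations with the same `w × v` -/
theorem rep_unique_of_eq {x : Pt} (hx : Out S x)
    {v w ψ w' ψ' : Fin 3 → K} (h : Rep S x v w ψ) (h' : Rep S x v w' ψ')
    (he : w' ⨯₃ v = w ⨯₃ v) :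
    ∃ s : K, w' = w + s • v ∧ ψ' = ψ + s • (w ⨯₃ v) := by
  have hv : v ≠ 0 := h.2.2.1.1.1
  have hφ : w ⨯₃ v ≠ 0 := h.2.2.1.1.2.1
  have hc : w' ⨯₃ v = (1 : K) • (w ⨯₃ v) := by rw [he, one_smul]
  obtain ⟨s, hs⟩ := uniqL_factor hv hc
  rw [one_smul] at hs
  refine ⟨s, hs, ?_⟩
  apply uniqL_forms hφ
  intro r hr
  obtain ⟨m, hm, hn, ho, he1⟩ := uniqL_near H S hx h hr
  have ho' : Opp v (w' ⨯₃ v) r m := by rw [he]; exact ho
  have he' := (h'.2.2.2 r m hm ho').1 hn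
  rw [he, hs, dotProduct_add, dotProduct_smul, smul_eq_mul] at he'
  have hmv : m ⬝ᵥ v ≠ 0 := by rw [dotProduct_comm]; exact ho.1
  apply mul_right_cancel₀ hmv
  rw [add_dotProduct, smul_dotProduct, smul_eq_mul]
  linear_combination (-1 : K) * he' + he1

variable {S}

theorem Lbl.unique (L : Lbl S) {x : Pt} (hx : Out S x) {v w ψ w' ψ' : Fin 3 → K}
    (h : L.R x v w ψ) (h' : L.R x v w' ψ') :
    ∃ s : K, w' = w + s • v ∧ ψ' = ψ + s • (w ⨯₃ v) :=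
  rep_unique_of_eq H S hx (L.R_rep h) (L.R_rep h') (L.R_eq hx h h')

end L

end Pool.Agent.Lib.MP_6b0fe3_coR
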