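import Pool.Agent.Lib.MP_6b0fe3_coR.CountM
import Pool.Agent.Lib.MP_6b0fe3_coR.LabelL

/-! MP_6b0fe3_co: counting, for coherent coordinates -/

namespace Pool.Agent.Lib.MP_6b0fe3_coR

open Matrix

open CountM

section ML
variable {K : Type*} [Field K] [Fintype K] {Pt Ln : Type*} {I : Pt → Ln → Prop}
variable (H : Hex I (Fintype.card K)) {S : Sub K I} (L : Lbl S)

/-- the B-lines with given standard coordinates -/
def CountL.SA (L : Lbl S) (w ψ : Fin 3 → K) : Set Ln := {M | BLine S M ∧ L.T M w ψ}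

/-- the A-lines over `(v, φ)` with an outside point represented by `w`, `w × v = φ` -/
def CountL.ST (L : Lbl S) (v φ : Fin 3 → K) : Set Ln :=
  {t | ALine S v φ t ∧ ∃ x w ψ, I x t ∧ Out S x ∧ L.R x v w ψ ∧ w ⨯₃ v = φ}

include H

theorem std_coord_uniqueL {M : Ln} (hM : BLine S M)
    {w ψ w' ψ' : Fin 3 → K} (h : L.T M w ψ) (h' : L.T M w' ψ') : w = w' ∧ ψ = ψ' := by
  have key : ∀ v, v ≠ 0 → ψ ⬝ᵥ v = 0 → ∃ s : K, w' = w + s • v ∧ ψ' = ψ + s • (w ⨯₃ v) := by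
    intro v hv hψ
    obtain ⟨x, hx, ho, -⟩ := (L.T_std h).2 v hv hψ
    exact L.unique H (out_of_bline H S hM hx) (L.T_R hM h hx ho) (L.T_R hM h' hx ho)
  obtain ⟨v, r, hv, hr, hvr⟩ := exists_ker (ne_of_dot (L.T_std h).1).1
  have hv0 : v ≠ 0 := by
    rintro rfl
    simp at hvr
  have hr0 : r ≠ 0 := by
    rintro rfl
    simp at hvr
  obtain ⟨s, hs, hs'⟩ := key v hv0 hv
  obtain ⟨s', hs1, -⟩ := key r hr0 hr
  have h4 : s • v = s' • r := add_left_cancel (hs.symm.trans hs1)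
  have h5 : s = 0 := by
    have := congrArg (fun u => u ⨯₃ r) h4
    simp only [smul_cross', cross_self, smul_zero] at this
    exact (smul_eq_zero.1 this).resolve_right hvr
  rw [h5, zero_smul, add_zero] at hs hs'
  exact ⟨hs.symm, hs'.symm⟩

/-- the B-lines with coordinates `(w, ψ)` correspond to the A-lines in `T(v, w × v)` -/
theorem CountL.ncard_SA_eq {w ψ v : Fin 3 → K} (h : ψ ⬝ᵥ w = 1)
    (hv : ψ ⬝ᵥ v = 0) (hv0 : v ≠ 0) :
    (CountL.SA L w ψ).ncard = (CountL.ST L v (w ⨯₃ v)).ncard := by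
  obtain ⟨r, hr, hvr⟩ := exists_ker' (ne_of_dot h).1 hv0
  have hr0 : r ≠ 0 := by
    rintro rfl
    simp at hvr
  have hdet : w ⬝ᵥ (v ⨯₃ r) ≠ 0 := det_ne h hv hr hvr
  have hfr : IsFlag r (w ⨯₃ r) := ⟨hr0, cross_w_ne h hr hr0, dot_cross_self w r⟩
  have hopp : Opp v (w ⨯₃ v) r (w ⨯₃ r) := by
    constructor
    · have : v ⬝ᵥ (w ⨯₃ r) = - (w ⬝ᵥ (v ⨯₃ r)) := by
        simp only [cr0, cr1, cr2, CountM.dot3]
        ring
      rw [this]
      exact neg_ne_zero.2 hdet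
    · have : r ⬝ᵥ (w ⨯₃ v) = w ⬝ᵥ (v ⨯₃ r) := by
        simp only [cr0, cr1, cr2, CountM.dot3]
        ring
      rw [this]
      exact hdet
  refine ncard_eq_of_rel (fun M t => ∃ x, I x M ∧ I x t ∧ Over S x v (w ⨯₃ v)) ?_ ?_ ?_ ?_
  · -- the A-line through `x_v`
    rintro M ⟨hM, hMs⟩
    obtain ⟨x, hx, ho, -⟩ := (L.T_std hMs).2 v hv0 hv
    have hxo := out_of_bline H S hM hx
    obtain ⟨t, ht, hxt⟩ := aline_exists H S hxo ho
    exact ⟨t, ⟨ht, x, w, ψ, hxt, hxo, L.T_R hM hMs hx ho, rfl⟩, x, hx, hxt, ho⟩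
  · rintro t ⟨ht, x0, w0, ψ0, hx0, hox0, hrep0, hw0⟩
    obtain ⟨x, hxt, hox, hoxv, hn⟩ := near_on_aline H S ht hfr hopp
    obtain ⟨M, hM, hxM, z, hzM, hzo⟩ := bline_through H S hox hoxv hfr hopp hn
    obtain ⟨w1, ψ1, hs⟩ := L.T_ex hM
    have hb1 := base_of_std H S hM (L.T_std hs) hxM hoxv
    have hb2 := base_of_std H S hM (L.T_std hs) hzM hzo
    obtain ⟨a, ha0, ha, ha'⟩ := prop_pair h hv hr hvr (L.T_std hs).1 hb1.1 hb2.1 hb1.2 hb2.2
    have hrep := L.T_R hM hs hxM hoxv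
    have h4 := L.R_aline ht hx0 hxt hox0 hox hrep0 hrep
    rw [hw0, ha, smul_cross'] at h4
    have h5 : a = 1 := by
      have h6 : (a - 1) • (w ⨯₃ v) = 0 := by
        rw [sub_smul, one_smul, h4, sub_self]
      exact sub_eq_zero.1 ((smul_eq_zero.1 h6).resolve_right (cross_w_ne h hv hv0))
    rw [h5, one_smul] at ha
    rw [h5, inv_one, one_smul] at ha'
    subst ha ha'
    exact ⟨M, ⟨hM, hs⟩, x, hxM, hxt, hoxv⟩
  · -- uniqueness of the A-line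
    rintro M ⟨hM, hMs⟩ t ⟨ht, -⟩ t' ⟨ht', -⟩ ⟨x, hx, hxt, ho⟩ ⟨x', hx', hxt', ho'⟩
    have h1 : x = x' := eq_of_over H S hM hx hx' ho ho'
    subst h1
    refine H.uniq hxt ht.2.1 hxt' ht'.2.1 ?_
    exact out_of_bline H S hM hx v _ ho.1
  · -- uniqueness of the B-line
    rintro t ⟨ht, -⟩ M ⟨hM, hMs⟩ M' ⟨hM', hMs'⟩ ⟨x, hx, hxt, ho⟩ ⟨x', hx', hxt', ho'⟩
    obtain ⟨z, hz, hzo, -⟩ := (L.T_std hMs).2 r hr0 hr
    obtain ⟨z', hz', hzo', -⟩ := (L.T_std hMs').2 r hr0 hr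
    have hn : Near I x (S.pt r (w ⨯₃ r)) := ⟨z, ⟨M, hx, hz⟩, hzo.2⟩
    have hn' : Near I x' (S.pt r (w ⨯₃ r)) := ⟨z', ⟨M', hx', hz'⟩, hzo'.2⟩
    have h1 : x = x' := near_aline_unique H S ht hfr hopp hxt hxt' hn hn'
    subst h1
    have hxo := out_of_bline H S hM hx
    have hxr : ¬ Coll I x (S.pt r (w ⨯₃ r)) := by
      intro hc
      exact hvr (over_unique H S hxo ho ⟨hfr, hc⟩).1
    have hxz : x ≠ z := by
      rintro rfl
      exact hxr hzo.2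
    have hxz' : x ≠ z' := by
      rintro rfl
      exact hxr hzo'.2
    have hgz' : Coll I (S.pt r (w ⨯₃ r)) z' := by
      obtain ⟨l, h1, h2⟩ := hzo'.2
      exact ⟨l, h2, h1⟩
    rcases H.quadr ⟨M, hx, hz⟩ hzo.2 hgz' ⟨M', hz', hx'⟩ with hc | hc
    · exact absurd hc hxr
    · obtain ⟨l, h1, h2, h3'⟩ := H.tri ⟨M, hx, hz⟩ hc ⟨M', hx', hz'⟩
      rw [H.uniq hx hz h1 h2 hxz, H.uniq hx' hz' h1 h3' hxz']

theorem CountL.ncard_SA_form {w ψ ψ' : Fin 3 → K} (h : ψ ⬝ᵥ w = 1)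
    (h' : ψ' ⬝ᵥ w = 1) : (CountL.SA L w ψ).ncard = (CountL.SA L w ψ').ncard := by
  by_cases h0 : ψ ⨯₃ ψ' = 0
  · obtain ⟨c, hc⟩ := exists_smul_of_cross (ne_of_dot h).1 h0
    rw [hc, smul_dotProduct, h, smul_eq_mul, mul_one] at h'
    rw [hc, h', one_smul]
  · rw [CountL.ncard_SA_eq H L h (dot_self_cross ψ ψ') h0,
      CountL.ncard_SA_eq H L h' (dot_cross_self ψ ψ') h0]

theorem CountL.ncard_SA_vec {w w' ψ : Fin 3 → K} (h : ψ ⬝ᵥ w = 1)
    (h' : ψ ⬝ᵥ w' = 1) : (CountL.SA L w ψ).ncard = (CountL.SA L w' ψ).ncard := by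
  by_cases h0 : w' - w = 0
  · rw [sub_eq_zero.1 h0]
  · have h1 : ψ ⬝ᵥ (w' - w) = 0 := by
      rw [dotProduct_sub, h, h', sub_self]
    have h2 : w' ⨯₃ (w' - w) = w ⨯₃ (w' - w) := by
      rw [map_sub, map_sub, cross_self, cross_self, zero_sub, sub_zero, cross_anticomm]
    rw [CountL.ncard_SA_eq H L h h1 h0, CountL.ncard_SA_eq H L h' h1 h0, h2]

theorem CountL.ncard_SA_indep {w ψ w' ψ' : Fin 3 → K} (h : ψ ⬝ᵥ w = 1)
    (h' : ψ' ⬝ᵥ w' = 1) (hw : w ⨯₃ w' ≠ 0) :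
    (CountL.SA L w ψ).ncard = (CountL.SA L w' ψ').ncard := by
  obtain ⟨ψ2, h1, h2⟩ := exists_form' hw
  rw [CountL.ncard_SA_form H L h h1, CountL.ncard_SA_vec H L h1 h2,
    CountL.ncard_SA_form H L h2 h']

theorem CountL.ncard_SA_smul {w ψ : Fin 3 → K} (h : ψ ⬝ᵥ w = 1) {c : K}
    (hc : c ≠ 0) : (CountL.SA L (c • w) (c⁻¹ • ψ)).ncard = (CountL.SA L w ψ).ncard := by
  obtain ⟨w', hw'⟩ := exists_cross_ne (ne_of_dot h).2
  have h1 : (c⁻¹ • ψ) ⬝ᵥ (c • w) = 1 := by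
    rw [smul_dotProduct, dotProduct_smul, h, smul_eq_mul, smul_eq_mul, mul_one,
      inv_mul_cancel₀ hc]
  obtain ⟨ψ', h2, h2'⟩ := exists_form' hw'
  rw [CountL.ncard_SA_indep H L h h2' hw']
  refine CountL.ncard_SA_indep H L h1 h2' ?_
  rw [smul_cross']
  exact smul_ne_zero hc hw'

/-- every A-line lies in exactly one of the classes `T(v, c φ)` -/
theorem CountL.exists_class {v φ : Fin 3 → K} (h : IsFlag v φ) {t : Ln}
    (ht : ALine S v φ t) : ∃ c : Kˣ, t ∈ CountL.ST L v ((c : K) • φ) := by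
  obtain ⟨w, hw⟩ := exists_w h.1 h.2.2
  have hwv : w ⨯₃ v ≠ 0 := by
    rw [hw]
    exact h.2.1
  obtain ⟨ψ, hψ, hψv⟩ := exists_form hwv
  obtain ⟨r, hr, hvr⟩ := exists_ker' (ne_of_dot hψ).1 h.1
  have hr0 : r ≠ 0 := by
    rintro rfl
    simp at hvr
  have hdet : w ⬝ᵥ (v ⨯₃ r) ≠ 0 := det_ne hψ hψv hr hvr
  have hfr : IsFlag r (w ⨯₃ r) := ⟨hr0, cross_w_ne hψ hr hr0, dot_cross_self w r⟩
  have hopp : Opp v φ r (w ⨯₃ r) := by
    rw [← hw]
    constructor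
    · have : v ⬝ᵥ (w ⨯₃ r) = - (w ⬝ᵥ (v ⨯₃ r)) := by
        simp only [cr0, cr1, cr2, CountM.dot3]
        ring
      rw [this]
      exact neg_ne_zero.2 hdet
    · have : r ⬝ᵥ (w ⨯₃ v) = w ⬝ᵥ (v ⨯₃ r) := by
        simp only [cr0, cr1, cr2, CountM.dot3]
        ring
      rw [this]
      exact hdet
  obtain ⟨x, hxt, hox, hoxv, hn⟩ := near_on_aline H S ht hfr hopp
  obtain ⟨M, hM, hxM, -⟩ := bline_through H S hox hoxv hfr hopp hn
  obtain ⟨w1, ψ1, hs⟩ := L.T_ex hM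
  have hb := base_of_std H S hM (L.T_std hs) hxM hoxv
  obtain ⟨c, hc⟩ := exists_smul_of_cross h.2.1 hb.2
  have hrep := L.T_R hM hs hxM hoxv
  have hc0 : c ≠ 0 := by
    rintro rfl
    rw [zero_smul] at hc
    exact cross_w_ne (L.T_std hs).1 hb.1 h.1 hc
  exact ⟨Units.mk0 c hc0, (CountM.aline_smul S h hc0).2 ht, x, w1, ψ1, hxt, hox, hrep, hc⟩

theorem CountL.class_unique {v φ : Fin 3 → K} (h : IsFlag v φ) {t : Ln}
    {c c' : K} (hc : c ≠ 0) (ht : t ∈ CountL.ST L v (c • φ)) (ht' : t ∈ CountL.ST L v (c' • φ)) :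
    c = c' := by
  obtain ⟨hA, x, w, ψ, hx, hox, hrep, hw⟩ := ht
  obtain ⟨-, y, w', ψ', hy, hoy, hrep', hw'⟩ := ht'
  have h1 := L.R_aline ((CountM.aline_smul S h hc).1 hA) hx hy hox hoy hrep hrep'
  rw [hw, hw'] at h1
  have h2 : (c' - c) • φ = 0 := by
    rw [sub_smul, h1, sub_self]
  exact (sub_eq_zero.1 ((smul_eq_zero.1 h2).resolve_right h.2.1)).symm

theorem CountL.ncard_SA_one {w ψ : Fin 3 → K} (h : ψ ⬝ᵥ w = 1) :
    (CountL.SA L w ψ).ncard = 1 := by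
  classical
  obtain ⟨v, r, hv, -, hvr⟩ := exists_ker (ne_of_dot h).1
  have hv0 : v ≠ 0 := by
    rintro rfl
    simp at hvr
  have hf : IsFlag v (w ⨯₃ v) := ⟨hv0, cross_w_ne h hv hv0, dot_cross_self w v⟩
  have hcard := aline_card H S hf
  have hq : 1 < Fintype.card K := Fintype.one_lt_card
  have hfin : {t | ALine S v (w ⨯₃ v) t}.Finite := Set.finite_of_ncard_ne_zero (by omega)
  -- all the classes have the same size
  have hn : ∀ c : Kˣ, (CountL.ST L v ((c : K) • (w ⨯₃ v))).ncard = (CountL.SA L w ψ).ncard := by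
    intro c
    rw [← CountL.ncard_SA_smul H L h c.ne_zero, CountL.ncard_SA_eq H L (v := v) _ _ hv0,
      smul_cross']
    · rw [smul_dotProduct, dotProduct_smul, h, smul_eq_mul, smul_eq_mul, mul_one,
        inv_mul_cancel₀ c.ne_zero]
    · rw [smul_dotProduct, hv, smul_zero]
  have hex : ∀ t ∈ hfin.toFinset, ∃ c : Kˣ, t ∈ CountL.ST L v ((c : K) • (w ⨯₃ v)) := by
    intro t ht
    rw [Set.Finite.mem_toFinset] at ht
    exact CountL.exists_class H L hf ht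
  choose! g hg using hex
  have h1 := Finset.card_eq_sum_card_fiberwise (f := g) (s := hfin.toFinset)
    (t := (Finset.univ : Finset Kˣ)) (fun t _ => Finset.mem_coe.2 (Finset.mem_univ _))
  have h2 : ∀ c ∈ (Finset.univ : Finset Kˣ),
      (hfin.toFinset.filter (fun t => g t = c)).card = (CountL.SA L w ψ).ncard := by
    intro c _
    rw [← hn c, ← Set.ncard_coe_finset]
    congr 1
    ext t
    rw [Finset.coe_filter, Set.mem_ofPred_eq, Set.Finite.mem_toFinset]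
    constructor
    · rintro ⟨h4, h5⟩
      rw [← h5]
      exact hg t ((Set.Finite.mem_toFinset _).2 h4)
    · intro h4
      have h5 : ALine S v (w ⨯₃ v) t := (CountM.aline_smul S hf c.ne_zero).1 h4.1
      refine ⟨h5, ?_⟩
      have h6 := hg t ((Set.Finite.mem_toFinset _).2 h5)
      exact Units.ext (CountL.class_unique H L hf (g t).ne_zero h6 h4)
  rw [Finset.sum_congr rfl h2, Finset.sum_const, Finset.card_univ, Fintype.card_units,
    smul_eq_mul, ← Set.ncard_eq_toFinset_card _ hfin, hcard] at h1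
  have h5 : 0 < Fintype.card K - 1 := by omega
  exact (Nat.eq_of_mul_eq_mul_left h5 (by rw [← h1, mul_one]))

theorem std_uniqueL {w ψ : Fin 3 → K} (h : ψ ⬝ᵥ w = 1) :
    ∃! M, BLine S M ∧ L.T M w ψ := by
  obtain ⟨M, hM⟩ := Set.ncard_eq_one.1 (CountL.ncard_SA_one H L h)
  refine ⟨M, ?_, fun M' hM' => ?_⟩
  · have : M ∈ CountL.SA L w ψ := by
      rw [hM]
      exact Set.mem_singleton M
    exact this
  · have : M' ∈ CountL.SA L w ψ := hM'
    rw [hM] at this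
    exact this

theorem aline_uniqueL {v φ : Fin 3 → K} (h : IsFlag v φ) :
    ∃! t, ALine S v φ t ∧ ∃ x w ψ, I x t ∧ Out S x ∧ L.R x v w ψ ∧ w ⨯₃ v = φ := by
  obtain ⟨w, hw⟩ := exists_w h.1 h.2.2
  have hwv : w ⨯₃ v ≠ 0 := by
    rw [hw]
    exact h.2.1
  obtain ⟨ψ, hψ, hψv⟩ := exists_form hwv
  have h1 := CountL.ncard_SA_one H L hψ
  rw [CountL.ncard_SA_eq H L hψ hψv h.1, hw] at h1
  obtain ⟨t, ht⟩ := Set.ncard_eq_one.1 h1
  refine ⟨t, ?_, fun t' ht' => ?_⟩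
  · have : t ∈ CountL.ST L v φ := by
      rw [ht]
      exact Set.mem_singleton t
    exact this
  · have : t' ∈ CountL.ST L v φ := ht'
    rw [ht] at this
    exact this

end ML

end Pool.Agent.Lib.MP_6b0fe3_coR
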