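import Mathlib

/-!
# Maximal arcs of odd order do not exist (Ball, Blokhuis, Mazzocca), algebraic part

`E` is a finite field with `q ^ 2` elements of odd characteristic, `B` a set of `n q - q + n`
elements, `1 < n < q`, `n ∣ q`, such that for every `x` the map `β ↦ (x - β) ^ (q - 1)` on
`B \ {x}` has all its fibres of size `n` (`x ∉ B`) or `n - 1` (`x ∈ B`). This is impossible.
-/

open Polynomial Finset

namespace BBM

variable {E : Type*} [Field E]

/-- coefficient of `T ^ k` of a polynomial in `X` over `E[T]` -/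
noncomputable def co (k : ℕ) (Q : E[X][X]) : E[X] :=
  ∑ i ∈ range (Q.natDegree + 1), monomial i ((Q.coeff i).coeff k)

theorem coeff_co (k : ℕ) (Q : E[X][X]) (j : ℕ) : (co k Q).coeff j = (Q.coeff j).coeff k := by
  unfold co
  rw [finsetSum_coeff]
  simp only [coeff_monomial]
  rw [Finset.sum_ite_eq' (range (Q.natDegree + 1)) j]
  split_ifs with h
  · rfl
  · have h1 : Q.coeff j = 0 := coeff_eq_zero_of_natDegree_lt (by simpa using h)
    rw [h1, coeff_zero]

theorem co_derivative (k : ℕ) (Q : E[X][X]) : co k (derivative Q) = derivative (co k Q) := by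
  ext j
  rw [coeff_co, coeff_derivative, coeff_derivative, coeff_co]
  have : ((j : E[X]) + 1) = C ((j : E) + 1) := by simp
  rw [this, coeff_mul_C]

theorem co_eval (k : ℕ) (Q : E[X][X]) (x : E) : eval x (co k Q) = (eval (C x) Q).coeff k := by
  have h : (co k Q).natDegree < Q.natDegree + 1 := by
    rw [Nat.lt_succ_iff, natDegree_le_iff_coeff_eq_zero]
    intro N hN
    rw [coeff_co, coeff_eq_zero_of_natDegree_lt hN, coeff_zero]
  rw [eval_eq_sum_range' h, eval_eq_sum_range, finsetSum_coeff]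
  refine Finset.sum_congr rfl fun i _ => ?_
  rw [coeff_co, ← C_pow, coeff_mul_C]

theorem co_add (k : ℕ) (P Q : E[X][X]) : co k (P + Q) = co k P + co k Q := by
  ext j
  simp [coeff_co]

theorem co_sum {ι : Type*} (k : ℕ) (s : Finset ι) (P : ι → E[X][X]) :
    co k (∑ i ∈ s, P i) = ∑ i ∈ s, co k (P i) := by
  ext j
  simp [coeff_co, finsetSum_coeff]

theorem co_mapC_mul (k : ℕ) (u : E[X]) (Q : E[X][X]) : co k (u.map C * Q) = u * co k Q := by
  ext j
  rw [coeff_co, coeff_mul, coeff_mul, finsetSum_coeff]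
  refine Finset.sum_congr rfl fun x _ => ?_
  rw [coeff_map, coeff_C_mul, coeff_co]

theorem co_T_pow (k i : ℕ) (c : E) (u : E[X]) :
    co k (C (C c * X ^ i) * u.map C) = if k = i then C c * u else 0 := by
  ext j
  rw [coeff_co, coeff_C_mul, coeff_map, coeff_mul_C, coeff_C_mul, coeff_X_pow]
  split_ifs with h
  · rw [coeff_C_mul, mul_one]
  · rw [mul_zero, zero_mul, coeff_zero]

/-- the elementary polynomials `f_k` -/
noncomputable def fk (B : Finset E) (q k : ℕ) : E[X] :=
  C ((-1) ^ k) * ∑ t ∈ powersetCard k B, ∏ β ∈ t, (X - C β) ^ (q - 1)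

theorem prod_expand (B : Finset E) (q : ℕ) :
    ∏ β ∈ B, (1 - C X * ((X - C β) ^ (q - 1)).map C : E[X][X]) =
      ∑ t ∈ B.powerset, C (C ((-1) ^ #t) * X ^ #t) * (∏ β ∈ t, (X - C β) ^ (q - 1)).map C := by
  classical
  have : ∀ β ∈ B, (1 - C X * ((X - C β) ^ (q - 1)).map C : E[X][X]) =
      1 + C (C (-1) * X) * ((X - C β) ^ (q - 1)).map C := by
    intro β _
    simp only [C_mul, C_neg, C_1]
    ring
  rw [Finset.prod_congr rfl this, Finset.prod_one_add]
  refine Finset.sum_congr rfl fun t _ => ?_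
  rw [Finset.prod_mul_distrib, Finset.prod_const, Polynomial.map_prod, ← C_pow, mul_pow, ← C_pow]

theorem co_prod (B : Finset E) (q k : ℕ) :
    co k (∏ β ∈ B, (1 - C X * ((X - C β) ^ (q - 1)).map C : E[X][X])) = fk B q k := by
  classical
  rw [prod_expand, co_sum]
  simp only [co_T_pow]
  unfold fk
  rw [Finset.mul_sum, ← Finset.sum_filter]
  have hs : B.powerset.filter (fun t => k = #t) = powersetCard k B := by
    ext t
    simp only [mem_filter, mem_powerset, mem_powersetCard]
    exact ⟨fun h => ⟨h.1, h.2.symm⟩, fun h => ⟨h.1, h.2.symm⟩⟩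
  rw [hs]
  refine Finset.sum_congr rfl fun t ht => ?_
  rw [(mem_powersetCard.1 ht).2]

/-- the polynomial in `T` at the point `x` -/
noncomputable def Px (B : Finset E) (q : ℕ) (x : E) : E[X] :=
  ∏ β ∈ B, (1 - C ((x - β) ^ (q - 1)) * X)

theorem eval_prod (B : Finset E) (q : ℕ) (x : E) :
    eval (C x) (∏ β ∈ B, (1 - C X * ((X - C β) ^ (q - 1)).map C : E[X][X])) = Px B q x := by
  rw [Polynomial.eval_prod]
  unfold Px
  refine Finset.prod_congr rfl fun β _ => ?_
  simp only [eval_sub, eval_one, eval_mul, eval_C, Polynomial.map_pow, Polynomial.map_sub, map_X,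
    map_C, eval_pow, eval_X, C_pow, C_sub]
  ring

theorem eval_fk (B : Finset E) (q k : ℕ) (x : E) : eval x (fk B q k) = (Px B q x).coeff k := by
  rw [← co_prod, co_eval, eval_prod]

theorem natDegree_fk_le (B : Finset E) (q k : ℕ) : (fk B q k).natDegree ≤ k * (q - 1) := by
  unfold fk
  refine (natDegree_C_mul_le _ _).trans ?_
  refine natDegree_sum_le_of_forall_le _ _ fun t ht => ?_
  refine (natDegree_prod_le _ _).trans ?_
  have : ∀ β ∈ t, ((X - C β : E[X]) ^ (q - 1)).natDegree ≤ q - 1 := by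
    intro β _
    refine natDegree_pow_le.trans ?_
    rw [natDegree_X_sub_C, mul_one]
  refine (Finset.sum_le_card_nsmul _ _ _ this).trans ?_
  rw [(mem_powersetCard.1 ht).2, smul_eq_mul]

theorem coeff_fk_top (B : Finset E) (q k : ℕ) :
    (fk B q k).coeff (k * (q - 1)) = (-1) ^ k * (Nat.choose #B k : E) := by
  unfold fk
  rw [coeff_C_mul, finsetSum_coeff]
  have : ∀ t ∈ powersetCard k B, (∏ β ∈ t, (X - C β : E[X]) ^ (q - 1)).coeff (k * (q - 1)) = 1 := by
    intro t ht
    have hm : (∏ β ∈ t, (X - C β : E[X]) ^ (q - 1)).Monic :=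
      monic_prod_of_monic _ _ fun β _ => (monic_X_sub_C β).pow _
    have hd : (∏ β ∈ t, (X - C β : E[X]) ^ (q - 1)).natDegree = k * (q - 1) := by
      rw [natDegree_prod_of_monic _ _ fun β _ => (monic_X_sub_C β).pow _]
      have : ∀ β ∈ t, ((X - C β : E[X]) ^ (q - 1)).natDegree = q - 1 := by
        intro β _
        rw [natDegree_pow, natDegree_X_sub_C, mul_one]
      rw [Finset.sum_congr rfl this, Finset.sum_const, (mem_powersetCard.1 ht).2, smul_eq_mul]
    rw [← hd]
    exact hm
  rw [Finset.sum_congr rfl this, Finset.sum_const, card_powersetCard, nsmul_eq_mul, mul_one]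

end BBM
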