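import Pool.Agent.Lib.MP_6b0fe3_coR.ArcA

/-!
# Maximal arcs of odd order do not exist (Ball, Blokhuis, Mazzocca), algebraic part, conclusion
-/

open Polynomial Finset

namespace BBM

/-- `choose (p^e m) (p^e) = m` in characteristic `p` -/
theorem choose_char {E : Type*} [Field E] (p : ℕ) [Fact p.Prime] [CharP E p] (e m : ℕ) :
    ((p ^ e * m).choose (p ^ e) : E) = m := by
  have h1 : ((1 + X : E[X]) ^ (p ^ e * m)) = expand E (p ^ e) ((1 + X) ^ m) := by
    rw [pow_mul, add_pow_char_pow, one_pow, map_pow, map_add, map_one, expand_X]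
  have h2 : ((1 + X : E[X]) ^ (p ^ e * m)).coeff (p ^ e) =
      (expand E (p ^ e) ((1 + X) ^ m)).coeff (p ^ e) := by rw [h1]
  have hpos : 0 < p ^ e := pow_pos (Fact.out : p.Prime).pos e
  rw [coeff_one_add_X_pow, coeff_expand hpos, if_pos dvd_rfl, Nat.div_self hpos,
    coeff_one_add_X_pow, Nat.choose_one_right] at h2
  exact h2

/-- `p^e`-th powers have only coefficients at multiples of `p^e` -/
theorem coeff_pow_char {E : Type*} [Field E] (p : ℕ) [Fact p.Prime] [CharP E p] (e : ℕ) (f : E[X])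
    {m : ℕ} (hm : ¬ p ^ e ∣ m) : (f ^ p ^ e).coeff m = 0 := by
  have hpos : 0 < p ^ e := pow_pos (Fact.out : p.Prime).pos e
  rw [← map_iterateFrobenius_expand p f e, coeff_map, coeff_expand hpos, if_neg hm, map_zero]

theorem coeff_mul_zero {E : Type*} [Field E] {n : ℕ} {f g : E[X]}
    (hf : ∀ m, ¬ n ∣ m → f.coeff m = 0) (hg : ∀ m, ¬ n ∣ m → g.coeff m = 0) {m : ℕ}
    (hm : ¬ n ∣ m) : (f * g).coeff m = 0 := by
  rw [coeff_mul]
  refine Finset.sum_eq_zero fun x hx => ?_
  rw [HasAntidiagonal.mem_antidiagonal] at hx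
  by_cases h1 : n ∣ x.1
  · have h2 : ¬ n ∣ x.2 := by
      intro h2
      rw [← hx] at hm
      exact hm (dvd_add h1 h2)
    rw [hg _ h2, mul_zero]
  · rw [hf _ h1, zero_mul]

section main
variable {E : Type*} [Field E] [Fintype E] [DecidableEq E] {p e s q n : ℕ} [Fact p.Prime]
  [CharP E p]
variable (hE : Fintype.card E = q ^ 2) (hqp : ∃ h, q = p ^ h) (hn : n = p ^ e) (he : 1 ≤ e)
  (hq : q = n * (p * s)) {B : Finset E} (hcard : #B + q = n * q + n)
  (hfib : ∀ x, ∀ β ∈ B, β ≠ x →
    #{β' ∈ B | β' ≠ x ∧ (x - β') ^ (q - 1) = (x - β) ^ (q - 1)} = if x ∈ B then n - 1 else n)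

include hn hfib in
omit [Fintype E] in
theorem Px_out {x : E} (hx : x ∉ B) {m : ℕ} (hm : ¬ n ∣ m) : (Px B q x).coeff m = 0 := by
  have h1 : Px B q x = (∏ b ∈ B.image (fun β => (x - β) ^ (q - 1)), (1 - C b * X)) ^ n := by
    unfold Px
    rw [Finset.prod_comp (fun c : E => (1 - C c * X : E[X])) (fun β => (x - β) ^ (q - 1)),
      ← Finset.prod_pow]
    refine Finset.prod_congr rfl fun b hb => ?_
    obtain ⟨β, hβ, rfl⟩ := Finset.mem_image.1 hb
    have hne : β ≠ x := by
      rintro rfl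
      exact hx hβ
    have := hfib x β hβ hne
    rw [if_neg hx] at this
    rw [← this]
    congr 2
    ext β'
    simp only [mem_filter]
    constructor
    · rintro ⟨h1, h2⟩
      exact ⟨h1, fun h => hx (h ▸ h1), h2⟩
    · rintro ⟨h1, -, h2⟩
      exact ⟨h1, h2⟩
  rw [h1, hn]
  rw [hn] at hm
  exact coeff_pow_char p e _ hm

include hE in
omit [DecidableEq E] [Fact p.Prime] [CharP E p] in
theorem pow_mul_one {y : E} (hy : y ≠ 0) : (y ^ (q - 1)) ^ (q + 1) = 1 := by
  have h1 := FiniteField.pow_card_sub_one_eq_one y hy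
  rw [hE] at h1
  rw [← pow_mul]
  have : (q - 1) * (q + 1) = q ^ 2 - 1 := by
    rcases q with - | q
    · simp
    · simp
      ring_nf
      omega
  rw [this, h1]

omit [Fintype E] [Fact p.Prime] [CharP E p] in
/-- the product over the roots of unity -/
theorem prod_roots {Cs : Finset E} (hc : #Cs = q + 1) (h : ∀ c ∈ Cs, c ^ (q + 1) = 1) :
    ∏ b ∈ Cs, (1 - C b * X) = (1 - X ^ (q + 1) : E[X]) := by
  have hne : ∀ c ∈ Cs, c ≠ 0 := by
    rintro c hc rfl
    have := h 0 hc
    rw [zero_pow (by omega)] at this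
    exact zero_ne_one this
  have hs : #(insert 0 (Cs.image fun c => c⁻¹)) = q + 2 := by
    rw [Finset.card_insert_of_notMem, Finset.card_image_of_injective _ inv_injective, hc]
    intro h0
    obtain ⟨c, hc', hc0⟩ := Finset.mem_image.1 h0
    exact hne c hc' (inv_eq_zero.1 hc0)
  apply eq_of_natDegree_lt_card_of_eval_eq' _ _ (insert 0 (Cs.image fun c => c⁻¹))
  · intro y hy
    rw [Polynomial.eval_prod]
    rcases Finset.mem_insert.1 hy with rfl | hy
    · simp
    · obtain ⟨c, hc', rfl⟩ := Finset.mem_image.1 hy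
      rw [Finset.prod_eq_zero hc' (by simp [mul_inv_cancel₀ (hne c hc')])]
      simp [h c hc']
  · rw [hs]
    have d1 : (∏ b ∈ Cs, (1 - C b * X : E[X])).natDegree ≤ q + 1 := by
      refine (natDegree_prod_le _ _).trans ?_
      rw [← hc]
      refine (Finset.sum_le_card_nsmul _ _ 1 fun b _ => ?_).trans (by simp)
      refine (natDegree_sub_le _ _).trans ?_
      simp only [natDegree_one, zero_le, sup_of_le_right]
      exact natDegree_C_mul_le _ _ |>.trans natDegree_X_le
    have d2 : (1 - X ^ (q + 1) : E[X]).natDegree ≤ q + 1 := by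
      refine (natDegree_sub_le _ _).trans ?_
      simp
    omega

include hE he hn hcard hfib in
omit [CharP E p] in
theorem Px_in (hq1 : 1 < q) {x : E} (hx : x ∈ B) : Px B q x = (1 - X ^ (q + 1)) ^ (n - 1) := by
  have hn1 : 1 < n := by
    rw [hn]
    exact Nat.one_lt_pow (by omega) (Fact.out : p.Prime).one_lt
  have hcnt : ∀ b ∈ (B.erase x).image (fun β => (x - β) ^ (q - 1)),
      #{a ∈ B.erase x | (x - a) ^ (q - 1) = b} = n - 1 := by
    intro b hb
    obtain ⟨β, hβ, rfl⟩ := Finset.mem_image.1 hb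
    have := hfib x β (Finset.mem_of_mem_erase hβ) (Finset.ne_of_mem_erase hβ)
    rw [if_pos hx] at this
    rw [← this]
    congr 1
    ext β'
    simp only [mem_filter, mem_erase]
    tauto
  have h1 : Px B q x = (∏ b ∈ (B.erase x).image (fun β => (x - β) ^ (q - 1)),
      (1 - C b * X)) ^ (n - 1) := by
    unfold Px
    rw [← Finset.mul_prod_erase B _ hx, sub_self, zero_pow (by omega), C_0, zero_mul, sub_zero,
      one_mul, Finset.prod_comp (fun c : E => (1 - C c * X : E[X])) (fun β => (x - β) ^ (q - 1)),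
      ← Finset.prod_pow]
    refine Finset.prod_congr rfl fun b hb => ?_
    rw [hcnt b hb]
  rw [h1, prod_roots]
  · have h2 := Finset.card_eq_sum_card_image (fun β => (x - β) ^ (q - 1)) (B.erase x)
    rw [Finset.sum_congr rfl hcnt, Finset.sum_const, Finset.card_erase_of_mem hx, smul_eq_mul] at h2
    have h3 : #B - 1 = (q + 1) * (n - 1) := by
      obtain ⟨m, rfl⟩ : ∃ m, n = m + 1 := ⟨n - 1, by omega⟩
      simp only [Nat.add_sub_cancel]
      have : #B = (q + 1) * m + 1 := by
        have : (m + 1) * q + (m + 1) = (q + 1) * m + 1 + q := by ring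
        omega
      omega
    rw [h3] at h2
    exact (Nat.eq_of_mul_eq_mul_right (by omega) h2).symm
  · intro c hc
    obtain ⟨β, hβ, rfl⟩ := Finset.mem_image.1 hc
    exact pow_mul_one hE (sub_ne_zero.2 (Finset.ne_of_mem_erase hβ).symm)

include hE he hn hcard hfib in
omit [CharP E p] in
theorem Px_in_coeff (hq1 : 1 < q) {x : E} (hx : x ∈ B) {k : ℕ} (hk0 : 0 < k) (hk : k ≤ q) :
    (Px B q x).coeff k = 0 := by
  rw [Px_in hE hn he hcard hfib hq1 hx]
  have : (1 - X ^ (q + 1) : E[X]) ^ (n - 1) = expand E (q + 1) ((1 - X) ^ (n - 1)) := by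
    simp
  rw [this, coeff_expand (by omega), if_neg]
  intro h
  exact absurd (Nat.le_of_dvd hk0 h) (by omega)

include hE he hn hcard hfib in
theorem fk_zero (hq1 : 1 < q) {k : ℕ} (hk : k ≤ q) (hnk : ¬ n ∣ k) : fk B q k = 0 := by
  have hk0 : 0 < k := by
    rcases Nat.eq_zero_or_pos k with rfl | h
    · exact absurd (dvd_zero n) hnk
    · exact h
  apply eq_zero_of_natDegree_lt_card_of_eval_eq_zero' _ (Finset.univ : Finset E)
  · intro x _
    rw [eval_fk]
    by_cases hx : x ∈ B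
    · exact Px_in_coeff hE hn he hcard hfib hq1 hx hk0 hk
    · exact Px_out hn hfib hx hnk
  · rw [Finset.card_univ, hE]
    refine (natDegree_fk_le B q k).trans_lt ?_
    calc k * (q - 1) ≤ q * (q - 1) := Nat.mul_le_mul_right _ hk
      _ < q * q := Nat.mul_lt_mul_of_pos_left (by omega) (by omega)
      _ = q ^ 2 := (sq q).symm

/-- the logarithmic derivative -/
noncomputable def Ax (B : Finset E) (q : ℕ) (x : E) : E[X] :=
  ∑ β ∈ B, C (x - β)⁻¹ * ∑ j ∈ range (q + 1), (C ((x - β) ^ (q - 1)) * X) ^ j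

/-- the derivative of `B(X) P(X,T)` at `x` -/
noncomputable def Dx (B : Finset E) (q : ℕ) (x : E) : E[X] :=
  ∑ β ∈ B, ∏ β' ∈ B.erase β, (C (x - β') - C ((x - β') ^ q) * X)

include hE in
omit [Fact p.Prime] [CharP E p] in
theorem Dx_eq (hq1 : 1 < q) {x : E} (hx : x ∉ B) :
    (1 - X ^ (q + 1)) * Dx B q x = C (∏ β ∈ B, (x - β)) * Px B q x * Ax B q x := by
  have hl : ∀ β, (C (x - β) - C ((x - β) ^ q) * X : E[X]) =
      C (x - β) * (1 - C ((x - β) ^ (q - 1)) * X) := by
    intro β
    have : (x - β) ^ q = (x - β) * (x - β) ^ (q - 1) := by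
      rw [← pow_succ']
      congr 1
      omega
    rw [this, C_mul]
    ring
  have hP : C (∏ β ∈ B, (x - β)) * Px B q x = ∏ β ∈ B, (C (x - β) - C ((x - β) ^ q) * X) := by
    unfold Px
    rw [map_prod, ← Finset.prod_mul_distrib]
    exact Finset.prod_congr rfl fun β _ => (hl β).symm
  rw [hP]
  unfold Dx Ax
  rw [Finset.mul_sum, Finset.mul_sum]
  refine Finset.sum_congr rfl fun β hβ => ?_
  have hy : x - β ≠ 0 := by
    rw [sub_ne_zero]
    rintro rfl
    exact hx hβ
  have h1 : (1 - X ^ (q + 1) : E[X]) = (C (x - β) - C ((x - β) ^ q) * X) *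
      (C (x - β)⁻¹ * ∑ j ∈ range (q + 1), (C ((x - β) ^ (q - 1)) * X) ^ j) := by
    have h2 : (1 - C ((x - β) ^ (q - 1)) * X) *
        ∑ j ∈ range (q + 1), (C ((x - β) ^ (q - 1)) * X) ^ j = (1 - X ^ (q + 1) : E[X]) := by
      rw [mul_neg_geom_sum, mul_pow, ← C_pow, pow_mul_one hE hy, C_1, one_mul]
    rw [← h2, hl β]
    have h3 : (C (x - β) * C (x - β)⁻¹ : E[X]) = 1 := by
      rw [← C_mul, mul_inv_cancel₀ hy, C_1]
    linear_combination (-((1 - C ((x - β) ^ (q - 1)) * X) *
        ∑ j ∈ range (q + 1), (C ((x - β) ^ (q - 1)) * X) ^ j)) * h3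
  rw [h1, ← Finset.mul_prod_erase B _ hβ]
  ring

include hqp in
omit [Fintype E] in
theorem Dx_coeff (hq1 : 1 < q) (x : E) (k : ℕ) :
    (Dx B q x).coeff k = eval x (derivative ((∏ β ∈ B, (X - C β)) * fk B q k)) := by
  obtain ⟨h, hqh⟩ := hqp
  have hq0 : (q : E[X]) = 0 := by
    have hp0 : (p : E) = 0 := CharP.cast_eq_zero E p
    have hh : h ≠ 0 := by
      rintro rfl
      rw [pow_zero] at hqh
      omega
    have : (q : E) = 0 := by
      rw [hqh]
      push_cast
      rw [hp0, zero_pow hh]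
    rw [← Polynomial.C_eq_natCast, this, C_0]
  have hq0' : (q : E[X][X]) = 0 := by
    rw [← Polynomial.C_eq_natCast, hq0, C_0]
  have h1 : ((∏ β ∈ B, (X - C β)) * fk B q k : E[X]) =
      co k ((∏ β ∈ B, (X - C β)).map C *
        ∏ β ∈ B, (1 - C X * ((X - C β) ^ (q - 1)).map C : E[X][X])) := by
    rw [co_mapC_mul, co_prod]
  have h2 : (∏ β ∈ B, (X - C β)).map C *
        ∏ β ∈ B, (1 - C X * ((X - C β) ^ (q - 1)).map C : E[X][X]) =
      ∏ β ∈ B, ((X - C (C β)) - C X * (X - C (C β)) ^ q) := by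
    rw [Polynomial.map_prod, ← Finset.prod_mul_distrib]
    refine Finset.prod_congr rfl fun β _ => ?_
    simp only [Polynomial.map_pow, Polynomial.map_sub, map_X, map_C]
    have : (X - C (C β) : E[X][X]) ^ q = (X - C (C β)) * (X - C (C β)) ^ (q - 1) := by
      rw [← pow_succ']
      congr 1
      omega
    rw [this]
    ring
  rw [h1, h2, ← co_derivative, co_eval, derivative_prod_finset]
  congr 1
  have h3 : ∀ β, derivative ((X - C (C β)) - C X * (X - C (C β)) ^ q : E[X][X]) = 1 := by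
    intro β
    rw [derivative_sub, derivative_X_sub_C, derivative_C_mul, derivative_X_sub_C_pow,
      hq0, C_0]
    ring
  simp only [h3, mul_one]
  unfold Dx
  rw [Polynomial.eval_finset_sum]
  refine Finset.sum_congr rfl fun β _ => ?_
  rw [Polynomial.eval_prod]
  refine Finset.prod_congr rfl fun β' _ => ?_
  simp only [eval_sub, eval_X, eval_C, eval_mul, eval_pow, C_sub, C_pow]
  ring

end main

end BBM
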