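import Pool.Agent.Lib.MP_6b0fe3_coR.ArcB

/-!
# Maximal arcs of odd order do not exist (Ball, Blokhuis, Mazzocca), algebraic part, conclusion
-/

open Polynomial Finset

namespace BBM

section main
variable {E : Type*} [Field E] [Fintype E] [DecidableEq E] {p e s q n : ℕ} [Fact p.Prime]
  [CharP E p]

omit [Fintype E] [Fact p.Prime] [CharP E p] in
theorem Px_zero (B : Finset E) (q : ℕ) (x : E) : (Px B q x).coeff 0 = 1 := by
  rw [coeff_zero_eq_eval_zero]
  unfold Px
  rw [Polynomial.eval_prod]
  simp

omit [Fintype E] [Fact p.Prime] [CharP E p] in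
theorem Ax_deg (B : Finset E) (q : ℕ) (x : E) {m : ℕ} (hm : q < m) : (Ax B q x).coeff m = 0 := by
  unfold Ax
  rw [finsetSum_coeff]
  refine Finset.sum_eq_zero fun β _ => ?_
  rw [coeff_C_mul, finsetSum_coeff, Finset.sum_eq_zero, mul_zero]
  intro j hj
  have hj' : j < q + 1 := by simpa using hj
  rw [mul_pow, ← C_pow, coeff_C_mul, coeff_X_pow, if_neg (by omega), mul_zero]

omit [Fintype E] [Fact p.Prime] [CharP E p] in
theorem Dx_deg (B : Finset E) (q : ℕ) (x : E) {m : ℕ} (hm : #B ≤ m) : (Dx B q x).coeff m = 0 := by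
  unfold Dx
  rw [finsetSum_coeff]
  refine Finset.sum_eq_zero fun β hβ => ?_
  apply coeff_eq_zero_of_natDegree_lt
  have hpos : 0 < #B := Finset.card_pos.2 ⟨β, hβ⟩
  refine (natDegree_prod_le _ _).trans_lt ?_
  have h1 : ∑ β' ∈ B.erase β, (C (x - β') - C ((x - β') ^ q) * X : E[X]).natDegree ≤
      #(B.erase β) • 1 := by
    refine Finset.sum_le_card_nsmul _ _ 1 fun b _ => ?_
    refine (natDegree_sub_le _ _).trans ?_
    simp only [natDegree_C, zero_le, sup_of_le_right]
    exact natDegree_C_mul_le _ _ |>.trans natDegree_X_le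
  rw [Finset.card_erase_of_mem hβ, smul_eq_mul, mul_one] at h1
  omega

omit [Fintype E] [DecidableEq E] [Fact p.Prime] [CharP E p] in
theorem coeff_one_sub (f : E[X]) (q m : ℕ) :
    ((1 - X ^ (q + 1)) * f).coeff (m + (q + 1)) = f.coeff (m + (q + 1)) - f.coeff m := by
  rw [sub_mul, one_mul, coeff_sub, coeff_X_pow_mul]

omit [Fintype E] [DecidableEq E] [Fact p.Prime] [CharP E p] in
theorem coeff_one_sub' (f : E[X]) {q m : ℕ} (hm : m ≤ q) :
    ((1 - X ^ (q + 1)) * f).coeff m = f.coeff m := by
  rw [sub_mul, one_mul, coeff_sub, coeff_X_pow_mul', if_neg (by omega), sub_zero]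

variable (hE : Fintype.card E = q ^ 2) (hqp : ∃ h, q = p ^ h) (hn : n = p ^ e) (he : 1 ≤ e)
  (hq : q = n * (p * s)) {B : Finset E} (hcard : #B + q = n * q + n)
  (hfib : ∀ x, ∀ β ∈ B, β ≠ x →
    #{β' ∈ B | β' ≠ x ∧ (x - β') ^ (q - 1) = (x - β) ^ (q - 1)} = if x ∈ B then n - 1 else n)

include hE hqp hn he hcard hfib in
theorem Ax_coeff (hq1 : 1 < q) {x : E} (hx : x ∉ B) : ∀ m, ¬ n ∣ m → (Ax B q x).coeff m = 0 := by
  intro m
  induction m using Nat.strong_induction_on with
  | _ m ih =>
    intro hm
    by_cases hmq : q < m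
    · exact Ax_deg B q x hmq
    have hmq' : m ≤ q := by omega
    have h1 : ((1 - X ^ (q + 1)) * Dx B q x).coeff m =
        (C (∏ β ∈ B, (x - β)) * Px B q x * Ax B q x).coeff m := by rw [Dx_eq hE hq1 hx]
    rw [coeff_one_sub' _ hmq', Dx_coeff hqp hq1, fk_zero hE hn he hcard hfib hq1 hmq' hm, mul_zero,
      derivative_zero, eval_zero, mul_assoc, coeff_C_mul] at h1
    have hb : ∏ β ∈ B, (x - β) ≠ 0 := by
      rw [Finset.prod_ne_zero_iff]
      intro β hβ
      rw [sub_ne_zero]
      rintro rfl
      exact hx hβ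
    have h2 : (Px B q x * Ax B q x).coeff m = 0 := by
      rcases mul_eq_zero.1 h1.symm with h | h
      · exact absurd h hb
      · exact h
    rw [coeff_mul, Finset.sum_eq_single (0, m)] at h2
    · rw [Px_zero, one_mul] at h2
      exact h2
    · rintro ⟨i, j⟩ hij hne
      rw [HasAntidiagonal.mem_antidiagonal] at hij
      simp only at hij
      by_cases h3 : n ∣ i
      · have hi : i ≠ 0 := by
          rintro rfl
          apply hne
          rw [zero_add] at hij
          rw [hij]
        have h4 : ¬ n ∣ j := by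
          intro h4
          rw [← hij] at hm
          exact hm (dvd_add h3 h4)
        rw [ih j (by omega) h4, mul_zero]
      · rw [Px_out hn hfib hx h3, zero_mul]
    · intro h
      exact absurd (by rw [HasAntidiagonal.mem_antidiagonal]; simp) h

include hE hqp hn he hq hcard hfib in
theorem Dx_n (hq1 : 1 < q) {x : E} (hx : x ∉ B) : (Dx B q x).coeff n = 0 := by
  have hn1 : 1 < n := by
    rw [hn]
    exact Nat.one_lt_pow (by omega) (Fact.out : p.Prime).one_lt
  have h1 : ∀ m, ¬ n ∣ m → ((1 - X ^ (q + 1)) * Dx B q x).coeff m = 0 := by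
    intro m hm
    rw [Dx_eq hE hq1 hx]
    refine coeff_mul_zero (fun m hm => ?_) (Ax_coeff hE hqp hn he hcard hfib hq1 hx) hm
    rw [coeff_C_mul, Px_out hn hfib hx hm, mul_zero]
  have h2 : ∀ j, j < n → (Dx B q x).coeff (n + j * (q + 1)) = (Dx B q x).coeff n := by
    intro j
    induction j with
    | zero => intro _; rw [zero_mul, add_zero]
    | succ j ih =>
      intro hj
      have h3 := h1 (n + j * (q + 1) + (q + 1)) (by
        intro hd
        have e1 : n + j * (q + 1) + (q + 1) = n + (j + 1) * q + (j + 1) := by ring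
        have e2 : n ∣ n + (j + 1) * q := by
          refine dvd_add dvd_rfl (Dvd.dvd.mul_left ?_ _)
          rw [hq]
          exact dvd_mul_right _ _
        rw [e1, ← Nat.dvd_add_iff_right e2] at hd
        exact absurd (Nat.le_of_dvd (by omega) hd) (by omega))
      rw [coeff_one_sub, sub_eq_zero] at h3
      have e3 : n + (j + 1) * (q + 1) = n + j * (q + 1) + (q + 1) := by ring
      rw [e3, h3]
      exact ih (by omega)
  rw [← h2 (n - 1) (by omega)]
  apply Dx_deg
  obtain ⟨m, rfl⟩ : ∃ m, n = m + 1 := ⟨n - 1, by omega⟩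
  simp only [Nat.add_sub_cancel]
  have : (m + 1) * q + (m + 1) = m * (q + 1) + 1 + q := by ring
  omega

include hE hqp hn he hq hcard hfib in
/-- there are no non-trivial maximal arcs in odd characteristic -/
theorem false_of_arc (hp3 : 3 ≤ p) (hs : 1 ≤ s) : False := by
  have hpp : p.Prime := Fact.out
  have hn1 : 3 ≤ n := by
    rw [hn]
    calc 3 ≤ p := hp3
      _ = p ^ 1 := (pow_one p).symm
      _ ≤ p ^ e := Nat.pow_le_pow_right hpp.pos he
  have hnq : 3 * n ≤ q := by
    rw [hq]
    calc 3 * n = n * 3 := mul_comm _ _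
      _ ≤ n * (p * s) := Nat.mul_le_mul_left _ (by nlinarith)
  have hq1 : 1 < q := by omega
  -- the polynomial `ρ_n`
  set R : E[X] := (∏ β ∈ B, (X - C β)) * fk B q n with hR
  have hder0 : ∀ x : E, eval x (derivative R) = 0 := by
    intro x
    by_cases hx : x ∈ B
    · rw [hR, derivative_mul, eval_add, eval_mul, eval_mul, eval_fk,
        Px_in_coeff hE hn he hcard hfib hq1 hx (by omega) (by omega), mul_zero, zero_add,
        Polynomial.eval_prod, Finset.prod_eq_zero hx (by simp), zero_mul]
    · rw [hR, ← Dx_coeff hqp hq1 x n]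
      exact Dx_n hE hqp hn he hq hcard hfib hq1 hx
  have hdegR : R.natDegree ≤ #B + n * (q - 1) := by
    rw [hR]
    refine natDegree_mul_le.trans ?_
    have h1 : (∏ β ∈ B, (X - C β) : E[X]).natDegree = #B := by
      rw [natDegree_prod_of_monic _ _ fun β _ => monic_X_sub_C β]
      simp
    rw [h1]
    exact Nat.add_le_add_left (natDegree_fk_le B q n) _
  have hB : #B + n * (q - 1) + q = 2 * (n * q) := by
    have h1 : n * (q - 1) + n = n * q := by
      obtain ⟨m, rfl⟩ : ∃ m, q = m + 1 := ⟨q - 1, by omega⟩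
      simp only [Nat.add_sub_cancel]
      ring
    omega
  have hder : derivative R = 0 := by
    apply eq_zero_of_natDegree_lt_card_of_eval_eq_zero' _ (Finset.univ : Finset E)
    · intro x _
      exact hder0 x
    · rw [Finset.card_univ, hE]
      refine (natDegree_derivative_le _).trans_lt ?_
      have h2 : 2 * (n * q) ≤ q ^ 2 := by nlinarith
      omega
  -- `R` is not zero
  have hchoose : (Nat.choose #B n : E) ≠ 0 := by
    obtain ⟨m, hm⟩ : ∃ m, #B = p ^ e * m ∧ (m : E) = 1 := by
      refine ⟨q - p * s + 1, ?_, ?_⟩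
      · have h1 : p * s ≤ q := by
          rw [hq]
          exact Nat.le_mul_of_pos_left _ (by omega)
        rw [← hn]
        have h2 : n * (q - p * s + 1) + n * (p * s) = n * q + n := by
          rw [← mul_add]
          have : q - p * s + 1 + p * s = q + 1 := by omega
          rw [this]
          ring
        rw [← hq] at h2
        omega
      · have h1 : p * s ≤ q := by
          rw [hq]
          exact Nat.le_mul_of_pos_left _ (by omega)
        have hp0 : (p : E) = 0 := CharP.cast_eq_zero E p
        have hq0 : (q : E) = 0 := by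
          rw [hq]
          push_cast
          rw [hp0]
          ring
        push_cast [Nat.cast_sub h1]
        rw [hq0, hp0]
        ring
    rw [hm.1, hn, choose_char p e m, hm.2]
    exact one_ne_zero
  have hfk : fk B q n ≠ 0 := by
    intro h
    have h1 := coeff_fk_top B q n
    rw [h, coeff_zero] at h1
    rcases mul_eq_zero.1 h1.symm with h2 | h2
    · exact absurd h2 (pow_ne_zero _ (by simp))
    · exact hchoose h2
  have hRne : R ≠ 0 := by
    rw [hR]
    refine mul_ne_zero ?_ hfk
    rw [Finset.prod_ne_zero_iff]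
    intro β _
    exact X_sub_C_ne_zero β
  -- `R` is a `p`-th power
  have hexp := expand_contract p hder hpp.ne_zero
  have : ExpChar E p := ExpChar.prime hpp
  rw [polynomial_expand_eq] at hexp
  set g : E[X] := (contract p R).map (frobeniusEquiv E p).symm with hg
  have hgne : g ≠ 0 := by
    intro h
    rw [h, zero_pow hpp.ne_zero] at hexp
    exact hRne hexp.symm
  have hroots : ∀ β ∈ B, eval β g = 0 := by
    intro β hβ
    have h1 : eval β (g ^ p) = 0 := by
      rw [hexp, hR, eval_mul, Polynomial.eval_prod, Finset.prod_eq_zero hβ (by simp), zero_mul]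
    rw [eval_pow] at h1
    exact pow_eq_zero_iff hpp.ne_zero |>.1 h1
  have hBg : #B ≤ g.natDegree := by
    by_contra hlt
    push Not at hlt
    exact hgne (eq_zero_of_natDegree_lt_card_of_eval_eq_zero' g B hroots hlt)
  have hdeg2 : p * g.natDegree ≤ #B + n * (q - 1) := by
    rw [← natDegree_pow, hexp]
    exact hdegR
  have h3 : 3 * #B ≤ #B + n * (q - 1) := by
    calc 3 * #B ≤ p * g.natDegree := Nat.mul_le_mul hp3 hBg
      _ ≤ _ := hdeg2
  have h4 : 3 * q ≤ n * q := Nat.mul_le_mul_right _ hn1
  omega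

end main

end BBM
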