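import Pool.Agent.Lib.MP_6b0fe3_coR.Vec

/-! MP_6b0fe3_co, R2: group lemmas for the lifts -/

namespace Pool.Agent.Lib.MP_6b0fe3_coR

open Matrix

/-- `g` is an automorphism of the geometry (a pair of permutations preserving incidence) -/
def IsAut {Pt Ln : Type*} (I : Pt → Ln → Prop) (g : Equiv.Perm Pt × Equiv.Perm Ln) : Prop :=
  ∀ x l, I (g.1 x) (g.2 l) ↔ I x l

/-- the geometry is finite -/
theorem finite_of_hex {Pt Ln : Type*} {I : Pt → Ln → Prop} {q : ℕ} (H : Hex I q) :
    Finite Pt ∧ Finite Ln := by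
  have hl : ∀ l, {x | I x l}.Finite := fun l =>
    Set.finite_of_ncard_pos (by rw [H.lineCard]; omega)
  have hp : ∀ x, {l | I x l}.Finite := fun x =>
    Set.finite_of_ncard_pos (by rw [H.ptCard]; omega)
  have hc : ∀ z, {x | Coll I x z}.Finite := by
    intro z
    have : {x | Coll I x z} ⊆ ⋃ l ∈ {l | I z l}, {x | I x l} := by
      rintro x ⟨l, h1, h2⟩
      simp only [Set.mem_iUnion]
      exact ⟨l, h2, h1⟩
    exact Set.Finite.subset (Set.Finite.biUnion (hp z) fun l _ => hl l) this
  have hPt : Finite Pt := by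
    rcases isEmpty_or_nonempty Ln with hE | ⟨⟨l0⟩⟩
    · have : IsEmpty Pt := ⟨fun x => by
        have := H.ptCard x
        have hpos : 0 < {l | I x l}.ncard := by omega
        obtain ⟨l, -⟩ := (Set.ncard_pos (hp x)).1 hpos
        exact hE.false l⟩
      infer_instance
    · have hu : (Set.univ : Set Pt) ⊆
          ⋃ y ∈ {y | I y l0}, ⋃ z ∈ {z | Coll I z y}, {x | Coll I x z} := by
        intro x _
        obtain ⟨y, hy, z, hz, hz'⟩ := H.near x l0
        simp only [Set.mem_iUnion]
        exact ⟨y, hy, z, hz', hz⟩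
      exact Set.finite_univ_iff.1 (Set.Finite.subset
        (Set.Finite.biUnion (hl l0) fun y _ => Set.Finite.biUnion (hc y) fun z _ => hc z) hu)
  refine ⟨hPt, ?_⟩
  have hu : (Set.univ : Set Ln) ⊆ ⋃ x ∈ (Set.univ : Set Pt), {l | I x l} := by
    intro l _
    have hpos : 0 < {x | I x l}.ncard := by rw [H.lineCard]; omega
    obtain ⟨x, hx⟩ := (Set.ncard_pos (hl l)).1 hpos
    simp only [Set.mem_iUnion]
    exact ⟨x, trivial, hx⟩
  exact Set.finite_univ_iff.1 (Set.Finite.subset
    (Set.Finite.biUnion Set.finite_univ fun x _ => hp x) hu)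

/-- a permutation of `p`-power order of a set with less than `p` elements is trivial -/
theorem perm_trivial {p n : ℕ} [Fact p.Prime] {X : Type*} [Fintype X] [DecidableEq X]
    (hX : Fintype.card X < p) (σ : Equiv.Perm X) (hσ : σ ^ p ^ n = 1) : σ = 1 := by
  have hp : p.Prime := Fact.out
  have h1 : orderOf σ ∣ p ^ n := orderOf_dvd_of_pow_eq_one hσ
  have h2 : orderOf σ ∣ (Fintype.card X).factorial := by
    rw [← Fintype.card_perm]
    exact orderOf_dvd_card
  have h3 : Nat.Coprime (p ^ n) (Fintype.card X).factorial := by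
    apply Nat.Coprime.pow_left
    rw [hp.coprime_iff_not_dvd, hp.dvd_factorial]
    omega
  have h4 : orderOf σ = 1 := Nat.eq_one_of_dvd_coprimes h3 h1 h2
  exact orderOf_eq_one_iff.1 h4

/-- two elements of a `p`-subgroup of the symmetric group of degree `p` commute -/
theorem perm_comm {p : ℕ} [Fact p.Prime] {X : Type*} [Fintype X] [DecidableEq X]
    (hX : Fintype.card X = p) (P : Subgroup (Equiv.Perm X)) (hP : IsPGroup p P)
    (σ τ : Equiv.Perm X) (hσ : σ ∈ P) (hτ : τ ∈ P) : σ * τ = τ * σ := by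
  have hp : p.Prime := Fact.out
  obtain ⟨n, hn⟩ := IsPGroup.iff_card.1 hP
  have hd : Nat.card P ∣ p.factorial := by
    rw [← hX, ← Fintype.card_perm, ← Nat.card_eq_fintype_card]
    exact Subgroup.card_subgroup_dvd_card P
  have hn1 : n ≤ 1 := by
    by_contra hn2
    have h2 : p ^ 2 ∣ p.factorial := by
      rw [hn] at hd
      exact (pow_dvd_pow p (by omega)).trans hd
    obtain ⟨k, hk⟩ : ∃ k, p = k + 1 := ⟨p - 1, by have := hp.pos; omega⟩
    have h3 : p.factorial = p * k.factorial := by
      rw [hk, Nat.factorial_succ]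
    rw [h3, pow_two] at h2
    have h4 : p ∣ k.factorial := Nat.dvd_of_mul_dvd_mul_left hp.pos h2
    rw [hp.dvd_factorial] at h4
    omega
  have hcomm : ∀ a b : P, a * b = b * a := by
    interval_cases n
    · rw [pow_zero] at hn
      have : Subsingleton P := (Nat.card_eq_one_iff_unique.1 hn).1
      intro a b
      exact Subsingleton.elim _ _
    · rw [pow_one] at hn
      have : IsCyclic P := isCyclic_of_prime_card hn
      let _ := IsCyclic.commGroup (α := P)
      intro a b
      exact mul_comm a b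
  have := hcomm ⟨σ, hσ⟩ ⟨τ, hτ⟩
  exact congrArg Subtype.val this

end Pool.Agent.Lib.MP_6b0fe3_coR
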