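import Pool.Agent.Lib.MP_6b0fe3_coR.ThetaE

/-! MP_6b0fe3_co, recognition theorem: A-lines and B-lines -/

namespace Pool.Agent.Lib.MP_6b0fe3_coR

open Matrix

section main
variable {K : Type*} [Field K] [Fintype K] {Pt Ln : Type*} {I : Pt → Ln → Prop}
variable (H : Hex I (Fintype.card K)) (S : Sub K I)
include H

/-! F: A-lines and B-lines -/

theorem lineF_near_swap {x y : Pt} (h : Near I x y) : Near I y x := by
  obtain ⟨z, h1, h2⟩ := h
  exact ⟨z, thetaE_coll_swap h2, thetaE_coll_swap h1⟩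

/-- a common neighbour of two different points of a line is on the line -/
theorem lineF_on_line {M : Ln} {x y a : Pt} (hx : I x M) (hy : I y M) (hxy : x ≠ y)
    (h1 : Coll I x a) (h2 : Coll I a y) : I a M := by
  obtain ⟨l, hlx, hla, hly⟩ := H.tri h1 h2 ⟨M, hx, hy⟩
  rwa [H.uniq hlx hly hx hy hxy] at hla

theorem out_of_bline {M : Ln} (hM : BLine S M) {x : Pt} (hx : I x M) : Out S x := by
  intro v k hvk e
  rw [e] at hx
  exact hM v k hvk hx

theorem lineF_not_coll {M : Ln} (hM : BLine S M) {x y : Pt} (hx : I x M) (hy : I y M) (hxy : x ≠ y)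
    {v k v' k' : Fin 3 → K} (h : Over S x v k) (h' : Over S y v' k') :
    ¬ Coll I (S.pt v k) (S.pt v' k') := by
  intro hc
  have key : S.pt v k = S.pt v' k' → False := by
    intro e
    have h2 : Coll I (S.pt v k) y := by
      rw [e]
      exact thetaE_coll_swap h'.2
    exact hM v k h.1 (lineF_on_line H hx hy hxy h.2 h2)
  rcases H.quadr h.2 hc (thetaE_coll_swap h'.2) ⟨M, hy, hx⟩ with e | e
  · exact key ((S.pt_eq h.1 h'.1).2 (over_unique H S (out_of_bline H S hM hx) h ⟨h'.1, e⟩))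
  · exact key ((S.pt_eq h.1 h'.1).2
      (over_unique H S (out_of_bline H S hM hy) ⟨h.1, thetaE_coll_swap e⟩ h'))

theorem lineF_opp_aux {M : Ln} (hM : BLine S M) {x y : Pt} (hx : I x M) (hy : I y M) (hxy : x ≠ y)
    {v k v' k' : Fin 3 → K} (h : Over S x v k) (h' : Over S y v' k') : v ⬝ᵥ k' ≠ 0 := by
  intro h0
  have hh : IsFlag v k' := ⟨h.1.1, h'.1.2.1, h0⟩
  have hnc := lineF_not_coll H S hM hx hy hxy h h'
  have hox := out_of_bline H S hM hx
  have hoy := out_of_bline H S hM hy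
  have hfh : Coll I (S.pt v k) (S.pt v k') := ⟨S.lp v, thetaE_inc_lp S h.1, thetaE_inc_lp S hh⟩
  have hhg : Coll I (S.pt v k') (S.pt v' k') := ⟨S.ll k', thetaE_inc_ll S hh, thetaE_inc_ll S h'.1⟩
  rcases H.pent h.2 hfh hhg (thetaE_coll_swap h'.2) ⟨M, hy, hx⟩ with e | e | e | e | e
  · have h1 := over_unique H S hox h ⟨hh, e⟩
    rw [(S.pt_eq h.1 hh).2 h1] at hnc
    exact hnc hhg
  · exact hnc e
  · have h1 := over_unique H S hoy ⟨hh, thetaE_coll_swap e⟩ h'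
    rw [← (S.pt_eq hh h'.1).2 h1] at hnc
    exact hnc hfh
  · have h1 := over_unique H S hox h ⟨h'.1, thetaE_coll_swap e⟩
    rw [(S.pt_eq h.1 h'.1).2 h1] at hnc
    exact hnc ⟨S.lp v', thetaE_inc_lp S h'.1, thetaE_inc_lp S h'.1⟩
  · have h1 := over_unique H S hoy ⟨h.1, e⟩ h'
    rw [(S.pt_eq h.1 h'.1).2 h1] at hnc
    exact hnc ⟨S.lp v', thetaE_inc_lp S h'.1, thetaE_inc_lp S h'.1⟩

theorem opp_of_bline {M : Ln} (hM : BLine S M) {x y : Pt} (hx : I x M) (hy : I y M) (hxy : x ≠ y)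
    {v k v' k' : Fin 3 → K} (h : Over S x v k) (h' : Over S y v' k') : Opp v k v' k' :=
  ⟨lineF_opp_aux H S hM hx hy hxy h h', lineF_opp_aux H S hM hy hx hxy.symm h' h⟩

/-- a point near two different points `x, y` of a line has a neighbour on the line -/
theorem lineF_near_two {M : Ln} {x y g : Pt} (hx : I x M) (hy : I y M) (hxy : x ≠ y)
    (hn : Near I x g) (hn' : Near I y g) : ∃ z, I z M ∧ Coll I z g := by
  obtain ⟨a, hxa, hag⟩ := hn
  obtain ⟨b, hyb, hbg⟩ := hn'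
  rcases H.pent hxa hag (thetaE_coll_swap hbg) (thetaE_coll_swap hyb) ⟨M, hy, hx⟩ with
    e | e | e | e | e
  · exact ⟨x, hx, e⟩
  · rcases H.quadr hxa e (thetaE_coll_swap hyb) ⟨M, hy, hx⟩ with e' | e'
    · exact ⟨b, lineF_on_line H hx hy hxy e' (thetaE_coll_swap hyb), hbg⟩
    · exact ⟨a, lineF_on_line H hx hy hxy hxa e', hag⟩
  · exact ⟨y, hy, thetaE_coll_swap e⟩
  · exact ⟨b, lineF_on_line H hx hy hxy (thetaE_coll_swap e) (thetaE_coll_swap hyb), hbg⟩
  · exact ⟨a, lineF_on_line H hx hy hxy hxa (thetaE_coll_swap e), hag⟩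

/-- pencil axiom -/
theorem pencil {M : Ln} (hM : BLine S M) {x y : Pt} (hx : I x M) (hy : I y M) (hxy : x ≠ y)
    {r m : Fin 3 → K} (hf : IsFlag r m) (hn : Near I x (S.pt r m)) (hn' : Near I y (S.pt r m)) :
    ∃ z, I z M ∧ Over S z r m := by
  obtain ⟨z, hz, hzg⟩ := lineF_near_two H hx hy hxy hn hn'
  exact ⟨z, hz, hf, hzg⟩

theorem out_of_aline {v k : Fin 3 → K} {t : Ln} (ht : ALine S v k t) {x : Pt} (hx : I x t)
    (hne : x ≠ S.pt v k) : Out S x ∧ Over S x v k := by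
  obtain ⟨hvk, hft, h1, h2⟩ := ht
  refine ⟨?_, hvk, ⟨t, hx, hft⟩⟩
  intro a b hab e
  rw [e] at hx hne
  rcases coll_flags H S hab hvk ⟨t, hx, hft⟩ with h0 | h0
  · exact h1 (H.uniq hx hft ((S.inc_lp hab hvk.1).2 h0) (thetaE_inc_lp S hvk) hne)
  · exact h2 (H.uniq hx hft ((S.inc_ll hab hvk.2.1).2 h0) (thetaE_inc_ll S hvk) hne)

theorem lineF_not_near {v k r m : Fin 3 → K} (hvk : IsFlag v k) (hf : IsFlag r m)
    (ho : Opp v k r m) : ¬ Near I (S.pt v k) (S.pt r m) := by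
  intro hn
  rcases near_flags H S hvk hf hn with h0 | h0
  · exact ho.1 h0
  · exact ho.2 h0

theorem near_on_aline {v k r m : Fin 3 → K} {t : Ln} (ht : ALine S v k t) (hf : IsFlag r m)
    (ho : Opp v k r m) : ∃ x, I x t ∧ Out S x ∧ Over S x v k ∧ Near I x (S.pt r m) := by
  obtain ⟨y, hy, hn⟩ := H.near (S.pt r m) t
  have hn' : Near I y (S.pt r m) := lineF_near_swap H hn
  have hne : y ≠ S.pt v k := by
    intro e
    rw [e] at hn'
    exact lineF_not_near H S ht.1 hf ho hn'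
  obtain ⟨h1, h2⟩ := out_of_aline H S ht hy hne
  exact ⟨y, hy, h1, h2, hn'⟩

theorem bline_through {x : Pt} (hx : Out S x) {v k r m : Fin 3 → K} (h : Over S x v k)
    (hf : IsFlag r m) (ho : Opp v k r m) (hn : Near I x (S.pt r m)) :
    ∃ M, BLine S M ∧ I x M ∧ ∃ z, I z M ∧ Over S z r m := by
  obtain ⟨z, ⟨M, hxM, hzM⟩, hzg⟩ := hn
  refine ⟨M, ?_, hxM, z, hzM, hf, hzg⟩
  intro a b hab hI
  have h1 := over_unique H S hx h ⟨hab, M, hxM, hI⟩
  have h2 := (S.pt_eq h.1 hab).2 h1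
  rw [← h2] at hI
  exact lineF_not_near H S h.1 hf ho ⟨z, ⟨M, hI, hzM⟩, hzg⟩

theorem near_aline_unique {v k r m : Fin 3 → K} {t : Ln} (ht : ALine S v k t) (hf : IsFlag r m)
    (ho : Opp v k r m) {x y : Pt} (hx : I x t) (hy : I y t) (hn : Near I x (S.pt r m))
    (hn' : Near I y (S.pt r m)) : x = y := by
  by_contra hxy
  obtain ⟨z, hz, hzg⟩ := lineF_near_two H hx hy hxy hn hn'
  exact lineF_not_near H S ht.1 hf ho ⟨z, ⟨t, ht.2.1, hz⟩, hzg⟩

theorem aline_exists {x : Pt} (hx : Out S x) {v k : Fin 3 → K} (h : Over S x v k) :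
    ∃ t, ALine S v k t ∧ I x t := by
  obtain ⟨hvk, t, hxt, hft⟩ := h
  refine ⟨t, ⟨hvk, hft, ?_, ?_⟩, hxt⟩
  · intro e
    rw [e] at hxt
    obtain ⟨a, ha, hxa⟩ := flag_on_lp H S hvk.1 hxt
    exact hx _ _ ha hxa
  · intro e
    rw [e] at hxt
    obtain ⟨a, ha, hxa⟩ := flag_on_ll H S hvk.2.1 hxt
    exact hx _ _ ha hxa

/-- there are `q - 1` A-lines over every flag -/
theorem aline_card {v k : Fin 3 → K} (h : IsFlag v k) :
    {t | ALine S v k t}.ncard = Fintype.card K - 1 := by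
  have hset : {t | ALine S v k t} = {l | I (S.pt v k) l} \ {S.lp v, S.ll k} := by
    ext t
    simp only [Set.mem_setOf_eq, Set.mem_diff, Set.mem_insert_iff, Set.mem_singleton_iff, not_or]
    exact ⟨fun ht => ⟨ht.2.1, ht.2.2.1, ht.2.2.2⟩, fun ht => ⟨h, ht.1, ht.2.1, ht.2.2⟩⟩
  have hsub : ({S.lp v, S.ll k} : Set Ln) ⊆ {l | I (S.pt v k) l} := by
    intro l hl
    rcases hl with e | e
    · rw [e]
      exact thetaE_inc_lp S h
    · rw [Set.mem_singleton_iff.1 e]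
      exact thetaE_inc_ll S h
  rw [hset, Set.ncard_diff hsub (Set.toFinite _), H.ptCard, Set.ncard_pair (S.lp_ne_ll h.1 h.2.1)]
  omega

/-- every line is a line of the subhexagon, an A-line or a B-line -/
theorem line_cases (l : Ln) : (∃ v, v ≠ 0 ∧ l = S.lp v) ∨ (∃ k, k ≠ 0 ∧ l = S.ll k) ∨
    (∃ v k, ALine S v k l) ∨ BLine S l := by
  by_cases hB : BLine S l
  · exact Or.inr (Or.inr (Or.inr hB))
  · unfold BLine at hB
    push Not at hB
    obtain ⟨v, k, hvk, hI⟩ := hB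
    by_cases h1 : l = S.lp v
    · exact Or.inl ⟨v, hvk.1, h1⟩
    · by_cases h2 : l = S.ll k
      · exact Or.inr (Or.inl ⟨k, hvk.2.1, h2⟩)
      · exact Or.inr (Or.inr (Or.inl ⟨v, k, hvk, hI, h1, h2⟩))

end main

end Pool.Agent.Lib.MP_6b0fe3_coR
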