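import Pool.Agent.Lib.MP_6b0fe3_coR.HeisG
import Pool.Agent.Lib.MP_6b0fe3_coR.LineF
import Pool.Agent.Lib.MP_6b0fe3_coR.ClassG
import Pool.Agent.Lib.MP_6b0fe3_coR.LiftPa

/-! MP_6b0fe3_co: automorphisms acting linearly on the subhexagon; strong points -/

namespace Pool.Agent.Lib.MP_6b0fe3_coR

open Matrix

section
variable {Pt Ln : Type*} {I : Pt → Ln → Prop}

theorem isAut_mul {g h : Equiv.Perm Pt × Equiv.Perm Ln} (hg : IsAut I g) (hh : IsAut I h) :
    IsAut I (g * h) := fun x l => (hg _ _).trans (hh x l)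

theorem isAut_inv {g : Equiv.Perm Pt × Equiv.Perm Ln} (hg : IsAut I g) : IsAut I g⁻¹ := by
  intro x l
  have e1 : g.1 (g⁻¹.1 x) = x := g.1.apply_symm_apply x
  have e2 : g.2 (g⁻¹.2 l) = l := g.2.apply_symm_apply l
  have := hg (g⁻¹.1 x) (g⁻¹.2 l)
  rw [e1, e2] at this
  exact this.symm

theorem aut_coll {g : Equiv.Perm Pt × Equiv.Perm Ln} (hg : IsAut I g) {x y : Pt} :
    Coll I (g.1 x) (g.1 y) ↔ Coll I x y := by
  constructor
  · rintro ⟨l, h1, h2⟩
    refine ⟨g.2.symm l, ?_, ?_⟩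
    · rw [← hg, Equiv.apply_symm_apply]; exact h1
    · rw [← hg, Equiv.apply_symm_apply]; exact h2
  · rintro ⟨l, h1, h2⟩
    exact ⟨g.2 l, (hg _ _).2 h1, (hg _ _).2 h2⟩

theorem aut_near {g : Equiv.Perm Pt × Equiv.Perm Ln} (hg : IsAut I g) {x y : Pt} :
    Near I (g.1 x) (g.1 y) ↔ Near I x y := by
  constructor
  · rintro ⟨z, h1, h2⟩
    refine ⟨g.1.symm z, ?_, ?_⟩
    · rw [← aut_coll hg, Equiv.apply_symm_apply]; exact h1
    · rw [← aut_coll hg, Equiv.apply_symm_apply]; exact h2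
  · rintro ⟨z, h1, h2⟩
    exact ⟨g.1 z, (aut_coll hg).2 h1, (aut_coll hg).2 h2⟩

end

section
variable {K : Type*} [Field K] {Pt Ln : Type*} {I : Pt → Ln → Prop}

/-- `g` is an automorphism acting on the flags by the linear maps `A` (points), `B` (lines) -/
structure Ind (S : Sub K I) (g : Equiv.Perm Pt × Equiv.Perm Ln)
    (A B : (Fin 3 → K) ≃ₗ[K] (Fin 3 → K)) : Prop where
  aut : IsAut I g
  dual : ∀ v k, A v ⬝ᵥ B k = v ⬝ᵥ k
  act : ∀ v k, IsFlag v k → g.1 (S.pt v k) = S.pt (A v) (B k)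

variable {S : Sub K I} {g h : Equiv.Perm Pt × Equiv.Perm Ln}
  {A B A' B' : (Fin 3 → K) ≃ₗ[K] (Fin 3 → K)}

theorem Ind.flag (hg : Ind S g A B) {v k : Fin 3 → K} : IsFlag (A v) (B k) ↔ IsFlag v k := by
  unfold IsFlag
  rw [hg.dual, Ne, Ne, LinearEquiv.map_eq_zero_iff, LinearEquiv.map_eq_zero_iff]

theorem Ind.mul (hg : Ind S g A B) (hh : Ind S h A' B') :
    Ind S (g * h) (A'.trans A) (B'.trans B) where
  aut := isAut_mul hg.aut hh.aut
  dual v k := by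
    rw [LinearEquiv.trans_apply, LinearEquiv.trans_apply, hg.dual, hh.dual]
  act v k hf := by
    have e1 := hh.act v k hf
    have e2 := hg.act _ _ (hh.flag.2 hf)
    change g.1 (h.1 (S.pt v k)) = _
    rw [e1, e2]
    rfl

theorem Ind.inv (hg : Ind S g A B) : Ind S g⁻¹ A.symm B.symm where
  aut := isAut_inv hg.aut
  dual v k := by
    rw [← hg.dual, LinearEquiv.apply_symm_apply, LinearEquiv.apply_symm_apply]
  act v k hf := by
    have hf' : IsFlag (A.symm v) (B.symm k) := by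
      rw [← hg.flag, LinearEquiv.apply_symm_apply, LinearEquiv.apply_symm_apply]
      exact hf
    have e := hg.act _ _ hf'
    rw [LinearEquiv.apply_symm_apply, LinearEquiv.apply_symm_apply] at e
    rw [← e]
    exact g.1.symm_apply_apply _

theorem Ind.out (hg : Ind S g A B) {x : Pt} (hx : Out S x) : Out S (g.1 x) := by
  intro v k hf he
  have h1 := hg.inv.act v k hf
  have h2 := hg.inv.flag.2 hf
  apply hx _ _ h2
  rw [← h1, ← he]
  exact (g.1.symm_apply_apply x).symm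

theorem Ind.bline (hg : Ind S g A B) {M : Ln} (hM : BLine S M) : BLine S (g.2 M) := by
  intro v k hf hI
  have h1 := hg.inv.act v k hf
  have h2 := hg.inv.flag.2 hf
  apply hM _ _ h2
  rw [← h1]
  have := (hg.inv.aut (S.pt v k) (g.2 M)).2 hI
  have e : g⁻¹.2 (g.2 M) = M := g.2.symm_apply_apply M
  rwa [e] at this

theorem Ind.over (hg : Ind S g A B) {x : Pt} {v k : Fin 3 → K} (h : Over S x v k) :
    Over S (g.1 x) (A v) (B k) := by
  refine ⟨hg.flag.2 h.1, ?_⟩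
  rw [← hg.act v k h.1]
  exact (aut_coll hg.aut).2 h.2

/-- central elations of the flag of `x` lift to automorphisms fixing `x`, and for every B-line
through `x` the stabiliser of `x` is transitive on the other points of that line -/
def Strong (S : Sub K I) (x : Pt) : Prop :=
  (∀ v0 k0, Over S x v0 k0 → ∀ s : K, ∃ g : Equiv.Perm Pt × Equiv.Perm Ln, IsAut I g ∧
    (∀ v k, IsFlag v k →
      g.1 (S.pt v k) = S.pt (v + (s * (k0 ⬝ᵥ v)) • v0) (k - (s * (v0 ⬝ᵥ k)) • k0)) ∧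
    g.1 x = x) ∧
  (∀ M y y', BLine S M → I x M → I y M → I y' M → y ≠ x → y' ≠ x →
    ∃ g A B, Ind S g A B ∧ g.1 x = x ∧ g.1 y = y')

theorem central_flag {v0 k0 : Fin 3 → K} (h0 : k0 ⬝ᵥ v0 = 0) {v k : Fin 3 → K} (hf : IsFlag v k)
    (s : K) : IsFlag (v + (s * (k0 ⬝ᵥ v)) • v0) (k - (s * (v0 ⬝ᵥ k)) • k0) := by
  have h0' : v0 ⬝ᵥ k0 = 0 := by rw [dotProduct_comm]; exact h0
  refine ⟨?_, ?_, ?_⟩
  · intro h
    have e : k0 ⬝ᵥ (v + (s * (k0 ⬝ᵥ v)) • v0) = k0 ⬝ᵥ v := by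
      rw [dotProduct_add, dotProduct_smul, h0, smul_zero, add_zero]
    rw [h, dotProduct_zero] at e
    rw [← e, mul_zero, zero_smul, add_zero] at h
    exact hf.1 h
  · intro h
    have e : v0 ⬝ᵥ (k - (s * (v0 ⬝ᵥ k)) • k0) = v0 ⬝ᵥ k := by
      rw [dotProduct_sub, dotProduct_smul, h0', smul_zero, sub_zero]
    rw [h, dotProduct_zero] at e
    rw [← e, mul_zero, zero_smul, sub_zero] at h
    exact hf.2.1 h
  · rw [dotProduct_sub, add_dotProduct, add_dotProduct, dotProduct_smul, dotProduct_smul,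
      smul_dotProduct, smul_dotProduct, hf.2.2, h0', dotProduct_comm v k0]
    simp only [smul_eq_mul]
    ring

theorem Strong.transport (hg : Ind S g A B) {x : Pt} (h : Strong S (g.1 x)) : Strong S x := by
  obtain ⟨h1, h2⟩ := h
  refine ⟨fun v0 k0 hov s => ?_, fun M y y' hM hx hy hy' hne hne' => ?_⟩
  · obtain ⟨g', ha, hact, hfix⟩ := h1 _ _ (hg.over hov) s
    refine ⟨g⁻¹ * g' * g, isAut_mul (isAut_mul (isAut_inv hg.aut) ha) hg.aut, ?_, ?_⟩
    · intro v k hf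
      have e1 := hg.act v k hf
      have e2 := hact _ _ (hg.flag.2 hf)
      have h00 : k0 ⬝ᵥ v0 = 0 := by rw [dotProduct_comm]; exact hov.1.2.2
      have d1 : B k0 ⬝ᵥ A v = k0 ⬝ᵥ v := by rw [dotProduct_comm, hg.dual, dotProduct_comm]
      have d2 : A v0 ⬝ᵥ B k = v0 ⬝ᵥ k := hg.dual _ _
      have e3 : A v + (s * (B k0 ⬝ᵥ A v)) • A v0 = A (v + (s * (k0 ⬝ᵥ v)) • v0) := by
        rw [d1, map_add, map_smul]
      have e4 : B k - (s * (A v0 ⬝ᵥ B k)) • B k0 = B (k - (s * (v0 ⬝ᵥ k)) • k0) := by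
        rw [d2, map_sub, map_smul]
      rw [e3, e4] at e2
      have e5 := hg.act _ _ (central_flag h00 hf s)
      change g.1.symm (g'.1 (g.1 (S.pt v k))) = _
      rw [e1, e2, ← e5]
      exact g.1.symm_apply_apply _
    · change g.1.symm (g'.1 (g.1 x)) = x
      rw [hfix]
      exact g.1.symm_apply_apply _
  · obtain ⟨g', A', B', hi, hf, hm⟩ := h2 (g.2 M) (g.1 y) (g.1 y') (hg.bline hM)
      ((hg.aut _ _).2 hx) ((hg.aut _ _).2 hy) ((hg.aut _ _).2 hy')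
      (fun h => hne (g.1.injective h)) (fun h => hne' (g.1.injective h))
    refine ⟨g⁻¹ * (g' * g), _, _, hg.inv.mul (hi.mul hg), ?_, ?_⟩
    · change g.1.symm (g'.1 (g.1 x)) = x
      rw [hf]
      exact g.1.symm_apply_apply _
    · change g.1.symm (g'.1 (g.1 y)) = y'
      rw [hm]
      exact g.1.symm_apply_apply _

/-- the class form of `theta` from the central lifts -/
theorem Strong.near_class [Fintype K] (H : Hex I (Fintype.card K)) {x : Pt}
    (hS : Strong S x) {v k r m r' : Fin 3 → K}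
    (h : Over S x v k) (hf : IsFlag r m) (hn : Near I x (S.pt r m)) (hr : r ⬝ᵥ k ≠ 0)
    (hr' : r' ⬝ᵥ k ≠ 0) (hdet : v ⬝ᵥ (r ⨯₃ r') = 0) :
    Near I x (S.pt r' (r' ⨯₃ (m ⨯₃ k))) := by
  -- `r' = c (r + τ v)`
  have hr0 : r ≠ 0 := hf.1
  have hv0 : v ≠ 0 := h.1.1
  have hvr : v ⨯₃ r ≠ 0 := by
    intro h0
    obtain ⟨c, hc0, hc1⟩ := (cross_eq_zero_iff hv0 hr0).1 h0
    rw [hc1, smul_dotProduct, h.1.2.2, smul_zero] at hr
    exact hr rfl
  have hr'2 : r' ⬝ᵥ (v ⨯₃ r) = 0 := by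
    have : r' ⬝ᵥ (v ⨯₃ r) = v ⬝ᵥ (r ⨯₃ r') := by
      rw [cross_apply', cross_apply', dot3, dot3]
      simp
      ring
    rw [this, hdet]
  obtain ⟨α, β, hαβ⟩ := exists_comb hvr hr'2
  have hrk : r' ⬝ᵥ k = β * (r ⬝ᵥ k) := by
    rw [hαβ, add_dotProduct, smul_dotProduct, smul_dotProduct, h.1.2.2, smul_zero, zero_add,
      smul_eq_mul]
  have hβ : β ≠ 0 := by
    rintro rfl
    rw [zero_mul] at hrk
    exact hr' hrk
  -- the lift
  obtain ⟨g, hg, hgf, hgx⟩ := hS.1 v k h (α / β / (r ⬝ᵥ k))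
  have hgn : Near I x (g.1 (S.pt r m)) := by
    have := (aut_near hg).2 hn
    rwa [hgx] at this
  rw [hgf r m hf] at hgn
  have e1 : r + (α / β / (r ⬝ᵥ k) * (k ⬝ᵥ r)) • v = β⁻¹ • r' := by
    rw [dotProduct_comm k r, div_mul_cancel₀ _ hr, hαβ, smul_add, smul_smul, smul_smul,
      inv_mul_cancel₀ hβ, one_smul, div_eq_inv_mul, add_comm]
  have hrm : r' ⬝ᵥ m = α * (v ⬝ᵥ m) := by
    rw [hαβ, add_dotProduct, smul_dotProduct, smul_dotProduct, hf.2.2, smul_zero, add_zero,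
      smul_eq_mul]
  have e2 : m - (α / β / (r ⬝ᵥ k) * (v ⬝ᵥ m)) • k = (r' ⬝ᵥ k)⁻¹ • (r' ⨯₃ (m ⨯₃ k)) := by
    rw [cross_cross_right, smul_sub, smul_smul, smul_smul, inv_mul_cancel₀ hr', one_smul, hrk, hrm]
    congr 2
    field_simp
  rw [e1, e2] at hgn
  have hf' : IsFlag (β⁻¹ • r') ((r' ⬝ᵥ k)⁻¹ • (r' ⨯₃ (m ⨯₃ k))) := by
    have hr'0 : r' ≠ 0 := by
      rintro rfl
      rw [zero_dotProduct] at hr'
      exact hr' rfl
    refine ⟨smul_ne_zero (inv_ne_zero hβ) hr'0, ?_, ?_⟩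
    · rw [← e2]
      intro h0
      have h1 : m = (α / β / (r ⬝ᵥ k) * (v ⬝ᵥ m)) • k := sub_eq_zero.1 h0
      have h2 := hf.2.2
      rw [h1, dotProduct_smul, smul_eq_mul, mul_eq_zero] at h2
      rcases h2 with h2 | h2
      · rw [h2, zero_smul] at h1
        exact hf.2.1 h1
      · exact hr h2
    · rw [smul_dotProduct, dotProduct_smul, dot_self_cross]
      simp
  have hf'' : IsFlag r' (r' ⨯₃ (m ⨯₃ k)) := by
    have := (pt_smul' S hf' (a := β) (b := r' ⬝ᵥ k) hβ hr').1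
    rwa [smul_smul, smul_smul, mul_inv_cancel₀ hβ, mul_inv_cancel₀ hr', one_smul, one_smul] at this
  rw [(pt_smul' S hf'' (inv_ne_zero hβ) (inv_ne_zero hr')).2] at hgn
  exact hgn

end

end Pool.Agent.Lib.MP_6b0fe3_coR
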