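import Pool.Agent.Lib.MP_6b0fe3_coR.TauC

/-! MP_6b0fe3_co, L2: a change of basis makes the parameter of the B-lines equal to `1` -/

namespace Pool.Agent.Lib.MP_6b0fe3_coR

open Matrix

section alg
variable {K : Type*} [Field K]

/-- the diagonal map on points -/
def sA (δ : K) (v : Fin 3 → K) : Fin 3 → K := ![v 0, v 1, δ * v 2]

/-- the diagonal map on lines -/
def sB (δ : K) (k : Fin 3 → K) : Fin 3 → K := ![k 0, k 1, δ⁻¹ * k 2]

theorem sA_dot {δ : K} (hδ : δ ≠ 0) (v k : Fin 3 → K) : sA δ v ⬝ᵥ sB δ k = v ⬝ᵥ k := by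
  rw [dot3, dot3]
  simp only [sA, sB, Matrix.cons_val_zero, Matrix.cons_val_one, Matrix.cons_val]
  field_simp

theorem sB_dot {δ : K} (hδ : δ ≠ 0) (k v : Fin 3 → K) : sB δ k ⬝ᵥ sA δ v = k ⬝ᵥ v := by
  rw [dotProduct_comm, sA_dot hδ, dotProduct_comm]

theorem sA_cross {δ : K} (hδ : δ ≠ 0) (w v : Fin 3 → K) :
    sA δ w ⨯₃ sA δ v = δ • sB δ (w ⨯₃ v) := by
  ext i
  simp only [cross_apply', sA, sB]
  fin_cases i <;> simp <;> field_simp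

theorem sB_cross {δ : K} (hδ : δ ≠ 0) (w v : Fin 3 → K) :
    sB δ w ⨯₃ sB δ v = δ⁻¹ • sA δ (w ⨯₃ v) := by
  ext i
  simp only [cross_apply', sA, sB]
  fin_cases i <;> simp <;> field_simp

theorem sA_zero_iff {δ : K} (hδ : δ ≠ 0) {v : Fin 3 → K} : sA δ v = 0 ↔ v = 0 := by
  constructor
  · intro h
    have h0 := congrFun h 0
    have h1 := congrFun h 1
    have h2 := congrFun h 2
    simp only [sA, Matrix.cons_val_zero, Matrix.cons_val_one, Matrix.cons_val, Pi.zero_apply]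
      at h0 h1 h2
    funext i
    fin_cases i
    · exact h0
    · exact h1
    · exact (mul_eq_zero.1 h2).resolve_left hδ
  · rintro rfl
    funext i
    fin_cases i <;> simp [sA]

theorem sB_eq_sA (δ : K) (v : Fin 3 → K) : sB δ v = sA δ⁻¹ v := rfl

theorem sB_zero_iff {δ : K} (hδ : δ ≠ 0) {v : Fin 3 → K} : sB δ v = 0 ↔ v = 0 := by
  rw [sB_eq_sA]
  exact sA_zero_iff (inv_ne_zero hδ)

theorem sA_add_smul (δ c : K) (v u : Fin 3 → K) : sA δ (v + c • u) = sA δ v + c • sA δ u := by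
  funext i
  fin_cases i <;> simp [sA]
  ring

theorem sA_sub_smul (δ c : K) (v u : Fin 3 → K) : sA δ (v - c • u) = sA δ v - c • sA δ u := by
  funext i
  fin_cases i <;> simp [sA]
  ring

theorem sA_inv {δ : K} (hδ : δ ≠ 0) (v : Fin 3 → K) : sA δ (sA δ⁻¹ v) = v := by
  funext i
  fin_cases i <;> simp [sA, hδ]

theorem sA_surj {δ : K} (hδ : δ ≠ 0) (v : Fin 3 → K) : ∃ u, v = sA δ u :=
  ⟨sA δ⁻¹ v, (sA_inv hδ v).symm⟩

theorem sB_surj {δ : K} (hδ : δ ≠ 0) (v : Fin 3 → K) : ∃ u, v = sB δ u := by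
  obtain ⟨u, hu⟩ := sA_surj (inv_ne_zero hδ) v
  exact ⟨u, hu⟩

theorem sA_cross_zero {δ : K} (hδ : δ ≠ 0) {w v : Fin 3 → K} :
    sA δ w ⨯₃ sA δ v = 0 ↔ w ⨯₃ v = 0 := by
  rw [sA_cross hδ, smul_eq_zero, sB_zero_iff hδ]
  exact ⟨fun h => h.resolve_left hδ, Or.inr⟩

theorem sB_cross_zero {δ : K} (hδ : δ ≠ 0) {w v : Fin 3 → K} :
    sB δ w ⨯₃ sB δ v = 0 ↔ w ⨯₃ v = 0 := by
  rw [sB_eq_sA, sB_eq_sA]
  exact sA_cross_zero (inv_ne_zero hδ)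

theorem s_flag_iff {δ : K} (hδ : δ ≠ 0) {v k : Fin 3 → K} :
    IsFlag (sA δ v) (sB δ k) ↔ IsFlag v k := by
  unfold IsFlag
  rw [Ne, Ne, sA_zero_iff hδ, sB_zero_iff hδ, sA_dot hδ]

end alg

section tw
variable {K : Type*} [Field K] {Pt Ln : Type*} {I : Pt → Ln → Prop}

/-- the subhexagon in other coordinates -/
def Sub.tw (S : Sub K I) {δ : K} (hδ : δ ≠ 0) : Sub K I where
  pt v k := S.pt (sA δ v) (sB δ k)
  lp v := S.lp (sA δ v)
  ll k := S.ll (sB δ k)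
  pt_eq {v k v' k'} h h' := by
    rw [S.pt_eq ((s_flag_iff hδ).2 h) ((s_flag_iff hδ).2 h'), sA_cross_zero hδ, sB_cross_zero hδ]
  inc_lp {v k u} h hu := by
    rw [S.inc_lp ((s_flag_iff hδ).2 h) (fun e => hu ((sA_zero_iff hδ).1 e)), sA_cross_zero hδ]
  inc_ll {v k m} h hm := by
    rw [S.inc_ll ((s_flag_iff hδ).2 h) (fun e => hm ((sB_zero_iff hδ).1 e)), sB_cross_zero hδ]
  lp_eq {u u'} hu hu' := by
    rw [S.lp_eq (fun e => hu ((sA_zero_iff hδ).1 e)) (fun e => hu' ((sA_zero_iff hδ).1 e)),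
      sA_cross_zero hδ]
  ll_eq {m m'} hm hm' := by
    rw [S.ll_eq (fun e => hm ((sB_zero_iff hδ).1 e)) (fun e => hm' ((sB_zero_iff hδ).1 e)),
      sB_cross_zero hδ]
  lp_ne_ll {u m} hu hm :=
    S.lp_ne_ll (fun e => hu ((sA_zero_iff hδ).1 e)) (fun e => hm ((sB_zero_iff hδ).1 e))

variable (S : Sub K I) {δ : K} (hδ : δ ≠ 0)

theorem tw_bline {M : Ln} : BLine (S.tw hδ) M ↔ BLine S M := by
  constructor
  · intro h v k hf
    obtain ⟨v', rfl⟩ := sA_surj hδ v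
    obtain ⟨k', rfl⟩ := sB_surj hδ k
    exact h v' k' ((s_flag_iff hδ).1 hf)
  · intro h v k hf
    exact h _ _ ((s_flag_iff hδ).2 hf)

/-- the elations lift in the new coordinates -/
theorem tw_hel (hel : ∀ u m : Fin 3 → K, u ⬝ᵥ m = 0 →
      ∃ g : Equiv.Perm Pt × Equiv.Perm Ln, IsAut I g ∧
      ∀ v k, IsFlag v k → g.1 (S.pt v k) = S.pt (v + (m ⬝ᵥ v) • u) (k - (u ⬝ᵥ k) • m)) :
    ∀ u m : Fin 3 → K, u ⬝ᵥ m = 0 → ∃ g : Equiv.Perm Pt × Equiv.Perm Ln, IsAut I g ∧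
      ∀ v k, IsFlag v k →
        g.1 ((S.tw hδ).pt v k) = (S.tw hδ).pt (v + (m ⬝ᵥ v) • u) (k - (u ⬝ᵥ k) • m) := by
  intro u m hum
  obtain ⟨g, hg, hgf⟩ := hel (sA δ u) (sB δ m) (by rw [sA_dot hδ, hum])
  refine ⟨g, hg, fun v k hf => ?_⟩
  change g.1 (S.pt (sA δ v) (sB δ k)) =
    S.pt (sA δ (v + (m ⬝ᵥ v) • u)) (sB δ (k - (u ⬝ᵥ k) • m))
  rw [hgf _ _ ((s_flag_iff hδ).2 hf), sB_dot hδ, sA_dot hδ, sA_add_smul, sB_eq_sA, sB_eq_sA,
    sB_eq_sA, sA_sub_smul]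

/-- coordinates with parameter `δ` become standard coordinates -/
theorem tw_std {M : Ln} {w ψ : Fin 3 → K} (h : StdT S δ M w ψ) :
    ∃ w' ψ', Std (S.tw hδ) M w' ψ' := by
  obtain ⟨w', rfl⟩ := sA_surj hδ w
  obtain ⟨ψ', rfl⟩ := sB_surj hδ ψ
  refine ⟨w', ψ', by rw [← sB_dot hδ]; exact h.1, ?_⟩
  intro v hv hψv
  have hv' : sA δ v ≠ 0 := fun e => hv ((sA_zero_iff hδ).1 e)
  obtain ⟨x, hx, ho, hn⟩ := h.2 (sA δ v) hv' (by rw [sB_dot hδ, hψv])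
  have hc := sA_cross hδ w' v
  rw [hc] at ho hn
  have hfl : IsFlag (sA δ v) (sB δ (w' ⨯₃ v)) := by
    obtain ⟨h1, h2, h3⟩ := ho.1
    refine ⟨h1, right_ne_zero_of_smul h2, ?_⟩
    rw [dotProduct_smul, smul_eq_mul] at h3
    exact (mul_eq_zero.1 h3).resolve_left hδ
  have hpt : S.pt (sA δ v) (δ • sB δ (w' ⨯₃ v)) = S.pt (sA δ v) (sB δ (w' ⨯₃ v)) := by
    refine (S.pt_eq ho.1 hfl).2 ⟨cross_self _, ?_⟩
    rw [map_smul, LinearMap.smul_apply, cross_self, smul_zero]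
  refine ⟨x, hx, ⟨(s_flag_iff hδ).1 hfl, ?_⟩, ?_⟩
  · have := ho.2
    rw [hpt] at this
    exact this
  · intro r m hf hopp
    have hf' : IsFlag (sA δ r) (sB δ m) := (s_flag_iff hδ).2 hf
    have hopp' : Opp (sA δ v) (δ • sB δ (w' ⨯₃ v)) (sA δ r) (sB δ m) := by
      refine ⟨by rw [sA_dot hδ]; exact hopp.1, ?_⟩
      rw [dotProduct_smul, sA_dot hδ, smul_eq_mul]
      exact mul_ne_zero hδ hopp.2
    have h1 := hn _ _ hf' hopp'
    rw [smul_dotProduct, sB_dot hδ, sB_dot hδ, sB_dot hδ, sB_dot hδ, smul_eq_mul] at h1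
    change Near I x (S.pt (sA δ r) (sB δ m)) ↔ _
    rw [h1, mul_assoc]
    exact mul_right_inj' hδ

end tw

section main
variable {K : Type*} [Field K] [Fintype K] {Pt Ln : Type*} {I : Pt → Ln → Prop}

/-- if all elations lift, all B-lines have standard coordinates for a suitable description of the
subhexagon, for which the elations still lift (any finite field) -/
theorem exists_std_basis (H : Hex I (Fintype.card K)) (S : Sub K I)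
    (hel : ∀ u m : Fin 3 → K, u ⬝ᵥ m = 0 → ∃ g : Equiv.Perm Pt × Equiv.Perm Ln, IsAut I g ∧
      ∀ v k, IsFlag v k → g.1 (S.pt v k) = S.pt (v + (m ⬝ᵥ v) • u) (k - (u ⬝ᵥ k) • m)) :
    ∃ S' : Sub K I, (∀ u m : Fin 3 → K, u ⬝ᵥ m = 0 →
      ∃ g : Equiv.Perm Pt × Equiv.Perm Ln, IsAut I g ∧
      ∀ v k, IsFlag v k → g.1 (S'.pt v k) = S'.pt (v + (m ⬝ᵥ v) • u) (k - (u ⬝ᵥ k) • m)) ∧
      ∀ M, BLine S' M → ∃ w ψ, Std S' M w ψ := by
  have hZ : ∀ v0 k0 : Fin 3 → K, IsFlag v0 k0 → ∀ x, Out S x → Over S x v0 k0 → ∀ s : K,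
      ∃ g : Equiv.Perm Pt × Equiv.Perm Ln, IsAut I g ∧
      (∀ v k, IsFlag v k →
        g.1 (S.pt v k) = S.pt (v + (s * (k0 ⬝ᵥ v)) • v0) (k - (s * (v0 ⬝ᵥ k)) • k0)) ∧
      g.1 x = x := fun v0 k0 _ x hx hov s => (all_strong H S hel (y := x) hx).1 v0 k0 hov s
  have hLB : LB S := by
    refine LB_of_near_class H S ?_
    intro x hx v r k m r' h hf hn hr hr' hdet
    exact near_class_of_lifts H S hZ hx h hf hn hr hr' hdet
  obtain ⟨τ, hτ, hstd⟩ := tau_const H S hLB hZ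
  refine ⟨S.tw hτ, tw_hel S hτ hel, ?_⟩
  intro M hM
  obtain ⟨w, ψ, h⟩ := hstd M ((tw_bline S hτ).1 hM)
  exact tw_std S hτ h

end main

end Pool.Agent.Lib.MP_6b0fe3_coR
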