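import Pool.Agent.Lib.MP_6b0fe3_coR.ConstK

/-! MP_6b0fe3_co, recognition theorem: standard coordinates, general finite field -/

namespace Pool.Agent.Lib.MP_6b0fe3_coR

open Matrix

section main
variable {K : Type*} [Field K] [Fintype K] {Pt Ln : Type*} {I : Pt → Ln → Prop}
variable (H : Hex I (Fintype.card K)) (S : Sub K I)
include H

omit H in
/-- cubing is surjective if it is injective at `1` -/
theorem cube_surj (h3 : ∀ c : K, c ^ 3 = 1 → c = 1) {s : K} (hs : s ≠ 0) :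
    ∃ l : K, l ≠ 0 ∧ l ^ 3 = s := by
  have hinj : Function.Injective fun x : K => x ^ 3 := by
    intro x y hxy
    have hxy' : x ^ 3 = y ^ 3 := hxy
    by_cases hy : y = 0
    · rw [hy] at hxy' ⊢
      rw [zero_pow (by norm_num)] at hxy'
      exact pow_eq_zero_iff (by norm_num) |>.1 hxy'
    · have h1 : (x / y) ^ 3 = 1 := by
        rw [div_pow, hxy', div_self (pow_ne_zero 3 hy)]
      have h2 := h3 _ h1
      rw [div_eq_one_iff_eq hy] at h2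
      exact h2
  obtain ⟨l, hl⟩ := (Finite.injective_iff_surjective.1 hinj) s
  have hl' : l ^ 3 = s := hl
  refine ⟨l, ?_, hl'⟩
  rintro rfl
  rw [zero_pow (by norm_num)] at hl'
  exact hs hl'.symm

theorem near_iffG (hLB : LB S) {M : Ln} (hM : BLine S M) {w ψ : Fin 3 → K}
    (hψ : ψ ⬝ᵥ w = 1)
    (hb : ∀ v, v ≠ 0 → ψ ⬝ᵥ v = 0 → ∃ x, I x M ∧ Over S x v (w ⨯₃ v)) {σ : K} (hσ : σ ≠ 0)
    (hc : ∀ v x, v ≠ 0 → ψ ⬝ᵥ v = 0 → I x M → Over S x v (w ⨯₃ v) →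
      ∀ r, (ψ + w ⨯₃ v) ⬝ᵥ r = 0 → (w ⨯₃ v) ⬝ᵥ r ≠ 0 →
      Near I x (S.pt r (r ⨯₃ (w + σ • v)))) :
    ∀ v x, v ≠ 0 → ψ ⬝ᵥ v = 0 → I x M → Over S x v (w ⨯₃ v) →
    ∀ r m, IsFlag r m → Opp v (w ⨯₃ v) r m →
      (Near I x (S.pt r m) ↔ (w ⨯₃ v) ⬝ᵥ r * (m ⬝ᵥ w) = σ * (ψ ⬝ᵥ r * (m ⬝ᵥ v))) := by
  intro v x hv0 hv hx hxo r m hf hopp
  have hox := out_of_bline H S hM hx
  have hb0 : (w ⨯₃ v) ⬝ᵥ r ≠ 0 := by rw [dotProduct_comm]; exact hopp.2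
  have hmr : m ⬝ᵥ r = 0 := by rw [dotProduct_comm]; exact hf.2.2
  by_cases ha : ψ ⬝ᵥ r = 0
  · -- `r` on `ψ`
    obtain ⟨y, hy, hyo⟩ := hb r hf.1 ha
    have hn : Near I x (S.pt r (w ⨯₃ r)) := ⟨y, ⟨M, hx, hy⟩, hyo.2⟩
    have e : m ⨯₃ (w ⨯₃ r) = (-(m ⬝ᵥ w)) • r := by
      rw [cross_cross_right, hmr, zero_smul, zero_sub, neg_smul]
    rw [ha, zero_mul, mul_zero]
    constructor
    · intro h
      have h1 := theta_unique H S hox hxo hopp.2 hf hyo.1 h hn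
      rw [e] at h1
      rcases smul_eq_zero.1 h1 with h2 | h2
      · rw [neg_eq_zero.1 h2, mul_zero]
      · exact absurd h2 hf.1
    · intro h
      have h2 : m ⬝ᵥ w = 0 := (mul_eq_zero.1 h).resolve_left hb0
      have h3 : S.pt r m = S.pt r (w ⨯₃ r) := by
        refine (S.pt_eq hf hyo.1).2 ⟨cross_self r, ?_⟩
        rw [e, h2, neg_zero, zero_smul]
      rw [h3]
      exact hn
  · -- `r` not on `ψ`
    set μ : K := -(ψ ⬝ᵥ r) / ((w ⨯₃ v) ⬝ᵥ r) with hμ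
    have hμ0 : μ ≠ 0 := div_ne_zero (neg_ne_zero.2 ha) hb0
    have hμb : μ * ((w ⨯₃ v) ⬝ᵥ r) = -(ψ ⬝ᵥ r) := div_mul_cancel₀ _ hb0
    have hcr : w ⨯₃ (μ • v) = μ • (w ⨯₃ v) := by rw [map_smul]
    have hv1 : ψ ⬝ᵥ (μ • v) = 0 := by rw [dotProduct_smul, hv, smul_zero]
    have hv10 : μ • v ≠ 0 := smul_ne_zero hμ0 hv0
    have p1 := pt_smul' S hxo.1 (a := μ) (b := μ) hμ0 hμ0
    rw [← hcr] at p1
    have hxo1 : Over S x (μ • v) (w ⨯₃ (μ • v)) := over_of_pt_eq S hxo p1.1 p1.2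
    have hb1 : (w ⨯₃ (μ • v)) ⬝ᵥ r = -(ψ ⬝ᵥ r) := by
      rw [hcr, smul_dotProduct, smul_eq_mul, hμb]
    have hn := hc (μ • v) x hv10 hv1 hx hxo1 r (by rw [add_dotProduct, hb1, add_neg_cancel])
      (by rw [hb1]; exact neg_ne_zero.2 ha)
    have hf1 : IsFlag r (r ⨯₃ (w + σ • (μ • v))) := constK_flag hψ hv1 σ (by
      rw [hb1]; exact neg_ne_zero.2 ha)
    have e : m ⨯₃ (r ⨯₃ (w + σ • (μ • v))) = (m ⬝ᵥ w + σ * (μ * (m ⬝ᵥ v))) • r := by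
      rw [cross_cross_right, hmr, zero_smul, sub_zero, dotProduct_add, dotProduct_smul,
        dotProduct_smul, smul_eq_mul, smul_eq_mul]
    have hiff : m ⬝ᵥ w + σ * (μ * (m ⬝ᵥ v)) = 0 ↔
        (w ⨯₃ v) ⬝ᵥ r * (m ⬝ᵥ w) = σ * (ψ ⬝ᵥ r * (m ⬝ᵥ v)) := by
      constructor
      · intro h
        linear_combination ((w ⨯₃ v) ⬝ᵥ r) * h - σ * (m ⬝ᵥ v) * hμb
      · intro h
        apply mul_left_cancel₀ hb0
        rw [mul_zero]
        linear_combination h + σ * (m ⬝ᵥ v) * hμb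
    rw [← hiff]
    constructor
    · intro h
      have h1 := theta_unique H S hox hxo hopp.2 hf hf1 h hn
      rw [e] at h1
      exact (smul_eq_zero.1 h1).resolve_right hf.1
    · intro h
      have h3 : S.pt r m = S.pt r (r ⨯₃ (w + σ • (μ • v))) := by
        refine (S.pt_eq hf hf1).2 ⟨cross_self r, ?_⟩
        rw [e, h, zero_smul]
      rw [h3]
      exact hn

theorem std_existsG (hLB : LB S) (h3 : ∀ c : K, c ^ 3 = 1 → c = 1) {M : Ln} (hM : BLine S M)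
    (hsig : ∀ w ψ : Fin 3 → K, ψ ⬝ᵥ w = 1 →
      (∀ v, v ≠ 0 → ψ ⬝ᵥ v = 0 → ∃ x, I x M ∧ Over S x v (w ⨯₃ v)) →
      ∃ σ : K, σ ≠ 0 ∧ ∀ v x, v ≠ 0 → ψ ⬝ᵥ v = 0 → I x M → Over S x v (w ⨯₃ v) →
        ∀ r, (ψ + w ⨯₃ v) ⬝ᵥ r = 0 → (w ⨯₃ v) ⬝ᵥ r ≠ 0 →
        Near I x (S.pt r (r ⨯₃ (w + σ • v)))) :
    ∃ w ψ, Std S M w ψ := by
  obtain ⟨w, ψ, hψ, hb⟩ := base_exists H S hLB hM
  obtain ⟨σ, hσ, hc⟩ := hsig w ψ hψ hb
  have hnear := near_iffG H S hLB hM hψ hb hσ hc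
  obtain ⟨l, hl0, hl⟩ := cube_surj h3 (inv_ne_zero hσ)
  have hl3 : l * l * l * σ = 1 := by
    have : l * l * l = σ⁻¹ := by rw [← hl]; ring
    rw [this, inv_mul_cancel₀ hσ]
  have hcr : ∀ v, (l • w) ⨯₃ v = l • (w ⨯₃ v) := by
    intro v
    rw [map_smul, LinearMap.smul_apply]
  refine ⟨l • w, l⁻¹ • ψ, ?_, ?_⟩
  · rw [smul_dotProduct, dotProduct_smul, hψ, smul_eq_mul, smul_eq_mul, mul_one,
      inv_mul_cancel₀ hl0]
  · intro v hv0 hv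
    have hv' : ψ ⬝ᵥ v = 0 := by
      rw [smul_dotProduct, smul_eq_mul] at hv
      exact (mul_eq_zero.1 hv).resolve_left (inv_ne_zero hl0)
    obtain ⟨x, hx, hxo⟩ := hb v hv0 hv'
    have p1 := pt_smul' S hxo.1 (a := 1) (b := l) one_ne_zero hl0
    rw [one_smul, ← hcr] at p1
    refine ⟨x, hx, over_of_pt_eq S hxo p1.1 p1.2, ?_⟩
    intro r m hf hopp
    have hopp' : Opp v (w ⨯₃ v) r m := by
      refine ⟨hopp.1, ?_⟩
      have := hopp.2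
      rw [hcr, dotProduct_smul, smul_eq_mul] at this
      exact right_ne_zero_of_mul this
    rw [hnear v x hv0 hv' hx hxo r m hf hopp', hcr, smul_dotProduct, smul_dotProduct,
      dotProduct_smul, smul_eq_mul, smul_eq_mul, smul_eq_mul]
    have hll : l * l⁻¹ = 1 := mul_inv_cancel₀ hl0
    constructor
    · intro h
      apply mul_left_cancel₀ hl0
      linear_combination (l * l * l) * h + (ψ ⬝ᵥ r * (m ⬝ᵥ v)) * hl3
        - (ψ ⬝ᵥ r * (m ⬝ᵥ v)) * hll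
    · intro h
      apply mul_left_cancel₀ (mul_ne_zero (mul_ne_zero hl0 hl0) hl0)
      linear_combination l * h - (ψ ⬝ᵥ r * (m ⬝ᵥ v)) * hl3
        + (ψ ⬝ᵥ r * (m ⬝ᵥ v)) * hll

end main

end Pool.Agent.Lib.MP_6b0fe3_coR
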