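import Pool.Agent.Lib.MP_6b0fe3_coR.SigmaI
import Pool.Agent.Lib.MP_6b0fe3_coR.TheoremR

/-! MP_6b0fe3_co, recognition theorem: sigma is constant; standard coordinates -/

namespace Pool.Agent.Lib.MP_6b0fe3_coR

open Matrix

section general
variable {K : Type*} [Field K]

/-- if `ψ·w = 1` there is a basis `e1, e2` of `ker ψ` with `w·(e1 × e2) = -1` -/
theorem constK_basis {w ψ : Fin 3 → K} (hψ : ψ ⬝ᵥ w = 1) :
    ∃ e1 e2 : Fin 3 → K, ψ ⬝ᵥ e1 = 0 ∧ ψ ⬝ᵥ e2 = 0 ∧ w ⬝ᵥ (e1 ⨯₃ e2) = -1 := by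
  obtain ⟨e1, he10, he1, -⟩ := exists_orth ψ ψ
  have hw0 : w ≠ 0 := by
    rintro rfl
    rw [dotProduct_zero] at hψ
    exact zero_ne_one hψ
  have hφ : w ⨯₃ e1 ≠ 0 := by
    intro h0
    obtain ⟨c, hc0, hc1⟩ := (cross_eq_zero_iff hw0 he10).1 h0
    rw [hc1, dotProduct_smul, hψ, smul_eq_mul, mul_one] at he1
    exact hc0 he1
  obtain ⟨e, he⟩ := exists_dot_one hφ
  refine ⟨e1, (ψ ⬝ᵥ e) • w - e, he1, ?_, ?_⟩
  · rw [dotProduct_sub, dotProduct_smul, hψ, smul_eq_mul, mul_one, sub_self]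
  · have h1 : w ⬝ᵥ (e1 ⨯₃ ((ψ ⬝ᵥ e) • w - e)) = (w ⨯₃ e1) ⬝ᵥ ((ψ ⬝ᵥ e) • w - e) := by
      generalize (ψ ⬝ᵥ e) • w - e = u
      rw [cross_apply', cross_apply', dot3, dot3]
      simp
      ring
    have h2 : (w ⨯₃ e1) ⬝ᵥ w = 0 := by rw [dotProduct_comm]; exact dot_self_cross w e1
    rw [h1, dotProduct_sub, dotProduct_smul, h2, he, smul_zero, zero_sub]

theorem constK_flag {w ψ : Fin 3 → K} (hψ : ψ ⬝ᵥ w = 1) {u r : Fin 3 → K} (hu : ψ ⬝ᵥ u = 0)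
    (τ : K) (hr : (w ⨯₃ u) ⬝ᵥ r ≠ 0) : IsFlag r (r ⨯₃ (w + τ • u)) := by
  have hr0 : r ≠ 0 := by
    rintro rfl
    rw [dotProduct_zero] at hr
    exact hr rfl
  have t1 : (w ⨯₃ u) ⬝ᵥ w = 0 := by rw [dotProduct_comm]; exact dot_self_cross w u
  have t2 : (w ⨯₃ u) ⬝ᵥ u = 0 := by rw [dotProduct_comm]; exact dot_cross_self w u
  refine ⟨hr0, ?_, dot_self_cross r _⟩
  intro h0
  have hne : w + τ • u ≠ 0 := by
    intro h5
    have : ψ ⬝ᵥ (w + τ • u) = 1 := by rw [dotProduct_add, dotProduct_smul, hu, hψ]; simp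
    rw [h5, dotProduct_zero] at this
    exact zero_ne_one this
  obtain ⟨c, hc0, hc1⟩ := (cross_eq_zero_iff hne hr0).1 (cross_zero_symm h0)
  apply hr
  rw [hc1, dotProduct_smul, dotProduct_add, dotProduct_smul, t1, t2]
  simp

end general

section prime
variable {p : ℕ} [Fact p.Prime] {Pt Ln : Type*} {I : Pt → Ln → Prop}
variable (H : Hex I p) (S : Sub (ZMod p) I)
include H

omit [Fact p.Prime] H in
/-- cubing is surjective on the nonzero elements if `p % 3 ≠ 1` -/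
theorem constK_cube [Fact p.Prime] (h3 : p % 3 ≠ 1) {s : ZMod p} (hs : s ≠ 0) :
    ∃ l : ZMod p, l ≠ 0 ∧ l ^ 3 = s := by
  have hp := (Fact.out : p.Prime)
  have hp1 := hp.one_lt
  have hcop : (Nat.card (ZMod p)ˣ).Coprime 3 := by
    rw [Nat.card_eq_fintype_card, ZMod.card_units_eq_totient, Nat.totient_prime hp]
    refine Nat.Coprime.symm ((Nat.Prime.coprime_iff_not_dvd Nat.prime_three).2 ?_)
    omega
  refine ⟨((powCoprime hcop).symm (Units.mk0 s hs) : (ZMod p)ˣ), Units.ne_zero _, ?_⟩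
  have h : (powCoprime hcop) ((powCoprime hcop).symm (Units.mk0 s hs)) = Units.mk0 s hs :=
    Equiv.apply_symm_apply _ _
  rw [powCoprime_apply] at h
  have h2 := congrArg (Units.val) h
  rw [Units.val_pow_eq_pow_val] at h2
  exact h2

/-! K: sigma is constant, standard coordinates -/

theorem sigma_const (hLB : LB S) {M : Ln} (hM : BLine S M) {w ψ : Fin 3 → ZMod p}
    (hψ : ψ ⬝ᵥ w = 1)
    (hb : ∀ v, v ≠ 0 → ψ ⬝ᵥ v = 0 → ∃ x, I x M ∧ Over S x v (w ⨯₃ v)) :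
    ∃ σ : ZMod p, σ ≠ 0 ∧ ∀ v x, v ≠ 0 → ψ ⬝ᵥ v = 0 → I x M → Over S x v (w ⨯₃ v) →
      ∀ r, (ψ + w ⨯₃ v) ⬝ᵥ r = 0 → (w ⨯₃ v) ⬝ᵥ r ≠ 0 →
      Near I x (S.pt r (r ⨯₃ (w + σ • v))) := by
  have H' : Hex I (Fintype.card (ZMod p)) := by rw [ZMod.card]; exact H
  have key : ∀ v : Fin 3 → ZMod p, v ≠ 0 → ψ ⬝ᵥ v = 0 → ∃ σ : ZMod p, σ ≠ 0 ∧ ∀ x, I x M →
      Over S x v (w ⨯₃ v) → ∀ r, (ψ + w ⨯₃ v) ⬝ᵥ r = 0 → (w ⨯₃ v) ⬝ᵥ r ≠ 0 →
      Near I x (S.pt r (r ⨯₃ (w + σ • v))) := by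
    intro v hv0 hv
    obtain ⟨x, hx, hxo⟩ := hb v hv0 hv
    obtain ⟨σ, hσ, hall⟩ := sigma_exists H' S hLB hM hψ hb hv hx hxo
    refine ⟨σ, hσ, ?_⟩
    intro y hy hyo
    have hxy : x = y := by
      by_contra hne
      have := (opp_of_bline H' S hM hx hy hne hxo hyo).1
      rw [dot_cross_self] at this
      exact this rfl
    rw [← hxy]
    exact hall
  choose! sg hs0 hs using key
  obtain ⟨e1, e2, he1, he2, hw12⟩ := constK_basis hψ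
  have he12 : e1 ⨯₃ e2 ≠ 0 := by
    intro h0
    rw [h0, dotProduct_zero] at hw12
    exact (neg_ne_zero.2 one_ne_zero) hw12.symm
  have hψ0 : ψ ≠ 0 := by
    rintro rfl
    rw [zero_dotProduct] at hψ
    exact zero_ne_one hψ
  let ρ : ZMod p × ZMod p → ZMod p := fun k => (sg (k.1 • e1 + k.2 • e2))⁻¹
  have hker : ∀ a b : ZMod p, ψ ⬝ᵥ (a • e1 + b • e2) = 0 := by
    intro a b
    rw [dotProduct_add, dotProduct_smul, dotProduct_smul, he1, he2]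
    simp
  have hcr : ∀ k k' : ZMod p × ZMod p,
      (k.1 • e1 + k.2 • e2) ⨯₃ (k'.1 • e1 + k'.2 • e2) = (HexR.w k k') • (e1 ⨯₃ e2) := by
    intro k k'
    ext i
    simp only [cross_apply', HexR.w]
    fin_cases i <;> simp <;> ring
  have hA : HexR.HypA ρ := by
    intro k k' hkk
    have hne : (k.1 • e1 + k.2 • e2) ⨯₃ (k'.1 • e1 + k'.2 • e2) ≠ 0 := by
      rw [hcr]
      exact smul_ne_zero hkk he12
    have hv0 : k.1 • e1 + k.2 • e2 ≠ 0 := by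
      intro h0
      rw [h0] at hne
      apply hne
      simp
    have hv0' : k'.1 • e1 + k'.2 • e2 ≠ 0 := by
      intro h0
      rw [h0] at hne
      apply hne
      simp
    obtain ⟨x, hx, hxo⟩ := hb _ hv0 (hker k.1 k.2)
    obtain ⟨x', hx', hxo'⟩ := hb _ hv0' (hker k'.1 k'.2)
    have h1 := sigma_pencil H' S hM hψ hb (hker k.1 k.2) hx hxo (hker k'.1 k'.2) hx' hxo' hne
      (hs0 _ hv0 (hker k.1 k.2)) (hs0 _ hv0' (hker k'.1 k'.2))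
      (hs _ hv0 (hker k.1 k.2) x hx hxo) (hs _ hv0' (hker k'.1 k'.2) x' hx' hxo')
    rw [hcr, dotProduct_smul, hw12, smul_eq_mul, mul_neg, mul_one, neg_neg] at h1
    exact h1
  obtain ⟨z, hz⟩ := HexR.const_of_prime (by rw [ZMod.card]; exact Fact.out) hA
  have hsg : ∀ v : Fin 3 → ZMod p, v ≠ 0 → ψ ⬝ᵥ v = 0 → sg v = z⁻¹ := by
    intro v hv0 hv
    obtain ⟨a, b, hab⟩ := exists_comb he12 (u := v) (det_zero_of_orth hψ0 hv he1 he2)
    have hk : ((a, b) : ZMod p × ZMod p) ≠ 0 := by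
      intro h0
      rw [Prod.mk_eq_zero] at h0
      apply hv0
      rw [hab, h0.1, h0.2]
      simp
    have := hz (a, b) hk
    change (sg (a • e1 + b • e2))⁻¹ = z at this
    rw [← hab] at this
    rw [← this, inv_inv]
  refine ⟨z⁻¹, ?_, ?_⟩
  · have he10 : e1 ≠ 0 := by
      rintro rfl
      apply he12
      simp
    rw [← hsg e1 he10 he1]
    exact hs0 e1 he10 he1
  · intro v x hv0 hv hx hxo r hr1 hr2
    rw [← hsg v hv0 hv]
    exact hs v hv0 hv x hx hxo r hr1 hr2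

theorem near_iff (hLB : LB S) {M : Ln} (hM : BLine S M) {w ψ : Fin 3 → ZMod p}
    (hψ : ψ ⬝ᵥ w = 1)
    (hb : ∀ v, v ≠ 0 → ψ ⬝ᵥ v = 0 → ∃ x, I x M ∧ Over S x v (w ⨯₃ v)) {σ : ZMod p} (hσ : σ ≠ 0)
    (hc : ∀ v x, v ≠ 0 → ψ ⬝ᵥ v = 0 → I x M → Over S x v (w ⨯₃ v) →
      ∀ r, (ψ + w ⨯₃ v) ⬝ᵥ r = 0 → (w ⨯₃ v) ⬝ᵥ r ≠ 0 →
      Near I x (S.pt r (r ⨯₃ (w + σ • v)))) :
    ∀ v x, v ≠ 0 → ψ ⬝ᵥ v = 0 → I x M → Over S x v (w ⨯₃ v) →
    ∀ r m, IsFlag r m → Opp v (w ⨯₃ v) r m →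
      (Near I x (S.pt r m) ↔ (w ⨯₃ v) ⬝ᵥ r * (m ⬝ᵥ w) = σ * (ψ ⬝ᵥ r * (m ⬝ᵥ v))) := by
  have H' : Hex I (Fintype.card (ZMod p)) := by rw [ZMod.card]; exact H
  intro v x hv0 hv hx hxo r m hf hopp
  have hox := out_of_bline H' S hM hx
  have hb0 : (w ⨯₃ v) ⬝ᵥ r ≠ 0 := by rw [dotProduct_comm]; exact hopp.2
  have hmr : m ⬝ᵥ r = 0 := by rw [dotProduct_comm]; exact hf.2.2
  by_cases ha : ψ ⬝ᵥ r = 0
  · -- `r` on `ψ`
    obtain ⟨y, hy, hyo⟩ := hb r hf.1 ha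
    have hn : Near I x (S.pt r (w ⨯₃ r)) := ⟨y, ⟨M, hx, hy⟩, hyo.2⟩
    have e : m ⨯₃ (w ⨯₃ r) = (-(m ⬝ᵥ w)) • r := by
      rw [cross_cross_right, hmr, zero_smul, zero_sub, neg_smul]
    rw [ha, zero_mul, mul_zero]
    constructor
    · intro h
      have h1 := theta_unique H' S hox hxo hopp.2 hf hyo.1 h hn
      rw [e] at h1
      rcases smul_eq_zero.1 h1 with h2 | h2
      · rw [neg_eq_zero.1 h2, mul_zero]
      · exact absurd h2 hf.1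
    · intro h
      have h2 : m ⬝ᵥ w = 0 := (mul_eq_zero.1 h).resolve_left hb0
      have h3 : S.pt r m = S.pt r (w ⨯₃ r) := by
        refine (S.pt_eq hf hyo.1).2 ⟨cross_self r, ?_⟩
        rw [e, h2, neg_zero, zero_smul]
      rw [h3]
      exact hn
  · -- `r` not on `ψ`
    set μ : ZMod p := -(ψ ⬝ᵥ r) / ((w ⨯₃ v) ⬝ᵥ r) with hμ
    have hμ0 : μ ≠ 0 := div_ne_zero (neg_ne_zero.2 ha) hb0
    have hμb : μ * ((w ⨯₃ v) ⬝ᵥ r) = -(ψ ⬝ᵥ r) := div_mul_cancel₀ _ hb0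
    have hcr : w ⨯₃ (μ • v) = μ • (w ⨯₃ v) := by rw [map_smul]
    have hv1 : ψ ⬝ᵥ (μ • v) = 0 := by rw [dotProduct_smul, hv, smul_zero]
    have hv10 : μ • v ≠ 0 := smul_ne_zero hμ0 hv0
    have p1 := pt_smul' S hxo.1 (a := μ) (b := μ) hμ0 hμ0
    rw [← hcr] at p1
    have hxo1 : Over S x (μ • v) (w ⨯₃ (μ • v)) := over_of_pt_eq S hxo p1.1 p1.2
    have hb1 : (w ⨯₃ (μ • v)) ⬝ᵥ r = -(ψ ⬝ᵥ r) := by
      rw [hcr, smul_dotProduct, smul_eq_mul, hμb]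
    have hn := hc (μ • v) x hv10 hv1 hx hxo1 r (by rw [add_dotProduct, hb1, add_neg_cancel])
      (by rw [hb1]; exact neg_ne_zero.2 ha)
    have hf1 : IsFlag r (r ⨯₃ (w + σ • (μ • v))) := constK_flag hψ hv1 σ (by
      rw [hb1]; exact neg_ne_zero.2 ha)
    have e : m ⨯₃ (r ⨯₃ (w + σ • (μ • v))) = (m ⬝ᵥ w + σ * (μ * (m ⬝ᵥ v))) • r := by
      rw [cross_cross_right, hmr, zero_smul, sub_zero, dotProduct_add, dotProduct_smul,
        dotProduct_smul, smul_eq_mul, smul_eq_mul]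
    have hiff : m ⬝ᵥ w + σ * (μ * (m ⬝ᵥ v)) = 0 ↔
        (w ⨯₃ v) ⬝ᵥ r * (m ⬝ᵥ w) = σ * (ψ ⬝ᵥ r * (m ⬝ᵥ v)) := by
      constructor
      · intro h
        linear_combination ((w ⨯₃ v) ⬝ᵥ r) * h - σ * (m ⬝ᵥ v) * hμb
      · intro h
        apply mul_left_cancel₀ hb0
        rw [mul_zero]
        linear_combination h + σ * (m ⬝ᵥ v) * hμb
    rw [← hiff]
    constructor
    · intro h
      have h1 := theta_unique H' S hox hxo hopp.2 hf hf1 h hn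
      rw [e] at h1
      exact (smul_eq_zero.1 h1).resolve_right hf.1
    · intro h
      have h3 : S.pt r m = S.pt r (r ⨯₃ (w + σ • (μ • v))) := by
        refine (S.pt_eq hf hf1).2 ⟨cross_self r, ?_⟩
        rw [e, h, zero_smul]
      rw [h3]
      exact hn

theorem std_exists (hLB : LB S) (h3 : p % 3 ≠ 1) {M : Ln} (hM : BLine S M) :
    ∃ w ψ, Std S M w ψ := by
  have H' : Hex I (Fintype.card (ZMod p)) := by rw [ZMod.card]; exact H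
  obtain ⟨w, ψ, hψ, hb⟩ := base_exists H' S hLB hM
  obtain ⟨σ, hσ, hc⟩ := sigma_const H S hLB hM hψ hb
  have hnear := near_iff H S hLB hM hψ hb hσ hc
  obtain ⟨l, hl0, hl⟩ := constK_cube h3 (inv_ne_zero hσ)
  have hl3 : l * l * l * σ = 1 := by
    have : l * l * l = σ⁻¹ := by rw [← hl]; ring
    rw [this, inv_mul_cancel₀ hσ]
  have hcr : ∀ v, (l • w) ⨯₃ v = l • (w ⨯₃ v) := by
    intro v
    rw [map_smul, LinearMap.smul_apply]
  refine ⟨l • w, l⁻¹ • ψ, ?_, ?_⟩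
  · rw [smul_dotProduct, dotProduct_smul, hψ, smul_eq_mul, smul_eq_mul, mul_one,
      inv_mul_cancel₀ hl0]
  · intro v hv0 hv
    have hv' : ψ ⬝ᵥ v = 0 := by
      rw [smul_dotProduct, smul_eq_mul] at hv
      exact (mul_eq_zero.1 hv).resolve_left (inv_ne_zero hl0)
    obtain ⟨x, hx, hxo⟩ := hb v hv0 hv'
    have p1 := pt_smul' S hxo.1 (a := 1) (b := l) one_ne_zero hl0
    rw [one_smul, ← hcr] at p1
    refine ⟨x, hx, over_of_pt_eq S hxo p1.1 p1.2, ?_⟩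
    intro r m hf hopp
    have hopp' : Opp v (w ⨯₃ v) r m := by
      refine ⟨hopp.1, ?_⟩
      have := hopp.2
      rw [hcr, dotProduct_smul, smul_eq_mul] at this
      exact right_ne_zero_of_mul this
    rw [hnear v x hv0 hv' hx hxo r m hf hopp', hcr, smul_dotProduct, smul_dotProduct,
      dotProduct_smul, smul_eq_mul, smul_eq_mul, smul_eq_mul]
    have hll : l * l⁻¹ = 1 := mul_inv_cancel₀ hl0
    constructor
    · intro h
      apply mul_left_cancel₀ hl0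
      linear_combination (l * l * l) * h + (ψ ⬝ᵥ r * (m ⬝ᵥ v)) * hl3
        - (ψ ⬝ᵥ r * (m ⬝ᵥ v)) * hll
    · intro h
      apply mul_left_cancel₀ (mul_ne_zero (mul_ne_zero hl0 hl0) hl0)
      linear_combination l * h - (ψ ⬝ᵥ r * (m ⬝ᵥ v)) * hl3
        + (ψ ⬝ᵥ r * (m ⬝ᵥ v)) * hll

end prime

end Pool.Agent.Lib.MP_6b0fe3_coR
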