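import Mathlib

/-!
Definitions for MP_6b0fe3_co (hexagons of order (q,q) containing H(q,1)).
-/

namespace Pool.Agent.Lib.MP_6b0fe3_coR

open Matrix

/-! ### Definitions used in the final statement -/

/-- The incidence graph of a point-line geometry with incidence relation `I`. -/
def incGraph {Pt Ln : Type*} (I : Pt → Ln → Prop) : SimpleGraph (Pt ⊕ Ln) where
  Adj a b :=
    match a, b with
    | Sum.inl x, Sum.inr l => I x l
    | Sum.inr l, Sum.inl x => I x l
    | _, _ => False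
  symm := ⟨by
    rintro (x | l) (y | m) h <;> first | exact h | exact h.elim⟩
  loopless := ⟨by
    rintro (x | l) h <;> exact h⟩

/-- Generalized hexagon of order `(s,t)`: the incidence graph has diameter `6` and girth `12`,
every line carries `s+1` points and every point lies on `t+1` lines. -/
structure IsGenHexagon (s t : ℕ) {Pt Ln : Type*} (I : Pt → Ln → Prop) : Prop where
  diam : (incGraph I).ediam = 6
  girth : (incGraph I).egirth = 12
  line_card : ∀ l, {x | I x l}.ncard = s + 1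
  point_card : ∀ x, {l | I x l}.ncard = t + 1

/-- Flags of `PG(2,K)`: pairs (point, line), the line being given by its dual coordinates. -/
def Flag (K : Type*) [Field K] [DecidableEq K] : Type _ :=
  {f : Projectivization K (Fin 3 → K) × Projectivization K (Fin 3 → K) //
    Projectivization.orthogonal f.1 f.2}

/-- Incidence in `H(q,1)`: a flag is incident with its point and with its line. -/
def flagInc {K : Type*} [Field K] [DecidableEq K] (f : Flag K)
    (e : Projectivization K (Fin 3 → K) ⊕ Projectivization K (Fin 3 → K)) : Prop :=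
  match e with
  | Sum.inl P => f.1.1 = P
  | Sum.inr L => f.1.2 = L

/-- A pair of lines `l, m` is distance-3 regular: every line at distance 3 from two points of the
trace (the points at distance 3 from both `l` and `m`) is at distance 3 from all its points. -/
def Distance3Regular {Pt Ln : Type*} (I : Pt → Ln → Prop) (l m : Ln) : Prop :=
  ∀ x y z : Pt,
    ((incGraph I).dist (Sum.inl x) (Sum.inr l) = 3 ∧ (incGraph I).dist (Sum.inl x) (Sum.inr m) = 3) →
    ((incGraph I).dist (Sum.inl y) (Sum.inr l) = 3 ∧ (incGraph I).dist (Sum.inl y) (Sum.inr m) = 3) →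
    ((incGraph I).dist (Sum.inl z) (Sum.inr l) = 3 ∧ (incGraph I).dist (Sum.inl z) (Sum.inr m) = 3) →
    x ≠ y → ∀ n : Ln,
    (incGraph I).dist (Sum.inl x) (Sum.inr n) = 3 → (incGraph I).dist (Sum.inl y) (Sum.inr n) = 3 →
    (incGraph I).dist (Sum.inl z) (Sum.inr n) = 3

/-- The quadratic form of the parabolic quadric `Q(6,q)`. -/
def quad {K : Type*} [Field K] (x : Fin 7 → K) : K :=
  x 0 * x 4 + x 1 * x 5 + x 2 * x 6 - x 3 ^ 2

/-- Grassmann coordinates. -/
def gr {K : Type*} [Field K] (x y : Fin 7 → K) (i j : Fin 7) : K := x i * y j - x j * y i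

/-- Points of the split Cayley hexagon `H(q)`: the points of `Q(6,q)`. -/
def HPoint (K : Type*) [Field K] : Type _ :=
  {U : Submodule K (Fin 7 → K) // Module.finrank K U = 1 ∧ ∀ x ∈ U, quad x = 0}

/-- Lines of the split Cayley hexagon `H(q)`: the lines of `Q(6,q)` whose Grassmann coordinates
satisfy Tits' six equations. -/
def HLine (K : Type*) [Field K] : Type _ :=
  {W : Submodule K (Fin 7 → K) // Module.finrank K W = 2 ∧ (∀ x ∈ W, quad x = 0) ∧
    ∀ x ∈ W, ∀ y ∈ W, gr x y 1 2 = gr x y 3 4 ∧ gr x y 5 4 = gr x y 3 2 ∧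
      gr x y 2 0 = gr x y 3 5 ∧ gr x y 6 5 = gr x y 3 0 ∧
      gr x y 0 1 = gr x y 3 6 ∧ gr x y 4 6 = gr x y 3 1}

/-! ### Elementary language -/

section
variable {Pt Ln : Type*} (I : Pt → Ln → Prop)

/-- collinear or equal -/
def Coll (x y : Pt) : Prop := ∃ l, I x l ∧ I y l

/-- distance at most 4 -/
def Near (x y : Pt) : Prop := ∃ z, Coll I x z ∧ Coll I z y

/-- point at distance 3 from a line -/
def Near3 (x : Pt) (l : Ln) : Prop := ¬ I x l ∧ ∃ y, I y l ∧ Coll I x y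

/-- elementary facts of a generalized hexagon of order `(q,q)` -/
structure Hex (q : ℕ) : Prop where
  lineCard : ∀ l, {x | I x l}.ncard = q + 1
  ptCard : ∀ x, {l | I x l}.ncard = q + 1
  uniq : ∀ {a b : Pt} {l m : Ln}, I a l → I b l → I a m → I b m → a ≠ b → l = m
  tri : ∀ {a b c : Pt}, Coll I a b → Coll I b c → Coll I a c → ∃ l, I a l ∧ I b l ∧ I c l
  quadr : ∀ {a b c d : Pt}, Coll I a b → Coll I b c → Coll I c d → Coll I d a →
    Coll I a c ∨ Coll I b d
  pent : ∀ {a b c d e : Pt}, Coll I a b → Coll I b c → Coll I c d → Coll I d e → Coll I e a →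
    Coll I a c ∨ Coll I b d ∨ Coll I c e ∨ Coll I d a ∨ Coll I e b
  near : ∀ (x : Pt) (l : Ln), ∃ y, I y l ∧ Near I x y

end

/-- `(v,k)` are homogeneous coordinates of a flag -/
def IsFlag {K : Type*} [Field K] (v k : Fin 3 → K) : Prop := v ≠ 0 ∧ k ≠ 0 ∧ v ⬝ᵥ k = 0

/-- The subhexagon `H(q,1)` in vector language: `pt v k` is the point of the flag `(v,k)`,
`lp v` the line of the geometry given by the point `v`, `ll k` the one given by the line `k`. -/
structure Sub (K : Type*) [Field K] {Pt Ln : Type*} (I : Pt → Ln → Prop) where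
  pt : (Fin 3 → K) → (Fin 3 → K) → Pt
  lp : (Fin 3 → K) → Ln
  ll : (Fin 3 → K) → Ln
  pt_eq : ∀ {v k v' k' : Fin 3 → K}, IsFlag v k → IsFlag v' k' →
    (pt v k = pt v' k' ↔ (v ⨯₃ v' = 0 ∧ k ⨯₃ k' = 0))
  inc_lp : ∀ {v k u : Fin 3 → K}, IsFlag v k → u ≠ 0 → (I (pt v k) (lp u) ↔ v ⨯₃ u = 0)
  inc_ll : ∀ {v k m : Fin 3 → K}, IsFlag v k → m ≠ 0 → (I (pt v k) (ll m) ↔ k ⨯₃ m = 0)
  lp_eq : ∀ {u u' : Fin 3 → K}, u ≠ 0 → u' ≠ 0 → (lp u = lp u' ↔ u ⨯₃ u' = 0)
  ll_eq : ∀ {m m' : Fin 3 → K}, m ≠ 0 → m' ≠ 0 → (ll m = ll m' ↔ m ⨯₃ m' = 0)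
  lp_ne_ll : ∀ {u m : Fin 3 → K}, u ≠ 0 → m ≠ 0 → lp u ≠ ll m

section
variable {K : Type*} [Field K] {Pt Ln : Type*} {I : Pt → Ln → Prop} (S : Sub K I)

/-- a point outside the subhexagon -/
def Out (x : Pt) : Prop := ∀ v k, IsFlag v k → x ≠ S.pt v k

/-- `x` lies over the flag `(v,k)` -/
def Over (x : Pt) (v k : Fin 3 → K) : Prop := IsFlag v k ∧ Coll I x (S.pt v k)

/-- a B-line: a line with no flag -/
def BLine (M : Ln) : Prop := ∀ v k, IsFlag v k → ¬ I (S.pt v k) M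

/-- an A-line over the flag `(v,k)`: a line through the flag not in the subhexagon -/
def ALine (v k : Fin 3 → K) (t : Ln) : Prop :=
  IsFlag v k ∧ I (S.pt v k) t ∧ t ≠ S.lp v ∧ t ≠ S.ll k

/-- the flags `(v,k)` and `(v',k')` are opposite -/
def Opp (v k v' k' : Fin 3 → K) : Prop := v ⬝ᵥ k' ≠ 0 ∧ v' ⬝ᵥ k ≠ 0

/-- Hypothesis (Lemma B): for an antiflag `(c,N)`, a B-line at distance 3 from two of the flags
`(r, r × c)`, `r ∈ N`, is at distance 3 from all of them. -/
def LB : Prop := ∀ c N : Fin 3 → K, c ⬝ᵥ N ≠ 0 → ∀ r s t : Fin 3 → K,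
  r ≠ 0 → s ≠ 0 → t ≠ 0 → r ⬝ᵥ N = 0 → s ⬝ᵥ N = 0 → t ⬝ᵥ N = 0 → r ⨯₃ s ≠ 0 →
  ∀ M : Ln, BLine S M → Near3 I (S.pt r (r ⨯₃ c)) M → Near3 I (S.pt s (s ⨯₃ c)) M →
    Near3 I (S.pt t (t ⨯₃ c)) M

/-- standard coordinates `(w,ψ)` of a B-line: `ψ·w = 1`, for every `v ≠ 0` on `ψ` there is a point
`x` of `M` over `(v, w × v)`, and its near flags opposite to `(v, w × v)` are given by the
bilinear condition. -/
def Std (M : Ln) (w ψ : Fin 3 → K) : Prop :=
  ψ ⬝ᵥ w = 1 ∧ ∀ v, v ≠ 0 → ψ ⬝ᵥ v = 0 → ∃ x, I x M ∧ Over S x v (w ⨯₃ v) ∧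
    ∀ r m, IsFlag r m → Opp v (w ⨯₃ v) r m →
      (Near I x (S.pt r m) ↔ (w ⨯₃ v) ⬝ᵥ r * (m ⬝ᵥ w) = ψ ⬝ᵥ r * (m ⬝ᵥ v))

end

end Pool.Agent.Lib.MP_6b0fe3_coR
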