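import Pool.Agent.Lib.MP_6b0fe3_coR.GrpKa

/-! MP_6b0fe3_co, L3: definition of the canonical lifts of elations -/

namespace Pool.Agent.Lib.MP_6b0fe3_coR

open Matrix

/-- `z` is the canonical lift of the elation `v ↦ v + (m v) u`: it fixes all outside points over
the flag `(u, m)` -/
structure Can {K : Type*} [Field K] {Pt Ln : Type*} {I : Pt → Ln → Prop} (S : Sub K I)
    (z : (Equiv.Perm Pt × Equiv.Perm Ln) × SL3 K) (u m : Fin 3 → K) (h : m ⬝ᵥ u = 0) : Prop where
  mem : z ∈ autG S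
  eq : z.2 = elM u m h
  fix : ∀ x, Out S x → Over S x u m → z.1.1 x = x

end Pool.Agent.Lib.MP_6b0fe3_coR
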