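import Pool.Agent.Lib.MP_6b0fe3_coR.GrpK
import Pool.Agent.Lib.MP_6b0fe3_coR.GrpCan

/-! MP_6b0fe3_co, L3: canonical lifts of the elations -/

namespace Pool.Agent.Lib.MP_6b0fe3_coR

open Matrix

/-- in a group of order dividing 3, an element is 1, a given non-trivial element or its inverse -/
theorem card3_cases {G : Type*} [Group G] (hG : Nat.card G ∣ 3) {x y : G} (hx : x ≠ 1) :
    y = 1 ∨ y = x ∨ y = x⁻¹ := by
  classical
  have hfin : Finite G := Nat.finite_of_card_ne_zero (fun h => by rw [h] at hG; omega)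
  have : Fintype G := Fintype.ofFinite G
  have hle : Fintype.card G ≤ 3 := by
    rw [← Nat.card_eq_fintype_card]
    exact Nat.le_of_dvd (by norm_num) hG
  by_contra hno
  push Not at hno
  obtain ⟨h1, h2, h3⟩ := hno
  have hs : ({1, x, y, x * y} : Finset G).card = 4 := by
    rw [Finset.card_insert_of_notMem, Finset.card_insert_of_notMem, Finset.card_insert_of_notMem,
      Finset.card_singleton]
    · rw [Finset.mem_singleton]
      intro h
      exact hx (mul_eq_right.1 h.symm)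
    · simp only [Finset.mem_insert, Finset.mem_singleton, not_or]
      refine ⟨fun h => h2 h.symm, fun h => h1 (mul_eq_left.1 h.symm)⟩
    · simp only [Finset.mem_insert, Finset.mem_singleton, not_or]
      refine ⟨fun h => hx h.symm, fun h => h1 h.symm, fun h => h3 ?_⟩
      exact (inv_eq_of_mul_eq_one_right h.symm).symm
  have := Finset.card_le_univ ({1, x, y, x * y} : Finset G)
  omega

section main
variable {K : Type*} [Field K] [Fintype K] {Pt Ln : Type*} {I : Pt → Ln → Prop}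
variable (S : Sub K I)

omit [Fintype K] in
theorem conj_kerG {g κ : Equiv.Perm Pt × Equiv.Perm Ln} {A : SL3 K} (hg : Act S g A)
    (hκ : κ ∈ kerG S) : g * κ * g⁻¹ ∈ kerG S := by
  have := (hg.mul (mem_kerG.1 hκ)).mul hg.inv
  rw [mul_one, mul_inv_cancel] at this
  exact this

omit [Fintype K] in
/-- conjugation by any lift maps an element of the kernel to itself or to its inverse -/
theorem conj_cases (hker : Nat.card (kerG S) ∣ 3) {g κ : Equiv.Perm Pt × Equiv.Perm Ln}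
    {A : SL3 K} (hg : Act S g A) (hκ : κ ∈ kerG S) : g * κ * g⁻¹ = κ ∨ g * κ * g⁻¹ = κ⁻¹ := by
  by_cases h1 : κ = 1
  · left
    rw [h1, mul_one, mul_inv_cancel]
  · have hk1 : (⟨κ, hκ⟩ : kerG S) ≠ 1 := fun h => h1 (congrArg Subtype.val h)
    rcases card3_cases hker (y := (⟨g * κ * g⁻¹, conj_kerG S hg hκ⟩ : kerG S)) hk1 with h | h | h
    · exfalso
      have h2 : g * κ * g⁻¹ = 1 := congrArg Subtype.val h
      exact h1 (conj_eq_one_iff.1 h2)
    · left; exact congrArg Subtype.val h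
    · right; exact congrArg Subtype.val h

omit [Fintype K] in
/-- the kernel is abelian -/
theorem kerG_comm (hker : Nat.card (kerG S) ∣ 3) {κ κ' : Equiv.Perm Pt × Equiv.Perm Ln}
    (hκ : κ ∈ kerG S) (hκ' : κ' ∈ kerG S) : κ' * κ = κ * κ' := by
  by_cases h1 : κ = 1
  · rw [h1, mul_one, one_mul]
  · have hk1 : (⟨κ, hκ⟩ : kerG S) ≠ 1 := fun h => h1 (congrArg Subtype.val h)
    rcases card3_cases hker (y := (⟨κ', hκ'⟩ : kerG S)) hk1 with h | h | h
    · have : κ' = 1 := congrArg Subtype.val h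
      rw [this, mul_one, one_mul]
    · have : κ' = κ := congrArg Subtype.val h
      rw [this]
    · have : κ' = κ⁻¹ := congrArg Subtype.val h
      rw [this, inv_mul_cancel, mul_inv_cancel]

omit [Fintype K] in
theorem comm_kerG (hker : Nat.card (kerG S) ∣ 3) {a b κ : Equiv.Perm Pt × Equiv.Perm Ln}
    {A B : SL3 K} (ha : Act S a A) (hb : Act S b B) (hκ : κ ∈ kerG S) :
    (a * b * a⁻¹ * b⁻¹) * κ = κ * (a * b * a⁻¹ * b⁻¹) := by
  have h1 := conj_cases S hker ha hκ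
  have h2 := conj_cases S hker hb hκ
  have e1 : ∀ {g κ' : Equiv.Perm Pt × Equiv.Perm Ln}, g * κ * g⁻¹ = κ' → g * κ = κ' * g := by
    intro g κ' h
    rw [← h]; group
  have e2 : ∀ {g : Equiv.Perm Pt × Equiv.Perm Ln}, g * κ = κ⁻¹ * g → g * κ⁻¹ = κ * g := by
    intro g h
    have : g * κ⁻¹ = κ * (κ⁻¹ * g) * κ⁻¹ := by group
    rw [this, ← h]; group
  have e3 : ∀ {g : Equiv.Perm Pt × Equiv.Perm Ln}, g * κ = κ * g → g * κ⁻¹ = κ⁻¹ * g := by
    intro g h
    have : g * κ⁻¹ = κ⁻¹ * (κ * g) * κ⁻¹ := by group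
    rw [this, ← h]; group
  have e4 : ∀ {g x y : Equiv.Perm Pt × Equiv.Perm Ln}, g * x = y * g → g⁻¹ * y = x * g⁻¹ := by
    intro g x y h
    have : g⁻¹ * y = g⁻¹ * (y * g) * g⁻¹ := by group
    rw [this, ← h]; group
  rcases h1 with h1 | h1
  · have a1 := e1 h1
    have a2 := e4 a1
    rcases h2 with h2 | h2
    · have b1 := e1 h2
      have b2 := e4 b1
      calc (a * b * a⁻¹ * b⁻¹) * κ = a * b * a⁻¹ * (b⁻¹ * κ) := by group
        _ = a * b * (a⁻¹ * κ) * b⁻¹ := by rw [b2]; group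
        _ = a * (b * κ) * a⁻¹ * b⁻¹ := by rw [a2]; group
        _ = (a * κ) * b * a⁻¹ * b⁻¹ := by rw [b1]; group
        _ = κ * (a * b * a⁻¹ * b⁻¹) := by rw [a1]; group
    · have b1 := e1 h2
      have b2 := e4 b1
      have b3 := e2 b1
      have b4 := e4 b3
      have a3 := e3 a1
      have a4 := e3 a2
      calc (a * b * a⁻¹ * b⁻¹) * κ = a * b * a⁻¹ * (b⁻¹ * κ) := by group
        _ = a * b * (a⁻¹ * κ⁻¹) * b⁻¹ := by rw [b4]; group
        _ = a * (b * κ⁻¹) * a⁻¹ * b⁻¹ := by rw [a4]; group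
        _ = (a * κ) * b * a⁻¹ * b⁻¹ := by rw [b3]; group
        _ = κ * (a * b * a⁻¹ * b⁻¹) := by rw [a1]; group
  · have a1 := e1 h1
    have a2 := e4 a1
    have a3 := e2 a1
    have a4 := e4 a3
    rcases h2 with h2 | h2
    · have b1 := e1 h2
      have b2 := e4 b1
      have b3 := e3 b1
      calc (a * b * a⁻¹ * b⁻¹) * κ = a * b * a⁻¹ * (b⁻¹ * κ) := by group
        _ = a * b * (a⁻¹ * κ) * b⁻¹ := by rw [b2]; group
        _ = a * (b * κ⁻¹) * a⁻¹ * b⁻¹ := by rw [a4]; group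
        _ = (a * κ⁻¹) * b * a⁻¹ * b⁻¹ := by rw [b3]; group
        _ = κ * (a * b * a⁻¹ * b⁻¹) := by rw [a3]; group
    · have b1 := e1 h2
      have b2 := e4 b1
      have b3 := e2 b1
      have b4 := e4 b3
      calc (a * b * a⁻¹ * b⁻¹) * κ = a * b * a⁻¹ * (b⁻¹ * κ) := by group
        _ = a * b * (a⁻¹ * κ⁻¹) * b⁻¹ := by rw [b4]; group
        _ = a * (b * κ) * a⁻¹ * b⁻¹ := by rw [a2]; group
        _ = (a * κ⁻¹) * b * a⁻¹ * b⁻¹ := by rw [b1]; group
        _ = κ * (a * b * a⁻¹ * b⁻¹) := by rw [a3]; group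

/-- every lift of an elation commutes with the kernel -/
theorem lift_comm (hel : ∀ u m : Fin 3 → K, u ⬝ᵥ m = 0 →
      ∃ g : Equiv.Perm Pt × Equiv.Perm Ln, IsAut I g ∧
      ∀ v k, IsFlag v k → g.1 (S.pt v k) = S.pt (v + (m ⬝ᵥ v) • u) (k - (u ⬝ᵥ k) • m))
    (hker : Nat.card (kerG S) ∣ 3) {g κ : Equiv.Perm Pt × Equiv.Perm Ln}
    {v0 k0 : Fin 3 → K} (hf : IsFlag v0 k0) {h : k0 ⬝ᵥ v0 = 0} (hg : Act S g (elM v0 k0 h))
    (hκ : κ ∈ kerG S) : g * κ = κ * g := by
  obtain ⟨u, m, hb, -, -⟩ := exists_hb hf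
  obtain ⟨h1, h2, h3, h4⟩ := hb
  obtain ⟨a, ha⟩ := exists_act_elM (S := S) hel v0 m h2
  obtain ⟨b, hb⟩ := exists_act_elM (S := S) hel u k0 h3
  have hc : elM v0 m h2 * elM u k0 h3 * (elM v0 m h2)⁻¹ * (elM u k0 h3)⁻¹ = elM v0 k0 h := by
    rw [mul_inv_eq_iff_eq_mul, mul_inv_eq_iff_eq_mul]
    apply sl_ext
    intro v
    simp only [sv_mul, sv_elM, dotProduct_add, dotProduct_smul, h1, h2, h3, h4, smul_eq_mul]
    module
  have hab : Act S (a * b * a⁻¹ * b⁻¹) (elM v0 k0 h) := by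
    rw [← hc]
    exact ((ha.mul hb).mul ha.inv).mul hb.inv
  have hk' : (a * b * a⁻¹ * b⁻¹)⁻¹ * g ∈ kerG S := by
    have := hab.inv.mul hg
    rw [inv_mul_cancel] at this
    exact this
  have e1 := comm_kerG S hker ha hb hκ
  have e2 := kerG_comm S hker hκ hk'
  calc g * κ = (a * b * a⁻¹ * b⁻¹) * (((a * b * a⁻¹ * b⁻¹)⁻¹ * g) * κ) := by group
    _ = ((a * b * a⁻¹ * b⁻¹) * κ) * ((a * b * a⁻¹ * b⁻¹)⁻¹ * g) := by rw [e2]; group
    _ = κ * g := by rw [e1]; group

omit [Fintype K] in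
theorem elM_pow (n : ℕ) {u m : Fin 3 → K} (h : m ⬝ᵥ u = 0) (v : Fin 3 → K) :
    sv (elM u m h ^ n) v = v + (n : K) • (m ⬝ᵥ v) • u := by
  induction n with
  | zero => simp [sv_one]
  | succ n ih =>
    rw [pow_succ', sv_mul, ih, sv_elM, dotProduct_add, dotProduct_smul, dotProduct_smul, h]
    push_cast
    module

/-- canonical lifts exist -/
theorem can_exists (H : Hex I (Fintype.card K)) (hel : ∀ u m : Fin 3 → K, u ⬝ᵥ m = 0 →
      ∃ g : Equiv.Perm Pt × Equiv.Perm Ln, IsAut I g ∧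
      ∀ v k, IsFlag v k → g.1 (S.pt v k) = S.pt (v + (m ⬝ᵥ v) • u) (k - (u ⬝ᵥ k) • m))
    (hker : Nat.card (kerG S) ∣ 3) (hq : Fintype.card K % 3 = 1)
    {u m : Fin 3 → K} (hf : IsFlag u m) (h : m ⬝ᵥ u = 0) : ∃ z, Can S z u m h := by
  obtain ⟨p, hp⟩ := CharP.exists K
  have hpp : Fact p.Prime := ⟨CharP.char_is_prime K p⟩
  obtain ⟨⟨n, hn⟩, -, hcardK⟩ := FiniteField.card K p
  have hcardK' : Fintype.card K = p ^ n := hcardK
  have hp3 : Nat.Coprime p 3 := by
    rw [Nat.coprime_primes hpp.out Nat.prime_three]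
    rintro rfl
    rw [hcardK', Nat.pow_mod, Nat.mod_self, Nat.zero_pow hn, Nat.zero_mod] at hq
    omega
  -- a lift fixing a given outside point over the flag
  have hlift : ∀ x, Out S x → Over S x u m → ∃ g, Act S g (elM u m h) ∧ g.1 x = x := by
    intro x hx hov
    obtain ⟨g, h1, h2, h3⟩ := (all_strong H S hel hx).1 u m hov 1
    refine ⟨g, ⟨h1, fun v k hvk => ?_⟩, h3⟩
    rw [h2 v k hvk, sv_elM, sk_elM, one_mul, one_mul]
  -- such a lift has order dividing `p`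
  have hpow : ∀ x g, Out S x → Act S g (elM u m h) → g.1 x = x → g ^ p = 1 := by
    intro x g hx hg hgx
    have hact : ∀ j : ℕ, Act S (g ^ j) (elM u m h ^ j) := by
      intro j
      induction j with
      | zero => rw [pow_zero, pow_zero]; exact act_one S
      | succ j ih => rw [pow_succ, pow_succ]; exact ih.mul hg
    have hone : elM u m h ^ p = 1 := by
      apply sl_ext
      intro v
      rw [elM_pow, CharP.cast_eq_zero, zero_smul, add_zero, sv_one]
    have h1 := hact p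
    rw [hone] at h1
    refine act_free H S h1 hx ?_
    have : ∀ j : ℕ, (g ^ j).1 x = x := by
      intro j
      induction j with
      | zero => rfl
      | succ j ih =>
        rw [pow_succ]
        change (g ^ j).1 (g.1 x) = x
        rw [hgx, ih]
    exact this p
  obtain ⟨t0, x0, -, -, hx0, hov0⟩ := exists_over H S hf
  obtain ⟨g, hg, hgx⟩ := hlift x0 hx0 hov0
  refine ⟨(g, elM u m h), hg, rfl, fun x hx hov => ?_⟩
  obtain ⟨g', hg', hgx'⟩ := hlift x hx hov
  have hk : g⁻¹ * g' ∈ kerG S := by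
    have := hg.inv.mul hg'
    rw [inv_mul_cancel] at this
    exact this
  have hc : g * (g⁻¹ * g') = (g⁻¹ * g') * g := lift_comm S hel hker hf hg hk
  have hcomm : Commute g (g⁻¹ * g') := hc
  have e1 : (g⁻¹ * g') ^ p = 1 := by
    have h1 : g' = g * (g⁻¹ * g') := by group
    have h2 : g' ^ p = g ^ p * (g⁻¹ * g') ^ p := by
      conv_lhs => rw [h1]
      exact hcomm.mul_pow p
    rw [hpow x g' hx hg' hgx', hpow x0 g hx0 hg hgx, one_mul] at h2
    exact h2.symm
  have e2 : (g⁻¹ * g') ^ 3 = 1 := by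
    have h1 : (⟨g⁻¹ * g', hk⟩ : kerG S) ^ Nat.card (kerG S) = 1 := pow_card_eq_one'
    obtain ⟨c, hc⟩ := hker
    have h2 : (⟨g⁻¹ * g', hk⟩ : kerG S) ^ 3 = 1 := by rw [hc, pow_mul, h1, one_pow]
    exact congrArg Subtype.val h2
  have e3 : g⁻¹ * g' = 1 := by
    have h1 : orderOf (g⁻¹ * g') ∣ Nat.gcd p 3 :=
      Nat.dvd_gcd (orderOf_dvd_of_pow_eq_one e1) (orderOf_dvd_of_pow_eq_one e2)
    rw [hp3.gcd_eq_one] at h1
    exact orderOf_eq_one_iff.1 (Nat.dvd_one.1 h1)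
  have e4 : g = g' := (inv_mul_eq_one.1 e3)
  change g.1 x = x
  rw [e4]
  exact hgx'

end main

end Pool.Agent.Lib.MP_6b0fe3_coR
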