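import Pool.Agent.Lib.MP_6b0fe3_coR.GrpKb

/-! MP_6b0fe3_co, L3: the kernel has order dividing 3 -/

namespace Pool.Agent.Lib.MP_6b0fe3_coR

open Matrix

/-- a free action -/
theorem card_dvd_of_free {G X : Type*} [Group G] [MulAction G X]
    (h : ∀ (g : G) (x : X), g • x = x → g = 1) : Nat.card G ∣ Nat.card X := by
  have hs : ∀ b : X, MulAction.stabilizer G b = ⊥ := by
    intro b
    rw [eq_bot_iff]
    intro g hg
    rw [Subgroup.mem_bot]
    exact h g b hg
  rw [Nat.card_congr (MulAction.selfEquivOrbitsQuotientProd hs), Nat.card_prod]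
  exact Dvd.intro_left _ rfl

/-- the primitive cube roots of unity -/
theorem exists_omega {K : Type*} [Field K] [Fintype K] (hq : Fintype.card K % 3 = 1) :
    ∃ ω : K, ω ^ 3 = 1 ∧ ω ≠ 1 := by
  classical
  have hd : 3 ∣ Fintype.card Kˣ := by
    rw [Fintype.card_units]
    omega
  have : Fact (Nat.Prime 3) := ⟨Nat.prime_three⟩
  obtain ⟨x, hx⟩ := exists_prime_orderOf_dvd_card 3 hd
  refine ⟨x, ?_, ?_⟩
  · have := pow_orderOf_eq_one x
    rw [hx] at this
    rw [← Units.val_pow_eq_pow_val, this, Units.val_one]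
  · intro h
    have : x = 1 := Units.ext h
    rw [this, orderOf_one] at hx
    omega

theorem cube_cases {K : Type*} [Field K] {ω x : K} (hω : ω ^ 3 = 1) (hω1 : ω ≠ 1) :
    x ^ 3 = 1 ↔ x = 1 ∨ x = ω ∨ x = ω ^ 2 := by
  have h1 : ω ^ 2 + ω + 1 = 0 := by
    have : (ω - 1) * (ω ^ 2 + ω + 1) = 0 := by linear_combination hω
    exact (mul_eq_zero.1 this).resolve_left (sub_ne_zero.2 hω1)
  constructor
  · intro hx
    have : (x - 1) * ((x - ω) * (x - ω ^ 2)) = 0 := by
      linear_combination hx - (x ^ 2 - x) * h1 + (x-1) * hω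
    rcases mul_eq_zero.1 this with h | h
    · exact Or.inl (sub_eq_zero.1 h)
    · rcases mul_eq_zero.1 h with h | h
      · exact Or.inr (Or.inl (sub_eq_zero.1 h))
      · exact Or.inr (Or.inr (sub_eq_zero.1 h))
  · rintro (h | h | h)
    · rw [h, one_pow]
    · rw [h, hω]
    · rw [h, ← pow_mul, mul_comm, pow_mul, hω, one_pow]

section main
variable {K : Type*} [Field K] [Fintype K] {Pt Ln : Type*} {I : Pt → Ln → Prop}
variable (H : Hex I (Fintype.card K)) (S : Sub K I)
include H

/-- every A-line has exactly three labels -/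
theorem lab_three (hstd : ∀ M, BLine S M → ∃ w ψ, Std S M w ψ) (hq : Fintype.card K % 3 = 1)
    {v k : Fin 3 → K} {t : Ln} (ht : ALine S v k t) : {c | LabA S v k t c}.ncard = 3 := by
  classical
  obtain ⟨ω, hω, hω1⟩ := exists_omega (K := K) hq
  obtain ⟨c0, hc0⟩ := LabA.exists H S hstd ht
  have hne := hc0.ne_zero
  have hset : {c | LabA S v k t c} = {c0, ω * c0, ω ^ 2 * c0} := by
    ext c
    simp only [Set.mem_setOf_eq, Set.mem_insert_iff, Set.mem_singleton_iff]
    constructor
    · intro hc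
      have h1 := LabA.cube H S ht hc0 hc
      have h2 : (c / c0) ^ 3 = 1 := by
        rw [div_pow, h1, div_self (pow_ne_zero 3 hne)]
      rcases (cube_cases hω hω1).1 h2 with h | h | h
      · left; exact (div_eq_one_iff_eq hne).1 h
      · right; left; rw [← h, div_mul_cancel₀ _ hne]
      · right; right; rw [← h, div_mul_cancel₀ _ hne]
    · rintro (h | h | h)
      · rw [h]; exact hc0
      · rw [h]; exact hc0.zeta hω
      · rw [h]; exact hc0.zeta ((cube_cases hω hω1).2 (Or.inr (Or.inr rfl)))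
  have hω0 : ω ≠ 0 := by
    rintro rfl
    simp at hω
  have d1 : c0 ≠ ω * c0 := by
    intro h
    exact hω1 (mul_right_cancel₀ hne (by rw [one_mul]; exact h.symm))
  have d2 : c0 ≠ ω ^ 2 * c0 := by
    intro h
    have : ω ^ 2 = 1 := mul_right_cancel₀ hne (by rw [one_mul]; exact h.symm)
    apply hω1
    calc ω = ω ^ 3 / ω ^ 2 := by field_simp
      _ = 1 := by rw [hω, this, div_one]
  have d3 : ω * c0 ≠ ω ^ 2 * c0 := by
    intro h
    have h2 : ω = ω ^ 2 := mul_right_cancel₀ hne h
    apply hω1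
    have : ω * 1 = ω * ω := by rw [mul_one, ← pow_two]; exact h2
    exact (mul_left_cancel₀ hω0 this).symm
  rw [hset, Set.ncard_eq_toFinset_card']
  simp only [Set.toFinset_insert, Set.toFinset_singleton]
  rw [Finset.card_insert_of_notMem, Finset.card_insert_of_notMem, Finset.card_singleton]
  · simpa using d3
  · simp only [Finset.mem_insert, Finset.mem_singleton, not_or]
    exact ⟨d1, d2⟩

variable (hel : ∀ u m : Fin 3 → K, u ⬝ᵥ m = 0 →
      ∃ g : Equiv.Perm Pt × Equiv.Perm Ln, IsAut I g ∧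
      ∀ v k, IsFlag v k → g.1 (S.pt v k) = S.pt (v + (m ⬝ᵥ v) • u) (k - (u ⬝ᵥ k) • m))
include hel

/-- the label classes have the same size -/
theorem lab_card_le {v k : Fin 3 → K} (hf : IsFlag v k) {a : K} (ha : a ≠ 0) (c : K) :
    {t | ALine S v k t ∧ LabA S v k t c}.ncard ≤
      {t | ALine S v k t ∧ LabA S v k t (a⁻¹ * c)}.ncard := by
  obtain ⟨hPt, hLn⟩ := finite_of_hex H
  obtain ⟨g, A, hg, h1, h2⟩ := exists_scale (S := S) hel hf ha
  rw [← Set.ncard_image_of_injective _ g.2.injective]
  refine Set.ncard_le_ncard ?_ (Set.toFinite _)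
  rintro _ ⟨t, ⟨ht, hc⟩, rfl⟩
  exact ⟨aline_act H S ht hg ha h1 h2, LabA.act H S hc hg ha h1 h2⟩

/-- every label class has three A-lines -/
theorem lab_class (hstd : ∀ M, BLine S M → ∃ w ψ, Std S M w ψ) (hq : Fintype.card K % 3 = 1)
    {v k : Fin 3 → K} (hf : IsFlag v k) :
    {t | ALine S v k t ∧ LabA S v k t 1}.ncard = 3 := by
  classical
  obtain ⟨hPt, hLn⟩ := finite_of_hex H
  have : Fintype Ln := Fintype.ofFinite Ln
  have h1 : 1 < Fintype.card K := Fintype.one_lt_card
  have hall : ∀ c : K, c ≠ 0 → {t | ALine S v k t ∧ LabA S v k t c}.ncard =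
      {t | ALine S v k t ∧ LabA S v k t 1}.ncard := by
    intro c hc
    apply le_antisymm
    · have := lab_card_le H S hel hf hc c
      rwa [inv_mul_cancel₀ hc] at this
    · have := lab_card_le H S hel hf (inv_ne_zero hc) 1
      rwa [inv_inv, mul_one] at this
  set T : Finset Ln := Finset.univ.filter (fun t => ALine S v k t) with hT
  set C : Finset K := Finset.univ.filter (fun c => c ≠ 0) with hC
  have hTc : T.card = Fintype.card K - 1 := by
    rw [← aline_card H S hf, ← Set.ncard_coe_finset]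
    congr 1
    ext t
    simp [hT]
  have hCc : C.card = Fintype.card K - 1 := by
    have : C = Finset.univ.erase 0 := by
      ext c
      simp [hC]
    rw [this, Finset.card_erase_of_mem (Finset.mem_univ _), Finset.card_univ]
  have key := Finset.sum_card_bipartiteAbove_eq_sum_card_bipartiteBelow
    (s := C) (t := T) (fun c t => LabA S v k t c)
  have e1 : ∀ c ∈ C, (T.bipartiteAbove (fun c t => LabA S v k t c) c).card =
      {t | ALine S v k t ∧ LabA S v k t 1}.ncard := by
    intro c hc
    have hc0 : c ≠ 0 := by simpa [hC] using hc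
    rw [← hall c hc0, ← Set.ncard_coe_finset]
    congr 1
    ext t
    simp [hT, Finset.bipartiteAbove]
  have e2 : ∀ t ∈ T, (C.bipartiteBelow (fun c t => LabA S v k t c) t).card = 3 := by
    intro t ht
    have ht' : ALine S v k t := by simpa [hT] using ht
    rw [← lab_three H S hstd hq ht', ← Set.ncard_coe_finset]
    congr 1
    ext c
    simp only [hC, Finset.bipartiteBelow, Finset.coe_filter, Finset.mem_filter, Finset.mem_univ,
      true_and, Set.mem_setOf_eq]
    exact ⟨fun h => h.2, fun h => ⟨h.ne_zero, h⟩⟩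
  rw [Finset.sum_congr rfl e1, Finset.sum_congr rfl e2, Finset.sum_const, Finset.sum_const, hTc,
    hCc, smul_eq_mul, smul_eq_mul] at key
  exact Nat.eq_of_mul_eq_mul_left (by omega) key

/-- the group of automorphisms trivial on the subhexagon has order dividing 3 -/
theorem card_kerG (hstd : ∀ M, BLine S M → ∃ w ψ, Std S M w ψ)
    (hq : Fintype.card K % 3 = 1) : Nat.card (kerG S) ∣ 3 := by
  obtain ⟨hPt, hLn⟩ := finite_of_hex H
  have hv : (![1, 0, 0] : Fin 3 → K) ≠ 0 := by
    intro h
    have := congrFun h 0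
    simp at this
  have hk : (![0, 0, 1] : Fin 3 → K) ≠ 0 := by
    intro h
    have := congrFun h 2
    simp at this
  have hf : IsFlag (![1, 0, 0] : Fin 3 → K) ![0, 0, 1] := ⟨hv, hk, by simp⟩
  set v : Fin 3 → K := ![1, 0, 0]
  set k : Fin 3 → K := ![0, 0, 1]
  have hpres : ∀ g : kerG S, ∀ t, (ALine S v k t ∧ LabA S v k t 1) →
      (ALine S v k (g.1.2 t) ∧ LabA S v k (g.1.2 t) 1) := by
    intro g t ⟨h1, h2⟩
    have hg : Act S g.1 (1 : SL3 K) := g.2
    have a1 := aline_act H S h1 hg one_ne_zero (by rw [sv_one, one_smul]) (sk_one k)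
    have a2 := LabA.act H S h2 hg one_ne_zero (by rw [sv_one, one_smul]) (sk_one k)
    rw [inv_one, one_mul] at a2
    exact ⟨a1, a2⟩
  let _ : MulAction (kerG S) {t // ALine S v k t ∧ LabA S v k t 1} :=
    { smul := fun g t => ⟨g.1.2 t.1, hpres g t.1 t.2⟩
      one_smul := fun t => rfl
      mul_smul := fun g h t => rfl }
  have hd := card_dvd_of_free (G := kerG S) (X := {t // ALine S v k t ∧ LabA S v k t 1}) (by
    intro g t h
    have h1 : g.1.2 t.1 = t.1 := congrArg Subtype.val h
    exact Subtype.ext (act_free_aline H S g.2 t.2.1 h1))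
  have hc : Nat.card {t // ALine S v k t ∧ LabA S v k t 1} = 3 := lab_class H S hel hstd hq hf
  rwa [hc] at hd

end main

end Pool.Agent.Lib.MP_6b0fe3_coR
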