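import Pool.Agent.Lib.MP_6b0fe3_coR.LabG
import Pool.Agent.Lib.MP_6b0fe3_coR.GrpC
import Pool.Agent.Lib.MP_6b0fe3_coR.GrpK
import Pool.Agent.Lib.MP_6b0fe3_coR.BasisC
import Pool.Agent.Lib.MP_6b0fe3_coR.FinalR3

/-! MP_6b0fe3_co, R3: assembly for all finite fields -/

namespace Pool.Agent.Lib.MP_6b0fe3_coR

open Matrix CountM

/-- a coherent labelling exists if the elations lift and all B-lines have standard coordinates -/
theorem exists_lab_all {K : Type*} [Field K] [Fintype K] {Pt Ln : Type*} {I : Pt → Ln → Prop}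
    (H : Hex I (Fintype.card K)) (S : Sub K I)
    (hel : ∀ u m : Fin 3 → K, u ⬝ᵥ m = 0 → ∃ g : Equiv.Perm Pt × Equiv.Perm Ln, IsAut I g ∧
      ∀ v k, IsFlag v k → g.1 (S.pt v k) = S.pt (v + (m ⬝ᵥ v) • u) (k - (u ⬝ᵥ k) • m))
    (hstd : ∀ M, BLine S M → ∃ w ψ, Std S M w ψ) : Nonempty (Lab S) := by
  by_cases hq : Fintype.card K % 3 = 1
  · have hker := card_kerG H S hel hstd hq
    have hcan : ∀ u m : Fin 3 → K, ∀ h : m ⬝ᵥ u = 0, IsFlag u m → ∃ z, Can S z u m h :=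
      fun u m h hf => can_exists S H hel hker hq hf h
    exact exists_lab H S hcan hstd (canPi_injective H S hcan hstd hker hq)
  · refine ⟨{
      T := fun M w ψ => BLine S M ∧ Std S M w ψ
      std := fun h => h.2
      ex := fun {M} hM => ?_
      coh := ?_ }⟩
    · obtain ⟨w, ψ, h⟩ := hstd M hM
      exact ⟨w, ψ, hM, h⟩
    · rintro v k t x y M N w ψ w' ψ' ht hox hoy hxt hyt - - hxM hyN ⟨hM, hs⟩ ⟨hN, hs'⟩
      have hxo := (out_of_aline H S ht hxt (hox v k ht.1)).2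
      have hyo := (out_of_aline H S ht hyt (hoy v k ht.1)).2
      exact rep_aline H S (cube_one' hq) ht hxt hyt hox hoy (CountM.rep_of_std H S hM hs hxM hxo)
        (CountM.rep_of_std H S hN hs' hyN hyo)

/-- **Second main theorem, all finite fields.** A generalized hexagon of order `(q,q)` containing
`H(q,1)` such that every elation of `PG(2,q)` extends to an automorphism is isomorphic to the dual
of the split Cayley hexagon. -/
theorem main_all {K : Type*} [Field K] [Fintype K] [DecidableEq K]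
    {Pt Ln : Type*} {I : Pt → Ln → Prop}
    (hI : IsGenHexagon (Fintype.card K) (Fintype.card K) I) (a : Flag K → Pt)
    (b : Projectivization K (Fin 3 → K) ⊕ Projectivization K (Fin 3 → K) → Ln)
    (ha : Function.Injective a) (hb : Function.Injective b)
    (hab : ∀ f e, I (a f) (b e) ↔ flagInc f e)
    (hel : ∀ u m : Fin 3 → K, u ⬝ᵥ m = 0 → ∃ g : Equiv.Perm Pt × Equiv.Perm Ln,
      IsAut I g ∧ ∀ f f', ElationRel u m f f' → g.1 (a f) = a f') :
    ∃ (e₁ : Pt ≃ HLine K) (e₂ : Ln ≃ HPoint K), ∀ x l, I x l ↔ (e₂ l).1 ≤ (e₁ x).1 := by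
  have H := hex_of_isGenHexagon hI
  obtain ⟨S, hlp, hll, hpt⟩ := exists_sub a b ha hb hab
  have hS : ∀ u m : Fin 3 → K, u ⬝ᵥ m = 0 → ∃ g : Equiv.Perm Pt × Equiv.Perm Ln,
      IsAut I g ∧
      ∀ v k, IsFlag v k → g.1 (S.pt v k) = S.pt (v + (m ⬝ᵥ v) • u) (k - (u ⬝ᵥ k) • m) := by
    intro u m hum
    obtain ⟨g, hg, hgf⟩ := hel u m hum
    refine ⟨g, hg, fun v k hf => ?_⟩
    have hf' := elation_flag hum hf
    obtain ⟨f, h1, h2, h3⟩ := hpt v k hf
    obtain ⟨f', h1', h2', h3'⟩ := hpt _ _ hf'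
    rw [h1, h1']
    exact hgf f f' ⟨v, k, hf.1, hf.2.1, hf'.1, hf'.2.1, h2, h3, h2', h3'⟩
  obtain ⟨S', hel', hstd'⟩ := exists_std_basis H S hS
  obtain ⟨L⟩ := exists_lab_all H S' hel' hstd'
  exact iso_of_lab H L

end Pool.Agent.Lib.MP_6b0fe3_coR
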