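import Pool.Agent.Lib.MP_6b0fe3_coR.FinalO
import Pool.Agent.Lib.MP_6b0fe3_coR.CountL

/-! MP_6b0fe3_co: assembly for coherent coordinates (no hypothesis on the cube roots of unity) -/

namespace Pool.Agent.Lib.MP_6b0fe3_coR

open Matrix

section OL
variable {K : Type*} [Field K] [Fintype K] {Pt Ln : Type*} {I : Pt → Ln → Prop}

/-- the line `l` of the geometry is the point `U` of the model -/
def LRelL {S : Sub K I} (L : Lbl S) (l : Ln) (U : Submodule K (Fin 7 → K)) : Prop :=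
  (∃ v, v ≠ 0 ∧ l = S.lp v ∧ U = Submodule.span K {v7 v 0 0}) ∨
  (∃ k, k ≠ 0 ∧ l = S.ll k ∧ U = Submodule.span K {v7 0 0 k}) ∨
  (∃ v φ, IsFlag v φ ∧ ALine S v φ l ∧
    (∃ x w ψ, I x l ∧ Out S x ∧ L.R x v w ψ ∧ w ⨯₃ v = φ) ∧
    U = Submodule.span K {v7 v 0 φ}) ∨
  (∃ w ψ, ψ ⬝ᵥ w = 1 ∧ BLine S l ∧ L.T l w ψ ∧ U = Submodule.span K {v7 w 1 ψ})

/-- the point `x` of the geometry is the line `W` of the model -/
def PRelL {S : Sub K I} (L : Lbl S) (x : Pt) (W : Submodule K (Fin 7 → K)) : Prop :=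
  (∃ v k, IsFlag v k ∧ x = S.pt v k ∧ W = Submodule.span K {v7 v 0 0, v7 0 0 k}) ∨
  (∃ v w ψ, v ≠ 0 ∧ Out S x ∧ L.R x v w ψ ∧
    W = Submodule.span K {v7 v 0 (w ⨯₃ v), v7 w 1 ψ})

variable (H : Hex I (Fintype.card K)) {S : Sub K I} (L : Lbl S)
include H

/-- every outside point has a representation -/
theorem rep_existsL {x : Pt} (hx : Out S x) : ∃ v w ψ, v ≠ 0 ∧ L.R x v w ψ := by
  obtain ⟨v, k, hv⟩ := over_exists H S hx
  obtain ⟨e, he⟩ := exists_dot_one hv.1.2.1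
  have he0 : e ≠ 0 := by
    rintro rfl
    rw [dotProduct_zero] at he
    exact zero_ne_one he
  obtain ⟨m, hm, hn⟩ := theta_exists H S hx hv he0
  have hek : e ⬝ᵥ k ≠ 0 := by rw [dotProduct_comm, he]; exact one_ne_zero
  have hvm := near_opp H S hx hv hm hn hek
  obtain ⟨M, hM, hxM, -⟩ := bline_through H S hx hv hm ⟨hvm, hek⟩ hn
  obtain ⟨w, ψ, hs⟩ := L.T_ex hM
  exact ⟨v, w, ψ, hv.1.1, L.T_R hM hs hxM hv⟩

/-- two representations of the same outside point -/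
theorem rep_changeL {x : Pt} (hx : Out S x)
    {v w ψ v' w' ψ' : Fin 3 → K} (hv' : v' ≠ 0) (h : L.R x v w ψ) (h' : L.R x v' w' ψ') :
    ∃ c s : K, c ≠ 0 ∧ v' = c • v ∧ w' = w + s • v ∧ ψ' = ψ + s • (w ⨯₃ v) := by
  have hov := (over_unique H S hx (L.R_rep h).2.2.1 (L.R_rep h').2.2.1).1
  obtain ⟨c, hc0, hc1⟩ := (cross_eq_zero_iff (L.R_rep h).2.2.1.1.1 hv').1 hov
  subst hc1
  have h1 := L.R_smul h' (inv_ne_zero hc0)
  rw [smul_smul, inv_mul_cancel₀ hc0, one_smul] at h1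
  obtain ⟨s, hs1, hs2⟩ := L.unique H hx h h1
  exact ⟨c, s, hc0, rfl, hs1, hs2⟩

/-- two outside points with the same representation are equal -/
theorem rep_injL {x y : Pt} (hx : Out S x) (hy : Out S y)
    {v w ψ : Fin 3 → K} (h : L.R x v w ψ) (h' : L.R y v w ψ) : x = y := by
  obtain ⟨t, ht, hxt⟩ := aline_exists H S hx (L.R_rep h).2.2.1
  obtain ⟨t', ht', hyt'⟩ := aline_exists H S hy (L.R_rep h').2.2.1
  obtain ⟨t0, -, huniq⟩ := aline_uniqueL H L (L.R_rep h).2.2.1.1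
  have e1 := huniq t ⟨ht, x, w, ψ, hxt, hx, h, rfl⟩
  have e2 := huniq t' ⟨ht', y, w, ψ, hyt', hy, h', rfl⟩
  rw [e1] at ht hxt
  rw [e2] at hyt'
  -- an opposite flag near x
  obtain ⟨e, he⟩ := exists_dot_one (L.R_rep h).2.2.1.1.2.1
  have he0 : e ≠ 0 := by
    rintro rfl
    rw [dotProduct_zero] at he
    exact zero_ne_one he
  obtain ⟨m, hm, hn⟩ := theta_exists H S hx (L.R_rep h).2.2.1 he0
  have hek : e ⬝ᵥ (w ⨯₃ v) ≠ 0 := by rw [dotProduct_comm, he]; exact one_ne_zero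
  have hvm := near_opp H S hx (L.R_rep h).2.2.1 hm hn hek
  have hn' : Near I y (S.pt e m) :=
    ((L.R_rep h').2.2.2 e m hm ⟨hvm, hek⟩).2 (((L.R_rep h).2.2.2 e m hm ⟨hvm, hek⟩).1 hn)
  exact near_aline_unique H S ht hm ⟨hvm, hek⟩ hxt hyt' hn hn'

omit [Fintype K] H in
/-- the property of `aline_uniqueL` for proportional coordinates -/
theorem aprop_smulL {v φ : Fin 3 → K} {t : Ln}
    (h : ALine S v φ t ∧ ∃ x w ψ, I x t ∧ Out S x ∧ L.R x v w ψ ∧ w ⨯₃ v = φ) {c : K}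
    (hc : c ≠ 0) : ALine S (c • v) (c • φ) t ∧
      ∃ x w ψ, I x t ∧ Out S x ∧ L.R x (c • v) w ψ ∧ w ⨯₃ (c • v) = c • φ := by
  obtain ⟨ht, x, w, ψ, hx, hox, hr, hw⟩ := h
  exact ⟨aline_smul S ht hc hc, x, w, ψ, hx, hox, L.R_smul hr hc, by rw [map_smul, hw]⟩

theorem lrel_existsL (l : Ln) : ∃ U : HPoint K, LRelL L l U.1 := by
  rcases line_cases H S l with ⟨v, hv, rfl⟩ | ⟨k, hk, rfl⟩ | ⟨v, k, ht⟩ | hM
  · exact ⟨⟨_, hpoint_lp hv⟩, Or.inl ⟨v, hv, rfl, rfl⟩⟩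
  · exact ⟨⟨_, hpoint_ll hk⟩, Or.inr (Or.inl ⟨k, hk, rfl, rfl⟩)⟩
  · obtain ⟨r, m, hf, ho⟩ := opp_flag_exists ht.1
    obtain ⟨x, hx, hox, hov, -⟩ := near_on_aline H S ht hf ho
    obtain ⟨v', w, ψ, hv', hrep⟩ := rep_existsL H L hox
    obtain ⟨c, hc0, hc1⟩ := (cross_eq_zero_iff ht.1.1 hv').1 (over_unique H S hox hov (L.R_rep hrep).2.2.1).1
    have hrep' := L.R_smul hrep (inv_ne_zero hc0)
    rw [hc1, smul_smul, inv_mul_cancel₀ hc0, one_smul] at hrep'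
    obtain ⟨d, hd0, hd1⟩ := (cross_eq_zero_iff ht.1.2.1 (L.R_rep hrep').2.2.1.1.2.1).1
      (over_unique H S hox hov (L.R_rep hrep').2.2.1).2
    have ht' := aline_smul S ht one_ne_zero hd0
    rw [one_smul, ← hd1] at ht'
    exact ⟨⟨_, hpoint_a ht'.1⟩, Or.inr (Or.inr (Or.inl ⟨v, w ⨯₃ v, ht'.1, ht',
      ⟨x, w, ψ, hx, hox, hrep', rfl⟩, rfl⟩))⟩
  · obtain ⟨w, ψ, hs⟩ := L.T_ex hM
    exact ⟨⟨_, hpoint_b (L.T_std hs).1⟩, Or.inr (Or.inr (Or.inr ⟨w, ψ, (L.T_std hs).1, hM, hs, rfl⟩))⟩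

theorem lrel_uniqueL {l : Ln} {U U' : Submodule K (Fin 7 → K)} (h : LRelL L l U)
    (h' : LRelL L l U') : U = U' := by
  rcases h with ⟨v, hv, rfl, rfl⟩ | ⟨k, hk, rfl, rfl⟩ | ⟨v, φ, hf, ht, ⟨x, w, ψ, hx, hox, hr, hw⟩, rfl⟩ |
    ⟨w, ψ, h1, hM, hs, rfl⟩ <;>
  rcases h' with ⟨v', hv', he, rfl⟩ | ⟨k', hk', he, rfl⟩ |
    ⟨v', φ', hf', ht', ⟨x', w', ψ', hx', hox', hr', hw'⟩, rfl⟩ | ⟨w', ψ', h1', hM', hs', rfl⟩
  · exact (span_lp_eq hv hv').2 ((S.lp_eq hv hv').1 he)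
  · exact absurd he (S.lp_ne_ll hv hk')
  · exact (lp_not_aline H S hv ht').elim
  · exact absurd hM' (lp_not_bline S hv)
  · exact absurd he.symm (S.lp_ne_ll hv' hk)
  · exact (span_ll_eq hk hk').2 ((S.ll_eq hk hk').1 he)
  · exact (ll_not_aline H S hk ht').elim
  · exact absurd hM' (ll_not_bline S hk)
  · subst he
    exact (lp_not_aline H S hv' ht).elim
  · subst he
    exact (ll_not_aline H S hk' ht).elim
  · obtain ⟨c, hc0, hc1⟩ := (cross_eq_zero_iff hf.1 hf'.1).1 (aline_over H S ht hf' ht'.2.1).1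
    have hr2 := L.R_smul hr' (inv_ne_zero hc0)
    rw [hc1, smul_smul, inv_mul_cancel₀ hc0, one_smul] at hr2
    have hra := L.R_aline ht hx hx' hox hox' hr hr2
    refine (span_a_eq hf hf').2 ⟨c, hc0, hc1, ?_⟩
    rw [← hw', hc1, map_smul, hra, hw]
  · exact absurd hM' (not_bline_aline H S ht)
  · subst he
    exact absurd hM (lp_not_bline S hv')
  · subst he
    exact absurd hM (ll_not_bline S hk')
  · exact absurd hM (not_bline_aline H S ht')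
  · obtain ⟨e1, e2⟩ := std_coord_uniqueL H L hM hs hs'
    rw [e1, e2]

theorem lrel_existsL' (U : HPoint K) : ∃ l, LRelL L l U.1 := by
  rcases hpoint_cases U with ⟨v, hv, e⟩ | ⟨k, hk, e⟩ | ⟨v, k, hf, e⟩ | ⟨w, ψ, h1, e⟩
  · exact ⟨S.lp v, Or.inl ⟨v, hv, rfl, e⟩⟩
  · exact ⟨S.ll k, Or.inr (Or.inl ⟨k, hk, rfl, e⟩)⟩
  · obtain ⟨t, ⟨ht, hx⟩, -⟩ := aline_uniqueL H L hf
    exact ⟨t, Or.inr (Or.inr (Or.inl ⟨v, k, hf, ht, hx, e⟩))⟩
  · obtain ⟨M, ⟨hM, hs⟩, -⟩ := std_uniqueL H L h1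
    exact ⟨M, Or.inr (Or.inr (Or.inr ⟨w, ψ, h1, hM, hs, e⟩))⟩

theorem lrel_uniqueL' {l l' : Ln} {U : Submodule K (Fin 7 → K)} (h : LRelL L l U)
    (h' : LRelL L l' U) : l = l' := by
  rcases h with ⟨v, hv, rfl, e⟩ | ⟨k, hk, rfl, e⟩ | ⟨v, φ, hf, ht, hx, e⟩ |
    ⟨w, ψ, h1, hM, hs, e⟩ <;>
  rcases h' with ⟨v', hv', rfl, e'⟩ | ⟨k', hk', rfl, e'⟩ | ⟨v', φ', hf', ht', hx', e'⟩ |
    ⟨w', ψ', h1', hM', hs', e'⟩
  · exact (S.lp_eq hv hv').2 ((span_lp_eq hv hv').1 (e.symm.trans e'))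
  · obtain ⟨v0, hv0, hk0, -⟩ := exists_orth k' k'
    exact absurd (e.symm.trans e') (kinds (v := v0) (k := k') (w := 0) (ψ := 0) hv hk'
      ⟨hv0, hk', by rw [dotProduct_comm]; exact hk0⟩).1
  · exact absurd (e.symm.trans e') (kinds (w := 0) (ψ := 0) hv hf'.2.1 hf').2.1
  · obtain ⟨k0, hk0, hk1, -⟩ := exists_orth v v
    exact absurd (e.symm.trans e') (kinds (v := v) (k := k0) (w := w') (ψ := ψ') hv hk0
      ⟨hv, hk0, hk1⟩).2.2.1
  · obtain ⟨k0, hk0, hk1, -⟩ := exists_orth v' v'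
    exact absurd (e'.symm.trans e) (kinds (v := v') (k := k0) (w := 0) (ψ := 0) hv' hk
      ⟨hv', hk0, hk1⟩).1
  · exact (S.ll_eq hk hk').2 ((span_ll_eq hk hk').1 (e.symm.trans e'))
  · exact absurd (e.symm.trans e') (kinds (w := 0) (ψ := 0) hf'.1 hk hf').2.2.2.1
  · obtain ⟨v0, hv0, hk0, -⟩ := exists_orth k k
    exact absurd (e.symm.trans e') (kinds (v := v0) (k := k) (w := w') (ψ := ψ') hv0 hk
      ⟨hv0, hk, by rw [dotProduct_comm]; exact hk0⟩).2.2.2.2.1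
  · exact absurd (e'.symm.trans e) (kinds (w := 0) (ψ := 0) hv' hf.2.1 hf).2.1
  · exact absurd (e'.symm.trans e) (kinds (w := 0) (ψ := 0) hf.1 hk' hf).2.2.2.1
  · obtain ⟨c, hc0, hc1, hc2⟩ := (span_a_eq hf hf').1 (e.symm.trans e')
    subst hc1
    subst hc2
    have h2 := aprop_smulL L ⟨ht', hx'⟩ (inv_ne_zero hc0)
    rw [smul_smul, smul_smul, inv_mul_cancel₀ hc0, one_smul, one_smul] at h2
    obtain ⟨t0, -, hu⟩ := aline_uniqueL H L hf
    rw [hu l ⟨ht, hx⟩, hu l' h2]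
  · exact absurd (e.symm.trans e') (kinds (w := w') (ψ := ψ') hf.1 hf.2.1 hf).2.2.2.2.2
  · obtain ⟨k0, hk0, hk1, -⟩ := exists_orth v' v'
    exact absurd (e'.symm.trans e) (kinds (v := v') (k := k0) (w := w) (ψ := ψ) hv' hk0
      ⟨hv', hk0, hk1⟩).2.2.1
  · obtain ⟨v0, hv0, hk0, -⟩ := exists_orth k' k'
    exact absurd (e'.symm.trans e) (kinds (v := v0) (k := k') (w := w) (ψ := ψ) hv0 hk'
      ⟨hv0, hk', by rw [dotProduct_comm]; exact hk0⟩).2.2.2.2.1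
  · exact absurd (e'.symm.trans e) (kinds (w := w) (ψ := ψ) hf'.1 hf'.2.1 hf').2.2.2.2.2
  · obtain ⟨e1, e2⟩ := span_b_eq.1 (e.symm.trans e')
    subst e1
    subst e2
    obtain ⟨M0, -, hu⟩ := std_uniqueL H L h1
    rw [hu l ⟨hM, hs⟩, hu l' ⟨hM', hs'⟩]

theorem prel_existsL (x : Pt) : ∃ W : HLine K, PRelL L x W.1 := by
  by_cases hx : Out S x
  · obtain ⟨v, w, ψ, hv, hr⟩ := rep_existsL H L hx
    exact ⟨⟨_, hline_out hv (L.R_rep hr).1 (L.R_rep hr).2.1⟩, Or.inr ⟨v, w, ψ, hv, hx, hr, rfl⟩⟩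
  · unfold Out at hx
    push Not at hx
    obtain ⟨v, k, hf, he⟩ := hx
    exact ⟨⟨_, hline_flag hf⟩, Or.inl ⟨v, k, hf, he, rfl⟩⟩

theorem prel_uniqueL {x : Pt} {W W' : Submodule K (Fin 7 → K)} (h : PRelL L x W)
    (h' : PRelL L x W') : W = W' := by
  rcases h with ⟨v, k, hf, rfl, rfl⟩ | ⟨v, w, ψ, hv, hx, hr, rfl⟩ <;>
  rcases h' with ⟨v', k', hf', he, rfl⟩ | ⟨v', w', ψ', hv', hx', hr', rfl⟩
  · obtain ⟨h1, h2⟩ := (S.pt_eq hf hf').1 he
    apply le_antisymm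
    · rw [Submodule.span_le]
      rintro y (rfl | rfl)
      · exact (lp_mem_flag hf.1 hf').2 (cross_zero_symm h1)
      · exact (ll_mem_flag hf.2.1 hf').2 (cross_zero_symm h2)
    · rw [Submodule.span_le]
      rintro y (rfl | rfl)
      · exact (lp_mem_flag hf'.1 hf).2 h1
      · exact (ll_mem_flag hf'.2.1 hf).2 h2
  · exact absurd rfl (hx' v k hf)
  · exact absurd he (hx v' k' hf')
  · obtain ⟨c, s, hc, e1, e2, e3⟩ := rep_changeL H L hx hv' hr hr'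
    have hle : Submodule.span K {v7 v' 0 (w' ⨯₃ v'), v7 w' 1 ψ'} ≤
        Submodule.span K {v7 v 0 (w ⨯₃ v), v7 w 1 ψ} := by
      rw [Submodule.span_le]
      rintro y (rfl | rfl)
      · refine (a_mem_out (L.R_rep hr').2.2.1.1 hv (L.R_rep hr).1 (L.R_rep hr).2.1).2 ⟨c, hc, e1, ?_⟩
        rw [e1, e2, map_smul, map_add, map_smul]
        simp [cross_self]
      · exact (b_mem_out hv (L.R_rep hr).1 (L.R_rep hr).2.1).2 ⟨s, e2, e3⟩
    exact (Submodule.eq_of_le_of_finrank_eq hle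
      ((hline_out hv' (L.R_rep hr').1 (L.R_rep hr').2.1).1.trans (hline_out hv (L.R_rep hr).1 (L.R_rep hr).2.1).1.symm)).symm

theorem prel_existsL' (W : HLine K) : ∃ x, PRelL L x W.1 := by
  rcases hline_cases W with ⟨v, k, hf, e⟩ | ⟨v, w, ψ, hv, h1, h0, e⟩
  · exact ⟨S.pt v k, Or.inl ⟨v, k, hf, rfl, e⟩⟩
  · obtain ⟨M, ⟨hM, hs⟩, -⟩ := std_uniqueL H L h1
    obtain ⟨x, hx, hov, -⟩ := (L.T_std hs).2 v hv h0
    exact ⟨x, Or.inr ⟨v, w, ψ, hv, out_of_bline H S hM hx, L.T_R hM hs hx hov, e⟩⟩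

theorem prel_uniqueL' {x x' : Pt} {W : Submodule K (Fin 7 → K)} (h : PRelL L x W)
    (h' : PRelL L x' W) : x = x' := by
  rcases h with ⟨v, k, hf, rfl, e⟩ | ⟨v, w, ψ, hv, hx, hr, e⟩ <;>
  rcases h' with ⟨v', k', hf', rfl, e'⟩ | ⟨v', w', ψ', hv', hx', hr', e'⟩
  · have h1 : v7 v 0 0 ∈ Submodule.span K {v7 v' 0 0, v7 0 0 k'} := by
      rw [← e', e]
      exact Submodule.subset_span (by simp)
    have h2 : v7 0 0 k ∈ Submodule.span K {v7 v' 0 0, v7 0 0 k'} := by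
      rw [← e', e]
      exact Submodule.subset_span (by simp)
    exact (S.pt_eq hf hf').2 ⟨cross_zero_symm ((lp_mem_flag hf.1 hf').1 h1),
      cross_zero_symm ((ll_mem_flag hf.2.1 hf').1 h2)⟩
  · have h1 : v7 w' 1 ψ' ∈ Submodule.span K {v7 v 0 0, v7 0 0 k} := by
      rw [← e, e']
      exact Submodule.subset_span (by simp)
    exact absurd h1 b_not_mem_flag
  · have h1 : v7 w 1 ψ ∈ Submodule.span K {v7 v' 0 0, v7 0 0 k'} := by
      rw [← e', e]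
      exact Submodule.subset_span (by simp)
    exact absurd h1 b_not_mem_flag
  · have h1 : v7 v' 0 (w' ⨯₃ v') ∈ Submodule.span K {v7 v 0 (w ⨯₃ v), v7 w 1 ψ} := by
      rw [← e, e']
      exact Submodule.subset_span (by simp)
    have h2 : v7 w' 1 ψ' ∈ Submodule.span K {v7 v 0 (w ⨯₃ v), v7 w 1 ψ} := by
      rw [← e, e']
      exact Submodule.subset_span (by simp)
    obtain ⟨c, hc, e1, -⟩ := (a_mem_out (L.R_rep hr').2.2.1.1 hv (L.R_rep hr).1 (L.R_rep hr).2.1).1 h1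
    obtain ⟨s, e2, e3⟩ := (b_mem_out hv (L.R_rep hr).1 (L.R_rep hr).2.1).1 h2
    have hr2 := L.R_smul hr' (inv_ne_zero hc)
    rw [e1, smul_smul, inv_mul_cancel₀ hc, one_smul] at hr2
    have hr3 := L.R_add hr2 (-s)
    have ew : w' ⨯₃ v = w ⨯₃ v := by
      rw [e2, map_add, map_smul]
      simp [cross_self]
    have f2 : w' + (-s) • v = w := by rw [e2]; module
    have f3 : ψ' + (-s) • (w' ⨯₃ v) = ψ := by rw [ew, e3]; module
    rw [f2, f3] at hr3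
    exact rep_injL H L hx hx' hr hr3

theorem inc_iffL {x : Pt} {l : Ln} {U W : Submodule K (Fin 7 → K)} (hl : LRelL L l U)
    (hx : PRelL L x W) : I x l ↔ U ≤ W := by
  rcases hx with ⟨v, k, hf, rfl, rfl⟩ | ⟨v, w, ψ, hv, hox, hr, rfl⟩
  · rcases hl with ⟨u, hu, rfl, rfl⟩ | ⟨m, hm, rfl, rfl⟩ | ⟨v', φ', hf', ht, -, rfl⟩ |
      ⟨w, ψ, h1, hM, hs, rfl⟩
    · rw [Submodule.span_singleton_le_iff_mem, lp_mem_flag hu hf]
      exact S.inc_lp hf hu
    · rw [Submodule.span_singleton_le_iff_mem, ll_mem_flag hm hf]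
      exact S.inc_ll hf hm
    · rw [Submodule.span_singleton_le_iff_mem, a_mem_flag hf' hf]
      constructor
      · intro h
        obtain ⟨h1, h2⟩ := aline_over H S ht hf h
        exact ⟨cross_zero_symm h1, cross_zero_symm h2⟩
      · rintro ⟨h1, h2⟩
        rw [(S.pt_eq hf hf').2 ⟨h1, h2⟩]
        exact ht.2.1
    · rw [Submodule.span_singleton_le_iff_mem]
      exact ⟨fun h => absurd h (hM v k hf), fun h => absurd h b_not_mem_flag⟩
  · rcases hl with ⟨u, hu, rfl, rfl⟩ | ⟨m, hm, rfl, rfl⟩ |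
      ⟨v', φ', hf', ht, ⟨y, w', ψ', hy, hoy, hr', hw'⟩, rfl⟩ | ⟨w', ψ', h1, hM, hs, rfl⟩
    · rw [Submodule.span_singleton_le_iff_mem]
      refine ⟨fun h => ?_, fun h => absurd h (lp_not_mem_out hu hv (L.R_rep hr).1 (L.R_rep hr).2.1)⟩
      obtain ⟨k, hk, he⟩ := flag_on_lp H S hu h
      exact absurd he (hox u k hk)
    · rw [Submodule.span_singleton_le_iff_mem]
      refine ⟨fun h => ?_, fun h => absurd h (ll_not_mem_out hm hv (L.R_rep hr).1 (L.R_rep hr).2.1)⟩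
      obtain ⟨u, hk, he⟩ := flag_on_ll H S hm h
      exact absurd he (hox u m hk)
    · rw [Submodule.span_singleton_le_iff_mem, a_mem_out hf' hv (L.R_rep hr).1 (L.R_rep hr).2.1]
      constructor
      · intro h
        have hov := (out_of_aline H S ht h (hox v' φ' hf')).2
        obtain ⟨c, hc0, hc1⟩ := (cross_eq_zero_iff hv hf'.1).1
          (over_unique H S hox (L.R_rep hr).2.2.1 hov).1
        have hr2 := L.R_smul hr hc0
        rw [← hc1] at hr2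
        have := L.R_aline ht hy h hoy hox hr' hr2
        refine ⟨c, hc0, hc1, ?_⟩
        rw [← hw', ← this, hc1, map_smul]
      · rintro ⟨c, hc, e1, e2⟩
        obtain ⟨t, ht', hxt⟩ := aline_exists H S hox (L.R_rep hr).2.2.1
        obtain ⟨t0, -, hu⟩ := aline_uniqueL H L (L.R_rep hr).2.2.1.1
        have h1 := aprop_smulL L
          ⟨ht, y, w', ψ', hy, hoy, hr', hw'⟩ (inv_ne_zero hc)
        rw [e1, e2, smul_smul, smul_smul, inv_mul_cancel₀ hc, one_smul, one_smul] at h1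
        rw [hu l h1, ← hu t ⟨ht', x, w, ψ, hxt, hox, hr, rfl⟩]
        exact hxt
    · rw [Submodule.span_singleton_le_iff_mem, b_mem_out hv (L.R_rep hr).1 (L.R_rep hr).2.1]
      constructor
      · intro h
        exact L.unique H hox hr (L.T_R hM hs h (L.R_rep hr).2.2.1)
      · rintro ⟨s, e1, e2⟩
        have hr2 := L.R_add hr s
        rw [← e1, ← e2] at hr2
        obtain ⟨y, hy, hov, -⟩ := (L.T_std hs).2 v hv (L.R_rep hr2).2.1
        have : x = y := rep_injL H L hox (out_of_bline H S hM hy) hr2 (L.T_R hM hs hy hov)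
        rw [this]
        exact hy

include L in
/-- the isomorphism -/
theorem iso_existsL : ∃ (e₁ : Pt ≃ HLine K) (e₂ : Ln ≃ HPoint K),
    ∀ x l, I x l ↔ (e₂ l).1 ≤ (e₁ x).1 := by
  choose f hf using prel_existsL H L
  choose g hg using lrel_existsL H L
  have hfb : Function.Bijective f := by
    constructor
    · intro x y hxy
      have h1 := hf x
      rw [hxy] at h1
      exact prel_uniqueL' H L h1 (hf y)
    · intro W
      obtain ⟨x, hx⟩ := prel_existsL' H L W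
      exact ⟨x, Subtype.ext (prel_uniqueL H L (hf x) hx)⟩
  have hgb : Function.Bijective g := by
    constructor
    · intro x y hxy
      have h1 := hg x
      rw [hxy] at h1
      exact lrel_uniqueL' H L h1 (hg y)
    · intro U
      obtain ⟨l, hl⟩ := lrel_existsL' H L U
      exact ⟨l, Subtype.ext (lrel_uniqueL H L (hg l) hl)⟩
  refine ⟨Equiv.ofBijective f hfb, Equiv.ofBijective g hgb, fun x l => ?_⟩
  exact inc_iffL H L (hg l) (hf x)

end OL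

end Pool.Agent.Lib.MP_6b0fe3_coR
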