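import Pool.Agent.Lib.MP_6b0fe3_coR.Defs

/-! MP_6b0fe3_co, recognition theorem: from the incidence graph to the elementary language -/

namespace Pool.Agent.Lib.MP_6b0fe3_coR

open Matrix

section A
variable {Pt Ln : Type*} {I : Pt → Ln → Prop} {q : ℕ}

theorem adj_pl {x : Pt} {l : Ln} (h : I x l) : (incGraph I).Adj (Sum.inl x) (Sum.inr l) := h

theorem adj_lp {x : Pt} {l : Ln} (h : I x l) : (incGraph I).Adj (Sum.inr l) (Sum.inl x) := h

/-- no cycle of length `4` -/
theorem no4 (hg : (incGraph I).egirth = 12) {a b : Pt} {l m : Ln} (h1 : I a l) (h2 : I b l)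
    (h3 : I b m) (h4 : I a m) (hab : a ≠ b) : l = m := by
  by_contra hlm
  let p : (incGraph I).Walk (Sum.inr l) (Sum.inl a) :=
    .cons (adj_lp h2) (.cons (adj_pl h3) (.cons (adj_lp h4) .nil))
  have hc : (SimpleGraph.Walk.cons (adj_pl h1) p).IsCycle := by
    rw [SimpleGraph.Walk.cons_isCycle_iff]
    simp [p, SimpleGraph.Walk.isPath_def, hab, hab.symm, hlm]
  have := SimpleGraph.egirth_le_length hc
  rw [hg] at this
  simp [p] at this
  norm_num at this

/-- no cycle of length `6` -/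
theorem no6 (hg : (incGraph I).egirth = 12) {a b c : Pt} {l1 l2 l3 : Ln}
    (h1 : I a l1) (k1 : I b l1)
    (h2 : I b l2) (k2 : I c l2)
    (h3 : I c l3) (k3 : I a l3)
    (pab : a ≠ b)    (pac : a ≠ c)
    (pbc : b ≠ c)
    (q12 : l1 ≠ l2)    (q13 : l1 ≠ l3)
    (q23 : l2 ≠ l3) : False := by
  let p : (incGraph I).Walk (Sum.inr l1) (Sum.inl a) :=
    .cons (adj_lp k1) (.cons (adj_pl h2) (.cons (adj_lp k2) (.cons (adj_pl h3) (.cons (adj_lp k3) .nil))))
  have hc : (SimpleGraph.Walk.cons (adj_pl h1) p).IsCycle := by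
    rw [SimpleGraph.Walk.cons_isCycle_iff]
    simp [p, SimpleGraph.Walk.isPath_def, pab, pab.symm, pac, pac.symm, pbc, q12, q13, q23]
  have := SimpleGraph.egirth_le_length hc
  rw [hg] at this
  simp [p] at this
  norm_num at this

/-- no cycle of length `8` -/
theorem no8 (hg : (incGraph I).egirth = 12) {a b c d : Pt} {l1 l2 l3 l4 : Ln}
    (h1 : I a l1) (k1 : I b l1)
    (h2 : I b l2) (k2 : I c l2)
    (h3 : I c l3) (k3 : I d l3)
    (h4 : I d l4) (k4 : I a l4)
    (pab : a ≠ b)    (pac : a ≠ c)    (pad : a ≠ d)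
    (pbc : b ≠ c)    (pbd : b ≠ d)
    (pcd : c ≠ d)
    (q12 : l1 ≠ l2)    (q13 : l1 ≠ l3)    (q14 : l1 ≠ l4)
    (q23 : l2 ≠ l3)    (q24 : l2 ≠ l4)
    (q34 : l3 ≠ l4) : False := by
  let p : (incGraph I).Walk (Sum.inr l1) (Sum.inl a) :=
    .cons (adj_lp k1) (.cons (adj_pl h2) (.cons (adj_lp k2) (.cons (adj_pl h3) (.cons (adj_lp k3) (.cons (adj_pl h4) (.cons (adj_lp k4) .nil))))))
  have hc : (SimpleGraph.Walk.cons (adj_pl h1) p).IsCycle := by
    rw [SimpleGraph.Walk.cons_isCycle_iff]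
    simp [p, SimpleGraph.Walk.isPath_def, pab, pab.symm, pac, pac.symm, pad, pad.symm, pbc, pbd, pcd, q12, q13, q14, q23, q24, q34]
  have := SimpleGraph.egirth_le_length hc
  rw [hg] at this
  simp [p] at this
  norm_num at this

/-- no cycle of length `10` -/
theorem no10 (hg : (incGraph I).egirth = 12) {a b c d e : Pt} {l1 l2 l3 l4 l5 : Ln}
    (h1 : I a l1) (k1 : I b l1)
    (h2 : I b l2) (k2 : I c l2)
    (h3 : I c l3) (k3 : I d l3)
    (h4 : I d l4) (k4 : I e l4)
    (h5 : I e l5) (k5 : I a l5)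
    (pab : a ≠ b)    (pac : a ≠ c)    (pad : a ≠ d)    (pae : a ≠ e)
    (pbc : b ≠ c)    (pbd : b ≠ d)    (pbe : b ≠ e)
    (pcd : c ≠ d)    (pce : c ≠ e)
    (pde : d ≠ e)
    (q12 : l1 ≠ l2)    (q13 : l1 ≠ l3)    (q14 : l1 ≠ l4)    (q15 : l1 ≠ l5)
    (q23 : l2 ≠ l3)    (q24 : l2 ≠ l4)    (q25 : l2 ≠ l5)
    (q34 : l3 ≠ l4)    (q35 : l3 ≠ l5)
    (q45 : l4 ≠ l5) : False := by
  let p : (incGraph I).Walk (Sum.inr l1) (Sum.inl a) :=
    .cons (adj_lp k1) (.cons (adj_pl h2) (.cons (adj_lp k2) (.cons (adj_pl h3) (.cons (adj_lp k3) (.cons (adj_pl h4) (.cons (adj_lp k4) (.cons (adj_pl h5) (.cons (adj_lp k5) .nil))))))))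
  have hc : (SimpleGraph.Walk.cons (adj_pl h1) p).IsCycle := by
    rw [SimpleGraph.Walk.cons_isCycle_iff]
    simp [p, SimpleGraph.Walk.isPath_def, pab, pab.symm, pac, pac.symm, pad, pad.symm, pae, pae.symm, pbc, pbd, pbe, pcd, pce, pde, q12, q13, q14, q15, q23, q24, q25, q34, q35, q45]
  have := SimpleGraph.egirth_le_length hc
  rw [hg] at this
  simp [p] at this
  norm_num at this

theorem coll_symm {a b : Pt} (h : Coll I a b) : Coll I b a := by
  obtain ⟨l, h1, h2⟩ := h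
  exact ⟨l, h2, h1⟩

/-- points reached by `n` steps -/
def CollN (I : Pt → Ln → Prop) : ℕ → Pt → Pt → Prop
  | 0, x, y => x = y
  | n + 1, x, y => ∃ z, Coll I x z ∧ CollN I n z y

theorem walk_cases (n : ℕ) : ∀ (x : Pt) (v : Pt ⊕ Ln) (p : (incGraph I).Walk (Sum.inl x) v),
    p.length = n → (∀ y, v = Sum.inl y → ∃ k, n = 2 * k ∧ CollN I k x y) ∧
      ∀ l, v = Sum.inr l → ∃ k, n = 2 * k + 1 ∧ ∃ y, CollN I k x y ∧ I y l := by
  induction n using Nat.strong_induction_on with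
  | _ n ih =>
    intro x v p hp
    cases p with
    | nil =>
      refine ⟨fun y hy => ⟨0, ?_, Sum.inl_injective hy⟩, fun l hl => ?_⟩
      · simpa using hp.symm
      · exact absurd hl (by simp)
    | @cons _ w _ h p =>
      rcases w with w | m
      · exact absurd h (by simp [incGraph])
      have hxm : I x m := h
      cases p with
      | nil =>
        refine ⟨fun y hy => absurd hy (by simp), fun l hl => ⟨0, ?_, x, rfl, ?_⟩⟩
        · simpa using hp.symm
        · rw [← Sum.inr_injective hl]; exact hxm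
      | @cons _ w _ h2 p =>
        rcases w with z | m2
        swap
        · exact absurd h2 (by simp [incGraph])
        have hzm : I z m := h2
        have hlen : p.length + 2 = n := by
          rw [← hp]; simp
        have := ih p.length (by omega) z v p rfl
        refine ⟨fun y hy => ?_, fun l hl => ?_⟩
        · obtain ⟨k, hk, hc⟩ := this.1 y hy
          exact ⟨k + 1, by omega, z, ⟨m, hxm, hzm⟩, hc⟩
        · obtain ⟨k, hk, y, hc, hy⟩ := this.2 l hl
          exact ⟨k + 1, by omega, y, ⟨z, ⟨m, hxm, hzm⟩, hc⟩, hy⟩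

theorem near_of_ediam (h : IsGenHexagon q q I) (x : Pt) (l : Ln) : ∃ y, I y l ∧ Near I x y := by
  have hrefl : ∀ z : Pt, Coll I z z := by
    intro z
    have h1 := h.point_card z
    have h2 : {l | I z l}.Nonempty := by
      rw [Set.nonempty_iff_ne_empty]
      intro h0
      rw [h0] at h1
      simp at h1
    obtain ⟨m, hm⟩ := h2
    exact ⟨m, hm, hm⟩
  have he : (incGraph I).edist (Sum.inl x) (Sum.inr l) ≤ 6 := by
    rw [← h.diam]; exact SimpleGraph.edist_le_ediam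
  have hne : (incGraph I).edist (Sum.inl x) (Sum.inr l) ≠ ⊤ := by
    intro h0
    rw [h0] at he
    exact absurd he (by decide)
  obtain ⟨p, hp⟩ := SimpleGraph.exists_walk_of_edist_ne_top hne
  rw [← hp] at he
  have hle : p.length ≤ 6 := by exact_mod_cast he
  obtain ⟨k, hk, y, hc, hy⟩ := (walk_cases p.length x _ p rfl).2 l rfl
  refine ⟨y, hy, ?_⟩
  have hk2 : k ≤ 2 := by omega
  interval_cases k
  · have : x = y := hc
    subst this
    exact ⟨x, hrefl x, hrefl x⟩
  · obtain ⟨z, h1, h2⟩ := hc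
    have : z = y := h2
    subst this
    exact ⟨z, h1, hrefl z⟩
  · obtain ⟨z, h1, w, h2, h3⟩ := hc
    have : w = y := h3
    subst this
    exact ⟨z, h1, h2⟩

theorem tri_of (hg : (incGraph I).egirth = 12) {a b c : Pt} (h1 : Coll I a b) (h2 : Coll I b c)
    (h3 : Coll I a c) : ∃ l, I a l ∧ I b l ∧ I c l := by
  obtain ⟨l, hal, hbl⟩ := h1
  obtain ⟨m, hbm, hcm⟩ := h2
  obtain ⟨n, han, hcn⟩ := h3
  by_contra hno
  push Not at hno
  have hab : a ≠ b := by rintro rfl; exact hno m hbm hbm hcm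
  have hbc : b ≠ c := by rintro rfl; exact hno l hal hbl hbl
  have hac : a ≠ c := by rintro rfl; exact hno l hal hbl hal
  have hlm : l ≠ m := by rintro rfl; exact hno l hal hbl hcm
  have hln : l ≠ n := by rintro rfl; exact hno l hal hbl hcn
  have hmn : m ≠ n := by rintro rfl; exact hno m han hbm hcm
  exact no6 hg hal hbl hbm hcm hcn han hab hac hbc hlm hln hmn

theorem quadr_of (hg : (incGraph I).egirth = 12) {a b c d : Pt} (h1 : Coll I a b)
    (h2 : Coll I b c) (h3 : Coll I c d) (h4 : Coll I d a) : Coll I a c ∨ Coll I b d := by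
  obtain ⟨l1, ha1, hb1⟩ := h1
  obtain ⟨l2, hb2, hc2⟩ := h2
  obtain ⟨l3, hc3, hd3⟩ := h3
  obtain ⟨l4, hd4, ha4⟩ := h4
  by_contra hno
  rw [not_or] at hno
  obtain ⟨nac, nbd⟩ := hno
  have ac : ∀ l, I a l → I c l → False := fun l h h' => nac ⟨l, h, h'⟩
  have bd : ∀ l, I b l → I d l → False := fun l h h' => nbd ⟨l, h, h'⟩
  have pab : a ≠ b := by rintro rfl; exact ac l2 hb2 hc2
  have pbc : b ≠ c := by rintro rfl; exact ac l1 ha1 hb1
  have pcd : c ≠ d := by rintro rfl; exact ac l4 ha4 hd4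
  have pad : a ≠ d := by rintro rfl; exact ac l3 hd3 hc3
  have pac : a ≠ c := by rintro rfl; exact ac l1 ha1 ha1
  have pbd : b ≠ d := by rintro rfl; exact bd l1 hb1 hb1
  have q12 : l1 ≠ l2 := by rintro rfl; exact ac l1 ha1 hc2
  have q23 : l2 ≠ l3 := by rintro rfl; exact bd l2 hb2 hd3
  have q34 : l3 ≠ l4 := by rintro rfl; exact ac l3 ha4 hc3
  have q14 : l1 ≠ l4 := by rintro rfl; exact bd l1 hb1 hd4
  have q13 : l1 ≠ l3 := by rintro rfl; exact ac l1 ha1 hc3
  have q24 : l2 ≠ l4 := by rintro rfl; exact bd l2 hb2 hd4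
  exact no8 hg ha1 hb1 hb2 hc2 hc3 hd3 hd4 ha4 pab pac pad pbc pbd pcd q12 q13 q14 q23 q24 q34

theorem pent_of (hg : (incGraph I).egirth = 12) {a b c d e : Pt} (h1 : Coll I a b)
    (h2 : Coll I b c) (h3 : Coll I c d) (h4 : Coll I d e) (h5 : Coll I e a) :
    Coll I a c ∨ Coll I b d ∨ Coll I c e ∨ Coll I d a ∨ Coll I e b := by
  obtain ⟨l1, ha1, hb1⟩ := h1
  obtain ⟨l2, hb2, hc2⟩ := h2
  obtain ⟨l3, hc3, hd3⟩ := h3
  obtain ⟨l4, hd4, he4⟩ := h4
  obtain ⟨l5, he5, ha5⟩ := h5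
  by_contra hno
  rw [not_or, not_or, not_or, not_or] at hno
  obtain ⟨nac, nbd, nce, nda, neb⟩ := hno
  have ac : ∀ l, I a l → I c l → False := fun l h h' => nac ⟨l, h, h'⟩
  have bd : ∀ l, I b l → I d l → False := fun l h h' => nbd ⟨l, h, h'⟩
  have ce : ∀ l, I c l → I e l → False := fun l h h' => nce ⟨l, h, h'⟩
  have ad : ∀ l, I a l → I d l → False := fun l h h' => nda ⟨l, h', h⟩
  have be : ∀ l, I b l → I e l → False := fun l h h' => neb ⟨l, h', h⟩
  have pab : a ≠ b := by rintro rfl; exact ac l2 hb2 hc2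
  have pbc : b ≠ c := by rintro rfl; exact bd l3 hc3 hd3
  have pcd : c ≠ d := by rintro rfl; exact ce l4 hd4 he4
  have pde : d ≠ e := by rintro rfl; exact ad l5 ha5 he5
  have pae : a ≠ e := by rintro rfl; exact be l1 hb1 ha1
  have pac : a ≠ c := by rintro rfl; exact ac l1 ha1 ha1
  have pbd : b ≠ d := by rintro rfl; exact bd l1 hb1 hb1
  have pce : c ≠ e := by rintro rfl; exact ce l2 hc2 hc2
  have pad : a ≠ d := by rintro rfl; exact ad l1 ha1 ha1
  have pbe : b ≠ e := by rintro rfl; exact be l1 hb1 hb1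
  have q12 : l1 ≠ l2 := by rintro rfl; exact ac l1 ha1 hc2
  have q23 : l2 ≠ l3 := by rintro rfl; exact bd l2 hb2 hd3
  have q34 : l3 ≠ l4 := by rintro rfl; exact ce l3 hc3 he4
  have q45 : l4 ≠ l5 := by rintro rfl; exact ad l4 ha5 hd4
  have q15 : l1 ≠ l5 := by rintro rfl; exact be l1 hb1 he5
  have q13 : l1 ≠ l3 := by rintro rfl; exact ac l1 ha1 hc3
  have q24 : l2 ≠ l4 := by rintro rfl; exact bd l2 hb2 hd4
  have q35 : l3 ≠ l5 := by rintro rfl; exact ce l3 hc3 he5
  have q14 : l1 ≠ l4 := by rintro rfl; exact ad l1 ha1 hd4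
  have q25 : l2 ≠ l5 := by rintro rfl; exact be l2 hb2 he5
  exact no10 hg ha1 hb1 hb2 hc2 hc3 hd3 hd4 he4 he5 ha5 pab pac pad pae pbc pbd pbe pcd pce pde
    q12 q13 q14 q15 q23 q24 q25 q34 q35 q45

theorem hex_of_isGenHexagon (h : IsGenHexagon q q I) : Hex I q where
  lineCard := h.line_card
  ptCard := h.point_card
  uniq := fun h1 h2 h3 h4 hab => no4 h.girth h1 h2 h4 h3 hab
  tri := fun h1 h2 h3 => tri_of h.girth h1 h2 h3
  quadr := fun h1 h2 h3 h4 => quadr_of h.girth h1 h2 h3 h4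
  pent := fun h1 h2 h3 h4 h5 => pent_of h.girth h1 h2 h3 h4 h5
  near := near_of_ediam h

theorem dist_eq_three_iff (h : IsGenHexagon q q I) (x : Pt) (l : Ln) :
    (incGraph I).dist (Sum.inl x) (Sum.inr l) = 3 ↔ Near3 I x l := by
  have he : (incGraph I).edist (Sum.inl x) (Sum.inr l) ≤ 6 := by
    rw [← h.diam]; exact SimpleGraph.edist_le_ediam
  have hne : (incGraph I).edist (Sum.inl x) (Sum.inr l) ≠ ⊤ := by
    intro h0
    rw [h0] at he
    exact absurd he (by decide)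
  have hr : (incGraph I).Reachable (Sum.inl x) (Sum.inr l) := by
    obtain ⟨p, -⟩ := SimpleGraph.exists_walk_of_edist_ne_top hne
    exact ⟨p⟩
  obtain ⟨p, hp⟩ := hr.exists_walk_length_eq_dist
  obtain ⟨k, hk, y, hc, hy⟩ := (walk_cases p.length x _ p rfl).2 l rfl
  constructor
  · intro hd
    have hk1 : k = 1 := by omega
    subst hk1
    refine ⟨fun hxl => ?_, y, hy, ?_⟩
    · have := SimpleGraph.dist_le (SimpleGraph.Walk.cons (adj_pl hxl) .nil)
      simp at this
      omega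
    · obtain ⟨z, h1, h2⟩ := hc
      have : z = y := h2
      subst this
      exact h1
  · rintro ⟨hxl, z, hz, m, hxm, hzm⟩
    have hle := SimpleGraph.dist_le (SimpleGraph.Walk.cons (adj_pl hxm)
      (.cons (adj_lp hzm) (.cons (adj_pl hz) .nil)))
    simp at hle
    have hk1 : k ≠ 0 := by
      rintro rfl
      have : x = y := hc
      subst this
      exact hxl hy
    omega

end A

end Pool.Agent.Lib.MP_6b0fe3_coR
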