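import Pool.Agent.Lib.MP_6b0fe3_coR.ModelNa

/-! MP_6b0fe3_co, recognition theorem: the model of H(q) on Q(6,q) -/

namespace Pool.Agent.Lib.MP_6b0fe3_coR

open Matrix

/-! N: the model -/

section N
variable {K : Type*} [Field K]

theorem span_single {x : Fin 7 → K} (hx : x ≠ 0) (hq : quad x = 0) :
    Module.finrank K (Submodule.span K {x}) = 1 ∧
      ∀ y ∈ Submodule.span K {x}, quad y = 0 := by
  refine ⟨finrank_span_singleton hx, ?_⟩
  intro y hy
  rw [Submodule.mem_span_singleton] at hy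
  obtain ⟨c, rfl⟩ := hy
  rw [quad_smul, hq, mul_zero]

theorem hpoint_cases (U : HPoint K) :
    (∃ v, v ≠ 0 ∧ U.1 = Submodule.span K {v7 v 0 0}) ∨
    (∃ k, k ≠ 0 ∧ U.1 = Submodule.span K {v7 0 0 k}) ∨
    (∃ v k, IsFlag v k ∧ U.1 = Submodule.span K {v7 v 0 k}) ∨
    (∃ w ψ, ψ ⬝ᵥ w = 1 ∧ U.1 = Submodule.span K {v7 w 1 ψ}) := by
  obtain ⟨U, hU, hq⟩ := U
  obtain ⟨⟨x, hx⟩, hx0, hsp⟩ := finrank_eq_one_iff'.mp hU
  have hx0' : x ≠ 0 := fun h => hx0 (Subtype.ext h)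
  have hspan : U = Submodule.span K {x} := by
    apply le_antisymm
    · intro y hy
      obtain ⟨c, hc⟩ := hsp ⟨y, hy⟩
      rw [Submodule.mem_span_singleton]
      exact ⟨c, congrArg Subtype.val hc⟩
    · rw [Submodule.span_singleton_le_iff_mem]; exact hx
  have hqx := hq x hx
  obtain ⟨w, a, ψ, rfl⟩ := exists_v7 x
  rw [quad_v7] at hqx
  rcases eq_or_ne a 0 with rfl | ha
  · have hd : ψ ⬝ᵥ w = 0 := by linear_combination hqx
    rcases eq_or_ne w 0 with rfl | hw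
    · rcases eq_or_ne ψ 0 with rfl | hψ
      · exact absurd v7_zero hx0'
      · exact Or.inr (Or.inl ⟨ψ, hψ, hspan⟩)
    · rcases eq_or_ne ψ 0 with rfl | hψ
      · exact Or.inl ⟨w, hw, hspan⟩
      · exact Or.inr (Or.inr (Or.inl ⟨w, ψ, ⟨hw, hψ, by rw [dotProduct_comm]; exact hd⟩, hspan⟩))
  · refine Or.inr (Or.inr (Or.inr ⟨a⁻¹ • w, a⁻¹ • ψ, ?_, ?_⟩))
    · rw [smul_dotProduct, dotProduct_smul, smul_eq_mul, smul_eq_mul]
      have : ψ ⬝ᵥ w = a ^ 2 := by linear_combination hqx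
      rw [this]
      field_simp
    · show U = _
      rw [hspan]
      have h1 : v7 (a⁻¹ • w) 1 (a⁻¹ • ψ) = a⁻¹ • v7 w a ψ := by
        rw [v7_smul, inv_mul_cancel₀ ha]
      rw [h1]
      exact (Submodule.span_singleton_smul_eq (IsUnit.mk0 _ (inv_ne_zero ha)) _).symm

theorem hpoint_lp {v : Fin 3 → K} (hv : v ≠ 0) :
    Module.finrank K (Submodule.span K {v7 v 0 0}) = 1 ∧
      ∀ x ∈ Submodule.span K {v7 v 0 0}, quad x = 0 := by
  apply span_single
  · intro h; exact hv (v7_eq_zero.mp h).1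
  · rw [quad_v7]; simp

theorem hpoint_ll {k : Fin 3 → K} (hk : k ≠ 0) :
    Module.finrank K (Submodule.span K {v7 0 0 k}) = 1 ∧
      ∀ x ∈ Submodule.span K {v7 0 0 k}, quad x = 0 := by
  apply span_single
  · intro h; exact hk (v7_eq_zero.mp h).2.2
  · rw [quad_v7]; simp

theorem hpoint_a {v k : Fin 3 → K} (h : IsFlag v k) :
    Module.finrank K (Submodule.span K {v7 v 0 k}) = 1 ∧
      ∀ x ∈ Submodule.span K {v7 v 0 k}, quad x = 0 := by
  apply span_single
  · intro h'; exact h.1 (v7_eq_zero.mp h').1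
  · rw [quad_v7, dotProduct_comm, h.2.2]; simp

theorem hpoint_b {w ψ : Fin 3 → K} (h : ψ ⬝ᵥ w = 1) :
    Module.finrank K (Submodule.span K {v7 w 1 ψ}) = 1 ∧
      ∀ x ∈ Submodule.span K {v7 w 1 ψ}, quad x = 0 := by
  apply span_single
  · intro h'; exact one_ne_zero (v7_eq_zero.mp h').2.1
  · rw [quad_v7, h]; ring

theorem finrank_pair {x y : Fin 7 → K} (h : ∀ a b : K, a • x + b • y = 0 → a = 0 ∧ b = 0) :
    Module.finrank K (Submodule.span K {x, y}) = 2 := by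
  have hli : LinearIndependent K ![x, y] := by
    rw [LinearIndependent.pair_iff]
    exact h
  have := finrank_span_eq_card hli
  rw [Matrix.range_cons_cons_empty] at this
  simpa using this

theorem hline_flag {v k : Fin 3 → K} (h : IsFlag v k) :
    Module.finrank K (Submodule.span K {v7 v 0 0, v7 0 0 k}) = 2 ∧
      (∀ x ∈ Submodule.span K {v7 v 0 0, v7 0 0 k}, quad x = 0) ∧
      ∀ x ∈ Submodule.span K {v7 v 0 0, v7 0 0 k}, ∀ y ∈ Submodule.span K {v7 v 0 0, v7 0 0 k},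
      gr x y 1 2 = gr x y 3 4 ∧ gr x y 5 4 = gr x y 3 2 ∧
      gr x y 2 0 = gr x y 3 5 ∧ gr x y 6 5 = gr x y 3 0 ∧
      gr x y 0 1 = gr x y 3 6 ∧ gr x y 4 6 = gr x y 3 1 := by
  refine ⟨?_, ?_, ?_⟩
  · apply finrank_pair
    intro a b hab
    rw [v7_smul, v7_smul, v7_add, v7_eq_zero] at hab
    obtain ⟨h1, -, h3⟩ := hab
    rw [smul_zero, add_zero] at h1
    rw [smul_zero, zero_add] at h3
    exact ⟨(smul_eq_zero.mp h1).resolve_right h.1, (smul_eq_zero.mp h3).resolve_right h.2.1⟩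
  · apply quad_span
    · rw [quad_v7]; simp
    · rw [quad_v7]; simp
    · rw [pol_v7, dotProduct_comm, h.2.2]; simp
  · apply tits_span
    rw [tits_v7]
    simp

theorem hline_out {v w ψ : Fin 3 → K} (hv : v ≠ 0) (h : ψ ⬝ᵥ w = 1) (h0 : ψ ⬝ᵥ v = 0) :
    Module.finrank K (Submodule.span K {v7 v 0 (w ⨯₃ v), v7 w 1 ψ}) = 2 ∧
      (∀ x ∈ Submodule.span K {v7 v 0 (w ⨯₃ v), v7 w 1 ψ}, quad x = 0) ∧
      ∀ x ∈ Submodule.span K {v7 v 0 (w ⨯₃ v), v7 w 1 ψ},
      ∀ y ∈ Submodule.span K {v7 v 0 (w ⨯₃ v), v7 w 1 ψ},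
      gr x y 1 2 = gr x y 3 4 ∧ gr x y 5 4 = gr x y 3 2 ∧
      gr x y 2 0 = gr x y 3 5 ∧ gr x y 6 5 = gr x y 3 0 ∧
      gr x y 0 1 = gr x y 3 6 ∧ gr x y 4 6 = gr x y 3 1 := by
  rw [dot3] at h h0
  refine ⟨?_, ?_, ?_⟩
  · apply finrank_pair
    intro a b hab
    rw [v7_smul, v7_smul, v7_add, v7_eq_zero] at hab
    obtain ⟨h1, h2, -⟩ := hab
    have hb : b = 0 := by linear_combination h2
    subst hb
    rw [zero_smul, add_zero] at h1
    exact ⟨(smul_eq_zero.mp h1).resolve_right hv, rfl⟩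
  · apply quad_span
    · rw [quad_v7, cross_apply', dot3]
      simp only [Matrix.cons_val]
      ring
    · rw [quad_v7, dot3]; linear_combination h
    · rw [pol_v7, cross_apply', dot3, dot3]
      simp only [Matrix.cons_val]
      linear_combination h0
  · apply tits_span
    rw [tits_v7, cross_apply', cross_apply', cross_apply']
    constructor
    · ext i; fin_cases i <;> simp <;> ring
    · ext i
      fin_cases i
      · simp only [Pi.sub_apply, Pi.smul_apply, smul_eq_mul, Matrix.cons_val, Fin.zero_eta]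
        linear_combination v 0 * h - w 0 * h0
      · simp only [Pi.sub_apply, Pi.smul_apply, smul_eq_mul, Matrix.cons_val, Fin.mk_one]
        linear_combination v 1 * h - w 1 * h0
      · simp only [Pi.sub_apply, Pi.smul_apply, smul_eq_mul, Matrix.cons_val, Fin.reduceFinMk]
        linear_combination v 2 * h - w 2 * h0

theorem hline_cases (W : HLine K) :
    (∃ v k, IsFlag v k ∧ W.1 = Submodule.span K {v7 v 0 0, v7 0 0 k}) ∨
    (∃ v w ψ, v ≠ 0 ∧ ψ ⬝ᵥ w = 1 ∧ ψ ⬝ᵥ v = 0 ∧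
      W.1 = Submodule.span K {v7 v 0 (w ⨯₃ v), v7 w 1 ψ}) := by
  obtain ⟨W, hW, hq, hT⟩ := W
  show (∃ v k, IsFlag v k ∧ W = Submodule.span K {v7 v 0 0, v7 0 0 k}) ∨
    (∃ v w ψ, v ≠ 0 ∧ ψ ⬝ᵥ w = 1 ∧ ψ ⬝ᵥ v = 0 ∧
      W = Submodule.span K {v7 v 0 (w ⨯₃ v), v7 w 1 ψ})
  have hfd : Module.Finite K W := Module.finite_of_finrank_pos (by rw [hW]; norm_num)
  have key : ∀ x y : Fin 7 → K, x ∈ W → y ∈ W →
      Module.finrank K (Submodule.span K {x, y}) = 2 → W = Submodule.span K {x, y} := by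
    intro x y hx hy h2
    symm
    apply Submodule.eq_of_le_of_finrank_eq
    · rw [Submodule.span_le]
      intro z hz
      rcases hz with rfl | hz
      · exact hx
      · rw [Set.mem_singleton_iff] at hz; rw [hz]; exact hy
    · rw [h2, hW]
  have hpol : ∀ x y : Fin 7 → K, x ∈ W → y ∈ W → pol x y = 0 := by
    intro x y hx hy
    have h1 := hq _ (W.add_mem (W.smul_mem 1 hx) (W.smul_mem 1 hy))
    rw [quad_comb, hq x hx, hq y hy] at h1
    linear_combination h1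
  have hT' : ∀ x y : Fin 7 → K, x ∈ W → y ∈ W → Tits x y := fun x y hx hy => hT x hx y hy
  by_cases hA : ∀ x ∈ W, x 3 = 0
  · -- all of `W` in `a = 0`
    left
    -- a basis
    obtain ⟨x, hx, hx0⟩ : ∃ x ∈ W, x ≠ 0 := by
      by_contra hc
      push Not at hc
      have : W = ⊥ := by
        rw [Submodule.eq_bot_iff]; exact hc
      rw [this, finrank_bot] at hW
      omega
    obtain ⟨y, hy, hxy⟩ : ∃ y ∈ W, y ∉ Submodule.span K {x} := by
      by_contra hc
      push Not at hc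
      have hle : W ≤ Submodule.span K {x} := hc
      have := Submodule.finrank_mono hle
      rw [finrank_span_singleton hx0, hW] at this
      omega
    obtain ⟨w, a, ψ, rfl⟩ := exists_v7 x
    obtain ⟨w', a', ψ', rfl⟩ := exists_v7 y
    have ha : a = 0 := by simpa [v7] using hA _ hx
    have ha' : a' = 0 := by simpa [v7] using hA _ hy
    subst ha; subst ha'
    have hT1 := hT' _ _ hx hy
    rw [tits_v7] at hT1
    simp only [zero_smul, sub_zero] at hT1
    obtain ⟨hw, hψ⟩ := hT1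
    -- independence
    have hind : ∀ a b : K, a • v7 w 0 ψ + b • v7 w' 0 ψ' = 0 → a = 0 ∧ b = 0 := by
      intro a b hab
      have hb : b = 0 := by
        by_contra hb
        apply hxy
        rw [Submodule.mem_span_singleton]
        refine ⟨-(b⁻¹ * a), ?_⟩
        have : v7 w' 0 ψ' = b⁻¹ • (b • v7 w' 0 ψ') := by rw [smul_smul, inv_mul_cancel₀ hb, one_smul]
        rw [this, eq_neg_of_add_eq_zero_right hab, smul_neg, smul_smul, neg_smul]
      subst hb
      rw [zero_smul, add_zero] at hab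
      exact ⟨(smul_eq_zero.mp hab).resolve_right hx0, rfl⟩
    -- common directions
    obtain ⟨v, hv, p, p', hp, hp'⟩ : ∃ v : Fin 3 → K, v ≠ 0 ∧ ∃ p p' : K, w = p • v ∧ w' = p' • v := by
      rcases eq_or_ne w 0 with rfl | hw0
      · rcases eq_or_ne w' 0 with rfl | hw0'
        · refine ⟨![1, 0, 0], ?_, 0, 0, by simp, by simp⟩
          intro h; have := congrFun h 0; simp at this
        · exact ⟨w', hw0', 0, 1, by simp, by simp⟩
      · rcases eq_or_ne w' 0 with rfl | hw0'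
        · exact ⟨w, hw0, 1, 0, by simp, by simp⟩
        · obtain ⟨c, -, hc⟩ := (cross_eq_zero_iff hw0 hw0').mp hw
          exact ⟨w, hw0, 1, c, by simp, hc⟩
    obtain ⟨k, hk, r, r', hr, hr'⟩ : ∃ v : Fin 3 → K, v ≠ 0 ∧ ∃ p p' : K, ψ = p • v ∧ ψ' = p' • v := by
      rcases eq_or_ne ψ 0 with rfl | hw0
      · rcases eq_or_ne ψ' 0 with rfl | hw0'
        · refine ⟨![1, 0, 0], ?_, 0, 0, by simp, by simp⟩
          intro h; have := congrFun h 0; simp at this
        · exact ⟨ψ', hw0', 0, 1, by simp, by simp⟩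
      · rcases eq_or_ne ψ' 0 with rfl | hw0'
        · exact ⟨ψ, hw0, 1, 0, by simp, by simp⟩
        · obtain ⟨c, -, hc⟩ := (cross_eq_zero_iff hw0 hw0').mp hψ
          exact ⟨ψ, hw0, 1, c, by simp, hc⟩
    subst hp hp' hr hr'
    -- the determinant does not vanish
    have hdet : p * r' - p' * r ≠ 0 := by
      intro hd
      have e1 := hind r' (-r) (by
        rw [v7_smul, v7_smul, v7_add, v7_eq_zero]
        refine ⟨?_, by ring, ?_⟩
        · rw [smul_smul, smul_smul, ← add_smul]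
          have : r' * p + -r * p' = 0 := by linear_combination hd
          rw [this, zero_smul]
        · rw [smul_smul, smul_smul, ← add_smul]
          have : r' * r + -r * r' = 0 := by ring
          rw [this, zero_smul])
      have e2 := hind p' (-p) (by
        rw [v7_smul, v7_smul, v7_add, v7_eq_zero]
        refine ⟨?_, by ring, ?_⟩
        · rw [smul_smul, smul_smul, ← add_smul]
          have : p' * p + -p * p' = 0 := by ring
          rw [this, zero_smul]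
        · rw [smul_smul, smul_smul, ← add_smul]
          have : p' * r + -p * r' = 0 := by linear_combination -hd
          rw [this, zero_smul])
      have hp0 : p = 0 := neg_eq_zero.mp e2.2
      have hr0 : r = 0 := neg_eq_zero.mp e1.2
      apply hx0
      rw [hp0, hr0, zero_smul, zero_smul, v7_zero]
    -- the two vectors lie in `W`
    have hvW : v7 v 0 0 ∈ W := by
      have h1 : v7 v 0 0 = (p * r' - p' * r)⁻¹ • (r' • v7 (p • v) 0 (r • k) + (-r) • v7 (p' • v) 0 (r' • k)) := by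
        rw [v7_smul, v7_smul, v7_add, v7_smul, v7_inj]
        refine ⟨?_, by ring, ?_⟩
        · rw [smul_smul, smul_smul, ← add_smul, smul_smul]
          have : (p * r' - p' * r)⁻¹ * (r' * p + -r * p') = 1 := by
            have : r' * p + -r * p' = p * r' - p' * r := by ring
            rw [this, inv_mul_cancel₀ hdet]
          rw [this, one_smul]
        · rw [smul_smul, smul_smul, ← add_smul, smul_smul]
          have : (p * r' - p' * r)⁻¹ * (r' * r + -r * r') = 0 := by ring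
          rw [this, zero_smul]
      rw [h1]
      exact W.smul_mem _ (W.add_mem (W.smul_mem _ hx) (W.smul_mem _ hy))
    have hkW : v7 0 0 k ∈ W := by
      have h1 : v7 0 0 k = (p * r' - p' * r)⁻¹ • ((-p') • v7 (p • v) 0 (r • k) + p • v7 (p' • v) 0 (r' • k)) := by
        rw [v7_smul, v7_smul, v7_add, v7_smul, v7_inj]
        refine ⟨?_, by ring, ?_⟩
        · rw [smul_smul, smul_smul, ← add_smul, smul_smul]
          have : (p * r' - p' * r)⁻¹ * (-p' * p + p * p') = 0 := by ring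
          rw [this, zero_smul]
        · rw [smul_smul, smul_smul, ← add_smul, smul_smul]
          have : (p * r' - p' * r)⁻¹ * (-p' * r + p * r') = 1 := by
            have : -p' * r + p * r' = p * r' - p' * r := by ring
            rw [this, inv_mul_cancel₀ hdet]
          rw [this, one_smul]
      rw [h1]
      exact W.smul_mem _ (W.add_mem (W.smul_mem _ hx) (W.smul_mem _ hy))
    have hvk : v ⬝ᵥ k = 0 := by
      have := hpol _ _ hvW hkW
      rw [pol_v7] at this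
      simp at this
      rw [dotProduct_comm]; exact this
    exact ⟨v, k, ⟨hv, hk, hvk⟩, key _ _ hvW hkW (hline_flag ⟨hv, hk, hvk⟩).1⟩
  · right
    push Not at hA
    obtain ⟨y, hy, hy3⟩ := hA
    -- normalise
    obtain ⟨w, ψ, hyW⟩ : ∃ w ψ : Fin 3 → K, v7 w 1 ψ ∈ W := by
      obtain ⟨w, a, ψ, rfl⟩ := exists_v7 y
      have ha : a ≠ 0 := by simpa [v7] using hy3
      refine ⟨a⁻¹ • w, a⁻¹ • ψ, ?_⟩
      have : v7 (a⁻¹ • w) 1 (a⁻¹ • ψ) = a⁻¹ • v7 w a ψ := by rw [v7_smul, inv_mul_cancel₀ ha]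
      rw [this]
      exact W.smul_mem _ hy
    have hy0 : v7 w 1 ψ ≠ 0 := fun h => one_ne_zero (v7_eq_zero.mp h).2.1
    have hψw : ψ ⬝ᵥ w = 1 := by
      have := hq _ hyW
      rw [quad_v7] at this
      linear_combination this
    obtain ⟨z, hz, hzy⟩ : ∃ z ∈ W, z ∉ Submodule.span K {v7 w 1 ψ} := by
      by_contra hc
      push Not at hc
      have hle : W ≤ Submodule.span K {v7 w 1 ψ} := hc
      have := Submodule.finrank_mono hle
      rw [finrank_span_singleton hy0, hW] at this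
      omega
    obtain ⟨v, φ, hxW, hx0⟩ : ∃ v φ : Fin 3 → K, v7 v 0 φ ∈ W ∧ v7 v 0 φ ≠ 0 := by
      obtain ⟨w', a', ψ', rfl⟩ := exists_v7 z
      have h1 : v7 (w' + (-a') • w) 0 (ψ' + (-a') • ψ) = v7 w' a' ψ' + (-a') • v7 w 1 ψ := by
        rw [v7_smul, v7_add, v7_inj]
        exact ⟨rfl, by ring, rfl⟩
      refine ⟨w' + (-a') • w, ψ' + (-a') • ψ, ?_, ?_⟩
      · rw [h1]; exact W.add_mem hz (W.smul_mem _ hyW)
      · rw [h1]
        intro h2
        apply hzy
        rw [Submodule.mem_span_singleton]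
        refine ⟨a', ?_⟩
        rw [neg_smul, ← sub_eq_add_neg, sub_eq_zero] at h2
        exact h2.symm
    have hT1 := hT' _ _ hxW hyW
    rw [tits_v7] at hT1
    simp only [zero_smul, one_smul, sub_zero, zero_sub] at hT1
    have hφ : φ = w ⨯₃ v := by
      rw [← cross_anticomm, hT1.1, neg_neg]
    have hv : v ≠ 0 := by
      rintro rfl
      apply hx0
      rw [hφ, v7_eq_zero]
      refine ⟨rfl, rfl, ?_⟩
      simp
    subst hφ
    have hψv : ψ ⬝ᵥ v = 0 := by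
      have := hpol _ _ hxW hyW
      rw [pol_v7, cross_apply', dot3, dot3] at this
      simp only [Matrix.cons_val] at this
      rw [dot3]
      linear_combination this
    exact ⟨v, w, ψ, hv, hψw, hψv, key _ _ hxW hyW (hline_out hv hψw hψv).1⟩

/-! membership of the four kinds of points in the two kinds of lines -/

theorem lp_mem_flag {u v k : Fin 3 → K} (hu : u ≠ 0) (h : IsFlag v k) :
    v7 u 0 0 ∈ Submodule.span K {v7 v 0 0, v7 0 0 k} ↔ v ⨯₃ u = 0 := by
  rw [Submodule.mem_span_pair, cross_eq_zero_iff h.1 hu]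
  constructor
  · rintro ⟨a, b, hab⟩
    rw [v7_smul, v7_smul, v7_add, v7_inj] at hab
    obtain ⟨h1, -, -⟩ := hab
    rw [smul_zero, add_zero] at h1
    refine ⟨a, ?_, h1.symm⟩
    rintro rfl
    rw [zero_smul] at h1
    exact hu h1.symm
  · rintro ⟨c, -, rfl⟩
    refine ⟨c, 0, ?_⟩
    rw [v7_smul, v7_smul, v7_add, v7_inj]
    simp

theorem ll_mem_flag {m v k : Fin 3 → K} (hm : m ≠ 0) (h : IsFlag v k) :
    v7 0 0 m ∈ Submodule.span K {v7 v 0 0, v7 0 0 k} ↔ k ⨯₃ m = 0 := by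
  rw [Submodule.mem_span_pair, cross_eq_zero_iff h.2.1 hm]
  constructor
  · rintro ⟨a, b, hab⟩
    rw [v7_smul, v7_smul, v7_add, v7_inj] at hab
    obtain ⟨-, -, h1⟩ := hab
    rw [smul_zero, zero_add] at h1
    refine ⟨b, ?_, h1.symm⟩
    rintro rfl
    rw [zero_smul] at h1
    exact hm h1.symm
  · rintro ⟨c, -, rfl⟩
    refine ⟨0, c, ?_⟩
    rw [v7_smul, v7_smul, v7_add, v7_inj]
    simp

theorem a_mem_flag {v' k' v k : Fin 3 → K} (h' : IsFlag v' k') (h : IsFlag v k) :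
    v7 v' 0 k' ∈ Submodule.span K {v7 v 0 0, v7 0 0 k} ↔ v ⨯₃ v' = 0 ∧ k ⨯₃ k' = 0 := by
  rw [Submodule.mem_span_pair, cross_eq_zero_iff h.1 h'.1, cross_eq_zero_iff h.2.1 h'.2.1]
  constructor
  · rintro ⟨a, b, hab⟩
    rw [v7_smul, v7_smul, v7_add, v7_inj] at hab
    obtain ⟨h1, -, h2⟩ := hab
    rw [smul_zero, add_zero] at h1
    rw [smul_zero, zero_add] at h2
    refine ⟨⟨a, ?_, h1.symm⟩, ⟨b, ?_, h2.symm⟩⟩
    · rintro rfl
      rw [zero_smul] at h1
      exact h'.1 h1.symm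
    · rintro rfl
      rw [zero_smul] at h2
      exact h'.2.1 h2.symm
  · rintro ⟨⟨a, -, rfl⟩, ⟨b, -, rfl⟩⟩
    refine ⟨a, b, ?_⟩
    rw [v7_smul, v7_smul, v7_add, v7_inj]
    simp

theorem b_not_mem_flag {w ψ v k : Fin 3 → K} :
    v7 w 1 ψ ∉ Submodule.span K {v7 v 0 0, v7 0 0 k} := by
  rw [Submodule.mem_span_pair]
  rintro ⟨a, b, hab⟩
  rw [v7_smul, v7_smul, v7_add, v7_inj] at hab
  have h1 := hab.2.1
  simp at h1

theorem lp_not_mem_out {u v w ψ : Fin 3 → K} (hu : u ≠ 0) (hv : v ≠ 0) (h : ψ ⬝ᵥ w = 1)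
    (h0 : ψ ⬝ᵥ v = 0) : v7 u 0 0 ∉ Submodule.span K {v7 v 0 (w ⨯₃ v), v7 w 1 ψ} := by
  rw [Submodule.mem_span_pair]
  rintro ⟨a, b, hab⟩
  rw [v7_smul, v7_smul, v7_add, v7_inj] at hab
  obtain ⟨h1, h2, h3⟩ := hab
  have hb : b = 0 := by linear_combination h2
  subst hb
  rw [zero_smul, add_zero] at h1 h3
  have ha : a ≠ 0 := by
    rintro rfl
    rw [zero_smul] at h1
    exact hu h1.symm
  have hwv : w ⨯₃ v = 0 := (smul_eq_zero.mp h3).resolve_left ha
  have hw : w ≠ 0 := by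
    rintro rfl
    rw [dotProduct_zero] at h
    exact zero_ne_one h
  obtain ⟨c, hc, rfl⟩ := (cross_eq_zero_iff hw hv).mp hwv
  rw [dotProduct_smul, h, smul_eq_mul, mul_one] at h0
  exact hc h0

theorem ll_not_mem_out {m v w ψ : Fin 3 → K} (hm : m ≠ 0) (hv : v ≠ 0) (h : ψ ⬝ᵥ w = 1)
    (h0 : ψ ⬝ᵥ v = 0) : v7 0 0 m ∉ Submodule.span K {v7 v 0 (w ⨯₃ v), v7 w 1 ψ} := by
  rw [Submodule.mem_span_pair]
  rintro ⟨a, b, hab⟩
  rw [v7_smul, v7_smul, v7_add, v7_inj] at hab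
  obtain ⟨h1, h2, h3⟩ := hab
  have hb : b = 0 := by linear_combination h2
  subst hb
  rw [zero_smul, add_zero] at h1 h3
  have ha : a = 0 := (smul_eq_zero.mp h1).resolve_right hv
  subst ha
  rw [zero_smul] at h3
  exact hm h3.symm

theorem a_mem_out {v' k' v w ψ : Fin 3 → K} (h' : IsFlag v' k') (hv : v ≠ 0)
    (h : ψ ⬝ᵥ w = 1) (h0 : ψ ⬝ᵥ v = 0) :
    v7 v' 0 k' ∈ Submodule.span K {v7 v 0 (w ⨯₃ v), v7 w 1 ψ} ↔
      ∃ c : K, c ≠ 0 ∧ v' = c • v ∧ k' = c • (w ⨯₃ v) := by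
  rw [Submodule.mem_span_pair]
  constructor
  · rintro ⟨a, b, hab⟩
    rw [v7_smul, v7_smul, v7_add, v7_inj] at hab
    obtain ⟨h1, h2, h3⟩ := hab
    have hb : b = 0 := by linear_combination h2
    subst hb
    rw [zero_smul, add_zero] at h1 h3
    refine ⟨a, ?_, h1.symm, h3.symm⟩
    rintro rfl
    rw [zero_smul] at h1
    exact h'.1 h1.symm
  · rintro ⟨c, -, rfl, rfl⟩
    refine ⟨c, 0, ?_⟩
    rw [v7_smul, v7_smul, v7_add, v7_inj]
    simp

theorem b_mem_out {w' ψ' v w ψ : Fin 3 → K} (hv : v ≠ 0)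
    (h : ψ ⬝ᵥ w = 1) (h0 : ψ ⬝ᵥ v = 0) :
    v7 w' 1 ψ' ∈ Submodule.span K {v7 v 0 (w ⨯₃ v), v7 w 1 ψ} ↔
      ∃ s : K, w' = w + s • v ∧ ψ' = ψ + s • (w ⨯₃ v) := by
  rw [Submodule.mem_span_pair]
  constructor
  · rintro ⟨a, b, hab⟩
    rw [v7_smul, v7_smul, v7_add, v7_inj] at hab
    obtain ⟨h1, h2, h3⟩ := hab
    have hb : b = 1 := by linear_combination h2
    subst hb
    rw [one_smul] at h1 h3
    exact ⟨a, by rw [← h1, add_comm], by rw [← h3, add_comm]⟩
  · rintro ⟨s, rfl, rfl⟩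
    refine ⟨s, 1, ?_⟩
    rw [v7_smul, v7_smul, v7_add, v7_inj]
    refine ⟨?_, by ring, ?_⟩
    · rw [one_smul, add_comm]
    · rw [one_smul, add_comm]

/-! equality of points of the model -/

theorem span_eq_iff {x y : Fin 7 → K} (hx : x ≠ 0) :
    Submodule.span K {x} = Submodule.span K {y} ↔ ∃ c : K, c ≠ 0 ∧ y = c • x := by
  constructor
  · intro h
    have hy : y ∈ Submodule.span K {x} := by
      rw [h]; exact Submodule.mem_span_singleton_self y
    rw [Submodule.mem_span_singleton] at hy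
    obtain ⟨c, rfl⟩ := hy
    refine ⟨c, ?_, rfl⟩
    rintro rfl
    rw [zero_smul] at h
    have hx' : x ∈ Submodule.span K {(0 : Fin 7 → K)} := by
      rw [← h]; exact Submodule.mem_span_singleton_self x
    rw [Submodule.mem_span_singleton] at hx'
    obtain ⟨d, hd⟩ := hx'
    rw [smul_zero] at hd
    exact hx hd.symm
  · rintro ⟨c, hc, rfl⟩
    exact (Submodule.span_singleton_smul_eq (IsUnit.mk0 _ hc) _).symm

theorem span_lp_eq {u u' : Fin 3 → K} (hu : u ≠ 0) (hu' : u' ≠ 0) :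
    Submodule.span K {v7 u 0 0} = Submodule.span K {v7 u' 0 0} ↔ u ⨯₃ u' = 0 := by
  rw [span_eq_iff (fun h => hu (v7_eq_zero.mp h).1), cross_eq_zero_iff hu hu']
  constructor
  · rintro ⟨c, hc, h⟩
    rw [v7_smul, v7_inj] at h
    exact ⟨c, hc, h.1⟩
  · rintro ⟨c, hc, rfl⟩
    refine ⟨c, hc, ?_⟩
    rw [v7_smul, v7_inj]
    simp

theorem span_ll_eq {m m' : Fin 3 → K} (hm : m ≠ 0) (hm' : m' ≠ 0) :
    Submodule.span K {v7 0 0 m} = Submodule.span K {v7 0 0 m'} ↔ m ⨯₃ m' = 0 := by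
  rw [span_eq_iff (fun h => hm (v7_eq_zero.mp h).2.2), cross_eq_zero_iff hm hm']
  constructor
  · rintro ⟨c, hc, h⟩
    rw [v7_smul, v7_inj] at h
    exact ⟨c, hc, h.2.2⟩
  · rintro ⟨c, hc, rfl⟩
    refine ⟨c, hc, ?_⟩
    rw [v7_smul, v7_inj]
    simp

theorem span_a_eq {v k v' k' : Fin 3 → K} (h : IsFlag v k) (h' : IsFlag v' k') :
    Submodule.span K {v7 v 0 k} = Submodule.span K {v7 v' 0 k'} ↔
      ∃ c : K, c ≠ 0 ∧ v' = c • v ∧ k' = c • k := by
  rw [span_eq_iff (fun h1 => h.1 (v7_eq_zero.mp h1).1)]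
  constructor
  · rintro ⟨c, hc, h2⟩
    rw [v7_smul, v7_inj] at h2
    exact ⟨c, hc, h2.1, h2.2.2⟩
  · rintro ⟨c, hc, rfl, rfl⟩
    refine ⟨c, hc, ?_⟩
    rw [v7_smul, v7_inj]
    simp

theorem span_b_eq {w ψ w' ψ' : Fin 3 → K} :
    Submodule.span K {v7 w 1 ψ} = Submodule.span K {v7 w' 1 ψ'} ↔ w = w' ∧ ψ = ψ' := by
  rw [span_eq_iff (fun h1 => one_ne_zero (v7_eq_zero.mp h1).2.1)]
  constructor
  · rintro ⟨c, hc, h2⟩
    rw [v7_smul, v7_inj] at h2
    obtain ⟨h3, h4, h5⟩ := h2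
    have hc1 : c = 1 := by linear_combination -h4
    subst hc1
    rw [one_smul] at h3 h5
    exact ⟨h3.symm, h5.symm⟩
  · rintro ⟨rfl, rfl⟩
    exact ⟨1, one_ne_zero, by rw [one_smul]⟩

/-- two points of the model of different kind are different: the kinds are separated by these
three properties -/
theorem kinds {v k w ψ u m : Fin 3 → K} (hu : u ≠ 0) (hm : m ≠ 0) (h : IsFlag v k) :
    Submodule.span K {v7 u 0 0} ≠ Submodule.span K {v7 0 0 m} ∧
    Submodule.span K {v7 u 0 0} ≠ Submodule.span K {v7 v 0 k} ∧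
    Submodule.span K {v7 u 0 0} ≠ Submodule.span K {v7 w 1 ψ} ∧
    Submodule.span K {v7 0 0 m} ≠ Submodule.span K {v7 v 0 k} ∧
    Submodule.span K {v7 0 0 m} ≠ Submodule.span K {v7 w 1 ψ} ∧
    Submodule.span K {v7 v 0 k} ≠ Submodule.span K {v7 w 1 ψ} := by
  have hu7 : v7 u 0 0 ≠ 0 := fun h1 => hu (v7_eq_zero.mp h1).1
  have hm7 : v7 0 0 m ≠ 0 := fun h1 => hm (v7_eq_zero.mp h1).2.2
  have hv7 : v7 v 0 k ≠ 0 := fun h1 => h.1 (v7_eq_zero.mp h1).1
  refine ⟨?_, ?_, ?_, ?_, ?_, ?_⟩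
  · rw [Ne, span_eq_iff hu7]
    rintro ⟨c, hc, h2⟩
    rw [v7_smul, v7_inj] at h2
    exact hm (by rw [h2.2.2, smul_zero])
  · rw [Ne, span_eq_iff hu7]
    rintro ⟨c, hc, h2⟩
    rw [v7_smul, v7_inj] at h2
    exact h.2.1 (by rw [h2.2.2, smul_zero])
  · rw [Ne, span_eq_iff hu7]
    rintro ⟨c, hc, h2⟩
    rw [v7_smul, v7_inj] at h2
    exact one_ne_zero (α := K) (by rw [h2.2.1, mul_zero])
  · rw [Ne, span_eq_iff hm7]
    rintro ⟨c, hc, h2⟩
    rw [v7_smul, v7_inj] at h2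
    exact h.1 (by rw [h2.1, smul_zero])
  · rw [Ne, span_eq_iff hm7]
    rintro ⟨c, hc, h2⟩
    rw [v7_smul, v7_inj] at h2
    exact one_ne_zero (α := K) (by rw [h2.2.1, mul_zero])
  · rw [Ne, span_eq_iff hv7]
    rintro ⟨c, hc, h2⟩
    rw [v7_smul, v7_inj] at h2
    exact one_ne_zero (α := K) (by rw [h2.2.1, mul_zero])

end N

end Pool.Agent.Lib.MP_6b0fe3_coR
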