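import Pool.Agent.Lib.MP_6b0fe3_coR.CountM
import Pool.Agent.Lib.MP_6b0fe3_coR.ConstK
import Pool.Agent.Lib.MP_6b0fe3_coR.EmbB
import Pool.Agent.Lib.MP_6b0fe3_coR.ModelN
import Pool.Agent.Lib.MP_6b0fe3_coR.GraphA

/-! MP_6b0fe3_co, recognition theorem: assembly -/

namespace Pool.Agent.Lib.MP_6b0fe3_coR

open Matrix

section O
variable {K : Type*} [Field K] [Fintype K] {Pt Ln : Type*} {I : Pt → Ln → Prop}

/-- the line `l` of the geometry is the point `U` of the model -/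
def LRel (S : Sub K I) (l : Ln) (U : Submodule K (Fin 7 → K)) : Prop :=
  (∃ v, v ≠ 0 ∧ l = S.lp v ∧ U = Submodule.span K {v7 v 0 0}) ∨
  (∃ k, k ≠ 0 ∧ l = S.ll k ∧ U = Submodule.span K {v7 0 0 k}) ∨
  (∃ v φ, IsFlag v φ ∧ ALine S v φ l ∧
    (∃ x w ψ, I x l ∧ Out S x ∧ Rep S x v w ψ ∧ w ⨯₃ v = φ) ∧
    U = Submodule.span K {v7 v 0 φ}) ∨
  (∃ w ψ, ψ ⬝ᵥ w = 1 ∧ BLine S l ∧ Std S l w ψ ∧ U = Submodule.span K {v7 w 1 ψ})

/-- the point `x` of the geometry is the line `W` of the model -/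
def PRel (S : Sub K I) (x : Pt) (W : Submodule K (Fin 7 → K)) : Prop :=
  (∃ v k, IsFlag v k ∧ x = S.pt v k ∧ W = Submodule.span K {v7 v 0 0, v7 0 0 k}) ∨
  (∃ v w ψ, v ≠ 0 ∧ Out S x ∧ Rep S x v w ψ ∧
    W = Submodule.span K {v7 v 0 (w ⨯₃ v), v7 w 1 ψ})

variable (H : Hex I (Fintype.card K)) (S : Sub K I)
include H

theorem aline_over {v k : Fin 3 → K} {t : Ln} (ht : ALine S v k t) {v' k' : Fin 3 → K}
    (hf : IsFlag v' k') (hI : I (S.pt v' k') t) : v ⨯₃ v' = 0 ∧ k ⨯₃ k' = 0 := by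
  by_contra hne
  have hne' : S.pt v' k' ≠ S.pt v k := by
    intro h0
    exact hne (by
      have := (S.pt_eq hf ht.1).1 h0
      exact ⟨cross_zero_symm this.1, cross_zero_symm this.2⟩)
  exact (out_of_aline H S ht hI hne').1 v' k' hf rfl

theorem not_bline_aline {v k : Fin 3 → K} {t : Ln} (ht : ALine S v k t) : ¬ BLine S t :=
  fun h => h v k ht.1 ht.2.1

/-- every outside point has a representation -/
theorem rep_exists (hLB : LB S)
    (hstd : ∀ M, BLine S M → ∃ w ψ, Std S M w ψ) {x : Pt} (hx : Out S x) :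
    ∃ v w ψ, v ≠ 0 ∧ Rep S x v w ψ := by
  obtain ⟨v, k, hv⟩ := over_exists H S hx
  -- an opposite flag near x
  obtain ⟨e, he⟩ := exists_dot_one hv.1.2.1
  have he0 : e ≠ 0 := by
    rintro rfl
    rw [dotProduct_zero] at he
    exact zero_ne_one he
  obtain ⟨m, hm, hn⟩ := theta_exists H S hx hv he0
  have hek : e ⬝ᵥ k ≠ 0 := by rw [dotProduct_comm, he]; exact one_ne_zero
  have hvm := near_opp H S hx hv hm hn hek
  obtain ⟨M, hM, hxM, -⟩ := bline_through H S hx hv hm ⟨hvm, hek⟩ hn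
  obtain ⟨w, ψ, hwψ⟩ := hstd M hM
  have hb : ∀ v, v ≠ 0 → ψ ⬝ᵥ v = 0 → ∃ x, I x M ∧ Over S x v (w ⨯₃ v) := by
    intro u hu hu'
    obtain ⟨y, hy, hoy, -⟩ := hwψ.2 u hu hu'
    exact ⟨y, hy, hoy⟩
  obtain ⟨hψv, hkw⟩ := base_only H S hM hwψ.1 hb hxM hv
  obtain ⟨y, hy, hoy, hny⟩ := hwψ.2 v hv.1.1 hψv
  have hxy : x = y := by
    by_contra hne
    have := (opp_of_bline H S hM hxM hy hne hv hoy).1
    rw [dot_cross_self] at this
    exact this rfl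
  subst hxy
  exact ⟨v, w, ψ, hv.1.1, hwψ.1, hψv, hoy, hny⟩

/-- two representations of the same outside point -/
theorem rep_change (h3 : ∀ c : K, c ^ 3 = 1 → c = 1) {x : Pt} (hx : Out S x)
    {v w ψ v' w' ψ' : Fin 3 → K} (hv' : v' ≠ 0) (h : Rep S x v w ψ) (h' : Rep S x v' w' ψ') :
    ∃ c s : K, c ≠ 0 ∧ v' = c • v ∧ w' = w + s • v ∧ ψ' = ψ + s • (w ⨯₃ v) := by
  have hov := (over_unique H S hx h.2.2.1 h'.2.2.1).1
  obtain ⟨c, hc0, hc1⟩ := (cross_eq_zero_iff h.2.2.1.1.1 hv').1 hov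
  subst hc1
  have h1 := rep_smul H S h' (inv_ne_zero hc0)
  rw [smul_smul, inv_mul_cancel₀ hc0, one_smul] at h1
  obtain ⟨s, hs1, hs2⟩ := rep_unique H S h3 hx h h1
  exact ⟨c, s, hc0, rfl, hs1, hs2⟩

/-- a point on a standard B-line -/
theorem rep_of_std {M : Ln} (hM : BLine S M) {w ψ : Fin 3 → K} (h : Std S M w ψ) {x : Pt}
    (hx : I x M) {v k : Fin 3 → K} (hv : Over S x v k) : ψ ⬝ᵥ v = 0 ∧ Rep S x v w ψ := by
  have hb : ∀ v, v ≠ 0 → ψ ⬝ᵥ v = 0 → ∃ x, I x M ∧ Over S x v (w ⨯₃ v) := by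
    intro u hu hu'
    obtain ⟨y, hy, hoy, -⟩ := h.2 u hu hu'
    exact ⟨y, hy, hoy⟩
  obtain ⟨hψv, hkw⟩ := base_only H S hM h.1 hb hx hv
  obtain ⟨y, hy, hoy, hny⟩ := h.2 v hv.1.1 hψv
  have hxy : x = y := by
    by_contra hne
    have := (opp_of_bline H S hM hx hy hne hv hoy).1
    rw [dot_cross_self] at this
    exact this rfl
  subst hxy
  exact ⟨hψv, h.1, hψv, hoy, hny⟩

/-- two outside points with the same representation are equal -/
theorem rep_inj (h3 : ∀ c : K, c ^ 3 = 1 → c = 1) (hLB : LB S)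
    (hstd : ∀ M, BLine S M → ∃ w ψ, Std S M w ψ) {x y : Pt} (hx : Out S x) (hy : Out S y)
    {v w ψ : Fin 3 → K} (h : Rep S x v w ψ) (h' : Rep S y v w ψ) : x = y := by
  obtain ⟨t, ht, hxt⟩ := aline_exists H S hx h.2.2.1
  obtain ⟨t', ht', hyt'⟩ := aline_exists H S hy h'.2.2.1
  obtain ⟨t0, -, huniq⟩ := aline_unique H S h3 hLB hstd h.2.2.1.1
  have e1 := huniq t ⟨ht, x, w, ψ, hxt, hx, h, rfl⟩
  have e2 := huniq t' ⟨ht', y, w, ψ, hyt', hy, h', rfl⟩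
  rw [e1] at ht hxt
  rw [e2] at hyt'
  -- an opposite flag near x
  obtain ⟨e, he⟩ := exists_dot_one h.2.2.1.1.2.1
  have he0 : e ≠ 0 := by
    rintro rfl
    rw [dotProduct_zero] at he
    exact zero_ne_one he
  obtain ⟨m, hm, hn⟩ := theta_exists H S hx h.2.2.1 he0
  have hek : e ⬝ᵥ (w ⨯₃ v) ≠ 0 := by rw [dotProduct_comm, he]; exact one_ne_zero
  have hvm := near_opp H S hx h.2.2.1 hm hn hek
  have hn' : Near I y (S.pt e m) :=
    (h'.2.2.2 e m hm ⟨hvm, hek⟩).2 ((h.2.2.2 e m hm ⟨hvm, hek⟩).1 hn)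
  exact near_aline_unique H S ht hm ⟨hvm, hek⟩ hxt hyt' hn hn'

omit [Fintype K] H in
theorem aline_smul {v k : Fin 3 → K} {t : Ln} (ht : ALine S v k t) {a b : K} (ha : a ≠ 0)
    (hb : b ≠ 0) : ALine S (a • v) (b • k) t := by
  obtain ⟨hf, hI, h1, h2⟩ := ht
  have p := pt_smul' S hf ha hb
  refine ⟨p.1, by rw [p.2]; exact hI, ?_, ?_⟩
  · rw [(S.lp_eq p.1.1 hf.1).2 (cross_smul_left a v)]
    exact h1
  · rw [(S.ll_eq p.1.2.1 hf.2.1).2 (cross_smul_left b k)]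
    exact h2

omit [Fintype K] H in
/-- the property of `aline_unique` for proportional coordinates -/
theorem aprop_smul (hsm : ∀ {x : Pt} {v w ψ : Fin 3 → K}, Rep S x v w ψ → ∀ {c : K}, c ≠ 0 →
    Rep S x (c • v) w ψ) {v φ : Fin 3 → K} {t : Ln}
    (h : ALine S v φ t ∧ ∃ x w ψ, I x t ∧ Out S x ∧ Rep S x v w ψ ∧ w ⨯₃ v = φ) {c : K}
    (hc : c ≠ 0) : ALine S (c • v) (c • φ) t ∧
      ∃ x w ψ, I x t ∧ Out S x ∧ Rep S x (c • v) w ψ ∧ w ⨯₃ (c • v) = c • φ := by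
  obtain ⟨ht, x, w, ψ, hx, hox, hr, hw⟩ := h
  exact ⟨aline_smul S ht hc hc, x, w, ψ, hx, hox, hsm hr hc, by rw [map_smul, hw]⟩

omit [Fintype K] H in
theorem opp_flag_exists {v k : Fin 3 → K} (h : IsFlag v k) :
    ∃ r m, IsFlag r m ∧ Opp v k r m := by
  obtain ⟨e, he⟩ := exists_dot_one h.2.1
  have he' : e ⬝ᵥ k = 1 := by rw [dotProduct_comm]; exact he
  have he0 : e ≠ 0 := by
    rintro rfl
    rw [dotProduct_zero] at he
    exact zero_ne_one he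
  have hve : v ⨯₃ e ≠ 0 := by
    intro h0
    obtain ⟨c, hc0, hc1⟩ := (cross_eq_zero_iff h.1 he0).1 h0
    rw [hc1, smul_dotProduct, h.2.2, smul_zero] at he'
    exact zero_ne_one he'
  obtain ⟨u, hu⟩ := exists_dot_one hve
  have h1 : v ⬝ᵥ (e ⨯₃ u) = 1 := by
    rw [← hu, cross_apply', cross_apply', dot3, dot3]
    simp
    ring
  have hm0 : e ⨯₃ u ≠ 0 := by
    intro h0
    rw [h0, dotProduct_zero] at h1
    exact zero_ne_one h1
  refine ⟨e, e ⨯₃ u, ⟨he0, hm0, dot_self_cross e u⟩, ?_, ?_⟩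
  · rw [h1]; exact one_ne_zero
  · rw [he']; exact one_ne_zero

variable (h3 : ∀ c : K, c ^ 3 = 1 → c = 1) (hLB : LB S)
  (hstd : ∀ M, BLine S M → ∃ w ψ, Std S M w ψ)
include h3 hLB hstd

theorem lrel_exists (l : Ln) : ∃ U : HPoint K, LRel S l U.1 := by
  rcases line_cases H S l with ⟨v, hv, rfl⟩ | ⟨k, hk, rfl⟩ | ⟨v, k, ht⟩ | hM
  · exact ⟨⟨_, hpoint_lp hv⟩, Or.inl ⟨v, hv, rfl, rfl⟩⟩
  · exact ⟨⟨_, hpoint_ll hk⟩, Or.inr (Or.inl ⟨k, hk, rfl, rfl⟩)⟩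
  · obtain ⟨r, m, hf, ho⟩ := opp_flag_exists ht.1
    obtain ⟨x, hx, hox, hov, -⟩ := near_on_aline H S ht hf ho
    obtain ⟨v', w, ψ, hv', hrep⟩ := rep_exists H S hLB hstd hox
    obtain ⟨c, hc0, hc1⟩ := (cross_eq_zero_iff ht.1.1 hv').1 (over_unique H S hox hov hrep.2.2.1).1
    have hrep' := rep_smul H S hrep (inv_ne_zero hc0)
    rw [hc1, smul_smul, inv_mul_cancel₀ hc0, one_smul] at hrep'
    obtain ⟨d, hd0, hd1⟩ := (cross_eq_zero_iff ht.1.2.1 hrep'.2.2.1.1.2.1).1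
      (over_unique H S hox hov hrep'.2.2.1).2
    have ht' := aline_smul S ht one_ne_zero hd0
    rw [one_smul, ← hd1] at ht'
    exact ⟨⟨_, hpoint_a ht'.1⟩, Or.inr (Or.inr (Or.inl ⟨v, w ⨯₃ v, ht'.1, ht',
      ⟨x, w, ψ, hx, hox, hrep', rfl⟩, rfl⟩))⟩
  · obtain ⟨w, ψ, hs⟩ := hstd l hM
    exact ⟨⟨_, hpoint_b hs.1⟩, Or.inr (Or.inr (Or.inr ⟨w, ψ, hs.1, hM, hs, rfl⟩))⟩

omit h3 hLB hstd in
theorem lp_not_aline {u v k : Fin 3 → K} (hu : u ≠ 0) (ht : ALine S v k (S.lp u)) : False := by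
  have h1 := (S.inc_lp ht.1 hu).1 ht.2.1
  exact ht.2.2.1 ((S.lp_eq hu ht.1.1).2 (cross_zero_symm h1))

omit h3 hLB hstd in
theorem ll_not_aline {m v k : Fin 3 → K} (hm : m ≠ 0) (ht : ALine S v k (S.ll m)) : False := by
  have h1 := (S.inc_ll ht.1 hm).1 ht.2.1
  exact ht.2.2.2 ((S.ll_eq hm ht.1.2.1).2 (cross_zero_symm h1))

omit h3 hLB hstd H [Fintype K] in
theorem lp_not_bline {u : Fin 3 → K} (hu : u ≠ 0) : ¬ BLine S (S.lp u) := by
  intro h
  obtain ⟨k, hk, h1, -⟩ := exists_orth u u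
  have hf : IsFlag u k := ⟨hu, hk, h1⟩
  exact h u k hf ((S.inc_lp hf hu).2 (cross_self u))

omit h3 hLB hstd H [Fintype K] in
theorem ll_not_bline {m : Fin 3 → K} (hm : m ≠ 0) : ¬ BLine S (S.ll m) := by
  intro h
  obtain ⟨v, hv, h1, -⟩ := exists_orth m m
  have hf : IsFlag v m := ⟨hv, hm, by rw [dotProduct_comm]; exact h1⟩
  exact h v m hf ((S.inc_ll hf hm).2 (cross_self m))

omit hLB hstd in
theorem lrel_unique {l : Ln} {U U' : Submodule K (Fin 7 → K)} (h : LRel S l U)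
    (h' : LRel S l U') : U = U' := by
  rcases h with ⟨v, hv, rfl, rfl⟩ | ⟨k, hk, rfl, rfl⟩ | ⟨v, φ, hf, ht, ⟨x, w, ψ, hx, hox, hr, hw⟩, rfl⟩ |
    ⟨w, ψ, h1, hM, hs, rfl⟩ <;>
  rcases h' with ⟨v', hv', he, rfl⟩ | ⟨k', hk', he, rfl⟩ |
    ⟨v', φ', hf', ht', ⟨x', w', ψ', hx', hox', hr', hw'⟩, rfl⟩ | ⟨w', ψ', h1', hM', hs', rfl⟩
  · exact (span_lp_eq hv hv').2 ((S.lp_eq hv hv').1 he)
  · exact absurd he (S.lp_ne_ll hv hk')
  · exact (lp_not_aline H S hv ht').elim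
  · exact absurd hM' (lp_not_bline S hv)
  · exact absurd he.symm (S.lp_ne_ll hv' hk)
  · exact (span_ll_eq hk hk').2 ((S.ll_eq hk hk').1 he)
  · exact (ll_not_aline H S hk ht').elim
  · exact absurd hM' (ll_not_bline S hk)
  · subst he
    exact (lp_not_aline H S hv' ht).elim
  · subst he
    exact (ll_not_aline H S hk' ht).elim
  · obtain ⟨c, hc0, hc1⟩ := (cross_eq_zero_iff hf.1 hf'.1).1 (aline_over H S ht hf' ht'.2.1).1
    have hr2 := rep_smul H S hr' (inv_ne_zero hc0)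
    rw [hc1, smul_smul, inv_mul_cancel₀ hc0, one_smul] at hr2
    have hra := rep_aline H S h3 ht hx hx' hox hox' hr hr2
    refine (span_a_eq hf hf').2 ⟨c, hc0, hc1, ?_⟩
    rw [← hw', hc1, map_smul, hra, hw]
  · exact absurd hM' (not_bline_aline H S ht)
  · subst he
    exact absurd hM (lp_not_bline S hv')
  · subst he
    exact absurd hM (ll_not_bline S hk')
  · exact absurd hM (not_bline_aline H S ht')
  · obtain ⟨e1, e2⟩ := std_coord_unique H S h3 hM hs hs'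
    rw [e1, e2]

theorem lrel_exists' (U : HPoint K) : ∃ l, LRel S l U.1 := by
  rcases hpoint_cases U with ⟨v, hv, e⟩ | ⟨k, hk, e⟩ | ⟨v, k, hf, e⟩ | ⟨w, ψ, h1, e⟩
  · exact ⟨S.lp v, Or.inl ⟨v, hv, rfl, e⟩⟩
  · exact ⟨S.ll k, Or.inr (Or.inl ⟨k, hk, rfl, e⟩)⟩
  · obtain ⟨t, ⟨ht, hx⟩, -⟩ := aline_unique H S h3 hLB hstd hf
    exact ⟨t, Or.inr (Or.inr (Or.inl ⟨v, k, hf, ht, hx, e⟩))⟩
  · obtain ⟨M, ⟨hM, hs⟩, -⟩ := std_unique H S h3 hLB hstd h1
    exact ⟨M, Or.inr (Or.inr (Or.inr ⟨w, ψ, h1, hM, hs, e⟩))⟩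

theorem lrel_unique' {l l' : Ln} {U : Submodule K (Fin 7 → K)} (h : LRel S l U)
    (h' : LRel S l' U) : l = l' := by
  rcases h with ⟨v, hv, rfl, e⟩ | ⟨k, hk, rfl, e⟩ | ⟨v, φ, hf, ht, hx, e⟩ |
    ⟨w, ψ, h1, hM, hs, e⟩ <;>
  rcases h' with ⟨v', hv', rfl, e'⟩ | ⟨k', hk', rfl, e'⟩ | ⟨v', φ', hf', ht', hx', e'⟩ |
    ⟨w', ψ', h1', hM', hs', e'⟩
  · exact (S.lp_eq hv hv').2 ((span_lp_eq hv hv').1 (e.symm.trans e'))
  · obtain ⟨v0, hv0, hk0, -⟩ := exists_orth k' k'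
    exact absurd (e.symm.trans e') (kinds (v := v0) (k := k') (w := 0) (ψ := 0) hv hk'
      ⟨hv0, hk', by rw [dotProduct_comm]; exact hk0⟩).1
  · exact absurd (e.symm.trans e') (kinds (w := 0) (ψ := 0) hv hf'.2.1 hf').2.1
  · obtain ⟨k0, hk0, hk1, -⟩ := exists_orth v v
    exact absurd (e.symm.trans e') (kinds (v := v) (k := k0) (w := w') (ψ := ψ') hv hk0
      ⟨hv, hk0, hk1⟩).2.2.1
  · obtain ⟨k0, hk0, hk1, -⟩ := exists_orth v' v'
    exact absurd (e'.symm.trans e) (kinds (v := v') (k := k0) (w := 0) (ψ := 0) hv' hk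
      ⟨hv', hk0, hk1⟩).1
  · exact (S.ll_eq hk hk').2 ((span_ll_eq hk hk').1 (e.symm.trans e'))
  · exact absurd (e.symm.trans e') (kinds (w := 0) (ψ := 0) hf'.1 hk hf').2.2.2.1
  · obtain ⟨v0, hv0, hk0, -⟩ := exists_orth k k
    exact absurd (e.symm.trans e') (kinds (v := v0) (k := k) (w := w') (ψ := ψ') hv0 hk
      ⟨hv0, hk, by rw [dotProduct_comm]; exact hk0⟩).2.2.2.2.1
  · exact absurd (e'.symm.trans e) (kinds (w := 0) (ψ := 0) hv' hf.2.1 hf).2.1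
  · exact absurd (e'.symm.trans e) (kinds (w := 0) (ψ := 0) hf.1 hk' hf).2.2.2.1
  · obtain ⟨c, hc0, hc1, hc2⟩ := (span_a_eq hf hf').1 (e.symm.trans e')
    subst hc1
    subst hc2
    have h2 := aprop_smul S (fun {x v w ψ} hr {c} hc => rep_smul H S hr hc) ⟨ht', hx'⟩ (inv_ne_zero hc0)
    rw [smul_smul, smul_smul, inv_mul_cancel₀ hc0, one_smul, one_smul] at h2
    obtain ⟨t0, -, hu⟩ := aline_unique H S h3 hLB hstd hf
    rw [hu l ⟨ht, hx⟩, hu l' h2]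
  · exact absurd (e.symm.trans e') (kinds (w := w') (ψ := ψ') hf.1 hf.2.1 hf).2.2.2.2.2
  · obtain ⟨k0, hk0, hk1, -⟩ := exists_orth v' v'
    exact absurd (e'.symm.trans e) (kinds (v := v') (k := k0) (w := w) (ψ := ψ) hv' hk0
      ⟨hv', hk0, hk1⟩).2.2.1
  · obtain ⟨v0, hv0, hk0, -⟩ := exists_orth k' k'
    exact absurd (e'.symm.trans e) (kinds (v := v0) (k := k') (w := w) (ψ := ψ) hv0 hk'
      ⟨hv0, hk', by rw [dotProduct_comm]; exact hk0⟩).2.2.2.2.1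
  · exact absurd (e'.symm.trans e) (kinds (w := w) (ψ := ψ) hf'.1 hf'.2.1 hf').2.2.2.2.2
  · obtain ⟨e1, e2⟩ := span_b_eq.1 (e.symm.trans e')
    subst e1
    subst e2
    obtain ⟨M0, -, hu⟩ := std_unique H S h3 hLB hstd h1
    rw [hu l ⟨hM, hs⟩, hu l' ⟨hM', hs'⟩]

omit h3 in
theorem prel_exists (x : Pt) : ∃ W : HLine K, PRel S x W.1 := by
  by_cases hx : Out S x
  · obtain ⟨v, w, ψ, hv, hr⟩ := rep_exists H S hLB hstd hx
    exact ⟨⟨_, hline_out hv hr.1 hr.2.1⟩, Or.inr ⟨v, w, ψ, hv, hx, hr, rfl⟩⟩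
  · unfold Out at hx
    push Not at hx
    obtain ⟨v, k, hf, he⟩ := hx
    exact ⟨⟨_, hline_flag hf⟩, Or.inl ⟨v, k, hf, he, rfl⟩⟩

omit hLB hstd in
theorem prel_unique {x : Pt} {W W' : Submodule K (Fin 7 → K)} (h : PRel S x W)
    (h' : PRel S x W') : W = W' := by
  rcases h with ⟨v, k, hf, rfl, rfl⟩ | ⟨v, w, ψ, hv, hx, hr, rfl⟩ <;>
  rcases h' with ⟨v', k', hf', he, rfl⟩ | ⟨v', w', ψ', hv', hx', hr', rfl⟩
  · obtain ⟨h1, h2⟩ := (S.pt_eq hf hf').1 he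
    apply le_antisymm
    · rw [Submodule.span_le]
      rintro y (rfl | rfl)
      · exact (lp_mem_flag hf.1 hf').2 (cross_zero_symm h1)
      · exact (ll_mem_flag hf.2.1 hf').2 (cross_zero_symm h2)
    · rw [Submodule.span_le]
      rintro y (rfl | rfl)
      · exact (lp_mem_flag hf'.1 hf).2 h1
      · exact (ll_mem_flag hf'.2.1 hf).2 h2
  · exact absurd rfl (hx' v k hf)
  · exact absurd he (hx v' k' hf')
  · obtain ⟨c, s, hc, e1, e2, e3⟩ := rep_change H S h3 hx hv' hr hr'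
    have hle : Submodule.span K {v7 v' 0 (w' ⨯₃ v'), v7 w' 1 ψ'} ≤
        Submodule.span K {v7 v 0 (w ⨯₃ v), v7 w 1 ψ} := by
      rw [Submodule.span_le]
      rintro y (rfl | rfl)
      · refine (a_mem_out hr'.2.2.1.1 hv hr.1 hr.2.1).2 ⟨c, hc, e1, ?_⟩
        rw [e1, e2, map_smul, map_add, map_smul]
        simp [cross_self]
      · exact (b_mem_out hv hr.1 hr.2.1).2 ⟨s, e2, e3⟩
    exact (Submodule.eq_of_le_of_finrank_eq hle
      ((hline_out hv' hr'.1 hr'.2.1).1.trans (hline_out hv hr.1 hr.2.1).1.symm)).symm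

theorem prel_exists' (W : HLine K) : ∃ x, PRel S x W.1 := by
  rcases hline_cases W with ⟨v, k, hf, e⟩ | ⟨v, w, ψ, hv, h1, h0, e⟩
  · exact ⟨S.pt v k, Or.inl ⟨v, k, hf, rfl, e⟩⟩
  · obtain ⟨M, ⟨hM, hs⟩, -⟩ := std_unique H S h3 hLB hstd h1
    obtain ⟨x, hx, hov, hn⟩ := hs.2 v hv h0
    exact ⟨x, Or.inr ⟨v, w, ψ, hv, out_of_bline H S hM hx, ⟨h1, h0, hov, hn⟩, e⟩⟩

theorem prel_unique' {x x' : Pt} {W : Submodule K (Fin 7 → K)} (h : PRel S x W)
    (h' : PRel S x' W) : x = x' := by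
  rcases h with ⟨v, k, hf, rfl, e⟩ | ⟨v, w, ψ, hv, hx, hr, e⟩ <;>
  rcases h' with ⟨v', k', hf', rfl, e'⟩ | ⟨v', w', ψ', hv', hx', hr', e'⟩
  · have h1 : v7 v 0 0 ∈ Submodule.span K {v7 v' 0 0, v7 0 0 k'} := by
      rw [← e', e]
      exact Submodule.subset_span (by simp)
    have h2 : v7 0 0 k ∈ Submodule.span K {v7 v' 0 0, v7 0 0 k'} := by
      rw [← e', e]
      exact Submodule.subset_span (by simp)
    exact (S.pt_eq hf hf').2 ⟨cross_zero_symm ((lp_mem_flag hf.1 hf').1 h1),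
      cross_zero_symm ((ll_mem_flag hf.2.1 hf').1 h2)⟩
  · have h1 : v7 w' 1 ψ' ∈ Submodule.span K {v7 v 0 0, v7 0 0 k} := by
      rw [← e, e']
      exact Submodule.subset_span (by simp)
    exact absurd h1 b_not_mem_flag
  · have h1 : v7 w 1 ψ ∈ Submodule.span K {v7 v' 0 0, v7 0 0 k'} := by
      rw [← e', e]
      exact Submodule.subset_span (by simp)
    exact absurd h1 b_not_mem_flag
  · have h1 : v7 v' 0 (w' ⨯₃ v') ∈ Submodule.span K {v7 v 0 (w ⨯₃ v), v7 w 1 ψ} := by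
      rw [← e, e']
      exact Submodule.subset_span (by simp)
    have h2 : v7 w' 1 ψ' ∈ Submodule.span K {v7 v 0 (w ⨯₃ v), v7 w 1 ψ} := by
      rw [← e, e']
      exact Submodule.subset_span (by simp)
    obtain ⟨c, hc, e1, -⟩ := (a_mem_out hr'.2.2.1.1 hv hr.1 hr.2.1).1 h1
    obtain ⟨s, e2, e3⟩ := (b_mem_out hv hr.1 hr.2.1).1 h2
    have hr2 := rep_smul H S hr' (inv_ne_zero hc)
    rw [e1, smul_smul, inv_mul_cancel₀ hc, one_smul] at hr2
    have hr3 := rep_add H S hr2 (-s)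
    have ew : w' ⨯₃ v = w ⨯₃ v := by
      rw [e2, map_add, map_smul]
      simp [cross_self]
    have f2 : w' + (-s) • v = w := by rw [e2]; module
    have f3 : ψ' + (-s) • (w' ⨯₃ v) = ψ := by rw [ew, e3]; module
    rw [f2, f3] at hr3
    exact rep_inj H S h3 hLB hstd hx hx' hr hr3

theorem inc_iff {x : Pt} {l : Ln} {U W : Submodule K (Fin 7 → K)} (hl : LRel S l U)
    (hx : PRel S x W) : I x l ↔ U ≤ W := by
  rcases hx with ⟨v, k, hf, rfl, rfl⟩ | ⟨v, w, ψ, hv, hox, hr, rfl⟩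
  · rcases hl with ⟨u, hu, rfl, rfl⟩ | ⟨m, hm, rfl, rfl⟩ | ⟨v', φ', hf', ht, -, rfl⟩ |
      ⟨w, ψ, h1, hM, hs, rfl⟩
    · rw [Submodule.span_singleton_le_iff_mem, lp_mem_flag hu hf]
      exact S.inc_lp hf hu
    · rw [Submodule.span_singleton_le_iff_mem, ll_mem_flag hm hf]
      exact S.inc_ll hf hm
    · rw [Submodule.span_singleton_le_iff_mem, a_mem_flag hf' hf]
      constructor
      · intro h
        obtain ⟨h1, h2⟩ := aline_over H S ht hf h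
        exact ⟨cross_zero_symm h1, cross_zero_symm h2⟩
      · rintro ⟨h1, h2⟩
        rw [(S.pt_eq hf hf').2 ⟨h1, h2⟩]
        exact ht.2.1
    · rw [Submodule.span_singleton_le_iff_mem]
      exact ⟨fun h => absurd h (hM v k hf), fun h => absurd h b_not_mem_flag⟩
  · rcases hl with ⟨u, hu, rfl, rfl⟩ | ⟨m, hm, rfl, rfl⟩ |
      ⟨v', φ', hf', ht, ⟨y, w', ψ', hy, hoy, hr', hw'⟩, rfl⟩ | ⟨w', ψ', h1, hM, hs, rfl⟩
    · rw [Submodule.span_singleton_le_iff_mem]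
      refine ⟨fun h => ?_, fun h => absurd h (lp_not_mem_out hu hv hr.1 hr.2.1)⟩
      obtain ⟨k, hk, he⟩ := flag_on_lp H S hu h
      exact absurd he (hox u k hk)
    · rw [Submodule.span_singleton_le_iff_mem]
      refine ⟨fun h => ?_, fun h => absurd h (ll_not_mem_out hm hv hr.1 hr.2.1)⟩
      obtain ⟨u, hk, he⟩ := flag_on_ll H S hm h
      exact absurd he (hox u m hk)
    · rw [Submodule.span_singleton_le_iff_mem, a_mem_out hf' hv hr.1 hr.2.1]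
      constructor
      · intro h
        have hov := (out_of_aline H S ht h (hox v' φ' hf')).2
        obtain ⟨c, hc0, hc1⟩ := (cross_eq_zero_iff hv hf'.1).1
          (over_unique H S hox hr.2.2.1 hov).1
        have hr2 := rep_smul H S hr hc0
        rw [← hc1] at hr2
        have := rep_aline H S h3 ht hy h hoy hox hr' hr2
        refine ⟨c, hc0, hc1, ?_⟩
        rw [← hw', ← this, hc1, map_smul]
      · rintro ⟨c, hc, e1, e2⟩
        obtain ⟨t, ht', hxt⟩ := aline_exists H S hox hr.2.2.1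
        obtain ⟨t0, -, hu⟩ := aline_unique H S h3 hLB hstd hr.2.2.1.1
        have h1 := aprop_smul S (fun {x v w ψ} hr {c} hc => rep_smul H S hr hc)
          ⟨ht, y, w', ψ', hy, hoy, hr', hw'⟩ (inv_ne_zero hc)
        rw [e1, e2, smul_smul, smul_smul, inv_mul_cancel₀ hc, one_smul, one_smul] at h1
        rw [hu l h1, ← hu t ⟨ht', x, w, ψ, hxt, hox, hr, rfl⟩]
        exact hxt
    · rw [Submodule.span_singleton_le_iff_mem, b_mem_out hv hr.1 hr.2.1]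
      constructor
      · intro h
        exact rep_unique H S h3 hox hr (rep_of_std H S hM hs h hr.2.2.1).2
      · rintro ⟨s, e1, e2⟩
        have hr2 := rep_add H S hr s
        rw [← e1, ← e2] at hr2
        obtain ⟨y, hy, hov, hn⟩ := hs.2 v hv hr2.2.1
        have : x = y := rep_inj H S h3 hLB hstd hox (out_of_bline H S hM hy) hr2
          ⟨hs.1, hr2.2.1, hov, hn⟩
        rw [this]
        exact hy

/-- the isomorphism -/
theorem iso_exists : ∃ (e₁ : Pt ≃ HLine K) (e₂ : Ln ≃ HPoint K),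
    ∀ x l, I x l ↔ (e₂ l).1 ≤ (e₁ x).1 := by
  choose f hf using prel_exists H S hLB hstd
  choose g hg using lrel_exists H S h3 hLB hstd
  have hfb : Function.Bijective f := by
    constructor
    · intro x y hxy
      have h1 := hf x
      rw [hxy] at h1
      exact prel_unique' H S h3 hLB hstd h1 (hf y)
    · intro W
      obtain ⟨x, hx⟩ := prel_exists' H S h3 hLB hstd W
      exact ⟨x, Subtype.ext (prel_unique H S h3 (hf x) hx)⟩
  have hgb : Function.Bijective g := by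
    constructor
    · intro x y hxy
      have h1 := hg x
      rw [hxy] at h1
      exact lrel_unique' H S h3 hLB hstd h1 (hg y)
    · intro U
      obtain ⟨l, hl⟩ := lrel_exists' H S h3 hLB hstd U
      exact ⟨l, Subtype.ext (lrel_unique H S h3 (hg l) hl)⟩
  refine ⟨Equiv.ofBijective f hfb, Equiv.ofBijective g hgb, fun x l => ?_⟩
  exact inc_iff H S h3 hLB hstd (hg l) (hf x)

end O

theorem cube_one {p : ℕ} [Fact p.Prime] (h3 : p % 3 ≠ 1) (c : ZMod p) (hc : c ^ 3 = 1) :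
    c = 1 := by
  have hc0 : c ≠ 0 := by
    rintro rfl
    rw [zero_pow (by norm_num)] at hc
    exact zero_ne_one hc
  have h1 : orderOf c ∣ 3 := orderOf_dvd_of_pow_eq_one hc
  have h2 : orderOf c ∣ p - 1 := orderOf_dvd_of_pow_eq_one (ZMod.pow_card_sub_one_eq_one hc0)
  rcases (Nat.dvd_prime Nat.prime_three).1 h1 with h | h
  · exact orderOf_eq_one_iff.1 h
  · rw [h] at h2
    have hp := (Fact.out : p.Prime).two_le
    omega

/-- Main theorem. -/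
theorem main {p : ℕ} [Fact p.Prime] (h3 : p % 3 ≠ 1) {Pt Ln : Type*} {I : Pt → Ln → Prop}
    (hI : IsGenHexagon p p I) (a : Flag (ZMod p) → Pt)
    (b : Projectivization (ZMod p) (Fin 3 → ZMod p) ⊕ Projectivization (ZMod p) (Fin 3 → ZMod p)
      → Ln)
    (ha : Function.Injective a) (hb : Function.Injective b)
    (hab : ∀ f e, I (a f) (b e) ↔ flagInc f e)
    (hreg : ∀ P L, ¬ Projectivization.orthogonal P L →
      Distance3Regular I (b (Sum.inl P)) (b (Sum.inr L))) :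
    ∃ (e₁ : Pt ≃ HLine (ZMod p)) (e₂ : Ln ≃ HPoint (ZMod p)),
      ∀ x l, I x l ↔ (e₂ l).1 ≤ (e₁ x).1 := by
  have H := hex_of_isGenHexagon hI
  have H' : Hex I (Fintype.card (ZMod p)) := by rw [ZMod.card]; exact H
  obtain ⟨S, hlp, hll, -⟩ := exists_sub a b ha hb hab
  have hLB : LB S := by
    refine LB_of_regular H' (dist_eq_three_iff hI) S ?_
    intro c N hcN
    have hc : c ≠ 0 := by
      rintro rfl
      exact hcN (zero_dotProduct _)
    have hN : N ≠ 0 := by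
      rintro rfl
      exact hcN (dotProduct_zero _)
    rw [hlp c hc, hll N hN]
    apply hreg
    rw [Projectivization.orthogonal_mk]
    exact hcN
  exact iso_exists H' S (cube_one h3) hLB (fun M hM => std_exists H S hLB h3 hM)

end Pool.Agent.Lib.MP_6b0fe3_coR
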