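import Pool.Agent.Lib.MP_6b0fe3_coR.LineF

/-! MP_6b0fe3_co, recognition theorem: uniqueness of representations -/

namespace Pool.Agent.Lib.MP_6b0fe3_coR

open Matrix

/-! L: uniqueness -/

/-- representation of an outside point -/
def Rep {K : Type*} [Field K] {Pt Ln : Type*} {I : Pt → Ln → Prop} (S : Sub K I) (x : Pt)
    (v w ψ : Fin 3 → K) : Prop :=
  ψ ⬝ᵥ w = 1 ∧ ψ ⬝ᵥ v = 0 ∧ Over S x v (w ⨯₃ v) ∧
    ∀ r m, IsFlag r m → Opp v (w ⨯₃ v) r m →
      (Near I x (S.pt r m) ↔ (w ⨯₃ v) ⬝ᵥ r * (m ⬝ᵥ w) = ψ ⬝ᵥ r * (m ⬝ᵥ v))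

section aux
variable {K : Type*} [Field K]

theorem uniqL_parallel {a b : Fin 3 → K} (ha : a ≠ 0) (h : a ⨯₃ b = 0) : ∃ c : K, b = c • a := by
  have e0 := congrFun h 0
  have e1 := congrFun h 1
  have e2 := congrFun h 2
  simp [cross_apply] at e0 e1 e2
  have hex : ∃ i, a i ≠ 0 := by
    by_contra hno
    push Not at hno
    exact ha (funext hno)
  obtain ⟨i, hi⟩ := hex
  refine ⟨b i / a i, ?_⟩
  funext j
  simp only [Pi.smul_apply, smul_eq_mul]
  rw [div_mul_eq_mul_div, eq_div_iff hi]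
  fin_cases i <;> fin_cases j <;> simp <;>
    first
    | linear_combination (0 : K)
    | linear_combination e0
    | linear_combination e1
    | linear_combination e2
    | linear_combination (-1 : K) * e0
    | linear_combination (-1 : K) * e1
    | linear_combination (-1 : K) * e2

theorem uniqL_cross_self_left (w v : Fin 3 → K) : (w ⨯₃ v) ⬝ᵥ w = 0 := by
  rw [dotProduct_comm]
  exact dot_self_cross w v

theorem uniqL_cross_self_right (w v : Fin 3 → K) : (w ⨯₃ v) ⬝ᵥ v = 0 := by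
  rw [dotProduct_comm]
  exact dot_cross_self w v

/-- a vector not orthogonal to a nonzero vector -/
theorem uniqL_nondeg {a : Fin 3 → K} (ha : a ≠ 0) : ∃ u : Fin 3 → K, a ⬝ᵥ u ≠ 0 := by
  by_contra hno
  push Not at hno
  apply ha
  funext i
  have := hno (Pi.single i 1)
  simpa using this

/-- the first factor from the cross product -/
theorem uniqL_factor {v w w' : Fin 3 → K} (hv : v ≠ 0) {c : K}
    (h : w' ⨯₃ v = c • (w ⨯₃ v)) : ∃ s : K, w' = c • w + s • v := by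
  have h1 : v ⨯₃ (w' - c • w) = 0 := by
    have h2 : (w' - c • w) ⨯₃ v = 0 := by
      rw [map_sub, LinearMap.sub_apply, map_smul, LinearMap.smul_apply, h, sub_self]
    rw [← neg_eq_zero, cross_anticomm]
    exact h2
  obtain ⟨s, hs⟩ := uniqL_parallel hv h1
  exact ⟨s, by rw [← hs]; abel⟩

/-- two linear forms agreeing off a plane agree -/
theorem uniqL_forms {φ A B : Fin 3 → K} (hφ : φ ≠ 0)
    (h : ∀ r : Fin 3 → K, φ ⬝ᵥ r ≠ 0 → A ⬝ᵥ r = B ⬝ᵥ r) : A = B := by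
  obtain ⟨u, hu⟩ := uniqL_nondeg hφ
  have key : ∀ r : Fin 3 → K, A ⬝ᵥ r = B ⬝ᵥ r := by
    intro r
    by_cases hr : φ ⬝ᵥ r = 0
    · have h1 := h (r + u) (by rw [dotProduct_add, hr, zero_add]; exact hu)
      have h2 := h u hu
      rw [dotProduct_add, dotProduct_add, h2] at h1
      exact add_right_cancel h1
    · exact h r hr
  funext i
  have := key (Pi.single i 1)
  simpa using this

end aux

section L
variable {K : Type*} [Field K] [Fintype K] {Pt Ln : Type*} {I : Pt → Ln → Prop}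
variable (H : Hex I (Fintype.card K)) (S : Sub K I)
include H

/-- the near flag over a point `r` off the line, with the bilinear condition evaluated -/
theorem uniqL_near {x : Pt} (hx : Out S x) {v w ψ : Fin 3 → K} (h : Rep S x v w ψ)
    {r : Fin 3 → K} (hr : (w ⨯₃ v) ⬝ᵥ r ≠ 0) :
    ∃ m, IsFlag r m ∧ Near I x (S.pt r m) ∧ Opp v (w ⨯₃ v) r m ∧
      (w ⨯₃ v) ⬝ᵥ r * (m ⬝ᵥ w) = ψ ⬝ᵥ r * (m ⬝ᵥ v) := by
  obtain ⟨h1, h2, h3, h4⟩ := h
  have hr0 : r ≠ 0 := by
    rintro rfl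
    exact hr (dotProduct_zero _)
  obtain ⟨m, hm, hn⟩ := theta_exists H S hx h3 hr0
  have hr' : r ⬝ᵥ (w ⨯₃ v) ≠ 0 := by rw [dotProduct_comm]; exact hr
  have ho : Opp v (w ⨯₃ v) r m := ⟨near_opp H S hx h3 hm hn hr', hr'⟩
  exact ⟨m, hm, hn, ho, (h4 r m hm ho).1 hn⟩

theorem rep_unique (h3 : ∀ c : K, c ^ 3 = 1 → c = 1) {x : Pt} (hx : Out S x)
    {v w ψ w' ψ' : Fin 3 → K} (h : Rep S x v w ψ) (h' : Rep S x v w' ψ') :
    ∃ s : K, w' = w + s • v ∧ ψ' = ψ + s • (w ⨯₃ v) := by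
  have hv : v ≠ 0 := h.2.2.1.1.1
  have hφ : w ⨯₃ v ≠ 0 := h.2.2.1.1.2.1
  have hφ' : w' ⨯₃ v ≠ 0 := h'.2.2.1.1.2.1
  obtain ⟨c, hc⟩ := uniqL_parallel hφ (over_unique H S hx h.2.2.1 h'.2.2.1).2
  have hc0 : c ≠ 0 := by
    rintro rfl
    exact hφ' (by rw [hc, zero_smul])
  obtain ⟨s, hs⟩ := uniqL_factor hv hc
  have hform : ψ' = c ^ 2 • ψ + (c * s) • (w ⨯₃ v) := by
    apply uniqL_forms hφ
    intro r hr
    obtain ⟨m, hm, hn, ho, he⟩ := uniqL_near H S hx h hr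
    have ho' : Opp v (w' ⨯₃ v) r m := by
      refine ⟨ho.1, ?_⟩
      rw [hc, dotProduct_smul, smul_eq_mul]
      exact mul_ne_zero hc0 ho.2
    have he' := (h'.2.2.2 r m hm ho').1 hn
    rw [hc, hs, smul_dotProduct, smul_eq_mul, dotProduct_add, dotProduct_smul, dotProduct_smul,
      smul_eq_mul, smul_eq_mul] at he'
    have hmv : m ⬝ᵥ v ≠ 0 := by rw [dotProduct_comm]; exact ho.1
    apply mul_right_cancel₀ hmv
    rw [add_dotProduct, smul_dotProduct, smul_dotProduct, smul_eq_mul, smul_eq_mul]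
    linear_combination (-1 : K) * he' + c ^ 2 * he
  have h1 : c ^ 3 = 1 := by
    have h2 := h'.1
    rw [hform, hs, add_dotProduct, smul_dotProduct, smul_dotProduct, dotProduct_add,
      dotProduct_add, dotProduct_smul, dotProduct_smul, dotProduct_smul, dotProduct_smul,
      uniqL_cross_self_left, uniqL_cross_self_right, h.1, h.2.1] at h2
    simp only [smul_eq_mul] at h2
    linear_combination h2
  have hc1 := h3 c h1
  subst hc1
  refine ⟨s, ?_, ?_⟩
  · rw [hs, one_smul]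
  · rw [hform, one_pow, one_smul, one_mul]

theorem rep_aline (h3 : ∀ c : K, c ^ 3 = 1 → c = 1) {v k : Fin 3 → K} {t : Ln}
    (ht : ALine S v k t) {x y : Pt} (hx : I x t) (hy : I y t) (hox : Out S x) (hoy : Out S y)
    {w ψ w' ψ' : Fin 3 → K} (h : Rep S x v w ψ) (h' : Rep S y v w' ψ') :
    w' ⨯₃ v = w ⨯₃ v := by
  by_cases hxy : x = y
  · subst hxy
    obtain ⟨s, hs, -⟩ := rep_unique H S h3 hox h h'
    rw [hs, map_add, LinearMap.add_apply, map_smul, LinearMap.smul_apply, cross_self, smul_zero,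
      add_zero]
  have hv : v ≠ 0 := h.2.2.1.1.1
  have hφ : w ⨯₃ v ≠ 0 := h.2.2.1.1.2.1
  have hφ' : w' ⨯₃ v ≠ 0 := h'.2.2.1.1.2.1
  have hk : k ≠ 0 := ht.1.2.1
  have hxv := (out_of_aline H S ht hx (hox v k ht.1)).2
  have hyv := (out_of_aline H S ht hy (hoy v k ht.1)).2
  obtain ⟨a, ha⟩ := uniqL_parallel hk (over_unique H S hox hxv h.2.2.1).2
  obtain ⟨b, hb⟩ := uniqL_parallel hk (over_unique H S hoy hyv h'.2.2.1).2
  have ha0 : a ≠ 0 := by
    rintro rfl
    exact hφ (by rw [ha, zero_smul])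
  have hb0 : b ≠ 0 := by
    rintro rfl
    exact hφ' (by rw [hb, zero_smul])
  obtain ⟨c, hc, hc0⟩ : ∃ c : K, w' ⨯₃ v = c • (w ⨯₃ v) ∧ c ≠ 0 := by
    refine ⟨b / a, ?_, div_ne_zero hb0 ha0⟩
    rw [hb, ha, smul_smul, div_mul_cancel₀ _ ha0]
  obtain ⟨s, hs⟩ := uniqL_factor hv hc
  have hne : ∀ r : Fin 3 → K, (w ⨯₃ v) ⬝ᵥ r ≠ 0 →
      ψ' ⬝ᵥ r ≠ c ^ 2 * (ψ ⬝ᵥ r) + c * s * ((w ⨯₃ v) ⬝ᵥ r) := by
    intro r hr he
    obtain ⟨m, hm, hn, ho, hb1⟩ := uniqL_near H S hox h hr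
    have ho' : Opp v (w' ⨯₃ v) r m := by
      refine ⟨ho.1, ?_⟩
      rw [hc, dotProduct_smul, smul_eq_mul]
      exact mul_ne_zero hc0 ho.2
    have hn' : Near I y (S.pt r m) := by
      apply (h'.2.2.2 r m hm ho').2
      rw [hc, hs, smul_dotProduct, smul_eq_mul, dotProduct_add, dotProduct_smul, dotProduct_smul,
        smul_eq_mul, smul_eq_mul, he]
      linear_combination c ^ 2 * hb1
    have hok : Opp v k r m := by
      refine ⟨ho.1, ?_⟩
      intro h0
      apply ho.2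
      rw [ha, dotProduct_smul, h0, smul_zero]
    exact hxy (near_aline_unique H S ht hm hok hx hy hn hn')
  have hpar : (w ⨯₃ v) ⨯₃ (ψ' - c ^ 2 • ψ - (c * s) • (w ⨯₃ v)) = 0 := by
    by_contra hno
    obtain ⟨u, hu⟩ := uniqL_nondeg hno
    have hφr : (w ⨯₃ v) ⬝ᵥ ((ψ' - c ^ 2 • ψ - (c * s) • (w ⨯₃ v)) ⨯₃ u) ≠ 0 := by
      intro h0
      apply hu
      rw [← h0]
      simp only [cross_apply, vec3_dotProduct]
      simp
      ring
    apply hne _ hφr
    have hδ : (ψ' - c ^ 2 • ψ - (c * s) • (w ⨯₃ v)) ⬝ᵥ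
        ((ψ' - c ^ 2 • ψ - (c * s) • (w ⨯₃ v)) ⨯₃ u) = 0 := dot_self_cross _ _
    have hlin : ∀ z : Fin 3 → K, (ψ' - c ^ 2 • ψ - (c * s) • (w ⨯₃ v)) ⬝ᵥ z =
        ψ' ⬝ᵥ z - c ^ 2 * (ψ ⬝ᵥ z) - c * s * ((w ⨯₃ v) ⬝ᵥ z) := by
      intro z
      rw [sub_dotProduct, sub_dotProduct, smul_dotProduct, smul_dotProduct, smul_eq_mul,
        smul_eq_mul]
    rw [hlin] at hδ
    linear_combination hδ
  obtain ⟨e, he⟩ := uniqL_parallel hφ hpar
  have hform : ψ' = c ^ 2 • ψ + (c * s + e) • (w ⨯₃ v) := by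
    rw [add_smul, ← he]
    abel
  have h1 : c ^ 3 = 1 := by
    have h2 := h'.1
    rw [hform, hs, add_dotProduct, smul_dotProduct, smul_dotProduct, dotProduct_add,
      dotProduct_add, dotProduct_smul, dotProduct_smul, dotProduct_smul, dotProduct_smul,
      uniqL_cross_self_left, uniqL_cross_self_right, h.1, h.2.1] at h2
    simp only [smul_eq_mul] at h2
    linear_combination h2
  rw [hc, h3 c h1, one_smul]

theorem rep_smul {x : Pt} {v w ψ : Fin 3 → K} (h : Rep S x v w ψ) {c : K} (hc : c ≠ 0) :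
    Rep S x (c • v) w ψ := by
  obtain ⟨h1, h2, ⟨h5, h6⟩, h4⟩ := h
  have hcr : w ⨯₃ (c • v) = c • (w ⨯₃ v) := by rw [map_smul]
  have hfl : IsFlag (c • v) (c • (w ⨯₃ v)) := by
    refine ⟨smul_ne_zero hc h5.1, smul_ne_zero hc h5.2.1, ?_⟩
    rw [smul_dotProduct, dotProduct_smul, h5.2.2, smul_zero, smul_zero]
  have hpt : S.pt (c • v) (c • (w ⨯₃ v)) = S.pt v (w ⨯₃ v) := by
    rw [S.pt_eq hfl h5]
    constructor
    · rw [map_smul, LinearMap.smul_apply, cross_self, smul_zero]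
    · rw [map_smul, LinearMap.smul_apply, cross_self, smul_zero]
  refine ⟨h1, ?_, ⟨?_, ?_⟩, ?_⟩
  · rw [dotProduct_smul, h2, smul_zero]
  · rw [hcr]; exact hfl
  · rw [hcr, hpt]; exact h6
  · intro r m hf ho
    rw [hcr] at ho ⊢
    have ho' : Opp v (w ⨯₃ v) r m := by
      refine ⟨?_, ?_⟩
      · intro h0
        exact ho.1 (by rw [smul_dotProduct, h0, smul_zero])
      · intro h0
        exact ho.2 (by rw [dotProduct_smul, h0, smul_zero])
    rw [h4 r m hf ho', smul_dotProduct, dotProduct_smul, smul_eq_mul, smul_eq_mul]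
    constructor
    · intro h0
      linear_combination c * h0
    · intro h0
      apply mul_left_cancel₀ hc
      linear_combination h0

/-- the pencil of all representations of one outside point -/
theorem rep_add {x : Pt} {v w ψ : Fin 3 → K} (h : Rep S x v w ψ) (s : K) :
    Rep S x v (w + s • v) (ψ + s • (w ⨯₃ v)) := by
  obtain ⟨h1, h2, h5, h4⟩ := h
  have hcr : (w + s • v) ⨯₃ v = w ⨯₃ v := by
    rw [map_add, LinearMap.add_apply, map_smul, LinearMap.smul_apply, cross_self, smul_zero,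
      add_zero]
  refine ⟨?_, ?_, ?_, ?_⟩
  · rw [add_dotProduct, smul_dotProduct, dotProduct_add, dotProduct_add, dotProduct_smul,
      dotProduct_smul, uniqL_cross_self_left, uniqL_cross_self_right, h1, h2]
    simp
  · rw [add_dotProduct, smul_dotProduct, uniqL_cross_self_right, h2]
    simp
  · rw [hcr]; exact h5
  · intro r m hf ho
    rw [hcr] at ho ⊢
    rw [h4 r m hf ho, dotProduct_add, dotProduct_smul, add_dotProduct, smul_dotProduct,
      smul_eq_mul, smul_eq_mul]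
    constructor
    · intro h0
      linear_combination h0
    · intro h0
      linear_combination h0

end L

end Pool.Agent.Lib.MP_6b0fe3_coR
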