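import Pool.Agent.Lib.MP_6b0fe3_coR.LiftG
import Pool.Agent.Lib.MP_6b0fe3_coR.UniqL

/-! MP_6b0fe3_co, L3: automorphisms inducing elements of SL3(K) on the subhexagon -/

namespace Pool.Agent.Lib.MP_6b0fe3_coR

open Matrix

/-- the special linear group of degree 3 -/
abbrev SL3 (K : Type*) [Field K] := Matrix.SpecialLinearGroup (Fin 3) K

section act
variable {K : Type*} [Field K]

/-- action on points -/
def sv (A : SL3 K) (v : Fin 3 → K) : Fin 3 → K := A.1 *ᵥ v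

/-- action on lines -/
def sk (A : SL3 K) (k : Fin 3 → K) : Fin 3 → K := k ᵥ* (A⁻¹).1

theorem sv_one (v : Fin 3 → K) : sv (1 : SL3 K) v = v := by simp [sv]

theorem sk_one (k : Fin 3 → K) : sk (1 : SL3 K) k = k := by simp [sk]

theorem sv_mul (A B : SL3 K) (v : Fin 3 → K) : sv (A * B) v = sv A (sv B v) := by
  simp [sv, Matrix.mulVec_mulVec]

theorem sk_mul (A B : SL3 K) (k : Fin 3 → K) : sk (A * B) k = sk A (sk B k) := by
  unfold sk
  rw [_root_.mul_inv_rev, Matrix.SpecialLinearGroup.coe_mul, Matrix.vecMul_vecMul]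

theorem sv_add (A : SL3 K) (v w : Fin 3 → K) : sv A (v + w) = sv A v + sv A w := by
  simp [sv, Matrix.mulVec_add]

theorem sv_sub (A : SL3 K) (v w : Fin 3 → K) : sv A (v - w) = sv A v - sv A w := by
  simp [sv, Matrix.mulVec_sub]

theorem sv_smul (A : SL3 K) (c : K) (v : Fin 3 → K) : sv A (c • v) = c • sv A v := by
  simp [sv, Matrix.mulVec_smul]

theorem sk_add (A : SL3 K) (v w : Fin 3 → K) : sk A (v + w) = sk A v + sk A w := by
  unfold sk
  rw [Matrix.add_vecMul]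

theorem sk_sub (A : SL3 K) (v w : Fin 3 → K) : sk A (v - w) = sk A v - sk A w := by
  unfold sk
  rw [Matrix.sub_vecMul]

theorem sk_smul (A : SL3 K) (c : K) (v : Fin 3 → K) : sk A (c • v) = c • sk A v := by
  unfold sk
  rw [Matrix.smul_vecMul]

theorem sv_zero (A : SL3 K) : sv A 0 = 0 := by simp [sv]

theorem sk_zero (A : SL3 K) : sk A 0 = 0 := by
  unfold sk
  rw [Matrix.zero_vecMul]

theorem sv_inv_sv (A : SL3 K) (v : Fin 3 → K) : sv A⁻¹ (sv A v) = v := by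
  rw [← sv_mul, inv_mul_cancel, sv_one]

theorem sv_sv_inv (A : SL3 K) (v : Fin 3 → K) : sv A (sv A⁻¹ v) = v := by
  rw [← sv_mul, mul_inv_cancel, sv_one]

theorem sk_inv_sk (A : SL3 K) (v : Fin 3 → K) : sk A⁻¹ (sk A v) = v := by
  rw [← sk_mul, inv_mul_cancel, sk_one]

theorem sk_sk_inv (A : SL3 K) (v : Fin 3 → K) : sk A (sk A⁻¹ v) = v := by
  rw [← sk_mul, mul_inv_cancel, sk_one]

theorem s_dot (A : SL3 K) (v k : Fin 3 → K) : sv A v ⬝ᵥ sk A k = v ⬝ᵥ k := by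
  unfold sv sk
  rw [dotProduct_comm, ← Matrix.dotProduct_mulVec, Matrix.mulVec_mulVec,
    ← Matrix.SpecialLinearGroup.coe_mul, inv_mul_cancel, Matrix.SpecialLinearGroup.coe_one,
    Matrix.one_mulVec, dotProduct_comm]

theorem s_dot' (A : SL3 K) (v k : Fin 3 → K) : sk A k ⬝ᵥ sv A v = k ⬝ᵥ v := by
  rw [dotProduct_comm, s_dot, dotProduct_comm]

/-- the cross product of two points is transformed as a line -/
theorem sk_cross (A : SL3 K) (w v : Fin 3 → K) : sk A (w ⨯₃ v) = sv A w ⨯₃ sv A v := by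
  unfold sk sv
  rw [Matrix.SpecialLinearGroup.coe_inv, cross_apply', cross_apply', Matrix.adjugate_fin_three]
  ext i
  fin_cases i <;> simp [Matrix.vecMul, Matrix.mulVec, dotProduct, Fin.sum_univ_three] <;> ring

/-- the linear equivalence on points -/
def svE (A : SL3 K) : (Fin 3 → K) ≃ₗ[K] (Fin 3 → K) where
  toFun := sv A
  invFun := sv A⁻¹
  map_add' := sv_add A
  map_smul' := sv_smul A
  left_inv := sv_inv_sv A
  right_inv := sv_sv_inv A

/-- the linear equivalence on lines -/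
def skE (A : SL3 K) : (Fin 3 → K) ≃ₗ[K] (Fin 3 → K) where
  toFun := sk A
  invFun := sk A⁻¹
  map_add' := sk_add A
  map_smul' := sk_smul A
  left_inv := sk_inv_sk A
  right_inv := sk_sk_inv A

theorem svE_apply (A : SL3 K) (v : Fin 3 → K) : svE A v = sv A v := rfl
theorem skE_apply (A : SL3 K) (v : Fin 3 → K) : skE A v = sk A v := rfl

theorem sv_eq_zero (A : SL3 K) {v : Fin 3 → K} : sv A v = 0 ↔ v = 0 := (svE A).map_eq_zero_iff
theorem sk_eq_zero (A : SL3 K) {v : Fin 3 → K} : sk A v = 0 ↔ v = 0 := (skE A).map_eq_zero_iff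

theorem s_flag (A : SL3 K) {v k : Fin 3 → K} : IsFlag (sv A v) (sk A k) ↔ IsFlag v k := by
  unfold IsFlag
  rw [s_dot, Ne, Ne, sv_eq_zero, sk_eq_zero]

theorem s_cross_zero (A : SL3 K) {v w : Fin 3 → K} : sv A v ⨯₃ sv A w = 0 ↔ v ⨯₃ w = 0 := by
  rw [← sk_cross, sk_eq_zero]

/-- elements of `SL3` are determined by the action on points -/
theorem sl_ext {A B : SL3 K} (h : ∀ v, sv A v = sv B v) : A = B := by
  apply Subtype.ext
  ext i j
  have := congrFun (h (Pi.single j 1)) i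
  simpa [sv] using this

/-- the elation `v ↦ v + (m v) u` -/
def elM (u m : Fin 3 → K) (h : m ⬝ᵥ u = 0) : SL3 K :=
  ⟨1 + Matrix.vecMulVec u m, by
    rw [Matrix.det_fin_three]
    rw [dot3] at h
    simp [Matrix.vecMulVec_apply]
    linear_combination h⟩

theorem sv_elM (u m : Fin 3 → K) (h : m ⬝ᵥ u = 0) (v : Fin 3 → K) :
    sv (elM u m h) v = v + (m ⬝ᵥ v) • u := by
  unfold sv elM
  ext i
  fin_cases i <;>
    simp [Matrix.vecMulVec_apply, Matrix.mulVec, dotProduct, Fin.sum_univ_three, Matrix.one_apply] <;>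
    ring

theorem elM_mul_same {u m m' : Fin 3 → K} (h : m ⬝ᵥ u = 0) (h' : m' ⬝ᵥ u = 0)
    (h2 : (m + m') ⬝ᵥ u = 0) : elM u m h * elM u m' h' = elM u (m + m') h2 := by
  apply sl_ext
  intro v
  rw [sv_mul, sv_elM, sv_elM, sv_elM, dotProduct_add, dotProduct_smul, h, add_dotProduct]
  module

theorem elM_mul_same' {u u' m : Fin 3 → K} (h : m ⬝ᵥ u = 0) (h' : m ⬝ᵥ u' = 0)
    (h2 : m ⬝ᵥ (u + u') = 0) : elM u m h * elM u' m h' = elM (u + u') m h2 := by
  apply sl_ext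
  intro v
  rw [sv_mul, sv_elM, sv_elM, sv_elM, dotProduct_add, dotProduct_smul, h']
  module

theorem elM_neg {u m : Fin 3 → K} (h : m ⬝ᵥ u = 0) (h' : (-m) ⬝ᵥ u = 0) :
    (elM u m h)⁻¹ = elM u (-m) h' := by
  rw [inv_eq_iff_mul_eq_one, elM_mul_same h h' (by rw [add_neg_cancel, zero_dotProduct])]
  apply sl_ext
  intro v
  rw [sv_elM, sv_one, add_neg_cancel, zero_dotProduct, zero_smul, add_zero]

theorem sk_elM (u m : Fin 3 → K) (h : m ⬝ᵥ u = 0) (k : Fin 3 → K) :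
    sk (elM u m h) k = k - (u ⬝ᵥ k) • m := by
  have h' : (-m) ⬝ᵥ u = 0 := by rw [neg_dotProduct, h, neg_zero]
  unfold sk
  rw [elM_neg h h']
  ext i
  unfold elM
  fin_cases i <;>
    simp [Matrix.vecMulVec_apply, Matrix.vecMul, dotProduct, Fin.sum_univ_three, Matrix.one_apply] <;>
    ring

/-- conjugation of elations -/
theorem elM_conj (A : SL3 K) (u m : Fin 3 → K) (h : m ⬝ᵥ u = 0) :
    A * elM u m h * A⁻¹ = elM (sv A u) (sk A m) (by rw [s_dot']; exact h) := by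
  apply sl_ext
  intro v
  rw [sv_mul, sv_mul, sv_elM, sv_elM, sv_add, sv_smul, sv_sv_inv]
  congr 2
  have := s_dot' A (sv A⁻¹ v) m
  rw [sv_sv_inv] at this
  exact this.symm

theorem elM_scale {u m : Fin 3 → K} (h : m ⬝ᵥ u = 0) {c : K} (hc : c ≠ 0)
    (h' : (c⁻¹ • m) ⬝ᵥ (c • u) = 0) : elM (c • u) (c⁻¹ • m) h' = elM u m h := by
  apply sl_ext
  intro v
  rw [sv_elM, sv_elM, smul_dotProduct, smul_smul, smul_eq_mul]
  congr 2
  field_simp

/-- elementary matrices are elations -/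
theorem transvection_eq {i j : Fin 3} (hij : i ≠ j) (t : K) :
    Matrix.SpecialLinearGroup.transvection hij t =
      elM (Pi.single i t) (Pi.single j 1) (by simp [hij]) := by
  apply sl_ext
  intro v
  rw [sv_elM]
  unfold sv
  rw [Matrix.SpecialLinearGroup.transvection_coe]
  rw [Matrix.add_mulVec, Matrix.one_mulVec]
  congr 1
  ext l
  rw [Matrix.single_mulVec]
  simp [Pi.single_apply, Function.update_apply, mul_comm]

end act

section
variable {K : Type*} [Field K] {Pt Ln : Type*} {I : Pt → Ln → Prop}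

/-- `g` is an automorphism inducing `A` on the subhexagon -/
structure Act (S : Sub K I) (g : Equiv.Perm Pt × Equiv.Perm Ln) (A : SL3 K) : Prop where
  aut : IsAut I g
  act : ∀ v k, IsFlag v k → g.1 (S.pt v k) = S.pt (sv A v) (sk A k)

variable {S : Sub K I} {g h : Equiv.Perm Pt × Equiv.Perm Ln} {A B : SL3 K}

theorem Act.ind (hg : Act S g A) : Ind S g (svE A) (skE A) where
  aut := hg.aut
  dual := s_dot A
  act := hg.act

theorem act_one (S : Sub K I) : Act S 1 (1 : SL3 K) where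
  aut _ _ := Iff.rfl
  act v k _ := by
    rw [sv_one, sk_one]
    rfl

theorem Act.mul (hg : Act S g A) (hh : Act S h B) : Act S (g * h) (A * B) where
  aut := isAut_mul hg.aut hh.aut
  act v k hf := by
    change g.1 (h.1 (S.pt v k)) = _
    rw [hh.act v k hf, hg.act _ _ ((s_flag B).2 hf), sv_mul, sk_mul]

theorem Act.inv (hg : Act S g A) : Act S g⁻¹ A⁻¹ where
  aut := isAut_inv hg.aut
  act v k hf := by
    have h1 : IsFlag (sv A⁻¹ v) (sk A⁻¹ k) := (s_flag A⁻¹).2 hf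
    have h2 := hg.act _ _ h1
    rw [sv_sv_inv, sk_sk_inv] at h2
    rw [← h2]
    exact g.1.symm_apply_apply _

/-- the group of pairs (automorphism, induced element of `SL3`) -/
def autG (S : Sub K I) : Subgroup ((Equiv.Perm Pt × Equiv.Perm Ln) × SL3 K) where
  carrier := {z | Act S z.1 z.2}
  mul_mem' := fun ha hb => Act.mul ha hb
  one_mem' := act_one S
  inv_mem' := fun ha => Act.inv ha

theorem mem_autG {z : (Equiv.Perm Pt × Equiv.Perm Ln) × SL3 K} : z ∈ autG S ↔ Act S z.1 z.2 :=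
  Iff.rfl

theorem Act.over (hg : Act S g A) {x : Pt} {v k : Fin 3 → K} (h : Over S x v k) :
    Over S (g.1 x) (sv A v) (sk A k) := hg.ind.over h

theorem Act.out (hg : Act S g A) {x : Pt} (hx : Out S x) : Out S (g.1 x) := hg.ind.out hx

theorem Act.bline (hg : Act S g A) {M : Ln} (hM : BLine S M) : BLine S (g.2 M) := hg.ind.bline hM

/-- representations are transformed -/
theorem Act.rep (hg : Act S g A) {x : Pt} {v w ψ : Fin 3 → K} (h : Rep S x v w ψ) :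
    Rep S (g.1 x) (sv A v) (sv A w) (sk A ψ) := by
  obtain ⟨h1, h2, h3, h4⟩ := h
  refine ⟨by rw [s_dot']; exact h1, by rw [s_dot']; exact h2, ?_, ?_⟩
  · rw [← sk_cross]
    exact hg.over h3
  · intro r m hf ho
    have hf' : IsFlag (sv A⁻¹ r) (sk A⁻¹ m) := (s_flag A⁻¹).2 hf
    have e1 : r = sv A (sv A⁻¹ r) := (sv_sv_inv A r).symm
    have e2 : m = sk A (sk A⁻¹ m) := (sk_sk_inv A m).symm
    have ho' : Opp v (w ⨯₃ v) (sv A⁻¹ r) (sk A⁻¹ m) := by
      obtain ⟨o1, o2⟩ := ho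
      rw [e2, s_dot] at o1
      rw [e1, ← sk_cross, s_dot] at o2
      exact ⟨o1, o2⟩
    have h5 := h4 _ _ hf' ho'
    have h6 : Near I (g.1 x) (S.pt r m) ↔ Near I x (S.pt (sv A⁻¹ r) (sk A⁻¹ m)) := by
      rw [← aut_near hg.aut (x := x), hg.act _ _ hf', ← e1, ← e2]
    rw [h6, h5]
    have d1 : (sv A w ⨯₃ sv A v) ⬝ᵥ r = (w ⨯₃ v) ⬝ᵥ sv A⁻¹ r := by
      rw [← sk_cross, ← s_dot' A (sv A⁻¹ r), sv_sv_inv]
    have d2 : m ⬝ᵥ sv A w = sk A⁻¹ m ⬝ᵥ w := by
      rw [← s_dot' A w (sk A⁻¹ m), sk_sk_inv]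
    have d3 : m ⬝ᵥ sv A v = sk A⁻¹ m ⬝ᵥ v := by
      rw [← s_dot' A v (sk A⁻¹ m), sk_sk_inv]
    have d4 : sk A ψ ⬝ᵥ r = ψ ⬝ᵥ sv A⁻¹ r := by
      rw [← s_dot' A (sv A⁻¹ r), sv_sv_inv]
    rw [d1, d2, d3, d4]

/-- standard coordinates are transformed -/
theorem Act.std (hg : Act S g A) {M : Ln} {w ψ : Fin 3 → K} (h : Std S M w ψ) :
    Std S (g.2 M) (sv A w) (sk A ψ) := by
  refine ⟨by rw [s_dot']; exact h.1, fun v hv hψ => ?_⟩
  have hv' : sv A⁻¹ v ≠ 0 := by rw [Ne, sv_eq_zero]; exact hv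
  have hψ' : ψ ⬝ᵥ sv A⁻¹ v = 0 := by
    rw [← s_dot' A, sv_sv_inv]
    exact hψ
  obtain ⟨x, hx, ho, hn⟩ := h.2 _ hv' hψ'
  have hr : Rep S x (sv A⁻¹ v) w ψ := ⟨h.1, hψ', ho, hn⟩
  have hr' := hg.rep hr
  rw [sv_sv_inv] at hr'
  exact ⟨g.1 x, (hg.aut _ _).2 hx, hr'.2.2.1, hr'.2.2.2⟩

/-- elations lift -/
theorem exists_act_elM (hel : ∀ u m : Fin 3 → K, u ⬝ᵥ m = 0 →
      ∃ g : Equiv.Perm Pt × Equiv.Perm Ln, IsAut I g ∧
      ∀ v k, IsFlag v k → g.1 (S.pt v k) = S.pt (v + (m ⬝ᵥ v) • u) (k - (u ⬝ᵥ k) • m))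
    (u m : Fin 3 → K) (h : m ⬝ᵥ u = 0) : ∃ g, Act S g (elM u m h) := by
  obtain ⟨g, h1, h2⟩ := hel u m (by rw [dotProduct_comm]; exact h)
  refine ⟨g, h1, fun v k hf => ?_⟩
  rw [h2 v k hf, sv_elM, sk_elM]

end

end Pool.Agent.Lib.MP_6b0fe3_coR
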