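import Pool.Agent.Lib.MP_6b0fe3_coR.GrpTb

/-! MP_6b0fe3_co, L3: SL3(K) is generated by the transvections -/

namespace Pool.Agent.Lib.MP_6b0fe3_coR

open Matrix

section
variable {K : Type*} [Field K]

/-- the subgroup generated by the transvections -/
def trC (K : Type*) [Field K] : Subgroup (SpecialLinearGroup (Fin 3) K) :=
  Subgroup.closure {x | ∃ i j : Fin 3, ∃ hij : i ≠ j, ∃ t : K,
    x = SpecialLinearGroup.transvection hij t}

theorem mem_trC {i j : Fin 3} (hij : i ≠ j) (t : K) :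
    SpecialLinearGroup.transvection hij t ∈ trC K := Subgroup.subset_closure ⟨i, j, hij, t, rfl⟩

theorem trC_w (i : Fin 3) {a : K} (ha : a ≠ 0) :
    ∃ A ∈ trC K, Mono A (Equiv.swap i (i + 1)) (wC i a) :=
  ⟨_, Subgroup.mul_mem _ (Subgroup.mul_mem _ (mem_trC _ _) (mem_trC _ _)) (mem_trC _ _),
    mono_w i ha⟩

theorem trC_h (i : Fin 3) {a : K} (ha : a ≠ 0) : ∃ A ∈ trC K, Mono A 1 (dC i a) := by
  obtain ⟨A, hA, hA'⟩ := trC_w i ha
  obtain ⟨B, hB, hB'⟩ := trC_w i (a := (-1 : K)) (neg_ne_zero.2 one_ne_zero)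
  refine ⟨A * B, Subgroup.mul_mem _ hA hB, ?_⟩
  have h1 := hA'.mul hB'
  have e1 : Equiv.swap i (i + 1) * Equiv.swap i (i + 1) = 1 := Equiv.swap_mul_self _ _
  have e2 : (fun j => wC i a (Equiv.swap i (i + 1) j) * wC i (-1) j) = dC i a := by
    ext j
    fin_cases i <;> fin_cases j <;> simp [wC, dC, Equiv.swap_apply_def]
  rw [e1, e2] at h1
  exact h1

theorem trC_diag {A : SpecialLinearGroup (Fin 3) K} {d : Fin 3 → K} (hA : Mono A 1 d) :
    A ∈ trC K := by
  have h0 := hA.ne_zero 0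
  have h1 := hA.ne_zero 1
  have hdet : d 0 * d 1 * d 2 = 1 := by
    have h2 := A.2
    rw [Matrix.det_fin_three] at h2
    have e : ∀ i j, A.1 i j = if i = j then d j else 0 := hA
    rw [e, e, e, e, e, e, e, e, e] at h2
    simp at h2
    exact h2
  obtain ⟨B, hB, hB'⟩ := trC_h 0 h0
  obtain ⟨C, hC, hC'⟩ := trC_h 1 (mul_ne_zero h0 h1)
  have h4 := hB'.mul hC'
  rw [mul_one] at h4
  have h5 : A = B * C := by
    refine hA.ext ?_
    have e : d = (fun j => dC 0 (d 0) ((1 : Equiv.Perm (Fin 3)) j) * dC 1 (d 0 * d 1) j) := by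
      ext j
      fin_cases j
      · simp [dC]
      · simp [dC]
        field_simp
      · simp [dC]
        rw [← _root_.mul_inv_rev]
        rw [mul_comm (d 0)] at hdet ⊢
        exact (inv_eq_of_mul_eq_one_right hdet).symm
    rw [e]
    exact h4
  rw [h5]
  exact Subgroup.mul_mem _ hB hC

theorem trC_list (L : List (TransvectionStruct (Fin 3) K)) :
    ∃ A ∈ trC K, A.1 = (L.map TransvectionStruct.toMatrix).prod := by
  induction L with
  | nil => exact ⟨1, Subgroup.one_mem _, by simp [slT_one]⟩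
  | cons t L ih =>
    obtain ⟨A, hA, hA'⟩ := ih
    refine ⟨SpecialLinearGroup.transvection t.hij t.c * A,
      Subgroup.mul_mem _ (mem_trC _ _) hA, ?_⟩
    rw [slT_mul, hA', List.map_cons, List.prod_cons]
    rfl

/-- **SL3(K) is generated by the transvections** -/
theorem sl3_gen : trC K = ⊤ := by
  rw [eq_top_iff]
  intro M _
  obtain ⟨L, L', D, h⟩ := Matrix.Pivot.exists_list_transvec_mul_diagonal_mul_list_transvec M.1
  obtain ⟨A, hA, hA'⟩ := trC_list L
  obtain ⟨B, hB, hB'⟩ := trC_list L'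
  have h1 : (A⁻¹ * M * B⁻¹).1 = Matrix.diagonal D := by
    have e1 : (A⁻¹).1 * A.1 = 1 := by rw [← slT_mul, inv_mul_cancel, slT_one]
    have e2 : B.1 * (B⁻¹).1 = 1 := slT_inv B
    rw [slT_mul, slT_mul, h, ← hA', ← hB']
    calc (A⁻¹).1 * (A.1 * Matrix.diagonal D * B.1) * (B⁻¹).1
        = ((A⁻¹).1 * A.1) * Matrix.diagonal D * (B.1 * (B⁻¹).1) := by
          simp only [Matrix.mul_assoc]
      _ = _ := by rw [e1, e2, Matrix.one_mul, Matrix.mul_one]
  have h2 : Mono (A⁻¹ * M * B⁻¹) 1 D := by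
    intro i j
    rw [h1, Matrix.diagonal_apply, Equiv.Perm.one_apply]
    by_cases hij : i = j
    · rw [if_pos hij, if_pos hij, hij]
    · rw [if_neg hij, if_neg hij]
  have h3 := trC_diag h2
  have h4 : M = A * (A⁻¹ * M * B⁻¹) * B := by group
  rw [h4]
  exact Subgroup.mul_mem _ (Subgroup.mul_mem _ hA h3) hB

end

end Pool.Agent.Lib.MP_6b0fe3_coR
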