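import Pool.Agent.Lib.MP_6b0fe3_coR.GrpU

/-! MP_6b0fe3_co, L3: a central extension of SL3(q) with exact root elements is trivial, III -/

namespace Pool.Agent.Lib.MP_6b0fe3_coR

open Matrix

section
variable {K : Type*} [Field K]

/-- the nonzero entries are at `(i, i + k)` -/
def Sh (A : SpecialLinearGroup (Fin 3) K) (k : Fin 3) : Prop := ∀ i j, A.1 i j ≠ 0 → j = i + k

theorem Sh.mul {A B : SpecialLinearGroup (Fin 3) K} {k l : Fin 3} (hk : Sh A k) (hl : Sh B l) :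
    Sh (A * B) (k + l) := by
  intro i j h
  rw [slT_mul, Matrix.mul_apply] at h
  obtain ⟨n, -, hn⟩ := Finset.exists_ne_zero_of_sum_ne_zero h
  have h1 := hk i n (left_ne_zero_of_mul hn)
  have h2 := hl n j (right_ne_zero_of_mul hn)
  rw [h2, h1, add_assoc]

theorem Sh.inv {A : SpecialLinearGroup (Fin 3) K} {k : Fin 3} (hk : Sh A k) : Sh A⁻¹ (-k) := by
  obtain ⟨l, hl⟩ := (cycJ K).inv_mem (x := A) ⟨k, hk⟩
  have h1 : Sh (A * A⁻¹) (k + l) := hk.mul hl
  rw [mul_inv_cancel] at h1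
  have h2 := h1 0 0 (by rw [slT_one]; simp)
  have h3 : l = -k := by
    rw [zero_add] at h2
    exact eq_neg_of_add_eq_zero_right h2.symm
  rw [← h3]
  exact hl

theorem Sh.pow {A : SpecialLinearGroup (Fin 3) K} {k : Fin 3} (hk : Sh A k) (m : ℕ) :
    Sh (A ^ m) (m • k) := by
  induction m with
  | zero =>
    rw [pow_zero, zero_smul]
    intro i j h
    rw [slT_one, Matrix.one_apply] at h
    rw [add_zero]
    by_contra hne
    exact h (if_neg fun h2 => hne h2.symm)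
  | succ m ih =>
    rw [pow_succ, succ_nsmul]
    exact ih.mul hk

end

namespace Lifts
variable {K : Type*} [Field K] {R : Type*} [Group R]
  {π : R →* SpecialLinearGroup (Fin 3) K} {c : Fin 3 → Fin 3 → K → R}
variable (L : Lifts π c)

/-- the exact torus -/
def torus (L : Lifts π c) : Subgroup R where
  carrier := {x | ∃ a b : Kˣ, x = hR c 0 a * hR c 1 b}
  mul_mem' := by
    rintro x y ⟨a, b, rfl⟩ ⟨a', b', rfl⟩
    refine ⟨a * a', b * b', ?_⟩
    rw [L.hR_mul, L.hR_mul]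
    have := L.hR_comm 1 0 b a'
    calc hR c 0 a * hR c 1 b * (hR c 0 a' * hR c 1 b')
        = hR c 0 a * (hR c 1 b * hR c 0 a') * hR c 1 b' := by group
      _ = _ := by rw [this]; group
  one_mem' := ⟨1, 1, by rw [L.hR_one, L.hR_one, one_mul]⟩
  inv_mem' := by
    rintro x ⟨a, b, rfl⟩
    refine ⟨a⁻¹, b⁻¹, ?_⟩
    rw [L.hR_inv, L.hR_inv, _root_.mul_inv_rev, ← L.hR_inv 0, ← L.hR_inv 1, L.hR_comm]

include L

theorem mem_torus {x : R} : x ∈ L.torus ↔ ∃ a b : Kˣ, x = hR c 0 a * hR c 1 b := Iff.rfl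

omit L in
/-- a lift of the 3-cycle -/
def nu (c : Fin 3 → Fin 3 → K → R) : R := wR c 0 1 * wR c 1 1

theorem nu_mono : ∃ b : Fin 3 → K, Mono (π (nu c)) (Equiv.swap 0 1 * Equiv.swap 1 2) b := by
  have h := (L.wR_mono 0 (a := (1 : K)) one_ne_zero).mul (L.wR_mono 1 (a := (1 : K)) one_ne_zero)
  rw [← map_mul] at h
  exact ⟨_, h⟩

theorem nu_torus [Fintype K] (hq : 3 < Fintype.card K) (hk : Nat.card π.ker ∣ 3) {x : R}
    (hx : x ∈ L.torus) : nu c * x * (nu c)⁻¹ ∈ L.torus := by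
  obtain ⟨a, b, rfl⟩ := hx
  obtain ⟨d, hn⟩ := L.nu_mono
  have s0 : (Equiv.symm (Equiv.swap 0 1 * Equiv.swap 1 2 : Equiv.Perm (Fin 3))) 0 = 2 := by decide
  have s1 : (Equiv.symm (Equiv.swap 0 1 * Equiv.swap 1 2 : Equiv.Perm (Fin 3))) 1 = 0 := by decide
  have s2 : (Equiv.symm (Equiv.swap 0 1 * Equiv.swap 1 2 : Equiv.Perm (Fin 3))) 2 = 1 := by decide
  have c0 : nu c * hR c 0 a * (nu c)⁻¹ = hR c 1 a := by
    refine L.conj_hR hn 0 a _ 1 2 (by decide) (hR_mem c 1 _) (Or.inl ⟨by decide, by decide⟩) ?_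
    have := L.hR_mono 1 a
    convert this using 1
    ext l
    fin_cases l <;> simp [dC, s0, s1, s2]
  have c1 : nu c * hR c 1 b * (nu c)⁻¹ = hR c 2 b := by
    refine L.conj_hR hn 1 b _ 2 0 (by decide) (hR_mem c 2 _) (Or.inl ⟨by decide, by decide⟩) ?_
    have := L.hR_mono 2 b
    convert this using 1
    ext l
    fin_cases l <;> simp [dC, s0, s1, s2]
  have h1 : nu c * (hR c 0 a * hR c 1 b) * (nu c)⁻¹ =
      (nu c * hR c 0 a * (nu c)⁻¹) * (nu c * hR c 1 b * (nu c)⁻¹) := by group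
  rw [h1, c0, c1]
  have h2 := L.chi_eq_one hq hk b
  have h3 : hR c 2 b = (hR c 0 b * hR c 1 b)⁻¹ := by
    rw [eq_inv_iff_mul_eq_one, ← mul_assoc]
    exact h2
  rw [h3]
  refine L.torus.mul_mem ⟨1, a, ?_⟩ (L.torus.inv_mem ⟨b, b, rfl⟩)
  rw [L.hR_one, one_mul]

theorem nu_pow_torus [Fintype K] (hq : 3 < Fintype.card K) (hk : Nat.card π.ker ∣ 3) (m : ℕ)
    {x : R} (hx : x ∈ L.torus) : nu c ^ m * x * (nu c ^ m)⁻¹ ∈ L.torus := by
  induction m with
  | zero => simpa using hx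
  | succ m ih =>
    have h1 := L.nu_torus hq hk ih
    have h2 : nu c * (nu c ^ m * x * (nu c ^ m)⁻¹) * (nu c)⁻¹ =
        nu c ^ (m + 1) * x * (nu c ^ (m + 1))⁻¹ := by
      rw [pow_succ']
      group
    rwa [h2] at h1

/-- decomposition of the elements of `cycJ` -/
theorem decomp {A : SpecialLinearGroup (Fin 3) K} (hA : A ∈ cycJ K) :
    ∃ (t : R) (m : ℕ), t ∈ L.torus ∧ A = π (t * nu c ^ m) := by
  obtain ⟨k, hk⟩ := hA
  obtain ⟨d, hn⟩ := L.nu_mono
  have hν : Sh (π (nu c)) 2 := by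
    intro i j h
    rw [hn] at h
    have h1 : i = (Equiv.swap 0 1 * Equiv.swap 1 2 : Equiv.Perm (Fin 3)) j := by
      by_contra hne
      exact h (if_neg hne)
    rw [h1]
    fin_cases j <;> decide
  obtain ⟨m, hm⟩ : ∃ m : ℕ, k + -(m • (2 : Fin 3)) = 0 := by
    fin_cases k
    · exact ⟨0, by decide⟩
    · exact ⟨2, by decide⟩
    · exact ⟨1, by decide⟩
  set B : SpecialLinearGroup (Fin 3) K := A * (π (nu c) ^ m)⁻¹ with hB
  have hsh : Sh B 0 := by
    rw [← hm]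
    exact Sh.mul hk (hν.pow m).inv
  have hmono : Mono B 1 (fun j => B.1 j j) := by
    intro i j
    by_cases h : i = j
    · rw [h, Equiv.Perm.one_apply, if_pos rfl]
    · rw [Equiv.Perm.one_apply, if_neg h]
      by_contra h2
      have := hsh i j h2
      rw [add_zero] at this
      exact h this.symm
  have h0 := hmono.ne_zero 0
  have h1 := hmono.ne_zero 1
  have hdet : B.1 0 0 * B.1 1 1 * B.1 2 2 = 1 := by
    have h2 := B.2
    rw [Matrix.det_fin_three] at h2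
    have z1 : B.1 0 1 = 0 := by rw [hmono]; simp
    have z2 : B.1 0 2 = 0 := by rw [hmono]; simp
    have z3 : B.1 1 2 = 0 := by rw [hmono]; simp
    rw [z1, z2, z3] at h2
    linear_combination h2
  refine ⟨hR c 0 (Units.mk0 _ h0) * hR c 1 (Units.mk0 _ (mul_ne_zero h0 h1)), m,
    ⟨_, _, rfl⟩, ?_⟩
  have h3 : B = π (hR c 0 (Units.mk0 _ h0) * hR c 1 (Units.mk0 _ (mul_ne_zero h0 h1))) := by
    rw [map_mul]
    have h4 := (L.hR_mono 0 (Units.mk0 _ h0)).mul (L.hR_mono 1 (Units.mk0 _ (mul_ne_zero h0 h1)))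
    rw [mul_one] at h4
    refine hmono.ext ?_
    have e : (fun j => B.1 j j) = (fun j => dC 0 ((Units.mk0 _ h0 : Kˣ) : K)
        ((1 : Equiv.Perm (Fin 3)) j) * dC 1 ((Units.mk0 _ (mul_ne_zero h0 h1) : Kˣ) : K) j) := by
      ext j
      fin_cases j
      · simp [dC]
      · simp [dC]
        field_simp
      · simp [dC]
        rw [← _root_.mul_inv_rev]
        exact (inv_eq_of_mul_eq_one_right hdet).symm
    rw [e]
    exact h4
  rw [map_mul, map_pow, ← h3, hB, inv_mul_cancel_right]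

/-- **the projection is injective** -/
theorem injective [Fintype K] [Finite R] (hq : Fintype.card K % 3 = 1)
    (hk : Nat.card π.ker ∣ 3) : Function.Injective π := by
  have hq1 : 1 < Fintype.card K := Fintype.one_lt_card
  have hq3 : 3 < Fintype.card K := by omega
  have hperf := L.perfect hq3
  rw [injective_iff_map_eq_one]
  intro g hg
  have hker : g ∈ π.ker := hg
  have hcen : ∀ x, x ∈ π.ker → ∀ r, r * x = x * r := fun x hx => central_of_perfect hperf _ hk hx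
  refine transfer_trivial hperf ((cycJ K).comap π) L.torus ?_ (hcen g hker) ?_ ?_ ?_
  · intro x hx y hy
    obtain ⟨t, m, ht, hxt⟩ := L.decomp (Subgroup.mem_comap.1 hx)
    obtain ⟨t', l, ht', hyt⟩ := L.decomp (Subgroup.mem_comap.1 hy)
    obtain ⟨κ, hκ, hxκ⟩ : ∃ κ ∈ π.ker, x = κ * (t * nu c ^ m) :=
      ⟨x * (t * nu c ^ m)⁻¹, by rw [MonoidHom.mem_ker, map_mul, map_inv, hxt, mul_inv_cancel],
        by rw [inv_mul_cancel_right]⟩
    obtain ⟨κ', hκ', hyκ⟩ : ∃ κ ∈ π.ker, y = κ * (t' * nu c ^ l) :=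
      ⟨y * (t' * nu c ^ l)⁻¹, by rw [MonoidHom.mem_ker, map_mul, map_inv, hyt, mul_inv_cancel],
        by rw [inv_mul_cancel_right]⟩
    have e1 : x * y * x⁻¹ * y⁻¹ = (t * nu c ^ m) * (t' * nu c ^ l) * (t * nu c ^ m)⁻¹ *
        (t' * nu c ^ l)⁻¹ := by
      rw [hxκ, hyκ]
      generalize t * nu c ^ m = X
      generalize t' * nu c ^ l = Y
      calc κ * X * (κ' * Y) * (κ * X)⁻¹ * (κ' * Y)⁻¹
          = κ * (X * κ') * Y * X⁻¹ * (κ⁻¹ * Y⁻¹) * κ'⁻¹ := by group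
        _ = κ * (κ' * X) * Y * X⁻¹ * (Y⁻¹ * κ⁻¹) * κ'⁻¹ := by
            rw [hcen κ' hκ' X, ← hcen κ⁻¹ (π.ker.inv_mem hκ) Y⁻¹]
        _ = κ * κ' * (X * Y * X⁻¹ * Y⁻¹) * κ⁻¹ * κ'⁻¹ := by group
        _ = (X * Y * X⁻¹ * Y⁻¹) * (κ * κ') * κ⁻¹ * κ'⁻¹ := by
            rw [← hcen (κ * κ') (π.ker.mul_mem hκ hκ')]
        _ = (X * Y * X⁻¹ * Y⁻¹) * (κ * κ' * κ⁻¹) * κ'⁻¹ := by group
        _ = X * Y * X⁻¹ * Y⁻¹ := by
            rw [hcen κ' hκ' κ]
            group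
    have e2 : (t * nu c ^ m) * (t' * nu c ^ l) * (t * nu c ^ m)⁻¹ * (t' * nu c ^ l)⁻¹ =
        t * (nu c ^ m * t' * (nu c ^ m)⁻¹) * (nu c ^ l * t * (nu c ^ l)⁻¹)⁻¹ * t'⁻¹ := by
      group
    rw [e1, e2]
    exact L.torus.mul_mem (L.torus.mul_mem (L.torus.mul_mem ht (L.nu_pow_torus hq3 hk m ht'))
      (L.torus.inv_mem (L.nu_pow_torus hq3 hk l ht))) (L.torus.inv_mem ht')
  · intro n hn
    obtain ⟨a, b, hab⟩ := hn
    have h1 : π (g ^ n) = 1 := by rw [map_pow, hg, one_pow]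
    rw [hab, map_mul] at h1
    have h2 := (L.hR_mono 0 a).mul (L.hR_mono 1 b)
    rw [h1] at h2
    have h3 := h2 0 0
    have h4 := h2 2 2
    rw [slT_one] at h3 h4
    simp [dC] at h3 h4
    have ha : a = 1 := Units.ext h3.symm
    have hb : b = 1 := h4
    rw [hab, ha, hb, L.hR_one, L.hR_one, one_mul]
  · have h4 : orderOf (⟨g, hker⟩ : π.ker) ∣ 3 := orderOf_dvd_natCard _ |>.trans hk
    have h5 := orderOf_dvd_iff_pow_eq_one.1 h4
    exact congrArg Subtype.val h5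
  · rw [Subgroup.index_comap]
    have hle : cycJ K ≤ π.range := by
      intro A hA
      obtain ⟨t, m, -, h⟩ := L.decomp hA
      exact ⟨_, h.symm⟩
    have h1 := Subgroup.relIndex_mul_index hle
    exact Nat.Coprime.coprime_dvd_right ⟨_, h1.symm⟩ (cycJ_index hq)

end Lifts

end Pool.Agent.Lib.MP_6b0fe3_coR
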