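import Pool.Agent.Lib.MP_6b0fe3_coR.GrpE
import Pool.Agent.Lib.MP_6b0fe3_coR.GrpG
import Pool.Agent.Lib.MP_6b0fe3_coR.GrpV

/-! MP_6b0fe3_co, L3: the group generated by the canonical lifts maps injectively to SL3(K) -/

namespace Pool.Agent.Lib.MP_6b0fe3_coR

open Matrix CountM

section basic
variable {K : Type*} [Field K] {Pt Ln : Type*} {I : Pt → Ln → Prop}

/-- the group generated by the canonical lifts of all elations -/
def canR (S : Sub K I) : Subgroup ((Equiv.Perm Pt × Equiv.Perm Ln) × SL3 K) :=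
  Subgroup.closure {z | ∃ u m, ∃ h : m ⬝ᵥ u = 0, IsFlag u m ∧ Can S z u m h}

theorem canR_le (S : Sub K I) : canR S ≤ autG S := by
  unfold canR
  rw [Subgroup.closure_le]
  rintro z ⟨u, m, h, -, hz⟩
  exact hz.mem

theorem Can.mem_canR {S : Sub K I} {z : (Equiv.Perm Pt × Equiv.Perm Ln) × SL3 K}
    {u m : Fin 3 → K} {h : m ⬝ᵥ u = 0} (hz : Can S z u m h) (hf : IsFlag u m) : z ∈ canR S :=
  Subgroup.subset_closure ⟨u, m, h, hf, hz⟩

/-- the projection of the group of canonical lifts to SL3(K) -/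
def canPi (S : Sub K I) : canR S →* SL3 K := (MonoidHom.snd _ _).comp (canR S).subtype

theorem canPi_apply (S : Sub K I) (r : canR S) : canPi S r = r.1.2 := rfl

theorem tv_flag {i j : Fin 3} (hij : i ≠ j) {t : K} (ht : t ≠ 0) :
    IsFlag (Pi.single i t : Fin 3 → K) (Pi.single j 1) := by
  refine ⟨?_, ?_, ?_⟩
  · intro h
    exact ht (by simpa using congrFun h i)
  · intro h
    exact one_ne_zero (α := K) (by simpa using congrFun h j)
  · simp [hij]

theorem tv_dot {i j : Fin 3} (hij : i ≠ j) (t : K) :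
    (Pi.single j 1 : Fin 3 → K) ⬝ᵥ Pi.single i t = 0 := by
  simp [hij]

/-- an element of `SL3` moving the standard flag to a given one -/
theorem exists_frame {u m : Fin 3 → K} (hf : IsFlag u m) :
    ∃ A : SL3 K, sv A (Pi.single 0 1) = u ∧ sk A (Pi.single 2 1) = m := by
  obtain ⟨b, hb⟩ := exists_w hf.1 (φ := -m) (by rw [dotProduct_neg, hf.2.2, neg_zero])
  obtain ⟨c0, hc0⟩ := uniqL_nondeg hf.2.1
  set c : Fin 3 → K := (m ⬝ᵥ c0)⁻¹ • c0 with hc
  have hmc : m ⬝ᵥ c = 1 := by
    rw [hc, dotProduct_smul, smul_eq_mul, inv_mul_cancel₀ hc0]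
  have hub : u ⨯₃ b = m := by
    rw [← cross_anticomm, hb, neg_neg]
  have hdet : (Matrix.of ![![u 0, b 0, c 0], ![u 1, b 1, c 1], ![u 2, b 2, c 2]] :
      Matrix (Fin 3) (Fin 3) K).det = 1 := by
    rw [← hub, CountM.dot3, cr0, cr1, cr2] at hmc
    rw [Matrix.det_fin_three]
    simp
    linear_combination hmc
  obtain ⟨A, hA⟩ : ∃ A : SL3 K, A.1 = Matrix.of ![![u 0, b 0, c 0], ![u 1, b 1, c 1],
      ![u 2, b 2, c 2]] := ⟨⟨_, hdet⟩, rfl⟩
  have e0 : sv A (Pi.single 0 1) = u := by
    unfold sv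
    rw [hA]
    ext i
    fin_cases i <;> simp
  have e1 : sv A (Pi.single 1 1) = b := by
    unfold sv
    rw [hA]
    ext i
    fin_cases i <;> simp
  refine ⟨A, e0, ?_⟩
  have e : (Pi.single 2 1 : Fin 3 → K) = Pi.single 0 1 ⨯₃ Pi.single 1 1 := by
    apply ext3 <;> simp [cr0, cr1, cr2]
  rw [e, sk_cross, e0, e1, hub]

theorem third_index (i j : Fin 3) : ∃ k : Fin 3, k ≠ i ∧ k ≠ j := by
  revert i j
  decide

theorem tv_base {k a b : Fin 3} (h1 : a ≠ b) (h2 : k ≠ a) (h3 : k ≠ b) (t : K) :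
    (Pi.single b 1 : Fin 3 → K) ⨯₃ (Pi.single k 1 ⨯₃ Pi.single a t) = 0 := by
  fin_cases k <;> fin_cases a <;> fin_cases b <;>
    first
    | exact absurd rfl h1
    | exact absurd rfl h2
    | exact absurd rfl h3
    | (apply ext3 <;> simp [cr0, cr1, cr2])

end basic

section main
variable {K : Type*} [Field K] [Fintype K] {Pt Ln : Type*} {I : Pt → Ln → Prop}
variable (H : Hex I (Fintype.card K)) (S : Sub K I)
variable (hcan : ∀ u m : Fin 3 → K, ∀ h : m ⬝ᵥ u = 0, IsFlag u m → ∃ z, Can S z u m h)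

open Classical in
/-- the canonical lifts of the transvections -/
noncomputable def cR (i j : Fin 3) (t : K) : canR S :=
  if h : i ≠ j ∧ t ≠ 0 then
    ⟨Classical.choose (hcan _ _ (tv_dot h.1 t) (tv_flag h.1 h.2)),
      (Classical.choose_spec (hcan _ _ (tv_dot h.1 t) (tv_flag h.1 h.2))).mem_canR
        (tv_flag h.1 h.2)⟩
  else 1

omit [Fintype K] in
theorem cR_can {i j : Fin 3} (hij : i ≠ j) {t : K} (ht : t ≠ 0) :
    Can S (cR S hcan i j t).1 (Pi.single i t) (Pi.single j 1) (tv_dot hij t) := by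
  unfold cR
  rw [dif_pos ⟨hij, ht⟩]
  exact Classical.choose_spec (hcan _ _ (tv_dot hij t) (tv_flag hij ht))

omit [Fintype K] in
theorem cR_zero (i j : Fin 3) : cR S hcan i j 0 = 1 := by
  unfold cR
  rw [dif_neg]
  rintro ⟨-, h⟩
  exact h rfl

omit [Fintype K] in
theorem cR_proj {i j : Fin 3} (hij : i ≠ j) (t : K) :
    canPi S (cR S hcan i j t) = SpecialLinearGroup.transvection hij t := by
  by_cases ht : t = 0
  · rw [ht, cR_zero, map_one, SpecialLinearGroup.transvection_coeff_zero]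
  · rw [canPi_apply, (cR_can S hcan hij ht).eq, transvection_eq]

omit [Fintype K] in
theorem transvection_inj {i j : Fin 3} (hij : i ≠ j) {t : K}
    (h : SpecialLinearGroup.transvection hij t = (1 : SL3 K)) : t = 0 := by
  have h1 : sv (SpecialLinearGroup.transvection hij t) (Pi.single j 1) = Pi.single j 1 := by
    rw [h, sv_one]
  rw [transvection_eq, sv_elM] at h1
  have h2 := congrFun h1 i
  simpa using h2

include H in
theorem cR_conj {i j k l : Fin 3} (hij : i ≠ j) (hkl : k ≠ l) (s t : K) (r : canR S)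
    (h : canPi S r * SpecialLinearGroup.transvection hij s =
      SpecialLinearGroup.transvection hkl t * canPi S r) :
    r * cR S hcan i j s = cR S hcan k l t * r := by
  by_cases hs : s = 0
  · rw [hs, SpecialLinearGroup.transvection_coeff_zero, mul_one] at h
    have h1 : SpecialLinearGroup.transvection hkl t = (1 : SL3 K) := mul_eq_right.1 h.symm
    rw [hs, transvection_inj hkl h1, cR_zero, cR_zero, mul_one, one_mul]
  · have ht : t ≠ 0 := by
      intro ht
      rw [ht, SpecialLinearGroup.transvection_coeff_zero, one_mul] at h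
      exact hs (transvection_inj hij (mul_eq_left.1 h))
    have hr : r.1 ∈ autG S := canR_le S r.2
    have h1 := (cR_can S hcan hij hs).conj hr
    have h2 := cR_can S hcan hkl ht
    have hf1 : IsFlag (sv r.1.2 (Pi.single i s)) (sk r.1.2 (Pi.single j 1)) :=
      (s_flag _).2 (tv_flag hij hs)
    have h3 : elM (sv r.1.2 (Pi.single i s)) (sk r.1.2 (Pi.single j 1))
        (by rw [s_dot']; exact tv_dot hij s) = elM (Pi.single k t) (Pi.single l 1) (tv_dot hkl t) := by
      rw [← elM_conj _ _ _ (tv_dot hij s), ← transvection_eq hij, ← transvection_eq hkl]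
      rw [mul_inv_eq_iff_eq_mul]
      exact h
    have h4 := Can.unique H S (h1.mono hf1 h3) h2 (tv_flag hkl ht)
    apply Subtype.ext
    change r.1 * (cR S hcan i j s).1 = (cR S hcan k l t).1 * r.1
    rw [← h4, inv_mul_cancel_right]

variable (hstd : ∀ M, BLine S M → ∃ w ψ, Std S M w ψ)
include H

theorem exists_bline_base (hstd : ∀ M, BLine S M → ∃ w ψ, Std S M w ψ) {w ψ : Fin 3 → K}
    (h : ψ ⬝ᵥ w = 1) : ∃ M, BLine S M ∧ Bas S M w ψ := by
  obtain ⟨v, r, hv, hr, hvr⟩ := exists_ker (ne_of_dot h).1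
  have hv0 : v ≠ 0 := by
    rintro rfl
    simp at hvr
  have hf : IsFlag v (w ⨯₃ v) := ⟨hv0, cross_w_ne h hv hv0, dot_cross_self w v⟩
  obtain ⟨t, x, ht, -, -, -⟩ := exists_over H S hf
  obtain ⟨M, x', hM, hb, -⟩ := exists_bline H S hstd ht h hv (cross_self _)
  exact ⟨M, hM, hb⟩

include hstd in
theorem cR_exact {i j : Fin 3} (hij : i ≠ j) {r : canR S}
    (hr : r ∈ Subgroup.closure {x | ∃ t, x = cR S hcan i j t ∨ x = cR S hcan j i t})
    (h : canPi S r = 1) : r = 1 := by
  -- the third index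
  obtain ⟨k, hki, hkj⟩ := third_index i j
  have hk : (Pi.single k 1 : Fin 3 → K) ⬝ᵥ Pi.single k 1 = 1 := by simp
  obtain ⟨M, hM, hb⟩ := exists_bline_base H S hstd hk
  have hfix : ∀ a b : Fin 3, a ≠ b → k ≠ a → k ≠ b → ∀ t, (cR S hcan a b t).1.1.2 M = M := by
    intro a b hab hka hkb t
    by_cases ht : t = 0
    · rw [ht, cR_zero]
      rfl
    · refine (cR_can S hcan hab ht).fix_bline H S hM hb (tv_flag hab ht) ?_ ?_
      · simp [hka.symm]
      · exact tv_base hab hka hkb t
  have hfixr : r.1.1.2 M = M := by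
    clear h
    induction hr using Subgroup.closure_induction with
    | mem x hx =>
      obtain ⟨t, rfl | rfl⟩ := hx
      · exact hfix i j hij hki hkj t
      · exact hfix j i hij.symm hkj hki t
    | one => rfl
    | mul x y _ _ hx hy =>
      change x.1.1.2 (y.1.1.2 M) = M
      rw [hy, hx]
    | inv x _ hx =>
      change x.1.1.2.symm M = M
      exact (Equiv.symm_apply_eq _).2 hx.symm
  -- a point of `M`
  obtain ⟨v, e, hv, he, hve⟩ := exists_ker (ne_of_dot hk).1
  have hv0 : v ≠ 0 := by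
    rintro rfl
    simp at hve
  obtain ⟨x, hx, ho⟩ := hb.2 v hv0 hv
  have hox := out_of_bline H S hM hx
  have hr1 : r.1.2 = 1 := h
  have ha : Act S r.1.1 r.1.2 := canR_le S r.2
  have ho' := ha.over ho
  rw [hr1, sv_one, sk_one] at ho'
  have hx' : I (r.1.1.1 x) M := by
    have := (ha.aut x M).2 hx
    rwa [hfixr] at this
  have h1 := eq_of_over H S hM hx' hx ho' ho
  rw [hr1] at ha
  have h2 := act_free H S ha hox h1
  apply Subtype.ext
  exact Prod.ext h2 hr1

theorem cR_gen : Subgroup.closure {x | ∃ i j t, i ≠ j ∧ x = cR S hcan i j t} = ⊤ := by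
  set R0 := Subgroup.closure {x | ∃ i j t, i ≠ j ∧ x = cR S hcan i j t} with hR0
  -- the projection of `R0` is everything
  have hproj : ∀ A : SL3 K, ∃ r ∈ R0, canPi S r = A := by
    have h1 : trC K ≤ R0.map (canPi S) := by
      unfold trC
      rw [Subgroup.closure_le]
      rintro x ⟨i, j, hij, t, rfl⟩
      exact ⟨cR S hcan i j t, Subgroup.subset_closure ⟨i, j, t, hij, rfl⟩, cR_proj S hcan hij t⟩
    intro A
    have h2 : A ∈ R0.map (canPi S) := h1 (by rw [sl3_gen]; trivial)
    obtain ⟨r, hr, hr'⟩ := h2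
    exact ⟨r, hr, hr'⟩
  -- every canonical lift is in `R0`
  have key : ∀ z, z ∈ canR S → ∃ r ∈ R0, r.1 = z := by
    intro z hz
    unfold canR at hz
    induction hz using Subgroup.closure_induction with
    | mem z hz =>
      obtain ⟨u, m, h, hf, hz⟩ := hz
      obtain ⟨A, hA1, hA2⟩ := exists_frame hf
      obtain ⟨r, hr, hrA⟩ := hproj A
      have h0 : (1 : K) ≠ 0 := one_ne_zero
      have h02 : (0 : Fin 3) ≠ 2 := by decide
      have hc := cR_can S hcan h02 h0
      have hrA' : r.1.2 = A := hrA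
      refine ⟨r * cR S hcan 0 2 1 * r⁻¹, R0.mul_mem (R0.mul_mem hr
        (Subgroup.subset_closure ⟨0, 2, 1, h02, rfl⟩)) (R0.inv_mem hr), ?_⟩
      have h1 := hc.conj (canR_le S r.2)
      have h2 : Can S (r.1 * (cR S hcan 0 2 1).1 * r.1⁻¹) u m h := by
        refine h1.mono ((s_flag _).2 (tv_flag h02 h0)) ?_
        congr 1
        · rw [hrA', hA1]
        · rw [hrA', hA2]
      exact Can.unique H S h2 hz hf
    | one => exact ⟨1, R0.one_mem, rfl⟩
    | mul x y _ _ hx hy =>
      obtain ⟨a, ha, rfl⟩ := hx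
      obtain ⟨b, hb, rfl⟩ := hy
      exact ⟨a * b, R0.mul_mem ha hb, rfl⟩
    | inv x _ hx =>
      obtain ⟨a, ha, rfl⟩ := hx
      exact ⟨a⁻¹, R0.inv_mem ha, rfl⟩
  rw [eq_top_iff]
  rintro z -
  obtain ⟨r, hr, hrz⟩ := key z.1 z.2
  have : r = z := Subtype.ext hrz
  rwa [this] at hr

include hstd hcan in
/-- **the group of the canonical lifts maps injectively to SL3(K)** -/
theorem canPi_injective (hker : Nat.card (kerG S) ∣ 3) (hq : Fintype.card K % 3 = 1) :
    Function.Injective (canPi S) := by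
  have hfin := finite_of_hex H
  have hP : Finite Pt := hfin.1
  have hL : Finite Ln := hfin.2
  have hSL : Finite (SL3 K) := inferInstance
  have hfinR : Finite (canR S) := inferInstance
  have hL : Lifts (canPi S) (cR S hcan) :=
    { proj := fun i j hij t => cR_proj S hcan hij t
      conj := fun i j k l hij hkl s t r h => cR_conj H S hcan hij hkl s t r h
      exact := fun i j hij r hr h => cR_exact H S hcan hstd hij hr h
      gen := cR_gen H S hcan }
  refine hL.injective hq ?_
  -- the kernel embeds into `kerG S`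
  have hmem : ∀ r : (canPi S).ker, r.1.1.1 ∈ kerG S := by
    intro r
    have h1 : Act S r.1.1.1 r.1.1.2 := canR_le S r.1.2
    have h2 : r.1.1.2 = 1 := r.2
    rw [h2] at h1
    exact h1
  let f : (canPi S).ker →* kerG S :=
    { toFun := fun r => ⟨r.1.1.1, hmem r⟩
      map_one' := rfl
      map_mul' := fun _ _ => rfl }
  have hf : Function.Injective f := by
    intro r r' h
    have h1 : r.1.1.1 = r'.1.1.1 := congrArg Subtype.val h
    have h2 : r.1.1.2 = 1 := r.2
    have h3 : r'.1.1.2 = 1 := r'.2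
    apply Subtype.ext
    apply Subtype.ext
    exact Prod.ext h1 (h2.trans h3.symm)
  exact (Subgroup.card_dvd_of_injective f hf).trans hker

end main

end Pool.Agent.Lib.MP_6b0fe3_coR
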