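import Pool.Agent.Lib.MP_6b0fe3_coR.GrpF

/-! MP_6b0fe3_co, L3: the rank one groups and transitivity -/

namespace Pool.Agent.Lib.MP_6b0fe3_coR

open Matrix CountM

section basic
variable {K : Type*} [Field K] {Pt Ln : Type*} {I : Pt → Ln → Prop}

/-- the group generated by the canonical lifts with flags in the base `(w, ψ)` -/
def fxG (S : Sub K I) (w ψ : Fin 3 → K) : Subgroup ((Equiv.Perm Pt × Equiv.Perm Ln) × SL3 K) :=
  Subgroup.closure {z | ∃ u m, ∃ h : m ⬝ᵥ u = 0, IsFlag u m ∧ Can S z u m h ∧ ψ ⬝ᵥ u = 0 ∧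
    m ⨯₃ (w ⨯₃ u) = 0}

theorem fxG_le (S : Sub K I) (w ψ : Fin 3 → K) : fxG S w ψ ≤ canR S := by
  unfold fxG
  rw [Subgroup.closure_le]
  rintro z ⟨u, m, h, hf, hz, -, -⟩
  exact hz.mem_canR hf

theorem fxG_vec {S : Sub K I} {w ψ : Fin 3 → K} (h : ψ ⬝ᵥ w = 1)
    {z : (Equiv.Perm Pt × Equiv.Perm Ln) × SL3 K} (hz : z ∈ fxG S w ψ) :
    sv z.2 w = w ∧ sk z.2 ψ = ψ := by
  unfold fxG at hz
  induction hz using Subgroup.closure_induction with
  | mem z hz =>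
    obtain ⟨u, m, hmu, hf, hz, h1, h2⟩ := hz
    obtain ⟨c, hc⟩ := exists_smul_of_cross (cross_w_ne h h1 hf.1) (cross_zero_symm h2)
    have hmw : m ⬝ᵥ w = 0 := by
      rw [hc, smul_dotProduct, uniqL_cross_self_left, smul_zero]
    constructor
    · rw [hz.eq, sv_elM, hmw, zero_smul, add_zero]
    · rw [hz.eq, sk_elM, dotProduct_comm, h1, zero_smul, sub_zero]
  | one => exact ⟨sv_one w, sk_one ψ⟩
  | mul x y _ _ hx hy =>
    constructor
    · change sv (x.2 * y.2) w = w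
      rw [sv_mul, hy.1, hx.1]
    · change sk (x.2 * y.2) ψ = ψ
      rw [sk_mul, hy.2, hx.2]
  | inv x _ hx =>
    constructor
    · change sv x.2⁻¹ w = w
      nth_rewrite 1 [← hx.1]
      exact sv_inv_sv _ _
    · change sk x.2⁻¹ ψ = ψ
      nth_rewrite 1 [← hx.2]
      exact sk_inv_sk _ _

end basic

section main
variable {K : Type*} [Field K] [Fintype K] {Pt Ln : Type*} {I : Pt → Ln → Prop}
variable (H : Hex I (Fintype.card K)) (S : Sub K I)
variable (hcan : ∀ u m : Fin 3 → K, ∀ h : m ⬝ᵥ u = 0, IsFlag u m → ∃ z, Can S z u m h)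

omit [Fintype K] in
include hcan in
theorem fxG_trans_aux {w ψ v v' : Fin 3 → K} (h : ψ ⬝ᵥ w = 1) (hv : ψ ⬝ᵥ v = 0)
    (hv' : ψ ⬝ᵥ v' = 0) (hvv : v ⨯₃ v' ≠ 0) : ∃ z ∈ fxG S w ψ, sv z.2 v = v' := by
  have hu0 : v' - v ≠ 0 := by
    intro h0
    rw [sub_eq_zero.1 h0, cross_self] at hvv
    exact hvv rfl
  have hψu : ψ ⬝ᵥ (v' - v) = 0 := by rw [dotProduct_sub, hv, hv', sub_zero]
  have hdet : (w ⨯₃ (v' - v)) ⬝ᵥ v ≠ 0 := by
    have e : (w ⨯₃ (v' - v)) ⬝ᵥ v = w ⬝ᵥ (v' ⨯₃ v) := by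
      simp only [cr0, cr1, cr2, CountM.dot3, Pi.sub_apply]
      ring
    rw [e]
    refine det_ne h hv' hv ?_
    intro h0
    exact hvv (cross_zero_symm h0)
  set m : Fin 3 → K := ((w ⨯₃ (v' - v)) ⬝ᵥ v)⁻¹ • (w ⨯₃ (v' - v)) with hm
  have hmu : m ⬝ᵥ (v' - v) = 0 := by
    rw [hm, smul_dotProduct, uniqL_cross_self_right, smul_zero]
  have hm0 : m ≠ 0 := smul_ne_zero (inv_ne_zero hdet) (cross_w_ne h hψu hu0)
  have hmv : m ⬝ᵥ v = 1 := by
    rw [hm, smul_dotProduct, smul_eq_mul, inv_mul_cancel₀ hdet]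
  have hf : IsFlag (v' - v) m := ⟨hu0, hm0, by rw [dotProduct_comm]; exact hmu⟩
  obtain ⟨z, hz⟩ := hcan _ _ hmu hf
  refine ⟨z, Subgroup.subset_closure ⟨_, _, hmu, hf, hz, hψu, ?_⟩, ?_⟩
  · rw [hm, smul_cross', cross_self, smul_zero]
  · rw [hz.eq, sv_elM, hmv, one_smul, add_sub_cancel]

omit [Fintype K] in
include hcan in
/-- the rank one group is transitive on the vectors of the base -/
theorem fxG_trans {w ψ v v' : Fin 3 → K} (h : ψ ⬝ᵥ w = 1) (hv : ψ ⬝ᵥ v = 0)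
    (hv' : ψ ⬝ᵥ v' = 0) (hv0 : v ≠ 0) (hv0' : v' ≠ 0) : ∃ z ∈ fxG S w ψ, sv z.2 v = v' := by
  by_cases hvv : v ⨯₃ v' = 0
  · obtain ⟨r, hr, hvr⟩ := exists_ker' (ne_of_dot h).1 hv0
    have hrv' : r ⨯₃ v' ≠ 0 := by
      obtain ⟨c, hc, hc'⟩ := (cross_eq_zero_iff hv0 hv0').1 hvv
      intro h0
      rw [hc', cross_smul'] at h0
      rcases smul_eq_zero.1 h0 with h1 | h1
      · exact hc h1
      · exact hvr (cross_zero_symm h1)
    obtain ⟨z, hz, hzv⟩ := fxG_trans_aux S hcan h hv hr hvr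
    obtain ⟨z', hz', hzv'⟩ := fxG_trans_aux S hcan h hr hv' hrv'
    refine ⟨z' * z, Subgroup.mul_mem _ hz' hz, ?_⟩
    change sv (z'.2 * z.2) v = v'
    rw [sv_mul, hzv, hzv']
  · exact fxG_trans_aux S hcan h hv hv' hvv

include H

theorem fxG_bline {M : Ln} {w ψ : Fin 3 → K} (hM : BLine S M) (hb : Bas S M w ψ)
    {z : (Equiv.Perm Pt × Equiv.Perm Ln) × SL3 K} (hz : z ∈ fxG S w ψ) : z.1.2 M = M := by
  unfold fxG at hz
  induction hz using Subgroup.closure_induction with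
  | mem z hz =>
    obtain ⟨u, m, hmu, hf, hz, h1, h2⟩ := hz
    exact hz.fix_bline H S hM hb hf h1 h2
  | one => rfl
  | mul x y _ _ hx hy =>
    change x.1.2 (y.1.2 M) = M
    rw [hy, hx]
  | inv x _ hx =>
    change x.1.2.symm M = M
    exact (Equiv.symm_apply_eq _).2 hx.symm

/-- the flag of an A-line is unique -/
theorem aline_flag {v k v' k' : Fin 3 → K} {t : Ln} (ht : ALine S v k t) (ht' : ALine S v' k' t) :
    v ⨯₃ v' = 0 ∧ k ⨯₃ k' = 0 := by
  obtain ⟨hf2, hc2⟩ := pts_card H ht.2.1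
  have h1 : 1 < Fintype.card K := Fintype.one_lt_card
  have hlt : 1 < {y | I y t ∧ y ≠ S.pt v k}.ncard := by omega
  obtain ⟨x, ⟨hx, hne⟩, hne'⟩ := Set.exists_ne_of_one_lt_ncard hlt (S.pt v' k')
  obtain ⟨h2, h3⟩ := out_of_aline H S ht hx hne
  obtain ⟨h4, h5⟩ := out_of_aline H S ht' hx hne'
  exact over_unique H S h2 h3 h5

omit H [Fintype K] in
theorem Act.aline {q : ℕ} (H : Hex I q) {S : Sub K I} {g : Equiv.Perm Pt × Equiv.Perm Ln}
    {A : SL3 K} (hg : Act S g A) {v k : Fin 3 → K} {t : Ln} (ht : ALine S v k t) :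
    ALine S (sv A v) (sk A k) (g.2 t) := hg.ind.aline H ht

theorem aline_uniq {x : Pt} (hx : Out S x) {v k v' k' : Fin 3 → K} {t t' : Ln}
    (ht : ALine S v k t) (ht' : ALine S v' k' t') (h : I x t) (h' : I x t') : t = t' :=
  nonB_eq H S hx h h' (aline_not_bline S ht) (aline_not_bline S ht')

include hcan in
/-- the group of canonical lifts is transitive on the A-lines -/
theorem canR_trans_aline (hstd : ∀ M, BLine S M → ∃ w ψ, Std S M w ψ) {v k v' k' : Fin 3 → K}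
    {t t' : Ln} (ht : ALine S v k t) (ht' : ALine S v' k' t') : ∃ r ∈ canR S, r.1.2 t = t' := by
  obtain ⟨hf2, hc2⟩ := pts_card H ht.2.1
  obtain ⟨hf2', hc2'⟩ := pts_card H ht'.2.1
  have h1 : 1 < Fintype.card K := Fintype.one_lt_card
  obtain ⟨x, hx, hne⟩ : {y | I y t ∧ y ≠ S.pt v k}.Nonempty := by
    apply (Set.ncard_pos hf2).1
    omega
  obtain ⟨x', hx', hne'⟩ : {y | I y t' ∧ y ≠ S.pt v' k'}.Nonempty := by
    apply (Set.ncard_pos hf2').1
    omega
  obtain ⟨hox, hov⟩ := out_of_aline H S ht hx hne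
  obtain ⟨hox', hov'⟩ := out_of_aline H S ht' hx' hne'
  have key := conn H S (P := fun y => ∀ s a b, ALine S a b s → I y s → ∃ r ∈ canR S, r.1.2 t = s)
    ?_ hox ?_ hox'
  · exact key t' v' k' ht' hx'
  · intro y z hy hz hyz hP s a b hs hzs
    by_cases hyz' : y = z
    · rw [hyz'] at hP
      exact hP s a b hs hzs
    obtain ⟨l, hyl, hzl⟩ := hyz
    by_cases hl : BLine S l
    · obtain ⟨a1, b1, hya⟩ := over_exists H S hy
      obtain ⟨sy, hsy, hysy⟩ := aline_exists H S hy hya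
      obtain ⟨r, hr, hrt⟩ := hP sy a1 b1 hsy hysy
      have hzo := (out_of_aline H S hs hzs (hz a b hs.1)).2
      obtain ⟨w, ψ, hstd⟩ := hstd l hl
      have hb1 := base_of_std H S hl hstd hyl hya
      have hb2 := base_of_std H S hl hstd hzl hzo
      obtain ⟨g, hg, hga⟩ := fxG_trans S hcan hstd.1 hb1.1 hb2.1 hya.1.1 hs.1.1
      have hgl := fxG_bline H S hl hstd.bas hg
      have hgact : Act S g.1 g.2 := canR_le S (fxG_le S w ψ hg)
      have h2 : g.1.1 y = z := by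
        have h3 := hgact.over hya
        rw [hga] at h3
        have h4 : I (g.1.1 y) l := by
          have := (hgact.aut y l).2 hyl
          rwa [hgl] at this
        exact eq_of_over H S hl h4 hzl h3 hzo
      have h5 := hgact.aline H hsy
      have h6 : I z (g.1.2 sy) := by
        have := (hgact.aut y sy).2 hysy
        rwa [h2] at this
      have h7 := aline_uniq H S hz h5 hs h6 hzs
      refine ⟨g * r, (canR S).mul_mem (fxG_le S w ψ hg) hr, ?_⟩
      change g.1.2 (r.1.2 t) = s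
      rw [hrt, h7]
    · obtain ⟨a1, b1, hl1, -⟩ := aline_of_not_bline H S hy hyl hl
      obtain ⟨r, hr, hrt⟩ := hP l a1 b1 hl1 hyl
      have h7 := aline_uniq H S hz hl1 hs hzl hzs
      exact ⟨r, hr, by rw [hrt, h7]⟩
  · intro s a b hs hxs
    exact ⟨1, (canR S).one_mem, aline_uniq H S hox ht hs hx hxs⟩

end main

end Pool.Agent.Lib.MP_6b0fe3_coR
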