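import Pool.Agent.Lib.MP_6b0fe3_coR.GrpH

/-! MP_6b0fe3_co, L3: the unipotent group of a flag fixes its A-lines -/

namespace Pool.Agent.Lib.MP_6b0fe3_coR

open Matrix CountM

section alg
variable {K : Type*} [Field K]

/-- an element of `SL3` fixing the vectors of a flag is unipotent -/
theorem unip_cube {A : SL3 K} {v k : Fin 3 → K} (hf : IsFlag v k) (h1 : sv A v = v)
    (h2 : sk A k = k) : (A.1 - 1) ^ 3 = 0 := by
  -- `k` vanishes on the image of `A - 1`
  have a1 : ∀ y, k ⬝ᵥ (sv A y - y) = 0 := by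
    intro y
    rw [dotProduct_sub]
    nth_rewrite 1 [← h2]
    rw [s_dot', sub_self]
  have a2 : ∀ y, k ⬝ᵥ y = 0 → v ⨯₃ (sv A y - y) = 0 := by
    intro y hy
    have e1 : k ⨯₃ (v ⨯₃ y) = 0 := by
      rw [cross_cross_r, hy, zero_smul, dotProduct_comm, hf.2.2, zero_smul, sub_zero]
    obtain ⟨c, hc⟩ := exists_smul_of_cross hf.2.1 e1
    have e2 : v ⨯₃ sv A y = v ⨯₃ y := by
      have := sk_cross A v y
      rw [h1, hc, sk_smul, h2] at this
      rw [← this, hc]
    rw [map_sub, e2, sub_self]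
  have hN : ∀ y, (A.1 - 1) *ᵥ y = sv A y - y := by
    intro y
    rw [Matrix.sub_mulVec, Matrix.one_mulVec]
    rfl
  have a3 : ∀ y, (A.1 - 1) *ᵥ ((A.1 - 1) *ᵥ ((A.1 - 1) *ᵥ y)) = 0 := by
    intro y
    rw [hN y, hN (sv A y - y)]
    obtain ⟨c, hc⟩ := exists_smul_of_cross hf.1 (a2 _ (a1 y))
    rw [hc, hN, sv_smul, h1, sub_self]
  ext i j
  have h3 := congrFun (a3 (Pi.single j 1)) i
  rw [Matrix.mulVec_mulVec, Matrix.mulVec_mulVec] at h3
  rw [pow_succ, pow_two]
  simpa using h3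

theorem unip_pow {p : ℕ} [Fact p.Prime] [CharP K p] {A : SL3 K} {v k : Fin 3 → K}
    (hf : IsFlag v k) (h1 : sv A v = v) (h2 : sk A k = k) : A ^ p ^ 2 = 1 := by
  have hp : p.Prime := Fact.out
  apply Subtype.ext
  have e1 : (A ^ p ^ 2).1 = A.1 ^ p ^ 2 := rfl
  have e2 : A.1 = 1 + (A.1 - 1) := by abel
  rw [e1, e2, add_pow_char_pow_of_commute p 2 (Commute.one_left _), one_pow]
  have h3 : 3 ≤ p ^ 2 := by nlinarith [hp.two_le]
  rw [pow_eq_zero_of_le h3 (unip_cube hf h1 h2), add_zero]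
  rfl

end alg

section main
variable {K : Type*} [Field K] [Fintype K] {Pt Ln : Type*} {I : Pt → Ln → Prop}
variable (H : Hex I (Fintype.card K)) (S : Sub K I)
variable (hcan : ∀ u m : Fin 3 → K, ∀ h : m ⬝ᵥ u = 0, IsFlag u m → ∃ z, Can S z u m h)
variable (hstd : ∀ M, BLine S M → ∃ w ψ, Std S M w ψ)
variable (hinj : Function.Injective (canPi S))

/-- the subgroup fixing the vectors of a flag -/
def unipG (S : Sub K I) (v k : Fin 3 → K) : Subgroup (canR S) where
  carrier := {r | sv r.1.2 v = v ∧ sk r.1.2 k = k}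
  mul_mem' := by
    rintro x y ⟨hx, hx'⟩ ⟨hy, hy'⟩
    constructor
    · change sv (x.1.2 * y.1.2) v = v
      rw [sv_mul, hy, hx]
    · change sk (x.1.2 * y.1.2) k = k
      rw [sk_mul, hy', hx']
  one_mem' := ⟨sv_one v, sk_one k⟩
  inv_mem' := by
    rintro x ⟨hx, hx'⟩
    constructor
    · change sv x.1.2⁻¹ v = v
      nth_rewrite 1 [← hx]
      exact sv_inv_sv _ _
    · change sk x.1.2⁻¹ k = k
      nth_rewrite 1 [← hx']
      exact sk_inv_sk _ _

include H hinj

omit [Fintype K] H in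
theorem unipG_pGroup {p : ℕ} [Fact p.Prime] [CharP K p] {v k : Fin 3 → K} (hf : IsFlag v k) :
    IsPGroup p (unipG S v k) := by
  intro x
  refine ⟨2, ?_⟩
  apply Subtype.ext
  apply hinj
  change canPi S (x.1 ^ p ^ 2) = canPi S 1
  rw [map_pow, map_one]
  exact unip_pow hf x.2.1 x.2.2

include hcan hstd

/-- the unipotent group of a flag fixes the A-lines over the flag -/
theorem unip_fix {v k : Fin 3 → K} {t : Ln} (ht : ALine S v k t)
    {r : (Equiv.Perm Pt × Equiv.Perm Ln) × SL3 K} (hr : r ∈ canR S) (h1 : sv r.2 v = v)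
    (h2 : sk r.2 k = k) : r.1.2 t = t := by
  obtain ⟨hPt, hLn⟩ := finite_of_hex H
  have hq : 1 < Fintype.card K := Fintype.one_lt_card
  obtain ⟨p, hp⟩ := CharP.exists K
  have : Fact p.Prime := ⟨CharP.char_is_prime K p⟩
  obtain ⟨⟨n, hn⟩, -, hcardK⟩ := FiniteField.card K p
  have hcardK' : Fintype.card K = p ^ n := hcardK
  have hfixA : ∀ z : unipG S v k, ∀ t, ALine S v k t → ALine S v k (z.1.1.1.2 t) := by
    intro z t ht
    have h3 : Act S z.1.1.1 z.1.1.2 := canR_le S z.1.2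
    have h4 := h3.aline H ht
    rwa [z.2.1, z.2.2] at h4
  have hfixA' : ∀ z : unipG S v k, ∀ t, ALine S v k (z.1.1.1.2 t) ↔ ALine S v k t := by
    intro z t
    refine ⟨fun h => ?_, hfixA z t⟩
    have := hfixA z⁻¹ _ h
    have e : z⁻¹.1.1.1.2 (z.1.1.1.2 t) = t := z.1.1.1.2.symm_apply_apply t
    rwa [e] at this
  obtain ⟨t1, ht1, hfix1⟩ : ∃ t, ALine S v k t ∧ ∀ z : unipG S v k, z.1.1.1.2 t = t := by
    let φ : unipG S v k →* Equiv.Perm {t // ALine S v k t} :=
      { toFun := fun z => (z.1.1.1.2).subtypePerm (hfixA' z)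
        map_one' := by
          ext y
          simp
        map_mul' := by
          intro g g'
          ext y
          rfl }
    let _ : MulAction (unipG S v k) {t // ALine S v k t} := MulAction.compHom _ φ
    have hcard : ¬ p ∣ Nat.card {t // ALine S v k t} := by
      have e : Nat.card {t // ALine S v k t} = {t | ALine S v k t}.ncard := rfl
      rw [e, aline_card H S ht.1]
      intro h
      have h2 : p ∣ Fintype.card K := by
        rw [hcardK']
        exact dvd_pow_self p (by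
          rintro rfl
          rw [pow_zero] at hcardK'
          omega)
      have h3 : p ∣ 1 := by
        have := (Nat.dvd_sub h2 h)
        have e2 : Fintype.card K - (Fintype.card K - 1) = 1 := by omega
        rwa [e2] at this
      exact (Fact.out : p.Prime).one_lt.ne' (Nat.dvd_one.1 h3)
    obtain ⟨⟨t, ht⟩, hfix⟩ :=
      (unipG_pGroup S hinj ht.1).nonempty_fixed_point_of_prime_not_dvd_card
        {t // ALine S v k t} hcard
    refine ⟨t, ht, fun z => ?_⟩
    have := hfix z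
    exact congrArg Subtype.val this
  obtain ⟨g, hg, hgt⟩ := canR_trans_aline H S hcan hstd ht1 ht
  have hgact : Act S g.1 g.2 := canR_le S hg
  have h3 := hgact.aline H ht1
  rw [hgt] at h3
  obtain ⟨h4, h5⟩ := aline_flag H S ht h3
  obtain ⟨a, ha⟩ := exists_smul_of_cross ht.1.1 h4
  obtain ⟨b, hb⟩ := exists_smul_of_cross ht.1.2.1 h5
  have h6 : g⁻¹ * r * g ∈ canR S := (canR S).mul_mem ((canR S).mul_mem ((canR S).inv_mem hg) hr) hg
  have h7 : (⟨_, h6⟩ : canR S) ∈ unipG S v k := by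
    constructor
    · change sv (g.2⁻¹ * r.2 * g.2) v = v
      rw [sv_mul, sv_mul, ha, sv_smul, h1, ← ha, sv_inv_sv]
    · change sk (g.2⁻¹ * r.2 * g.2) k = k
      rw [sk_mul, sk_mul, hb, sk_smul, h2, ← hb, sk_inv_sk]
  have h8 := hfix1 ⟨_, h7⟩
  have h9 : g.1.2.symm (r.1.2 (g.1.2 t1)) = t1 := h8
  rw [hgt, Equiv.symm_apply_eq, hgt] at h9
  exact h9

/-- elements multiplying the two vectors of a flag by the same scalar fix the A-lines -/
theorem scal_fix {v k : Fin 3 → K} {t : Ln} (ht : ALine S v k t)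
    {r : (Equiv.Perm Pt × Equiv.Perm Ln) × SL3 K} (hr : r ∈ canR S) {a : K} (ha : a ≠ 0)
    (h1 : sv r.2 v = a • v) (h2 : sk r.2 k = a • k) : r.1.2 t = t := by
  obtain ⟨w, hw⟩ := exists_w ht.1.1 ht.1.2.2
  obtain ⟨ψ, hψw, hψv⟩ := exists_form (w := w) (v := v) (by rw [hw]; exact ht.1.2.1)
  obtain ⟨s, hs, hsv⟩ := fxG_trans S hcan hψw hψv
    (show ψ ⬝ᵥ (a • v) = 0 by rw [dotProduct_smul, hψv, smul_zero]) ht.1.1
    (smul_ne_zero ha ht.1.1)
  have hsw := (fxG_vec hψw hs).1
  have hsk : sk s.2 k = a • k := by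
    rw [← hw, sk_cross, hsw, hsv, cross_smul']
  have hsR := fxG_le S w ψ hs
  have hsact : Act S s.1 s.2 := canR_le S hsR
  -- `s` fixes `t`
  obtain ⟨M, x, hM, hb, hxM, hxt, hox, hov⟩ := exists_bline H S hstd ht hψw hψv
    (by rw [hw]; exact cross_self k)
  have hsM := fxG_bline H S hM hb hs
  have h3 := hsact.over hov
  rw [hsv, hsk] at h3
  have h4 : Over S (s.1.1 x) v k := by
    refine over_congr h3 ht.1 ?_ ?_
    · rw [smul_cross', cross_self, smul_zero]
    · rw [smul_cross', cross_self, smul_zero]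
  have h5 : s.1.1 x = x := by
    have h6 : I (s.1.1 x) M := by
      have := (hsact.aut x M).2 hxM
      rwa [hsM] at this
    exact eq_of_over H S hM h6 hxM h4 hov
  have h6 : s.1.2 t = t := by
    have h7 := hsact.aline H ht
    have h8 := (hsact.aut x t).2 hxt
    rw [h5] at h8
    exact aline_uniq H S hox h7 ht h8 hxt
  -- `s⁻¹ r` is unipotent
  have h7 : s⁻¹ * r ∈ canR S := (canR S).mul_mem ((canR S).inv_mem hsR) hr
  have h8 : (s⁻¹ * r).1.2 t = t := by
    refine unip_fix H S hcan hstd hinj ht h7 ?_ ?_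
    · change sv (s.2⁻¹ * r.2) v = v
      rw [sv_mul, h1, ← hsv, sv_inv_sv]
    · change sk (s.2⁻¹ * r.2) k = k
      rw [sk_mul, h2, ← hsk, sk_inv_sk]
  have h9 : s.1.2.symm (r.1.2 t) = t := h8
  rw [Equiv.symm_apply_eq, h6] at h9
  exact h9

/-- an element fixing an A-line multiplies the two vectors of the flag by the same scalar -/
theorem fix_scal {v k : Fin 3 → K} {t : Ln} (ht : ALine S v k t)
    {r : (Equiv.Perm Pt × Equiv.Perm Ln) × SL3 K} (hr : r ∈ canR S) {a b : K}
    (h1 : sv r.2 v = a • v) (h2 : sk r.2 k = b • k) (h3 : r.1.2 t = t) : a = b := by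
  classical
  obtain ⟨hPt, hLn⟩ := finite_of_hex H
  have hq : 1 < Fintype.card K := Fintype.one_lt_card
  have hne : ∀ {A : SL3 K} {a : K}, sv A v = a • v → a ≠ 0 := by
    intro A a h h0
    rw [h0, zero_smul, sv_eq_zero] at h
    exact ht.1.1 h
  have hne' : ∀ {A : SL3 K} {a : K}, sk A k = a • k → a ≠ 0 := by
    intro A a h h0
    rw [h0, zero_smul, sk_eq_zero] at h
    exact ht.1.2.1 h
  have ha := hne h1
  have hb := hne' h2
  -- inverse images
  have hinv : ∀ {A : SL3 K} {a : K}, sv A v = a • v → sv A⁻¹ v = a⁻¹ • v := by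
    intro A a h
    have h0 := hne h
    have : v = a⁻¹ • sv A v := by rw [h, smul_smul, inv_mul_cancel₀ h0, one_smul]
    nth_rewrite 1 [this]
    rw [sv_smul, sv_inv_sv]
  have hinv' : ∀ {A : SL3 K} {a : K}, sk A k = a • k → sk A⁻¹ k = a⁻¹ • k := by
    intro A a h
    have h0 := hne' h
    have : k = a⁻¹ • sk A k := by rw [h, smul_smul, inv_mul_cancel₀ h0, one_smul]
    nth_rewrite 1 [this]
    rw [sk_smul, sk_inv_sk]
  -- two elements with the same quotient agree on `t`
  have key : ∀ g ∈ canR S, ∀ g' ∈ canR S, ∀ a b a' b' : K, sv g.2 v = a • v → sk g.2 k = b • k →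
      sv g'.2 v = a' • v → sk g'.2 k = b' • k → a * b' = a' * b → g'.1.2 t = g.1.2 t := by
    intro g hg g' hg' a b a' b' e1 e2 e3 e4 e5
    have h0 := hne e1
    have h0' := hne' e2
    have h0'' := hne e3
    have h4 : g⁻¹ * g' ∈ canR S := (canR S).mul_mem ((canR S).inv_mem hg) hg'
    have h5 : (g⁻¹ * g').1.2 t = t := by
      refine scal_fix H S hcan hstd hinj ht h4 (a := a' * a⁻¹)
        (mul_ne_zero h0'' (inv_ne_zero h0)) ?_ ?_
      · change sv (g.2⁻¹ * g'.2) v = _
        rw [sv_mul, e3, sv_smul, hinv e1, smul_smul]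
      · change sk (g.2⁻¹ * g'.2) k = _
        rw [sk_mul, e4, sk_smul, hinv' e2, smul_smul]
        congr 1
        field_simp
        linear_combination e5
    have h6 : g.1.2.symm (g'.1.2 t) = t := h5
    rwa [Equiv.symm_apply_eq] at h6
  -- the scalar of every A-line
  have hQ : ∀ t' : {t' // ALine S v k t'}, ∃ c : Kˣ, (t'.1 = t → c = 1) ∧ ∃ g ∈ canR S,
      ∃ a b : K, sv g.2 v = a • v ∧ sk g.2 k = b • k ∧ g.1.2 t = t'.1 ∧ a = c * b := by
    intro t'
    by_cases he : t'.1 = t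
    · refine ⟨1, fun _ => rfl, 1, (canR S).one_mem, 1, 1, ?_, ?_, ?_, ?_⟩
      · rw [one_smul]
        exact sv_one v
      · rw [one_smul]
        exact sk_one k
      · rw [he]
        rfl
      · rw [Units.val_one, mul_one]
    · obtain ⟨g, hg, hgt⟩ := canR_trans_aline H S hcan hstd ht t'.2
      have hgact : Act S g.1 g.2 := canR_le S hg
      have h4 := hgact.aline H ht
      rw [hgt] at h4
      obtain ⟨h5, h6⟩ := aline_flag H S t'.2 h4
      obtain ⟨a, ha⟩ := exists_smul_of_cross ht.1.1 h5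
      obtain ⟨b, hb⟩ := exists_smul_of_cross ht.1.2.1 h6
      have ha0 := hne ha
      have hb0 := hne' hb
      refine ⟨Units.mk0 (a / b) (div_ne_zero ha0 hb0), fun h => absurd h he, g, hg, a, b, ha, hb,
        hgt, ?_⟩
      rw [Units.val_mk0]
      field_simp
  choose F hF1 hF2 using hQ
  have hFinj : Function.Injective F := by
    intro t1 t2 he
    obtain ⟨g, hg, a, b, e1, e2, e3, e4⟩ := hF2 t1
    obtain ⟨g', hg', a', b', e1', e2', e3', e4'⟩ := hF2 t2
    have h4 := key g hg g' hg' a b a' b' e1 e2 e1' e2' (by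
      rw [e4, e4', he]
      ring)
    apply Subtype.ext
    rw [← e3, ← e3', h4]
  have hcard : Nat.card {t' // ALine S v k t'} = Nat.card Kˣ := by
    have e : Nat.card {t // ALine S v k t} = {t | ALine S v k t}.ncard := rfl
    rw [e, aline_card H S ht.1, Nat.card_eq_fintype_card, Fintype.card_units]
  have hFbij : Function.Bijective F := by
    have hfin : Finite {t' // ALine S v k t'} := inferInstance
    exact (Nat.bijective_iff_injective_and_card F).2 ⟨hFinj, hcard⟩
  obtain ⟨t1, ht1⟩ := hFbij.2 (Units.mk0 (a / b) (div_ne_zero ha hb))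
  obtain ⟨g, hg, a', b', e1, e2, e3, e4⟩ := hF2 t1
  have h4 := key g hg r hr a' b' a b e1 e2 h1 h2 (by
    rw [e4, ht1, Units.val_mk0]
    field_simp)
  rw [h3, e3] at h4
  have h5 := hF1 t1 h4.symm
  rw [ht1] at h5
  have h6 : a / b = 1 := congrArg Units.val h5
  exact (div_eq_one_iff_eq hb).1 h6

end main

end Pool.Agent.Lib.MP_6b0fe3_coR
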