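import Pool.Agent.Lib.MP_6b0fe3_coR.GrpD

/-! MP_6b0fe3_co, L3: connectivity of the outside; automorphisms trivial on the subhexagon -/

namespace Pool.Agent.Lib.MP_6b0fe3_coR

open Matrix

section vec
variable {K : Type*} [Field K]

/-- a vector orthogonal to neither of two nonzero vectors -/
theorem nondeg_two {a b : Fin 3 → K} (ha : a ≠ 0) (hb : b ≠ 0) :
    ∃ u : Fin 3 → K, a ⬝ᵥ u ≠ 0 ∧ b ⬝ᵥ u ≠ 0 := by
  obtain ⟨s, hs⟩ := uniqL_nondeg ha
  obtain ⟨t, ht⟩ := uniqL_nondeg hb
  by_cases h1 : b ⬝ᵥ s = 0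
  · by_cases h2 : a ⬝ᵥ t = 0
    · refine ⟨s + t, ?_, ?_⟩
      · rw [dotProduct_add, h2, add_zero]; exact hs
      · rw [dotProduct_add, h1, zero_add]; exact ht
    · exact ⟨t, h2, ht⟩
  · exact ⟨s, hs, h1⟩

/-- a flag opposite to two given flags -/
theorem exists_opp_two {v k v' k' : Fin 3 → K} (h : IsFlag v k) (h' : IsFlag v' k') :
    ∃ r m, IsFlag r m ∧ Opp v k r m ∧ Opp v' k' r m := by
  obtain ⟨r, h1, h2⟩ := nondeg_two h.2.1 h'.2.1
  have hr : r ≠ 0 := by
    rintro rfl
    exact h1 (dotProduct_zero _)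
  have c1 : v ⨯₃ r ≠ 0 := by
    intro h0
    obtain ⟨c, hc, hc'⟩ := (cross_eq_zero_iff h.1 hr).1 h0
    apply h1
    rw [hc', dotProduct_smul, dotProduct_comm, h.2.2, smul_zero]
  have c2 : v' ⨯₃ r ≠ 0 := by
    intro h0
    obtain ⟨c, hc, hc'⟩ := (cross_eq_zero_iff h'.1 hr).1 h0
    apply h2
    rw [hc', dotProduct_smul, dotProduct_comm, h'.2.2, smul_zero]
  obtain ⟨s, h3, h4⟩ := nondeg_two c1 c2
  have e : ∀ a : Fin 3 → K, a ⬝ᵥ (r ⨯₃ s) = (a ⨯₃ r) ⬝ᵥ s := by
    intro a
    rw [cross_apply', cross_apply', dot3, dot3]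
    simp
    ring
  have h5 : v ⬝ᵥ (r ⨯₃ s) ≠ 0 := by rw [e]; exact h3
  have h6 : v' ⬝ᵥ (r ⨯₃ s) ≠ 0 := by rw [e]; exact h4
  refine ⟨r, r ⨯₃ s, ⟨hr, ?_, dot_self_cross r s⟩, ⟨h5, ?_⟩, ⟨h6, ?_⟩⟩
  · intro h0
    rw [h0, dotProduct_zero] at h5
    exact h5 rfl
  · rw [dotProduct_comm]; exact h1
  · rw [dotProduct_comm]; exact h2

end vec

section conn
variable {K : Type*} [Field K] [Fintype K] {Pt Ln : Type*} {I : Pt → Ln → Prop}
variable (H : Hex I (Fintype.card K)) (S : Sub K I)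
include H

/-- a line over a flag and an outside point of it -/
theorem exists_over {v k : Fin 3 → K} (h : IsFlag v k) :
    ∃ t x, ALine S v k t ∧ I x t ∧ Out S x ∧ Over S x v k := by
  have hc := aline_card H S h
  have h1 : 1 < Fintype.card K := Fintype.one_lt_card
  have hpos : 0 < {t | ALine S v k t}.ncard := by omega
  have hfin : {t | ALine S v k t}.Finite := Set.finite_of_ncard_pos hpos
  obtain ⟨t, ht⟩ := (Set.ncard_pos hfin).1 hpos
  have ht' : ALine S v k t := ht
  obtain ⟨hf2, hc2⟩ := pts_card H ht'.2.1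
  have hpos2 : 0 < {y | I y t ∧ y ≠ S.pt v k}.ncard := by omega
  obtain ⟨x, hx, hne⟩ := (Set.ncard_pos hf2).1 hpos2
  obtain ⟨h3, h4⟩ := out_of_aline H S ht' hx hne
  exact ⟨t, x, ht', hx, h3, h4⟩

variable {P : Pt → Prop} (hP : ∀ x y, Out S x → Out S y → Coll I x y → P x → P y)
include hP

/-- a property closed under collinearity passes to the points over an opposite flag -/
theorem conn_opp {x : Pt} (hx : Out S x) (h : P x) {r m : Fin 3 → K} (hxo : Over S x r m)
    {y : Pt} (hy : Out S y) {v k : Fin 3 → K} (hyo : Over S y v k) (ho : Opp v k r m) : P y := by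
  have h1 : 1 < Fintype.card K := Fintype.one_lt_card
  obtain ⟨t, ht, hxt⟩ := aline_exists H S hx hxo
  obtain ⟨ty, hty, hyt⟩ := aline_exists H S hy hyo
  -- a point of `ty` not near the flag
  obtain ⟨y', hy't, hy'o, hy'ne, hy'n⟩ : ∃ y', I y' ty ∧ Out S y' ∧ Over S y' v k ∧
      ¬ Near I y' (S.pt r m) := by
    obtain ⟨x1, hx1, -, -, hn1⟩ := near_on_aline H S hty hxo.1 ho
    obtain ⟨hf2, hc2⟩ := pts_card H hty.2.1
    have hlt : 1 < {y | I y ty ∧ y ≠ S.pt v k}.ncard := by omega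
    obtain ⟨y', ⟨hy', hne'⟩, hne⟩ := Set.exists_ne_of_one_lt_ncard hlt x1
    obtain ⟨h3, h4⟩ := out_of_aline H S hty hy' hne'
    refine ⟨y', hy', h3, h4, fun hn => hne ?_⟩
    exact near_aline_unique H S hty hxo.1 ho hy' hx1 hn hn1
  obtain ⟨x', hx't, hn⟩ := H.near y' t
  have hx'ne : x' ≠ S.pt r m := by
    rintro rfl
    exact hy'n hn
  obtain ⟨hox', hovx'⟩ := out_of_aline H S ht hx't hx'ne
  obtain ⟨z, hyz, hzx⟩ := hn
  have hz : Out S z := by
    intro a b hab he
    rw [he] at hyz hzx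
    have o1 : Over S x' a b := ⟨hab, coll_symm' hzx⟩
    have o2 : Over S y' a b := ⟨hab, hyz⟩
    have e1 := (over_unique H S hox' hovx' o1).1
    have e2 := (over_unique H S hy'o hy'ne o2).1
    obtain ⟨c, hc0, hc1⟩ := (cross_eq_zero_iff hxo.1.1 hab.1).1 e1
    obtain ⟨c', hc0', hc1'⟩ := (cross_eq_zero_iff hyo.1.1 hab.1).1 e2
    have e3 : a ⬝ᵥ m = 0 := by rw [hc1, smul_dotProduct, hxo.1.2.2, smul_zero]
    rw [hc1', smul_dotProduct, smul_eq_mul, mul_eq_zero] at e3
    exact ho.1 (e3.resolve_left hc0')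
  have p1 : P x' := hP x x' hx hox' ⟨t, hxt, hx't⟩ h
  have p2 : P z := hP x' z hox' hz (coll_symm' hzx) p1
  have p3 : P y' := hP z y' hz hy'o (coll_symm' hyz) p2
  exact hP y' y hy'o hy ⟨ty, hy't, hyt⟩ p3

/-- connectivity of the outside: a property of outside points closed under collinearity and true
for one outside point is true for all -/
theorem conn {x : Pt} (hx : Out S x) (h : P x) {y : Pt} (hy : Out S y) : P y := by
  obtain ⟨v, k, hv⟩ := over_exists H S hx
  obtain ⟨v', k', hv'⟩ := over_exists H S hy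
  obtain ⟨r, m, hf, h1, h2⟩ := exists_opp_two hv.1 hv'.1
  obtain ⟨t, z, ht, hzt, hz, hzo⟩ := exists_over H S hf
  have p1 : P z := conn_opp H S hP hx h hv hz hzo ⟨h1.2, h1.1⟩
  exact conn_opp H S hP hz p1 hzo hy hv' h2

end conn

section triv
variable {K : Type*} [Field K] [Fintype K] {Pt Ln : Type*} {I : Pt → Ln → Prop}
variable (H : Hex I (Fintype.card K)) (S : Sub K I)
include H

/-- a line meeting the subhexagon through an outside point is an A-line -/
theorem aline_of_not_bline {y : Pt} (hy : Out S y) {l : Ln} (hyl : I y l) (hl : ¬ BLine S l) :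
    ∃ v k, ALine S v k l ∧ Over S y v k := by
  unfold BLine at hl
  push Not at hl
  obtain ⟨v, k, hf, hI⟩ := hl
  have ho : Over S y v k := ⟨hf, l, hyl, hI⟩
  obtain ⟨t, ht, hyt⟩ := aline_exists H S hy ho
  have e : l = t := H.uniq hyl hI hyt ht.2.1 (hy v k hf)
  rw [e]
  exact ⟨v, k, ht, ho⟩

/-- an automorphism trivial on the subhexagon and mapping an A-line to itself fixes its points -/
theorem triv_aline {g : Equiv.Perm Pt × Equiv.Perm Ln} (hg : Act S g (1 : SL3 K)) {v k : Fin 3 → K}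
    {t : Ln} (ht : ALine S v k t) (h : g.2 t = t) {y : Pt} (hy : I y t) : g.1 y = y := by
  have hfix : ∀ v k, IsFlag v k → g.1 (S.pt v k) = S.pt v k := by
    intro v k hf
    rw [hg.act v k hf, sv_one, sk_one]
  by_cases hne : y = S.pt v k
  · rw [hne]; exact hfix v k ht.1
  obtain ⟨ho, hov⟩ := out_of_aline H S ht hy hne
  obtain ⟨r, hr⟩ := uniqL_nondeg ht.1.2.1
  have hr0 : r ≠ 0 := by
    rintro rfl
    exact hr (dotProduct_zero _)
  have hr' : r ⬝ᵥ k ≠ 0 := by rw [dotProduct_comm]; exact hr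
  obtain ⟨m, hm, hn⟩ := theta_exists H S ho hov hr0
  have hop : Opp v k r m := ⟨near_opp H S ho hov hm hn hr', hr'⟩
  have hn' : Near I (g.1 y) (S.pt r m) := by
    have := (aut_near hg.aut).2 hn
    rwa [hfix r m hm] at this
  have hy' : I (g.1 y) t := by
    have := (hg.aut y t).2 hy
    rwa [h] at this
  exact near_aline_unique H S ht hm hop hy' hy hn' hn

/-- an automorphism trivial on the subhexagon and fixing an outside point fixes the outside points
collinear with it -/
theorem triv_coll {g : Equiv.Perm Pt × Equiv.Perm Ln} (hg : Act S g (1 : SL3 K)) {x y : Pt}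
    (hx : Out S x) (hy : Out S y) (hc : Coll I x y) (h : g.1 x = x) : g.1 y = y := by
  have hfix : ∀ v k, IsFlag v k → g.1 (S.pt v k) = S.pt v k := by
    intro v k hf
    rw [hg.act v k hf, sv_one, sk_one]
  by_cases hxy : x = y
  · rw [← hxy]; exact h
  obtain ⟨l, hxl, hyl⟩ := hc
  by_cases hl : BLine S l
  · obtain ⟨v, k, hv⟩ := over_exists H S hx
    obtain ⟨v', k', hv'⟩ := over_exists H S hy
    have hop := opp_of_bline H S hl hxl hyl hxy hv hv'
    have c1 : Coll I x y := ⟨l, hxl, hyl⟩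
    have c2 : Coll I (S.pt v' k') (g.1 y) := by
      have := (aut_coll hg.aut).2 (coll_symm' hv'.2)
      rwa [hfix v' k' hv'.1] at this
    have c3 : Coll I (g.1 y) x := by
      have := (aut_coll hg.aut).2 (coll_symm' c1)
      rwa [h] at this
    rcases H.quadr c1 hv'.2 c2 c3 with c | c
    · have h0 := (over_unique H S hx hv ⟨hv'.1, c⟩).1
      obtain ⟨b, hb, hb'⟩ := (cross_eq_zero_iff hv.1.1 hv'.1.1).1 h0
      exfalso
      apply hop.2
      rw [hb', smul_dotProduct, hv.1.2.2, smul_zero]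
    · by_contra hne
      have hne' : g.1 y ≠ y := hne
      have i1 : I (g.1 y) l := by
        obtain ⟨l', a1, a2, a3⟩ := H.tri c3 c1 (coll_symm' c)
        have : l' = l := H.uniq a2 a3 hxl hyl hxy
        rwa [this] at a1
      obtain ⟨l', a1, a2, a3⟩ := H.tri c2 (coll_symm' c) (coll_symm' hv'.2)
      have : l' = l := H.uniq a2 a3 i1 hyl hne'
      rw [this] at a1
      exact hl _ _ hv'.1 a1
  · obtain ⟨v, k, ht, hov⟩ := aline_of_not_bline H S hx hxl hl
    have e : g.2 l = l := by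
      have i1 := (hg.aut x l).2 hxl
      rw [h] at i1
      have i2 := (hg.aut _ l).2 ht.2.1
      rw [hfix v k ht.1] at i2
      exact H.uniq i1 i2 hxl ht.2.1 (hx v k ht.1)
    exact triv_aline H S hg ht e hyl

/-- an automorphism trivial on the subhexagon fixing an outside point is trivial -/
theorem act_free {g : Equiv.Perm Pt × Equiv.Perm Ln} (hg : Act S g (1 : SL3 K)) {x : Pt}
    (hx : Out S x) (h : g.1 x = x) : g = 1 := by
  have hout : ∀ y, Out S y → g.1 y = y := fun y hy =>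
    conn H S (P := fun z => g.1 z = z) (fun a b ha hb hab hfa => triv_coll H S hg ha hb hab hfa)
      hx h hy
  have hpt : ∀ y, g.1 y = y := by
    intro y
    by_cases hy : Out S y
    · exact hout y hy
    · unfold Out at hy
      push Not at hy
      obtain ⟨v, k, hf, rfl⟩ := hy
      rw [hg.act v k hf, sv_one, sk_one]
  have hln : ∀ l, g.2 l = l := by
    intro l
    have hlt : 1 < {y | I y l}.ncard := by
      rw [H.lineCard]
      have := Fintype.one_lt_card (α := K)
      omega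
    obtain ⟨a, ha, b, hb, hab⟩ := (Set.one_lt_ncard_iff_nontrivial_and_finite.1 hlt).1
    have ha' : I a l := ha
    have hb' : I b l := hb
    have i1 := (hg.aut a l).2 ha'
    have i2 := (hg.aut b l).2 hb'
    rw [hpt] at i1 i2
    exact H.uniq i1 i2 ha' hb' hab
  refine Prod.ext ?_ ?_
  · ext y; exact hpt y
  · ext l; exact hln l

/-- an automorphism trivial on the subhexagon fixing an A-line is trivial -/
theorem act_free_aline {g : Equiv.Perm Pt × Equiv.Perm Ln} (hg : Act S g (1 : SL3 K))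
    {v k : Fin 3 → K} {t : Ln} (ht : ALine S v k t) (h : g.2 t = t) : g = 1 := by
  obtain ⟨hf2, hc2⟩ := pts_card H ht.2.1
  have h1 : 1 < Fintype.card K := Fintype.one_lt_card
  have hpos2 : 0 < {y | I y t ∧ y ≠ S.pt v k}.ncard := by omega
  obtain ⟨x, hx, hne⟩ := (Set.ncard_pos hf2).1 hpos2
  obtain ⟨h3, h4⟩ := out_of_aline H S ht hx hne
  exact act_free H S hg h3 (triv_aline H S hg ht h hx)

end triv

/-- the automorphisms trivial on the subhexagon -/
def kerG {K : Type*} [Field K] {Pt Ln : Type*} {I : Pt → Ln → Prop} (S : Sub K I) :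
    Subgroup (Equiv.Perm Pt × Equiv.Perm Ln) where
  carrier := {g | Act S g (1 : SL3 K)}
  mul_mem' := by
    intro a b ha hb
    have := Act.mul ha hb
    rwa [one_mul] at this
  one_mem' := act_one S
  inv_mem' := by
    intro a ha
    have := Act.inv ha
    rwa [inv_one] at this

theorem mem_kerG {K : Type*} [Field K] {Pt Ln : Type*} {I : Pt → Ln → Prop} {S : Sub K I}
    {g : Equiv.Perm Pt × Equiv.Perm Ln} : g ∈ kerG S ↔ Act S g (1 : SL3 K) := Iff.rfl

end Pool.Agent.Lib.MP_6b0fe3_coR
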