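import Pool.Agent.Lib.MP_6b0fe3_coR.GrpKa
import Pool.Agent.Lib.MP_6b0fe3_coR.CountM

/-! MP_6b0fe3_co, L3: representations up to cube roots of unity -/

namespace Pool.Agent.Lib.MP_6b0fe3_coR

open Matrix

section rep
variable {K : Type*} [Field K] [Fintype K] {Pt Ln : Type*} {I : Pt → Ln → Prop}
variable (H : Hex I (Fintype.card K)) (S : Sub K I)
include H

theorem rep_unique3 {x : Pt} (hx : Out S x)
    {v w ψ w' ψ' : Fin 3 → K} (h : Rep S x v w ψ) (h' : Rep S x v w' ψ') :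
    ∃ c s : K, c ^ 3 = 1 ∧ w' = c • w + s • v ∧ ψ' = c ^ 2 • ψ + (c * s) • (w ⨯₃ v) := by
  have hv : v ≠ 0 := h.2.2.1.1.1
  have hφ : w ⨯₃ v ≠ 0 := h.2.2.1.1.2.1
  have hφ' : w' ⨯₃ v ≠ 0 := h'.2.2.1.1.2.1
  obtain ⟨c, hc⟩ := uniqL_parallel hφ (over_unique H S hx h.2.2.1 h'.2.2.1).2
  have hc0 : c ≠ 0 := by
    rintro rfl
    exact hφ' (by rw [hc, zero_smul])
  obtain ⟨s, hs⟩ := uniqL_factor hv hc
  have hform : ψ' = c ^ 2 • ψ + (c * s) • (w ⨯₃ v) := by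
    apply uniqL_forms hφ
    intro r hr
    obtain ⟨m, hm, hn, ho, he⟩ := uniqL_near H S hx h hr
    have ho' : Opp v (w' ⨯₃ v) r m := by
      refine ⟨ho.1, ?_⟩
      rw [hc, dotProduct_smul, smul_eq_mul]
      exact mul_ne_zero hc0 ho.2
    have he' := (h'.2.2.2 r m hm ho').1 hn
    rw [hc, hs, smul_dotProduct, smul_eq_mul, dotProduct_add, dotProduct_smul, dotProduct_smul,
      smul_eq_mul, smul_eq_mul] at he'
    have hmv : m ⬝ᵥ v ≠ 0 := by rw [dotProduct_comm]; exact ho.1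
    apply mul_right_cancel₀ hmv
    rw [add_dotProduct, smul_dotProduct, smul_dotProduct, smul_eq_mul, smul_eq_mul]
    linear_combination (-1 : K) * he' + c ^ 2 * he
  have h1 : c ^ 3 = 1 := by
    have h2 := h'.1
    rw [hform, hs, add_dotProduct, smul_dotProduct, smul_dotProduct, dotProduct_add,
      dotProduct_add, dotProduct_smul, dotProduct_smul, dotProduct_smul, dotProduct_smul,
      uniqL_cross_self_left, uniqL_cross_self_right, h.1, h.2.1] at h2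
    simp only [smul_eq_mul] at h2
    linear_combination h2
  exact ⟨c, s, h1, hs, hform⟩

theorem rep_aline3 {v k : Fin 3 → K} {t : Ln}
    (ht : ALine S v k t) {x y : Pt} (hx : I x t) (hy : I y t) (hox : Out S x) (hoy : Out S y)
    {w ψ w' ψ' : Fin 3 → K} (h : Rep S x v w ψ) (h' : Rep S y v w' ψ') :
    ∃ c : K, c ^ 3 = 1 ∧ w' ⨯₃ v = c • (w ⨯₃ v) := by
  by_cases hxy : x = y
  · subst hxy
    obtain ⟨c, s, hc, hs, -⟩ := rep_unique3 H S hox h h'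
    refine ⟨c, hc, ?_⟩
    rw [hs, map_add, LinearMap.add_apply, map_smul, LinearMap.smul_apply, map_smul,
      LinearMap.smul_apply, cross_self, smul_zero, add_zero]
  have hv : v ≠ 0 := h.2.2.1.1.1
  have hφ : w ⨯₃ v ≠ 0 := h.2.2.1.1.2.1
  have hφ' : w' ⨯₃ v ≠ 0 := h'.2.2.1.1.2.1
  have hk : k ≠ 0 := ht.1.2.1
  have hxv := (out_of_aline H S ht hx (hox v k ht.1)).2
  have hyv := (out_of_aline H S ht hy (hoy v k ht.1)).2
  obtain ⟨a, ha⟩ := uniqL_parallel hk (over_unique H S hox hxv h.2.2.1).2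
  obtain ⟨b, hb⟩ := uniqL_parallel hk (over_unique H S hoy hyv h'.2.2.1).2
  have ha0 : a ≠ 0 := by
    rintro rfl
    exact hφ (by rw [ha, zero_smul])
  have hb0 : b ≠ 0 := by
    rintro rfl
    exact hφ' (by rw [hb, zero_smul])
  obtain ⟨c, hc, hc0⟩ : ∃ c : K, w' ⨯₃ v = c • (w ⨯₃ v) ∧ c ≠ 0 := by
    refine ⟨b / a, ?_, div_ne_zero hb0 ha0⟩
    rw [hb, ha, smul_smul, div_mul_cancel₀ _ ha0]
  obtain ⟨s, hs⟩ := uniqL_factor hv hc
  have hne : ∀ r : Fin 3 → K, (w ⨯₃ v) ⬝ᵥ r ≠ 0 →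
      ψ' ⬝ᵥ r ≠ c ^ 2 * (ψ ⬝ᵥ r) + c * s * ((w ⨯₃ v) ⬝ᵥ r) := by
    intro r hr he
    obtain ⟨m, hm, hn, ho, hb1⟩ := uniqL_near H S hox h hr
    have ho' : Opp v (w' ⨯₃ v) r m := by
      refine ⟨ho.1, ?_⟩
      rw [hc, dotProduct_smul, smul_eq_mul]
      exact mul_ne_zero hc0 ho.2
    have hn' : Near I y (S.pt r m) := by
      apply (h'.2.2.2 r m hm ho').2
      rw [hc, hs, smul_dotProduct, smul_eq_mul, dotProduct_add, dotProduct_smul, dotProduct_smul,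
        smul_eq_mul, smul_eq_mul, he]
      linear_combination c ^ 2 * hb1
    have hok : Opp v k r m := by
      refine ⟨ho.1, ?_⟩
      intro h0
      apply ho.2
      rw [ha, dotProduct_smul, h0, smul_zero]
    exact hxy (near_aline_unique H S ht hm hok hx hy hn hn')
  have hpar : (w ⨯₃ v) ⨯₃ (ψ' - c ^ 2 • ψ - (c * s) • (w ⨯₃ v)) = 0 := by
    by_contra hno
    obtain ⟨u, hu⟩ := uniqL_nondeg hno
    have hφr : (w ⨯₃ v) ⬝ᵥ ((ψ' - c ^ 2 • ψ - (c * s) • (w ⨯₃ v)) ⨯₃ u) ≠ 0 := by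
      intro h0
      apply hu
      rw [← h0]
      simp only [cross_apply, vec3_dotProduct]
      simp
      ring
    apply hne _ hφr
    have hδ : (ψ' - c ^ 2 • ψ - (c * s) • (w ⨯₃ v)) ⬝ᵥ
        ((ψ' - c ^ 2 • ψ - (c * s) • (w ⨯₃ v)) ⨯₃ u) = 0 := dot_self_cross _ _
    have hlin : ∀ z : Fin 3 → K, (ψ' - c ^ 2 • ψ - (c * s) • (w ⨯₃ v)) ⬝ᵥ z =
        ψ' ⬝ᵥ z - c ^ 2 * (ψ ⬝ᵥ z) - c * s * ((w ⨯₃ v) ⬝ᵥ z) := by
      intro z
      rw [sub_dotProduct, sub_dotProduct, smul_dotProduct, smul_dotProduct, smul_eq_mul,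
        smul_eq_mul]
    rw [hlin] at hδ
    linear_combination hδ
  obtain ⟨e, he⟩ := uniqL_parallel hφ hpar
  have hform : ψ' = c ^ 2 • ψ + (c * s + e) • (w ⨯₃ v) := by
    rw [add_smul, ← he]
    abel
  have h1 : c ^ 3 = 1 := by
    have h2 := h'.1
    rw [hform, hs, add_dotProduct, smul_dotProduct, smul_dotProduct, dotProduct_add,
      dotProduct_add, dotProduct_smul, dotProduct_smul, dotProduct_smul, dotProduct_smul,
      uniqL_cross_self_left, uniqL_cross_self_right, h.1, h.2.1] at h2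
    simp only [smul_eq_mul] at h2
    linear_combination h2
  exact ⟨c, h1, hc⟩

omit [Fintype K] H in
theorem rep_zeta {x : Pt} {v w ψ : Fin 3 → K} (h : Rep S x v w ψ) {c : K} (hc : c ^ 3 = 1) :
    Rep S x v (c • w) (c ^ 2 • ψ) := by
  have hc0 : c ≠ 0 := by
    rintro rfl
    simp at hc
  obtain ⟨h1, h2, h3, h4⟩ := h
  have hcr : (c • w) ⨯₃ v = c • (w ⨯₃ v) := by rw [map_smul, LinearMap.smul_apply]
  have hp := pt_smul' S h3.1 (a := 1) (b := c) one_ne_zero hc0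
  rw [one_smul] at hp
  refine ⟨?_, ?_, ?_, ?_⟩
  · rw [smul_dotProduct, dotProduct_smul, h1, smul_eq_mul, smul_eq_mul, mul_one]
    rw [← hc]; ring
  · rw [smul_dotProduct, h2, smul_zero]
  · rw [hcr]
    exact over_of_pt_eq S h3 hp.1 hp.2
  · intro r m hf ho
    rw [hcr] at ho ⊢
    have ho' : Opp v (w ⨯₃ v) r m := by
      refine ⟨ho.1, ?_⟩
      intro h0
      exact ho.2 (by rw [dotProduct_smul, h0, smul_zero])
    rw [h4 r m hf ho', smul_dotProduct, dotProduct_smul, smul_dotProduct, smul_eq_mul, smul_eq_mul,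
      smul_eq_mul]
    constructor
    · intro h0
      linear_combination c ^ 2 * h0
    · intro h0
      apply mul_left_cancel₀ (pow_ne_zero 2 hc0)
      linear_combination h0

end rep

/-- the scalar `c` is a label of the A-line `t` over `(v,k)` -/
def LabA {K : Type*} [Field K] {Pt Ln : Type*} {I : Pt → Ln → Prop} (S : Sub K I)
    (v k : Fin 3 → K) (t : Ln) (c : K) : Prop :=
  ∃ x w ψ, I x t ∧ Out S x ∧ Rep S x v w ψ ∧ w ⨯₃ v = c • k

section lab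
variable {K : Type*} [Field K] [Fintype K] {Pt Ln : Type*} {I : Pt → Ln → Prop}
variable (H : Hex I (Fintype.card K)) (S : Sub K I)

theorem LabA.ne_zero {S : Sub K I} {v k : Fin 3 → K} {t : Ln} {c : K} (h : LabA S v k t c) :
    c ≠ 0 := by
  obtain ⟨x, w, ψ, h1, h2, h3, h4⟩ := h
  rintro rfl
  rw [zero_smul] at h4
  exact h3.2.2.1.1.2.1 h4

include H in
theorem LabA.cube {v k : Fin 3 → K} {t : Ln} (ht : ALine S v k t) {c c' : K}
    (h : LabA S v k t c) (h' : LabA S v k t c') : c' ^ 3 = c ^ 3 := by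
  obtain ⟨x, w, ψ, h1, h2, h3, h4⟩ := h
  obtain ⟨x', w', ψ', h1', h2', h3', h4'⟩ := h'
  obtain ⟨z, hz, hz'⟩ := rep_aline3 H S ht h1 h1' h2 h2' h3 h3'
  rw [h4, h4', smul_smul] at hz'
  have hk : k ≠ 0 := ht.1.2.1
  have e : c' = z * c := smul_left_injective K hk hz'
  rw [e, mul_pow, hz, one_mul]

theorem LabA.zeta {S : Sub K I} {v k : Fin 3 → K} {t : Ln} {c z : K} (h : LabA S v k t c)
    (hz : z ^ 3 = 1) : LabA S v k t (z * c) := by
  obtain ⟨x, w, ψ, h1, h2, h3, h4⟩ := h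
  refine ⟨x, z • w, z ^ 2 • ψ, h1, h2, rep_zeta S h3 hz, ?_⟩
  rw [map_smul, LinearMap.smul_apply, h4, smul_smul]

include H in
theorem LabA.exists (hstd : ∀ M, BLine S M → ∃ w ψ, Std S M w ψ) {v k : Fin 3 → K} {t : Ln}
    (ht : ALine S v k t) : ∃ c, LabA S v k t c := by
  have h1 : 1 < Fintype.card K := Fintype.one_lt_card
  obtain ⟨hf2, hc2⟩ := pts_card H ht.2.1
  have hpos2 : 0 < {y | I y t ∧ y ≠ S.pt v k}.ncard := by omega
  obtain ⟨x, hx, hne⟩ := (Set.ncard_pos hf2).1 hpos2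
  obtain ⟨h3, h4⟩ := out_of_aline H S ht hx hne
  obtain ⟨hf5, hc5⟩ := lns_card H hx
  have hpos5 : 0 < {l | I x l ∧ l ≠ t}.ncard := by omega
  obtain ⟨M, hxM, hMt⟩ := (Set.ncard_pos hf5).1 hpos5
  have hM : BLine S M := by
    by_contra hno
    exact hMt (nonB_eq H S h3 hxM hx hno (aline_not_bline S ht))
  obtain ⟨w, ψ, hs⟩ := hstd M hM
  have hr := CountM.rep_of_std H S hM hs hxM h4
  obtain ⟨c, hc⟩ := uniqL_parallel ht.1.2.1 (over_unique H S h3 h4 hr.2.2.1).2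
  exact ⟨c, x, w, ψ, hx, h3, hr, hc⟩

include H in
/-- labels are transported by automorphisms -/
theorem LabA.act {v k : Fin 3 → K} {t : Ln} {c a : K} (h : LabA S v k t c)
    {g : Equiv.Perm Pt × Equiv.Perm Ln} {A : SL3 K} (hg : Act S g A) (ha : a ≠ 0)
    (h1 : sv A v = a • v) (h2 : sk A k = k) : LabA S v k (g.2 t) (a⁻¹ * c) := by
  obtain ⟨x, w, ψ, i1, i2, i3, i4⟩ := h
  have hr := hg.rep i3
  rw [h1] at hr
  have hr' := rep_smul H S hr (inv_ne_zero ha)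
  rw [smul_smul, inv_mul_cancel₀ ha, one_smul] at hr'
  refine ⟨g.1 x, _, _, (hg.aut _ _).2 i1, hg.out i2, hr', ?_⟩
  have e : sv A w ⨯₃ (a • v) = c • k := by
    rw [← h1, ← sk_cross, i4, sk_smul, h2]
  rw [map_smul] at e
  rw [mul_smul, ← e, smul_smul, inv_mul_cancel₀ ha, one_smul]

include H in
theorem aline_act {v k : Fin 3 → K} {t : Ln} {a : K} (ht : ALine S v k t)
    {g : Equiv.Perm Pt × Equiv.Perm Ln} {A : SL3 K} (hg : Act S g A) (ha : a ≠ 0)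
    (h1 : sv A v = a • v) (h2 : sk A k = k) : ALine S v k (g.2 t) := by
  have h3 := hg.ind.aline H ht
  rw [svE_apply, skE_apply, h1, h2] at h3
  obtain ⟨f, h4, h5, h6⟩ := h3
  have hp := pt_smul' S f (a := a⁻¹) (b := 1) (inv_ne_zero ha) one_ne_zero
  rw [smul_smul, inv_mul_cancel₀ ha, one_smul, one_smul] at hp
  refine ⟨hp.1, ?_, ?_, h6⟩
  · rw [hp.2]; exact h4
  · have e : S.lp v = S.lp (a • v) := (S.lp_eq hp.1.1 f.1).2 (cross_smul_right a v)
    rw [e]; exact h5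

/-- a lift of a transformation scaling `v` and fixing `k` -/
theorem exists_scale (hel : ∀ u m : Fin 3 → K, u ⬝ᵥ m = 0 →
      ∃ g : Equiv.Perm Pt × Equiv.Perm Ln, IsAut I g ∧
      ∀ v k, IsFlag v k → g.1 (S.pt v k) = S.pt (v + (m ⬝ᵥ v) • u) (k - (u ⬝ᵥ k) • m))
    {v k : Fin 3 → K} (hf : IsFlag v k) {c : K} (hc : c ≠ 0) :
    ∃ g A, Act S g A ∧ sv A v = c • v ∧ sk A k = k := by
  obtain ⟨u, m, hb, hkm, hvu⟩ := exists_hb hf
  obtain ⟨h1, h2, h3, h4⟩ := hb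
  obtain ⟨e, he⟩ := uniqL_nondeg hvu
  have e1 : (u ⨯₃ e) ⬝ᵥ v = (v ⨯₃ u) ⬝ᵥ e := by
    rw [cross_apply', cross_apply', dot3, dot3]
    simp
    ring
  have e2 : (u ⨯₃ e) ⬝ᵥ u = 0 := by rw [dotProduct_comm]; exact dot_self_cross u e
  obtain ⟨n, n1, n2⟩ : ∃ n : Fin 3 → K, n ⬝ᵥ v = 1 ∧ n ⬝ᵥ u = 0 := by
    refine ⟨((v ⨯₃ u) ⬝ᵥ e)⁻¹ • (u ⨯₃ e), ?_, ?_⟩
    · rw [smul_dotProduct, e1, smul_eq_mul, inv_mul_cancel₀ he]
    · rw [smul_dotProduct, e2, smul_zero]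
  have b1 : (n + m) ⬝ᵥ (u - v) = 0 := by
    rw [add_dotProduct, dotProduct_sub, dotProduct_sub, n1, n2, h4, h2]
    ring
  have b2 : (m + c⁻¹ • n) ⬝ᵥ (c • v - u) = 0 := by
    have e3 : m ⬝ᵥ (c • v - u) = -1 := by
      rw [dotProduct_sub, dotProduct_smul, h2, h4, smul_zero, zero_sub]
    have e4 : n ⬝ᵥ (c • v - u) = c := by
      rw [dotProduct_sub, dotProduct_smul, n1, n2, smul_eq_mul, mul_one, sub_zero]
    rw [add_dotProduct, smul_dotProduct, e3, e4, smul_eq_mul, inv_mul_cancel₀ hc]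
    ring
  obtain ⟨g1, a1⟩ := exists_act_elM (S := S) hel (u - v) (n + m) b1
  obtain ⟨g2, a2⟩ := exists_act_elM (S := S) hel (c • v - u) (m + c⁻¹ • n) b2
  refine ⟨g2 * g1, _, a2.mul a1, ?_, ?_⟩
  · have s1 : sv (elM (u - v) (n + m) b1) v = u := by
      rw [sv_elM, add_dotProduct, n1, h2, add_zero, one_smul, add_sub_cancel]
    rw [sv_mul, s1, sv_elM, add_dotProduct, h4, smul_dotProduct, n2, smul_zero, add_zero, one_smul]
    abel
  · rw [sk_mul, sk_elM, sk_elM]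
    have z1 : (u - v) ⬝ᵥ k = 0 := by
      rw [sub_dotProduct, hf.2.2, dotProduct_comm, h3, sub_zero]
    have z2 : (c • v - u) ⬝ᵥ k = 0 := by
      rw [sub_dotProduct, smul_dotProduct, hf.2.2, dotProduct_comm u k, h3, smul_zero, sub_zero]
    rw [z1, zero_smul, sub_zero, z2, zero_smul, sub_zero]

end lab

end Pool.Agent.Lib.MP_6b0fe3_coR
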