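import Pool.Agent.Lib.MP_6b0fe3_coR.GrpTb

/-! MP_6b0fe3_co, L3: a central extension of SL3(q) with exact root elements is trivial -/

namespace Pool.Agent.Lib.MP_6b0fe3_coR

open Matrix

/-- the data of lifts of the transvections -/
structure Lifts {K : Type*} [Field K] {R : Type*} [Group R]
    (π : R →* SpecialLinearGroup (Fin 3) K) (c : Fin 3 → Fin 3 → K → R) : Prop where
  proj : ∀ i j (hij : i ≠ j) t, π (c i j t) = SpecialLinearGroup.transvection hij t
  conj : ∀ i j k l (hij : i ≠ j) (hkl : k ≠ l) s t r,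
      π r * SpecialLinearGroup.transvection hij s = SpecialLinearGroup.transvection hkl t * π r →
      r * c i j s = c k l t * r
  exact : ∀ i j, i ≠ j → ∀ r ∈ Subgroup.closure {x | ∃ t, x = c i j t ∨ x = c j i t},
      π r = 1 → r = 1
  gen : Subgroup.closure {x | ∃ i j t, i ≠ j ∧ x = c i j t} = ⊤

namespace Lifts
variable {K : Type*} [Field K] {R : Type*} [Group R]
  {π : R →* SpecialLinearGroup (Fin 3) K} {c : Fin 3 → Fin 3 → K → R}

/-- the rank one subgroups -/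
def SS (c : Fin 3 → Fin 3 → K → R) (i j : Fin 3) : Subgroup R :=
  Subgroup.closure {x | ∃ t, x = c i j t ∨ x = c j i t}

omit [Field K] in
theorem SS_symm (c : Fin 3 → Fin 3 → K → R) (i j : Fin 3) : SS c i j = SS c j i := by
  unfold SS
  congr 1
  ext x
  constructor
  · rintro ⟨t, h | h⟩
    · exact ⟨t, Or.inr h⟩
    · exact ⟨t, Or.inl h⟩
  · rintro ⟨t, h | h⟩
    · exact ⟨t, Or.inr h⟩
    · exact ⟨t, Or.inl h⟩

omit [Field K] in
theorem mem_SS (c : Fin 3 → Fin 3 → K → R) (i j : Fin 3) (t : K) : c i j t ∈ SS c i j :=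
  Subgroup.subset_closure ⟨t, Or.inl rfl⟩

omit [Field K] in
theorem mem_SS' (c : Fin 3 → Fin 3 → K → R) (i j : Fin 3) (t : K) : c j i t ∈ SS c i j :=
  Subgroup.subset_closure ⟨t, Or.inr rfl⟩

variable (L : Lifts π c)
include L

theorem eq_of_SS {i j : Fin 3} (hij : i ≠ j) {x y : R} (hx : x ∈ SS c i j) (hy : y ∈ SS c i j)
    (h : π x = π y) : x = y := by
  have h1 : x * y⁻¹ ∈ SS c i j := (SS c i j).mul_mem hx ((SS c i j).inv_mem hy)
  have h2 := L.exact i j hij _ h1 (by rw [map_mul, map_inv, h, mul_inv_cancel])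
  rwa [mul_inv_eq_one] at h2

theorem c_add {i j : Fin 3} (hij : i ≠ j) (s t : K) : c i j (s + t) = c i j s * c i j t := by
  apply L.eq_of_SS hij (mem_SS c i j _)
    ((SS c i j).mul_mem (mem_SS c i j _) (mem_SS c i j _))
  rw [map_mul, L.proj i j hij, L.proj i j hij, L.proj i j hij]
  apply Subtype.ext
  rw [slT_mul]
  change (1 + Matrix.single i j (s + t)) = (1 + Matrix.single i j s) * (1 + Matrix.single i j t)
  rw [mul_add, mul_one, add_mul, one_mul, Matrix.single_mul_single_of_ne _ _ _ _ hij.symm,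
    add_zero, Matrix.single_add, add_assoc]

theorem mono_c {r : R} {σ : Equiv.Perm (Fin 3)} {a : Fin 3 → K} (h : Mono (π r) σ a)
    {k l : Fin 3} (hkl : k ≠ l) (t : K) :
    r * c k l t * r⁻¹ = c (σ k) (σ l) (a k * t * (a l)⁻¹) := by
  have := L.conj k l (σ k) (σ l) hkl (σ.injective.ne hkl) t (a k * t * (a l)⁻¹) r (h.conj hkl t)
  rw [this, mul_inv_cancel_right]

theorem mono_SS {r : R} {σ : Equiv.Perm (Fin 3)} {a : Fin 3 → K} (h : Mono (π r) σ a)
    {k l : Fin 3} (hkl : k ≠ l) {x : R} (hx : x ∈ SS c k l) : r * x * r⁻¹ ∈ SS c (σ k) (σ l) := by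
  unfold SS at hx
  induction hx using Subgroup.closure_induction with
  | mem x hx =>
    obtain ⟨t, rfl | rfl⟩ := hx
    · rw [L.mono_c h hkl]
      exact mem_SS c _ _ _
    · rw [L.mono_c h hkl.symm]
      exact mem_SS' c _ _ _
  | one =>
    rw [mul_one, mul_inv_cancel]
    exact Subgroup.one_mem _
  | mul x y _ _ hx hy =>
    have : r * (x * y) * r⁻¹ = (r * x * r⁻¹) * (r * y * r⁻¹) := by group
    rw [this]
    exact Subgroup.mul_mem _ hx hy
  | inv x _ hx =>
    have : r * x⁻¹ * r⁻¹ = (r * x * r⁻¹)⁻¹ := by group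
    rw [this]
    exact Subgroup.inv_mem _ hx

omit L in
/-- lifts of the monomial elements -/
def wR (c : Fin 3 → Fin 3 → K → R) (i : Fin 3) (a : K) : R :=
  c i (i + 1) a * c (i + 1) i (-a⁻¹) * c i (i + 1) a

omit L in
theorem wR_mem (c : Fin 3 → Fin 3 → K → R) (i : Fin 3) (a : K) : wR c i a ∈ SS c i (i + 1) :=
  Subgroup.mul_mem _ (Subgroup.mul_mem _ (mem_SS c _ _ _) (mem_SS' c _ _ _)) (mem_SS c _ _ _)

theorem wR_mono (i : Fin 3) {a : K} (ha : a ≠ 0) :
    Mono (π (wR c i a)) (Equiv.swap i (i + 1)) (wC i a) := by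
  unfold wR
  rw [map_mul, map_mul, L.proj _ _ (ne_succ i), L.proj _ _ (ne_succ i).symm]
  exact mono_w i ha

omit L in
/-- lifts of the torus elements -/
def hR (c : Fin 3 → Fin 3 → K → R) (i : Fin 3) (a : Kˣ) : R := wR c i a * wR c i (-1)

omit L in
theorem hR_mem (c : Fin 3 → Fin 3 → K → R) (i : Fin 3) (a : Kˣ) : hR c i a ∈ SS c i (i + 1) :=
  Subgroup.mul_mem _ (wR_mem c i _) (wR_mem c i _)

theorem hR_mono (i : Fin 3) (a : Kˣ) : Mono (π (hR c i a)) 1 (dC i (a : K)) := by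
  have h1 := (L.wR_mono i a.ne_zero).mul (L.wR_mono i (a := -1) (neg_ne_zero.2 one_ne_zero))
  rw [← map_mul] at h1
  have e1 : Equiv.swap i (i + 1) * Equiv.swap i (i + 1) = 1 := Equiv.swap_mul_self _ _
  have e2 : (fun j => wC i (a : K) (Equiv.swap i (i + 1) j) * wC i (-1) j) = dC i (a : K) := by
    ext j
    fin_cases i <;> fin_cases j <;> simp [wC, dC, Equiv.swap_apply_def]
  rw [e1, e2] at h1
  exact h1

theorem hR_mul (i : Fin 3) (a b : Kˣ) : hR c i (a * b) = hR c i a * hR c i b := by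
  apply L.eq_of_SS (ne_succ i) (hR_mem c i _) (Subgroup.mul_mem _ (hR_mem c i _) (hR_mem c i _))
  rw [map_mul]
  have h1 := (L.hR_mono i a).mul (L.hR_mono i b)
  refine (L.hR_mono i (a * b)).ext ?_
  have e1 : (1 : Equiv.Perm (Fin 3)) * 1 = 1 := mul_one 1
  have e2 : (fun j => dC i (a : K) ((1 : Equiv.Perm (Fin 3)) j) * dC i (b : K) j) =
      dC i ((a * b : Kˣ) : K) := by
    ext j
    simp only [dC, Equiv.Perm.one_apply, Units.val_mul]
    by_cases h : j = i
    · simp [h]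
    · by_cases h' : j = i + 1
      · simp [h', mul_comm]
      · simp [h, h']
  rw [e1, e2] at h1
  exact h1

/-- conjugation of torus elements by monomial elements -/
theorem conj_hR {r : R} {σ : Equiv.Perm (Fin 3)} {b : Fin 3 → K} (h : Mono (π r) σ b)
    (i : Fin 3) (a : Kˣ) (y : R) (j k : Fin 3) (hjk : j ≠ k) (hy : y ∈ SS c j k)
    (hs : (σ i = j ∧ σ (i + 1) = k) ∨ (σ i = k ∧ σ (i + 1) = j))
    (hm : Mono (π y) 1 (fun l => dC i (a : K) (σ.symm l))) : r * hR c i a * r⁻¹ = y := by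
  have h1 := L.mono_SS h (ne_succ i) (hR_mem c i a)
  have h2 : SS c (σ i) (σ (i + 1)) = SS c j k := by
    rcases hs with ⟨h3, h4⟩ | ⟨h3, h4⟩
    · rw [h3, h4]
    · rw [h3, h4, SS_symm]
  rw [h2] at h1
  apply L.eq_of_SS hjk h1 hy
  rw [map_mul, map_mul, map_inv, mul_inv_eq_iff_eq_mul]
  have h3 := h.mul (L.hR_mono i a)
  have h4 := hm.mul h
  rw [mul_one] at h3
  rw [one_mul] at h4
  refine h3.ext ?_
  have e : (fun l => b ((1 : Equiv.Perm (Fin 3)) l) * dC i (a : K) l) =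
      (fun j => (fun l => dC i (a : K) (σ.symm l)) (σ j) * b j) := by
    ext l
    simp [mul_comm]
  rw [e]
  exact h4

theorem hR_one (i : Fin 3) : hR c i 1 = 1 := by
  have := L.hR_mul i 1 1
  rw [mul_one] at this
  exact left_eq_mul.1 this

theorem hR_inv (i : Fin 3) (a : Kˣ) : hR c i a⁻¹ = (hR c i a)⁻¹ := by
  apply eq_inv_of_mul_eq_one_left
  rw [← L.hR_mul, inv_mul_cancel, L.hR_one]

theorem hR_comm (i j : Fin 3) (a b : Kˣ) : hR c i a * hR c j b = hR c j b * hR c i a := by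
  have h1 := L.conj_hR (L.hR_mono i a) j b (hR c j b) j (j + 1) (ne_succ j) (hR_mem c j b)
    (Or.inl ⟨rfl, rfl⟩) (L.hR_mono j b)
  rw [mul_inv_eq_iff_eq_mul] at h1
  exact h1

end Lifts

end Pool.Agent.Lib.MP_6b0fe3_coR
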