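import Mathlib

/-! MP_6b0fe3_co, L3: the cyclic monomial subgroup of SL3(q) has index prime to 3 -/

namespace Pool.Agent.Lib.MP_6b0fe3_coR

open Matrix

section
variable {K : Type*} [Field K]

theorem slT_mul (A B : SpecialLinearGroup (Fin 3) K) : (A * B).1 = A.1 * B.1 := rfl

theorem slT_one : (1 : SpecialLinearGroup (Fin 3) K).1 = 1 := rfl

theorem slT_inv (A : SpecialLinearGroup (Fin 3) K) : A.1 * (A⁻¹).1 = 1 := by
  rw [← slT_mul, mul_inv_cancel, slT_one]

/-- the monomial matrices of determinant one whose permutation is a rotation -/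
def cycJ (K : Type*) [Field K] : Subgroup (SpecialLinearGroup (Fin 3) K) where
  carrier := {A | ∃ k : Fin 3, ∀ i j, A.1 i j ≠ 0 → j = i + k}
  mul_mem' := by
    rintro A B ⟨k, hk⟩ ⟨l, hl⟩
    refine ⟨k + l, fun i j h => ?_⟩
    rw [slT_mul, Matrix.mul_apply] at h
    obtain ⟨n, -, hn⟩ := Finset.exists_ne_zero_of_sum_ne_zero h
    have h1 := hk i n (left_ne_zero_of_mul hn)
    have h2 := hl n j (right_ne_zero_of_mul hn)
    rw [h2, h1, add_assoc]
  one_mem' := by
    refine ⟨0, fun i j h => ?_⟩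
    rw [slT_one, Matrix.one_apply] at h
    rw [add_zero]
    by_contra hne
    exact h (if_neg fun h2 => hne h2.symm)
  inv_mem' := by
    rintro A ⟨k, hk⟩
    have key : ∀ i j, A.1 i (i + k) * (A⁻¹).1 (i + k) j = if i = j then 1 else 0 := by
      intro i j
      have h1 : (A.1 * (A⁻¹).1) i j = if i = j then 1 else 0 := by
        rw [slT_inv, Matrix.one_apply]
      rw [← h1, Matrix.mul_apply]
      symm
      apply Finset.sum_eq_single (i + k)
      · intro l _ hl
        by_cases h0 : A.1 i l = 0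
        · rw [h0, zero_mul]
        · exact absurd (hk i l h0) hl
      · intro h
        exact absurd (Finset.mem_univ _) h
    refine ⟨-k, fun i j h => ?_⟩
    have h1 := key (i - k) j
    rw [sub_add_cancel] at h1
    have h2 : A.1 (i - k) i ≠ 0 := by
      intro h0
      have := key (i - k) (i - k)
      rw [sub_add_cancel, h0, zero_mul, if_pos rfl] at this
      exact zero_ne_one this
    by_contra hne
    rw [if_neg (fun h3 => hne (by rw [← h3, sub_eq_add_neg]))] at h1
    exact (mul_ne_zero h2 h) h1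

theorem mem_cycJ {A : SpecialLinearGroup (Fin 3) K} :
    A ∈ cycJ K ↔ ∃ k : Fin 3, ∀ i j, A.1 i j ≠ 0 → j = i + k := Iff.rfl

/-- the element of `cycJ` with given permutation and entries -/
def cycM (k : Fin 3) (a b : Kˣ) : Matrix (Fin 3) (Fin 3) K :=
  fun i j => if j = i + k then (![(a : K), b, ((a * b)⁻¹ : Kˣ)] : Fin 3 → K) i else 0

theorem cycM_det (k : Fin 3) (a b : Kˣ) : (cycM k a b).det = 1 := by
  have ha : (a : K) ≠ 0 := a.ne_zero
  have hb : (b : K) ≠ 0 := b.ne_zero
  rw [Matrix.det_fin_three]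
  fin_cases k <;> simp [cycM, Fin.ext_iff] <;> field_simp

/-- the parametrisation of `cycJ` -/
def cycF (z : Fin 3 × Kˣ × Kˣ) : cycJ K :=
  ⟨⟨cycM z.1 z.2.1 z.2.2, cycM_det _ _ _⟩, z.1, fun i j h => by
    by_contra hne
    exact h (if_neg hne)⟩

theorem cycF_injective : Function.Injective (cycF (K := K)) := by
  rintro ⟨k, a, b⟩ ⟨k', a', b'⟩ h
  have h1 : cycM k a b = cycM k' a' b' := congrArg (fun z : cycJ K => z.1.1) h
  have h0 := congrFun (congrFun h1 0) k
  have e0 : cycM k a b 0 k = a := by simp [cycM]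
  have hk : k = k' := by
    by_contra hne
    rw [e0] at h0
    have : cycM k' a' b' 0 k = 0 := by simp [cycM, hne]
    rw [this] at h0
    exact a.ne_zero h0
  subst hk
  have e0' : cycM k a' b' 0 k = a' := by simp [cycM]
  have h2 := congrFun (congrFun h1 1) (1 + k)
  have e1 : cycM k a b 1 (1 + k) = b := by simp [cycM]
  have e1' : cycM k a' b' 1 (1 + k) = b' := by simp [cycM]
  rw [e0, e0'] at h0
  rw [e1, e1'] at h2
  rw [Units.ext h0, Units.ext h2]

theorem cycF_surjective : Function.Surjective (cycF (K := K)) := by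
  rintro ⟨A, k, hk⟩
  have hz : ∀ i j, j ≠ i + k → A.1 i j = 0 := by
    intro i j h
    by_contra h2
    exact h (hk i j h2)
  have hd : A.1 0 (0 + k) * A.1 1 (1 + k) * A.1 2 (2 + k) = 1 := by
    have h := A.2
    rw [Matrix.det_fin_three] at h
    fin_cases k
    · have z1 := hz 0 1 (by decide)
      have z2 := hz 0 2 (by decide)
      have z3 := hz 1 2 (by decide)
      rw [z1, z2, z3] at h
      change A.1 0 0 * A.1 1 1 * A.1 2 2 = 1
      linear_combination h
    · have z1 := hz 0 0 (by decide)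
      have z2 := hz 0 2 (by decide)
      rw [z1, z2] at h
      have z3 := hz 1 0 (by decide)
      have z4 := hz 1 1 (by decide)
      rw [z3] at h
      change A.1 0 1 * A.1 1 2 * A.1 2 0 = 1
      linear_combination h
    · have z1 := hz 0 0 (by decide)
      have z2 := hz 0 1 (by decide)
      have z3 := hz 1 1 (by decide)
      rw [z1, z2, z3] at h
      change A.1 0 2 * A.1 1 0 * A.1 2 1 = 1
      linear_combination h
  have h0 : A.1 0 (0 + k) ≠ 0 := by
    intro h
    rw [h, zero_mul, zero_mul] at hd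
    exact zero_ne_one hd
  have h1 : A.1 1 (1 + k) ≠ 0 := by
    intro h
    rw [h, mul_zero, zero_mul] at hd
    exact zero_ne_one hd
  refine ⟨(k, Units.mk0 _ h0, Units.mk0 _ h1), ?_⟩
  apply Subtype.ext
  apply Subtype.ext
  ext i j
  change (if j = i + k then _ else 0) = A.1 i j
  by_cases hij : j = i + k
  · rw [if_pos hij, hij]
    fin_cases i
    · rfl
    · rfl
    · change (((Units.mk0 _ h0) * (Units.mk0 _ h1))⁻¹ : Kˣ).1 = A.1 2 (2 + k)
      rw [Units.val_inv_eq_inv_val]
      apply inv_eq_of_mul_eq_one_right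
      exact hd
  · rw [if_neg hij, hz i j hij]

theorem card_cycJ [Fintype K] : Nat.card (cycJ K) = 3 * (Fintype.card K - 1) ^ 2 := by
  classical
  rw [← Nat.card_eq_of_bijective _ ⟨cycF_injective (K := K), cycF_surjective⟩, Nat.card_prod,
    Nat.card_prod, Nat.card_eq_fintype_card, Fintype.card_fin, Nat.card_eq_fintype_card,
    Fintype.card_units]
  ring

theorem card_sl3 [Fintype K] : Nat.card (SpecialLinearGroup (Fin 3) K) * (Fintype.card K - 1) =
    (Fintype.card K ^ 3 - 1) * (Fintype.card K ^ 3 - Fintype.card K) *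
      (Fintype.card K ^ 3 - Fintype.card K ^ 2) := by
  classical
  have h1 := Matrix.card_GL_field (𝔽 := K) 3
  rw [Fin.prod_univ_three] at h1
  have h2 : Function.Surjective (GeneralLinearGroup.det : GL (Fin 3) K →* Kˣ) := by
    intro u
    refine ⟨GeneralLinearGroup.mkOfDetNeZero (Matrix.diagonal ![(u : K), 1, 1]) ?_, ?_⟩
    · rw [Matrix.det_diagonal, Fin.prod_univ_three]
      simp
    · apply Units.ext
      change (Matrix.diagonal ![(u : K), 1, 1]).det = u
      rw [Matrix.det_diagonal, Fin.prod_univ_three]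
      simp
  have h3 : Nat.card (SpecialLinearGroup (Fin 3) K) =
      Nat.card (GeneralLinearGroup.det : GL (Fin 3) K →* Kˣ).ker := by
    have e : Set.range (SpecialLinearGroup.toGL : SpecialLinearGroup (Fin 3) K → GL (Fin 3) K) =
        ((GeneralLinearGroup.det : GL (Fin 3) K →* Kˣ).ker : Set (GL (Fin 3) K)) := by
      rw [SpecialLinearGroup.range_toGL]
      ext A
      simp [MonoidHom.mem_ker]
    rw [← Nat.card_range_of_injective SpecialLinearGroup.toGL_injective, e]
    rfl
  have h4 := Subgroup.card_eq_card_quotient_mul_card_subgroup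
    (GeneralLinearGroup.det : GL (Fin 3) K →* Kˣ).ker
  rw [Nat.card_congr (QuotientGroup.quotientKerEquivOfSurjective _ h2).toEquiv, ← h3,
    Nat.card_eq_fintype_card (α := Kˣ), Fintype.card_units] at h4
  rw [mul_comm, ← h4, h1]
  simp

theorem cycJ_index [Fintype K] (hq : Fintype.card K % 3 = 1) : Nat.Coprime 3 (cycJ K).index := by
  have h1 := (cycJ K).card_mul_index
  have h2 := card_sl3 (K := K)
  have hq1 : 1 < Fintype.card K := Fintype.one_lt_card
  rw [← h1, card_cycJ] at h2
  obtain ⟨m, hm⟩ : ∃ m, Fintype.card K = 3 * m + 1 := ⟨Fintype.card K / 3, by omega⟩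
  have hm0 : 0 < m := by omega
  rw [hm] at h2
  have e1 : 3 * m + 1 - 1 = 3 * m := by omega
  have e2 : (3 * m + 1) ^ 3 - 1 = 3 * m * (9 * m ^ 2 + 9 * m + 3) := by
    have : (3 * m + 1) ^ 3 = 3 * m * (9 * m ^ 2 + 9 * m + 3) + 1 := by ring
    rw [this]
    omega
  have e3 : (3 * m + 1) ^ 3 - (3 * m + 1) = 3 * m * ((3 * m + 1) * (3 * m + 2)) := by
    have : (3 * m + 1) ^ 3 = 3 * m * ((3 * m + 1) * (3 * m + 2)) + (3 * m + 1) := by ring
    rw [this]
    omega
  have e4 : (3 * m + 1) ^ 3 - (3 * m + 1) ^ 2 = 3 * m * (3 * m + 1) ^ 2 := by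
    have : (3 * m + 1) ^ 3 = 3 * m * (3 * m + 1) ^ 2 + (3 * m + 1) ^ 2 := by ring
    rw [this]
    omega
  rw [e1, e2, e3, e4] at h2
  have h3 : (cycJ K).index = (3 * m ^ 2 + 3 * m + 1) * ((3 * m + 1) ^ 3 * (3 * m + 2)) := by
    have h5 : (81 * m ^ 3) * (cycJ K).index =
        (81 * m ^ 3) * ((3 * m ^ 2 + 3 * m + 1) * ((3 * m + 1) ^ 3 * (3 * m + 2))) := by
      have : 3 * (3 * m) ^ 2 * (cycJ K).index * (3 * m) = (81 * m ^ 3) * (cycJ K).index := by ring
      rw [← this, h2]
      ring
    exact Nat.eq_of_mul_eq_mul_left (by positivity) h5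
  rw [Nat.Prime.coprime_iff_not_dvd Nat.prime_three, h3]
  intro hd
  have p3 := Nat.prime_three
  rcases (Nat.Prime.dvd_mul p3).1 hd with h | h
  · omega
  · rcases (Nat.Prime.dvd_mul p3).1 h with h | h
    · have := p3.dvd_of_dvd_pow h
      omega
    · omega

end

end Pool.Agent.Lib.MP_6b0fe3_coR
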