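import Pool.Agent.Lib.MP_6b0fe3_coR.GrpTa

/-! MP_6b0fe3_co, L3: monomial matrices and transvections -/

namespace Pool.Agent.Lib.MP_6b0fe3_coR

open Matrix

section
variable {K : Type*} [Field K]

/-- `A` maps the basis vector `j` to `a j` times the basis vector `σ j` -/
def Mono (A : SpecialLinearGroup (Fin 3) K) (σ : Equiv.Perm (Fin 3)) (a : Fin 3 → K) : Prop :=
  ∀ i j, A.1 i j = if i = σ j then a j else 0

theorem Mono.ext {A B : SpecialLinearGroup (Fin 3) K} {σ : Equiv.Perm (Fin 3)} {a : Fin 3 → K}
    (hA : Mono A σ a) (hB : Mono B σ a) : A = B := by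
  apply Subtype.ext
  ext i j
  rw [hA, hB]

theorem mono_one : Mono (1 : SpecialLinearGroup (Fin 3) K) 1 1 := by
  intro i j
  rw [slT_one, Matrix.one_apply]
  rfl

theorem Mono.mul {A B : SpecialLinearGroup (Fin 3) K} {σ τ : Equiv.Perm (Fin 3)}
    {a b : Fin 3 → K} (hA : Mono A σ a) (hB : Mono B τ b) :
    Mono (A * B) (σ * τ) (fun j => a (τ j) * b j) := by
  intro i j
  rw [slT_mul, Matrix.mul_apply]
  have : ∀ l, A.1 i l * B.1 l j = if l = τ j then (if i = σ (τ j) then a (τ j) * b j else 0)
      else 0 := by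
    intro l
    rw [hA, hB]
    by_cases h : l = τ j
    · rw [if_pos h, if_pos h, h]
      by_cases h2 : i = σ (τ j)
      · rw [if_pos h2, if_pos h2]
      · rw [if_neg h2, if_neg h2, zero_mul]
    · rw [if_neg h, if_neg h, mul_zero]
  rw [Finset.sum_congr rfl fun l _ => this l, Finset.sum_ite_eq' Finset.univ (τ j),
    if_pos (Finset.mem_univ _)]
  rfl

theorem Mono.ne_zero {A : SpecialLinearGroup (Fin 3) K} {σ : Equiv.Perm (Fin 3)} {a : Fin 3 → K}
    (hA : Mono A σ a) (j : Fin 3) : a j ≠ 0 := by
  intro h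
  have h1 := A.2
  rw [Matrix.det_eq_zero_of_column_eq_zero j (fun i => by
    change A.1 i j = 0
    rw [hA, h]
    simp)] at h1
  exact zero_ne_one h1

/-- conjugation of a transvection by a monomial matrix -/
theorem Mono.conj {A : SpecialLinearGroup (Fin 3) K} {σ : Equiv.Perm (Fin 3)} {a : Fin 3 → K}
    (hA : Mono A σ a) {k l : Fin 3} (hkl : k ≠ l) (t : K) :
    A * SpecialLinearGroup.transvection hkl t =
      SpecialLinearGroup.transvection (σ.injective.ne hkl) (a k * t * (a l)⁻¹) * A := by
  apply Subtype.ext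
  rw [slT_mul, slT_mul]
  have hl := hA.ne_zero l
  change A.1 * (1 + Matrix.single k l t) = (1 + Matrix.single (σ k) (σ l) (a k * t * (a l)⁻¹)) * A.1
  rw [mul_add, mul_one, add_mul, one_mul]
  congr 1
  ext i j
  by_cases hj : j = l
  · rw [hj, Matrix.mul_single_apply_same, hA]
    by_cases hi : i = σ k
    · rw [hi, if_pos rfl, Matrix.single_mul_apply_same, hA, if_pos rfl]
      field_simp
    · rw [if_neg hi, zero_mul, Matrix.single_mul_apply_of_ne _ _ _ _ _ hi]
  · rw [Matrix.mul_single_apply_of_ne _ _ _ _ _ hj]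
    by_cases hi : i = σ k
    · rw [hi, Matrix.single_mul_apply_same, hA, if_neg (fun h => hj (σ.injective h).symm),
        mul_zero]
    · rw [Matrix.single_mul_apply_of_ne _ _ _ _ _ hi]

/-- the coefficients of the standard monomial element -/
def wC (i : Fin 3) (a : K) : Fin 3 → K := fun l => if l = i then -a⁻¹ else if l = i + 1 then a else 1

/-- the coefficients of the torus element -/
def dC (i : Fin 3) (a : K) : Fin 3 → K := fun l => if l = i then a else if l = i + 1 then a⁻¹ else 1

theorem ne_succ (i : Fin 3) : i ≠ i + 1 := by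
  fin_cases i <;> decide

theorem mono_w (i : Fin 3) {a : K} (ha : a ≠ 0) :
    Mono (SpecialLinearGroup.transvection (ne_succ i) a *
      SpecialLinearGroup.transvection (ne_succ i).symm (-a⁻¹) *
      SpecialLinearGroup.transvection (ne_succ i) a) (Equiv.swap i (i + 1)) (wC i a) := by
  have e : (SpecialLinearGroup.transvection (ne_succ i) a *
      SpecialLinearGroup.transvection (ne_succ i).symm (-a⁻¹) *
      SpecialLinearGroup.transvection (ne_succ i) a).1 =
      (1 + Matrix.single i (i + 1) a) * (1 + Matrix.single (i + 1) i (-a⁻¹)) *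
        (1 + Matrix.single i (i + 1) a) := rfl
  intro k j
  rw [e]
  fin_cases i <;> fin_cases k <;> fin_cases j <;>
    simp [Matrix.mul_apply, Fin.sum_univ_three, Matrix.single_apply, Matrix.one_apply, wC,
      Equiv.swap_apply_def, ha]

end

end Pool.Agent.Lib.MP_6b0fe3_coR
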