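import Pool.Agent.Lib.MP_6b0fe3_coR.GrpT

/-! MP_6b0fe3_co, L3: a central extension of SL3(q) with exact root elements is trivial, II -/

namespace Pool.Agent.Lib.MP_6b0fe3_coR

open Matrix
open scoped commutatorElement

/-- a finite group of order dividing 3 has commuting automorphisms -/
theorem mulAut_comm_of_card {G : Type*} [Group G] (h : Nat.card G ∣ 3) (f g : MulAut G) :
    f * g = g * f := by
  have hc : IsCyclic G := by
    rcases (Nat.dvd_prime Nat.prime_three).1 h with h1 | h1
    · have : Subsingleton G := (Nat.card_eq_one_iff_unique.1 h1).1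
      exact isCyclic_of_subsingleton
    · have : Fact (Nat.Prime 3) := ⟨Nat.prime_three⟩
      exact isCyclic_of_prime_card (p := 3) h1
  apply (IsCyclic.mulAutMulEquiv G).injective
  rw [map_mul, map_mul, mul_comm]

/-- a perfect group acts trivially on a normal subgroup of order dividing 3 -/
theorem central_of_perfect {R : Type*} [Group R] (hR : commutator R = ⊤) (N : Subgroup R)
    [N.Normal] (hN : Nat.card N ∣ 3) {x : R} (hx : x ∈ N) (r : R) : r * x = x * r := by
  have h1 : commutator R ≤ (MulAut.conjNormal (H := N)).ker := by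
    rw [commutator_def, Subgroup.commutator_le]
    intro g _ g' _
    rw [MonoidHom.mem_ker, map_commutatorElement, commutatorElement_eq_one_iff_mul_comm]
    exact mulAut_comm_of_card hN _ _
  have h2 : r ∈ (MulAut.conjNormal (H := N)).ker := h1 (by rw [hR]; trivial)
  rw [MonoidHom.mem_ker] at h2
  have h3 := MulAut.conjNormal_apply r (⟨x, hx⟩ : N)
  rw [h2] at h3
  have h4 : x = r * x * r⁻¹ := h3
  rw [eq_mul_inv_iff_mul_eq] at h4
  exact h4.symm

/-- transfer argument -/
theorem transfer_trivial {R : Type*} [Group R] [Finite R] (hR : commutator R = ⊤)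
    (J T : Subgroup R) (hJT : ∀ x ∈ J, ∀ y ∈ J, x * y * x⁻¹ * y⁻¹ ∈ T) {g : R}
    (hc : ∀ r, r * g = g * r) (hT : ∀ n : ℕ, g ^ n ∈ T → g ^ n = 1) (h3 : g ^ 3 = 1)
    (hidx : Nat.Coprime 3 J.index) : g = 1 := by
  have key : ∀ (k : ℕ) (g₀ : R), g₀⁻¹ * g ^ k * g₀ ∈ J → g₀⁻¹ * g ^ k * g₀ = g ^ k := by
    intro k g₀ _
    have h1 : Commute g₀ (g ^ k) := Commute.pow_right (hc g₀) k
    rw [mul_assoc, ← h1.eq, inv_mul_cancel_left]
  have hfin : J.FiniteIndex := inferInstance
  have h1 := MonoidHom.transfer_eq_pow (Abelianization.of : J →* Abelianization J) g key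
  have h2 : MonoidHom.transfer (Abelianization.of : J →* Abelianization J) g = 1 := by
    have h5 : commutator R ≤
        (MonoidHom.transfer (Abelianization.of : J →* Abelianization J)).ker := by
      rw [commutator_def, Subgroup.commutator_le]
      intro a _ b _
      rw [MonoidHom.mem_ker, map_commutatorElement, commutatorElement_eq_one_iff_mul_comm]
      exact mul_comm _ _
    exact MonoidHom.mem_ker.1 (h5 (by rw [hR]; trivial))
  rw [h2] at h1
  have h4 : (⟨g ^ J.index, MonoidHom.transfer_eq_pow_aux g key⟩ : J) ∈ commutator J := by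
    rw [← Abelianization.ker_of, MonoidHom.mem_ker]
    exact h1.symm
  have h5 : commutator J ≤ T.subgroupOf J := by
    rw [commutator_def, Subgroup.commutator_le]
    intro a _ b _
    rw [Subgroup.mem_subgroupOf]
    exact hJT a.1 a.2 b.1 b.2
  have h6 : g ^ J.index ∈ T := h5 h4
  have h7 := hT _ h6
  have h8 : orderOf g ∣ 3 := orderOf_dvd_of_pow_eq_one h3
  have h9 : orderOf g ∣ J.index := orderOf_dvd_of_pow_eq_one h7
  have h10 : orderOf g ∣ 1 := by
    rw [← Nat.Coprime.gcd_eq_one hidx]
    exact Nat.dvd_gcd h8 h9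
  exact orderOf_eq_one_iff.1 (Nat.dvd_one.1 h10)

namespace Lifts
variable {K : Type*} [Field K] {R : Type*} [Group R]
  {π : R →* SpecialLinearGroup (Fin 3) K} {c : Fin 3 → Fin 3 → K → R}
variable (L : Lifts π c)
include L

/-- the group of the lifts is perfect -/
theorem perfect [Fintype K] (hq : 3 < Fintype.card K) : commutator R = ⊤ := by
  classical
  -- an element with `a ^ 2 ≠ 1`
  obtain ⟨a, ha⟩ : ∃ a : Kˣ, (a : K) * a ≠ 1 := by
    by_contra hno
    push Not at hno
    have hs : (Finset.univ : Finset Kˣ) ⊆ {1, -1} := by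
      intro a _
      have h1 := hno a
      have h2 : ((a : K) - 1) * (a + 1) = 0 := by linear_combination h1
      rw [Finset.mem_insert, Finset.mem_singleton]
      rcases mul_eq_zero.1 h2 with h3 | h3
      · left
        apply Units.ext
        rw [Units.val_one]
        linear_combination h3
      · right
        apply Units.ext
        rw [Units.val_neg, Units.val_one]
        linear_combination h3
    have h4 := Finset.card_le_card hs
    rw [Finset.card_univ, Fintype.card_units] at h4
    have h5 : ({1, -1} : Finset Kˣ).card ≤ 2 := Finset.card_le_two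
    omega
  rw [eq_top_iff, ← L.gen, Subgroup.closure_le]
  rintro x ⟨i, j, t, hij, rfl⟩
  -- a torus element scaling `c i j`
  have key : ∀ (r : R) (b : Fin 3 → K), Mono (π r) 1 b → b i * (b j)⁻¹ ≠ 1 →
      c i j t ∈ (commutator R : Set R) := by
    intro r b hm hne
    have hne' : b i * (b j)⁻¹ - 1 ≠ 0 := sub_ne_zero.2 hne
    set s : K := t / (b i * (b j)⁻¹ - 1) with hs
    have h1 := L.mono_c hm hij s
    have h2 : c i j t = ⁅r, c i j s⁆ := by
      rw [commutatorElement_def, h1, eq_mul_inv_iff_mul_eq, Equiv.Perm.one_apply,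
        Equiv.Perm.one_apply, ← L.c_add hij]
      congr 1
      have h5 : s * (b i * (b j)⁻¹ - 1) = t := div_mul_cancel₀ _ hne'
      linear_combination (-1 : K) * h5
    rw [h2]
    exact Subgroup.commutator_mem_commutator (Subgroup.mem_top _) (Subgroup.mem_top _)
  have hij' : j = i + 1 ∨ i = j + 1 := by
    revert hij
    revert i j
    intro i j
    fin_cases i <;> fin_cases j <;> simp
  rcases hij' with rfl | rfl
  · refine key (hR c i a) _ (L.hR_mono i a) ?_
    simp only [dC, if_pos, if_neg (ne_succ i).symm, inv_inv]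
    exact ha
  · refine key (hR c j a) _ (L.hR_mono j a) ?_
    simp only [dC, if_pos, if_neg (ne_succ j).symm]
    intro h
    apply ha
    have ha0 := a.ne_zero
    field_simp at h
    rw [← pow_two, ← h]

/-- the product of the three torus elements is trivial -/
theorem chi_eq_one [Fintype K] (hq : 3 < Fintype.card K) (hk : Nat.card π.ker ∣ 3) (a : Kˣ) :
    hR c 2 a * hR c 0 a * hR c 1 a = 1 := by
  have hperf := L.perfect hq
  set χ : R := hR c 2 a * hR c 0 a * hR c 1 a with hχ
  have ha0 : (a : K) ≠ 0 := a.ne_zero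
  have hker : χ ∈ π.ker := by
    rw [MonoidHom.mem_ker, hχ, map_mul, map_mul]
    refine (((L.hR_mono 2 a).mul (L.hR_mono 0 a)).mul (L.hR_mono 1 a)).ext ?_
    intro i j
    rw [slT_one]
    fin_cases i <;> fin_cases j <;> simp [dC, ha0]
  have hcen := central_of_perfect hperf π.ker hk hker
  have hn := L.wR_mono 0 (a := (1 : K)) one_ne_zero
  set n : R := wR c 0 (1 : K) with hnd
  have c0 : n * hR c 0 a * n⁻¹ = hR c 0 a⁻¹ := by
    refine L.conj_hR hn 0 a _ 0 1 (by decide) (hR_mem c 0 _) (Or.inr ⟨by decide, by decide⟩) ?_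
    have := L.hR_mono 0 a⁻¹
    convert this using 1
    ext l
    fin_cases l <;> simp [dC, Equiv.swap_apply_def]
  have c1 : n * hR c 1 a * n⁻¹ = hR c 2 a⁻¹ := by
    refine L.conj_hR hn 1 a _ 0 2 (by decide) ?_ (Or.inl ⟨by decide, by decide⟩) ?_
    · rw [SS_symm]
      exact hR_mem c 2 _
    have := L.hR_mono 2 a⁻¹
    convert this using 1
    ext l
    fin_cases l <;> simp [dC, Equiv.swap_apply_def]
  have c2 : n * hR c 2 a * n⁻¹ = hR c 1 a⁻¹ := by
    refine L.conj_hR hn 2 a _ 2 1 (by decide) ?_ (Or.inl ⟨by decide, by decide⟩) ?_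
    · rw [SS_symm]
      exact hR_mem c 1 _
    have := L.hR_mono 1 a⁻¹
    convert this using 1
    ext l
    fin_cases l <;> simp [dC, Equiv.swap_apply_def]
  have h1 : n * χ * n⁻¹ = χ⁻¹ := by
    have : n * χ * n⁻¹ = (n * hR c 2 a * n⁻¹) * (n * hR c 0 a * n⁻¹) * (n * hR c 1 a * n⁻¹) := by
      rw [hχ]
      group
    rw [this, c0, c1, c2, L.hR_inv, L.hR_inv, L.hR_inv, hχ]
    group
  rw [hcen n, mul_inv_cancel_right] at h1
  have h2 : χ ^ 2 = 1 := by
    rw [pow_two]
    nth_rewrite 2 [h1]
    exact mul_inv_cancel _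
  have h3 : χ ^ 3 = 1 := by
    have h4 : orderOf (⟨χ, hker⟩ : π.ker) ∣ 3 := orderOf_dvd_natCard _ |>.trans hk
    have h5 := orderOf_dvd_iff_pow_eq_one.1 h4
    exact congrArg Subtype.val h5
  have h4 : χ ^ 3 = χ ^ 2 * χ := pow_succ χ 2
  rw [h3, h2, one_mul] at h4
  exact h4.symm

end Lifts

end Pool.Agent.Lib.MP_6b0fe3_coR
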