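import Pool.Agent.Lib.MP_6b0fe3_coR.Vec

/-! MP_6b0fe3_co: the Heisenberg group of a flag over any field -/

namespace Pool.Agent.Lib.MP_6b0fe3_coR

open Matrix

/-- the Heisenberg group over `K` -/
@[ext] structure HeisK (K : Type*) where
  a : K
  b : K
  c : K

namespace HeisK
variable {K : Type*} [Field K]

instance : Mul (HeisK K) := ⟨fun x y => ⟨x.a + y.a, x.b + y.b, x.c + y.c + x.a * y.b⟩⟩
instance : One (HeisK K) := ⟨⟨0, 0, 0⟩⟩
instance : Inv (HeisK K) := ⟨fun x => ⟨-x.a, -x.b, -x.c + x.a * x.b⟩⟩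

theorem mul_def (x y : HeisK K) : x * y = ⟨x.a + y.a, x.b + y.b, x.c + y.c + x.a * y.b⟩ := rfl
theorem one_def : (1 : HeisK K) = ⟨0, 0, 0⟩ := rfl
theorem inv_def (x : HeisK K) : x⁻¹ = ⟨-x.a, -x.b, -x.c + x.a * x.b⟩ := rfl

instance : Group (HeisK K) :=
  Group.ofLeftAxioms
    (fun x y z => by
      simp only [mul_def]
      ext <;> simp <;> ring)
    (fun x => by
      simp only [mul_def, one_def]
      ext <;> simp)
    (fun x => by
      simp only [mul_def, one_def, inv_def]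
      ext <;> simp)

/-- the equivalence with triples -/
def equivProd : HeisK K ≃ K × K × K where
  toFun x := (x.a, x.b, x.c)
  invFun t := ⟨t.1, t.2.1, t.2.2⟩
  left_inv _ := rfl
  right_inv _ := rfl

instance [Finite K] : Finite (HeisK K) := Finite.of_equiv _ equivProd.symm

omit [Field K] in
theorem card_heis [Fintype K] : Nat.card (HeisK K) = Fintype.card K ^ 3 := by
  rw [Nat.card_congr equivProd, Nat.card_prod, Nat.card_prod, Nat.card_eq_fintype_card]
  ring

theorem isPGroup [Fintype K] {p n : ℕ} [Fact p.Prime] (h : Fintype.card K = p ^ n) :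
    IsPGroup p (HeisK K) :=
  IsPGroup.of_card (n := n * 3) (by rw [card_heis, h, ← pow_mul])

/-- elements with `b = 0` -/
def subE (K : Type*) [Field K] : Subgroup (HeisK K) where
  carrier := {x | x.b = 0}
  mul_mem' := by
    intro x y hx hy
    have hx' : x.b = 0 := hx
    have hy' : y.b = 0 := hy
    change x.b + y.b = 0
    rw [hx', hy', add_zero]
  one_mem' := rfl
  inv_mem' := by
    intro x hx
    have hx' : x.b = 0 := hx
    change -x.b = 0
    rw [hx', neg_zero]

/-- the centre -/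
def subZ (K : Type*) [Field K] : Subgroup (HeisK K) where
  carrier := {x | x.a = 0 ∧ x.b = 0}
  mul_mem' := by
    rintro x y ⟨hx, hx'⟩ ⟨hy, hy'⟩
    refine ⟨?_, ?_⟩
    · change x.a + y.a = 0
      rw [hx, hy, add_zero]
    · change x.b + y.b = 0
      rw [hx', hy', add_zero]
  one_mem' := ⟨rfl, rfl⟩
  inv_mem' := by
    rintro x ⟨hx, hx'⟩
    refine ⟨?_, ?_⟩
    · change -x.a = 0
      rw [hx, neg_zero]
    · change -x.b = 0
      rw [hx', neg_zero]

theorem mem_subE {x : HeisK K} : x ∈ subE K ↔ x.b = 0 := Iff.rfl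
theorem mem_subZ {x : HeisK K} : x ∈ subZ K ↔ x.a = 0 ∧ x.b = 0 := Iff.rfl

theorem card_subE [Fintype K] : Nat.card (subE K) = Fintype.card K ^ 2 := by
  have e : (subE K) ≃ K × K :=
    { toFun := fun x => (x.1.a, x.1.c)
      invFun := fun t => ⟨⟨t.1, 0, t.2⟩, rfl⟩
      left_inv := fun x => by
        apply Subtype.ext
        have hx : x.1.b = 0 := x.2
        ext
        · rfl
        · exact hx.symm
        · rfl
      right_inv := fun t => rfl }
  rw [Nat.card_congr e, Nat.card_prod, Nat.card_eq_fintype_card]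
  ring

theorem card_subZ [Fintype K] : Nat.card (subZ K) = Fintype.card K := by
  have e : (subZ K) ≃ K :=
    { toFun := fun x => x.1.c
      invFun := fun t => ⟨⟨0, 0, t⟩, rfl, rfl⟩
      left_inv := fun x => by
        apply Subtype.ext
        have hx : x.1.a = 0 ∧ x.1.b = 0 := x.2
        ext
        · exact hx.1.symm
        · exact hx.2.symm
        · rfl
      right_inv := fun t => rfl }
  rw [Nat.card_congr e, Nat.card_eq_fintype_card]

/-- a subgroup of index at most `q` whose elements with `b = 0` are central contains the centre -/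
theorem subZ_le [Fintype K] {D : Subgroup (HeisK K)} (hD : D.index ≤ Fintype.card K)
    (h : ∀ x ∈ D, x.b = 0 → x.a = 0) : subZ K ≤ D := by
  classical
  have hq : 0 < Fintype.card K := Fintype.card_pos
  have hDE : D ⊓ subE K ≤ subZ K := by
    rintro x ⟨hx, hx'⟩
    exact ⟨h x hx hx', hx'⟩
  have hE : (subE K).index = Fintype.card K := by
    have := (subE K).card_mul_index
    rw [card_subE, card_heis] at this
    have h2 : Fintype.card K ^ 2 * (subE K).index = Fintype.card K ^ 2 * Fintype.card K := by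
      rw [this]; ring
    exact Nat.eq_of_mul_eq_mul_left (by positivity) h2
  have h1 : (D ⊓ subE K).index ≤ Fintype.card K * Fintype.card K :=
    Subgroup.index_inf_le.trans (by rw [hE]; exact Nat.mul_le_mul_right _ hD)
  have h2 := (D ⊓ subE K).card_mul_index
  rw [card_heis] at h2
  have h3 : Fintype.card K ≤ Nat.card (D ⊓ subE K : Subgroup (HeisK K)) := by
    by_contra hlt
    push Not at hlt
    have : Nat.card (D ⊓ subE K : Subgroup (HeisK K)) * (D ⊓ subE K).index <
        Fintype.card K * (Fintype.card K * Fintype.card K) := by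
      calc _ ≤ Nat.card (D ⊓ subE K : Subgroup (HeisK K)) * (Fintype.card K * Fintype.card K) :=
            Nat.mul_le_mul_left _ h1
        _ < _ := Nat.mul_lt_mul_of_pos_right hlt (by positivity)
    rw [h2] at this
    have e : Fintype.card K ^ 3 = Fintype.card K * (Fintype.card K * Fintype.card K) := by ring
    omega
  have h4 : D ⊓ subE K = subZ K :=
    Subgroup.eq_of_le_of_card_ge hDE (by rw [card_subZ]; exact h3)
  rw [← h4]
  exact inf_le_left

end HeisK

section act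
variable {K : Type*} [Field K] (v0 k0 u m : Fin 3 → K)

/-- action on points -/
def hV (d : HeisK K) (v : Fin 3 → K) : Fin 3 → K :=
  v + (d.a * (m ⬝ᵥ v)) • v0 + (d.b * (k0 ⬝ᵥ v)) • u + (d.c * (k0 ⬝ᵥ v)) • v0

/-- action on lines -/
def hK (d : HeisK K) (k : Fin 3 → K) : Fin 3 → K :=
  k - (d.a * (v0 ⬝ᵥ k)) • m - (d.b * (u ⬝ᵥ k)) • k0 + ((d.a * d.b - d.c) * (v0 ⬝ᵥ k)) • k0

/-- the four relations of a Heisenberg basis -/
structure HB : Prop where
  h1 : k0 ⬝ᵥ v0 = 0
  h2 : m ⬝ᵥ v0 = 0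
  h3 : k0 ⬝ᵥ u = 0
  h4 : m ⬝ᵥ u = 1

variable {v0 k0 u m}

theorem hV_mul (h : HB v0 k0 u m) (x y : HeisK K) (v : Fin 3 → K) :
    hV v0 k0 u m (x * y) v = hV v0 k0 u m x (hV v0 k0 u m y v) := by
  obtain ⟨h1, h2, h3, h4⟩ := h
  have e1 : m ⬝ᵥ hV v0 k0 u m y v = m ⬝ᵥ v + y.b * (k0 ⬝ᵥ v) := by
    simp only [hV, dotProduct_add, dotProduct_smul, h2, h4, smul_eq_mul]
    ring
  have e2 : k0 ⬝ᵥ hV v0 k0 u m y v = k0 ⬝ᵥ v := by
    simp only [hV, dotProduct_add, dotProduct_smul, h1, h3, smul_eq_mul]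
    ring
  rw [hV, hV, e1, e2, hV, HeisK.mul_def]
  ext i
  simp only [Pi.add_apply, Pi.smul_apply, smul_eq_mul]
  ring

theorem hK_mul (h : HB v0 k0 u m) (x y : HeisK K) (k : Fin 3 → K) :
    hK v0 k0 u m (x * y) k = hK v0 k0 u m x (hK v0 k0 u m y k) := by
  obtain ⟨h1, h2, h3, h4⟩ := h
  rw [dotProduct_comm] at h1 h2 h3 h4
  have e1 : u ⬝ᵥ hK v0 k0 u m y k = u ⬝ᵥ k - y.a * (v0 ⬝ᵥ k) := by
    simp only [hK, dotProduct_add, dotProduct_sub, dotProduct_smul, h3, h4, smul_eq_mul]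
    ring
  have e2 : v0 ⬝ᵥ hK v0 k0 u m y k = v0 ⬝ᵥ k := by
    simp only [hK, dotProduct_add, dotProduct_sub, dotProduct_smul, h1, h2, smul_eq_mul]
    ring
  rw [hK, hK, e1, e2, hK, HeisK.mul_def]
  ext i
  simp only [Pi.add_apply, Pi.sub_apply, Pi.smul_apply, smul_eq_mul]
  ring

theorem hV_one (v : Fin 3 → K) : hV v0 k0 u m 1 v = v := by
  rw [hV, HeisK.one_def]
  simp

theorem hK_one (k : Fin 3 → K) : hK v0 k0 u m 1 k = k := by
  rw [hK, HeisK.one_def]
  simp

theorem h_dot (h : HB v0 k0 u m) (x : HeisK K) (v k : Fin 3 → K) :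
    hV v0 k0 u m x v ⬝ᵥ hK v0 k0 u m x k = v ⬝ᵥ k := by
  obtain ⟨h1, h2, h3, h4⟩ := h
  rw [dotProduct_comm] at h1 h2 h3 h4
  simp only [hV, hK, dotProduct_add, dotProduct_sub, dotProduct_smul, add_dotProduct,
    smul_dotProduct, smul_eq_mul, h1, h2, h3, h4, dotProduct_comm v m, dotProduct_comm v k0]
  ring

/-- the linear equivalence on points -/
def heisA (h : HB v0 k0 u m) (d : HeisK K) : (Fin 3 → K) ≃ₗ[K] (Fin 3 → K) where
  toFun := hV v0 k0 u m d
  invFun := hV v0 k0 u m d⁻¹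
  map_add' x y := by
    simp only [hV, dotProduct_add]
    module
  map_smul' c x := by
    simp only [hV, dotProduct_smul, smul_eq_mul, RingHom.id_apply]
    module
  left_inv x := by rw [← hV_mul h, inv_mul_cancel, hV_one]
  right_inv x := by rw [← hV_mul h, mul_inv_cancel, hV_one]

/-- the linear equivalence on lines -/
def heisB (h : HB v0 k0 u m) (d : HeisK K) : (Fin 3 → K) ≃ₗ[K] (Fin 3 → K) where
  toFun := hK v0 k0 u m d
  invFun := hK v0 k0 u m d⁻¹
  map_add' x y := by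
    simp only [hK, dotProduct_add]
    module
  map_smul' c x := by
    simp only [hK, dotProduct_smul, smul_eq_mul, RingHom.id_apply]
    module
  left_inv x := by rw [← hK_mul h, inv_mul_cancel, hK_one]
  right_inv x := by rw [← hK_mul h, mul_inv_cancel, hK_one]

theorem heisA_apply (h : HB v0 k0 u m) (d : HeisK K) (v : Fin 3 → K) :
    heisA h d v = hV v0 k0 u m d v := rfl

theorem heisB_apply (h : HB v0 k0 u m) (d : HeisK K) (k : Fin 3 → K) :
    heisB h d k = hK v0 k0 u m d k := rfl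

theorem h_flag (h : HB v0 k0 u m) (x : HeisK K) {v k : Fin 3 → K} (hf : IsFlag v k) :
    IsFlag (hV v0 k0 u m x v) (hK v0 k0 u m x k) := by
  refine ⟨?_, ?_, ?_⟩
  · rw [← heisA_apply h]
    exact (LinearEquiv.map_ne_zero_iff _).2 hf.1
  · rw [← heisB_apply h]
    exact (LinearEquiv.map_ne_zero_iff _).2 hf.2.1
  · rw [h_dot h]
    exact hf.2.2

theorem hV_v0 (h : HB v0 k0 u m) (d : HeisK K) : hV v0 k0 u m d v0 = v0 := by
  rw [hV, h.h1, h.h2]
  simp

theorem hK_k0 (h : HB v0 k0 u m) (d : HeisK K) : hK v0 k0 u m d k0 = k0 := by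
  rw [hK, dotProduct_comm v0 k0, dotProduct_comm u k0, h.h1, h.h3]
  simp

/-- the Heisenberg group acts freely on the opposite flags -/
theorem heis_free (h : HB v0 k0 u m) (hk0 : k0 ≠ 0) (hum : v0 ⨯₃ u ≠ 0)
    (hkm : k0 ⨯₃ m ≠ 0) {v k : Fin 3 → K} (hv : v ⬝ᵥ k0 ≠ 0) (hk : v0 ⬝ᵥ k ≠ 0)
    (d : HeisK K) (h1 : v ⨯₃ hV v0 k0 u m d v = 0) (h2 : k ⨯₃ hK v0 k0 u m d k = 0) : d = 1 := by
  have hv' : v ≠ 0 := by
    rintro rfl
    rw [zero_dotProduct] at hv
    exact hv rfl
  have hk' : k ≠ 0 := by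
    rintro rfl
    rw [dotProduct_zero] at hk
    exact hk rfl
  have hA : hV v0 k0 u m d v ≠ 0 := by
    rw [← heisA_apply h]
    exact (LinearEquiv.map_ne_zero_iff _).2 hv'
  have hB : hK v0 k0 u m d k ≠ 0 := by
    rw [← heisB_apply h]
    exact (LinearEquiv.map_ne_zero_iff _).2 hk'
  have hkv : k0 ⬝ᵥ v ≠ 0 := by rwa [dotProduct_comm]
  -- `hV d v = v`
  have eV : hV v0 k0 u m d v = v := by
    obtain ⟨c, hc0, hc1⟩ := (cross_eq_zero_iff hv' hA).1 h1
    have e : k0 ⬝ᵥ hV v0 k0 u m d v = k0 ⬝ᵥ v := by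
      simp only [hV, dotProduct_add, dotProduct_smul, h.h1, h.h3, smul_eq_mul]
      ring
    rw [hc1, dotProduct_smul, smul_eq_mul] at e
    have : c = 1 := mul_right_cancel₀ hkv (by rw [e, one_mul])
    rw [hc1, this, one_smul]
  have eK : hK v0 k0 u m d k = k := by
    obtain ⟨c, hc0, hc1⟩ := (cross_eq_zero_iff hk' hB).1 h2
    have h1' : v0 ⬝ᵥ k0 = 0 := by rw [dotProduct_comm]; exact h.h1
    have h2' : v0 ⬝ᵥ m = 0 := by rw [dotProduct_comm]; exact h.h2
    have e : v0 ⬝ᵥ hK v0 k0 u m d k = v0 ⬝ᵥ k := by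
      simp only [hK, dotProduct_add, dotProduct_sub, dotProduct_smul, h1', h2', smul_eq_mul]
      ring
    rw [hc1, dotProduct_smul, smul_eq_mul] at e
    have : c = 1 := mul_right_cancel₀ hk (by rw [e, one_mul])
    rw [hc1, this, one_smul]
  have e1 : (d.a * (m ⬝ᵥ v) + d.c * (k0 ⬝ᵥ v)) • v0 + (d.b * (k0 ⬝ᵥ v)) • u = 0 := by
    have : hV v0 k0 u m d v = v + ((d.a * (m ⬝ᵥ v) + d.c * (k0 ⬝ᵥ v)) • v0 +
        (d.b * (k0 ⬝ᵥ v)) • u) := by
      rw [hV]
      module
    rw [this] at eV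
    exact add_eq_left.1 eV
  have hb : d.b = 0 := by
    have := congrArg (fun w => v0 ⨯₃ w) e1
    simp only [map_add, map_smul, cross_self, smul_zero, zero_add, map_zero] at this
    rcases smul_eq_zero.1 this with h0 | h0
    · exact (mul_eq_zero.1 h0).resolve_right hkv
    · exact absurd h0 hum
  have e2 : (d.a * (v0 ⬝ᵥ k)) • m + (d.c * (v0 ⬝ᵥ k)) • k0 = 0 := by
    have : hK v0 k0 u m d k = k - ((d.a * (v0 ⬝ᵥ k)) • m + (d.c * (v0 ⬝ᵥ k)) • k0) := by
      rw [hK, hb]
      module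
    rw [this] at eK
    exact sub_eq_self.1 eK
  have ha : d.a = 0 := by
    have := congrArg (fun w => k0 ⨯₃ w) e2
    simp only [map_add, map_smul, cross_self, smul_zero, add_zero, map_zero] at this
    rcases smul_eq_zero.1 this with h0 | h0
    · exact (mul_eq_zero.1 h0).resolve_right hk
    · exact absurd h0 hkm
  have hc : d.c = 0 := by
    rw [ha, zero_mul, zero_smul, zero_add] at e2
    rcases smul_eq_zero.1 e2 with h0 | h0
    · exact (mul_eq_zero.1 h0).resolve_right hk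
    · exact absurd h0 hk0
  ext
  · exact ha
  · exact hb
  · exact hc

end act

end Pool.Agent.Lib.MP_6b0fe3_coR
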