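import Pool.Agent.Lib.MP_6b0fe3_coR.GrpI
import Pool.Agent.Lib.MP_6b0fe3_coR.LabL

/-! MP_6b0fe3_co, L3: the coherent labelling given by the group of canonical lifts -/

namespace Pool.Agent.Lib.MP_6b0fe3_coR

open Matrix CountM

section main
variable {K : Type*} [Field K] [Fintype K] {Pt Ln : Type*} {I : Pt → Ln → Prop}
variable (H : Hex I (Fintype.card K)) (S : Sub K I)
variable (hcan : ∀ u m : Fin 3 → K, ∀ h : m ⬝ᵥ u = 0, IsFlag u m → ∃ z, Can S z u m h)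
variable (hstd : ∀ M, BLine S M → ∃ w ψ, Std S M w ψ)
variable (hinj : Function.Injective (canPi S))

omit [Fintype K] in
include hcan in
/-- unipotent elements are transitive on the antiflags containing a flag -/
theorem exists_move {v w1 ψ1 w' ψ' : Fin 3 → K} (h1 : ψ1 ⬝ᵥ w1 = 1) (h1v : ψ1 ⬝ᵥ v = 0)
    (hv : v ≠ 0) (h' : ψ' ⬝ᵥ w' = 1) (hv' : ψ' ⬝ᵥ v = 0) (hw : w' ⨯₃ v = w1 ⨯₃ v) :
    ∃ u ∈ canR S, sv u.2 v = v ∧ sk u.2 (w1 ⨯₃ v) = w1 ⨯₃ v ∧ sv u.2 w1 = w' ∧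
      sk u.2 ψ1 = ψ' := by
  set k : Fin 3 → K := w1 ⨯₃ v with hk
  have hk0 : k ≠ 0 := cross_w_ne h1 h1v hv
  have hkv : k ⬝ᵥ v = 0 := uniqL_cross_self_right w1 v
  have hkw' : k ⬝ᵥ w' = 0 := by rw [← hw]; exact uniqL_cross_self_left w' v
  have hψ1 : ψ1 ≠ 0 := (ne_of_dot h1).1
  obtain ⟨β, hβ⟩ := uniqL_factor (w := w1) (w' := w') hv (c := (1 : K))
    (by rw [one_smul]; exact hw)
  rw [one_smul] at hβ
  have hw1 : w1 = w' - β • v := by rw [hβ, add_sub_cancel_right]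
  have hδ : (ψ' - ψ1) ⨯₃ k = 0 := by
    rw [hk, cross_cross_r, sub_dotProduct, sub_dotProduct, hv', h1v, h1]
    nth_rewrite 2 [hw1]
    rw [dotProduct_sub, dotProduct_smul, h', hv']
    simp
  obtain ⟨γ, hγ⟩ := exists_smul_of_cross hk0 (cross_zero_symm hδ)
  -- first elation
  obtain ⟨z1, hz1, a1, a2, a3, a4⟩ : ∃ z ∈ canR S, sv z.2 v = v ∧ sk z.2 k = k ∧
      sv z.2 w1 = w' ∧ sk z.2 ψ1 = ψ1 := by
    by_cases h0 : β = 0
    · refine ⟨1, (canR S).one_mem, sv_one v, sk_one k, ?_, sk_one ψ1⟩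
      rw [hβ, h0, zero_smul, add_zero]
      exact sv_one w1
    · have hd : ψ1 ⬝ᵥ (β • v) = 0 := by rw [dotProduct_smul, h1v, smul_zero]
      have hf : IsFlag (β • v) ψ1 := ⟨smul_ne_zero h0 hv, hψ1, by rw [dotProduct_comm]; exact hd⟩
      obtain ⟨z, hz⟩ := hcan _ _ hd hf
      refine ⟨z, hz.mem_canR hf, ?_, ?_, ?_, ?_⟩
      · rw [hz.eq, sv_elM, h1v, zero_smul, add_zero]
      · rw [hz.eq, sk_elM, smul_dotProduct, dotProduct_comm, hkv, smul_zero, zero_smul, sub_zero]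
      · rw [hz.eq, sv_elM, h1, one_smul, hβ]
      · rw [hz.eq, sk_elM, dotProduct_comm, hd, zero_smul, sub_zero]
  -- second elation
  have hψw' : w' ⬝ᵥ ψ1 = 1 := by
    rw [dotProduct_comm, hβ, dotProduct_add, dotProduct_smul, h1, h1v, smul_zero, add_zero]
  obtain ⟨z2, hz2, b1, b2, b3, b4⟩ : ∃ z ∈ canR S, sv z.2 v = v ∧ sk z.2 k = k ∧
      sv z.2 w' = w' ∧ sk z.2 ψ1 = ψ' := by
    by_cases h0 : γ = 0
    · refine ⟨1, (canR S).one_mem, sv_one v, sk_one k, sv_one w', ?_⟩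
      rw [h0, zero_smul, sub_eq_zero] at hγ
      rw [hγ]
      exact sk_one ψ1
    · have hd : (-γ • k) ⬝ᵥ w' = 0 := by rw [smul_dotProduct, hkw', smul_zero]
      have hf : IsFlag w' (-γ • k) := ⟨(ne_of_dot h').2, smul_ne_zero (neg_ne_zero.2 h0) hk0, by
        rw [dotProduct_comm]; exact hd⟩
      obtain ⟨z, hz⟩ := hcan _ _ hd hf
      refine ⟨z, hz.mem_canR hf, ?_, ?_, ?_, ?_⟩
      · rw [hz.eq, sv_elM, smul_dotProduct, hkv, smul_zero, zero_smul, add_zero]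
      · rw [hz.eq, sk_elM, dotProduct_comm w' k, hkw', zero_smul, sub_zero]
      · rw [hz.eq, sv_elM, hd, zero_smul, add_zero]
      · rw [hz.eq, sk_elM, hψw', one_smul, neg_smul, sub_neg_eq_add, ← hγ]
        abel
  refine ⟨z2 * z1, (canR S).mul_mem hz2 hz1, ?_, ?_, ?_, ?_⟩
  · change sv (z2.2 * z1.2) v = v
    rw [sv_mul, a1, b1]
  · change sk (z2.2 * z1.2) k = k
    rw [sk_mul, a2, b2]
  · change sv (z2.2 * z1.2) w1 = w'
    rw [sv_mul, a3, b3]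
  · change sk (z2.2 * z1.2) ψ1 = ψ'
    rw [sk_mul, a4, b4]

include H hcan hstd hinj

/-- the group of canonical lifts is transitive on the B-lines -/
theorem canR_trans_bline {M0 M : Ln} (hM0 : BLine S M0) (hM : BLine S M) :
    ∃ r ∈ canR S, r.1.2 M0 = M := by
  obtain ⟨w0, ψ0, hs0⟩ := hstd M0 hM0
  obtain ⟨w, ψ, hs⟩ := hstd M hM
  obtain ⟨v0, e0, hv0, -, hve0⟩ := exists_ker (ne_of_dot hs0.1).1
  have hv00 : v0 ≠ 0 := by
    rintro rfl
    simp at hve0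
  obtain ⟨v, e, hv, -, hve⟩ := exists_ker (ne_of_dot hs.1).1
  have hvne : v ≠ 0 := by
    rintro rfl
    simp at hve
  obtain ⟨x0, hx0, ho0, -⟩ := hs0.2 v0 hv00 hv0
  obtain ⟨x, hx, ho, -⟩ := hs.2 v hvne hv
  have hox0 := out_of_bline H S hM0 hx0
  have hox := out_of_bline H S hM hx
  obtain ⟨t0, ht0, hxt0⟩ := aline_exists H S hox0 ho0
  obtain ⟨t, ht, hxt⟩ := aline_exists H S hox ho
  obtain ⟨r, hr, hrt⟩ := canR_trans_aline H S hcan hstd ht0 ht
  have hract : Act S r.1 r.2 := canR_le S hr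
  have hM1 := hract.bline hM0
  have hs1 := hract.std hs0
  have hx1 : I (r.1.1 x0) (r.1.2 M0) := (hract.aut _ _).2 hx0
  have hx1t : I (r.1.1 x0) t := by
    have := (hract.aut x0 t0).2 hxt0
    rwa [hrt] at this
  have hox1 := hract.out hox0
  have ho1 := (out_of_aline H S ht hx1t (hox1 _ _ ht.1)).2
  have hb1 := base_of_std H S hM1 hs1 hx1 ho1
  have hk0 : w ⨯₃ v ≠ 0 := ht.1.2.1
  obtain ⟨c, hc⟩ := exists_smul_of_cross hk0 hb1.2
  have hc0 : c ≠ 0 := by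
    rintro rfl
    rw [zero_smul] at hc
    exact cross_w_ne hs1.1 hb1.1 hvne hc
  have hbM := hs.bas.smul hc0
  have hv' : (c⁻¹ • ψ) ⬝ᵥ v = 0 := by rw [smul_dotProduct, hv, smul_zero]
  have hw' : (c • w) ⨯₃ v = sv r.2 w0 ⨯₃ v := by rw [smul_cross', hc]
  obtain ⟨u, hu, u1, u2, u3, u4⟩ := exists_move S hcan hs1.1 hb1.1 hvne hbM.1 hv' hw'
  have huact : Act S u.1 u.2 := canR_le S hu
  have hut : u.1.2 t = t := by
    refine unip_fix H S hcan hstd hinj ht hu u1 ?_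
    have : w ⨯₃ v = c⁻¹ • (sv r.2 w0 ⨯₃ v) := by
      rw [hc, smul_smul, inv_mul_cancel₀ hc0, one_smul]
    rw [this, sk_smul, u2]
  have hs2 := huact.std hs1
  rw [u3, u4] at hs2
  have hM2 := huact.bline hM1
  have hx2 : I (u.1.1 (r.1.1 x0)) (u.1.2 (r.1.2 M0)) := (huact.aut _ _).2 hx1
  have hx2t : I (u.1.1 (r.1.1 x0)) t := by
    have := (huact.aut (r.1.1 x0) t).2 hx1t
    rwa [hut] at this
  refine ⟨u * r, (canR S).mul_mem hu hr, ?_⟩
  change u.1.2 (r.1.2 M0) = M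
  exact bline_unique H S ht hM2 hM hs2.bas hbM hx2 hx2t hx hxt

/-- coherence of the labelling given by the group -/
theorem canR_coh {v k : Fin 3 → K} {t : Ln} {x y : Pt} {M N : Ln} {w ψ w' ψ' : Fin 3 → K}
    (ht : ALine S v k t) (hox : Out S x) (hoy : Out S y) (hxt : I x t) (hyt : I y t)
    (hM : BLine S M) (hN : BLine S N) (hxM : I x M) (hyN : I y N) (hs : Std S M w ψ)
    (hs' : Std S N w' ψ') {g : (Equiv.Perm Pt × Equiv.Perm Ln) × SL3 K} (hg : g ∈ canR S)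
    (hgM : g.1.2 M = N) (hgw : sv g.2 w = w') (hgψ : sk g.2 ψ = ψ') : w' ⨯₃ v = w ⨯₃ v := by
  have hxo := (out_of_aline H S ht hxt (hox v k ht.1)).2
  have hyo := (out_of_aline H S ht hyt (hoy v k ht.1)).2
  have hb := base_of_std H S hM hs hxM hxo
  have hb' := base_of_std H S hN hs' hyN hyo
  have hgact : Act S g.1 g.2 := canR_le S hg
  have hψg : ψ' ⬝ᵥ sv g.2 v = 0 := by
    rw [← hgψ, s_dot']
    exact hb.1
  obtain ⟨s, hsx, hsv⟩ := fxG_trans S hcan hs'.1 hψg hb'.1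
    (by rw [Ne, sv_eq_zero]; exact ht.1.1) ht.1.1
  have hsR := fxG_le S w' ψ' hsx
  have hsact : Act S s.1 s.2 := canR_le S hsR
  have hsN := fxG_bline H S hN hs'.bas hsx
  have hsw := (fxG_vec hs'.1 hsx).1
  have hsg : s * g ∈ canR S := (canR S).mul_mem hsR hg
  have hact : Act S (s * g).1 (s * g).2 := canR_le S hsg
  have e1 : (s * g).1.2 M = N := by
    change s.1.2 (g.1.2 M) = N
    rw [hgM, hsN]
  have e2 : sv (s * g).2 w = w' := by
    change sv (s.2 * g.2) w = w'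
    rw [sv_mul, hgw, hsw]
  have e3 : sv (s * g).2 v = v := by
    change sv (s.2 * g.2) v = v
    rw [sv_mul, hsv]
  have hN2 : I ((s * g).1.1 x) N := by
    have := (hact.aut x M).2 hxM
    rwa [e1] at this
  have ho2 := hact.over hxo
  rw [e3] at ho2
  have hxy : (s * g).1.1 x = y := eq_of_over H S hN hN2 hyN ho2 hyo
  have ht2 : (s * g).1.2 t = t := by
    have h7 := hact.aline H ht
    have h8 := (hact.aut x t).2 hxt
    rw [hxy] at h8
    exact aline_uniq H S hoy h7 ht h8 hyt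
  obtain ⟨c, hc⟩ := exists_smul_of_cross ht.1.2.1 hb.2
  obtain ⟨d, hd⟩ := exists_smul_of_cross ht.1.2.1 hb'.2
  have hc0 : c ≠ 0 := by
    rintro rfl
    rw [zero_smul] at hc
    exact cross_w_ne hs.1 hb.1 ht.1.1 hc
  have hk : k = c⁻¹ • (w ⨯₃ v) := by rw [hc, smul_smul, inv_mul_cancel₀ hc0, one_smul]
  have e4 : sk (s * g).2 k = (c⁻¹ * d) • k := by
    nth_rewrite 1 [hk]
    rw [sk_smul, sk_cross, e2, e3, hd, smul_smul]
  have e5 := fix_scal H S hcan hstd hinj ht hsg (a := 1) (by rw [one_smul]; exact e3) e4 ht2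
  have e6 : d = c := by
    have : c * (c⁻¹ * d) = c * 1 := by rw [← e5]
    rw [mul_one, ← mul_assoc, mul_inv_cancel₀ hc0, one_mul] at this
    exact this
  rw [hd, hc, e6]

/-- **the coherent labelling** -/
theorem exists_lab : Nonempty (Lab S) := by
  obtain ⟨M0, hM0, -⟩ := exists_bline_base H S hstd (w := Pi.single 0 1) (ψ := Pi.single 0 1)
    (by simp)
  obtain ⟨w0, ψ0, hs0⟩ := hstd M0 hM0
  refine ⟨{
    T := fun M w ψ => ∃ r ∈ canR S, r.1.2 M0 = M ∧ w = sv r.2 w0 ∧ ψ = sk r.2 ψ0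
    std := ?_
    ex := ?_
    coh := ?_ }⟩
  · rintro M w ψ ⟨r, hr, rfl, rfl, rfl⟩
    have hract : Act S r.1 r.2 := canR_le S hr
    exact hract.std hs0
  · intro M hM
    obtain ⟨r, hr, hrM⟩ := canR_trans_bline H S hcan hstd hinj hM0 hM
    exact ⟨_, _, r, hr, hrM, rfl, rfl⟩
  · rintro v k t x y M N w ψ w' ψ' ht hox hoy hxt hyt hM hN hxM hyN ⟨r, hr, rM, rw1, rψ⟩
      ⟨r', hr', rM', rw1', rψ'⟩
    have hract : Act S r.1 r.2 := canR_le S hr
    have hract' : Act S r'.1 r'.2 := canR_le S hr'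
    have hs : Std S M w ψ := by
      rw [← rM, rw1, rψ]
      exact hract.std hs0
    have hs' : Std S N w' ψ' := by
      rw [← rM', rw1', rψ']
      exact hract'.std hs0
    refine canR_coh H S hcan hstd hinj ht hox hoy hxt hyt hM hN hxM hyN hs hs'
      ((canR S).mul_mem hr' ((canR S).inv_mem hr)) ?_ ?_ ?_
    · change r'.1.2 (r.1.2.symm M) = N
      rw [← rM, Equiv.symm_apply_apply, rM']
    · change sv (r'.2 * r.2⁻¹) w = w'
      rw [sv_mul, rw1, sv_inv_sv, rw1']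
    · change sk (r'.2 * r.2⁻¹) ψ = ψ'
      rw [sk_mul, rψ, sk_inv_sk, rψ']

end main

end Pool.Agent.Lib.MP_6b0fe3_coR
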