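import Pool.Agent.Lib.MP_6b0fe3_coR.AutG

/-! MP_6b0fe3_co: index lemmas and the group of lifts of the unipotent group of a flag -/

namespace Pool.Agent.Lib.MP_6b0fe3_coR

open Matrix

/-- orbit-stabiliser for a subgroup, in index form -/
theorem stab_index {G α : Type*} [Group G] (ρ : G →* Equiv.Perm α) (T : Subgroup G) (x : α) :
    ∃ T' : Subgroup G, (∀ g, g ∈ T' ↔ g ∈ T ∧ ρ g x = x) ∧
      T'.index = {y | ∃ g ∈ T, ρ g x = y}.ncard * T.index := by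
  let T' : Subgroup G :=
    { carrier := {g | g ∈ T ∧ ρ g x = x}
      mul_mem' := by
        rintro a b ⟨ha, ha'⟩ ⟨hb, hb'⟩
        refine ⟨T.mul_mem ha hb, ?_⟩
        rw [map_mul, Equiv.Perm.mul_apply, hb', ha']
      one_mem' := ⟨T.one_mem, by rw [map_one]; rfl⟩
      inv_mem' := by
        rintro a ⟨ha, ha'⟩
        refine ⟨T.inv_mem ha, ?_⟩
        rw [map_inv, Equiv.Perm.inv_eq_iff_eq]
        exact ha'.symm }
  have hle : T' ≤ T := fun g hg => hg.1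
  refine ⟨T', fun g => Iff.rfl, ?_⟩
  rw [← Subgroup.relIndex_mul_index hle]
  congr 1
  letI : MulAction T α := MulAction.compHom α (ρ.comp T.subtype)
  have h1 : MulAction.stabilizer T x = T'.subgroupOf T := by
    ext g
    rw [MulAction.mem_stabilizer_iff, Subgroup.mem_subgroupOf]
    exact ⟨fun h => ⟨g.2, h⟩, fun h => h.2⟩
  have h2 := MulAction.index_stabilizer T x
  rw [h1] at h2
  rw [Subgroup.relIndex, h2]
  congr 1
  ext y
  constructor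
  · rintro ⟨g, hg⟩
    exact ⟨g.1, g.2, hg⟩
  · rintro ⟨g, hg, hg'⟩
    exact ⟨⟨g, hg⟩, hg'⟩

/-- index bound from an invariant finite set -/
theorem step_index {G α : Type*} [Group G] (ρ : G →* Equiv.Perm α) (T : Subgroup G) {s : Set α}
    (hs : s.Finite) (hinv : ∀ g ∈ T, ∀ x ∈ s, ρ g x ∈ s) {x : α} (hx : x ∈ s) :
    ∃ T' : Subgroup G, (∀ g, g ∈ T' ↔ g ∈ T ∧ ρ g x = x) ∧ T'.index ≤ s.ncard * T.index := by
  obtain ⟨T', h1, h2⟩ := stab_index ρ T x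
  refine ⟨T', h1, ?_⟩
  rw [h2]
  refine Nat.mul_le_mul_right _ (Set.ncard_le_ncard ?_ hs)
  rintro y ⟨g, hg, rfl⟩
  exact hinv g hg x hx

/-- a second line through the point and a second point on the line of a flag -/
theorem exists_hb {K : Type*} [Field K] {v0 k0 : Fin 3 → K} (hf : IsFlag v0 k0) :
    ∃ u m : Fin 3 → K, HB v0 k0 u m ∧ k0 ⨯₃ m ≠ 0 ∧ v0 ⨯₃ u ≠ 0 := by
  obtain ⟨hv, hk, hvk⟩ := hf
  obtain ⟨i, hi⟩ : ∃ i, k0 i ≠ 0 := by
    by_contra h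
    push Not at h
    exact hk (funext h)
  set e : Fin 3 → K := Pi.single i 1 with he
  have hke : k0 ⬝ᵥ e = k0 i := by simp [he]
  set m1 : Fin 3 → K := v0 ⨯₃ e with hm1
  have hcross : k0 ⨯₃ m1 = (k0 ⬝ᵥ e) • v0 := by
    rw [hm1, cross_cross_right, dotProduct_comm k0 v0, hvk, zero_smul, sub_zero]
  have hcne : k0 ⨯₃ m1 ≠ 0 := by
    rw [hcross, hke]
    exact smul_ne_zero hi hv
  have hm1v : m1 ⬝ᵥ v0 = 0 := by
    rw [hm1, dot3, cross_apply']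
    simp
    ring
  obtain ⟨j, hj⟩ : ∃ j, (k0 ⨯₃ m1) j ≠ 0 := by
    by_contra h
    push Not at h
    exact hcne (funext h)
  set e' : Fin 3 → K := Pi.single j 1 with he'
  have hje : (k0 ⨯₃ m1) ⬝ᵥ e' = (k0 ⨯₃ m1) j := by simp [he']
  set u1 : Fin 3 → K := e' ⨯₃ k0 with hu1
  have hku : k0 ⬝ᵥ u1 = 0 := by
    rw [hu1, dot3, cross_apply']
    simp
    ring
  have hmu : m1 ⬝ᵥ u1 = (k0 ⨯₃ m1) ⬝ᵥ e' := by
    rw [hu1, dot3, dot3, cross_apply', cross_apply']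
    simp
    ring
  have hmu0 : m1 ⬝ᵥ u1 ≠ 0 := by rw [hmu, hje]; exact hj
  have hu10 : u1 ≠ 0 := by
    intro h
    rw [h, dotProduct_zero] at hmu0
    exact hmu0 rfl
  have hvu : v0 ⨯₃ u1 ≠ 0 := by
    intro h
    obtain ⟨c, hc, hc'⟩ := (cross_eq_zero_iff hv hu10).1 h
    rw [hc', dotProduct_smul, hm1v, smul_zero] at hmu0
    exact hmu0 rfl
  refine ⟨(m1 ⬝ᵥ u1)⁻¹ • u1, m1, ⟨by rw [dotProduct_comm]; exact hvk, hm1v, ?_, ?_⟩, hcne, ?_⟩
  · rw [dotProduct_smul, hku, smul_zero]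
  · rw [dotProduct_smul, smul_eq_mul, inv_mul_cancel₀ hmu0]
  · rw [map_smul]
    exact smul_ne_zero (inv_ne_zero hmu0) hvu

section
variable {K : Type*} [Field K] {Pt Ln : Type*} {I : Pt → Ln → Prop}

theorem Ind.lp {S : Sub K I} {g : Equiv.Perm Pt × Equiv.Perm Ln}
    {A B : (Fin 3 → K) ≃ₗ[K] (Fin 3 → K)} {q : ℕ} (H : Hex I q) (hg : Ind S g A B)
    {v : Fin 3 → K} (hv : v ≠ 0) : g.2 (S.lp v) = S.lp (A v) := by
  obtain ⟨k1, k2, h1, h2, h3⟩ := exists_span hv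
  have hk1 : k1 ≠ 0 := by
    rintro rfl
    exact h3 (by simp)
  have hk2 : k2 ≠ 0 := by
    rintro rfl
    exact h3 (by simp)
  have f1 : IsFlag v k1 := ⟨hv, hk1, h1⟩
  have f2 : IsFlag v k2 := ⟨hv, hk2, h2⟩
  have hAv : A v ≠ 0 := (LinearEquiv.map_ne_zero_iff _).2 hv
  have i1 := (hg.aut _ _).2 ((S.inc_lp f1 hv).2 (cross_self v))
  have i2 := (hg.aut _ _).2 ((S.inc_lp f2 hv).2 (cross_self v))
  have i3 : I (g.1 (S.pt v k1)) (S.lp (A v)) := by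
    rw [hg.act _ _ f1]
    exact (S.inc_lp (hg.flag.2 f1) hAv).2 (cross_self _)
  have i4 : I (g.1 (S.pt v k2)) (S.lp (A v)) := by
    rw [hg.act _ _ f2]
    exact (S.inc_lp (hg.flag.2 f2) hAv).2 (cross_self _)
  refine H.uniq i1 i2 i3 i4 ?_
  intro h
  exact h3 ((S.pt_eq f1 f2).1 (g.1.injective h)).2

theorem Ind.ll {S : Sub K I} {g : Equiv.Perm Pt × Equiv.Perm Ln}
    {A B : (Fin 3 → K) ≃ₗ[K] (Fin 3 → K)} {q : ℕ} (H : Hex I q) (hg : Ind S g A B)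
    {k : Fin 3 → K} (hk : k ≠ 0) : g.2 (S.ll k) = S.ll (B k) := by
  obtain ⟨v1, v2, h1, h2, h3⟩ := exists_span hk
  have hv1 : v1 ≠ 0 := by
    rintro rfl
    exact h3 (by simp)
  have hv2 : v2 ≠ 0 := by
    rintro rfl
    exact h3 (by simp)
  have f1 : IsFlag v1 k := ⟨hv1, hk, by rw [dotProduct_comm]; exact h1⟩
  have f2 : IsFlag v2 k := ⟨hv2, hk, by rw [dotProduct_comm]; exact h2⟩
  have hBk : B k ≠ 0 := (LinearEquiv.map_ne_zero_iff _).2 hk
  have i1 := (hg.aut _ _).2 ((S.inc_ll f1 hk).2 (cross_self k))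
  have i2 := (hg.aut _ _).2 ((S.inc_ll f2 hk).2 (cross_self k))
  have i3 : I (g.1 (S.pt v1 k)) (S.ll (B k)) := by
    rw [hg.act _ _ f1]
    exact (S.inc_ll (hg.flag.2 f1) hBk).2 (cross_self _)
  have i4 : I (g.1 (S.pt v2 k)) (S.ll (B k)) := by
    rw [hg.act _ _ f2]
    exact (S.inc_ll (hg.flag.2 f2) hBk).2 (cross_self _)
  refine H.uniq i1 i2 i3 i4 ?_
  intro h
  exact h3 ((S.pt_eq f1 f2).1 (g.1.injective h)).1

theorem Ind.aline {S : Sub K I} {g : Equiv.Perm Pt × Equiv.Perm Ln}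
    {A B : (Fin 3 → K) ≃ₗ[K] (Fin 3 → K)} {q : ℕ} (H : Hex I q) (hg : Ind S g A B)
    {v k : Fin 3 → K} {t : Ln} (ht : ALine S v k t) : ALine S (A v) (B k) (g.2 t) := by
  obtain ⟨hf, hI, h1, h2⟩ := ht
  refine ⟨hg.flag.2 hf, ?_, ?_, ?_⟩
  · rw [← hg.act _ _ hf]
    exact (hg.aut _ _).2 hI
  · rw [← hg.lp H hf.1]
    exact fun h => h1 (g.2.injective h)
  · rw [← hg.ll H hf.2.1]
    exact fun h => h2 (g.2.injective h)

variable (S : Sub K I) {v0 k0 u m : Fin 3 → K}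

/-- the automorphisms acting on the flags as elements of the Heisenberg group -/
def liftG (hb : HB v0 k0 u m) : Subgroup ((Equiv.Perm Pt × Equiv.Perm Ln) × HeisK K) where
  carrier := {z | Ind S z.1 (heisA hb z.2) (heisB hb z.2)}
  mul_mem' := by
    rintro ⟨g, d⟩ ⟨g', d'⟩ hz hy
    have h := Ind.mul hz hy
    have e1 : (heisA hb d').trans (heisA hb d) = heisA hb (d * d') := by
      ext1 v
      exact (hV_mul hb d d' v).symm
    have e2 : (heisB hb d').trans (heisB hb d) = heisB hb (d * d') := by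
      ext1 v
      exact (hK_mul hb d d' v).symm
    change Ind S (g * g') (heisA hb (d * d')) (heisB hb (d * d'))
    rw [← e1, ← e2]
    exact h
  one_mem' := by
    refine ⟨fun x l => Iff.rfl, fun v k => ?_, fun v k hf => ?_⟩
    · change hV v0 k0 u m 1 v ⬝ᵥ hK v0 k0 u m 1 k = v ⬝ᵥ k
      rw [hV_one, hK_one]
    · change S.pt v k = S.pt (hV v0 k0 u m 1 v) (hK v0 k0 u m 1 k)
      rw [hV_one, hK_one]
  inv_mem' := by
    rintro ⟨g, d⟩ hz
    have h := Ind.inv hz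
    have e1 : (heisA hb d).symm = heisA hb d⁻¹ := by
      ext1 v
      rfl
    have e2 : (heisB hb d).symm = heisB hb d⁻¹ := by
      ext1 v
      rfl
    change Ind S g⁻¹ (heisA hb d⁻¹) (heisB hb d⁻¹)
    rw [← e1, ← e2]
    exact h

theorem mem_liftG {hb : HB v0 k0 u m} {z : (Equiv.Perm Pt × Equiv.Perm Ln) × HeisK K}
    (hz : z ∈ liftG S hb) : Ind S z.1 (heisA hb z.2) (heisB hb z.2) := hz

/-- the action on points -/
def rhoP (hb : HB v0 k0 u m) : liftG S hb →* Equiv.Perm Pt :=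
  (MonoidHom.fst _ _).comp ((MonoidHom.fst _ _).comp (liftG S hb).subtype)

/-- the action on lines -/
def rhoL (hb : HB v0 k0 u m) : liftG S hb →* Equiv.Perm Ln :=
  (MonoidHom.snd _ _).comp ((MonoidHom.fst _ _).comp (liftG S hb).subtype)

/-- the projection to the Heisenberg group -/
def toHeis (hb : HB v0 k0 u m) : liftG S hb →* HeisK K :=
  (MonoidHom.snd _ _).comp (liftG S hb).subtype

theorem rhoP_apply (hb : HB v0 k0 u m) (z : liftG S hb) : rhoP S hb z = z.1.1.1 := rfl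
theorem rhoL_apply (hb : HB v0 k0 u m) (z : liftG S hb) : rhoL S hb z = z.1.1.2 := rfl
theorem toHeis_apply (hb : HB v0 k0 u m) (z : liftG S hb) : toHeis S hb z = z.1.2 := rfl

theorem toHeis_surjective (hb : HB v0 k0 u m)
    (hel : ∀ u m : Fin 3 → K, u ⬝ᵥ m = 0 → ∃ g : Equiv.Perm Pt × Equiv.Perm Ln, IsAut I g ∧
      ∀ v k, IsFlag v k → g.1 (S.pt v k) = S.pt (v + (m ⬝ᵥ v) • u) (k - (u ⬝ᵥ k) • m)) :
    Function.Surjective (toHeis S hb) := by
  obtain ⟨h1, h2, h3, h4⟩ := hb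
  intro d
  have hd : d = ⟨0, d.b, 0⟩ * ⟨d.a, 0, d.c⟩ := by
    rw [HeisK.mul_def]; ext <;> simp
  obtain ⟨g, hg, hg'⟩ := hel u (d.b • k0) (by
    rw [dotProduct_smul, dotProduct_comm, h3, smul_zero])
  obtain ⟨g', hgg, hgg'⟩ := hel v0 (d.a • m + d.c • k0) (by
    rw [dotProduct_add, dotProduct_smul, dotProduct_smul, dotProduct_comm v0 m, h2,
      dotProduct_comm v0 k0, h1, smul_zero, smul_zero, add_zero])
  have m1 : (g, (⟨0, d.b, 0⟩ : HeisK K)) ∈ liftG S ⟨h1, h2, h3, h4⟩ := by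
    refine ⟨hg, fun v k => h_dot ⟨h1, h2, h3, h4⟩ _ v k, fun v k hvk => ?_⟩
    have e := hg' v k hvk
    rw [heisA_apply, heisB_apply]
    simp only [hV, hK]
    rw [e]
    congr 1
    · ext i; simp
    · ext i; simp; ring
  have m2 : (g', (⟨d.a, 0, d.c⟩ : HeisK K)) ∈ liftG S ⟨h1, h2, h3, h4⟩ := by
    refine ⟨hgg, fun v k => h_dot ⟨h1, h2, h3, h4⟩ _ v k, fun v k hvk => ?_⟩
    have e := hgg' v k hvk
    rw [heisA_apply, heisB_apply]
    simp only [hV, hK]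
    rw [e]
    congr 1
    · ext i; simp; ring
    · ext i; simp; ring
  exact ⟨⟨_, m1⟩ * ⟨_, m2⟩, hd.symm⟩

end

end Pool.Agent.Lib.MP_6b0fe3_coR
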