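import Pool.Agent.Lib.MP_6b0fe3_coR.LiftGa

/-! MP_6b0fe3_co: stabilisers in the group of lifts -/

namespace Pool.Agent.Lib.MP_6b0fe3_coR

open Matrix

section
variable {K : Type*} [Field K] [Fintype K] {Pt Ln : Type*} {I : Pt → Ln → Prop}
variable (H : Hex I (Fintype.card K)) (S : Sub K I)
include H

theorem pts_card {t : Ln} {x : Pt} (hx : I x t) :
    {y | I y t ∧ y ≠ x}.Finite ∧ {y | I y t ∧ y ≠ x}.ncard = Fintype.card K := by
  have hfin : {y | I y t}.Finite :=
    Set.finite_of_ncard_pos (by rw [H.lineCard]; omega)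
  have e : {y | I y t ∧ y ≠ x} = {y | I y t} \ {x} := rfl
  rw [e]
  refine ⟨hfin.subset Set.sdiff_subset, ?_⟩
  rw [Set.ncard_sdiff_singleton_of_mem (show x ∈ {y | I y t} from hx), H.lineCard]
  omega

theorem lns_card {t : Ln} {x : Pt} (hx : I x t) :
    {l | I x l ∧ l ≠ t}.Finite ∧ {l | I x l ∧ l ≠ t}.ncard = Fintype.card K := by
  have hfin : {l | I x l}.Finite :=
    Set.finite_of_ncard_pos (by rw [H.ptCard]; omega)
  have e : {l | I x l ∧ l ≠ t} = {l | I x l} \ {t} := rfl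
  rw [e]
  refine ⟨hfin.subset Set.sdiff_subset, ?_⟩
  rw [Set.ncard_sdiff_singleton_of_mem (show t ∈ {l | I x l} from hx), H.ptCard]
  omega

/-- freeness on the points of a B-line -/
theorem mover_free {v0 k0 u m : Fin 3 → K} (hb : HB v0 k0 u m) (hkm : k0 ⨯₃ m ≠ 0)
    (hvu : v0 ⨯₃ u ≠ 0) {M : Ln} (hM : BLine S M) {x y : Pt} (hx : I x M) (hy : I y M)
    (hxy : x ≠ y) (hov : Over S y v0 k0) {z : (Equiv.Perm Pt × Equiv.Perm Ln) × HeisK K}
    (hz : z ∈ liftG S hb) (hfix : z.1.1 x = x) : z.2 = 1 := by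
  obtain ⟨v, k, hvk⟩ := over_exists H S (out_of_bline H S hM hx)
  have ho := opp_of_bline H S hM hy hx (fun h => hxy h.symm) hov hvk
  have h1 := (mem_liftG S hz).over hvk
  rw [hfix] at h1
  have h2 := over_unique H S (out_of_bline H S hM hx) hvk h1
  rw [heisA_apply, heisB_apply] at h2
  exact heis_free hb hov.1.2.1 hvu hkm ho.2 ho.1 z.2 h2.1 h2.2

variable (hel : ∀ u m : Fin 3 → K, u ⬝ᵥ m = 0 → ∃ g : Equiv.Perm Pt × Equiv.Perm Ln, IsAut I g ∧
      ∀ v k, IsFlag v k → g.1 (S.pt v k) = S.pt (v + (m ⬝ᵥ v) • u) (k - (u ⬝ᵥ k) • m))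
include hel

/-- an automorphism fixing a point of a B-line and the line, but no other point of it -/
theorem exists_mover {v0 k0 : Fin 3 → K} {y : Pt} (hov : Over S y v0 k0) {M : Ln}
    (hM : BLine S M) (hy : I y M) {x : Pt} (hx : I x M) (hxy : x ≠ y) :
    ∃ g A B, Ind S g A B ∧ g.1 y = y ∧ g.2 M = M ∧ g.1 x ≠ x := by
  obtain ⟨hPt, hLn⟩ := finite_of_hex H
  have hq : 1 < Fintype.card K := Fintype.one_lt_card
  obtain ⟨u, m, hb, hkm, hvu⟩ := exists_hb hov.1
  have hoy := out_of_bline H S hM hy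
  obtain ⟨t, ht, hyt⟩ := aline_exists H S hoy hov
  have hMt : M ≠ t := by
    rintro rfl
    exact hM v0 k0 hov.1 ht.2.1
  have hfixf : ∀ z : liftG S hb, z.1.1.1 (S.pt v0 k0) = S.pt v0 k0 := by
    intro z
    rw [(mem_liftG S z.2).act _ _ hov.1, heisA_apply, heisB_apply, hV_v0 hb, hK_k0 hb]
  -- stabiliser of `t`
  have hcardA := aline_card H S hov.1
  have hfinA : {t | ALine S v0 k0 t}.Finite := Set.toFinite _
  obtain ⟨T1, hT1, hi1⟩ := step_index (rhoL S hb) ⊤ hfinA (fun z _ t ht => by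
    have := (mem_liftG S z.2).aline H ht
    rw [heisA_apply, heisB_apply, hV_v0 hb, hK_k0 hb] at this
    exact this) ht
  rw [Subgroup.index_top, mul_one, hcardA] at hi1
  -- stabiliser of `y`
  obtain ⟨hf2, hc2⟩ := pts_card H ht.2.1
  have hyne : y ≠ S.pt v0 k0 := hoy _ _ hov.1
  obtain ⟨T2, hT2, hi2⟩ := step_index (rhoP S hb) T1 hf2 (fun z hz w hw => by
    have h1 := ((hT1 z).1 hz).2
    refine ⟨?_, ?_⟩
    · have := ((mem_liftG S z.2).aut w t).2 hw.1
      rw [rhoL_apply] at h1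
      rw [h1] at this
      exact this
    · intro h
      have h' : z.1.1.1 w = z.1.1.1 (S.pt v0 k0) := by rw [hfixf z]; exact h
      exact hw.2 (z.1.1.1.injective h')) (show y ∈ {y | I y t ∧ y ≠ S.pt v0 k0} from ⟨hyt, hyne⟩)
  rw [hc2] at hi2
  -- stabiliser of `M`
  obtain ⟨hf3, hc3⟩ := lns_card H hyt
  obtain ⟨T3, hT3, hi3⟩ := step_index (rhoL S hb) T2 hf3 (fun z hz l hl => by
    have h1 := ((hT2 z).1 hz).2
    have h2 := ((hT1 z).1 ((hT2 z).1 hz).1).2
    rw [rhoP_apply] at h1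
    rw [rhoL_apply] at h2
    refine ⟨?_, ?_⟩
    · have := ((mem_liftG S z.2).aut y l).2 hl.1
      rw [h1] at this
      exact this
    · intro h
      have h' : z.1.1.2 l = z.1.1.2 t := by rw [h2]; exact h
      exact hl.2 (z.1.1.2.injective h')) (show M ∈ {l | I y l ∧ l ≠ t} from ⟨hy, hMt⟩)
  rw [hc3] at hi3
  have hidx : T3.index < Fintype.card K ^ 3 := by
    calc T3.index ≤ Fintype.card K * T2.index := hi3
      _ ≤ Fintype.card K * (Fintype.card K * T1.index) := Nat.mul_le_mul_left _ hi2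
      _ ≤ Fintype.card K * (Fintype.card K * (Fintype.card K - 1)) :=
          Nat.mul_le_mul_left _ (Nat.mul_le_mul_left _ hi1)
      _ < Fintype.card K * (Fintype.card K * Fintype.card K) := by
          apply Nat.mul_lt_mul_of_pos_left _ (by omega)
          apply Nat.mul_lt_mul_of_pos_left _ (by omega)
          omega
      _ = Fintype.card K ^ 3 := by ring
  have hpos : 0 < T3.index := Nat.pos_of_ne_zero Subgroup.index_ne_zero_of_finite
  have hdvd := T3.index_map_dvd (toHeis_surjective S hb hel)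
  have hne : T3.map (toHeis S hb) ≠ ⊥ := by
    intro h
    rw [h, Subgroup.index_bot, HeisK.card_heis] at hdvd
    exact absurd (Nat.le_of_dvd hpos hdvd) (by omega)
  obtain ⟨⟨d, hd⟩, hd1⟩ := (Subgroup.ne_bot_iff_exists_ne_one).1 hne
  obtain ⟨z, hz, hzd⟩ := hd
  have hd2 : d ≠ 1 := fun h => hd1 (Subtype.ext h)
  have hz3 := (hT3 z).1 hz
  have hz2 := (hT2 z).1 hz3.1
  refine ⟨z.1.1, _, _, mem_liftG S z.2, hz2.2, hz3.2, fun hfix => ?_⟩
  have h1 := mover_free H S hb hkm hvu hM hx hy hxy hov z.2 hfix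
  rw [toHeis_apply] at hzd
  exact hd2 (hzd.symm.trans h1)

/-- over every flag there is an A-line all of whose outside points are strong -/
theorem exists_strong_aline {v0 k0 : Fin 3 → K} (hf0 : IsFlag v0 k0) :
    ∃ t, ALine S v0 k0 t ∧ ∀ x, I x t → x ≠ S.pt v0 k0 → Strong S x := by
  obtain ⟨hPt, hLn⟩ := finite_of_hex H
  have hq : 1 < Fintype.card K := Fintype.one_lt_card
  obtain ⟨u, m, hb, hkm, hvu⟩ := exists_hb hf0
  -- the characteristic
  obtain ⟨p, hp⟩ := CharP.exists K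
  have : Fact p.Prime := ⟨CharP.char_is_prime K p⟩
  obtain ⟨⟨n, hn⟩, -, hcardK⟩ := FiniteField.card K p
  have hcardK' : Fintype.card K = p ^ n := hcardK
  have hfixf : ∀ z : liftG S hb, z.1.1.1 (S.pt v0 k0) = S.pt v0 k0 := by
    intro z
    rw [(mem_liftG S z.2).act _ _ hf0, heisA_apply, heisB_apply, hV_v0 hb, hK_k0 hb]
  have hfixA : ∀ z : liftG S hb, ∀ t, ALine S v0 k0 t → ALine S v0 k0 (z.1.1.2 t) := by
    intro z t ht
    have := (mem_liftG S z.2).aline H ht
    rwa [heisA_apply, heisB_apply, hV_v0 hb, hK_k0 hb] at this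
  have hfixA' : ∀ z : liftG S hb, ∀ t, ALine S v0 k0 (z.1.1.2 t) ↔ ALine S v0 k0 t := by
    intro z t
    refine ⟨fun h => ?_, hfixA z t⟩
    have := hfixA z⁻¹ _ h
    have e : z⁻¹.1.1.2 (z.1.1.2 t) = t := z.1.1.2.symm_apply_apply t
    rwa [e] at this
  let P : Sylow p (liftG S hb) := Classical.arbitrary _
  have hsurj := toHeis_surjective S hb hel
  have htop : (P : Subgroup (liftG S hb)).map (toHeis S hb) = ⊤ := by
    have h5 := (P.mapSurjective hsurj).is_maximal' (Q := ⊤)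
      ((HeisK.isPGroup hcardK').to_subgroup ⊤) le_top
    exact h5.symm
  -- `P` fixes an A-line
  obtain ⟨t, ht, hPt'⟩ : ∃ t, ALine S v0 k0 t ∧ ∀ z ∈ (P : Subgroup (liftG S hb)),
      z.1.1.2 t = t := by
    let φ : (P : Subgroup (liftG S hb)) →* Equiv.Perm {t // ALine S v0 k0 t} :=
      { toFun := fun z => (z.1.1.1.2).subtypePerm (hfixA' z.1)
        map_one' := by
          ext y
          simp
        map_mul' := by
          intro g g'
          ext y
          simp }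
    letI : MulAction (P : Subgroup (liftG S hb)) {t // ALine S v0 k0 t} :=
      MulAction.compHom _ φ
    have hcard : ¬ p ∣ Nat.card {t // ALine S v0 k0 t} := by
      have e : Nat.card {t // ALine S v0 k0 t} = {t | ALine S v0 k0 t}.ncard := rfl
      rw [e, aline_card H S hf0]
      intro h
      have h2 : p ∣ Fintype.card K := by
        rw [hcardK']
        exact dvd_pow_self p (by
          rintro rfl
          rw [pow_zero] at hcardK'
          omega)
      have h3 : p ∣ 1 := by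
        have := (Nat.dvd_sub h2 h)
        have e2 : Fintype.card K - (Fintype.card K - 1) = 1 := by omega
        rwa [e2] at this
      exact (Fact.out : p.Prime).one_lt.ne' (Nat.dvd_one.1 h3)
    obtain ⟨⟨t, ht⟩, hfix⟩ := P.isPGroup'.nonempty_fixed_point_of_prime_not_dvd_card
      {t // ALine S v0 k0 t} hcard
    refine ⟨t, ht, fun z hz => ?_⟩
    have := hfix ⟨z, hz⟩
    exact congrArg Subtype.val this
  refine ⟨t, ht, fun x hxt hxne => ?_⟩
  obtain ⟨hox, hovx⟩ := out_of_aline H S ht hxt hxne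
  -- work in `P`
  let ρP : (P : Subgroup (liftG S hb)) →* Equiv.Perm Pt :=
    (rhoP S hb).comp (P : Subgroup (liftG S hb)).subtype
  let ρL : (P : Subgroup (liftG S hb)) →* Equiv.Perm Ln :=
    (rhoL S hb).comp (P : Subgroup (liftG S hb)).subtype
  let f : (P : Subgroup (liftG S hb)) →* HeisK K :=
    (toHeis S hb).comp (P : Subgroup (liftG S hb)).subtype
  have hfs : Function.Surjective f := by
    intro d
    have : d ∈ (P : Subgroup (liftG S hb)).map (toHeis S hb) := by rw [htop]; trivial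
    obtain ⟨z, hz, hzd⟩ := this
    exact ⟨⟨z, hz⟩, hzd⟩
  -- stabiliser of `x`
  obtain ⟨hf1, hc1⟩ := pts_card H ht.2.1
  obtain ⟨T1, hT1, hi1⟩ := step_index ρP ⊤ hf1 (fun z _ w hw => by
    have h1 := hPt' z.1 z.2
    refine ⟨?_, ?_⟩
    · have := ((mem_liftG S z.1.2).aut w t).2 hw.1
      rw [h1] at this
      exact this
    · intro h
      have h' : z.1.1.1.1 w = z.1.1.1.1 (S.pt v0 k0) := by rw [hfixf z.1]; exact h
      exact hw.2 (z.1.1.1.1.injective h')) (show x ∈ {y | I y t ∧ y ≠ S.pt v0 k0} from ⟨hxt, hxne⟩)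
  rw [hc1, Subgroup.index_top, mul_one] at hi1
  have hpos1 : 0 < T1.index := Nat.pos_of_ne_zero Subgroup.index_ne_zero_of_finite
  have hD1 : (T1.map f).index ≤ Fintype.card K :=
    (Nat.le_of_dvd hpos1 (T1.index_map_dvd hfs)).trans hi1
  have hZ : HeisK.subZ K ≤ T1.map f := by
    refine HeisK.subZ_le hD1 ?_
    rintro d ⟨z, hz, rfl⟩ hb0
    by_contra ha
    have hfix := ((hT1 z).1 hz).2
    rw [show ρP z x = z.1.1.1.1 x from rfl] at hfix
    set d : HeisK K := z.1.1.2 with hd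
    have hfz : f z = d := rfl
    rw [hfz] at hb0 ha
    set κ : Fin 3 → K := d.a • m + d.c • k0 with hκ
    have hkκ : k0 ⨯₃ κ ≠ 0 := by
      rw [hκ, map_add, map_smul, map_smul, cross_self, smul_zero, add_zero]
      exact smul_ne_zero ha hkm
    obtain ⟨i, hi⟩ : ∃ i, (k0 ⨯₃ κ) i ≠ 0 := by
      by_contra h
      push Not at h
      exact hkκ (funext h)
    set e : Fin 3 → K := Pi.single i 1 with he
    have hke : (k0 ⨯₃ κ) ⬝ᵥ e ≠ 0 := by simp [he, hi]
    have e1 : κ ⬝ᵥ (κ ⨯₃ e) = 0 := dot_self_cross κ e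
    have e2 : k0 ⬝ᵥ (κ ⨯₃ e) ≠ 0 := by
      have : k0 ⬝ᵥ (κ ⨯₃ e) = (k0 ⨯₃ κ) ⬝ᵥ e := by
        rw [cross_apply', cross_apply', dot3, dot3]
        simp
        ring
      rwa [this]
    set r : Fin 3 → K := κ ⨯₃ e with hr
    have hr0 : r ≠ 0 := by
      intro h
      rw [h, dotProduct_zero] at e2
      exact e2 rfl
    have e2' : r ⬝ᵥ k0 ≠ 0 := by rwa [dotProduct_comm]
    obtain ⟨n', hn', hnear⟩ := theta_exists H S hox hovx hr0
    have hvn : v0 ⬝ᵥ n' ≠ 0 := near_opp H S hox hovx hn' hnear e2'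
    have hnear2 := (aut_near (mem_liftG S z.1.2).aut).2 hnear
    have hflag2 := (mem_liftG S z.1.2).flag.2 hn'
    rw [hfix, (mem_liftG S z.1.2).act _ _ hn', heisA_apply, heisB_apply] at hnear2
    rw [heisA_apply, heisB_apply] at hflag2
    have eV : hV v0 k0 u m z.1.1.2 r = r := by
      have : hV v0 k0 u m z.1.1.2 r = r + (κ ⬝ᵥ r) • v0 := by
        rw [hV, ← hd, hb0, hκ, add_dotProduct, smul_dotProduct, smul_dotProduct, smul_eq_mul,
          smul_eq_mul]
        module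
      rw [this, e1, zero_smul, add_zero]
    have eK : hK v0 k0 u m z.1.1.2 n' = n' - (v0 ⬝ᵥ n') • κ := by
      rw [hK, ← hd, hb0, hκ]
      module
    rw [eV, eK] at hnear2 hflag2
    have h3 := theta_unique H S hox hovx e2' hn' hflag2 hnear hnear2
    rw [map_sub, cross_self, zero_sub, map_smul, neg_eq_zero] at h3
    have h4 : n' ⨯₃ κ = 0 := (smul_eq_zero.1 h3).resolve_left hvn
    have hκ0 : κ ≠ 0 := by
      intro h
      rw [h] at hkκ
      exact hkκ (by simp)
    obtain ⟨c, hc0, hc1⟩ := (cross_eq_zero_iff hn'.2.1 hκ0).1 h4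
    have h5 : v0 ⬝ᵥ κ = 0 := by
      rw [hκ, dotProduct_add, dotProduct_smul, dotProduct_smul, dotProduct_comm v0 m,
        dotProduct_comm v0 k0, hb.h1, hb.h2, smul_zero, smul_zero, add_zero]
    rw [hc1, dotProduct_smul, smul_eq_mul] at h5
    exact (mul_ne_zero hc0 hvn) h5
  refine ⟨fun v k hov s => ?_, fun M y y' hM hxM hy hy' hne hne' => ?_⟩
  · obtain ⟨h1, h2⟩ := over_unique H S hox hovx hov
    obtain ⟨a, ha0, ha⟩ := (cross_eq_zero_iff hf0.1 hov.1.1).1 h1
    obtain ⟨b, hb0, hbk⟩ := (cross_eq_zero_iff hf0.2.1 hov.1.2.1).1 h2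
    have hmem : (⟨0, 0, s * a * b⟩ : HeisK K) ∈ T1.map f := hZ ⟨rfl, rfl⟩
    obtain ⟨z, hz, hzd⟩ := hmem
    have hzd' : z.1.1.2 = ⟨0, 0, s * a * b⟩ := hzd
    refine ⟨z.1.1.1, (mem_liftG S z.1.2).aut, fun v' k' hf' => ?_, ((hT1 z).1 hz).2⟩
    rw [(mem_liftG S z.1.2).act _ _ hf', heisA_apply, heisB_apply, hzd', hV, hK, ha, hbk]
    congr 1
    · ext i
      simp only [smul_dotProduct, Pi.add_apply, Pi.smul_apply, smul_eq_mul]
      ring
    · ext i
      simp only [smul_dotProduct, Pi.add_apply, Pi.sub_apply, Pi.smul_apply, smul_eq_mul]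
      ring
  · have hMt : M ≠ t := by
      rintro rfl
      exact hM v0 k0 hf0 ht.2.1
    obtain ⟨hf2, hc2⟩ := lns_card H hxt
    obtain ⟨T2, hT2, hi2⟩ := step_index ρL T1 hf2 (fun z hz l hl => by
      have h1 := ((hT1 z).1 hz).2
      rw [show ρP z x = z.1.1.1.1 x from rfl] at h1
      have h2 := hPt' z.1 z.2
      refine ⟨?_, ?_⟩
      · have := ((mem_liftG S z.1.2).aut x l).2 hl.1
        rw [h1] at this
        exact this
      · intro h
        have h' : z.1.1.1.2 l = z.1.1.1.2 t := by rw [h2]; exact h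
        exact hl.2 (z.1.1.1.2.injective h')) (show M ∈ {l | I x l ∧ l ≠ t} from ⟨hxM, hMt⟩)
    rw [hc2] at hi2
    obtain ⟨T3, hT3, hi3⟩ := stab_index ρP T2 y
    have hbot : T3.map f = ⊥ := by
      rw [eq_bot_iff]
      rintro d ⟨z, hz, rfl⟩
      rw [Subgroup.mem_bot]
      exact mover_free H S hb hkm hvu hM hy hxM hne hovx z.1.2 ((hT3 z).1 hz).2
    have hdvd := T3.index_map_dvd hfs
    rw [hbot, Subgroup.index_bot, HeisK.card_heis] at hdvd
    have hpos3 : 0 < T3.index := Nat.pos_of_ne_zero Subgroup.index_ne_zero_of_finite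
    have hge := Nat.le_of_dvd hpos3 hdvd
    obtain ⟨hf4, hc4⟩ := pts_card H hxM
    have hsub : {w | ∃ g ∈ T2, ρP g y = w} ⊆ {w | I w M ∧ w ≠ x} := by
      rintro w ⟨z, hz, rfl⟩
      have h1 := ((hT2 z).1 hz).2
      have h2 := ((hT1 z).1 ((hT2 z).1 hz).1).2
      rw [show ρL z M = z.1.1.1.2 M from rfl] at h1
      rw [show ρP z x = z.1.1.1.1 x from rfl] at h2
      refine ⟨?_, ?_⟩
      · have := ((mem_liftG S z.1.2).aut y M).2 hy
        rw [h1] at this
        exact this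
      · intro h
        have h' : z.1.1.1.1 y = z.1.1.1.1 x := by rw [h2]; exact h
        exact hne (z.1.1.1.1.injective h')
    have hcard : {w | I w M ∧ w ≠ x}.ncard ≤ {w | ∃ g ∈ T2, ρP g y = w}.ncard := by
      rw [hc4]
      by_contra hlt
      push Not at hlt
      have : T3.index < Fintype.card K ^ 3 := by
        rw [hi3]
        calc _ ≤ {w | ∃ g ∈ T2, ρP g y = w}.ncard * (Fintype.card K * T1.index) :=
              Nat.mul_le_mul_left _ hi2
          _ ≤ {w | ∃ g ∈ T2, ρP g y = w}.ncard * (Fintype.card K * Fintype.card K) :=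
              Nat.mul_le_mul_left _ (Nat.mul_le_mul_left _ hi1)
          _ < Fintype.card K * (Fintype.card K * Fintype.card K) :=
              Nat.mul_lt_mul_of_pos_right hlt (by positivity)
          _ = Fintype.card K ^ 3 := by ring
      omega
    have heq := Set.eq_of_subset_of_ncard_le hsub hcard hf4
    have hmem : y' ∈ {w | ∃ g ∈ T2, ρP g y = w} := by
      rw [heq]
      exact ⟨hy', hne'⟩
    obtain ⟨z, hz, hzy⟩ := hmem
    exact ⟨z.1.1.1, _, _, mem_liftG S z.1.2, ((hT1 z).1 ((hT2 z).1 hz).1).2, hzy⟩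

end

end Pool.Agent.Lib.MP_6b0fe3_coR
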