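import Pool.Agent.Lib.MP_6b0fe3_coR.Vec

/-! MP_6b0fe3_co, recognition theorem: the model of H(q) on Q(6,q) -/

namespace Pool.Agent.Lib.MP_6b0fe3_coR

open Matrix

/-! N: the model -/

section N
variable {K : Type*} [Field K]

/-- `(w, a, ψ)` as a vector of length 7 -/
def v7 (w : Fin 3 → K) (a : K) (ψ : Fin 3 → K) : Fin 7 → K :=
  ![w 0, w 1, w 2, a, ψ 0, ψ 1, ψ 2]

theorem v7_inj {w w' ψ ψ' : Fin 3 → K} {a a' : K} :
    v7 w a ψ = v7 w' a' ψ' ↔ w = w' ∧ a = a' ∧ ψ = ψ' := by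
  constructor
  · intro h
    have h0 := congrFun h 0
    have h1 := congrFun h 1
    have h2 := congrFun h 2
    have h3 := congrFun h 3
    have h4 := congrFun h 4
    have h5 := congrFun h 5
    have h6 := congrFun h 6
    simp only [v7, Matrix.cons_val] at h0 h1 h2 h3 h4 h5 h6
    refine ⟨?_, h3, ?_⟩
    · ext i; fin_cases i <;> assumption
    · ext i; fin_cases i <;> assumption
  · rintro ⟨rfl, rfl, rfl⟩; rfl

theorem v7_smul (c : K) (w : Fin 3 → K) (a : K) (ψ : Fin 3 → K) :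
    c • v7 w a ψ = v7 (c • w) (c * a) (c • ψ) := by
  ext i; fin_cases i <;> simp [v7]

theorem v7_add (w w' : Fin 3 → K) (a a' : K) (ψ ψ' : Fin 3 → K) :
    v7 w a ψ + v7 w' a' ψ' = v7 (w + w') (a + a') (ψ + ψ') := by
  ext i; fin_cases i <;> simp [v7]

theorem v7_zero : v7 (0 : Fin 3 → K) 0 0 = 0 := by
  ext i; fin_cases i <;> simp [v7]

theorem v7_eq_zero {w ψ : Fin 3 → K} {a : K} : v7 w a ψ = 0 ↔ w = 0 ∧ a = 0 ∧ ψ = 0 := by
  rw [← v7_zero, v7_inj]

theorem exists_v7 (x : Fin 7 → K) : ∃ w a ψ, x = v7 w a ψ := by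
  refine ⟨![x 0, x 1, x 2], x 3, ![x 4, x 5, x 6], ?_⟩
  ext i; fin_cases i <;> simp [v7]

theorem quad_v7 (w ψ : Fin 3 → K) (a : K) : quad (v7 w a ψ) = ψ ⬝ᵥ w - a ^ 2 := by
  rw [dot3]
  simp only [quad, v7, Matrix.cons_val]
  ring

theorem quad_smul (c : K) (x : Fin 7 → K) : quad (c • x) = c ^ 2 * quad x := by
  simp only [quad, Pi.smul_apply, smul_eq_mul]
  ring

/-- polar form -/
def pol (x y : Fin 7 → K) : K :=
  x 0 * y 4 + x 4 * y 0 + x 1 * y 5 + x 5 * y 1 + x 2 * y 6 + x 6 * y 2 - 2 * x 3 * y 3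

theorem quad_comb (a b : K) (x y : Fin 7 → K) :
    quad (a • x + b • y) = a ^ 2 * quad x + b ^ 2 * quad y + a * b * pol x y := by
  simp only [quad, pol, Pi.add_apply, Pi.smul_apply, smul_eq_mul]
  ring

theorem pol_v7 (w ψ w' ψ' : Fin 3 → K) (a a' : K) :
    pol (v7 w a ψ) (v7 w' a' ψ') = ψ' ⬝ᵥ w + ψ ⬝ᵥ w' - 2 * a * a' := by
  rw [dot3, dot3]
  simp only [pol, v7, Matrix.cons_val]
  ring

theorem gr_comb (a b c d : K) (x y : Fin 7 → K) (i j : Fin 7) :
    gr (a • x + b • y) (c • x + d • y) i j = (a * d - b * c) * gr x y i j := by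
  simp only [gr, Pi.add_apply, Pi.smul_apply, smul_eq_mul]
  ring

/-- Tits' equations -/
def Tits (x y : Fin 7 → K) : Prop :=
  gr x y 1 2 = gr x y 3 4 ∧ gr x y 5 4 = gr x y 3 2 ∧
      gr x y 2 0 = gr x y 3 5 ∧ gr x y 6 5 = gr x y 3 0 ∧
      gr x y 0 1 = gr x y 3 6 ∧ gr x y 4 6 = gr x y 3 1

theorem tits_span {x y : Fin 7 → K} (h : Tits x y) :
    ∀ u ∈ Submodule.span K {x, y}, ∀ z ∈ Submodule.span K {x, y}, Tits u z := by
  intro u hu z hz
  rw [Submodule.mem_span_pair] at hu hz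
  obtain ⟨a, b, rfl⟩ := hu
  obtain ⟨c, d, rfl⟩ := hz
  obtain ⟨h1, h2, h3, h4, h5, h6⟩ := h
  refine ⟨?_, ?_, ?_, ?_, ?_, ?_⟩ <;> rw [gr_comb, gr_comb]
  · rw [h1]
  · rw [h2]
  · rw [h3]
  · rw [h4]
  · rw [h5]
  · rw [h6]

theorem quad_span {x y : Fin 7 → K} (hx : quad x = 0) (hy : quad y = 0) (hp : pol x y = 0) :
    ∀ u ∈ Submodule.span K {x, y}, quad u = 0 := by
  intro u hu
  rw [Submodule.mem_span_pair] at hu
  obtain ⟨a, b, rfl⟩ := hu
  rw [quad_comb, hx, hy, hp]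
  ring

theorem tits_v7 (w ψ w' ψ' : Fin 3 → K) (a a' : K) :
    Tits (v7 w a ψ) (v7 w' a' ψ') ↔ w ⨯₃ w' = a • ψ' - a' • ψ ∧ ψ ⨯₃ ψ' = a' • w - a • w' := by
  rw [cross_apply', cross_apply']
  constructor
  · rintro ⟨h1, h2, h3, h4, h5, h6⟩
    simp only [gr, v7, Matrix.cons_val] at h1 h2 h3 h4 h5 h6
    constructor
    · ext i
      fin_cases i
      · simp only [Pi.sub_apply, Pi.smul_apply, smul_eq_mul, Matrix.cons_val, Fin.zero_eta]
        linear_combination h1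
      · simp only [Pi.sub_apply, Pi.smul_apply, smul_eq_mul, Matrix.cons_val, Fin.mk_one]
        linear_combination h3
      · simp only [Pi.sub_apply, Pi.smul_apply, smul_eq_mul, Matrix.cons_val, Fin.reduceFinMk]
        linear_combination h5
    · ext i
      fin_cases i
      · simp only [Pi.sub_apply, Pi.smul_apply, smul_eq_mul, Matrix.cons_val, Fin.zero_eta]
        linear_combination -h4
      · simp only [Pi.sub_apply, Pi.smul_apply, smul_eq_mul, Matrix.cons_val, Fin.mk_one]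
        linear_combination -h6
      · simp only [Pi.sub_apply, Pi.smul_apply, smul_eq_mul, Matrix.cons_val, Fin.reduceFinMk]
        linear_combination -h2
  · rintro ⟨h, h'⟩
    have h0 := congrFun h 0
    have h1 := congrFun h 1
    have h2 := congrFun h 2
    have g0 := congrFun h' 0
    have g1 := congrFun h' 1
    have g2 := congrFun h' 2
    simp only [Pi.sub_apply, Pi.smul_apply, smul_eq_mul, Matrix.cons_val] at h0 h1 h2 g0 g1 g2
    refine ⟨?_, ?_, ?_, ?_, ?_, ?_⟩ <;> simp only [gr, v7, Matrix.cons_val]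
    · linear_combination h0
    · linear_combination -g2
    · linear_combination h1
    · linear_combination -g0
    · linear_combination h2
    · linear_combination -g1

end N

end Pool.Agent.Lib.MP_6b0fe3_coR
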