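import Pool.Agent.Lib.MP_6b0fe3_coR.BaseH

/-! MP_6b0fe3_co, recognition theorem: the function sigma -/

namespace Pool.Agent.Lib.MP_6b0fe3_coR

open Matrix

/-- three vectors orthogonal to a nonzero vector are coplanar -/
theorem det_zero_of_orth {K : Type*} [Field K] {χ a b c : Fin 3 → K} (hχ : χ ≠ 0)
    (ha : χ ⬝ᵥ a = 0) (hb : χ ⬝ᵥ b = 0) (hc : χ ⬝ᵥ c = 0) : a ⬝ᵥ (b ⨯₃ c) = 0 := by
  obtain ⟨i, hi⟩ : ∃ i, χ i ≠ 0 := by
    by_contra h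
    push Not at h
    exact hχ (funext h)
  rw [dot3] at ha hb hc
  rw [cross_apply', dot3]
  simp only [cons_val_zero, cons_val_one, cons_val]
  apply mul_left_cancel₀ hi
  rw [mul_zero]
  fin_cases i
  · simp only [Fin.zero_eta, Fin.isValue]
    linear_combination (b 1 * c 2 - b 2 * c 1) * ha + (c 1 * a 2 - c 2 * a 1) * hb
      + (a 1 * b 2 - a 2 * b 1) * hc
  · simp only [Fin.mk_one, Fin.isValue]
    linear_combination (b 2 * c 0 - b 0 * c 2) * ha + (c 2 * a 0 - c 0 * a 2) * hb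
      + (a 2 * b 0 - a 0 * b 2) * hc
  · simp only [Fin.reduceFinMk, Fin.isValue]
    linear_combination (b 0 * c 1 - b 1 * c 0) * ha + (c 0 * a 1 - c 1 * a 0) * hb
      + (a 0 * b 1 - a 1 * b 0) * hc

theorem exists_dot_one {K : Type*} [Field K] {φ : Fin 3 → K} (hφ : φ ≠ 0) :
    ∃ e : Fin 3 → K, φ ⬝ᵥ e = 1 := by
  obtain ⟨i, hi⟩ : ∃ i, φ i ≠ 0 := by
    by_contra h
    push Not at h
    exact hφ (funext h)
  exact ⟨Pi.single i (φ i)⁻¹, by rw [dotProduct_single, mul_inv_cancel₀ hi]⟩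

section main
variable {K : Type*} [Field K] [Fintype K] {Pt Ln : Type*} {I : Pt → Ln → Prop}
variable (H : Hex I (Fintype.card K)) (S : Sub K I)
include H

/-! I: the function sigma -/

theorem sigma_exists (hLB : LB S) {M : Ln} (hM : BLine S M) {w ψ : Fin 3 → K} (hψ : ψ ⬝ᵥ w = 1)
    (hb : ∀ v, v ≠ 0 → ψ ⬝ᵥ v = 0 → ∃ x, I x M ∧ Over S x v (w ⨯₃ v))
    {x : Pt} {v : Fin 3 → K} (hv : ψ ⬝ᵥ v = 0) (hx : I x M) (h : Over S x v (w ⨯₃ v)) :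
    ∃ σ : K, σ ≠ 0 ∧ ∀ r, (ψ + w ⨯₃ v) ⬝ᵥ r = 0 → (w ⨯₃ v) ⬝ᵥ r ≠ 0 →
      Near I x (S.pt r (r ⨯₃ (w + σ • v))) := by
  have hox := out_of_bline H S hM hx
  have hv0 : v ≠ 0 := h.1.1
  have hφ0 : w ⨯₃ v ≠ 0 := h.1.2.1
  have hφw : (w ⨯₃ v) ⬝ᵥ w = 0 := by rw [dotProduct_comm]; exact dot_self_cross w v
  have hφv : (w ⨯₃ v) ⬝ᵥ v = 0 := by rw [dotProduct_comm]; exact dot_cross_self w v
  have hχw : (ψ + w ⨯₃ v) ⬝ᵥ w = 1 := by rw [add_dotProduct, hψ, hφw, add_zero]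
  have hχv : (ψ + w ⨯₃ v) ⬝ᵥ v = 0 := by rw [add_dotProduct, hv, hφv, add_zero]
  have hχ0 : ψ + w ⨯₃ v ≠ 0 := by
    intro h0
    rw [h0, zero_dotProduct] at hχw
    exact zero_ne_one hχw
  obtain ⟨e, he⟩ := exists_dot_one hφ0
  -- the point r0
  obtain ⟨r0, hr0χ, hr0φ⟩ : ∃ r0 : Fin 3 → K, (ψ + w ⨯₃ v) ⬝ᵥ r0 = 0 ∧ (w ⨯₃ v) ⬝ᵥ r0 = 1 := by
    refine ⟨e - ((ψ + w ⨯₃ v) ⬝ᵥ e) • w, ?_, ?_⟩
    · rw [dotProduct_sub, dotProduct_smul, hχw, smul_eq_mul, mul_one, sub_self]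
    · rw [dotProduct_sub, dotProduct_smul, hφw, smul_zero, sub_zero, he]
  have hr0 : r0 ≠ 0 := by
    rintro rfl
    rw [dotProduct_zero] at hr0φ
    exact zero_ne_one hr0φ
  have hr0φ' : r0 ⬝ᵥ (w ⨯₃ v) ≠ 0 := by
    rw [dotProduct_comm, hr0φ]
    exact one_ne_zero
  obtain ⟨m0, hm0, hn0⟩ := theta_exists H S hox h hr0
  have hvm : v ⬝ᵥ m0 ≠ 0 := near_opp H S hox h hm0 hn0 hr0φ'
  obtain ⟨α, β, hαβ⟩ := exists_comb hφ0 (u := m0 ⨯₃ (w ⨯₃ v)) (by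
    rw [dotProduct_comm]; exact dot_cross_self m0 (w ⨯₃ v))
  have hm0c : m0 ⬝ᵥ (m0 ⨯₃ (w ⨯₃ v)) = 0 := dot_self_cross m0 _
  have hα : α ≠ 0 := by
    rintro rfl
    rw [zero_smul, zero_add] at hαβ
    rw [hαβ, dotProduct_smul, smul_eq_mul, mul_eq_zero, dotProduct_comm m0 v] at hm0c
    have hβ : β = 0 := hm0c.resolve_right hvm
    rw [hβ, zero_smul] at hαβ
    obtain ⟨c, hc0, hc1⟩ := (cross_eq_zero_iff hm0.2.1 hφ0).1 hαβ
    have : v ⬝ᵥ (w ⨯₃ v) = 0 := dot_cross_self w v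
    rw [hc1, dotProduct_smul, smul_eq_mul, mul_eq_zero] at this
    exact hvm (this.resolve_left hc0)
  have hcomb : m0 ⨯₃ (w ⨯₃ v) = α • (w + (β / α) • v) := by
    rw [hαβ, smul_add, smul_smul, mul_div_cancel₀ _ hα]
  -- the formula for all r
  have hall : ∀ r, (ψ + w ⨯₃ v) ⬝ᵥ r = 0 → (w ⨯₃ v) ⬝ᵥ r ≠ 0 →
      Near I x (S.pt r (r ⨯₃ (w + (β / α) • v))) := by
    intro r hr1 hr2
    have hdet : v ⬝ᵥ (r0 ⨯₃ r) = 0 := det_zero_of_orth hχ0 hχv hr0χ hr1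
    have hr2' : r ⬝ᵥ (w ⨯₃ v) ≠ 0 := by rwa [dotProduct_comm]
    have hn := near_class H S hLB hox h hm0 hn0 hr0φ' hr2' hdet
    have hr : r ≠ 0 := by
      rintro rfl
      rw [zero_dotProduct] at hr2'
      exact hr2' rfl
    have hwv : w + (β / α) • v ≠ 0 := by
      intro h0
      have : (ψ + w ⨯₃ v) ⬝ᵥ (w + (β / α) • v) = 1 := by
        rw [dotProduct_add, dotProduct_smul, hχw, hχv, smul_zero, add_zero]
      rw [h0, dotProduct_zero] at this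
      exact zero_ne_one this
    have hf : IsFlag r (r ⨯₃ (w + (β / α) • v)) := by
      refine ⟨hr, ?_, dot_self_cross r _⟩
      intro h0
      obtain ⟨c, hc0, hc1⟩ := (cross_eq_zero_iff hwv hr).1 (cross_zero_symm h0)
      apply hr2
      rw [hc1, dotProduct_smul, dotProduct_add, dotProduct_smul, hφw, hφv]
      simp
    have e1 : r ⨯₃ (m0 ⨯₃ (w ⨯₃ v)) = α • (r ⨯₃ (w + (β / α) • v)) := by
      rw [hcomb, map_smul]
    have p := pt_smul' S hf (a := 1) (b := α) one_ne_zero hα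
    rw [one_smul, ← e1] at p
    rw [← p.2]
    exact hn
  refine ⟨β / α, ?_, hall⟩
  intro hσ
  rw [hσ, zero_smul, add_zero] at hall
  have hn1 := hall r0 hr0χ (by rw [hr0φ]; exact one_ne_zero)
  have hw0 : w ≠ 0 := by
    rintro rfl
    rw [dotProduct_zero] at hψ
    exact zero_ne_one hψ
  have hm : r0 ⨯₃ w ≠ 0 := by
    intro h0
    obtain ⟨c, hc0, hc1⟩ := (cross_eq_zero_iff hw0 hr0).1 (cross_zero_symm h0)
    rw [hc1, dotProduct_smul, hφw, smul_zero] at hr0φ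
    exact zero_ne_one hr0φ
  have hf1 : IsFlag r0 (r0 ⨯₃ w) := ⟨hr0, hm, dot_self_cross r0 w⟩
  have hvm1 : v ⬝ᵥ (r0 ⨯₃ w) ≠ 0 := near_opp H S hox h hf1 hn1 hr0φ'
  -- the point s on ψ
  set s := r0 - (ψ ⬝ᵥ r0) • w with hs
  have hψs : ψ ⬝ᵥ s = 0 := by
    rw [hs, dotProduct_sub, dotProduct_smul, hψ, smul_eq_mul, mul_one, sub_self]
  have hφs : (w ⨯₃ v) ⬝ᵥ s = 1 := by
    rw [hs, dotProduct_sub, dotProduct_smul, hφw, smul_zero, sub_zero, hr0φ]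
  have hs0 : s ≠ 0 := by
    intro h0
    rw [h0, dotProduct_zero] at hφs
    exact zero_ne_one hφs
  obtain ⟨y, hy, hoy⟩ := hb s hs0 hψs
  have esw : w ⨯₃ s = (-1 : K) • (r0 ⨯₃ w) := by
    rw [hs, map_sub, map_smul, cross_self, smul_zero, sub_zero, ← cross_anticomm, neg_one_smul]
  have hf2 : IsFlag s (r0 ⨯₃ w) := by
    refine ⟨hs0, hm, ?_⟩
    have := dot_cross_self w s
    rw [esw, dotProduct_smul, smul_eq_mul, mul_eq_zero] at this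
    exact this.resolve_left (neg_ne_zero.2 one_ne_zero)
  have hn2 : Near I x (S.pt s (r0 ⨯₃ w)) := by
    have p := pt_smul' S hf2 (a := 1) (b := -1) one_ne_zero (neg_ne_zero.2 one_ne_zero)
    rw [one_smul, ← esw] at p
    rw [← p.2]
    exact ⟨y, ⟨M, hx, hy⟩, hoy.2⟩
  have hpar := theta_unique' H S hox h hvm1 hf1 hf2 hn1 hn2
  have : r0 ⨯₃ s = (-(ψ ⬝ᵥ r0)) • (r0 ⨯₃ w) := by
    rw [hs, map_sub, map_smul, cross_self, zero_sub, neg_smul]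
  rw [this] at hpar
  have hz : ψ ⬝ᵥ r0 = 0 := by
    rcases smul_eq_zero.1 hpar with h0 | h0
    · exact neg_eq_zero.1 h0
    · exact absurd h0 hm
  rw [add_dotProduct, hz, hr0φ, zero_add] at hr0χ
  exact one_ne_zero hr0χ

theorem sigma_pencil {M : Ln} (hM : BLine S M) {w ψ : Fin 3 → K} (hψ : ψ ⬝ᵥ w = 1)
    (hb : ∀ v, v ≠ 0 → ψ ⬝ᵥ v = 0 → ∃ x, I x M ∧ Over S x v (w ⨯₃ v))
    {x x' : Pt} {v v' : Fin 3 → K} (hv : ψ ⬝ᵥ v = 0) (hx : I x M) (h : Over S x v (w ⨯₃ v))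
    (hv' : ψ ⬝ᵥ v' = 0) (hx' : I x' M) (h' : Over S x' v' (w ⨯₃ v')) (hvv : v ⨯₃ v' ≠ 0)
    {σ σ' : K} (hσ : σ ≠ 0) (hσ' : σ' ≠ 0)
    (hs : ∀ r, (ψ + w ⨯₃ v) ⬝ᵥ r = 0 → (w ⨯₃ v) ⬝ᵥ r ≠ 0 → Near I x (S.pt r (r ⨯₃ (w + σ • v))))
    (hs' : ∀ r, (ψ + w ⨯₃ v') ⬝ᵥ r = 0 → (w ⨯₃ v') ⬝ᵥ r ≠ 0 →
      Near I x' (S.pt r (r ⨯₃ (w + σ' • v')))) :
    σ'⁻¹ - σ⁻¹ ≠ - (w ⬝ᵥ (v ⨯₃ v')) := by
  intro heq
  set ω := w ⬝ᵥ (v ⨯₃ v') with hω
  have hω0 : ω ≠ 0 := by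
    intro h0
    obtain ⟨a, b, hab⟩ := exists_comb hvv (u := w) h0
    rw [hab, dotProduct_add, dotProduct_smul, dotProduct_smul, hv, hv'] at hψ
    simp at hψ
  have heq' : σ * σ' * ω + σ - σ' = 0 := by
    have : ω = σ⁻¹ - σ'⁻¹ := by linear_combination heq
    rw [this]
    field_simp
    ring
  set r := w + (ω⁻¹ • v - ω⁻¹ • v') with hr
  have t1 : (w ⨯₃ v) ⬝ᵥ w = 0 := by rw [dotProduct_comm]; exact dot_self_cross w v
  have t2 : (w ⨯₃ v) ⬝ᵥ v = 0 := by rw [dotProduct_comm]; exact dot_cross_self w v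
  have t3 : (w ⨯₃ v') ⬝ᵥ w = 0 := by rw [dotProduct_comm]; exact dot_self_cross w v'
  have t4 : (w ⨯₃ v') ⬝ᵥ v' = 0 := by rw [dotProduct_comm]; exact dot_cross_self w v'
  have t5 : (w ⨯₃ v) ⬝ᵥ v' = ω := by
    rw [hω, cross_apply', cross_apply', dot3, dot3]
    simp
    ring
  have t6 : (w ⨯₃ v') ⬝ᵥ v = -ω := by
    rw [hω, cross_apply', cross_apply', dot3, dot3]
    simp
    ring
  have hψr : ψ ⬝ᵥ r = 1 := by
    rw [hr, dotProduct_add, dotProduct_sub, dotProduct_smul, dotProduct_smul, hv, hv', hψ]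
    simp
  have hφr : (w ⨯₃ v) ⬝ᵥ r = -1 := by
    rw [hr, dotProduct_add, dotProduct_sub, dotProduct_smul, dotProduct_smul, t1, t2, t5]
    simp [hω0]
  have hφr' : (w ⨯₃ v') ⬝ᵥ r = -1 := by
    rw [hr, dotProduct_add, dotProduct_sub, dotProduct_smul, dotProduct_smul, t3, t4, t6]
    simp [hω0]
  have hn := hs r (by rw [add_dotProduct, hψr, hφr]; ring) (by rw [hφr]; exact neg_ne_zero.2 one_ne_zero)
  have hn' := hs' r (by rw [add_dotProduct, hψr, hφr']; ring)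
    (by rw [hφr']; exact neg_ne_zero.2 one_ne_zero)
  have hr0 : r ≠ 0 := by
    intro h0
    rw [h0, dotProduct_zero] at hψr
    exact zero_ne_one hψr
  have flagAux : ∀ (u : Fin 3 → K) (τ : K), ψ ⬝ᵥ u = 0 → (w ⨯₃ u) ⬝ᵥ w = 0 → (w ⨯₃ u) ⬝ᵥ u = 0 →
      (w ⨯₃ u) ⬝ᵥ r = -1 → IsFlag r (r ⨯₃ (w + τ • u)) := by
    intro u τ h1 h2 h3 h4
    refine ⟨hr0, ?_, dot_self_cross r _⟩
    intro h0
    have hne : w + τ • u ≠ 0 := by
      intro h5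
      have : ψ ⬝ᵥ (w + τ • u) = 1 := by rw [dotProduct_add, dotProduct_smul, h1, hψ]; simp
      rw [h5, dotProduct_zero] at this
      exact zero_ne_one this
    obtain ⟨c, hc0, hc1⟩ := (cross_eq_zero_iff hne hr0).1 (cross_zero_symm h0)
    rw [hc1, dotProduct_smul, dotProduct_add, dotProduct_smul, h2, h3] at h4
    simp at h4
  have hf := flagAux v σ hv t1 t2 hφr
  have hf' := flagAux v' σ' hv' t3 t4 hφr'
  have hpar : (r ⨯₃ (w + σ • v)) ⨯₃ (r ⨯₃ (w + σ' • v')) = 0 := by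
    have hdet : (w + σ' • v') ⬝ᵥ (r ⨯₃ (w + σ • v)) = 0 := by
      have : (w + σ' • v') ⬝ᵥ (r ⨯₃ (w + σ • v)) = σ * σ' * ω + σ - σ' +
          (0 : K) := by
        have hωe : ω⁻¹ * ω = 1 := inv_mul_cancel₀ hω0
        have expand : (w + σ' • v') ⬝ᵥ (r ⨯₃ (w + σ • v)) =
            (σ * σ' + σ * ω⁻¹ - σ' * ω⁻¹) * (w ⬝ᵥ (v ⨯₃ v')) := by
          rw [hr, cross_apply', cross_apply', dot3, dot3]
          simp
          ring
        rw [expand, ← hω]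
        linear_combination (σ - σ') * hωe
      rw [this, heq', add_zero]
    have e : (r ⨯₃ (w + σ • v)) ⨯₃ (r ⨯₃ (w + σ' • v')) =
        ((w + σ' • v') ⬝ᵥ (r ⨯₃ (w + σ • v))) • r := by
      rw [cross_cross_right, dotProduct_comm (r ⨯₃ (w + σ • v)) (w + σ' • v'),
        dotProduct_comm (r ⨯₃ (w + σ • v)) r, dot_self_cross, zero_smul, sub_zero]
    rw [e, hdet, zero_smul]
  have hpt : S.pt r (r ⨯₃ (w + σ' • v')) = S.pt r (r ⨯₃ (w + σ • v)) :=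
    (S.pt_eq hf' hf).2 ⟨cross_self r, cross_zero_symm hpar⟩
  rw [hpt] at hn'
  have hxx : x ≠ x' := by
    rintro rfl
    exact hvv (over_unique H S (out_of_bline H S hM hx) h h').1
  obtain ⟨z, hz, hoz⟩ := pencil H S hM hx hx' hxx hf hn hn'
  have := (base_only H S hM hψ hb hz hoz).1
  rw [hψr] at this
  exact one_ne_zero this

end main

end Pool.Agent.Lib.MP_6b0fe3_coR
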