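import Pool.Agent.Lib.MP_6b0fe3_coR.Defs

/-!
MP_6b0fe3_co: definitions that shorten the final statements
-/

namespace Pool.Agent.Lib.MP_6b0fe3_coR

/-- The points of `PG(2,K)`; also its lines, given by their dual coordinates. -/
def Plane (K : Type*) [Field K] : Type _ := Projectivization K (Fin 3 → K)

/-- the point `P` lies on the line `L` -/
def OnLine {K : Type*} [Field K] [DecidableEq K] (P L : Plane K) : Prop :=
  Projectivization.orthogonal (F := K) (m := Fin 3) P L

/-- `a` (on the flags) and `b` (on the points and lines of `PG(2,K)`) embed `H(q,1)` in the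
geometry with incidence relation `I` as a subgeometry. -/
structure IsSubHq1 {K : Type*} [Field K] [DecidableEq K] {Pt Ln : Type*} (I : Pt → Ln → Prop)
    (a : Flag K → Pt) (b : Plane K ⊕ Plane K → Ln) : Prop where
  injPt : Function.Injective a
  injLn : Function.Injective b
  inc : ∀ f e, I (a f) (b e) ↔ flagInc f e

/-- the subspace of `K^7` that is a point of `H(q)` -/
def HPoint.space {K : Type*} [Field K] (U : HPoint K) : Submodule K (Fin 7 → K) := U.1

/-- the subspace of `K^7` that is a line of `H(q)` -/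
def HLine.space {K : Type*} [Field K] (W : HLine K) : Submodule K (Fin 7 → K) := W.1

/-- The geometry with incidence relation `I` is isomorphic to the dual `H(q)^D` of the split Cayley
hexagon: its points correspond to the lines of `H(q)`, its lines to the points of `H(q)`. -/
def IsDualHq (K : Type*) [Field K] {Pt Ln : Type*} (I : Pt → Ln → Prop) : Prop :=
  ∃ (e₁ : Pt ≃ HLine K) (e₂ : Ln ≃ HPoint K), ∀ x l, I x l ↔ (e₂ l).space ≤ (e₁ x).space

/-- `g` (on points) and `h` (on lines) form an automorphism of the geometry. -/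
def IsAutomorphism {Pt Ln : Type*} (I : Pt → Ln → Prop) (g : Equiv.Perm Pt) (h : Equiv.Perm Ln) :
    Prop := ∀ x l, I (g x) (h l) ↔ I x l

/-- The elation `v ↦ v + (m ⬝ v) u` of `PG(2,K)`, `u ⬝ m = 0` (centre `u`, axis `m`; on dual
coordinates it is `k ↦ k - (u ⬝ k) m`), maps the flag `f` to the flag `f'`. -/
def ElationMaps {K : Type*} [Field K] [DecidableEq K] (u m : Fin 3 → K) (f f' : Flag K) : Prop :=
  ∃ (v k : Fin 3 → K) (hv : v ≠ 0) (hk : k ≠ 0) (hv' : v + (m ⬝ᵥ v) • u ≠ 0)
    (hk' : k - (u ⬝ᵥ k) • m ≠ 0),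
    f.1 = (Projectivization.mk K v hv, Projectivization.mk K k hk) ∧
    f'.1 = (Projectivization.mk K (v + (m ⬝ᵥ v) • u) hv', Projectivization.mk K (k - (u ⬝ᵥ k) • m) hk')

end Pool.Agent.Lib.MP_6b0fe3_coR
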