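import Pool.Agent.Lib.MP_6b0fe3_coR.SigmaE
import Pool.Agent.Lib.MP_6b0fe3_coR.GrpKa

/-! MP_6b0fe3_co, L2: coordinates of the B-lines with one parameter `τ`, any finite field -/

namespace Pool.Agent.Lib.MP_6b0fe3_coR

open Matrix

/-- representation of an outside point with parameter `τ` -/
def RepT {K : Type*} [Field K] {Pt Ln : Type*} {I : Pt → Ln → Prop} (S : Sub K I) (τ : K) (x : Pt)
    (v w ψ : Fin 3 → K) : Prop :=
  ψ ⬝ᵥ w = 1 ∧ ψ ⬝ᵥ v = 0 ∧ Over S x v (w ⨯₃ v) ∧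
    ∀ r m, IsFlag r m → Opp v (w ⨯₃ v) r m →
      (Near I x (S.pt r m) ↔ (w ⨯₃ v) ⬝ᵥ r * (m ⬝ᵥ w) = τ * (ψ ⬝ᵥ r * (m ⬝ᵥ v)))

/-- coordinates of a B-line with parameter `τ` -/
def StdT {K : Type*} [Field K] {Pt Ln : Type*} {I : Pt → Ln → Prop} (S : Sub K I) (τ : K) (M : Ln)
    (w ψ : Fin 3 → K) : Prop :=
  ψ ⬝ᵥ w = 1 ∧ ∀ v, v ≠ 0 → ψ ⬝ᵥ v = 0 → ∃ x, I x M ∧ Over S x v (w ⨯₃ v) ∧
    ∀ r m, IsFlag r m → Opp v (w ⨯₃ v) r m →
      (Near I x (S.pt r m) ↔ (w ⨯₃ v) ⬝ᵥ r * (m ⬝ᵥ w) = τ * (ψ ⬝ᵥ r * (m ⬝ᵥ v)))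

section L
variable {K : Type*} [Field K] [Fintype K] {Pt Ln : Type*} {I : Pt → Ln → Prop}
variable (H : Hex I (Fintype.card K)) (S : Sub K I)
include H

/-- the near flag over a point `r` off the line, with the bilinear condition evaluated -/
theorem repT_near {τ : K} {x : Pt} (hx : Out S x) {v w ψ : Fin 3 → K} (h : RepT S τ x v w ψ)
    {r : Fin 3 → K} (hr : (w ⨯₃ v) ⬝ᵥ r ≠ 0) :
    ∃ m, IsFlag r m ∧ Near I x (S.pt r m) ∧ Opp v (w ⨯₃ v) r m ∧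
      (w ⨯₃ v) ⬝ᵥ r * (m ⬝ᵥ w) = τ * (ψ ⬝ᵥ r * (m ⬝ᵥ v)) := by
  obtain ⟨h1, h2, h3, h4⟩ := h
  have hr0 : r ≠ 0 := by
    rintro rfl
    exact hr (dotProduct_zero _)
  obtain ⟨m, hm, hn⟩ := theta_exists H S hx h3 hr0
  have hr' : r ⬝ᵥ (w ⨯₃ v) ≠ 0 := by rw [dotProduct_comm]; exact hr
  have ho : Opp v (w ⨯₃ v) r m := ⟨near_opp H S hx h3 hm hn hr', hr'⟩
  exact ⟨m, hm, hn, ho, (h4 r m hm ho).1 hn⟩

theorem repT_unique {τ τ' : K} {x : Pt} (hx : Out S x)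
    {v w ψ w' ψ' : Fin 3 → K} (h : RepT S τ x v w ψ) (h' : RepT S τ' x v w' ψ') :
    ∃ c : K, c ≠ 0 ∧ τ' = c ^ 3 * τ := by
  have hv : v ≠ 0 := h.2.2.1.1.1
  have hφ : w ⨯₃ v ≠ 0 := h.2.2.1.1.2.1
  have hφ' : w' ⨯₃ v ≠ 0 := h'.2.2.1.1.2.1
  obtain ⟨c, hc⟩ := uniqL_parallel hφ (over_unique H S hx h.2.2.1 h'.2.2.1).2
  have hc0 : c ≠ 0 := by
    rintro rfl
    exact hφ' (by rw [hc, zero_smul])
  obtain ⟨s, hs⟩ := uniqL_factor hv hc
  have hform : τ' • ψ' = (τ * c ^ 2) • ψ + (c * s) • (w ⨯₃ v) := by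
    apply uniqL_forms hφ
    intro r hr
    obtain ⟨m, hm, hn, ho, he⟩ := repT_near H S hx h hr
    have ho' : Opp v (w' ⨯₃ v) r m := by
      refine ⟨ho.1, ?_⟩
      rw [hc, dotProduct_smul, smul_eq_mul]
      exact mul_ne_zero hc0 ho.2
    have he' := (h'.2.2.2 r m hm ho').1 hn
    rw [hc, hs, smul_dotProduct, smul_eq_mul, dotProduct_add, dotProduct_smul, dotProduct_smul,
      smul_eq_mul, smul_eq_mul] at he'
    have hmv : m ⬝ᵥ v ≠ 0 := by rw [dotProduct_comm]; exact ho.1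
    apply mul_right_cancel₀ hmv
    rw [add_dotProduct, smul_dotProduct, smul_dotProduct, smul_dotProduct, smul_eq_mul,
      smul_eq_mul, smul_eq_mul]
    linear_combination (-1 : K) * he' + c ^ 2 * he
  refine ⟨c, hc0, ?_⟩
  have h2 : τ' = (τ' • ψ') ⬝ᵥ w' := by rw [smul_dotProduct, h'.1, smul_eq_mul, mul_one]
  rw [h2, hform, hs, add_dotProduct, smul_dotProduct, smul_dotProduct, dotProduct_add,
    dotProduct_add, dotProduct_smul, dotProduct_smul, dotProduct_smul, dotProduct_smul,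
    uniqL_cross_self_left, uniqL_cross_self_right, h.1, h.2.1]
  simp only [smul_eq_mul]
  ring

theorem repT_aline {τ τ' : K} {v k : Fin 3 → K} {t : Ln}
    (ht : ALine S v k t) {x y : Pt} (hx : I x t) (hy : I y t) (hox : Out S x) (hoy : Out S y)
    {w ψ w' ψ' : Fin 3 → K} (h : RepT S τ x v w ψ) (h' : RepT S τ' y v w' ψ') :
    ∃ c : K, c ≠ 0 ∧ τ' = c ^ 3 * τ := by
  by_cases hxy : x = y
  · subst hxy
    exact repT_unique H S hox h h'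
  have hv : v ≠ 0 := h.2.2.1.1.1
  have hφ : w ⨯₃ v ≠ 0 := h.2.2.1.1.2.1
  have hφ' : w' ⨯₃ v ≠ 0 := h'.2.2.1.1.2.1
  have hk : k ≠ 0 := ht.1.2.1
  have hxv := (out_of_aline H S ht hx (hox v k ht.1)).2
  have hyv := (out_of_aline H S ht hy (hoy v k ht.1)).2
  obtain ⟨a, ha⟩ := uniqL_parallel hk (over_unique H S hox hxv h.2.2.1).2
  obtain ⟨b, hb⟩ := uniqL_parallel hk (over_unique H S hoy hyv h'.2.2.1).2
  have ha0 : a ≠ 0 := by
    rintro rfl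
    exact hφ (by rw [ha, zero_smul])
  have hb0 : b ≠ 0 := by
    rintro rfl
    exact hφ' (by rw [hb, zero_smul])
  obtain ⟨c, hc, hc0⟩ : ∃ c : K, w' ⨯₃ v = c • (w ⨯₃ v) ∧ c ≠ 0 := by
    refine ⟨b / a, ?_, div_ne_zero hb0 ha0⟩
    rw [hb, ha, smul_smul, div_mul_cancel₀ _ ha0]
  obtain ⟨s, hs⟩ := uniqL_factor hv hc
  have hne : ∀ r : Fin 3 → K, (w ⨯₃ v) ⬝ᵥ r ≠ 0 →
      τ' * (ψ' ⬝ᵥ r) ≠ τ * c ^ 2 * (ψ ⬝ᵥ r) + c * s * ((w ⨯₃ v) ⬝ᵥ r) := by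
    intro r hr he
    obtain ⟨m, hm, hn, ho, hb1⟩ := repT_near H S hox h hr
    have ho' : Opp v (w' ⨯₃ v) r m := by
      refine ⟨ho.1, ?_⟩
      rw [hc, dotProduct_smul, smul_eq_mul]
      exact mul_ne_zero hc0 ho.2
    have hn' : Near I y (S.pt r m) := by
      apply (h'.2.2.2 r m hm ho').2
      rw [hc, hs, smul_dotProduct, smul_eq_mul, dotProduct_add, dotProduct_smul, dotProduct_smul,
        smul_eq_mul, smul_eq_mul]
      linear_combination c ^ 2 * hb1 - (m ⬝ᵥ v) * he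
    have hok : Opp v k r m := by
      refine ⟨ho.1, ?_⟩
      intro h0
      apply ho.2
      rw [ha, dotProduct_smul, h0, smul_zero]
    exact hxy (near_aline_unique H S ht hm hok hx hy hn hn')
  have hpar : (w ⨯₃ v) ⨯₃ (τ' • ψ' - (τ * c ^ 2) • ψ - (c * s) • (w ⨯₃ v)) = 0 := by
    by_contra hno
    obtain ⟨u, hu⟩ := uniqL_nondeg hno
    have hφr : (w ⨯₃ v) ⬝ᵥ ((τ' • ψ' - (τ * c ^ 2) • ψ - (c * s) • (w ⨯₃ v)) ⨯₃ u) ≠ 0 := by
      intro h0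
      apply hu
      rw [← h0]
      simp only [cross_apply, vec3_dotProduct]
      simp
      ring
    apply hne _ hφr
    have hδ : (τ' • ψ' - (τ * c ^ 2) • ψ - (c * s) • (w ⨯₃ v)) ⬝ᵥ
        ((τ' • ψ' - (τ * c ^ 2) • ψ - (c * s) • (w ⨯₃ v)) ⨯₃ u) = 0 := dot_self_cross _ _
    have hlin : ∀ z : Fin 3 → K, (τ' • ψ' - (τ * c ^ 2) • ψ - (c * s) • (w ⨯₃ v)) ⬝ᵥ z =
        τ' * (ψ' ⬝ᵥ z) - τ * c ^ 2 * (ψ ⬝ᵥ z) - c * s * ((w ⨯₃ v) ⬝ᵥ z) := by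
      intro z
      rw [sub_dotProduct, sub_dotProduct, smul_dotProduct, smul_dotProduct, smul_dotProduct,
        smul_eq_mul, smul_eq_mul, smul_eq_mul]
    rw [hlin] at hδ
    linear_combination hδ
  obtain ⟨e, he⟩ := uniqL_parallel hφ hpar
  have hform : τ' • ψ' = (τ * c ^ 2) • ψ + (c * s + e) • (w ⨯₃ v) := by
    rw [add_smul, ← he]
    abel
  refine ⟨c, hc0, ?_⟩
  have h2 : τ' = (τ' • ψ') ⬝ᵥ w' := by rw [smul_dotProduct, h'.1, smul_eq_mul, mul_one]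
  rw [h2, hform, hs, add_dotProduct, smul_dotProduct, smul_dotProduct, dotProduct_add,
    dotProduct_add, dotProduct_smul, dotProduct_smul, dotProduct_smul, dotProduct_smul,
    uniqL_cross_self_left, uniqL_cross_self_right, h.1, h.2.1]
  simp only [smul_eq_mul]
  ring

omit H [Fintype K] in
theorem repT_smul {τ : K} {x : Pt} {v w ψ : Fin 3 → K} (h : RepT S τ x v w ψ) {c : K}
    (hc : c ≠ 0) : RepT S τ x (c • v) w ψ := by
  obtain ⟨h1, h2, ⟨h5, h6⟩, h4⟩ := h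
  have hcr : w ⨯₃ (c • v) = c • (w ⨯₃ v) := by rw [map_smul]
  have hfl : IsFlag (c • v) (c • (w ⨯₃ v)) := by
    refine ⟨smul_ne_zero hc h5.1, smul_ne_zero hc h5.2.1, ?_⟩
    rw [smul_dotProduct, dotProduct_smul, h5.2.2, smul_zero, smul_zero]
  have hpt : S.pt (c • v) (c • (w ⨯₃ v)) = S.pt v (w ⨯₃ v) := by
    rw [S.pt_eq hfl h5]
    constructor
    · rw [map_smul, LinearMap.smul_apply, cross_self, smul_zero]
    · rw [map_smul, LinearMap.smul_apply, cross_self, smul_zero]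
  refine ⟨h1, ?_, ⟨?_, ?_⟩, ?_⟩
  · rw [dotProduct_smul, h2, smul_zero]
  · rw [hcr]; exact hfl
  · rw [hcr, hpt]; exact h6
  · intro r m hf ho
    rw [hcr] at ho ⊢
    have ho' : Opp v (w ⨯₃ v) r m := by
      refine ⟨?_, ?_⟩
      · intro h0
        exact ho.1 (by rw [smul_dotProduct, h0, smul_zero])
      · intro h0
        exact ho.2 (by rw [dotProduct_smul, h0, smul_zero])
    rw [h4 r m hf ho', smul_dotProduct, dotProduct_smul, smul_eq_mul, smul_eq_mul]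
    constructor
    · intro h0
      linear_combination c * h0
    · intro h0
      apply mul_left_cancel₀ hc
      linear_combination h0

/-- a B-line through an outside point -/
theorem bline_exists {x : Pt} (hx : Out S x) : ∃ M, BLine S M ∧ I x M := by
  obtain ⟨v, k, hv⟩ := over_exists H S hx
  obtain ⟨e, he⟩ := uniqL_nondeg hv.1.2.1
  have he0 : e ≠ 0 := by
    rintro rfl
    exact he (dotProduct_zero _)
  obtain ⟨m, hm, hn⟩ := theta_exists H S hx hv he0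
  have hek : e ⬝ᵥ k ≠ 0 := by rw [dotProduct_comm]; exact he
  have hvm := near_opp H S hx hv hm hn hek
  obtain ⟨M, hM, hxM, -⟩ := bline_through H S hx hv hm ⟨hvm, hek⟩ hn
  exact ⟨M, hM, hxM⟩

variable (hLB : LB S)
    (hZ : ∀ v0 k0 : Fin 3 → K, IsFlag v0 k0 → ∀ x, Out S x → Over S x v0 k0 → ∀ s : K,
      ∃ g : Equiv.Perm Pt × Equiv.Perm Ln, IsAut I g ∧
      (∀ v k, IsFlag v k →
        g.1 (S.pt v k) = S.pt (v + (s * (k0 ⬝ᵥ v)) • v0) (k - (s * (v0 ⬝ᵥ k)) • k0)) ∧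
      g.1 x = x)
include hLB hZ

/-- every B-line has coordinates with some parameter -/
theorem tau_bline {M : Ln} (hM : BLine S M) : ∃ (w ψ : Fin 3 → K) (σ : K), σ ≠ 0 ∧
    ψ ⬝ᵥ w = 1 ∧ (∀ v, v ≠ 0 → ψ ⬝ᵥ v = 0 → ∃ x, I x M ∧ Over S x v (w ⨯₃ v)) ∧
    ∀ x v k, I x M → Over S x v k → RepT S σ x v w ψ := by
  obtain ⟨w, ψ, hψ, hb⟩ := base_exists H S hLB hM
  obtain ⟨σ, hσ, hc⟩ := sigma_constE H S hLB hZ hM hψ hb
  have hnear := near_iffG H S hLB hM hψ hb hσ hc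
  refine ⟨w, ψ, σ, hσ, hψ, hb, ?_⟩
  intro x v k hx hv
  obtain ⟨hψv, hkw⟩ := base_only H S hM hψ hb hx hv
  obtain ⟨y, hy, hoy⟩ := hb v hv.1.1 hψv
  have hxy : x = y := by
    by_contra hne
    have := (opp_of_bline H S hM hx hy hne hv hoy).1
    rw [dot_cross_self] at this
    exact this rfl
  subst hxy
  exact ⟨hψ, hψv, hoy, fun r m hf ho => hnear v x hv.1.1 hψv hx hoy r m hf ho⟩

/-- one parameter `τ` for all B-lines -/
theorem tau_const : ∃ τ : K, τ ≠ 0 ∧ ∀ M, BLine S M → ∃ w ψ, StdT S τ M w ψ := by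
  -- a start
  have hf0 : IsFlag (K := K) ![1, 0, 0] ![0, 1, 0] := by
    refine ⟨?_, ?_, ?_⟩
    · intro h
      exact one_ne_zero (congrFun h 0)
    · intro h
      exact one_ne_zero (congrFun h 1)
    · simp [dotProduct, Fin.sum_univ_three]
  obtain ⟨-, x0, -, -, hx0, -⟩ := exists_over H S hf0
  obtain ⟨M0, hM0, hxM0⟩ := bline_exists H S hx0
  obtain ⟨w0, ψ0, τ, hτ, -, -, hr0⟩ := tau_bline H S hLB hZ hM0
  let P : Pt → Prop := fun x => ∀ v w ψ τ', RepT S τ' x v w ψ → ∃ c : K, c ≠ 0 ∧ τ' = c ^ 3 * τ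
  have hmul : ∀ {a b : K}, (∃ c : K, c ≠ 0 ∧ a = c ^ 3 * τ) → (∃ c : K, c ≠ 0 ∧ b = c ^ 3 * a) →
      ∃ c : K, c ≠ 0 ∧ b = c ^ 3 * τ := by
    rintro a b ⟨c, hc, rfl⟩ ⟨d, hd, rfl⟩
    exact ⟨d * c, mul_ne_zero hd hc, by ring⟩
  -- two points of the same B-line
  have hB : ∀ {x y : Pt} {l : Ln}, Out S x → Out S y → I x l → I y l → BLine S l → P x → P y := by
    intro x y l hx hy hxl hyl hl hPx
    obtain ⟨w, ψ, σ, -, -, -, hr⟩ := tau_bline H S hLB hZ hl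
    obtain ⟨v, k, hv⟩ := over_exists H S hx
    have h1 := hPx v w ψ σ (hr x v k hxl hv)
    intro v' w' ψ' τ' h'
    exact hmul h1 (repT_unique H S hy (hr y v' _ hyl h'.2.2.1) h')
  have hP : ∀ x y, Out S x → Out S y → Coll I x y → P x → P y := by
    rintro x y hx hy ⟨l, hxl, hyl⟩ hPx
    by_cases hl : BLine S l
    · exact hB hx hy hxl hyl hl hPx
    · obtain ⟨v, k, ht, hxo⟩ := aline_of_not_bline H S hx hxl hl
      have hyo := (out_of_aline H S ht hyl (hy v k ht.1)).2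
      obtain ⟨M, hM, hxM⟩ := bline_exists H S hx
      obtain ⟨w, ψ, σ, -, -, -, hr⟩ := tau_bline H S hLB hZ hM
      have hrx := hr x v k hxM hxo
      have h1 := hPx v w ψ σ hrx
      intro v' w' ψ' τ' h'
      obtain ⟨c, hc0, hc⟩ := (cross_eq_zero_iff h'.2.2.1.1.1 hyo.1.1).1
        (over_unique H S hy h'.2.2.1 hyo).1
      have h2 := repT_smul S h' hc0
      rw [← hc] at h2
      exact hmul h1 (repT_aline H S ht hxl hyl hx hy hrx h2)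
  have hP0 : P x0 := by
    intro v w ψ τ' h'
    exact repT_unique H S hx0 (hr0 x0 v _ hxM0 h'.2.2.1) h'
  refine ⟨τ, hτ, ?_⟩
  intro M hM
  obtain ⟨w, ψ, σ, hσ, hψ, hb, hr⟩ := tau_bline H S hLB hZ hM
  -- a point of `M`
  have hcard := H.lineCard M
  have hpos : 0 < {x | I x M}.ncard := by omega
  obtain ⟨x, hx⟩ := (Set.ncard_pos (Set.finite_of_ncard_pos hpos)).1 hpos
  have hx' : I x M := hx
  have hox := out_of_bline H S hM hx'
  obtain ⟨v1, k1, hv1⟩ := over_exists H S hox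
  obtain ⟨c, hc0, hc⟩ := conn H S hP hx0 hP0 hox v1 w ψ σ (hr x v1 k1 hx' hv1)
  -- rescale
  set l : K := c⁻¹ with hl
  have hl0 : l ≠ 0 := inv_ne_zero hc0
  have hl3 : l * l * l * σ = τ := by
    rw [hc, hl]
    field_simp
  have hcr : ∀ v, (l • w) ⨯₃ v = l • (w ⨯₃ v) := by
    intro v
    rw [map_smul, LinearMap.smul_apply]
  refine ⟨l • w, l⁻¹ • ψ, ?_, ?_⟩
  · rw [smul_dotProduct, dotProduct_smul, hψ, smul_eq_mul, smul_eq_mul, mul_one,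
      inv_mul_cancel₀ hl0]
  · intro v hv0 hv
    have hv' : ψ ⬝ᵥ v = 0 := by
      rw [smul_dotProduct, smul_eq_mul] at hv
      exact (mul_eq_zero.1 hv).resolve_left (inv_ne_zero hl0)
    obtain ⟨x, hx, hxo⟩ := hb v hv0 hv'
    have p1 := pt_smul' S hxo.1 (a := 1) (b := l) one_ne_zero hl0
    rw [one_smul, ← hcr] at p1
    refine ⟨x, hx, over_of_pt_eq S hxo p1.1 p1.2, ?_⟩
    intro r m hf hopp
    have hopp' : Opp v (w ⨯₃ v) r m := by
      refine ⟨hopp.1, ?_⟩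
      have := hopp.2
      rw [hcr, dotProduct_smul, smul_eq_mul] at this
      exact right_ne_zero_of_mul this
    rw [(hr x v _ hx hxo).2.2.2 r m hf hopp', hcr, smul_dotProduct, smul_dotProduct,
      dotProduct_smul, smul_eq_mul, smul_eq_mul, smul_eq_mul]
    have hll : l * l⁻¹ = 1 := mul_inv_cancel₀ hl0
    constructor
    · intro h
      apply mul_left_cancel₀ hl0
      linear_combination (l * l * l) * h + (ψ ⬝ᵥ r * (m ⬝ᵥ v)) * hl3
        - τ * (ψ ⬝ᵥ r * (m ⬝ᵥ v)) * hll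
    · intro h
      apply mul_left_cancel₀ (mul_ne_zero (mul_ne_zero hl0 hl0) hl0)
      linear_combination l * h - (ψ ⬝ᵥ r * (m ⬝ᵥ v)) * hl3
        + τ * (ψ ⬝ᵥ r * (m ⬝ᵥ v)) * hll

end L

end Pool.Agent.Lib.MP_6b0fe3_coR
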