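import Pool.Agent.Lib.MP_6b0fe3_coR.FlagD
import Pool.Agent.Lib.MP_6b0fe3_coR.Vec

/-! MP_6b0fe3_co, recognition theorem: the bijection theta_x -/

namespace Pool.Agent.Lib.MP_6b0fe3_coR

open Matrix

section pre
variable {K : Type*} [Field K] {Pt Ln : Type*} {I : Pt → Ln → Prop}

theorem thetaE_isFlag_swap {v k : Fin 3 → K} (h : IsFlag v k) : IsFlag k v :=
  ⟨h.2.1, h.1, by rw [dotProduct_comm]; exact h.2.2⟩

theorem thetaE_coll_swap {a b : Pt} (h : Coll I a b) : Coll I b a := by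
  obtain ⟨l, h1, h2⟩ := h
  exact ⟨l, h2, h1⟩

theorem thetaE_inc_lp (S : Sub K I) {v k : Fin 3 → K} (h : IsFlag v k) :
    I (S.pt v k) (S.lp v) := (S.inc_lp h h.1).2 (cross_self v)

theorem thetaE_inc_ll (S : Sub K I) {v k : Fin 3 → K} (h : IsFlag v k) :
    I (S.pt v k) (S.ll k) := (S.inc_ll h h.2.1).2 (cross_self k)

theorem thetaE_dot_left {v r k : Fin 3 → K} (hv : v ≠ 0) (hr : r ≠ 0)
    (h : v ⨯₃ r = 0) (hk : v ⬝ᵥ k = 0) : r ⬝ᵥ k = 0 := by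
  obtain ⟨c, -, rfl⟩ := (cross_eq_zero_iff hv hr).1 h
  rw [smul_dotProduct, hk, smul_zero]

theorem thetaE_dot_right {k m r : Fin 3 → K} (hk : k ≠ 0) (hm : m ≠ 0)
    (h : k ⨯₃ m = 0) (hr : r ⬝ᵥ m = 0) : r ⬝ᵥ k = 0 := by
  obtain ⟨c, hc, rfl⟩ := (cross_eq_zero_iff hk hm).1 h
  rw [dotProduct_smul, smul_eq_mul] at hr
  exact (mul_eq_zero.1 hr).resolve_left hc

end pre

section main
variable {K : Type*} [Field K] [Fintype K] {Pt Ln : Type*} {I : Pt → Ln → Prop}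
variable (H : Hex I (Fintype.card K)) (S : Sub K I)
include H

/-! E: the bijection theta_x -/

/-- a neighbour of two different flags on `ll m` is a flag on `ll m` -/
theorem thetaE_flag_of_coll_ll {z : Pt} {r r' m : Fin 3 → K} (h : IsFlag r m) (h' : IsFlag r' m)
    (hne : r ⨯₃ r' ≠ 0) (h1 : Coll I z (S.pt r m)) (h2 : Coll I z (S.pt r' m)) :
    ∃ a, IsFlag a m ∧ z = S.pt a m := by
  have h3 : Coll I (S.pt r m) (S.pt r' m) := ⟨S.ll m, thetaE_inc_ll S h, thetaE_inc_ll S h'⟩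
  obtain ⟨l, hz, ha, hb⟩ := H.tri h1 h3 h2
  have hl : l = S.ll m := by
    refine H.uniq ha hb (thetaE_inc_ll S h) (thetaE_inc_ll S h') ?_
    intro he
    exact hne ((S.pt_eq h h').1 he).1
  rw [hl] at hz
  exact flag_on_ll H S h.2.1 hz

/-- a neighbour of two different flags on `lp r` is a flag on `lp r` -/
theorem thetaE_flag_of_coll_lp {z : Pt} {r m m' : Fin 3 → K} (h : IsFlag r m) (h' : IsFlag r m')
    (hne : m ⨯₃ m' ≠ 0) (h1 : Coll I z (S.pt r m)) (h2 : Coll I z (S.pt r m')) :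
    ∃ a, IsFlag r a ∧ z = S.pt r a := by
  have h3 : Coll I (S.pt r m) (S.pt r m') := ⟨S.lp r, thetaE_inc_lp S h, thetaE_inc_lp S h'⟩
  obtain ⟨l, hz, ha, hb⟩ := H.tri h1 h3 h2
  have hl : l = S.lp r := by
    refine H.uniq ha hb (thetaE_inc_lp S h) (thetaE_inc_lp S h') ?_
    intro he
    exact hne ((S.pt_eq h h').1 he).2
  rw [hl] at hz
  exact flag_on_lp H S h.1 hz

theorem near_opp {x : Pt} (hx : Out S x) {v k r m : Fin 3 → K} (h : Over S x v k)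
    (hf : IsFlag r m) (hn : Near I x (S.pt r m)) (hr : r ⬝ᵥ k ≠ 0) : v ⬝ᵥ m ≠ 0 := by
  intro h0
  obtain ⟨hvk, hxf⟩ := h
  obtain ⟨z, hxz, hzg⟩ := hn
  have hh : IsFlag v m := ⟨hvk.1, hf.2.1, h0⟩
  have hkm : k ⨯₃ m ≠ 0 := fun e => hr (thetaE_dot_right hvk.2.1 hf.2.1 e hf.2.2)
  have hvr : v ⨯₃ r ≠ 0 := fun e => hr (thetaE_dot_left hvk.1 hf.1 e hvk.2.2)
  have hfh : Coll I (S.pt v k) (S.pt v m) := ⟨S.lp v, thetaE_inc_lp S hvk, thetaE_inc_lp S hh⟩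
  have hhg : Coll I (S.pt v m) (S.pt r m) := ⟨S.ll m, thetaE_inc_ll S hh, thetaE_inc_ll S hf⟩
  -- the three impossible relations
  have c1 : ¬ Coll I x (S.pt v m) := fun e => hkm (over_unique H S hx ⟨hvk, hxf⟩ ⟨hh, e⟩).2
  have c2 : ¬ Coll I (S.pt v k) (S.pt r m) := fun e =>
    (coll_flags H S hvk hf e).elim hvr hkm
  have c3 : ¬ Coll I z (S.pt v m) := by
    intro e
    obtain ⟨a, ha, hza⟩ := thetaE_flag_of_coll_ll H S hh hf hvr e hzg
    rw [hza] at hxz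
    exact hkm (over_unique H S hx ⟨hvk, hxf⟩ ⟨ha, hxz⟩).2
  have c4 : ¬ Coll I x (S.pt r m) := fun e => hkm (over_unique H S hx ⟨hvk, hxf⟩ ⟨hf, e⟩).2
  rcases H.pent hxf hfh hhg (thetaE_coll_swap hzg) (thetaE_coll_swap hxz) with e | e | e | e | e
  · exact c1 e
  · exact c2 e
  · exact c3 (thetaE_coll_swap e)
  · exact c4 (thetaE_coll_swap e)
  · rcases H.quadr hfh hhg (thetaE_coll_swap hzg) e with e' | e'
    · exact c2 e'
    · exact c3 (thetaE_coll_swap e')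

theorem near_opp' {x : Pt} (hx : Out S x) {v k r m : Fin 3 → K} (h : Over S x v k)
    (hf : IsFlag r m) (hn : Near I x (S.pt r m)) (hm : v ⬝ᵥ m ≠ 0) : r ⬝ᵥ k ≠ 0 := by
  rw [dotProduct_comm]
  refine near_opp H S.dual (x := x) (v := k) (k := v) (r := m) (m := r) ?_ ?_ (thetaE_isFlag_swap hf)
    hn ?_
  · intro a b hab
    exact hx b a (thetaE_isFlag_swap hab)
  · exact ⟨thetaE_isFlag_swap h.1, h.2⟩
  · rw [dotProduct_comm]; exact hm

theorem theta_exists {x : Pt} (hx : Out S x) {v k r : Fin 3 → K} (h : Over S x v k)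
    (hr : r ≠ 0) : ∃ m, IsFlag r m ∧ Near I x (S.pt r m) := by
  obtain ⟨y, hy, hn⟩ := H.near x (S.lp r)
  obtain ⟨m, hm, rfl⟩ := flag_on_lp H S hr hy
  exact ⟨m, hm, hn⟩

theorem theta_unique {x : Pt} (hx : Out S x) {v k r m m' : Fin 3 → K} (h : Over S x v k)
    (hr : r ⬝ᵥ k ≠ 0) (hm : IsFlag r m) (hm' : IsFlag r m') (hn : Near I x (S.pt r m))
    (hn' : Near I x (S.pt r m')) : m ⨯₃ m' = 0 := by
  by_contra hne
  obtain ⟨z, hxz, hzg⟩ := hn
  obtain ⟨z', hxz', hzg'⟩ := hn'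
  have hvr : v ⨯₃ r ≠ 0 := fun e => hr (thetaE_dot_left h.1.1 hm.1 e h.1.2.2)
  have hgg : Coll I (S.pt r m) (S.pt r m') := ⟨S.lp r, thetaE_inc_lp S hm, thetaE_inc_lp S hm'⟩
  have c0 : ∀ a, IsFlag r a → ¬ Coll I x (S.pt r a) := fun a ha e =>
    hvr (over_unique H S hx h ⟨ha, e⟩).1
  have c2 : ¬ Coll I z (S.pt r m') := by
    intro e
    obtain ⟨a, ha, hza⟩ := thetaE_flag_of_coll_lp H S hm hm' hne hzg e
    rw [hza] at hxz
    exact c0 a ha hxz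
  have c3 : ¬ Coll I z' (S.pt r m) := by
    intro e
    obtain ⟨a, ha, hza⟩ := thetaE_flag_of_coll_lp H S hm hm' hne e hzg'
    rw [hza] at hxz'
    exact c0 a ha hxz'
  rcases H.pent hxz hzg hgg (thetaE_coll_swap hzg') (thetaE_coll_swap hxz') with e | e | e | e | e
  · exact c0 m hm e
  · exact c2 e
  · exact c3 (thetaE_coll_swap e)
  · exact c0 m' hm' (thetaE_coll_swap e)
  · rcases H.quadr hzg hgg (thetaE_coll_swap hzg') e with e' | e'
    · exact c2 e'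
    · exact c3 (thetaE_coll_swap e')

theorem theta_exists' {x : Pt} (hx : Out S x) {v k m : Fin 3 → K} (h : Over S x v k)
    (hm : m ≠ 0) : ∃ r, IsFlag r m ∧ Near I x (S.pt r m) := by
  obtain ⟨y, hy, hn⟩ := H.near x (S.ll m)
  obtain ⟨r, hr, rfl⟩ := flag_on_ll H S hm hy
  exact ⟨r, hr, hn⟩

theorem theta_unique' {x : Pt} (hx : Out S x) {v k r r' m : Fin 3 → K} (h : Over S x v k)
    (hm : v ⬝ᵥ m ≠ 0) (hr : IsFlag r m) (hr' : IsFlag r' m) (hn : Near I x (S.pt r m))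
    (hn' : Near I x (S.pt r' m)) : r ⨯₃ r' = 0 := by
  refine theta_unique H S.dual (x := x) (v := k) (k := v) (r := m) (m := r) (m' := r') ?_ ?_ ?_
    (thetaE_isFlag_swap hr) (thetaE_isFlag_swap hr') hn hn'
  · intro a b hab
    exact hx b a (thetaE_isFlag_swap hab)
  · exact ⟨thetaE_isFlag_swap h.1, h.2⟩
  · rw [dotProduct_comm]; exact hm

end main

end Pool.Agent.Lib.MP_6b0fe3_coR
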